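import Mathlib

/-!
Multilinear algebra for MP_3fa020_gt: functions of a matrix that are linear in each column,
double alternation, covariance, polarization.
-/

namespace Pool.Agent.Alesker

open Finset Matrix

noncomputable section

/-- sign of a permutation as a real number -/
def sg {ι : Type} [Fintype ι] [DecidableEq ι] (σ : Equiv.Perm ι) : ℝ :=
  ((Equiv.Perm.sign σ : ℤ) : ℝ)

section ML
variable {ι κ : Type} [Fintype ι] [DecidableEq ι] [Fintype κ] [DecidableEq κ]

lemma sg_mul (σ τ : Equiv.Perm ι) : sg (σ * τ) = sg σ * sg τ := by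
  simp [sg]

lemma sg_sq (σ : Equiv.Perm ι) : sg σ * sg σ = 1 := by
  unfold sg
  rcases Int.units_eq_one_or (Equiv.Perm.sign σ) with h | h <;> simp [h]

lemma abs_sg (σ : Equiv.Perm ι) : |sg σ| = 1 := by
  unfold sg
  rcases Int.units_eq_one_or (Equiv.Perm.sign σ) with h | h <;> simp [h]

lemma sg_inv (σ : Equiv.Perm ι) : sg σ⁻¹ = sg σ := by
  simp [sg]

lemma sg_swap {i j : ι} (h : i ≠ j) : sg (Equiv.swap i j) = -1 := by
  simp [sg, Equiv.Perm.sign_swap h]

def pureF (α : Matrix ι κ ℝ) (V : Matrix κ ι ℝ) : ℝ := ∏ s, (α * V) s s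

/-- linear in each column -/
def ML (T : Matrix κ ι ℝ → ℝ) : Prop :=
  T ∈ Submodule.span ℝ (Set.range (pureF (ι := ι) (κ := κ)))

omit [DecidableEq ι] [DecidableEq κ] in
lemma ML.pure (α : Matrix ι κ ℝ) : ML (pureF α) :=
  Submodule.subset_span ⟨α, rfl⟩

omit [DecidableEq ι] [DecidableEq κ] in
lemma ML.sum {J : Type} (S : Finset J) (T : J → Matrix κ ι ℝ → ℝ) (h : ∀ j ∈ S, ML (T j)) :
    ML (fun V => ∑ j ∈ S, T j V) := by
  have : (fun V => ∑ j ∈ S, T j V) = ∑ j ∈ S, T j := by
    funext V; simp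
  rw [this]
  exact Submodule.sum_mem _ h

omit [DecidableEq ι] [DecidableEq κ] in
lemma ML.mul (c : ℝ) {T : Matrix κ ι ℝ → ℝ} (h : ML T) : ML (fun V => c * T V) :=
  Submodule.smul_mem _ c h

omit [DecidableEq ι] [DecidableEq κ] in
lemma ML.ind {p : (Matrix κ ι ℝ → ℝ) → Prop} (h1 : ∀ α, p (pureF α)) (h0 : p 0)
    (hadd : ∀ S T, p S → p T → p (S + T)) (hsm : ∀ (c : ℝ) T, p T → p (c • T))
    {T : Matrix κ ι ℝ → ℝ} (hT : ML T) : p T := by
  unfold ML at hT
  induction hT using Submodule.span_induction with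
  | mem x hx => obtain ⟨α, rfl⟩ := hx; exact h1 α
  | zero => exact h0
  | add x y _ _ hx hy => exact hadd _ _ hx hy
  | smul c x _ hx => exact hsm _ _ hx

omit [DecidableEq κ] in
lemma ML.expand {π : Type} [Fintype π] [DecidableEq π] {T : Matrix κ ι ℝ → ℝ} (hT : ML T)
    (X : Matrix κ π ℝ) (Y : Matrix π ι ℝ) :
    T (X * Y) = ∑ A : ι → π, (∏ s, Y (A s) s) * T (X.submatrix id A) := by
  refine ML.ind (p := fun T => T (X * Y) = ∑ A : ι → π, (∏ s, Y (A s) s) * T (X.submatrix id A))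
    ?_ ?_ ?_ ?_ hT
  · intro α
    unfold pureF
    rw [← Matrix.mul_assoc]
    have h1 : ∀ s, (α * X * Y) s s = ∑ p, (α * X) s p * Y p s := fun s => Matrix.mul_apply
    simp_rw [h1]
    rw [Finset.prod_univ_sum, Fintype.piFinset_univ]
    refine sum_congr rfl fun A _ => ?_
    rw [← prod_mul_distrib]
    refine prod_congr rfl fun s _ => ?_
    rw [mul_comm]
    rfl
  · simp
  · intro S T hS hT
    simp only [Pi.add_apply, mul_add, sum_add_distrib, hS, hT]
  · intro c T hT
    simp only [Pi.smul_apply, smul_eq_mul, hT, mul_sum]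
    exact sum_congr rfl fun A _ => by ring

omit [DecidableEq κ] in
lemma alt_pure (α : Matrix ι κ ℝ) (V : Matrix κ ι ℝ) :
    ∑ σ : Equiv.Perm ι, sg σ * pureF α (V.submatrix id σ) = (α * V).det := by
  rw [← Matrix.det_transpose, Matrix.det_apply']
  rfl

omit [DecidableEq κ] in
lemma ML.cov {T : Matrix κ ι ℝ → ℝ} (hT : ML T) (V : Matrix κ ι ℝ) (B : Matrix ι ι ℝ) :
    ∑ σ : Equiv.Perm ι, sg σ * T ((V * B).submatrix id σ) =
      B.det * ∑ σ : Equiv.Perm ι, sg σ * T (V.submatrix id σ) := by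
  refine ML.ind (p := fun T => ∑ σ : Equiv.Perm ι, sg σ * T ((V * B).submatrix id σ) =
      B.det * ∑ σ : Equiv.Perm ι, sg σ * T (V.submatrix id σ)) ?_ ?_ ?_ ?_ hT
  · intro α
    rw [alt_pure, alt_pure, ← Matrix.mul_assoc, Matrix.det_mul, mul_comm]
  · simp
  · intro S T hS hT
    simp only [Pi.add_apply, mul_add, sum_add_distrib, hS, hT]
  · intro c T hT
    simp only [Pi.smul_apply, smul_eq_mul, mul_left_comm _ c, ← mul_sum, hT]

omit [DecidableEq ι] [DecidableEq κ] in
lemma ML.perm {T : Matrix κ ι ℝ → ℝ} (hT : ML T) (σ : Equiv.Perm ι) :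
    ML (fun V => T (V.submatrix id σ)) := by
  refine ML.ind (p := fun T => ML (fun V => T (V.submatrix id σ))) ?_ ?_ ?_ ?_ hT
  · intro α
    have : (fun V : Matrix κ ι ℝ => pureF α (V.submatrix id σ)) =
        pureF (α.submatrix σ.symm id) := by
      funext V
      unfold pureF
      rw [← Equiv.prod_comp σ (fun s => (α.submatrix σ.symm id * V) s s)]
      refine prod_congr rfl fun s _ => ?_
      simp [Matrix.mul_apply]
    rw [this]
    exact ML.pure _
  · exact Submodule.zero_mem _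
  · intro S T hS hT
    exact Submodule.add_mem _ hS hT
  · intro c T hT
    exact Submodule.smul_mem _ c hT

lemma ML.lin {T : Matrix κ ι ℝ → ℝ} (hT : ML T) (V : Matrix κ ι ℝ) (s : ι) (u : κ → ℝ) :
    T (V.updateCol s u) = ∑ i, u i * T (V.updateCol s (Pi.single i 1)) := by
  refine ML.ind (p := fun T => T (V.updateCol s u) =
    ∑ i, u i * T (V.updateCol s (Pi.single i 1))) ?_ ?_ ?_ ?_ hT
  · intro α
    have key : ∀ w : κ → ℝ, pureF α (V.updateCol s w) =
        (∑ i, α s i * w i) * ∏ s' ∈ univ.erase s, (α * V) s' s' := by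
      intro w
      unfold pureF
      rw [← mul_prod_erase univ _ (mem_univ s)]
      congr 1
      · simp [Matrix.mul_apply]
      · refine prod_congr rfl fun s' hs' => ?_
        have : s' ≠ s := ne_of_mem_erase hs'
        simp [Matrix.mul_apply, this]
    simp_rw [key]
    rw [sum_mul]
    refine sum_congr rfl fun i _ => ?_
    simp [Pi.single_apply]
    ring
  · simp
  · intro S T hS hT
    simp only [Pi.add_apply, mul_add, sum_add_distrib, hS, hT]
  · intro c T hT
    simp only [Pi.smul_apply, smul_eq_mul, hT, mul_sum]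
    exact sum_congr rfl fun A _ => by ring

/-- linear in each column of each of two matrices -/
def ML2 (T : Matrix κ ι ℝ → Matrix κ ι ℝ → ℝ) : Prop :=
  (∀ W, ML (fun V => T V W)) ∧ ∀ V, ML (T V)

/-- double alternation -/
def D2 (T : Matrix κ ι ℝ → Matrix κ ι ℝ → ℝ) (V W : Matrix κ ι ℝ) : ℝ :=
  ∑ σ : Equiv.Perm ι, ∑ τ : Equiv.Perm ι,
    sg σ * sg τ * T (V.submatrix id σ) (W.submatrix id τ)

omit [DecidableEq κ] in
lemma ML2.cov {T : Matrix κ ι ℝ → Matrix κ ι ℝ → ℝ} (hT : ML2 T) (V W : Matrix κ ι ℝ)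
    (B : Matrix ι ι ℝ) : D2 T (V * B) (W * B) = B.det ^ 2 * D2 T V W := by
  unfold D2
  have h1 : ∀ σ : Equiv.Perm ι, ∑ τ : Equiv.Perm ι,
      sg σ * sg τ * T ((V * B).submatrix id σ) ((W * B).submatrix id τ) =
      B.det * ∑ τ : Equiv.Perm ι, sg τ * (sg σ * T ((V * B).submatrix id σ) (W.submatrix id τ)) := by
    intro σ
    simp_rw [mul_assoc, mul_left_comm _ (sg σ)]
    rw [← mul_sum, ← mul_sum, (hT.2 _).cov W B]
    ring
  simp_rw [h1]
  rw [← mul_sum, sum_comm]
  have h2 : ∀ τ : Equiv.Perm ι, ∑ σ : Equiv.Perm ι,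
      sg τ * (sg σ * T ((V * B).submatrix id σ) (W.submatrix id τ)) =
      B.det * ∑ σ : Equiv.Perm ι, sg σ * sg τ * T (V.submatrix id σ) (W.submatrix id τ) := by
    intro τ
    rw [← mul_sum, (hT.1 _).cov V B, mul_left_comm, mul_sum]
    congr 1
    exact sum_congr rfl fun σ _ => by ring
  simp_rw [h2]
  rw [← mul_sum, sum_comm]
  ring

omit [DecidableEq κ] in
lemma ML2.d2 {T : Matrix κ ι ℝ → Matrix κ ι ℝ → ℝ} (hT : ML2 T) : ML2 (D2 T) := by
  constructor
  · intro W
    unfold D2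
    exact ML.sum _ _ fun σ _ => ML.sum _ _ fun τ _ => ML.mul _ ((hT.1 _).perm σ)
  · intro V
    unfold D2
    exact ML.sum _ _ fun σ _ => ML.sum _ _ fun τ _ => ML.mul _ ((hT.2 _).perm τ)

/-- the grid of matrices whose columns are `θ (e_a + e_b)` -/
def gridM (θ : ℝ) (a : ι → κ × κ) : Matrix κ ι ℝ :=
  Matrix.of fun i s => θ * ((Pi.single (a s).1 1 : κ → ℝ) i + (Pi.single (a s).2 1 : κ → ℝ) i)

omit [Fintype ι] [DecidableEq ι] in
lemma quad_bound (β : κ → κ → ℝ) (θ M R : ℝ) (hθ : 0 < θ) (hR : 0 ≤ R)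
    (h : ∀ a b : κ, |∑ i, ∑ j, (θ * ((Pi.single a 1 : κ → ℝ) i + (Pi.single b 1 : κ → ℝ) i)) *
      (θ * ((Pi.single a 1 : κ → ℝ) j + (Pi.single b 1 : κ → ℝ) j)) * β i j| ≤ M)
    (u : κ → ℝ) (hu : ∀ i, |u i| ≤ R) :
    |∑ i, ∑ j, u i * u j * β i j| ≤ (Fintype.card κ : ℝ) ^ 2 * R ^ 2 / θ ^ 2 * M := by
  have h1 : ∀ a b : κ, θ ^ 2 * |β a a + β a b + β b a + β b b| ≤ M := by
    intro a b
    have h2 := h a b
    have h3 : ∑ i, ∑ j, (θ * ((Pi.single a 1 : κ → ℝ) i + (Pi.single b 1 : κ → ℝ) i)) *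
      (θ * ((Pi.single a 1 : κ → ℝ) j + (Pi.single b 1 : κ → ℝ) j)) * β i j =
        θ ^ 2 * (β a a + β a b + β b a + β b b) := by
      simp [Pi.single_apply, mul_add, add_mul, sum_add_distrib]
      ring
    rwa [h3, abs_mul, abs_of_pos (pow_pos hθ 2)] at h2
  have hθ2 := pow_pos hθ 2
  have h4 : ∀ a b : κ, |β a b + β b a| ≤ 2 * (M / θ ^ 2) := by
    intro a b
    have e1 : |β a a + β a b + β b a + β b b| ≤ M / θ ^ 2 := by
      rw [le_div_iff₀ hθ2, mul_comm]; exact h1 a b
    have e2 : |β a a + β a a + β a a + β a a| ≤ M / θ ^ 2 := by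
      rw [le_div_iff₀ hθ2, mul_comm]; exact h1 a a
    have e3 : |β b b + β b b + β b b + β b b| ≤ M / θ ^ 2 := by
      rw [le_div_iff₀ hθ2, mul_comm]; exact h1 b b
    rw [abs_le] at *
    constructor <;> linarith [e1.1, e1.2, e2.1, e2.2, e3.1, e3.2]
  have h5 : ∑ i, ∑ j, u i * u j * β i j = ∑ i, ∑ j, u i * u j * ((β i j + β j i) / 2) := by
    have : ∑ i, ∑ j, u i * u j * β j i = ∑ i, ∑ j, u i * u j * β i j := by
      rw [sum_comm]
      exact sum_congr rfl fun i _ => sum_congr rfl fun j _ => by ring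
    have e : ∀ i j, u i * u j * ((β i j + β j i) / 2) =
        (u i * u j * β i j) / 2 + (u i * u j * β j i) / 2 := fun i j => by ring
    simp_rw [e, sum_add_distrib, ← sum_div]
    rw [this]; ring
  rw [h5]
  calc |∑ i, ∑ j, u i * u j * ((β i j + β j i) / 2)|
      ≤ ∑ i, ∑ j, |u i * u j * ((β i j + β j i) / 2)| :=
        (abs_sum_le_sum_abs _ _).trans (sum_le_sum fun i _ => abs_sum_le_sum_abs _ _)
    _ ≤ ∑ _i : κ, ∑ _j : κ, R * R * (M / θ ^ 2) := by
        refine sum_le_sum fun i _ => sum_le_sum fun j _ => ?_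
        rw [abs_mul, abs_mul, abs_div, abs_two]
        refine mul_le_mul (mul_le_mul (hu i) (hu j) (abs_nonneg _) hR) ?_ (by positivity)
          (by positivity)
        linarith [h4 i j]
    _ = _ := by
        simp only [sum_const, card_univ, nsmul_eq_mul]
        ring

lemma ML2.pol {T : Matrix κ ι ℝ → Matrix κ ι ℝ → ℝ} (hT : ML2 T) (θ M R : ℝ) (hθ : 0 < θ)
    (hR : 0 ≤ R) (h : ∀ a : ι → κ × κ, |T (gridM θ a) (gridM θ a)| ≤ M)
    (a0 : ι → κ × κ) (V : Matrix κ ι ℝ) (hV : ∀ i s, |V i s| ≤ R) :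
    |T V V| ≤ ((Fintype.card κ : ℝ) ^ 2 * R ^ 2 / θ ^ 2) ^ (Fintype.card ι) * M := by
  have key : ∀ S : Finset ι, ∀ a : ι → κ × κ,
      |T (Matrix.of fun i s => if s ∈ S then V i s else gridM θ a i s)
        (Matrix.of fun i s => if s ∈ S then V i s else gridM θ a i s)| ≤
      ((Fintype.card κ : ℝ) ^ 2 * R ^ 2 / θ ^ 2) ^ S.card * M := by
    intro S
    induction S using Finset.induction_on with
    | empty =>
      intro a
      have e : (Matrix.of fun i s => if s ∈ (∅ : Finset ι) then V i s else gridM θ a i s) =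
        gridM θ a := by ext; simp
      rw [e]; simpa using h a
    | insert s S hs ih =>
      intro a
      set X : Matrix κ ι ℝ := Matrix.of fun i s => if s ∈ S then V i s else gridM θ a i s with hX
      have hq : ∀ u : κ → ℝ, T (X.updateCol s u) (X.updateCol s u) = ∑ i, ∑ j, u i * u j *
          T (X.updateCol s (Pi.single i 1)) (X.updateCol s (Pi.single j 1)) := by
        intro u
        rw [(hT.1 _).lin X s u]
        refine sum_congr rfl fun i _ => ?_
        rw [(hT.2 _).lin X s u, mul_sum]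
        exact sum_congr rfl fun j _ => by ring
      have e1 : (Matrix.of fun i s' => if s' ∈ insert s S then V i s' else gridM θ a i s') =
          X.updateCol s (fun i => V i s) := by
        ext i s'
        by_cases h' : s' = s
        · subst h'; simp
        · simp [h', hX]
      rw [e1, hq, card_insert_of_notMem hs, pow_succ', mul_assoc]
      refine quad_bound _ θ _ R hθ hR (fun p q => ?_) _ (fun i => hV i s)
      rw [← hq]
      have e2 : X.updateCol s (fun i => θ * ((Pi.single p 1 : κ → ℝ) i +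
          (Pi.single q 1 : κ → ℝ) i)) = Matrix.of fun i s' => if s' ∈ S then V i s' else
            gridM θ (Function.update a s (p, q)) i s' := by
        ext i s'
        by_cases h' : s' = s
        · subst h'; simp [hs, gridM]
        · simp [h', hX, gridM]
      rw [e2]
      exact ih _
  have e : (Matrix.of fun i s => if s ∈ (univ : Finset ι) then V i s else gridM θ a0 i s) =
    V := by ext; simp
  have := key univ a0
  rwa [e] at this

end ML

end

end Pool.Agent.Alesker
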