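import Pool.Agent.Lib.MP_3fa020_gt.Alg

/-!
Bilinear and four-linear forms in coordinates, frames, the bound for curvature type tensors,
and the two double alternations used for MP_3fa020_gt.
-/

namespace Pool.Agent.Alesker

open Finset Matrix

noncomputable section

section Forms
variable {ι κ : Type} [Fintype κ]

/-- bilinear form with coefficients `β` -/
def bil (β : κ → κ → ℝ) (a b : κ → ℝ) : ℝ := ∑ i, ∑ j, β i j * a i * b j

/-- four-linear form with coefficients `R` -/
def q4 (R : κ → κ → κ → κ → ℝ) (a b c d : κ → ℝ) : ℝ :=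
  ∑ i, ∑ j, ∑ k, ∑ l, R i j k l * a i * b j * c k * d l

/-- a column of a matrix -/
def cl (U : Matrix κ ι ℝ) (s : ι) : κ → ℝ := fun i => U i s

lemma q4_left (R : κ → κ → κ → κ → ℝ) (a b c d : κ → ℝ) :
    q4 R a b c d = bil (fun i j => bil (R i j) c d) a b := by
  unfold q4 bil
  simp only [sum_mul]
  refine sum_congr rfl fun i _ => sum_congr rfl fun j _ => sum_congr rfl fun k _ =>
    sum_congr rfl fun l _ => by ring

lemma sum4_swap (f : κ → κ → κ → κ → ℝ) :
    ∑ i, ∑ j, ∑ k, ∑ l, f i j k l = ∑ k, ∑ l, ∑ i, ∑ j, f i j k l := by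
  calc ∑ i, ∑ j, ∑ k, ∑ l, f i j k l = ∑ i, ∑ k, ∑ j, ∑ l, f i j k l :=
        sum_congr rfl fun i _ => sum_comm
    _ = ∑ k, ∑ i, ∑ j, ∑ l, f i j k l := sum_comm
    _ = ∑ k, ∑ i, ∑ l, ∑ j, f i j k l :=
        sum_congr rfl fun k _ => sum_congr rfl fun i _ => sum_comm
    _ = ∑ k, ∑ l, ∑ i, ∑ j, f i j k l := sum_congr rfl fun k _ => sum_comm

lemma q4_pair (R : κ → κ → κ → κ → ℝ) (a b c d : κ → ℝ) :
    q4 R a b c d = q4 (fun k l i j => R i j k l) c d a b := by
  unfold q4
  rw [sum4_swap]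
  refine sum_congr rfl fun i _ => sum_congr rfl fun j _ => sum_congr rfl fun k _ =>
    sum_congr rfl fun l _ => by ring

lemma q4_right (R : κ → κ → κ → κ → ℝ) (a b c d : κ → ℝ) :
    q4 R a b c d = bil (fun k l => bil (fun i j => R i j k l) a b) c d := by
  rw [q4_pair, q4_left]

lemma q4_swap12 (R : κ → κ → κ → κ → ℝ) (a b c d : κ → ℝ) :
    q4 R a b c d = q4 (fun j i k l => R i j k l) b a c d := by
  unfold q4
  rw [sum_comm]
  refine sum_congr rfl fun i _ => sum_congr rfl fun j _ => sum_congr rfl fun k _ =>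
    sum_congr rfl fun l _ => by ring

lemma q4_swap34 (R : κ → κ → κ → κ → ℝ) (a b c d : κ → ℝ) :
    q4 R a b c d = q4 (fun i j l k => R i j k l) a b d c := by
  unfold q4
  refine sum_congr rfl fun i _ => sum_congr rfl fun j _ => ?_
  rw [sum_comm]
  refine sum_congr rfl fun k _ => sum_congr rfl fun l _ => by ring

lemma q4_swap23 (R : κ → κ → κ → κ → ℝ) (a b c d : κ → ℝ) :
    q4 R a b c d = q4 (fun i k j l => R i j k l) a c b d := by
  unfold q4
  refine sum_congr rfl fun i _ => ?_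
  rw [sum_comm]
  refine sum_congr rfl fun k _ => sum_congr rfl fun j _ => sum_congr rfl fun l _ => by ring

lemma q4_add (R S : κ → κ → κ → κ → ℝ) (a b c d : κ → ℝ) :
    q4 (fun i j k l => R i j k l + S i j k l) a b c d = q4 R a b c d + q4 S a b c d := by
  unfold q4
  simp only [add_mul, sum_add_distrib]

lemma q4_sub (R S : κ → κ → κ → κ → ℝ) (a b c d : κ → ℝ) :
    q4 (fun i j k l => R i j k l - S i j k l) a b c d = q4 R a b c d - q4 S a b c d := by
  unfold q4
  simp only [sub_mul, sum_sub_distrib]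

lemma q4_mul (t : ℝ) (R : κ → κ → κ → κ → ℝ) (a b c d : κ → ℝ) :
    q4 (fun i j k l => t * R i j k l) a b c d = t * q4 R a b c d := by
  unfold q4
  simp only [mul_sum, mul_assoc]

lemma q4_sum {J : Type} (S : Finset J) (R : J → κ → κ → κ → κ → ℝ) (a b c d : κ → ℝ) :
    q4 (fun i j k l => ∑ p ∈ S, R p i j k l) a b c d = ∑ p ∈ S, q4 (R p) a b c d := by
  classical
  induction S using Finset.induction_on with
  | empty => simp [q4]
  | insert p S hp ih => simp only [sum_insert hp]; rw [q4_add, ih]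

lemma q4_prod (α β : κ → κ → ℝ) (a b c d : κ → ℝ) :
    q4 (fun i j k l => α i j * β k l) a b c d = bil α a b * bil β c d := by
  unfold q4 bil
  simp only [sum_mul, mul_sum]
  rw [sum4_swap]
  refine sum_congr rfl fun i _ => sum_congr rfl fun j _ => sum_congr rfl fun k _ =>
    sum_congr rfl fun l _ => by ring

lemma q4_lin1 (R : κ → κ → κ → κ → ℝ) (a a' b c d : κ → ℝ) (t : ℝ) :
    q4 R (a + t • a') b c d = q4 R a b c d + t * q4 R a' b c d := by
  unfold q4
  simp only [Pi.add_apply, Pi.smul_apply, smul_eq_mul, mul_sum, ← sum_add_distrib]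
  refine sum_congr rfl fun i _ => sum_congr rfl fun j _ => sum_congr rfl fun k _ =>
    sum_congr rfl fun l _ => by ring

lemma bil_symm {β : κ → κ → ℝ} (h : ∀ i j, β i j = β j i) (a b : κ → ℝ) :
    bil β a b = bil β b a := by
  unfold bil
  rw [sum_comm]
  refine sum_congr rfl fun i _ => sum_congr rfl fun j _ => by rw [h]; ring

lemma bil_swap (β : κ → κ → ℝ) (a b : κ → ℝ) : bil β a b = bil (fun j i => β i j) b a := by
  unfold bil
  rw [sum_comm]
  refine sum_congr rfl fun i _ => sum_congr rfl fun j _ => by ring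

lemma bil_lin1 (β : κ → κ → ℝ) (a a' b : κ → ℝ) (t : ℝ) :
    bil β (a + t • a') b = bil β a b + t * bil β a' b := by
  unfold bil
  simp only [Pi.add_apply, Pi.smul_apply, smul_eq_mul, mul_sum, ← sum_add_distrib]
  refine sum_congr rfl fun i _ => sum_congr rfl fun j _ => by ring

lemma bil_add (α β : κ → κ → ℝ) (a b : κ → ℝ) :
    bil (fun i j => α i j + β i j) a b = bil α a b + bil β a b := by
  unfold bil
  simp only [add_mul, sum_add_distrib]

lemma bil_cs {β : κ → κ → ℝ} (h : ∀ i j, β i j = β j i) (hp : ∀ v, 0 ≤ bil β v v)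
    (a b : κ → ℝ) : bil β a b ^ 2 ≤ bil β a a * bil β b b := by
  have key : ∀ t : ℝ, 0 ≤ bil β b b * (t * t) + 2 * bil β a b * t + bil β a a := by
    intro t
    have := hp (a + t • b)
    rw [bil_lin1, bil_symm h a, bil_symm h b, bil_lin1, bil_lin1, bil_symm h b a] at this
    linarith
  have := discrim_le_zero key
  unfold discrim at this
  nlinarith

lemma bil_cl {π : Type} (A : Matrix κ κ ℝ) (U : Matrix κ ι ℝ) (W : Matrix κ π ℝ) (s : ι) (t : π) :
    (Uᵀ * A * W) s t = bil A (cl U s) (cl W t) := by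
  unfold bil cl
  simp only [Matrix.mul_apply, Matrix.transpose_apply, sum_mul]
  rw [sum_comm]
  refine sum_congr rfl fun i _ => sum_congr rfl fun j _ => by ring

lemma abs_bil_le {β : κ → κ → ℝ} {M : ℝ} (h : ∀ i j, |β i j| ≤ M) (a b : κ → ℝ) :
    |bil β a b| ≤ M * (∑ i, |a i|) * ∑ j, |b j| := by
  unfold bil
  rw [mul_assoc, sum_mul_sum, mul_sum]
  refine (abs_sum_le_sum_abs _ _).trans (sum_le_sum fun i _ => ?_)
  rw [mul_sum]
  refine (abs_sum_le_sum_abs _ _).trans (sum_le_sum fun j _ => ?_)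
  rw [abs_mul, abs_mul, mul_assoc]
  exact mul_le_mul_of_nonneg_right (h i j) (by positivity)

lemma abs_q4_le {R : κ → κ → κ → κ → ℝ} {M : ℝ} (h : ∀ i j k l, |R i j k l| ≤ M)
    (a b c d : κ → ℝ) :
    |q4 R a b c d| ≤ M * (∑ i, |c i|) * (∑ j, |d j|) * (∑ i, |a i|) * ∑ j, |b j| := by
  rw [q4_left]
  exact abs_bil_le (fun i j => abs_bil_le (h i j) c d) a b

lemma bil_single [DecidableEq κ] (β : κ → κ → ℝ) (i j : κ) :
    bil β (Pi.single i 1) (Pi.single j 1) = β i j := by
  simp [bil, Pi.single_apply]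

lemma q4_single [DecidableEq κ] (R : κ → κ → κ → κ → ℝ) (i j k l : κ) :
    q4 R (Pi.single i 1) (Pi.single j 1) (Pi.single k 1) (Pi.single l 1) = R i j k l := by
  rw [q4_left, bil_single, bil_single]

lemma exists_frame [DecidableEq κ] (A : Matrix κ κ ℝ) (h : ∀ i j, A i j = A j i)
    (hp : ∀ v, v ≠ 0 → 0 < bil A v v) : ∃ B : Matrix κ κ ℝ, Bᵀ * A * B = 1 := by
  have hH : A.IsHermitian := by
    ext i j; simp [h i j]
  have hA : A.PosDef := by
    refine Matrix.PosDef.of_dotProduct_mulVec_pos hH fun v hv => ?_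
    have e : star v ⬝ᵥ A *ᵥ v = bil A v v := by
      unfold bil
      simp only [dotProduct, mulVec, star_trivial, mul_sum]
      refine sum_congr rfl fun i _ => sum_congr rfl fun j _ => by ring
    rw [e]
    exact hp v hv
  open MatrixOrder in
  obtain ⟨C, hC⟩ := CStarAlgebra.nonneg_iff_eq_star_mul_self.mp hA.posSemidef.nonneg
  have hC' : A = Cᵀ * C := by
    rw [hC, star_eq_conjTranspose, conjTranspose_eq_transpose_of_trivial]
  have hd : IsUnit C.det := by
    have h1 := hA.det_pos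
    rw [hC', det_mul, det_transpose] at h1
    refine isUnit_iff_ne_zero.mpr fun h0 => ?_
    rw [h0] at h1; simp at h1
  refine ⟨C⁻¹, ?_⟩
  rw [hC', ← Matrix.mul_assoc, ← transpose_mul, Matrix.mul_assoc, Matrix.mul_nonsing_inv _ hd]
  simp

lemma frame_det [DecidableEq κ] {A B : Matrix κ κ ℝ} (h : Bᵀ * A * B = 1) :
    B.det ^ 2 * A.det = 1 := by
  have := congrArg Matrix.det h
  rw [det_mul, det_mul, det_transpose, det_one] at this
  linarith

lemma frame_inv [DecidableEq κ] {A B : Matrix κ κ ℝ} (h : Bᵀ * A * B = 1) : A⁻¹ = B * Bᵀ := by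
  apply Matrix.inv_eq_left_inv
  have h1 : B * (Bᵀ * A) = 1 := mul_eq_one_comm.mp h
  rw [Matrix.mul_assoc, h1]

lemma frame_bil [DecidableEq κ] {A B : Matrix κ κ ℝ} (h : Bᵀ * A * B = 1) (s t : κ) :
    bil A (cl B s) (cl B t) = if s = t then 1 else 0 := by
  rw [← bil_cl, h, Matrix.one_apply]

end Forms

section Curv
variable {V : Type} [AddCommGroup V] [Module ℝ V]

/-- algebraic curvature tensor with nonnegative sectional values -/
structure CurvPos (S : V → V → V → V → ℝ) : Prop where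
  lin : ∀ a a' b c d (t : ℝ), S (a + t • a') b c d = S a b c d + t * S a' b c d
  anti : ∀ a b c d, S a b c d = -S b a c d
  pair : ∀ a b c d, S a b c d = S c d a b
  bia : ∀ a b c d, S a b c d + S a c d b + S a d b c = 0
  pos : ∀ a b, 0 ≤ S a b a b

variable {S : V → V → V → V → ℝ}

lemma CurvPos.anti' (h : CurvPos S) (a b c d : V) : S a b c d = -S a b d c := by
  rw [h.pair, h.anti, h.pair]

lemma CurvPos.flip (h : CurvPos S) (a b c d : V) : S a b c d = S b a d c := by
  rw [h.anti, h.anti', neg_neg]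

lemma CurvPos.cs (h : CurvPos S) (a c w : V) : S a w c w ^ 2 ≤ S a w a w * S c w c w := by
  have key : ∀ t : ℝ, 0 ≤ S c w c w * (t * t) + 2 * S a w c w * t + S a w a w := by
    intro t
    have := h.pos (a + t • c) w
    rw [h.lin, h.pair a, h.pair c, h.lin, h.lin, h.pair c w a w] at this
    linarith
  have := discrim_le_zero key
  unfold discrim at this
  nlinarith

lemma CurvPos.abs_le (h : CurvPos S) {a c w : V} {M : ℝ} (h1 : S a w a w ≤ M)
    (h2 : S c w c w ≤ M) : |S a w c w| ≤ M := by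
  have h3 := h.cs a c w
  have h4 := h.pos a w
  have h5 := h.pos c w
  apply abs_le_of_sq_le_sq' _ (h4.trans h1) |>.elim fun x y => _root_.abs_le.mpr ⟨x, y⟩
  nlinarith

lemma CurvPos.add2 (h : CurvPos S) (a c b d : V) :
    S a (b + d) c (b + d) = S a b c b + S a d c d + S a b c d + S a d c b := by
  have e : b + d = b + (1 : ℝ) • d := by simp
  rw [h.flip, e, h.lin, h.pair b, h.pair d, h.lin, h.lin]
  rw [h.flip a b c b, h.flip a d c d, h.flip a b c d, h.flip a d c b]
  rw [h.pair b a b c, h.pair d a d c, h.pair b a d c, h.pair d a b c]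
  ring

lemma CurvPos.sum_le (h : CurvPos S) {a b d : V} {M : ℝ} (h1 : S a b a b ≤ M)
    (h2 : S a d a d ≤ M) : S a (b + d) a (b + d) ≤ 4 * M := by
  rw [h.add2]
  have h3 : |S b a d a| ≤ M := h.abs_le (by rwa [← h.flip]) (by rwa [← h.flip])
  rw [h.flip a b a d, h.flip a d a b, h.pair d a b a]
  linarith [le_abs_self (S b a d a)]

lemma CurvPos.polar (h : CurvPos S) {a b c d : V} {M : ℝ} (h1 : S a b a b ≤ M)
    (h2 : S a d a d ≤ M) (h3 : S c b c b ≤ M) (h4 : S c d c d ≤ M) :
    |S a b c d + S a d c b| ≤ 6 * M := by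
  have e1 := h.abs_le (h.sum_le h1 h2) (h.sum_le h3 h4)
  have e2 := h.abs_le h1 h3
  have e3 := h.abs_le h2 h4
  rw [h.add2] at e1
  rw [_root_.abs_le] at *
  constructor <;> linarith [e1.1, e1.2, e2.1, e2.2, e3.1, e3.2]

lemma CurvPos.bound (h : CurvPos S) {J : Type} (v : J → V) {M : ℝ}
    (hM : ∀ p q, S (v p) (v q) (v p) (v q) ≤ M) (a b c d : J) :
    |S (v a) (v b) (v c) (v d)| ≤ 4 * M := by
  have e1 := h.polar (hM a b) (hM a d) (hM c b) (hM c d)
  have e2 := h.polar (hM a b) (hM a c) (hM d b) (hM d c)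
  have e3 := h.bia (v a) (v b) (v c) (v d)
  rw [h.anti' (v a) (v d) (v c) (v b)] at e1
  rw [h.anti' (v a) (v b) (v d) (v c)] at e2
  rw [_root_.abs_le] at *
  constructor <;> linarith [e1.1, e1.2, e2.1, e2.2]

lemma CurvPos.diag (h : CurvPos S) (a : V) : S a a a a = 0 := by
  have := h.anti a a a a
  linarith

end Curv

section CurvCoord
variable {κ : Type} [Fintype κ]

/-- tensors `β(il;jk) - β(ik;jl)` with a symmetric `β` have the symmetries of a curvature tensor -/
lemma curvPos_of_beta (β : κ → κ → κ → κ → ℝ) (h1 : ∀ i l j k, β i l j k = β l i j k)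
    (h2 : ∀ i l j k, β i l j k = β j k i l)
    (hp : ∀ a b, 0 ≤ q4 (fun i j k l => β i l j k - β i k j l) a b a b) :
    CurvPos (q4 (fun i j k l => β i l j k - β i k j l)) := by
  have h3 : ∀ i l j k, β i l j k = β i l k j := fun i l j k => by rw [h2, h1, h2]
  refine ⟨fun a a' b c d t => q4_lin1 _ _ _ _ _ _ _, fun a b c d => ?_, fun a b c d => ?_,
    fun a b c d => ?_, hp⟩
  · rw [q4_swap12, ← neg_one_mul, ← q4_mul]
    congr 1
    funext j i k l
    rw [h2 j l i k, h2 j k i l]; ring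
  · rw [q4_pair]
    congr 1
    funext k l i j
    rw [h2 k j l i, h1 l i k j, h3 i l k j, h1 k i l j, h3 i k l j]
  · rw [q4_swap34 _ a c d b, q4_swap23 _ a c b d, q4_swap23 _ a d b c, q4_swap34 _ a b d c,
      ← q4_add, ← q4_add]
    have : ∀ i j k l, β i l j k - β i k j l + (β i j k l - β i l k j) + (β i k l j - β i j l k) =
        0 := by
      intro i j k l
      rw [h3 i l j k, h3 i k j l, h3 i j k l]; ring
    simp only [this]
    simp [q4]

end CurvCoord

section TRP
variable {ι κ : Type} [Fintype κ] [DecidableEq κ]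

lemma ML_prod_bil {k : ℕ} (β : Fin k → κ → κ → ℝ) :
    ML (fun U : Matrix κ (Fin k × Fin 2) ℝ => ∏ r, bil (β r) (cl U (r, 0)) (cl U (r, 1))) := by
  have : (fun U : Matrix κ (Fin k × Fin 2) ℝ => ∏ r, bil (β r) (cl U (r, 0)) (cl U (r, 1))) =
      fun U => ∑ P : Fin k → κ, pureF (Matrix.of fun (s : Fin k × Fin 2) (i : κ) =>
        if s.2 = 0 then (if i = P s.1 then 1 else 0) else β s.1 (P s.1) i) U := by
    funext U
    unfold bil
    rw [Finset.prod_univ_sum, Fintype.piFinset_univ]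
    refine sum_congr rfl fun P _ => ?_
    unfold pureF
    rw [Fintype.prod_prod_type]
    refine prod_congr rfl fun r _ => ?_
    rw [Fin.prod_univ_two]
    simp only [Matrix.mul_apply, Matrix.of_apply, cl, if_true, one_ne_zero, if_false, ite_mul,
      one_mul, zero_mul, sum_ite_eq', mem_univ, mul_sum]
    exact sum_congr rfl fun j _ => by ring
  rw [this]
  exact ML.sum _ _ fun P _ => ML.pure _

/-- product of curvature forms -/
def TR {k : ℕ} (R : κ → κ → κ → κ → ℝ) (U W : Matrix κ (Fin k × Fin 2) ℝ) : ℝ :=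
  ∏ r, q4 R (cl U (r, 0)) (cl U (r, 1)) (cl W (r, 0)) (cl W (r, 1))

lemma TR_ML2 {k : ℕ} (R : κ → κ → κ → κ → ℝ) : ML2 (TR (k := k) R) := by
  constructor
  · intro W
    unfold TR
    simp_rw [q4_left]
    exact ML_prod_bil _
  · intro U
    unfold TR
    simp_rw [q4_right]
    exact ML_prod_bil _

omit [DecidableEq κ] in
lemma abs_D2_TR_le {k : ℕ} (R : κ → κ → κ → κ → ℝ) (V : Matrix κ (Fin k × Fin 2) ℝ) {M : ℝ}
    (h : ∀ a b c d, |q4 R (cl V a) (cl V b) (cl V c) (cl V d)| ≤ M) :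
    |D2 (TR R) V V| ≤ ((Fintype.card (Fin k × Fin 2)).factorial : ℝ) ^ 2 * M ^ k := by
  unfold D2
  calc _ ≤ ∑ σ : Equiv.Perm (Fin k × Fin 2), ∑ τ : Equiv.Perm (Fin k × Fin 2),
        |sg σ * sg τ * TR R (V.submatrix id σ) (V.submatrix id τ)| :=
        (abs_sum_le_sum_abs _ _).trans (sum_le_sum fun i _ => abs_sum_le_sum_abs _ _)
    _ ≤ ∑ _σ : Equiv.Perm (Fin k × Fin 2), ∑ _τ : Equiv.Perm (Fin k × Fin 2), M ^ k := by
        refine sum_le_sum fun σ _ => sum_le_sum fun τ _ => ?_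
        rw [abs_mul, abs_mul, abs_sg, abs_sg, one_mul, one_mul]
        unfold TR
        rw [abs_prod]
        calc _ ≤ ∏ _r : Fin k, M := prod_le_prod (fun _ _ => abs_nonneg _) fun r _ => h _ _ _ _
          _ = M ^ k := by simp
    _ = _ := by
        simp only [sum_const, card_univ, nsmul_eq_mul, Fintype.card_perm]
        ring

variable [Fintype ι] [DecidableEq ι]

lemma ML_bil_prod {i0 i1 : ι} (h : i0 ≠ i1) (β : κ → κ → ℝ) (γ : ι → κ → ℝ) :
    ML (fun U : Matrix κ ι ℝ => bil β (cl U i0) (cl U i1) *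
      ∏ s ∈ (univ.erase i0).erase i1, ∑ i, γ s i * U i s) := by
  have : (fun U : Matrix κ ι ℝ => bil β (cl U i0) (cl U i1) *
      ∏ s ∈ (univ.erase i0).erase i1, ∑ i, γ s i * U i s) =
      fun U => ∑ p : κ, pureF (Matrix.of fun (s : ι) (i : κ) =>
        if s = i0 then (if i = p then 1 else 0) else if s = i1 then β p i else γ s i) U := by
    funext U
    unfold bil
    rw [sum_mul]
    refine sum_congr rfl fun p _ => ?_
    unfold pureF
    rw [← mul_prod_erase univ _ (mem_univ i0),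
      ← mul_prod_erase (univ.erase i0) _ (mem_erase.mpr ⟨h.symm, mem_univ i1⟩), ← mul_assoc]
    congr 1
    · simp only [Matrix.mul_apply, Matrix.of_apply, cl, if_true, h.symm, if_false, ite_mul,
        one_mul, zero_mul, sum_ite_eq', mem_univ, mul_sum]
      exact sum_congr rfl fun j _ => by ring
    · refine prod_congr rfl fun s hs => ?_
      have h1 : s ≠ i1 := ne_of_mem_erase hs
      have h0 : s ≠ i0 := ne_of_mem_erase (mem_of_mem_erase hs)
      simp [Matrix.mul_apply, h0, h1]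
  rw [this]
  exact ML.sum _ _ fun P _ => ML.pure _

/-- one four-linear factor and bilinear factors -/
def TP (i0 i1 : ι) (Z : κ → κ → κ → κ → ℝ) (A : κ → κ → ℝ) (U W : Matrix κ ι ℝ) : ℝ :=
  q4 Z (cl U i0) (cl U i1) (cl W i0) (cl W i1) *
    ∏ s ∈ (univ.erase i0).erase i1, bil A (cl U s) (cl W s)

lemma TP_ML2 {i0 i1 : ι} (h : i0 ≠ i1) (Z : κ → κ → κ → κ → ℝ) (A : κ → κ → ℝ) :
    ML2 (TP i0 i1 Z A) := by
  constructor
  · intro W
    unfold TP
    simp_rw [q4_left]
    have e : ∀ (U : Matrix κ ι ℝ) s, bil A (cl U s) (cl W s) =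
        ∑ i, (∑ j, A i j * W j s) * U i s := by
      intro U s
      unfold bil cl
      simp only [sum_mul]
      exact sum_congr rfl fun i _ => sum_congr rfl fun j _ => by ring
    simp_rw [e]
    exact ML_bil_prod h _ _
  · intro U
    unfold TP
    simp_rw [q4_right]
    have e : ∀ (W : Matrix κ ι ℝ) s, bil A (cl U s) (cl W s) =
        ∑ j, (∑ i, A i j * U i s) * W j s := by
      intro W s
      unfold bil cl
      rw [sum_comm]
      simp only [sum_mul]
    simp_rw [e]
    exact ML_bil_prod h _ _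

/-- the mixed invariant of a four-tensor and a matrix -/
def PP (i0 i1 : ι) (Z : ι → ι → ι → ι → ℝ) (A : ι → ι → ℝ) : ℝ :=
  ∑ σ : Equiv.Perm ι, ∑ τ : Equiv.Perm ι, sg σ * sg τ *
    (Z (σ i0) (σ i1) (τ i0) (τ i1) * ∏ s ∈ (univ.erase i0).erase i1, A (σ s) (τ s))

lemma PP_eq (i0 i1 : ι) (Z : ι → ι → ι → ι → ℝ) (A : ι → ι → ℝ) :
    D2 (TP i0 i1 Z A) 1 1 = PP i0 i1 Z A := by
  unfold D2 PP TP
  have e : ∀ (σ : Equiv.Perm ι) s, cl ((1 : Matrix ι ι ℝ).submatrix id σ) s =
      Pi.single (σ s) 1 := by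
    intro σ s
    funext i
    simp [cl, Matrix.one_apply, Pi.single_apply]
  simp_rw [e, q4_single, bil_single]

omit [Fintype ι] in
lemma perm_two {i0 i1 : ι} (ρ : Equiv.Perm ι) (h : ∀ s, s ≠ i0 → s ≠ i1 → ρ s = s) :
    ρ = 1 ∨ ρ = Equiv.swap i0 i1 := by
  have key : ∀ s, ρ s = i0 ∨ ρ s = i1 ∨ ρ s = s := by
    intro s
    by_cases h0 : ρ s = i0
    · exact Or.inl h0
    by_cases h1 : ρ s = i1
    · exact Or.inr (Or.inl h1)
    exact Or.inr (Or.inr (ρ.injective (h _ h0 h1)))
  by_cases h0 : ρ i0 = i0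
  · left
    have h1 : ρ i1 = i1 := by
      rcases key i1 with h1 | h1 | h1
      · have := ρ.injective (h1.trans h0.symm)
        rw [this]; exact h0
      · exact h1
      · exact h1
    ext s
    by_cases hs0 : s = i0
    · simp [hs0, h0]
    by_cases hs1 : s = i1
    · simp [hs1, h1]
    simp [h s hs0 hs1]
  · right
    have h01 : ρ i0 = i1 := by
      rcases key i0 with h1 | h1 | h1
      · exact absurd h1 h0
      · exact h1
      · exact absurd h1 h0
    have h10 : ρ i1 = i0 := by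
      rcases key i1 with h1 | h1 | h1
      · exact h1
      · have := ρ.injective (h1.trans h01.symm)
        rw [h1, this]
      · have := ρ.injective (h1.trans h01.symm)
        rw [h1, this]
    ext s
    by_cases hs0 : s = i0
    · simp [hs0, h01]
    by_cases hs1 : s = i1
    · simp [hs1, h10]
    rw [h s hs0 hs1, Equiv.swap_apply_of_ne_of_ne hs0 hs1]

lemma PP_frame {i0 i1 : ι} (h : i0 ≠ i1) (Z : ι → ι → ι → ι → ℝ) {A B : Matrix ι ι ℝ}
    (hB : Bᵀ * A * B = 1) :
    B.det ^ 2 * PP i0 i1 Z A = ∑ σ : Equiv.Perm ι,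
      (q4 Z (cl B (σ i0)) (cl B (σ i1)) (cl B (σ i0)) (cl B (σ i1)) -
        q4 Z (cl B (σ i0)) (cl B (σ i1)) (cl B (σ i1)) (cl B (σ i0))) := by
  rw [← PP_eq, ← (TP_ML2 h Z A).cov, Matrix.one_mul]
  unfold D2
  refine sum_congr rfl fun σ _ => ?_
  rw [← Equiv.sum_comp (Equiv.mulLeft σ)]
  have hne : (1 : Equiv.Perm ι) ≠ Equiv.swap i0 i1 := by
    intro e
    have := congrArg (fun ρ : Equiv.Perm ι => ρ i0) e
    simp at this
    exact h this
  have e : ∀ (τ : ι → ι) s, cl (B.submatrix id τ) s = cl B (τ s) := fun _ _ => rfl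
  rw [sum_eq_add_of_mem 1 (Equiv.swap i0 i1) (mem_univ _) (mem_univ _) hne]
  · simp only [Equiv.coe_mulLeft, mul_one, sg_mul, sg_swap h, TP, e, frame_bil hB,
      Equiv.Perm.coe_mul, Function.comp_apply, Equiv.swap_apply_left, Equiv.swap_apply_right,
      if_true, prod_const_one]
    have e2 : ∏ s ∈ (univ.erase i0).erase i1,
        (if σ s = σ (Equiv.swap i0 i1 s) then (1 : ℝ) else 0) = 1 := by
      refine prod_eq_one fun s hs => ?_
      have h1 : s ≠ i1 := ne_of_mem_erase hs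
      have h0 : s ≠ i0 := ne_of_mem_erase (mem_of_mem_erase hs)
      rw [Equiv.swap_apply_of_ne_of_ne h0 h1, if_pos rfl]
    rw [e2]
    linear_combination (q4 Z (cl B (σ i0)) (cl B (σ i1)) (cl B (σ i0)) (cl B (σ i1)) -
        q4 Z (cl B (σ i0)) (cl B (σ i1)) (cl B (σ i1)) (cl B (σ i0))) * sg_sq σ
  · intro ρ _ hρ
    have : ∃ s, s ≠ i0 ∧ s ≠ i1 ∧ ρ s ≠ s := by
      by_contra hc
      push Not at hc
      rcases perm_two ρ hc with h1 | h1
      · exact hρ.1 h1
      · exact hρ.2 h1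
    obtain ⟨s, h0, h1, hs⟩ := this
    simp only [Equiv.coe_mulLeft, TP, e, frame_bil hB, Equiv.Perm.coe_mul, Function.comp_apply]
    rw [prod_eq_zero (i := s) (by simp [h0, h1]) (by simp [hs.symm])]
    simp

end TRP

end

end Pool.Agent.Alesker
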