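import Pool.Agent.Lib.MP_3fa020_gt.Defs
import Pool.Agent.Lib.MP_3fa020_gt.Forms

/-!
Calculus in coordinates for MP_3fa020_gt, and the integration by parts against cofactors.
-/

namespace Pool.Agent.Alesker

open Finset Matrix MeasureTheory Filter Topology
open scoped ContDiff

noncomputable section

variable {ι : Type} [Fintype ι] [DecidableEq ι]

/-- smooth real function -/
abbrev Sm (f : (ι → ℝ) → ℝ) : Prop := ContDiff ℝ ∞ f

omit [DecidableEq ι] in
lemma Sm.diff {f : (ι → ℝ) → ℝ} (hf : Sm f) : Differentiable ℝ f :=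
  hf.differentiable (by simp)

lemma Sm.pd {f : (ι → ℝ) → ℝ} (hf : Sm f) (i : ι) : Sm (pd i f) :=
  (contDiff_infty_iff_fderiv.mp hf).2.clm_apply contDiff_const

lemma fderiv_eq_sum (f : (ι → ℝ) → ℝ) (x v : ι → ℝ) : fderiv ℝ f x v = ∑ i, v i * pd i f x := by
  conv_lhs => rw [pi_eq_sum_univ' v]
  rw [map_sum]
  refine sum_congr rfl fun i _ => ?_
  rw [map_smul, smul_eq_mul]
  rfl

lemma pd_comm {f : (ι → ℝ) → ℝ} (hf : Sm f) (i j : ι) (x : ι → ℝ) :
    pd i (pd j f) x = pd j (pd i f) x := by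
  have h1 : ∀ i j, pd i (pd j f) x =
      fderiv ℝ (fderiv ℝ f) x (Pi.single i 1) (Pi.single j 1) := by
    intro i j
    have hd : DifferentiableAt ℝ (fderiv ℝ f) x :=
      ((contDiff_infty_iff_fderiv.mp hf).2.differentiable (by simp)) x
    unfold pd
    rw [fderiv_clm_apply hd (differentiableAt_const _)]
    simp
  rw [h1, h1]
  exact (hf.contDiffAt.isSymmSndFDerivAt (by simp; exact ENat.LEInfty.out)).eq _ _

lemma pd_mul {f g : (ι → ℝ) → ℝ} (hf : Sm f) (hg : Sm g) (i : ι) (x : ι → ℝ) :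
    pd i (fun y => f y * g y) x = pd i f x * g x + f x * pd i g x := by
  unfold pd
  rw [fderiv_fun_mul (hf.diff x) (hg.diff x)]
  simp
  ring

lemma pd_add {f g : (ι → ℝ) → ℝ} (hf : Sm f) (hg : Sm g) (i : ι) (x : ι → ℝ) :
    pd i (fun y => f y + g y) x = pd i f x + pd i g x := by
  unfold pd
  rw [fderiv_fun_add (hf.diff x) (hg.diff x)]
  simp

lemma pd_const (c : ℝ) (i : ι) (x : ι → ℝ) : pd i (fun _ => c) x = 0 := by
  unfold pd
  simp

lemma pd_const_mul {f : (ι → ℝ) → ℝ} (hf : Sm f) (c : ℝ) (i : ι) (x : ι → ℝ) :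
    pd i (fun y => c * f y) x = c * pd i f x := by
  rw [pd_mul contDiff_const hf, pd_const]; simp

lemma pd_sum {J : Type} (S : Finset J) {f : J → (ι → ℝ) → ℝ} (hf : ∀ j ∈ S, Sm (f j)) (i : ι)
    (x : ι → ℝ) : pd i (fun y => ∑ j ∈ S, f j y) x = ∑ j ∈ S, pd i (f j) x := by
  unfold pd
  rw [fderiv_fun_sum fun j hj => (hf j hj).diff x]
  simp

lemma pd_prod {J : Type} [DecidableEq J] (S : Finset J) {f : J → (ι → ℝ) → ℝ}
    (hf : ∀ j ∈ S, Sm (f j)) (i : ι) (x : ι → ℝ) :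
    pd i (fun y => ∏ j ∈ S, f j y) x = ∑ j ∈ S, (∏ l ∈ S.erase j, f l x) * pd i (f j) x := by
  unfold pd
  rw [fderiv_finsetProd fun j hj => (hf j hj).diff x]
  simp

lemma pd_coord (i j : ι) (x : ι → ℝ) : pd i (fun y => y j) x = if i = j then 1 else 0 := by
  unfold pd
  have : fderiv ℝ (fun y : ι → ℝ => y j) x = ContinuousLinearMap.proj j :=
    (ContinuousLinearMap.proj (R := ℝ) (φ := fun _ : ι => ℝ) j).fderiv
  rw [this]
  simp [Pi.single_apply, eq_comm]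

omit [DecidableEq ι] in
lemma sm_coord (j : ι) : Sm (fun y : ι → ℝ => y j) := contDiff_apply ℝ ℝ j

lemma hasDerivAt_line {f : (ι → ℝ) → ℝ} (hf : Sm f) (x v : ι → ℝ) (s : ℝ) :
    HasDerivAt (fun s : ℝ => f (x + s • v)) (∑ i, v i * pd i f (x + s • v)) s := by
  rw [← fderiv_eq_sum]
  have h1 : HasDerivAt (fun s : ℝ => x + s • v) v s := by
    simpa using ((hasDerivAt_id s).smul_const v).const_add x
  exact (hf.diff (x + s • v)).hasFDerivAt.comp_hasDerivAt s h1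

/-- Hessian matrix -/
def hess (U : (ι → ℝ) → ℝ) (x : ι → ℝ) : Matrix ι ι ℝ := Matrix.of fun i j => pd i (pd j U) x

lemma hasDerivAt_line2 {f : (ι → ℝ) → ℝ} (hf : Sm f) (x v w : ι → ℝ) (s : ℝ) :
    HasDerivAt (fun s : ℝ => ∑ j, w j * pd j f (x + s • v)) (bil (hess f (x + s • v)) v w) s := by
  have h1 := HasDerivAt.fun_sum (u := univ)
    fun j _ => (hasDerivAt_line (hf.pd j) x v s).const_mul (w j)
  refine h1.congr_deriv ?_
  symm
  unfold bil hess
  rw [sum_comm]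
  refine sum_congr rfl fun j _ => ?_
  rw [mul_sum]
  refine sum_congr rfl fun i _ => ?_
  simp only [Matrix.of_apply]
  ring

lemma second_diff_1d {f f' : ℝ → ℝ} {a : ℝ} (hf : ∀ s, HasDerivAt f (f' s) s)
    (hf' : HasDerivAt f' a 0) :
    Tendsto (fun s => (f s + f (-s) - 2 * f 0) / s ^ 2) (𝓝[>] 0) (𝓝 a) := by
  have hc : Continuous f := continuous_iff_continuousAt.mpr fun s => (hf s).continuousAt
  refine HasDerivAt.lhopital_zero_nhdsGT (f' := fun s => f' s - f' (-s)) (g' := fun s => 2 * s)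
    (Eventually.of_forall fun s => ?_) (Eventually.of_forall fun s => ?_) ?_ ?_ ?_ ?_
  · have h1 : HasDerivAt (fun s => f (-s)) (f' (-s) * -1) s :=
      (hf (-s)).comp s (hasDerivAt_neg s)
    exact (((hf s).add h1).sub_const (2 * f 0)).congr_deriv (by ring)
  · simpa using hasDerivAt_pow 2 s
  · filter_upwards [self_mem_nhdsWithin] with s hs
    have : (0 : ℝ) < s := hs
    positivity
  · have : Continuous fun s => f s + f (-s) - 2 * f 0 := by fun_prop
    have h2 := this.tendsto 0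
    simp only [neg_zero] at h2
    rw [show f 0 + f 0 - 2 * f 0 = 0 by ring] at h2
    exact h2.mono_left nhdsWithin_le_nhds
  · have : Continuous fun s : ℝ => s ^ 2 := by fun_prop
    have h2 := this.tendsto 0
    rw [show (0 : ℝ) ^ 2 = 0 by ring] at h2
    exact h2.mono_left nhdsWithin_le_nhds
  · have h1 : HasDerivAt (fun s => f' (-s)) (a * -1) 0 := by
      have h0 : HasDerivAt f' a (-0) := by simpa using hf'
      exact h0.comp 0 (hasDerivAt_neg 0)
    have h2 := (hf'.sub h1).tendsto_slope_zero_right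
    have h3 := h2.div_const 2
    rw [show (a - a * -1) / 2 = a by ring] at h3
    refine h3.congr fun s => ?_
    simp only [Pi.sub_apply, zero_add, neg_zero, sub_self, sub_zero, smul_eq_mul]
    field_simp

lemma second_diff {f : (ι → ℝ) → ℝ} (hf : Sm f) (x v : ι → ℝ) :
    Tendsto (fun s : ℝ => (f (x + s • v) + f (x - s • v) - 2 * f x) / s ^ 2) (𝓝[>] 0)
      (𝓝 (bil (hess f x) v v)) := by
  have h1 := second_diff_1d (hasDerivAt_line hf x v) (hasDerivAt_line2 hf x v v 0)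
  simpa [sub_eq_add_neg] using h1

lemma pd_affine {κ : Type} [Fintype κ] [DecidableEq κ] {f : (κ → ℝ) → ℝ} (hf : Sm f)
    (y : κ → ℝ) (V : Matrix κ ι ℝ) (a : ι) (t : ι → ℝ) :
    pd a (fun t => f (y + V *ᵥ t)) t = ∑ i, V i a * pd i f (y + V *ᵥ t) := by
  have h1 : HasFDerivAt (fun t : ι → ℝ => y + V *ᵥ t)
      (LinearMap.toContinuousLinearMap (Matrix.toLin' V)) t :=
    ((LinearMap.toContinuousLinearMap (Matrix.toLin' V)).hasFDerivAt).const_add y
  have h2 := (hf.diff (y + V *ᵥ t)).hasFDerivAt.comp t h1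
  unfold pd
  rw [show (fun t => f (y + V *ᵥ t)) = f ∘ fun t => y + V *ᵥ t from rfl, h2.fderiv]
  simp only [ContinuousLinearMap.comp_apply, LinearMap.coe_toContinuousLinearMap',
    Matrix.toLin'_apply]
  rw [fderiv_eq_sum]
  simp [pd]

omit [DecidableEq ι] in
lemma sm_affine {κ : Type} [Fintype κ] {f : (κ → ℝ) → ℝ} (hf : Sm f)
    (y : κ → ℝ) (V : Matrix κ ι ℝ) : Sm (fun t => f (y + V *ᵥ t)) := by
  refine ContDiff.comp hf ?_
  refine contDiff_const.add (contDiff_pi.mpr fun i => ?_)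
  unfold Matrix.mulVec dotProduct
  exact ContDiff.sum fun j _ => contDiff_const.mul (sm_coord j)

omit [DecidableEq ι] in
lemma integrable_of_cs {φ f : (ι → ℝ) → ℝ} (hφ : Continuous φ) (hc : HasCompactSupport φ)
    (hf : Continuous f) : Integrable (fun x => φ x * f x) :=
  (hφ.mul hf).integrable_of_hasCompactSupport hc.mul_right

lemma cs_pd {φ : (ι → ℝ) → ℝ} (hc : HasCompactSupport φ) (i : ι) : HasCompactSupport (pd i φ) :=
  hc.fderiv_apply ℝ _

lemma ibp0 {φ f : (ι → ℝ) → ℝ} (hφ : Sm φ) (hc : HasCompactSupport φ) (hf : Sm f) (i : ι) :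
    ∫ x, φ x * pd i f x = -∫ x, pd i φ x * f x :=
  integral_mul_fderiv_eq_neg_fderiv_mul_of_integrable
    (integrable_of_cs (hφ.pd i).continuous (cs_pd hc i) hf.continuous)
    (integrable_of_cs hφ.continuous hc (hf.pd i).continuous)
    (integrable_of_cs hφ.continuous hc hf.continuous)
    (fun x _ => hφ.diff x) (fun x _ => hf.diff x)

lemma piola {i0 i1 : ι} (h : i0 ≠ i1) (u : ι → ℝ) {w : ι → (ι → ℝ) → ℝ} (hw : ∀ s, Sm (w s))
    (x : ι → ℝ) :
    ∑ σ : Equiv.Perm ι, sg σ * (u (σ i1) *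
      pd (σ i0) (fun y => ∏ s ∈ (univ.erase i0).erase i1, pd (σ s) (w s) y) x) = 0 := by
  have e : ∀ σ : Equiv.Perm ι,
      pd (σ i0) (fun y => ∏ s ∈ (univ.erase i0).erase i1, pd (σ s) (w s) y) x =
      ∑ r ∈ (univ.erase i0).erase i1, (∏ l ∈ ((univ.erase i0).erase i1).erase r,
        pd (σ l) (w l) x) * pd (σ i0) (pd (σ r) (w r)) x :=
    fun σ => pd_prod _ (fun s _ => (hw s).pd _) _ _
  simp_rw [e, mul_sum]
  rw [sum_comm]
  refine sum_eq_zero fun r hr => ?_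
  have h1 : r ≠ i1 := ne_of_mem_erase hr
  have h0 : r ≠ i0 := ne_of_mem_erase (mem_of_mem_erase hr)
  have h01 : i1 ≠ i0 := h.symm
  set F : Equiv.Perm ι → ℝ := fun σ => sg σ * (u (σ i1) *
    ((∏ l ∈ ((univ.erase i0).erase i1).erase r, pd (σ l) (w l) x) *
      pd (σ i0) (pd (σ r) (w r)) x)) with hF
  have key : ∀ σ, F (σ * Equiv.swap i0 r) = -F σ := by
    intro σ
    simp only [hF, sg_mul, sg_swap h0.symm, Equiv.Perm.coe_mul, Function.comp_apply,
      Equiv.swap_apply_left, Equiv.swap_apply_right]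
    rw [Equiv.swap_apply_of_ne_of_ne h01 h1.symm, pd_comm (hw r) (σ r) (σ i0)]
    have : ∏ l ∈ ((univ.erase i0).erase i1).erase r, pd (σ (Equiv.swap i0 r l)) (w l) x =
        ∏ l ∈ ((univ.erase i0).erase i1).erase r, pd (σ l) (w l) x := by
      refine prod_congr rfl fun l hl => ?_
      have hl1 : l ≠ r := ne_of_mem_erase hl
      have hl0 : l ≠ i0 := ne_of_mem_erase (mem_of_mem_erase (mem_of_mem_erase hl))
      rw [Equiv.swap_apply_of_ne_of_ne hl0 hl1]
    rw [this]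
    ring
  have h2 : ∑ σ, F σ = ∑ σ, F (σ * Equiv.swap i0 r) :=
    (Equiv.sum_comp (Equiv.mulRight (Equiv.swap i0 r)) F).symm
  simp_rw [key] at h2
  rw [sum_neg_distrib] at h2
  show ∑ σ, F σ = 0
  linarith

omit [DecidableEq ι] in
lemma sm_prod {J : Type} (S : Finset J) {f : J → (ι → ℝ) → ℝ} (hf : ∀ j ∈ S, Sm (f j)) :
    Sm (fun y => ∏ j ∈ S, f j y) := contDiff_prod hf

lemma ibp1 {i0 i1 : ι} (h : i0 ≠ i1) {φ : (ι → ℝ) → ℝ} (hφ : Sm φ) (hc : HasCompactSupport φ)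
    {u w : ι → (ι → ℝ) → ℝ} (hu : ∀ s, Sm (u s)) (hw : ∀ s, Sm (w s)) :
    ∑ σ : Equiv.Perm ι, sg σ * ∫ x, φ x * (pd (σ i0) (u (σ i1)) x *
        ∏ s ∈ (univ.erase i0).erase i1, pd (σ s) (w s) x) =
      -∑ σ : Equiv.Perm ι, sg σ * ∫ x, pd (σ i0) φ x * (u (σ i1) x *
        ∏ s ∈ (univ.erase i0).erase i1, pd (σ s) (w s) x) := by
  set Q : Equiv.Perm ι → (ι → ℝ) → ℝ :=
    fun σ y => ∏ s ∈ (univ.erase i0).erase i1, pd (σ s) (w s) y with hQ
  have hQs : ∀ σ, Sm (Q σ) := fun σ => sm_prod _ fun s _ => (hw s).pd _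
  have i2 : ∀ σ : Equiv.Perm ι, Integrable fun x => φ x * (u (σ i1) x * pd (σ i0) (Q σ) x) :=
    fun σ => integrable_of_cs hφ.continuous hc
      ((hu _).continuous.mul ((hQs σ).pd _).continuous)
  have e1 : ∀ σ : Equiv.Perm ι, ∫ x, φ x * (pd (σ i0) (u (σ i1)) x * Q σ x) =
      -(∫ x, pd (σ i0) φ x * (u (σ i1) x * Q σ x)) -
        ∫ x, φ x * (u (σ i1) x * pd (σ i0) (Q σ) x) := by
    intro σ
    rw [← ibp0 hφ hc (ContDiff.mul (hu (σ i1)) (hQs σ)) (σ i0)]
    have i1 : Integrable fun x => φ x * (pd (σ i0) (u (σ i1)) x * Q σ x) :=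
      integrable_of_cs hφ.continuous hc (((hu _).pd _).continuous.mul (hQs σ).continuous)
    rw [eq_sub_iff_add_eq, ← integral_add i1 (i2 σ)]
    refine integral_congr_ae (Eventually.of_forall fun x => ?_)
    simp only
    rw [pd_mul (hu _) (hQs σ)]
    ring
  have e2 : ∑ σ : Equiv.Perm ι, sg σ * ∫ x, φ x * (u (σ i1) x * pd (σ i0) (Q σ) x) = 0 := by
    simp_rw [← integral_const_mul]
    rw [← integral_finsetSum _ fun σ _ => (i2 σ).const_mul _]
    have : ∀ x, ∑ σ : Equiv.Perm ι, sg σ * (φ x * (u (σ i1) x * pd (σ i0) (Q σ) x)) = 0 := by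
      intro x
      have := piola h (fun s => u s x) hw x
      simp_rw [mul_left_comm _ (φ x), ← mul_sum]
      rw [this, mul_zero]
    simp [this]
  show ∑ σ : Equiv.Perm ι, sg σ * ∫ x, φ x * (pd (σ i0) (u (σ i1)) x * Q σ x) =
    -∑ σ : Equiv.Perm ι, sg σ * ∫ x, pd (σ i0) φ x * (u (σ i1) x * Q σ x)
  simp_rw [e1, mul_sub, sum_sub_distrib, e2, mul_neg, sum_neg_distrib, sub_zero]

lemma integral_PP {i0 i1 : ι} {φ : ι → ι → (ι → ℝ) → ℝ} (hφ : ∀ i k, Continuous (φ i k))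
    (hc : ∀ i k, HasCompactSupport (φ i k)) {Z : ι → ι → ι → ι → (ι → ℝ) → ℝ}
    (hZ : ∀ i j k l, Continuous (Z i j k l)) {A : ι → ι → (ι → ℝ) → ℝ}
    (hA : ∀ i j, Continuous (A i j)) :
    Integrable (fun x => PP i0 i1 (fun i j k l => φ i k x * Z i j k l x) (fun i j => A i j x)) ∧
    ∫ x, PP i0 i1 (fun i j k l => φ i k x * Z i j k l x) (fun i j => A i j x) =
      ∑ σ : Equiv.Perm ι, ∑ τ : Equiv.Perm ι, sg σ * sg τ *
        ∫ x, φ (σ i0) (τ i0) x * (Z (σ i0) (σ i1) (τ i0) (τ i1) x *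
          ∏ s ∈ (univ.erase i0).erase i1, A (σ s) (τ s) x) := by
  have i1 : ∀ σ τ : Equiv.Perm ι, Integrable fun x => sg σ * sg τ * (φ (σ i0) (τ i0) x *
      (Z (σ i0) (σ i1) (τ i0) (τ i1) x * ∏ s ∈ (univ.erase i0).erase i1, A (σ s) (τ s) x)) :=
    fun σ τ => (integrable_of_cs (hφ _ _) (hc _ _)
      ((hZ _ _ _ _).mul (continuous_finsetProd _ fun s _ => hA _ _))).const_mul _
  unfold PP
  simp_rw [mul_assoc (φ _ _ _)]
  refine ⟨integrable_finsetSum _ fun σ _ => integrable_finsetSum _ fun τ _ => i1 σ τ, ?_⟩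
  rw [integral_finsetSum _ fun σ _ => integrable_finsetSum _ fun τ _ => i1 σ τ]
  refine sum_congr rfl fun σ _ => ?_
  rw [integral_finsetSum _ fun τ _ => i1 σ τ]
  exact sum_congr rfl fun τ _ => integral_const_mul _ _

/-- the null Lagrangian identity -/
lemma ibp2 {i0 i1 : ι} (h : i0 ≠ i1) {χ : (ι → ℝ) → ℝ} (hχ : Sm χ) (hc : HasCompactSupport χ)
    {H : ι → ι → (ι → ℝ) → ℝ} (hH : ∀ i j, Sm (H i j)) {U : (ι → ℝ) → ℝ} (hU : Sm U) :
    ∫ x, PP i0 i1 (fun i j k l => χ x * pd i (pd k (H j l)) x) (fun i j => pd i (pd j U) x) =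
      ∫ x, PP i0 i1 (fun i j k l => pd k (pd i χ) x * H j l x) (fun i j => pd i (pd j U) x) := by
  rw [(integral_PP (φ := fun _ _ => χ) (fun _ _ => hχ.continuous) (fun _ _ => hc)
      (Z := fun i j k l => pd i (pd k (H j l))) (fun i j k l => (((hH j l).pd k).pd i).continuous)
      (A := fun i j => pd i (pd j U)) (fun i j => ((hU.pd j).pd i).continuous)).2,
    (integral_PP (φ := fun i k => pd k (pd i χ)) (fun i k => ((hχ.pd i).pd k).continuous)
      (fun i k => cs_pd (cs_pd hc i) k)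
      (Z := fun i j k l => H j l) (fun i j k l => (hH j l).continuous)
      (A := fun i j => pd i (pd j U)) (fun i j => ((hU.pd j).pd i).continuous)).2]
  have e1 : ∀ τ : Equiv.Perm ι, ∑ σ : Equiv.Perm ι, sg σ * sg τ *
      ∫ x, χ x * (pd (σ i0) (pd (τ i0) (H (σ i1) (τ i1))) x *
        ∏ s ∈ (univ.erase i0).erase i1, pd (σ s) (pd (τ s) U) x) =
      -∑ σ : Equiv.Perm ι, sg σ * (sg τ * ∫ x, pd (σ i0) χ x * (pd (τ i0) (H (σ i1) (τ i1)) x *
        ∏ s ∈ (univ.erase i0).erase i1, pd (τ s) (pd (σ s) U) x)) := by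
    intro τ
    have := ibp1 h hχ hc (u := fun j => pd (τ i0) (H j (τ i1))) (w := fun s => pd (τ s) U)
      (fun s => (hH _ _).pd _) (fun s => hU.pd _)
    simp_rw [mul_comm (sg _) (sg τ), mul_assoc (sg τ), mul_left_comm _ (sg τ), ← mul_sum]
    rw [this, mul_neg]
    simp_rw [pd_comm hU (τ _)]
  have e2 : ∀ σ : Equiv.Perm ι, ∑ τ : Equiv.Perm ι, sg τ *
      ∫ x, pd (σ i0) χ x * (pd (τ i0) (H (σ i1) (τ i1)) x *
        ∏ s ∈ (univ.erase i0).erase i1, pd (τ s) (pd (σ s) U) x) =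
      -∑ τ : Equiv.Perm ι, sg τ * ∫ x, pd (τ i0) (pd (σ i0) χ) x * (H (σ i1) (τ i1) x *
        ∏ s ∈ (univ.erase i0).erase i1, pd (σ s) (pd (τ s) U) x) := by
    intro σ
    have := ibp1 h (hχ.pd (σ i0)) (cs_pd hc _) (u := fun l => H (σ i1) l)
      (w := fun s => pd (σ s) U) (fun s => hH _ _) (fun s => hU.pd _)
    rw [this]
    simp_rw [pd_comm hU (σ _)]
  rw [sum_comm]
  simp_rw [e1]
  rw [sum_neg_distrib, sum_comm]
  simp_rw [← mul_sum, e2, mul_neg, sum_neg_distrib, neg_neg, mul_sum, mul_assoc]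

end

end Pool.Agent.Alesker
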