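import Pool.Agent.Lib.MP_3fa020_gt.MA

/-!
The compensated integrability estimate on one slice (MP_3fa020_gt).
-/

namespace Pool.Agent.Alesker

open Finset Matrix MeasureTheory Filter Topology Metric
open scoped ContDiff

noncomputable section

variable {ι : Type} [Fintype ι] [DecidableEq ι]

/-- linearized sectional curvature -/
def ql {κ : Type} [Fintype κ] (Z : κ → κ → κ → κ → ℝ) (v w : κ → ℝ) : ℝ :=
  q4 Z v w w v - (q4 Z v w v w + q4 Z w v w v) / 2

/-- squared Euclidean norm -/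
def nsq {κ : Type} [Fintype κ] (v : κ → ℝ) : ℝ := ∑ i, v i * v i

lemma nsq_nonneg {κ : Type} [Fintype κ] (v : κ → ℝ) : 0 ≤ nsq v :=
  sum_nonneg fun _ _ => mul_self_nonneg _

/-- second derivatives of a family of functions -/
def Zl (H : ι → ι → (ι → ℝ) → ℝ) (t : ι → ℝ) : ι → ι → ι → ι → ℝ :=
  fun i j k l => pd i (pd k (H j l)) t

def tau (i0 i1 : ι) (Z : ι → ι → ι → ι → ℝ) (c : ℝ) (B : Matrix ι ι ℝ) : ℝ :=
  ∑ σ : Equiv.Perm ι, (ql Z (cl B (σ i0)) (cl B (σ i1)) +
    c * (nsq (cl B (σ i0)) * nsq (cl B (σ i1))))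

lemma sum_ql {i0 i1 : ι} (h : i0 ≠ i1) (Z : ι → ι → ι → ι → ℝ) {A B : Matrix ι ι ℝ}
    (hB : Bᵀ * A * B = 1) :
    ∑ σ : Equiv.Perm ι, ql Z (cl B (σ i0)) (cl B (σ i1)) = -(B.det ^ 2 * PP i0 i1 Z A) := by
  rw [PP_frame h Z hB]
  have e : ∑ σ : Equiv.Perm ι, q4 Z (cl B (σ i1)) (cl B (σ i0)) (cl B (σ i1)) (cl B (σ i0)) =
      ∑ σ : Equiv.Perm ι, q4 Z (cl B (σ i0)) (cl B (σ i1)) (cl B (σ i0)) (cl B (σ i1)) := by
    rw [← Equiv.sum_comp (Equiv.mulRight (Equiv.swap i0 i1))]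
    simp
  unfold ql
  rw [sum_sub_distrib, sum_sub_distrib, ← sum_div, sum_add_distrib, e]
  ring

lemma PP_mul (i0 i1 : ι) (a : ℝ) (Z : ι → ι → ι → ι → ℝ) (A : ι → ι → ℝ) :
    PP i0 i1 (fun i j k l => a * Z i j k l) A = a * PP i0 i1 Z A := by
  unfold PP
  simp only [mul_sum]
  exact sum_congr rfl fun σ _ => sum_congr rfl fun τ _ => by ring

/-- a frame for `S + 1` with `S` positive semidefinite -/
lemma exists_frame_one (S : Matrix ι ι ℝ) (h : ∀ i j, S i j = S j i) (hp : ∀ v, 0 ≤ bil S v v) :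
    ∃ B : Matrix ι ι ℝ, Bᵀ * (S + 1) * B = 1 ∧ (∀ s, nsq (cl B s) ≤ 1) ∧
      (∀ s, bil S (cl B s) (cl B s) ≤ 1) ∧ 0 < (S + 1).det := by
  obtain ⟨B, hB⟩ := exists_frame (S + 1)
    (fun i j => by simp [Matrix.one_apply, h i j, eq_comm]) fun v hv => by
      rw [bil_madd, bil_one]
      linarith [hp v, sum_sq_pos hv]
  have h1 : ∀ s, bil S (cl B s) (cl B s) + nsq (cl B s) = 1 := by
    intro s
    have := frame_bil hB s s
    rwa [if_pos rfl, bil_madd, bil_one] at this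
  refine ⟨B, hB, fun s => by linarith [h1 s, hp (cl B s)],
    fun s => by linarith [h1 s, nsq_nonneg (cl B s)], ?_⟩
  have h2 := frame_det hB
  by_contra h3
  have := mul_nonpos_of_nonneg_of_nonpos (sq_nonneg B.det) (not_lt.mp h3)
  linarith

omit [DecidableEq ι] in
lemma sum_abs_le_of_nsq {v : ι → ℝ} {R : ℝ} (hR : 0 ≤ R) (h : nsq v ≤ R ^ 2) :
    (∀ i, |v i| ≤ R) ∧ ∑ i, |v i| ≤ Fintype.card ι * R := by
  have h1 : ∀ i, |v i| ≤ R := by
    intro i
    have : v i * v i ≤ nsq v :=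
      single_le_sum (f := fun i => v i * v i) (fun _ _ => mul_self_nonneg _) (mem_univ i)
    exact abs_le_of_sq_le_sq' (by nlinarith) hR |>.elim fun x y => _root_.abs_le.mpr ⟨x, y⟩
  refine ⟨h1, ?_⟩
  have := sum_le_card_nsmul univ _ _ fun i _ => h1 i
  rwa [card_univ, nsmul_eq_mul] at this

lemma abs_PP_le {i0 i1 : ι} (h : i0 ≠ i1) {Z : ι → ι → ι → ι → ℝ} {M : ℝ} (hM : 0 ≤ M)
    (hZ : ∀ i j k l, |Z i j k l| ≤ M) (S : Matrix ι ι ℝ) (hS : ∀ i j, S i j = S j i)
    (hp : ∀ v, 0 ≤ bil S v v) :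
    |PP i0 i1 Z (S + 1 : Matrix ι ι ℝ)| ≤ 2 * (Fintype.card ι).factorial * (Fintype.card ι : ℝ) ^ 4 *
      M * (S + 1).det := by
  obtain ⟨B, hB, h1, -, hd⟩ := exists_frame_one S hS hp
  have h2 := PP_frame h Z hB
  have h3 := frame_det hB
  have h4 : ∀ s, ∑ i, |cl B s i| ≤ Fintype.card ι := fun s => by
    simpa using (sum_abs_le_of_nsq zero_le_one (by simpa using h1 s)).2
  have h5 : ∀ a b c d, |q4 Z (cl B a) (cl B b) (cl B c) (cl B d)| ≤ M * (Fintype.card ι : ℝ) ^ 4 := by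
    intro a b c d
    refine (abs_q4_le hZ _ _ _ _).trans ?_
    have := h4 a; have := h4 b; have := h4 c; have := h4 d
    calc _ ≤ M * Fintype.card ι * Fintype.card ι * Fintype.card ι * Fintype.card ι := by gcongr
      _ = _ := by ring
  have h6 : |B.det ^ 2 * PP i0 i1 Z (S + 1 : Matrix ι ι ℝ)| ≤
      (Fintype.card ι).factorial * (2 * (M * (Fintype.card ι : ℝ) ^ 4)) := by
    rw [h2]
    refine (abs_sum_le_sum_abs _ _).trans ?_
    have := sum_le_card_nsmul (univ : Finset (Equiv.Perm ι)) (fun σ =>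
      |q4 Z (cl B (σ i0)) (cl B (σ i1)) (cl B (σ i0)) (cl B (σ i1)) -
        q4 Z (cl B (σ i0)) (cl B (σ i1)) (cl B (σ i1)) (cl B (σ i0))|)
      (2 * (M * (Fintype.card ι : ℝ) ^ 4)) fun σ _ => (abs_sub _ _).trans (by
        linarith [h5 (σ i0) (σ i1) (σ i0) (σ i1), h5 (σ i0) (σ i1) (σ i1) (σ i0)])
    rwa [card_univ, Fintype.card_perm, nsmul_eq_mul] at this
  have h7 := mul_le_mul_of_nonneg_right h6 hd.le
  rw [abs_mul, abs_of_nonneg (sq_nonneg _), mul_right_comm, h3, one_mul] at h7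
  linarith

lemma exists_second_bound {χ : (ι → ℝ) → ℝ} (hχ : Sm χ) (hc : HasCompactSupport χ) :
    ∃ K, 0 ≤ K ∧ ∀ i k x, |pd k (pd i χ) x| ≤ K := by
  have : ∀ p : ι × ι, ∃ K, ∀ x, |pd p.2 (pd p.1 χ) x| ≤ K := fun p =>
    ((hχ.pd p.1).pd p.2).continuous.bounded_above_of_compact_support (cs_pd (cs_pd hc _) _)
  choose K hK using this
  refine ⟨∑ p, |K p|, by positivity, fun i k x => (hK (i, k) x).trans ((le_abs_self _).trans ?_)⟩
  exact single_le_sum (f := fun p => |K p|) (fun _ _ => abs_nonneg _) (mem_univ (i, k))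

lemma pd_zero_off {f : (ι → ℝ) → ℝ} {R : ℝ} (h : ∀ x, R < ‖x‖ → f x = 0) (i : ι) :
    ∀ x, R < ‖x‖ → pd i f x = 0 := by
  intro x hx
  have : f =ᶠ[𝓝 x] fun _ => 0 :=
    (continuous_norm.continuousAt.eventually (lt_mem_nhds hx)).mono fun y hy => h y hy
  unfold pd
  rw [this.fderiv_eq]
  simp

lemma hess_add_one {U : (ι → ℝ) → ℝ} (hU : Sm U) :
    ∃ U' : (ι → ℝ) → ℝ, Sm U' ∧ ∀ x i j, pd i (pd j U') x = (hess U x + 1) i j := by
  have h1 : ∀ l : ι, Sm fun x : ι → ℝ => x l * x l := fun l => (sm_coord l).mul (sm_coord l)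
  have h2 : Sm fun x : ι → ℝ => ∑ l, x l * x l := ContDiff.sum fun l _ => h1 l
  have h3 : Sm fun x : ι → ℝ => 1 / 2 * ∑ l, x l * x l := contDiff_const.mul h2
  refine ⟨fun x => U x + 1 / 2 * ∑ l, x l * x l, hU.add h3, fun x i j => ?_⟩
  have e : pd j (fun x => U x + 1 / 2 * ∑ l, x l * x l) = fun x => pd j U x + x j := by
    funext x
    rw [pd_add hU h3, pd_const_mul h2, pd_sum _ fun l _ => h1 l]
    simp_rw [pd_mul (sm_coord _) (sm_coord _), pd_coord]
    simp [sum_add_distrib]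
    ring
  rw [e, pd_add (hU.pd j) (sm_coord j), pd_coord]
  simp [hess, Matrix.one_apply]

/-- upper bound for the integral of the null Lagrangian -/
lemma integral_W {i0 i1 : ι} (h : i0 ≠ i1) {χ : (ι → ℝ) → ℝ} (hχ : Sm χ)
    (hc : HasCompactSupport χ) (h1 : ∀ x, |χ x| ≤ 1) (hz : ∀ x, 3 < ‖x‖ → χ x = 0) {K : ℝ}
    (hK0 : 0 ≤ K) (hK : ∀ i k x, |pd k (pd i χ) x| ≤ K) {Λ c : ℝ} (hΛ : 0 ≤ Λ) (hc0 : 0 ≤ c)
    {H : ι → ι → (ι → ℝ) → ℝ} (hH : ∀ i j, Sm (H i j))
    (hb : ∀ i j t, ‖t‖ ≤ 3 → |H i j t| ≤ Λ) {U : (ι → ℝ) → ℝ} (hU : Sm U)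
    (hpsd : ∀ x v, 0 ≤ bil (hess U x) v v) (hg : ∀ x i, |pd i U x| ≤ Fintype.card ι) :
    Integrable (fun x => χ x * (-PP i0 i1 (Zl H x) (hess U x + 1 : Matrix ι ι ℝ) +
      c * (hess U x + 1).det)) ∧
    ∫ x, χ x * (-PP i0 i1 (Zl H x) (hess U x + 1 : Matrix ι ι ℝ) + c * (hess U x + 1).det) ≤
      (2 * (Fintype.card ι).factorial * (Fintype.card ι : ℝ) ^ 4 * (K * Λ) + c) *
        (2 * (Fintype.card ι + 3)) ^ Fintype.card ι := by
  obtain ⟨U', hU', hU''⟩ := hess_add_one hU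
  have hA : ∀ x, (hess U x + 1 : Matrix ι ι ℝ) = fun i j => pd i (pd j U') x :=
    fun x => funext fun i => funext fun j => (hU'' x i j).symm
  have hsym : ∀ x i j, hess U x i j = hess U x j i := fun x i j => pd_comm hU i j x
  have hdc : Continuous fun x => (hess U x + 1).det := by
    refine Continuous.matrix_det (continuous_matrix fun i j => ?_)
    exact ((hU.pd j).pd i).continuous.add continuous_const
  have j1 := (integral_PP (i0 := i0) (i1 := i1) (φ := fun _ _ => χ) (fun _ _ => hχ.continuous)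
    (fun _ _ => hc) (Z := fun i j k l => pd i (pd k (H j l)))
    (fun i j k l => (((hH j l).pd k).pd i).continuous)
    (A := fun i j => pd i (pd j U')) (fun i j => ((hU'.pd j).pd i).continuous)).1
  have i2 := (integral_PP (i0 := i0) (i1 := i1) (φ := fun i k => pd k (pd i χ))
    (fun i k => ((hχ.pd i).pd k).continuous) (fun i k => cs_pd (cs_pd hc i) k)
    (Z := fun i j k l => H j l) (fun i j k l => (hH j l).continuous)
    (A := fun i j => pd i (pd j U')) (fun i j => ((hU'.pd j).pd i).continuous)).1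
  have i3 : Integrable fun x => χ x * (hess U x + 1).det := integrable_of_cs hχ.continuous hc hdc
  have e1 : (fun x => χ x * (-PP i0 i1 (Zl H x) (hess U x + 1 : Matrix ι ι ℝ) +
      c * (hess U x + 1).det)) = fun x => c * (χ x * (hess U x + 1).det) -
        PP i0 i1 (fun i j k l => χ x * pd i (pd k (H j l)) x) (fun i j => pd i (pd j U') x) := by
    funext x
    rw [PP_mul, ← hA]
    unfold Zl
    ring
  have i4 : Integrable ((closedBall (0 : ι → ℝ) 3).indicator fun x => |(hess U x + 1).det|) :=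
    (integrable_indicator_iff measurableSet_closedBall).mpr
      (hdc.abs.continuousOn.integrableOn_compact (isCompact_closedBall _ _))
  have e2 := det_integral hU hpsd (Nat.cast_nonneg _) (show (0 : ℝ) ≤ 3 by norm_num) hg
  rw [← integral_indicator measurableSet_closedBall] at e2
  rw [e1]
  refine ⟨(i3.const_mul c).sub j1, ?_⟩
  rw [integral_sub (i3.const_mul c) j1, ibp2 h hχ hc hH hU', ← integral_sub (i3.const_mul c) i2]
  set C5 := 2 * (Fintype.card ι).factorial * (Fintype.card ι : ℝ) ^ 4 * (K * Λ) + c with hC5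
  have hC50 : 0 ≤ C5 := by positivity
  refine le_trans ?_ (mul_le_mul_of_nonneg_left e2 hC50)
  rw [← integral_const_mul]
  refine integral_mono ((i3.const_mul c).sub i2) (i4.const_mul _) fun x => ?_
  simp only
  by_cases hx : ‖x‖ ≤ 3
  · rw [Set.indicator_of_mem (by simpa using hx), ← hA]
    have f1 := abs_PP_le h (Z := fun i j k l => pd k (pd i χ) x * H j l x) (M := K * Λ)
      (by positivity) (fun i j k l => by
        rw [abs_mul]
        exact mul_le_mul (hK i k x) (hb j l x hx) (abs_nonneg _) hK0) (hess U x) (hsym x) (hpsd x)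
    have f2 : χ x * (hess U x + 1).det ≤ |(hess U x + 1).det| := by
      refine (le_abs_self _).trans ?_
      rw [abs_mul]
      exact mul_le_of_le_one_left (abs_nonneg _) (h1 x)
    have f3 := mul_le_mul_of_nonneg_left f2 hc0
    have f4 := mul_le_mul_of_nonneg_left (le_abs_self (hess U x + 1).det)
      (show 0 ≤ 2 * (Fintype.card ι).factorial * (Fintype.card ι : ℝ) ^ 4 * (K * Λ) by positivity)
    rw [hC5, add_mul]
    linarith [neg_abs_le (PP i0 i1 (fun i j k l => pd k (pd i χ) x * H j l x)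
      (hess U x + 1 : Matrix ι ι ℝ))]
  · rw [Set.indicator_of_notMem (by simpa using hx)]
    have hx' := not_le.mp hx
    have f1 : ∀ i k, pd k (pd i χ) x = 0 := fun i k => pd_zero_off (pd_zero_off hz i) k x hx'
    simp [hz x hx', f1, PP]

theorem core {i0 i1 : ι} (h : i0 ≠ i1) {k : ℕ} (hk : 1 ≤ k) {Λ c C1 : ℝ} (hΛ : 0 ≤ Λ)
    (hc : 0 ≤ c) (hC1 : 0 ≤ C1) :
    ∃ C : ℝ, ∀ (H : ι → ι → (ι → ℝ) → ℝ) (F : (ι → ℝ) → ℝ), (∀ i j, Sm (H i j)) →
      (∀ i j t, ‖t‖ ≤ 3 → |H i j t| ≤ Λ) → ContinuousOn F (closedBall 0 3) → (∀ t, 0 ≤ F t) →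
      (∀ t, ‖t‖ ≤ 3 → ∀ B : Matrix ι ι ℝ, 0 ≤ tau i0 i1 (Zl H t) c B ∧
        F t * B.det ^ 2 ≤ C1 * tau i0 i1 (Zl H t) c B ^ k) →
      ∫ t in closedBall (0 : ι → ℝ) 1, F t ≤ C := by
  have : Nonempty ι := ⟨i0⟩
  set χ : ContDiffBump (0 : ι → ℝ) := ⟨2, 3, by norm_num, by norm_num⟩ with hχ
  set χ0 : ContDiffBump (0 : ι → ℝ) := ⟨1, 2, by norm_num, by norm_num⟩ with hχ0
  obtain ⟨K, hK0, hK⟩ := exists_second_bound (χ := χ) χ.contDiff χ.hasCompactSupport
  set m : ℕ := Fintype.card ι with hm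
  set C0 : ℝ := 2 * (8 * (m : ℝ) ^ 2) ^ m with hC0
  have hC00 : 0 ≤ C0 := by positivity
  set C3 : ℝ := (2 * C0) ^ (k - 1) * C1 + 1 with hC3
  have hC31 : 1 ≤ C3 := by rw [hC3]; exact le_add_of_nonneg_left (by positivity)
  set C5 : ℝ := (2 * m.factorial * (m : ℝ) ^ 4 * (K * Λ) + c * m.factorial) * (2 * (m + 3)) ^ m
    with hC5
  refine ⟨(2 * C3 * C5) ^ k, fun H F hH hb hF hF0 hτ => ?_⟩
  have hC50 : 0 ≤ C5 := by positivity
  have hz0 : ∀ x : ι → ℝ, 2 ≤ ‖x‖ → χ0 x = 0 := fun x hx =>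
    χ0.zero_of_le_dist (by simpa [hχ0] using hx)
  have hGc : Continuous fun x => χ0 x * F x := by
    refine ContinuousOn.continuous_of_tsupport_subset (s := ball 0 3)
      (χ0.continuous.continuousOn.mul (hF.mono ball_subset_closedBall)) isOpen_ball ?_
    refine (tsupport_mul_subset_left).trans ?_
    rw [χ0.tsupport_eq]
    exact closedBall_subset_ball (by norm_num [hχ0])
  have hGs : HasCompactSupport fun x => χ0 x * F x := χ0.hasCompactSupport.mul_right
  have hG0 : ∀ x, 0 ≤ χ0 x * F x := fun x => mul_nonneg χ0.nonneg (hF0 x)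
  have hGi : Integrable fun x => χ0 x * F x := hGc.integrable_of_hasCompactSupport hGs
  set M : ℝ := ∫ x, χ0 x * F x with hM
  have hM1 : ∫ t in closedBall (0 : ι → ℝ) 1, F t ≤ M := by
    have e : ∫ t in closedBall (0 : ι → ℝ) 1, F t = ∫ t in closedBall (0 : ι → ℝ) 1, χ0 t * F t :=
      setIntegral_congr_fun measurableSet_closedBall fun t ht => by
        show F t = χ0 t * F t
        rw [χ0.one_of_mem_closedBall ht, one_mul]
    rw [e]
    exact setIntegral_le_integral hGi (Eventually.of_forall hG0)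
  refine hM1.trans ?_
  rcases le_or_gt M 0 with hM0 | hM0
  · exact hM0.trans (by positivity)
  set ρ : (ι → ℝ) → ℝ := fun x => χ0 x * F x / M with hρ
  have hρi : ∫ x, ρ x = 1 := by
    simp only [hρ]
    rw [integral_div, div_self hM0.ne']
  set γ : ℝ := 1 / (4 * 4 ^ m) with hγ
  have hγ0 : 0 < γ := by positivity
  obtain ⟨U, hU, hpsd, hg, hMA⟩ := monge_ampere (ρ := ρ) (hGc.div_const M)
    (hGs.comp_left (g := fun y => y / M) (zero_div M)) (fun x => div_nonneg (hG0 x) hM0.le) hρi hγ0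
  have hsym : ∀ x i j, hess U x i j = hess U x j i := fun x i j => pd_comm hU i j x
  obtain ⟨iW, hW⟩ := integral_W h (χ := χ) χ.contDiff χ.hasCompactSupport
    (fun x => by rw [abs_of_nonneg χ.nonneg]; exact χ.le_one)
    (fun x hx => χ.zero_of_le_dist (by simpa [hχ] using hx.le)) hK0 hK hΛ
    (c := c * m.factorial) (by positivity) hH hb hU hpsd hg
  set W : (ι → ℝ) → ℝ := fun x => -PP i0 i1 (Zl H x) (hess U x + 1 : Matrix ι ι ℝ) +
    c * m.factorial * (hess U x + 1).det with hWd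
  set μ : ℝ := M ^ ((k : ℝ)⁻¹) with hμ
  have hμ0 : 0 < μ := Real.rpow_pos_of_pos hM0 _
  have hμk : μ ^ k = M := Real.rpow_inv_natCast_pow hM0.le (by omega)
  have hpt : ∀ x, ‖x‖ ≤ 3 → 0 ≤ W x ∧ (2 * γ ≤ ρ x → μ * ρ x ≤ C3 * W x) := by
    intro x hx
    obtain ⟨B, hB, h1, h2, hd⟩ := exists_frame_one (hess U x) (hsym x) (hpsd x)
    set Δ := (hess U x + 1).det with hΔ
    have h3 : B.det ^ 2 * Δ = 1 := frame_det hB
    obtain ⟨t0, t1⟩ := hτ x hx B
    have h4 : tau i0 i1 (Zl H x) c B ≤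
        -(B.det ^ 2 * PP i0 i1 (Zl H x) (hess U x + 1 : Matrix ι ι ℝ)) + c * m.factorial := by
      unfold tau
      rw [sum_add_distrib, sum_ql h _ hB, ← mul_sum]
      refine add_le_add le_rfl (mul_le_mul_of_nonneg_left ?_ hc)
      have := sum_le_card_nsmul (univ : Finset (Equiv.Perm ι))
        (fun σ => nsq (cl B (σ i0)) * nsq (cl B (σ i1))) 1 fun σ _ =>
          mul_le_one₀ (h1 _) (nsq_nonneg _) (h1 _)
      rwa [card_univ, Fintype.card_perm, nsmul_eq_mul, mul_one] at this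
    have h5 : tau i0 i1 (Zl H x) c B * Δ ≤ W x := by
      refine (mul_le_mul_of_nonneg_right h4 hd.le).trans (le_of_eq ?_)
      simp only [hWd]
      linear_combination (-PP i0 i1 (Zl H x) (hess U x + 1 : Matrix ι ι ℝ)) * h3
    have h6 : 0 ≤ tau i0 i1 (Zl H x) c B * Δ := mul_nonneg t0 hd.le
    refine ⟨h6.trans h5, fun hx2 => ?_⟩
    have h7 : (ρ x - γ) * B.det ^ 2 ≤ C0 := hMA x B (by
      have := sum_le_card_nsmul univ _ _ fun s _ => h2 s
      rwa [card_univ, nsmul_eq_mul, mul_one] at this)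
    have h8 : ρ x ≤ 2 * C0 * Δ := by
      have := mul_le_mul_of_nonneg_right h7 hd.le
      rw [mul_assoc, h3] at this
      linarith
    have hρ0 : 0 ≤ ρ x := by linarith
    have h9 : M * ρ x ≤ F x := by
      simp only [hρ]
      rw [mul_div_cancel₀ _ hM0.ne']
      exact mul_le_of_le_one_left (hF0 x) χ0.le_one
    obtain ⟨j, rfl⟩ : ∃ j, k = j + 1 := ⟨k - 1, by omega⟩
    have h10 : F x * Δ ^ j ≤ C1 * W x ^ (j + 1) := by
      have e1 := mul_le_mul_of_nonneg_right t1 (pow_nonneg hd.le (j + 1))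
      have e2 : F x * B.det ^ 2 * Δ ^ (j + 1) = F x * Δ ^ j := by
        rw [pow_succ]
        linear_combination (F x * Δ ^ j) * h3
      rw [e2, mul_assoc, ← mul_pow] at e1
      exact e1.trans (mul_le_mul_of_nonneg_left (pow_le_pow_left₀ h6 h5 _) hC1)
    have hW0 : 0 ≤ W x := h6.trans h5
    have h11 : (μ * ρ x) ^ (j + 1) ≤ (C3 * W x) ^ (j + 1) := by
      calc (μ * ρ x) ^ (j + 1) = M * ρ x * ρ x ^ j := by rw [mul_pow, hμk]; ring
        _ ≤ F x * (2 * C0 * Δ) ^ j :=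
          mul_le_mul h9 (pow_le_pow_left₀ hρ0 h8 _) (by positivity) (hF0 x)
        _ = (2 * C0) ^ j * (F x * Δ ^ j) := by rw [mul_pow]; ring
        _ ≤ (2 * C0) ^ j * (C1 * W x ^ (j + 1)) := mul_le_mul_of_nonneg_left h10 (by positivity)
        _ ≤ C3 * W x ^ (j + 1) := by
          rw [← mul_assoc]
          refine mul_le_mul_of_nonneg_right ?_ (by positivity)
          rw [hC3, Nat.add_sub_cancel]
          linarith
        _ ≤ (C3 * W x) ^ (j + 1) := by
          rw [mul_pow]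
          exact mul_le_mul_of_nonneg_right (le_self_pow₀ hC31 (by omega)) (by positivity)
    exact (pow_le_pow_iff_left₀ (by positivity) (by positivity) (by omega)).mp h11
  have i5 : Integrable ((closedBall (0 : ι → ℝ) 2).indicator fun _ => 2 * γ * μ) :=
    (integrable_indicator_iff measurableSet_closedBall).mpr
      (continuous_const.continuousOn.integrableOn_compact (isCompact_closedBall _ _))
  have hint : ∫ x, μ * ρ x ≤
      ∫ x, (C3 * (χ x * W x) + (closedBall (0 : ι → ℝ) 2).indicator (fun _ => 2 * γ * μ) x) := by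
    refine integral_mono ((hGi.div_const M).const_mul μ) ((iW.const_mul C3).add i5) fun x => ?_
    simp only
    by_cases hx : ‖x‖ ≤ 2
    · rw [Set.indicator_of_mem (by simpa using hx), χ.one_of_mem_closedBall (by simpa using hx),
        one_mul]
      obtain ⟨p1, p2⟩ := hpt x (by linarith)
      have p3 : 0 ≤ C3 * W x := by positivity
      rcases le_total (2 * γ) (ρ x) with hr | hr
      · have := p2 hr
        have : 0 ≤ 2 * γ * μ := by positivity
        linarith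
      · nlinarith
    · rw [Set.indicator_of_notMem (by simpa using hx), add_zero]
      have p1 : ρ x = 0 := by simp [hρ, hz0 x (not_le.mp hx).le]
      rw [p1, mul_zero]
      by_cases hx3 : ‖x‖ ≤ 3
      · have := (hpt x hx3).1
        have := χ.nonneg (x := x)
        positivity
      · rw [χ.zero_of_le_dist (by simpa [hχ] using (not_le.mp hx3).le)]
        simp
  rw [integral_const_mul, hρi, integral_add (iW.const_mul C3) i5, integral_const_mul,
    integral_indicator measurableSet_closedBall, setIntegral_const, Measure.real,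
    Real.volume_pi_closedBall _ (by norm_num), ENNReal.toReal_ofReal (by positivity),
    smul_eq_mul] at hint
  have e1 : ((2 : ℝ) * 2) ^ Fintype.card ι * (2 * γ * μ) = μ / 2 := by
    rw [hγ, ← hm]
    norm_num
    field_simp
    norm_num
  have e2 := mul_le_mul_of_nonneg_left hW (zero_le_one.trans hC31)
  have e3 : μ ≤ 2 * C3 * C5 := by
    rw [e1] at hint
    linarith
  rw [← hμk]
  exact pow_le_pow_left₀ hμ0.le e3 _

end

end Pool.Agent.Alesker
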