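import Mathlib

/-!
Definitions for MP_3fa020_gt: Christoffel symbols, Riemann tensor and Lipschitz-Killing
curvatures of a Riemannian metric given in a coordinate chart.
-/

namespace Pool.Agent.Alesker

open Finset

noncomputable section

/-- derivative of `f` at `x` in the direction of the `i`-th coordinate -/
def pd {ι : Type} [Fintype ι] [DecidableEq ι] (i : ι) (f : (ι → ℝ) → ℝ) (x : ι → ℝ) : ℝ :=
  fderiv ℝ f x (Pi.single i 1)

variable {n : ℕ}

/-- Christoffel symbols `Γ^p_{ij}` -/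
def Gam (g : (Fin n → ℝ) → Matrix (Fin n) (Fin n) ℝ) (x : Fin n → ℝ) (p i j : Fin n) : ℝ :=
  1 / 2 * ∑ q, (g x)⁻¹ p q *
    (pd i (fun y => g y j q) x + pd j (fun y => g y i q) x - pd q (fun y => g y i j) x)

/-- the Riemann tensor `R_{ijkl}`, with the sign for which `R(v,w,v,w)` is the sectional curvature
times the squared area -/
def Rm (g : (Fin n → ℝ) → Matrix (Fin n) (Fin n) ℝ) (x : Fin n → ℝ) (i j k l : Fin n) : ℝ :=
  1 / 2 * (pd j (pd k fun y => g y i l) x + pd i (pd l fun y => g y j k) x -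
      pd i (pd k fun y => g y j l) x - pd j (pd l fun y => g y i k) x) +
    ∑ p, ∑ q, g x p q * (Gam g x p j k * Gam g x q i l - Gam g x p j l * Gam g x q i k)

/-- the Lipschitz-Killing curvature of order `2k`: the full contraction of the `k`-th power of
`R^{ij}_{kl}` with the generalized Kronecker delta -/
def lk (k : ℕ) (g : (Fin n → ℝ) → Matrix (Fin n) (Fin n) ℝ) (x : Fin n → ℝ) : ℝ :=
  ∑ a : Fin k × Fin 2 → Fin n, ∑ σ : Equiv.Perm (Fin k × Fin 2),
    ((Equiv.Perm.sign σ : ℤ) : ℝ) * ∏ r : Fin k, ∑ e, ∑ f,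
      (g x)⁻¹ (a (r, 0)) e * (g x)⁻¹ (a (r, 1)) f * Rm g x e f (a (σ (r, 0))) (a (σ (r, 1)))

end

end Pool.Agent.Alesker
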