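import Pool.Agent.Lib.MP_3fa020_gt.EBasic

/-!
Algebra of double forms.
-/

namespace Pool.Agent.AlEmb

open Set Filter Topology
open scoped InnerProductSpace

variable {A : ℕ}

lemma IsProj.trace_eq {d : ℕ} {P : Eu A →L[ℝ] Eu A} (h : IsProj d P) :
    LinearMap.trace ℝ _ (P : Eu A →ₗ[ℝ] Eu A) = d := by
  rw [← h.dim]
  refine LinearMap.IsProj.trace ⟨fun v => LinearMap.mem_range_self _ v, ?_⟩
  rintro _ ⟨v, rfl⟩
  exact h.idem v

lemma IsProj.of_trace {d : ℕ} {P : Eu A →L[ℝ] Eu A} (h1 : ∀ v, P (P v) = P v)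
    (h2 : ∀ v w, ⟪P v, w⟫_ℝ = ⟪v, P w⟫_ℝ)
    (h3 : LinearMap.trace ℝ _ (P : Eu A →ₗ[ℝ] Eu A) = d) : IsProj d P := by
  have h : IsProj _ P := ⟨h1, h2, rfl⟩
  have := h.trace_eq
  rw [h3] at this
  exact ⟨h1, h2, by exact_mod_cast this.symm⟩

lemma IsProj.compl {d : ℕ} {P : Eu A →L[ℝ] Eu A} (h : IsProj d P) : IsProj (A - d) (1 - P) := by
  refine IsProj.of_trace (fun v => by simp [h.idem]) (fun v w => by
    simp [inner_sub_left, inner_sub_right, h.symm]) ?_
  have : ((1 - P : Eu A →L[ℝ] Eu A) : Eu A →ₗ[ℝ] Eu A) = 1 - (P : Eu A →ₗ[ℝ] Eu A) := rfl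
  rw [this, map_sub, h.trace_eq, LinearMap.trace_one, Nat.cast_sub h.le_A]
  simp

lemma IsProj.step {d : ℕ} {P : Eu A →L[ℝ] Eu A} (h : IsProj (d + 1) P) {u : Eu A}
    (hu : ‖u‖ = 1) (hP : P u = u) : IsProj d (P - r1 u) := by
  have h1 : ∀ v, ⟪u, P v⟫_ℝ = ⟪u, v⟫_ℝ := fun v => by rw [← h.symm, hP]
  refine IsProj.of_trace (fun v => by
    simp [r1_apply, h.idem, hP, h1, inner_smul_right, hu, inner_sub_right]) (fun v w => by
    simp [r1_apply, inner_sub_left, inner_sub_right, h.symm, inner_smul_left, inner_smul_right,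
      real_inner_comm, mul_comm]) ?_
  have : ((P - r1 u : Eu A →L[ℝ] Eu A) : Eu A →ₗ[ℝ] Eu A) =
      (P : Eu A →ₗ[ℝ] Eu A) - (innerSL ℝ u : Eu A →ₗ[ℝ] ℝ).smulRight u := rfl
  rw [this, map_sub, h.trace_eq, LinearMap.trace_smulRight]
  simp [hu]

lemma IsProj.frame {d : ℕ} {P : Eu A →L[ℝ] Eu A} (h : IsProj d P) :
    ∃ b : Fin d → Eu A, Orthonormal ℝ b ∧ (∀ i, P (b i) = b i) ∧
      ∀ v, P v = ∑ i, ⟪b i, v⟫_ℝ • b i := by
  let T := LinearMap.range (P : Eu A →ₗ[ℝ] Eu A)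
  let b := (stdOrthonormalBasis ℝ T).reindex (finCongr h.dim)
  have hP : ∀ i, P (b i) = b i := fun i => by
    obtain ⟨v, hv⟩ := (b i).2
    rw [← hv]; exact h.idem v
  refine ⟨fun i => b i, b.orthonormal.comp_linearIsometry T.subtypeₗᵢ, hP, fun v => ?_⟩
  have := congrArg (fun z : T => (z : Eu A)) (b.sum_repr' ⟨P v, LinearMap.mem_range_self _ v⟩)
  simp only [Submodule.coe_sum, Submodule.coe_smul, Submodule.coe_inner] at this
  rw [← this]
  refine Finset.sum_congr rfl fun i _ => ?_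
  rw [← h.symm, hP]

lemma IsProj.not_li {d : ℕ} {P : Eu A →L[ℝ] Eu A} (h : IsProj d P) {ι : Type*} [Fintype ι]
    (x : ι → Eu A) (hx : ∀ i, P (x i) = x i) (hc : d < Fintype.card ι) :
    ¬LinearIndependent ℝ x := by
  intro hl
  let T := LinearMap.range (P : Eu A →ₗ[ℝ] Eu A)
  have : LinearIndependent ℝ fun i => (⟨x i, x i, hx i⟩ : T) :=
    LinearIndependent.of_comp T.subtype hl
  have := this.fintype_card_le_finrank
  rw [h.dim] at this
  omega

lemma add_pow_sq_zero {R : Type*} [CommRing R] {a : R} (ha : a * a = 0) (S : R) (k : ℕ) :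
    (S + a) ^ (k + 1) = S ^ (k + 1) + (k + 1 : ℕ) * (a * S ^ k) := by
  induction k with
  | zero => simp
  | succ k ih =>
    rw [pow_succ, ih]
    push_cast
    linear_combination ((k : R) + 1) * S ^ k * ha

lemma sum_pow_sq_zero {R ι : Type*} [CommRing R] (s : Finset ι) (f : ι → R)
    (h : ∀ i, f i * f i = 0) :
    (∑ i ∈ s, f i) ^ s.card = (s.card.factorial : R) * ∏ i ∈ s, f i ∧
      (∑ i ∈ s, f i) ^ (s.card + 1) = 0 := by
  classical
  induction s using Finset.induction_on with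
  | empty => simp
  | insert a s ha ih =>
    rw [Finset.sum_insert ha, Finset.prod_insert ha, Finset.card_insert_of_notMem ha, add_comm (f a),
      add_pow_sq_zero (h a), add_pow_sq_zero (h a), pow_succ _ (s.card + 1), ih.2, ih.1,
      Nat.factorial_succ]
    constructor
    · push_cast; ring
    · simp

namespace DFA

variable (D : DFA A)

lemma swap' (x y x' y' : Eu A) : D.t x y * D.t x' y' = -(D.t x' y * D.t x y') := by
  rw [mul_comm, D.swap]

lemma eq_zero_of_eq_neg {F : D.R} (h : F = -F) : F = 0 := by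
  have : (2 : ℝ) • F = 0 := by rw [two_smul]; nth_rewrite 1 [h]; simp
  simpa using this

lemma same_left (x y y' : Eu A) : D.t x y * D.t x y' = 0 :=
  D.eq_zero_of_eq_neg (D.swap' x y x y')

lemma same_right (x x' y : Eu A) : D.t x y * D.t x' y = 0 :=
  D.eq_zero_of_eq_neg (D.swap x y x' y)

lemma Th_apply (T : Eu A →L[ℝ] Eu A) : D.Th T = ∑ a, D.t (ee a) (T (ee a)) := by
  simp [Th]

lemma BP_apply (d : ℕ) (P : Eu A →L[ℝ] Eu A) (F : D.R) : D.BP d P F = D.B (F * D.nu d P) := rfl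

lemma Th_smulRight (x y : Eu A) : D.Th ((innerSL ℝ x).smulRight y) = D.t x y := by
  rw [Th_apply]
  conv_rhs => rw [← sum_ee x]
  simp [map_sum, real_inner_comm]

lemma Th_r1 (u : Eu A) : D.Th (r1 u) = D.t u u := D.Th_smulRight u u

/-- moving an operator to the one-form slot -/
lemma sum_t_adj (L L' T : Eu A →L[ℝ] Eu A) (h : ∀ v w, ⟪L v, w⟫_ℝ = ⟪v, L' w⟫_ℝ) :
    ∑ a, D.t (L (ee a)) (T (ee a)) = D.Th (T.comp L') := by
  rw [Th_apply]
  exact sum_ee_symm ((D.t.toLinearMap₁₂).compl₂ (T : Eu A →ₗ[ℝ] Eu A)) L L' h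

lemma Th_frame {ι : Type*} [Fintype ι] (b : ι → Eu A) {P : Eu A →L[ℝ] Eu A}
    (h : ∀ v, P v = ∑ i, ⟪b i, v⟫_ℝ • b i) (T : Eu A →L[ℝ] Eu A) :
    D.Th (T.comp P) = ∑ i, D.t (b i) (T (b i)) := by
  have : T.comp P = ∑ i, (innerSL ℝ (b i)).smulRight (T (b i)) := by
    ext1 v
    simp [h v, map_sum]
  rw [this, map_sum]
  simp [Th_smulRight]

lemma prod_zero_left {ι : Type*} [Fintype ι] (x y : ι → Eu A) (h : ¬LinearIndependent ℝ x) :
    ∏ i, D.t (x i) (y i) = 0 := by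
  classical
  let f : AlternatingMap ℝ (Eu A) D.R ι :=
    { (MultilinearMap.mkPiAlgebra ℝ ι D.R).compLinearMap
        (fun i => (D.t.flip (y i) : Eu A →ₗ[ℝ] D.R)) with
      map_eq_zero_of_eq' := by
        intro v i j hv hij
        have : (∏ k ∈ ({i, j} : Finset ι), D.t (v k) (y k)) ∣ ∏ k, D.t (v k) (y k) :=
          Finset.prod_dvd_prod_of_subset _ _ _ (Finset.subset_univ _)
        rw [Finset.prod_pair hij, hv, D.same_left] at this
        simpa using this }
  simpa [f] using f.map_linearDependent x h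

lemma prod_zero_right {ι : Type*} [Fintype ι] (x y : ι → Eu A) (h : ¬LinearIndependent ℝ y) :
    ∏ i, D.t (x i) (y i) = 0 := by
  have := congrArg D.τ (D.prod_zero_left y x h)
  simpa [map_prod, D.τ_t] using this

lemma B_prod' {ι : Type*} [Fintype ι] [DecidableEq ι] (x y : ι → Eu A) :
    D.B (∏ i, D.t (x i) (y i)) =
      if Fintype.card ι = A then (Matrix.of fun i j => ⟪x i, y j⟫_ℝ).det else 0 := by
  let e := (Fintype.equivFin ι).symm
  rw [← e.prod_comp, D.B_prod]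
  congr 1
  rw [← Matrix.det_submatrix_equiv_self e]
  rfl

variable {d : ℕ} {P : Eu A →L[ℝ] Eu A}

lemma Th_pow_frame {b : Fin d → Eu A} (hb : ∀ v, P v = ∑ i, ⟪b i, v⟫_ℝ • b i) :
    D.Th P ^ d = (d.factorial : ℝ) • ∏ i, D.t (b i) (b i) ∧ D.Th P ^ (d + 1) = 0 := by
  have h1 : D.Th P = ∑ i, D.t (b i) (b i) := by
    simpa using D.Th_frame b hb (ContinuousLinearMap.id ℝ _)
  have := sum_pow_sq_zero Finset.univ (fun i => D.t (b i) (b i)) fun i => D.same_left _ _ _
  simp only [Finset.card_univ, Fintype.card_fin] at this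
  rw [h1, this.1, this.2, Algebra.smul_def]
  simp

lemma nu_frame {b : Fin (A - d) → Eu A}
    (hb : ∀ v, (1 - P) v = ∑ i, ⟪b i, v⟫_ℝ • b i) : D.nu d P = ∏ i, D.t (b i) (b i) := by
  rw [nu, (D.Th_pow_frame hb).1, smul_smul, inv_mul_cancel₀ (by positivity), one_smul]

lemma t_nu_left (h : IsProj d P) (x y : Eu A) :
    D.t (P x) y * D.nu d P = D.t x y * D.nu d P := by
  obtain ⟨b, -, -, hb⟩ := h.compl.frame
  have h1 : x = P x + ∑ i, ⟪b i, x⟫_ℝ • b i := by rw [← hb]; simp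
  rw [D.nu_frame hb]
  conv_rhs => rw [h1]
  simp only [map_add, map_sum, map_smul, add_apply, add_mul,
    sum_apply, smul_apply, Finset.sum_mul, left_eq_add]
  refine Finset.sum_eq_zero fun i _ => ?_
  rw [← Finset.mul_prod_erase _ _ (Finset.mem_univ i), smul_mul_assoc, ← mul_assoc, D.same_left]
  simp

lemma τ_Th {L L' : Eu A →L[ℝ] Eu A} (h : ∀ v w, ⟪L v, w⟫_ℝ = ⟪v, L' w⟫_ℝ) :
    D.τ (D.Th L) = D.Th L' := by
  have := D.sum_t_adj L L' (ContinuousLinearMap.id ℝ _) h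
  simp only [ContinuousLinearMap.id_apply, ContinuousLinearMap.id_comp] at this
  rw [← this, Th_apply, map_sum]
  simp [D.τ_t]

lemma τ_nu (h : IsProj d P) : D.τ (D.nu d P) = D.nu d P := by
  rw [nu, map_smul, map_pow, D.τ_Th h.compl.symm]

lemma t_nu_right (h : IsProj d P) (x y : Eu A) :
    D.t x (P y) * D.nu d P = D.t x y * D.nu d P := by
  have := congrArg D.τ (D.t_nu_left h y x)
  simpa [D.τ_t, D.τ_nu h] using this

lemma BP_τ (h : IsProj d P) (F : D.R) : D.BP d P (D.τ F) = D.BP d P F := by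
  rw [BP_apply, BP_apply, ← D.τ_nu h, ← map_mul, D.B_τ, D.τ_nu h]

/-- congruence modulo the annihilator of the normal volume element -/
def Eqv (d : ℕ) (P : Eu A →L[ℝ] Eu A) (F G : D.R) : Prop := F * D.nu d P = G * D.nu d P

namespace Eqv

variable {D} {F G F' G' : D.R}

lemma refl (F : D.R) : D.Eqv d P F F := rfl
lemma of_eq (h : F = G) : D.Eqv d P F G := h ▸ rfl
lemma symm (h : D.Eqv d P F G) : D.Eqv d P G F := Eq.symm h
lemma trans (h : D.Eqv d P F G) (h' : D.Eqv d P G G') : D.Eqv d P F G' := Eq.trans h h'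
lemma add (h : D.Eqv d P F G) (h' : D.Eqv d P F' G') : D.Eqv d P (F + F') (G + G') := by
  unfold Eqv at *; rw [add_mul, add_mul, h, h']
lemma neg (h : D.Eqv d P F G) : D.Eqv d P (-F) (-G) := by
  unfold Eqv at *; rw [neg_mul, neg_mul, h]
lemma sub (h : D.Eqv d P F G) (h' : D.Eqv d P F' G') : D.Eqv d P (F - F') (G - G') := by
  unfold Eqv at *; rw [sub_mul, sub_mul, h, h']
lemma mul (h : D.Eqv d P F G) (h' : D.Eqv d P F' G') : D.Eqv d P (F * F') (G * G') := by
  unfold Eqv at *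
  calc F * F' * D.nu d P = F * (F' * D.nu d P) := by ring
    _ = G' * (F * D.nu d P) := by rw [h']; ring
    _ = G * G' * D.nu d P := by rw [h]; ring
lemma smul (c : ℝ) (h : D.Eqv d P F G) : D.Eqv d P (c • F) (c • G) := by
  unfold Eqv at *; rw [smul_mul_assoc, smul_mul_assoc, h]
lemma pow (h : D.Eqv d P F G) (k : ℕ) : D.Eqv d P (F ^ k) (G ^ k) := by
  induction k with
  | zero => simpa using refl 1
  | succ k ih => rw [pow_succ, pow_succ]; exact ih.mul h
lemma sum {ι : Type*} (s : Finset ι) {f g : ι → D.R} (h : ∀ i ∈ s, D.Eqv d P (f i) (g i)) :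
    D.Eqv d P (∑ i ∈ s, f i) (∑ i ∈ s, g i) := by
  unfold Eqv at *; rw [Finset.sum_mul, Finset.sum_mul]; exact Finset.sum_congr rfl h
lemma prod {ι : Type*} (s : Finset ι) {f g : ι → D.R} (h : ∀ i ∈ s, D.Eqv d P (f i) (g i)) :
    D.Eqv d P (∏ i ∈ s, f i) (∏ i ∈ s, g i) := by
  classical
  induction s using Finset.induction_on with
  | empty => simpa using refl 1
  | insert a s ha ih =>
    rw [Finset.prod_insert ha, Finset.prod_insert ha]
    exact (h a (by simp)).mul (ih fun i hi => h i (by simp [hi]))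
lemma BP (h : D.Eqv d P F G) : D.BP d P F = D.BP d P G := by
  rw [BP_apply, BP_apply, h]

end Eqv

lemma eqv_t (h : IsProj d P) (x y : Eu A) : D.Eqv d P (D.t (P x) (P y)) (D.t x y) :=
  (D.t_nu_left h x (P y)).trans (D.t_nu_right h x y)

lemma eqv_Th (h : IsProj d P) (T : Eu A →L[ℝ] Eu A) :
    D.Eqv d P (D.Th (P.comp (T.comp P))) (D.Th T) := by
  have := D.sum_t_adj P P (P.comp T) h.symm
  rw [ContinuousLinearMap.comp_assoc] at this
  rw [← this, D.Th_apply T]
  exact Eqv.sum _ fun a _ => D.eqv_t h _ _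

lemma BP_prod (h : IsProj d P) {ι : Type*} [Fintype ι] [DecidableEq ι] (x y : ι → Eu A) :
    D.BP d P (∏ i, D.t (x i) (y i)) =
      if Fintype.card ι = d then (Matrix.of fun i j => ⟪P (x i), P (y j)⟫_ℝ).det else 0 := by
  obtain ⟨b, hb0, hb1, hb⟩ := h.compl.frame
  rw [← (Eqv.prod Finset.univ fun i _ => D.eqv_t h (x i) (y i)).BP, BP_apply, D.nu_frame hb]
  have := D.B_prod' (Sum.elim (fun i => P (x i)) b) (Sum.elim (fun i => P (y i)) b)
  rw [Fintype.prod_sum_type] at this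
  simp only [Sum.elim_inl, Sum.elim_inr, Fintype.card_sum, Fintype.card_fin] at this
  rw [this]
  have hA := h.le_A
  have hPb : ∀ i, P (b i) = 0 := fun i => by simpa using hb1 i
  refine if_congr (by omega) ?_ rfl
  have : (Matrix.of fun i j => ⟪Sum.elim (fun i => P (x i)) b i, Sum.elim (fun i => P (y i)) b j⟫_ℝ)
      = Matrix.fromBlocks (Matrix.of fun i j => ⟪P (x i), P (y j)⟫_ℝ) 0 0 1 := by
    ext (i | i) (j | j)
    · simp
    · simp [h.symm, hPb]
    · simp [← h.symm, hPb]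
    · simp [orthonormal_iff_ite.1 hb0, Matrix.one_apply]
  rw [this, Matrix.det_fromBlocks_zero₂₁]
  simp

/-- induction on monomials -/
lemma adjoin_ind {V : Type*} [AddCommGroup V] [Module ℝ V] (φ : D.R →ₗ[ℝ] V)
    (p : Eu A → Eu A → Prop)
    (h : ∀ (ι : Type) [Fintype ι] (x y : ι → Eu A), (∀ i, p (x i) (y i)) →
      φ (∏ i, D.t (x i) (y i)) = 0) {F : D.R}
    (hF : F ∈ Algebra.adjoin ℝ {F | ∃ x y, p x y ∧ F = D.t x y}) : φ F = 0 := by
  have h1 : F ∈ Submodule.span ℝ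
      (Submonoid.closure {F | ∃ x y, p x y ∧ F = D.t x y} : Set D.R) := by
    rw [← Algebra.adjoin_eq_span]; exact hF
  have h2 : ∀ G ∈ Submonoid.closure {F | ∃ x y, p x y ∧ F = D.t x y},
      ∃ (ι : Type) (_ : Fintype ι) (x y : ι → Eu A), (∀ i, p (x i) (y i)) ∧
        G = ∏ i, D.t (x i) (y i) := by
    intro G hG
    induction hG using Submonoid.closure_induction with
    | mem G hG =>
      obtain ⟨x, y, hp, rfl⟩ := hG
      exact ⟨Unit, inferInstance, fun _ => x, fun _ => y, fun _ => hp, by simp⟩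
    | one => exact ⟨Empty, inferInstance, Empty.elim, Empty.elim, fun i => i.elim, by simp⟩
    | mul G G' _ _ h1 h2 =>
      obtain ⟨ι, _, x, y, hp, rfl⟩ := h1
      obtain ⟨ι', _, x', y', hp', rfl⟩ := h2
      refine ⟨ι ⊕ ι', inferInstance, Sum.elim x x', Sum.elim y y', ?_, ?_⟩
      · rintro (i | i)
        · exact hp i
        · exact hp' i
      · simp [Fintype.prod_sum_type]
  have : Submodule.span ℝ (Submonoid.closure {F | ∃ x y, p x y ∧ F = D.t x y} : Set D.R) ≤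
      LinearMap.ker φ := by
    rw [Submodule.span_le]
    intro G hG
    obtain ⟨ι, _, x, y, hp, rfl⟩ := h2 G hG
    exact h ι x y hp
  exact this h1

lemma Tan_eq (h : IsProj d P) :
    D.Tan P = Algebra.adjoin ℝ {F | ∃ x y, (P x = x ∧ P y = y) ∧ F = D.t x y} := by
  unfold Tan
  congr 1
  ext F
  constructor
  · rintro ⟨x, y, rfl⟩
    exact ⟨_, _, ⟨h.idem x, h.idem y⟩, rfl⟩
  · rintro ⟨x, y, ⟨h1, h2⟩, rfl⟩
    exact ⟨x, y, by rw [h1, h2]⟩

lemma t_mem_Tan {x y : Eu A} (hx : P x = x) (hy : P y = y) : D.t x y ∈ D.Tan P :=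
  Algebra.subset_adjoin ⟨x, y, by rw [hx, hy]⟩

lemma Th_mem_Tan (h : IsProj d P) {T : Eu A →L[ℝ] Eu A} (h1 : ∀ v, T (P v) = T v)
    (h2 : ∀ v, P (T v) = T v) : D.Th T ∈ D.Tan P := by
  have := D.sum_t_adj P P T h.symm
  rw [show T.comp P = T from ContinuousLinearMap.ext h1] at this
  rw [← this]
  exact Subalgebra.sum_mem _ fun a _ => D.t_mem_Tan (h.idem _) (h2 _)

lemma t_mem_Perp {u y : Eu A} (x : Eu A) (hy : ⟪u, y⟫_ℝ = 0) : D.t x y ∈ D.Perp u :=
  Algebra.subset_adjoin ⟨x, y, hy, rfl⟩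

lemma Th_mem_Perp {u : Eu A} {T : Eu A →L[ℝ] Eu A} (h : ∀ v, ⟪u, T v⟫_ℝ = 0) :
    D.Th T ∈ D.Perp u := by
  rw [Th_apply]
  exact Subalgebra.sum_mem _ fun a _ => D.t_mem_Perp _ (h _)

/-- the derivative of the normal volume element does not see tangential forms -/
lemma B_dnu (h : IsProj d P) (hd : d < A) {F : D.R} (hF : F ∈ D.Tan P) {K : Eu A →L[ℝ] Eu A}
    (hK : ∀ v, K v = K (P v) + P (K v)) :
    D.B (F * (D.Th (1 - P) ^ (A - d - 1) * D.Th K)) = 0 := by
  classical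
  have key : ∀ x y, P x = x ∨ P y = y → D.B (F * (D.Th (1 - P) ^ (A - d - 1) * D.t x y)) = 0 := by
    intro x y hxy
    rw [D.Tan_eq h] at hF
    refine D.adjoin_ind ((D.B : D.R →ₗ[ℝ] ℝ).comp
      (LinearMap.mulRight ℝ (D.Th (1 - P) ^ (A - d - 1) * D.t x y))) _ ?_ hF
    intro ι _ x' y' hp
    simp only [LinearMap.comp_apply, LinearMap.mulRight_apply, ContinuousLinearMap.coe_coe]
    by_cases hc : d ≤ Fintype.card ι
    · have : (∏ i, D.t (x' i) (y' i)) * D.t x y = 0 := by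
        have e : (∏ i, D.t (x' i) (y' i)) * D.t x y = ∏ i : ι ⊕ Unit,
            D.t (Sum.elim x' (fun _ => x) i) (Sum.elim y' (fun _ => y) i) := by
          simp [Fintype.prod_sum_type]
        rw [e]
        rcases hxy with hx | hy
        · refine D.prod_zero_left _ _ (h.not_li _ ?_ (by simp; omega))
          rintro (i | i)
          · exact (hp i).1
          · exact hx
        · refine D.prod_zero_right _ _ (h.not_li _ ?_ (by simp; omega))
          rintro (i | i)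
          · exact (hp i).2
          · exact hy
      rw [mul_comm _ (D.t x y), ← mul_assoc, this]
      simp
    · rw [Th_apply, Fintype.sum_pow, Finset.sum_mul, Finset.mul_sum, map_sum]
      refine Finset.sum_eq_zero fun g _ => ?_
      have := D.B_prod' (Sum.elim x' (Sum.elim (fun i => ee (g i)) fun _ : Unit => x))
        (Sum.elim y' (Sum.elim (fun i => (1 - P) (ee (g i))) fun _ : Unit => y))
      rw [if_neg (by simp; omega)] at this
      simpa [Fintype.prod_sum_type] using this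
  have e : D.Th K = D.Th (K.comp P) + D.Th (P.comp K) := by
    rw [← map_add]; congr 1; ext1 v; simpa using hK v
  rw [e, ← D.sum_t_adj P P K h.symm, D.Th_apply (P.comp K)]
  simp only [mul_add, Finset.mul_sum, map_add, map_sum]
  rw [Finset.sum_eq_zero fun a _ => key _ _ (Or.inl (h.idem _)),
    Finset.sum_eq_zero fun a _ => key _ _ (Or.inr (by simp [h.idem])), add_zero]

lemma nu_step (h : IsProj (d + 1) P) (u : Eu A) :
    D.nu d (P - r1 u) = D.t u u * D.nu (d + 1) P := by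
  obtain ⟨b, -, -, hb⟩ := h.compl.frame
  have hA := h.le_A
  have e : A - d = A - (d + 1) + 1 := by omega
  have e2 : 1 - (P - r1 u) = (1 - P) + r1 u := by abel
  rw [nu, nu, e, e2, map_add, D.Th_r1, add_pow_sq_zero (D.same_left _ _ _),
    (D.Th_pow_frame hb).2, zero_add, Nat.factorial_succ, mul_smul_comm,
    ← nsmul_eq_mul, ← Nat.cast_smul_eq_nsmul ℝ, smul_smul]
  congr 1
  push_cast
  field_simp

lemma BP_step (h : IsProj (d + 1) P) (u : Eu A) (F : D.R) :
    D.BP (d + 1) P (D.t u u * F) = D.BP d (P - r1 u) F := by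
  rw [BP_apply, BP_apply, D.nu_step h]; congr 1; ring

lemma Eqv.step {D : DFA A} (h : IsProj (d + 1) P) (u : Eu A) {F G : D.R}
    (hFG : D.Eqv (d + 1) P F G) : D.Eqv d (P - r1 u) F G := by
  unfold Eqv at *
  rw [D.nu_step h, mul_left_comm, hFG, mul_left_comm]

lemma BP_perp (h : IsProj (d + 1) P) {u : Eu A} (hu : ‖u‖ = 1) (hP : P u = u) {F : D.R}
    (hF : F ∈ D.Perp u) : D.BP (d + 1) P F = 0 := by
  classical
  refine D.adjoin_ind (D.BP (d + 1) P : D.R →ₗ[ℝ] ℝ) _ ?_ hF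
  intro ι _ x y hp
  simp only [ContinuousLinearMap.coe_coe]
  by_cases hc : Fintype.card ι = d + 1
  · rw [← (Eqv.prod Finset.univ fun i _ => D.eqv_t h (x i) (y i)).BP,
      D.prod_zero_right _ _ ((h.step hu hP).not_li _ ?_ (by omega)), map_zero]
    intro i
    simp [r1_apply, h.idem, ← h.symm, hP, hp i]
  · rw [D.BP_prod h, if_neg hc]

lemma sym_kill (v : Fin A → Eu A) (u : Eu A) (f : Fin A → Fin A → Eu A)
    (hf : ∀ a c, f a c = f c a) : ∑ a, ∑ c, D.t (v a) u * D.t (v c) (f a c) = 0 := by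
  apply D.eq_zero_of_eq_neg
  conv_lhs => rw [Finset.sum_comm]
  rw [← Finset.sum_neg_distrib]
  refine Finset.sum_congr rfl fun a _ => ?_
  rw [← Finset.sum_neg_distrib]
  refine Finset.sum_congr rfl fun c _ => ?_
  rw [D.swap', hf]

lemma sym_kill' {S : Eu A →L[ℝ] Eu A} (hS : ∀ v w, ⟪S v, w⟫_ℝ = ⟪v, S w⟫_ℝ) (u w : Eu A) :
    ∑ a, D.t (ee a) u * D.t (S (ee a)) w = 0 := by
  rw [← D.sym_kill ee u (fun a c => ⟪ee c, S (ee a)⟫_ℝ • w) fun a c => by
    rw [← hS, real_inner_comm]]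
  refine Finset.sum_congr rfl fun a _ => ?_
  conv_lhs => rw [← sum_ee (S (ee a))]
  simp [map_sum, Finset.mul_sum]

end DFA

end Pool.Agent.AlEmb
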