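import Pool.Agent.Lib.MP_3fa020_gt.EBasic

/-!
Existence of the algebra of double forms.
-/

namespace Pool.Agent.AlEmb

open Set Filter Topology MeasureTheory
open scoped InnerProductSpace ContDiff

variable {A n : ℕ}

namespace EAlg0Aux

open scoped TensorProduct
open ExteriorAlgebra

/-- a finite dimensional algebraic model suffices -/
theorem of_alg (R : Type) [CommRing R] [Algebra ℝ R] [Module.Finite ℝ R]
    (t : Eu A →ₗ[ℝ] Eu A →ₗ[ℝ] R) (B : R →ₗ[ℝ] ℝ) (τ : R →ₐ[ℝ] R)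
    (swap : ∀ x y x' y', t x y * t x' y' = -(t x y' * t x' y))
    (B_prod : ∀ (m : ℕ) (x y : Fin m → Eu A), B (∏ i, t (x i) (y i)) =
      if m = A then (Matrix.of fun i j => ⟪x i, y j⟫_ℝ).det else 0)
    (τ_t : ∀ x y, τ (t x y) = t y x) (B_τ : ∀ F, B (τ F) = B F) : Nonempty (DFA A) := by
  let b := Module.finBasis ℝ R
  let _ : NormedRing (Matrix (Fin (Module.finrank ℝ R)) (Fin (Module.finrank ℝ R)) ℝ) :=
    Matrix.linftyOpNormedRing
  let _ : NormedAlgebra ℝ (Matrix (Fin (Module.finrank ℝ R)) (Fin (Module.finrank ℝ R)) ℝ) :=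
    Matrix.linftyOpNormedAlgebra
  let _ : NormedCommRing R := NormedCommRing.induced R _ (Algebra.leftMulMatrix b)
    (Algebra.leftMulMatrix_injective b)
  let _ : NormedAlgebra ℝ R := NormedAlgebra.induced ℝ R _ (Algebra.leftMulMatrix b)
  exact ⟨{
    R := R
    t := LinearMap.toContinuousLinearMap
      ((LinearMap.toContinuousLinearMap : (Eu A →ₗ[ℝ] R) ≃ₗ[ℝ] _).toLinearMap ∘ₗ t)
    B := LinearMap.toContinuousLinearMap B
    τ := τ
    swap := swap
    B_prod := B_prod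
    τ_t := τ_t
    B_τ := B_τ }⟩

abbrev La (A : ℕ) : Type := ExteriorAlgebra ℝ (Eu A)

noncomputable def bas (A : ℕ) : Module.Basis (Fin A) ℝ (Eu A) :=
  (EuclideanSpace.basisFun (Fin A) ℝ).toBasis

instance : Module.Finite ℝ (La A) := Module.Finite.of_basis (bas A).ExteriorAlgebra

/-- the coefficient of top degree -/
noncomputable def top (A : ℕ) : La A →ₗ[ℝ] ℝ :=
  liftAlternating fun m => if h : m = A then (bas A).det.domDomCongr (finCongr h.symm) else 0

theorem top_pair (m : ℕ) (x y : Fin m → Eu A) : top A (ιMulti ℝ m x) * top A (ιMulti ℝ m y) =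
    if m = A then (Matrix.of fun i j => ⟪x i, y j⟫_ℝ).det else 0 := by
  rw [top, liftAlternating_apply_ιMulti, liftAlternating_apply_ιMulti]
  split_ifs with h
  · subst h
    simp only [AlternatingMap.domDomCongr_apply, Module.Basis.det_apply]
    rw [← Matrix.det_transpose ((bas m).toMatrix _), ← Matrix.det_mul]
    congr 1
    ext i j
    simp [Matrix.mul_apply, Module.Basis.toMatrix_apply, bas, PiLp.inner_apply, mul_comm]
  · simp

noncomputable def t0 (A : ℕ) : Eu A →ₗ[ℝ] Eu A →ₗ[ℝ] La A ⊗[ℝ] La A :=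
  (TensorProduct.mk ℝ (La A) (La A)).compl₁₂ (ι ℝ) (ι ℝ)

theorem t0_apply (x y : Eu A) : t0 A x y = ι ℝ x ⊗ₜ[ℝ] ι ℝ y := rfl

theorem anti (x y : Eu A) : (ι ℝ x * ι ℝ y : La A) = -(ι ℝ y * ι ℝ x) :=
  eq_neg_of_add_eq_zero_left (ι_add_mul_swap x y)

theorem t0_swap (x y x' y' : Eu A) : t0 A x y * t0 A x' y' = -(t0 A x y' * t0 A x' y) := by
  simp only [t0_apply, Algebra.TensorProduct.tmul_mul_tmul]
  rw [anti y y', TensorProduct.tmul_neg]

theorem t0_comm (x y x' y' : Eu A) : t0 A x y * t0 A x' y' = t0 A x' y' * t0 A x y := by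
  simp only [t0_apply, Algebra.TensorProduct.tmul_mul_tmul]
  rw [anti y y', anti x x', TensorProduct.tmul_neg, TensorProduct.neg_tmul, neg_neg]

theorem t0_prod (m : ℕ) (x y : Fin m → Eu A) :
    (List.ofFn fun i => t0 A (x i) (y i)).prod = ιMulti ℝ m x ⊗ₜ[ℝ] ιMulti ℝ m y := by
  induction m with
  | zero => simp [Algebra.TensorProduct.one_def]
  | succ m ih =>
    rw [List.ofFn_succ, List.prod_cons, ih, ιMulti_succ_apply, ιMulti_succ_apply, t0_apply,
      Algebra.TensorProduct.tmul_mul_tmul]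
    rfl

noncomputable def B0 (A : ℕ) : La A ⊗[ℝ] La A →ₗ[ℝ] ℝ :=
  (LinearMap.mul' ℝ ℝ) ∘ₗ TensorProduct.map (top A) (top A)

theorem B0_comm (F : La A ⊗[ℝ] La A) :
    B0 A (Algebra.TensorProduct.comm ℝ (La A) (La A) F) = B0 A F := by
  induction F using TensorProduct.induction_on with
  | zero => simp
  | tmul a b => simp [B0, mul_comm]
  | add a b ha hb => rw [map_add, map_add, map_add, ha, hb]

noncomputable def Rg (A : ℕ) : Subalgebra ℝ (La A ⊗[ℝ] La A) :=
  Algebra.adjoin ℝ {F | ∃ x y, t0 A x y = F}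

theorem t0_mem (x y : Eu A) : t0 A x y ∈ Rg A := Algebra.subset_adjoin ⟨x, y, rfl⟩

theorem Rg_comm (a b : Rg A) : a * b = b * a := by
  have : IsMulCommutative (Rg A) := Algebra.isMulCommutative_adjoin ℝ (by
    rintro _ ⟨x, y, rfl⟩ _ ⟨x', y', rfl⟩
    exact t0_comm x y x' y')
  exact this.is_comm.comm a b

theorem comm_mem (F : Rg A) : Algebra.TensorProduct.comm ℝ (La A) (La A) F ∈ Rg A := by
  obtain ⟨F, hF⟩ := F
  change Algebra.TensorProduct.comm ℝ (La A) (La A) F ∈ Rg A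
  induction hF using Algebra.adjoin_induction with
  | mem F h =>
    obtain ⟨x, y, rfl⟩ := h
    exact t0_mem y x
  | algebraMap r => rw [AlgEquiv.commutes]; exact (Rg A).algebraMap_mem r
  | add a b _ _ ha hb => rw [map_add]; exact add_mem ha hb
  | mul a b _ _ ha hb => rw [map_mul]; exact mul_mem ha hb

noncomputable def t1 (A : ℕ) : Eu A →ₗ[ℝ] Eu A →ₗ[ℝ] Rg A :=
  LinearMap.mk₂ ℝ (fun x y => ⟨t0 A x y, t0_mem x y⟩)
    (fun _ _ _ => Subtype.ext (by simp)) (fun _ _ _ => Subtype.ext (by simp))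
    (fun _ _ _ => Subtype.ext (by simp)) (fun _ _ _ => Subtype.ext (by simp))

noncomputable def tr (A : ℕ) : Rg A →ₐ[ℝ] Rg A :=
  ((Algebra.TensorProduct.comm ℝ (La A) (La A)).toAlgHom.comp (Rg A).val).codRestrict _ comm_mem

theorem B0_tr (F : Rg A) : B0 A ((Rg A).val (tr A F)) = B0 A ((Rg A).val F) := B0_comm F.1

end EAlg0Aux

open EAlg0Aux in
theorem exists_DFA (A : ℕ) : Nonempty (DFA A) := by
  let _ : CommRing (Rg A) := { (inferInstance : Ring (Rg A)) with mul_comm := Rg_comm }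
  have : Module.Finite ℝ (Rg A) := inferInstanceAs (Module.Finite ℝ (Rg A).toSubmodule)
  refine of_alg (Rg A) (t1 A) (B0 A ∘ₗ (Rg A).val.toLinearMap) (tr A)
    (fun x y x' y' => Subtype.ext (t0_swap x y x' y')) (fun m x y => ?_)
    (fun x y => Subtype.ext rfl) B0_tr
  rw [← top_pair, ← List.prod_ofFn]
  have h : (Rg A).val (List.ofFn fun i => t1 A (x i) (y i)).prod =
      (List.ofFn fun i => t0 A (x i) (y i)).prod := by
    rw [map_list_prod, List.map_ofFn]
    rfl
  change B0 A ((Rg A).val _) = _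
  rw [h, t0_prod]
  rfl

end Pool.Agent.AlEmb
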