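import Pool.Agent.Lib.MP_3fa020_gt.EAnn2

/-!
The annulus estimate.
-/

namespace Pool.Agent.AlEmb

open Set Filter Topology MeasureTheory
open scoped InnerProductSpace ContDiff

namespace EAnnAux

lemma hasFDerivAt_st {A : ℕ} {g : Eu A → ℝ} {x : Eu A} (hg : ContDiff ℝ ∞ g) (a b : ℝ) :
    HasFDerivAt (fun z => Real.smoothTransition (a * g z + b))
      (deriv Real.smoothTransition (a * g x + b) • (a • fderiv ℝ g x)) x :=
  (cda_diff st_smooth.contDiffAt).hasDerivAt.comp_hasFDerivAt x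
    (((cda_diff hg.contDiffAt).hasFDerivAt.const_mul a).add_const b)

lemma fderiv_Hn {A : ℕ} {σ : ℝ} {h : ℕ → Eu A → ℝ} {l : ℕ} (hh : ContDiff ℝ ∞ (h l)) (x v : Eu A) :
    fderiv ℝ (Hn σ h l) x v = 32 * fderiv ℝ (h l) x v / (σ / 2 ^ l) := by
  have : HasFDerivAt (Hn σ h l) ((32 / (σ / 2 ^ l)) • fderiv ℝ (h l) x) x := by
    have e : Hn σ h l = fun z => 32 / (σ / 2 ^ l) * h l z := by
      funext z; rw [Hn]; ring
    rw [e]
    exact (cda_diff hh.contDiffAt).hasFDerivAt.const_mul _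
  rw [this.fderiv, smul_apply, smul_eq_mul]
  ring

lemma abs_term {ψ e s a D G B : ℝ} (h0 : 0 ≤ ψ) (e0 : 0 ≤ e) (e1 : e ≤ 1) (hs : |s| ≤ G)
    (ha : |a| ≤ 2) (hB : 0 ≤ B) (hD : s ≠ 0 → |D| ≤ B) :
    |ψ * e * (s * (a * D))| ≤ ψ * (G * (2 * B)) := by
  have hG : 0 ≤ G := (abs_nonneg _).trans hs
  by_cases h : s = 0
  · rw [h, zero_mul, mul_zero, abs_zero]; positivity
  · have := hD h
    rw [abs_mul, abs_mul, abs_mul, abs_mul, abs_of_nonneg h0, abs_of_nonneg e0]
    exact mul_le_mul (mul_le_of_le_one_right h0 e1) (by gcongr) (by positivity) h0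

end EAnnAux

open EAnnAux

/-- the annulus estimate holds -/
theorem annulus (n k j p : ℕ) {c : ℝ} (hc : 0 < c) (hc1 : c ≤ 1) (hp : p + 1 ≤ k)
    (hd : j + 2 * (p + 1) ≤ n) : ∃ C ≥ 0, Ann n k j p c C := by
  obtain ⟨C, hC, HC⟩ := exists_est j hc hc1
  obtain ⟨C', hC', HC'⟩ := exists_est (j + 1) (c := c / 10 ^ 6) (by positivity)
    (by linarith [div_le_self hc.le (by norm_num : (1 : ℝ) ≤ 10 ^ 6)])
  obtain ⟨G, hG, HG⟩ := exists_st_bound
  obtain ⟨c₀, hc₀, H₀⟩ := iter (p + 1)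
  set K := 64 * G * C' ^ (p + 1) with hK
  have hCp : 0 ≤ C' ^ (p + 1) := by positivity
  have hKC : C' ^ (p + 1) ≤ K := by nlinarith
  have K0 : 0 ≤ K := hCp.trans hKC
  refine ⟨C * (c₀ * K + (p + 1) * C ^ (p + 1)), by positivity,
    fun S f y₀ R hF y hy σ hσ hσR hyR L q h hA hGd hL ψ hψ => ?_⟩
  have H : Dat S f j c R y₀ y σ L q h := ⟨hF, hc, hc1, hy, hσ, hσR, hyR, hA, hGd⟩
  set r := n - j - 2 * (p + 1) with hr
  set W₀ : Eu S.A → ℝ := fun x => (r : ℝ) * (S.Wf f j c σ (q 0) (h 0)).indicator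
    (S.Ev (Function.update f j (h 0)) (j + 1) (c / 10 ^ 6) (c / 10 ^ 6 * σ) (p + 1)) x with hW₀
  set W : ℕ → Eu S.A → ℝ := fun l x => (S.Wf f j c (σ / 2 ^ l) (q l) (h l)).indicator
    (S.Od (Function.update f j (h l)) (j + 1) (c / 10 ^ 6) (c / 10 ^ 6 * (σ / 2 ^ l)) p) x /
    (σ / 2 ^ l) with hW
  set W₃ : Eu S.A → ℝ := fun x => (S.G.ball y (4 * σ)).indicator (S.Od f j c R p) x / R with hW₃
  have w0 : ∀ x, 0 ≤ W₀ x := fun x => mul_nonneg (Nat.cast_nonneg _)
    (indicator_nonneg (fun z hz => Ctx.wf_Ev_nonneg hc hc1 hz hp) x)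
  have w1 : ∀ l x, 0 ≤ W l x := fun l x => div_nonneg
    (indicator_nonneg (fun z hz => Ctx.wf_Od_nonneg hc hc1 hz (by omega)) x) (H.s_pos l).le
  have w3 : ∀ x, 0 ≤ W₃ x := fun x => div_nonneg (indicator_nonneg (fun z hz =>
    hF.Od_nonneg hc hc1 (S.G.ball_subset_ball hF.mem hy (by linarith) hz) (by omega)) x) hF.pos.le
  have sL := H.Hn_smooth le_rfl
  have s0 := H.Hn_smooth (Nat.zero_le L)
  set α : Eu S.A → ℝ := fun x => Real.smoothTransition (2 * Hn σ h L x + -3.2) with hα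
  set β : Eu S.A → ℝ := fun x => Real.smoothTransition (-(1 / 2) * Hn σ h 0 x + 5.75) with hβ
  have sα : ContDiff ℝ ∞ α := st_smooth.comp ((contDiff_const.mul sL).add contDiff_const)
  have sβ : ContDiff ℝ ∞ β := st_smooth.comp ((contDiff_const.mul s0).add contDiff_const)
  have α0 : ∀ x, 0 ≤ α x := fun x => Real.smoothTransition.nonneg _
  have β0 : ∀ x, 0 ≤ β x := fun x => Real.smoothTransition.nonneg _
  have α1 : ∀ x, α x ≤ 1 := fun x => Real.smoothTransition.le_one _
  have β1 : ∀ x, β x ≤ 1 := fun x => Real.smoothTransition.le_one _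
  set φ : Eu S.A → ℝ := fun x => ψ x * (α x * β x) with hφ
  have sφ : ContDiff ℝ ∞ φ := hψ.smooth.mul (sα.mul sβ)
  have φ0 : ∀ x, 0 ≤ φ x := fun x => mul_nonneg (hψ.nonneg x) (mul_nonneg (α0 x) (β0 x))
  have φ1 : ∀ x, φ x ≤ ψ x := fun x =>
    mul_le_of_le_one_right (hψ.nonneg x) (mul_le_one₀ (α1 x) (β0 x) (β1 x))
  have sup : ∀ x ∈ tsupport φ, S.Slab f j (c / 10 ^ 5 * (σ / 2 ^ L)) y x ∧
      1.6 ≤ Hn σ h L x ∧ Hn σ h 0 x ≤ 11.5 := fun x hx => by
    have k1 := tsupport_mul_subset_right hx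
    have k2 := nonneg_of_tsupport ((continuous_const.mul sL.continuous).add continuous_const)
      (tsupport_mul_subset_left k1)
    have k3 := nonneg_of_tsupport ((continuous_const.mul s0.continuous).add continuous_const)
      (tsupport_mul_subset_right k1)
    simp only [Pi.add_apply, Pi.mul_apply] at k2 k3
    exact ⟨hψ.slab x (tsupport_mul_subset_left hx), by linarith, by linarith⟩
  have est : ∀ x ∈ S.X.M, x ∈ tsupport φ → S.Est f j c R x C := fun x hx hs =>
    HC S f R x hF.pos hF.le_one hx hF.smooth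
      (hF.pt x (H.mem_ball hx (sup x hs).2.1 (sup x hs).2.2))
  have est' : ∀ {s : ℝ} {q' x : Eu S.A} {g : Eu S.A → ℝ}, x ∈ S.Wf f j c s q' g →
      S.Est (Function.update f j g) (j + 1) (c / 10 ^ 6) (c / 10 ^ 6 * s) x C' := fun hx =>
    HC' S _ _ _ hx.2.pos hx.2.le_one hx.2.mem hx.2.smooth (hx.2.pt _ hx.2.self_mem)
  have lev : ∀ x ∈ S.X.M, x ∈ tsupport φ → Lev S.X (n - (j + 1) + 1) (S.X.Pl f j) x :=
    fun x hx hs => (est x hx hs).nz.lev (by omega)
  set u : Eu S.A → Eu S.A := fun z => nrm (Vn S f j σ L h z) with hu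
  have uni : ∀ x ∈ S.X.M, x ∈ tsupport φ → UnitF S.X (S.X.Pl f j) u x := fun x hx hs =>
    H.unitF hx (sup x hs).1 (sup x hs).2.1 (sup x hs).2.2
  obtain ⟨F, hF', hle⟩ := H₀ S.D S.X f j (n - (j + 1)) r (p + 1) u φ
    (fun x => K * (ψ x * (W₀ x + W 0 x + W L x))) sφ
    (fun x _ => mul_nonneg K0 (mul_nonneg (hψ.nonneg x)
      (add_nonneg (add_nonneg (w0 x) (w1 0 x)) (w1 L x))))
    (fun x hx hs => ⟨(est x hx hs).nz, lev x hx hs, uni x hx hs, (est x hx hs).J_pos.le,
      (est x hx hs).J_le⟩)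
    (fun x hx hs i q' hi => by
      obtain ⟨k1, k2, k3⟩ := sup x hs
      have k4 : 0 ≤ ψ x * (W₀ x + W 0 x + W L x) :=
        mul_nonneg (hψ.nonneg x) (add_nonneg (add_nonneg (w0 x) (w1 0 x)) (w1 L x))
      rcases hL with rfl | hL
      · have k5 := H.wf hx k1 k2 k3 le_rfl (by linarith) (by linarith)
        have k6 := H.type (x := x) le_rfl (by linarith) (by linarith) fun l hl hne => by omega
        rw [pow_zero, div_one] at k5
        have k7 := mul_le_mul_of_nonneg_left (even_bd (est' k5) k6 hp hi) (Nat.cast_nonneg r)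
        have k8 : W₀ x = r * S.Ev (Function.update f j (h 0)) (j + 1) (c / 10 ^ 6)
            (c / 10 ^ 6 * σ) (p + 1) x := by simp only [hW₀, indicator_of_mem k5]
        rw [mul_left_comm, ← k8] at k7
        rw [abs_mul, abs_of_nonneg (φ0 x), abs_mul, Nat.abs_cast]
        calc _ ≤ ψ x * (C' ^ (p + 1) * W₀ x) :=
              mul_le_mul (φ1 x) k7 (by positivity) (hψ.nonneg x)
          _ = C' ^ (p + 1) * (ψ x * W₀ x) := by ring
          _ ≤ _ := mul_le_mul hKC (mul_le_mul_of_nonneg_left (by linarith [w1 0 x])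
              (hψ.nonneg x)) (mul_nonneg (hψ.nonneg x) (w0 x)) K0
      · rw [show r = 0 by omega, Nat.cast_zero, zero_mul, mul_zero, abs_zero]
        exact mul_nonneg K0 k4)
    (fun x hx hs i q' hi => by
      obtain ⟨k1, k2, k3⟩ := sup x hs
      set T := S.D.Tf (n - (j + 1)) (S.X.Pl f j) u (2 * i) q' r x with hT
      have hP : S.X.Pl f j x T = T :=
        (lev x hx hs).tan_self (S.D.tanF_Tf (lev x hx hs) (uni x hx hs).toTanF _ _ _)
      have key : ∀ l ≤ L, 1.2 < Hn σ h l x → Hn σ h l x < 13 →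
          u =ᶠ[𝓝 x] S.X.ul (Function.update f j (h l)) j →
          |fderiv ℝ (Hn σ h l) x T| ≤ 32 * (C' ^ (p + 1) * W l x) := fun l hl a1 a2 e => by
        have a3 := H.wf hx k1 k2 k3 hl a1 a2
        have a4 := abs_fderiv_le (lev x hx hs) ((hA l hl).1.grad x hx) e hP
        rw [hT, S.D.inner_Tf (lev x hx hs) (uni x hx hs), ← hT] at a4
        have a5 := a4.trans (odd_bd (est' a3) e hp hi)
        have a6 := H.s_pos l
        simp only [hW, indicator_of_mem a3]
        rw [fderiv_Hn (hA l hl).1.smooth, abs_div, abs_of_pos a6, abs_mul, ← mul_div_assoc,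
          ← mul_div_assoc, abs_of_pos (by norm_num : (0 : ℝ) < 32)]
        gcongr
      have e1 : fderiv ℝ φ x T =
          ψ x * β x * (deriv Real.smoothTransition (2 * Hn σ h L x + -3.2) *
            (2 * fderiv ℝ (Hn σ h L) x T)) +
          ψ x * α x * (deriv Real.smoothTransition (-(1 / 2) * Hn σ h 0 x + 5.75) *
            (-(1 / 2) * fderiv ℝ (Hn σ h 0) x T)) := by
        have := (cda_diff (hψ.smooth.contDiffAt (x := x))).hasFDerivAt.mul
          ((hasFDerivAt_st (x := x) sL 2 (-3.2)).mul (hasFDerivAt_st (x := x) s0 (-(1 / 2)) 5.75))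
        have e0 : fderiv ℝ ψ x T = 0 := by rw [← hP]; exact hψ.const x (est x hx hs).nz T
        rw [show fderiv ℝ φ x = _ from this.fderiv]
        simp only [add_apply, smul_apply, smul_eq_mul, e0, Pi.mul_apply, hα, hβ]
        ring
      have t1 := abs_term (hψ.nonneg x) (β0 x) (β1 x) (HG (2 * Hn σ h L x + -3.2)).1
        (a := 2) (D := fderiv ℝ (Hn σ h L) x T) (by norm_num)
        (mul_nonneg (by norm_num : (0 : ℝ) ≤ 32) (mul_nonneg hCp (w1 L x))) fun hne => by
          have : Hn σ h L x ≤ 2.1 := by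
            by_contra k
            exact hne (deriv_st_zero (Or.inr (by linarith [not_le.1 k])))
          exact key L le_rfl (by linarith) (by linarith) (H.typeL hx k2 this)
      have t2 := abs_term (hψ.nonneg x) (α0 x) (α1 x) (HG (-(1 / 2) * Hn σ h 0 x + 5.75)).1
        (a := -(1 / 2)) (D := fderiv ℝ (Hn σ h 0) x T)
        (by rw [abs_neg, abs_of_pos one_half_pos]; norm_num)
        (mul_nonneg (by norm_num : (0 : ℝ) ≤ 32) (mul_nonneg hCp (w1 0 x))) fun hne => by
          have : 9.5 ≤ Hn σ h 0 x := by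
            by_contra k
            exact hne (deriv_st_zero (Or.inr (by linarith [not_le.1 k])))
          exact key 0 (Nat.zero_le _) (by linarith) (by linarith) (H.type0 hx k3 this)
      have t3 := mul_nonneg K0 (mul_nonneg (hψ.nonneg x) (w0 x))
      rw [e1]
      refine (abs_add_le _ _).trans ((add_le_add t1 t2).trans ?_)
      rw [hK] at t3 ⊢
      linarith)
    0 (zero_add _)
  refine ⟨fun x => φ x * (C * S.X.Jl f j x * S.Ev f j c R (p + 1) x), fun x => C * F x,
    Emb.continuousOn_cut sφ.continuous fun x hx hs => ?_, fun x hx => ?_, hF'.smul C,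
    fun x hx h1 h2 => ?_, fun x hx => ?_⟩
  · exact (continuousAt_const.mul (est x hx hs).nz.cda_Jl.continuousAt).mul
      (Ctx.cda_Ev (est x hx hs).nz c R _).continuousAt
  · by_cases hs : x ∈ tsupport φ
    · exact mul_nonneg (φ0 x) (mul_nonneg (zero_le_one.trans (est x hx hs).J_ge)
        ((est x hx hs).Ev_nonneg hp))
    · simp only [image_eq_zero_of_notMem_tsupport hs, zero_mul, le_refl]
  · obtain ⟨k1, k2⟩ := H.plateau hx h1 h2
    have e : φ x = ψ x := by
      simp only [hφ, hα, hβ]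
      rw [Real.smoothTransition.one_of_one_le (by linarith),
        Real.smoothTransition.one_of_one_le (by linarith), mul_one, mul_one]
    by_cases hs : x ∈ tsupport φ
    · simp only [e]
      exact mul_le_mul_of_nonneg_left
        (le_mul_of_one_le_left ((est x hx hs).Ev_nonneg hp) (est x hx hs).J_ge) (hψ.nonneg x)
    · simp only [← e, image_eq_zero_of_notMem_tsupport hs, zero_mul, le_refl]
  · have k1 := mul_le_mul_of_nonneg_left (hle x hx) (zero_le_one.trans hC)
    have e0 : W 0 x = (S.Wf f j c σ (q 0) (h 0)).indicator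
        (S.Od (Function.update f j (h 0)) (j + 1) (c / 10 ^ 6) (c / 10 ^ 6 * σ) p) x / σ := by
      simp only [hW, pow_zero, div_one]
    rw [← e0]
    change _ ≤ C * F x + _ * ψ x * (W₀ x + W 0 x + W L x + W₃ x)
    have C0 : 0 ≤ C := zero_le_one.trans hC
    have k2 : 0 ≤ C * (c₀ * K) * (ψ x * W₃ x) :=
      mul_nonneg (by positivity) (mul_nonneg (hψ.nonneg x) (w3 x))
    have k3 : 0 ≤ C * ((p + 1) * C ^ (p + 1)) * (ψ x * (W₀ x + W 0 x + W L x)) :=
      mul_nonneg (by positivity)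
        (mul_nonneg (hψ.nonneg x) (add_nonneg (add_nonneg (w0 x) (w1 0 x)) (w1 L x)))
    by_cases hs : x ∈ tsupport φ
    · have hE := est x hx hs
      have hb : x ∈ S.G.ball y (4 * σ) :=
        ⟨hx, by linarith [(H.range hx (sup x hs).2.1 (sup x hs).2.2).2]⟩
      have e1 : W₃ x = S.Od f j c R p x / R := by simp only [hW₃, indicator_of_mem hb]
      have k4 := hE.Ev_le hp hd
      rw [div_mul_eq_mul_div, mul_div_assoc, ← e1] at k4
      have k5 := mul_le_mul_of_nonneg_left k4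
        (mul_nonneg (φ0 x) (zero_le_one.trans hE.J_ge))
      have k6 : φ x * S.X.Jl f j x ≤ ψ x := (mul_le_of_le_one_right (φ0 x) hE.J_le).trans (φ1 x)
      have k7 := mul_le_mul_of_nonneg_left k6
        (mul_nonneg (by positivity : 0 ≤ C * ((p + 1) * C ^ (p + 1))) (w3 x))
      rw [mul_zero, pow_zero, one_mul, show n - (j + 1) + 1 = n - j by omega] at k1
      change C * (S.X.Jl f j x * (φ x * S.LK f j (p + 1) x)) ≤ _ at k1
      nlinarith
    · have k4 : 0 ≤ C * ((p + 1) * C ^ (p + 1)) * (ψ x * W₃ x) :=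
        mul_nonneg (by positivity) (mul_nonneg (hψ.nonneg x) (w3 x))
      simp only [image_eq_zero_of_notMem_tsupport hs, zero_mul, mul_zero] at k1 ⊢
      nlinarith

end Pool.Agent.AlEmb
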