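import Pool.Agent.Lib.MP_3fa020_gt.ECut

/-!
The transgression argument for the annulus estimate.
-/

namespace Pool.Agent.AlEmb.EAnnAux

open Set Filter Topology MeasureTheory
open scoped InnerProductSpace ContDiff

/-- iterated integration by parts of the transgression identity -/
lemma iter (q : ℕ) : ∃ c₀ ≥ 0, ∀ {A n : ℕ} (D : DFA A) (X : Emb A n) (f : ℕ → Eu A → ℝ)
    (j d r m : ℕ) (u : Eu A → Eu A) (φ g : Eu A → ℝ), ContDiff ℝ ∞ φ →
    (∀ x ∈ X.M, 0 ≤ g x) →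
    (∀ x ∈ X.M, x ∈ tsupport φ → X.NZ f j x ∧ Lev X (d + 1) (X.Pl f j) x ∧
      UnitF X (X.Pl f j) u x ∧ 0 ≤ X.Jl f j x ∧ X.Jl f j x ≤ 1) →
    (∀ x ∈ X.M, x ∈ tsupport φ → ∀ i' q', i' + q' = m →
      |φ x * (r * D.BP d (Pst (X.Pl f j) u x) (D.Th (Top (Pst (X.Pl f j) u) u x) ^ (2 * i') *
        D.Om (X.Pl f j) x ^ q' * D.Th (Pst (X.Pl f j) u x) ^ (r - 1)))| ≤ g x) →
    (∀ x ∈ X.M, x ∈ tsupport φ → ∀ i' q', i' + q' + 1 = m →
      |fderiv ℝ φ x (D.Tf d (X.Pl f j) u (2 * i') q' r x)| ≤ g x) →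
    ∀ i, i + q = m → ∃ F, X.IsDiv F ∧ ∀ x ∈ X.M,
      X.Jl f j x * (φ x * D.BP (d + 1) (X.Pl f j x) (D.Th (Top (X.Pl f j) u x) ^ (2 * i) *
        D.Om (X.Pl f j) x ^ q * D.Th (X.Pl f j x) ^ r)) ≤ F x + c₀ * g x := by
  have key : ∀ {J a g : ℝ}, 0 ≤ J → J ≤ 1 → |a| ≤ g → J * a ≤ g := fun h0 h1 h2 =>
    (mul_le_mul_of_nonneg_left (le_abs_self _) h0).trans
      ((mul_le_of_le_one_left (abs_nonneg _) h1).trans h2)
  induction q with
  | zero =>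
    refine ⟨1, zero_le_one, fun D X f j d r m u φ g _ hg h1 h2 _ i hi =>
      ⟨_, Emb.IsDiv.zero, fun x hx => ?_⟩⟩
    by_cases hs : x ∈ tsupport φ
    · obtain ⟨-, hl, hu, j0, j1⟩ := h1 x hx hs
      rw [D.trans_base hl hu, zero_add, one_mul]
      exact key j0 j1 (h2 x hx hs i 0 hi)
    · simpa [image_eq_zero_of_notMem_tsupport hs] using hg x hx
  | succ q ih =>
    obtain ⟨c₀, hc₀, ih⟩ := ih
    refine ⟨2 * (q + 1) * (c₀ + 1) + 1, by positivity,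
      fun D X f j d r m u φ g hφ hg h1 h2 h3 i hi => ?_⟩
    obtain ⟨F, hF, hle⟩ := ih D X f j d r m u φ g hφ hg h1 h2 h3 (i + 1) (by omega)
    have hG := Emb.ibp (X := X) (f := f) (j := j) (Y := D.Tf d (X.Pl f j) u (2 * i) q r) hφ
      fun x hx hs => ⟨(h1 x hx hs).1, D.tanF_Tf (h1 x hx hs).2.1 (h1 x hx hs).2.2.1.toTanF _ _ _⟩
    set κ : ℝ := 2 * (q + 1) / ((2 * i : ℕ) + 1) with hκ
    have κ0 : 0 ≤ κ := by positivity
    have κ1 : κ ≤ 2 * (q + 1) := div_le_self (by positivity) (by simp)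
    refine ⟨_, (hF.smul κ).add (hG.smul (-κ)), fun x hx => ?_⟩
    have e1 := mul_le_mul_of_nonneg_left (hle x hx) κ0
    have e2 := mul_le_mul_of_nonneg_right κ1 (mul_nonneg (add_nonneg hc₀ zero_le_one) (hg x hx))
    have e3 := hg x hx
    by_cases hs : x ∈ tsupport φ
    · obtain ⟨-, hl, hu, j0, j1⟩ := h1 x hx hs
      have e4 := key j0 j1 (h2 x hx hs i (q + 1) hi)
      have e5 := mul_le_mul_of_nonneg_left (key j0 j1 (h3 x hx hs i q (by omega))) κ0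
      rw [D.trans_step hl hu, ← hκ]
      rw [show 2 * (i + 1) = 2 * i + 2 from rfl] at e1
      nlinarith
    · have e6 := (notMem_tsupport_iff_eventuallyEq.1 hs).fderiv_eq (𝕜 := ℝ)
      have e7 := mul_nonneg κ0 e3
      simp only [image_eq_zero_of_notMem_tsupport hs, e6, zero_mul, mul_zero, fderiv_zero,
        Pi.zero_apply, zero_apply, add_zero] at e1 ⊢
      nlinarith

variable {n k : ℕ} {S : Ctx n k} {f : ℕ → Eu S.A → ℝ} {j : ℕ} {h : Eu S.A → ℝ} {x : Eu S.A}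
  {u : Eu S.A → Eu S.A} {c R C : ℝ}

lemma Pl_upd (f : ℕ → Eu S.A → ℝ) (j : ℕ) (h : Eu S.A → ℝ) :
    S.X.Pl (Function.update f j h) j = S.X.Pl f j :=
  Emb.Pl_congr fun _ ha => Function.update_of_ne ha.ne _ _

lemma ul_upd (f : ℕ → Eu S.A → ℝ) (j : ℕ) (h : Eu S.A → ℝ) (x : Eu S.A) :
    S.X.ul (Function.update f j h) j x = nrm (S.X.Pl f j x (gradient h x)) := by
  rw [Emb.ul, Emb.sl, Pl_upd, Function.update_self]

lemma Pst_eq (e : u =ᶠ[𝓝 x] S.X.ul (Function.update f j h) j) :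
    Pst (S.X.Pl f j) u x = S.X.Pl (Function.update f j h) (j + 1) x := by
  rw [Emb.Pl_succ, Pl_upd, Pst, Pst, e.eq_of_nhds]

lemma Top_eq (e : u =ᶠ[𝓝 x] S.X.ul (Function.update f j h) j) :
    Top (Pst (S.X.Pl f j) u) u x = S.X.Sh (Function.update f j h) (j + 1) x := by
  rw [Emb.Sh, Top, Top, Pst_eq e, e.fderiv_eq]

lemma odd_bd (hE : S.Est (Function.update f j h) (j + 1) c R x C)
    (e : u =ᶠ[𝓝 x] S.X.ul (Function.update f j h) j) {p i q : ℕ} (hp : p + 1 ≤ k)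
    (hi : i + q + 1 = p + 1) :
    |S.D.BP (n - (j + 1)) (Pst (S.X.Pl f j) u x)
      (S.D.Th (Top (Pst (S.X.Pl f j) u) u x) ^ (2 * i + 1) * S.D.Om (S.X.Pl f j) x ^ q *
        S.D.Th (Pst (S.X.Pl f j) u x) ^ (n - j - 2 * (p + 1)))| ≤
      C ^ (p + 1) * S.Od (Function.update f j h) (j + 1) c R p x := by
  obtain rfl : p = i + q := by omega
  have := hE.M2' j rfl i q (by omega) _ _
    (hE.ShZ.mul0 (DFA.Dom.refl (hE.thc.pow0 (n - j - 2 * (i + q + 1)))))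
  rw [Pl_upd, smul_mul_assoc, smul_mul_assoc, map_smul, smul_eq_mul, ← mul_assoc, ← pow_succ]
    at this
  rw [Top_eq e, Pst_eq e, Ctx.Od,
    show n - (j + 1) - 2 * (i + q) - 1 = n - j - 2 * (i + q + 1) by omega]
  convert this using 2
  · rw [Ctx.Bl, Ctx.th]; congr 1; ring
  · congr 1; ring

lemma even_bd (hE : S.Est (Function.update f j h) (j + 1) c R x C)
    (e : u =ᶠ[𝓝 x] S.X.ul (Function.update f j h) j) {p i q : ℕ} (hp : p + 1 ≤ k)
    (hi : i + q = p + 1) :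
    |S.D.BP (n - (j + 1)) (Pst (S.X.Pl f j) u x)
      (S.D.Th (Top (Pst (S.X.Pl f j) u) u x) ^ (2 * i) * S.D.Om (S.X.Pl f j) x ^ q *
        S.D.Th (Pst (S.X.Pl f j) u x) ^ (n - j - 2 * (p + 1) - 1))| ≤
      C ^ (p + 1) * S.Ev (Function.update f j h) (j + 1) c R (p + 1) x := by
  have := hE.M2' j rfl i q (by omega) _ _
    (DFA.Dom.refl (hE.thc.pow0 (n - j - 2 * (p + 1) - 1)))
  rw [Pl_upd, hi] at this
  rw [Top_eq e, Pst_eq e, Ctx.Ev,
    show n - (j + 1) - 2 * (p + 1) = n - j - 2 * (p + 1) - 1 by omega]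
  convert this using 2
  · rw [Ctx.Bl, Ctx.th]; congr 1; ring
  · congr 1; ring

/-- derivative of the new function along a tangent vector -/
lemma abs_fderiv_le {d : ℕ} (hl : Lev S.X d (S.X.Pl f j) x) (hg : ‖S.X.gr h x‖ ≤ 1)
    (e : u =ᶠ[𝓝 x] S.X.ul (Function.update f j h) j) {T : Eu S.A} (hT : S.X.Pl f j x T = T) :
    |fderiv ℝ h x T| ≤ |⟪T, u x⟫_ℝ| := by
  rw [e.eq_of_nhds, ul_upd, ← inner_grad, ← hT, ← hl.isProj.symm, hT,
    ← smul_nrm (S.X.Pl f j x (gradient h x)), inner_smul_left, real_inner_comm T, smul_nrm,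
    abs_mul]
  refine mul_le_of_le_one_left (abs_nonneg _) ?_
  rw [conj_trivial, abs_norm, ← hl.sub']
  exact (hl.isProj.norm_le _).trans hg

end Pool.Agent.AlEmb.EAnnAux
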