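import Pool.Agent.Lib.MP_3fa020_gt.EAnn1

/-!
The vector field and the cutoff of the annulus estimate.
-/

namespace Pool.Agent.AlEmb.EAnnAux

open Set Filter Topology MeasureTheory
open scoped InnerProductSpace ContDiff

variable {n k : ℕ}

/-- bump supported in `[1.2, 13]` -/
noncomputable def chi (t : ℝ) : ℝ :=
  Real.smoothTransition (t - 1.2) * Real.smoothTransition (13 - t)

lemma chi_smooth : ContDiff ℝ ∞ chi :=
  (st_smooth.comp (by fun_prop)).mul (st_smooth.comp (by fun_prop))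

lemma chi_nonneg (t : ℝ) : 0 ≤ chi t :=
  mul_nonneg (Real.smoothTransition.nonneg _) (Real.smoothTransition.nonneg _)

lemma chi_pos {t : ℝ} (h1 : 1.2 < t) (h2 : t < 13) : 0 < chi t :=
  mul_pos (Real.smoothTransition.pos_of_pos (by linarith))
    (Real.smoothTransition.pos_of_pos (by linarith))

lemma chi_zero {t : ℝ} (h : t ≤ 1.2 ∨ 13 ≤ t) : chi t = 0 := by
  rcases h with h | h
  · rw [chi, Real.smoothTransition.zero_of_nonpos (by linarith), zero_mul]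
  · rw [chi, Real.smoothTransition.zero_of_nonpos (x := 13 - t) (by linarith), mul_zero]

lemma chi_ne {t : ℝ} (h : chi t ≠ 0) : 1.2 < t ∧ t < 13 := by
  by_contra h'
  exact h (chi_zero (by simpa only [not_and_or, not_lt] using h'))

lemma nonneg_of_tsupport {E : Type*} [TopologicalSpace E] {g : E → ℝ} (hg : Continuous g) {x : E}
    (hx : x ∈ tsupport fun x => Real.smoothTransition (g x)) : 0 ≤ g x := by
  refine closure_minimal (fun z hz => ?_) (isClosed_le continuous_const hg) hx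
  by_contra h
  exact hz (Real.smoothTransition.zero_of_nonpos (not_le.1 h).le)

lemma exists_scale {σ ρ : ℝ} (hσ : 0 < σ) (h2 : ρ ≤ 3.5 * σ) (L : ℕ)
    (h1 : 1.2 * (σ / 2 ^ L) ≤ ρ) : ∃ l ≤ L, 1.2 * (σ / 2 ^ l) ≤ ρ ∧ ρ ≤ 3.5 * (σ / 2 ^ l) := by
  induction L with
  | zero => exact ⟨0, le_rfl, h1, by simpa using h2⟩
  | succ L ih =>
    by_cases h : 1.2 * (σ / 2 ^ L) ≤ ρ
    · obtain ⟨l, hl, h'⟩ := ih h
      exact ⟨l, by omega, h'⟩
    · refine ⟨L + 1, le_rfl, h1, ?_⟩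
      have e : σ / 2 ^ L = 2 * (σ / 2 ^ (L + 1)) := by rw [pow_succ]; field_simp
      have : 0 < σ / 2 ^ (L + 1) := by positivity
      rw [e] at h
      linarith

lemma scale_le {σ : ℝ} (hσ : 0 < σ) {l l' : ℕ} (h : l < l') : 2 * (σ / 2 ^ l') ≤ σ / 2 ^ l := by
  have e : σ / 2 ^ l = 2 * (σ / 2 ^ (l + 1)) := by rw [pow_succ]; field_simp
  rw [e]
  gcongr
  · norm_num
  · exact h

lemma tanF_sum {A : ℕ} {X : Emb A n} {P : Eu A → Eu A →L[ℝ] Eu A} {x : Eu A} {ι : Type*}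
    (s : Finset ι) {Y : ι → Eu A → Eu A} (h : ∀ i ∈ s, TanF X P (Y i) x) :
    TanF X P (fun y => ∑ i ∈ s, Y i y) x :=
  ⟨ContDiffAt.sum fun i hi => (h i hi).smooth,
    ((eventually_all_finset s).2 fun i hi => (h i hi).tan).mono fun y hy => by
      rw [map_sum]; exact Finset.sum_congr rfl hy⟩

/-- normalised adapted function -/
noncomputable def Hn {A : ℕ} (σ : ℝ) (h : ℕ → Eu A → ℝ) (l : ℕ) (x : Eu A) : ℝ :=
  32 * h l x / (σ / 2 ^ l)

/-- the glued gradient field -/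
noncomputable def Vn (S : Ctx n k) (f : ℕ → Eu S.A → ℝ) (j : ℕ) (σ : ℝ) (L : ℕ)
    (h : ℕ → Eu S.A → ℝ) (x : Eu S.A) : Eu S.A :=
  ∑ l ∈ Finset.range (L + 1), chi (Hn σ h l x) • S.X.Pl f j x (gradient (h l) x)

/-- the hypotheses of the annulus estimate -/
structure Dat (S : Ctx n k) (f : ℕ → Eu S.A → ℝ) (j : ℕ) (c R : ℝ) (y₀ y : Eu S.A) (σ : ℝ)
    (L : ℕ) (q : ℕ → Eu S.A) (h : ℕ → Eu S.A → ℝ) : Prop where
  hF : S.Frame f j c y₀ R
  hc : 0 < c
  hc1 : c ≤ 1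
  hy : y ∈ S.X.M
  hσ : 0 < σ
  hσR : σ ≤ c / 10 ^ 6 * R
  hyR : S.G.d y₀ y + 6 * σ ≤ R
  hA : ∀ l ≤ L, S.Adp f j c (σ / 2 ^ l) (q l) (h l) ∧ S.Cen f j c (σ / 2 ^ l) y (q l)
  hG : S.Good f j c R y (σ / 2 ^ L) (4 * σ)

namespace Dat

variable {S : Ctx n k} {f : ℕ → Eu S.A → ℝ} {j : ℕ} {c R : ℝ} {y₀ y : Eu S.A} {σ : ℝ} {L : ℕ}
  {q : ℕ → Eu S.A} {h : ℕ → Eu S.A → ℝ} (H : Dat S f j c R y₀ y σ L q h) {x : Eu S.A} {l : ℕ}
include H

lemma s_pos (l : ℕ) : 0 < σ / 2 ^ l := by have := H.hσ; positivity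

lemma s_le (l : ℕ) : σ / 2 ^ l ≤ σ := div_le_self H.hσ.le (one_le_pow₀ one_le_two)

lemma Hn_smooth (hl : l ≤ L) : ContDiff ℝ ∞ (Hn σ h l) :=
  (contDiff_const.mul (H.hA l hl).1.smooth).div_const _

lemma up (hl : l ≤ L) (hx : x ∈ S.X.M) {t : ℝ} (ht : S.G.d y x ≤ t * (σ / 2 ^ l)) :
    Hn σ h l x ≤ 1.01 * (t + 1 / 1000) ^ 2 + 1 / 100 := by
  have h0 := H.s_pos l
  have h1 : σ / 2 ^ l ≤ 1 / 10 ^ 6 := by
    have : c * R ≤ 1 := mul_le_one₀ H.hc1 H.hF.pos.le H.hF.le_one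
    linarith [H.s_le l, H.hσR]
  refine ((H.hA l hl).1.upper h0 h1 H.hy (H.hA l hl).2.1 hx).trans ?_
  have h2 : S.G.d y x / (σ / 2 ^ l) ≤ t := (div_le_iff₀ h0).2 ht
  have h3 : 0 ≤ S.G.d y x / (σ / 2 ^ l) := div_nonneg (S.G.nonneg _ _) h0.le
  gcongr

lemma lo (hl : l ≤ L) (hx : x ∈ S.X.M) {t : ℝ} (h1 : 1 / 1000 ≤ t) (h2 : t ≤ 7)
    (ht : t * (σ / 2 ^ l) ≤ S.G.d y x) : (t - 1 / 1000) ^ 2 - 1 / 100 ≤ Hn σ h l x :=
  (H.hA l hl).1.lower (H.s_pos l) H.hy (H.hA l hl).2.1 hx h1 h2 ht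

lemma range (hx : x ∈ S.X.M) (h1 : 1.6 ≤ Hn σ h L x) (h2 : Hn σ h 0 x ≤ 11.5) :
    1.2 * (σ / 2 ^ L) ≤ S.G.d y x ∧ S.G.d y x ≤ 3.5 * σ := by
  constructor
  · by_contra h3
    have := H.up le_rfl hx (not_le.1 h3).le
    norm_num at this h1
    linarith
  · by_contra h3
    have := H.lo (Nat.zero_le L) hx (t := 3.5) (by norm_num) (by norm_num)
      (by simpa using (not_le.1 h3).le)
    norm_num at this h2
    linarith

lemma range' (hl : l ≤ L) (hx : x ∈ S.X.M) (h1 : 1.2 < Hn σ h l x) (h2 : Hn σ h l x < 13) :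
    σ / 2 ^ l ≤ S.G.d y x ∧ S.G.d y x ≤ 4 * (σ / 2 ^ l) := by
  constructor
  · by_contra h3
    have := H.up hl hx (t := 1) (by simpa using (not_le.1 h3).le)
    norm_num at this h1
    linarith
  · by_contra h3
    have := H.lo hl hx (t := 4) (by norm_num) (by norm_num) (not_le.1 h3).le
    norm_num at this h2
    linarith

variable (hx : x ∈ S.X.M) (hs : S.Slab f j (c / 10 ^ 5 * (σ / 2 ^ L)) y x)
  (h1 : 1.6 ≤ Hn σ h L x) (h2 : Hn σ h 0 x ≤ 11.5)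
include hx hs h1 h2

omit hs in
lemma mem_ball : x ∈ S.G.ball y₀ R := by
  have := S.G.tri _ H.hF.mem _ H.hy _ hx
  exact ⟨hx, by linarith [(H.range hx h1 h2).2, H.hyR, H.hσ]⟩

lemma slab : S.Slab f j (c / 10 ^ 5 * S.G.d y x) y x := by
  refine hs.mono (mul_le_mul_of_nonneg_left ?_ (by have := H.hc; positivity))
  linarith [(H.range hx h1 h2).1, H.s_pos L]

lemma reg : S.Reg f j c y x := by
  obtain ⟨r1, r2⟩ := H.range hx h1 h2
  by_contra h3
  exact H.hG x (by linarith [H.s_pos L]) (by linarith [H.hσ])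
    ⟨hx, by linarith [H.hσ, H.hσR], H.slab hx hs h1 h2, h3⟩

lemma wf (hl : l ≤ L) (h3 : 1.2 < Hn σ h l x) (h4 : Hn σ h l x < 13) :
    x ∈ S.Wf f j c (σ / 2 ^ l) (q l) (h l) := by
  obtain ⟨r1, r2⟩ := H.range' hl hx h3 h4
  exact H.hF.new_frame H.hc H.hc1 (H.s_pos l) ((H.s_le l).trans H.hσR) H.hy
    (by linarith [H.s_le l, H.hyR]) (H.hA l hl).1 (H.hA l hl).2 hx r1 r2 (H.slab hx hs h1 h2)
    (H.reg hx hs h1 h2)

lemma V_ne : Vn S f j σ L h x ≠ 0 := by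
  obtain ⟨r1, r2⟩ := H.range hx h1 h2
  have hb := H.mem_ball hx h1 h2
  have hN := H.hF.nz H.hc hb
  obtain ⟨w, w1, w2, w3⟩ := H.hF.reg_dir H.hc H.hc1 H.hσR H.hy H.hyR hx
    (by linarith [H.s_pos L]) (by linarith [H.hσ]) (H.reg hx hs h1 h2)
  have e : Vn S f j σ L h x = S.X.Pl f j x
      (∑ l ∈ Finset.range (L + 1), chi (Hn σ h l x) • S.X.gr (h l) x) := by
    simp only [Vn, map_sum, map_smul, hN.Pl_gr]
  have hw : ∀ l ≤ L, chi (Hn σ h l x) ≠ 0 → 0 < fderiv ℝ (h l) x w := fun l hl h0 => by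
    obtain ⟨k1, k2⟩ := H.range' hl hx (chi_ne h0).1 (chi_ne h0).2
    exact w3 _ _ _ (H.s_pos l) (H.s_le l) (H.hA l hl).1 (H.hA l hl).2 k1 k2
  rw [e]
  refine hN.ne_zero ((H.hF.pt x hb).obt0 H.hc) ?_ (fun b hb => ?_) w1 w2 ?_
  · simp only [map_sum, map_smul, Emb.P_gr hx]
  · rw [sum_inner]
    refine Finset.sum_nonpos fun l hl => ?_
    have hl := Nat.lt_succ_iff.1 (Finset.mem_range.1 hl)
    rw [inner_smul_left, conj_trivial]
    by_cases h0 : chi (Hn σ h l x) = 0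
    · rw [h0, zero_mul]
    · have hW := (H.wf hx hs h1 h2 hl (chi_ne h0).1 (chi_ne h0).2).2
      have := (hW.pt x hW.self_mem).obt0 (by have := H.hc; positivity) j (by omega) b (by omega)
        (by omega)
      rw [Function.update_self, Function.update_of_ne hb.ne] at this
      exact mul_nonpos_of_nonneg_of_nonpos (chi_nonneg _) this
  · rw [sum_inner]
    obtain ⟨l, hl, k1, k2⟩ := exists_scale H.hσ r2 L r1
    refine Finset.sum_pos' (fun l hl => ?_) ⟨l, Finset.mem_range.2 (by omega), ?_⟩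
    · have hl := Nat.lt_succ_iff.1 (Finset.mem_range.1 hl)
      rw [inner_smul_left, conj_trivial, Emb.inner_gr hx _ w1]
      by_cases h0 : chi (Hn σ h l x) = 0
      · rw [h0, zero_mul]
      · exact mul_nonneg (chi_nonneg _) (hw l hl h0).le
    · rw [inner_smul_left, conj_trivial, Emb.inner_gr hx _ w1]
      have k3 := H.lo hl hx (t := 1.2) (by norm_num) (by norm_num) k1
      have k4 := H.up hl hx k2
      have k5 : 0 < chi (Hn σ h l x) :=
        chi_pos (lt_of_lt_of_le (by norm_num) k3) (lt_of_le_of_lt k4 (by norm_num))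
      exact mul_pos k5 (hw l hl k5.ne')

lemma unitF : UnitF S.X (S.X.Pl f j) (fun z => nrm (Vn S f j σ L h z)) x := by
  have hN := (H.hF.nz H.hc (H.mem_ball hx h1 h2)).lev'
  refine hN.unitF_nrm (tanF_sum _ fun l hl => ?_) (H.V_ne hx hs h1 h2)
  have hl := Nat.lt_succ_iff.1 (Finset.mem_range.1 hl)
  exact (hN.tanF_grad (H.hA l hl).1.smooth.contDiffAt).smul
    (chi_smooth.comp (H.Hn_smooth hl)).contDiffAt

omit hx hs h1 h2 in
lemma type (hl : l ≤ L) (h3 : 1.2 < Hn σ h l x) (h4 : Hn σ h l x < 13)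
    (h5 : ∀ l' ≤ L, l' ≠ l → Hn σ h l' x < 1.2 ∨ 13 < Hn σ h l' x) :
    (fun z => nrm (Vn S f j σ L h z)) =ᶠ[𝓝 x] S.X.ul (Function.update f j (h l)) j := by
  have e1 : ∀ᶠ z in 𝓝 x, ∀ l' ∈ Finset.range (L + 1), l' ≠ l → chi (Hn σ h l' z) = 0 := by
    refine (eventually_all_finset _).2 fun l' hl' => ?_
    have hl' := Nat.lt_succ_iff.1 (Finset.mem_range.1 hl')
    have hc := (H.Hn_smooth hl').continuous.continuousAt (x := x)
    by_cases e : l' = l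
    · exact Eventually.of_forall fun _ h => absurd e h
    · rcases h5 l' hl' e with k | k
      · exact (hc.eventually (gt_mem_nhds k)).mono fun z hz _ => chi_zero (Or.inl hz.le)
      · exact (hc.eventually (lt_mem_nhds k)).mono fun z hz _ => chi_zero (Or.inr hz.le)
  have hc := (H.Hn_smooth hl).continuous.continuousAt (x := x)
  filter_upwards [e1, hc.eventually (lt_mem_nhds h3), hc.eventually (gt_mem_nhds h4)]
    with z k1 k2 k3
  rw [ul_upd, Vn, Finset.sum_eq_single l (fun b hb hbl => by rw [k1 b hb hbl, zero_smul])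
    (fun hb => absurd (Finset.mem_range.2 (by omega)) hb), nrm_smul (chi_pos k2 k3)]

omit hs h2 in
lemma typeL (h3 : Hn σ h L x ≤ 2.1) :
    (fun z => nrm (Vn S f j σ L h z)) =ᶠ[𝓝 x] S.X.ul (Function.update f j (h L)) j := by
  refine H.type le_rfl (by linarith) (by linarith) fun l hl hne => Or.inl ?_
  have k1 : S.G.d y x ≤ 1.5 * (σ / 2 ^ L) := by
    by_contra k
    have := H.lo le_rfl hx (t := 1.5) (by norm_num) (by norm_num) (not_le.1 k).le
    norm_num at this h3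
    linarith
  have k2 := scale_le H.hσ (lt_of_le_of_ne hl hne)
  exact (H.up hl hx (t := 0.75) (by linarith)).trans_lt (by norm_num)

omit hs h1 in
lemma type0 (h3 : 9.5 ≤ Hn σ h 0 x) :
    (fun z => nrm (Vn S f j σ L h z)) =ᶠ[𝓝 x] S.X.ul (Function.update f j (h 0)) j := by
  refine H.type (Nat.zero_le _) (by linarith) (by linarith) fun l hl hne => Or.inr ?_
  have k1 : 3 * (σ / 2 ^ 0) ≤ S.G.d y x := by
    by_contra k
    have := H.up (Nat.zero_le _) hx (not_le.1 k).le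
    norm_num at this h3
    linarith
  have k2 := scale_le H.hσ (Nat.pos_of_ne_zero hne)
  exact lt_of_lt_of_le (by norm_num)
    (H.lo hl hx (t := 4) (by norm_num) (by norm_num) (by linarith [H.s_pos l]))

omit hs h1 h2 in
lemma plateau (h3 : 3 / 2 * (σ / 2 ^ L) ≤ S.G.d y x) (h4 : S.G.d y x ≤ 3 * σ) :
    2.1 ≤ Hn σ h L x ∧ Hn σ h 0 x ≤ 9.5 :=
  ⟨le_trans (by norm_num) (H.lo le_rfl hx (t := 3 / 2) (by norm_num) (by norm_num) h3),
    (H.up (Nat.zero_le _) hx (t := 3) (by simpa using h4)).trans (by norm_num)⟩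

end Dat

end Pool.Agent.AlEmb.EAnnAux
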