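import Pool.Agent.Lib.MP_3fa020_gt.EBarrier1

namespace Pool.Agent.AlEmb

open Set Filter Topology MeasureTheory
open scoped InnerProductSpace ContDiff

variable {A n : ℕ}

namespace EBarrierAux

lemma sqrt_bound {g k Q η : ℝ} (hk : 0 ≤ k) (hQ : 0 ≤ Q) (hη : 0 ≤ η) (h1 : 1 ≤ k * (1 + η))
    (h : g ^ 2 ≤ k ^ 2 + Q) : g ≤ k + (1 + η) / 2 * Q := by
  refine (abs_le_of_sq_le_sq' (h.trans ?_) (by positivity)).2
  linarith [mul_le_mul_of_nonneg_right h1 hQ, sq_nonneg ((1 + η) / 2 * Q)]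

lemma point {X : Emb A n} (hs : X.Sec) {y w E u : Eu A} (hy : y ∈ X.M) (hw : X.P y w = w)
    (hw1 : ‖w‖ = 1) (hE : X.P y E = E) {a p φ φ' ψ k B : ℝ} (hp : ‖E‖ ^ 2 = p)
    (ha : ⟪w, E⟫_ℝ = a) (hφ : φ ^ 2 ≤ 1) (hψ : ψ ^ 2 ≤ 1) {V : Eu A}
    (hV : V = φ • (E - a • w) + (ψ * a) • w)
    (hu : u = k • w + φ' • (E - a • w) + X.II y w V)
    (hB : ∀ v w, ‖X.II y v w‖ ≤ B * ‖v‖ * ‖w‖) :
    X.P y V = V ∧ ‖V‖ ≤ ‖E‖ ∧ ‖u - w‖ ≤ |k - 1| + |φ'| * ‖E‖ + B * ‖V‖ ∧
      ‖u‖ ^ 2 - ⟪X.II y w w, X.II y V V⟫_ℝ ≤ k ^ 2 + (φ' ^ 2 + φ ^ 2) * (p - a ^ 2) := by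
  set F := E - a • w with hF
  have hFt : X.P y F = F := by rw [hF, map_sub, map_smul, hw, hE]
  have hww : ⟪w, w⟫_ℝ = 1 := by rw [real_inner_self_eq_norm_sq, hw1, one_pow]
  have hwF : ⟪w, F⟫_ℝ = 0 := by
    rw [hF, inner_sub_right, real_inner_smul_right, hww, ha, mul_one, sub_self]
  have hFF : ‖F‖ ^ 2 = p - a ^ 2 := by
    rw [hF, norm_sub_sq_real, real_inner_smul_right, real_inner_comm, ha, norm_smul, hw1, hp,
      mul_one, Real.norm_eq_abs, sq_abs]
    ring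
  have hsq : ∀ s t : ℝ, ‖s • F + t • w‖ ^ 2 = s ^ 2 * (p - a ^ 2) + t ^ 2 := by
    intro s t
    rw [norm_add_sq_real, real_inner_smul_left, real_inner_smul_right, real_inner_comm, hwF,
      norm_smul, norm_smul, hw1, mul_pow, hFF, mul_one, Real.norm_eq_abs, Real.norm_eq_abs,
      sq_abs, sq_abs]
    ring
  have hVt : X.P y V = V := by rw [hV, map_add, map_smul, map_smul, hw, hFt]
  have hVV : ‖V‖ ^ 2 = φ ^ 2 * (p - a ^ 2) + (ψ * a) ^ 2 := by rw [hV, hsq]
  have hwV : ⟪w, V⟫_ℝ = ψ * a := by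
    rw [hV, inner_add_right, real_inner_smul_right, real_inner_smul_right, hwF, hww]
    ring
  have h0 : 0 ≤ p - a ^ 2 := hFF ▸ sq_nonneg _
  refine ⟨hVt, ?_, ?_, ?_⟩
  · refine (abs_le_of_sq_le_sq' ?_ (norm_nonneg _)).2
    rw [hVV, hp, mul_pow]
    linarith [mul_le_mul_of_nonneg_right hφ h0, mul_le_mul_of_nonneg_right hψ (sq_nonneg a)]
  · have e : u - w = (k - 1) • w + φ' • F + X.II y w V := by rw [hu, sub_smul, one_smul]; abel
    have h1 : ‖F‖ ≤ ‖E‖ := (abs_le_of_sq_le_sq' (by rw [hFF, hp]; linarith [sq_nonneg a]) (norm_nonneg _)).2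
    have h2 := hB w V
    rw [hw1, mul_one] at h2
    rw [e]
    refine norm_add₃_le.trans ?_
    rw [norm_smul, norm_smul, hw1, mul_one, Real.norm_eq_abs, Real.norm_eq_abs]
    gcongr
  · have h1 := hs y hy w V hw hVt
    rw [hw1, hwV, hVV] at h1
    have h2 : ⟪φ' • F + k • w, X.II y w V⟫_ℝ = 0 := by
      rw [real_inner_comm]
      exact inner_II hy hw hVt (by rw [map_add, map_smul, map_smul, hw, hFt])
    rw [hu, add_comm (k • w), norm_add_sq_real, hsq, h2]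
    linarith

lemma length {X : Emb A n} {G : Geo X} (hs : X.Sec) {γ w : ℝ → Eu A} {l : ℝ}
    (h : G.IsGeod γ w l) (hl : 0 < l) {θ : ℝ} (hθ : 0 < θ) : ∃ r > 0, r ≤ X.δ ∧ ∀ e : Eu A,
      X.P (γ 0) e = e → ‖e‖ < r → G.d (X.pr (γ 0 + e)) (γ l) ≤ l - ⟪w 0, e⟫_ℝ +
        Real.cosh l / Real.sinh l / 2 * (‖e‖ ^ 2 - ⟪w 0, e⟫_ℝ ^ 2) + θ * ‖e‖ ^ 2 := by
  have hsl : 0 < Real.sinh l := Real.sinh_pos_iff.2 hl
  set H := Real.cosh l / Real.sinh l with hH
  have hH0 : 0 < H := div_pos (Real.cosh_pos l) hsl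
  obtain ⟨B, hB0, hB⟩ := II_le X
  set η := min 1 (θ / (H / 2 + l)) with hη
  have h0 : 0 < η := lt_min one_pos (by positivity)
  have h01 : η ≤ 1 := min_le_left _ _
  have h02 : η * (H / 2 + l) ≤ θ := by
    rw [← le_div_iff₀ (by positivity)]
    exact min_le_right _ _
  obtain ⟨r, hr, hrδ, hstep⟩ := step X h0
  refine ⟨min r (min (r / (l⁻¹ + H + B)) (η * l / 2)), by positivity,
    (min_le_left _ _).trans hrδ, fun e he her => ?_⟩
  have he1 : ‖e‖ < r := her.trans_le (min_le_left _ _)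
  have he2 : (l⁻¹ + H + B) * ‖e‖ < r := by
    have := her.trans_le ((min_le_right _ _).trans (min_le_left _ _))
    rwa [lt_div_iff₀ (by positivity), mul_comm] at this
  have he3 : ‖e‖ < η * l / 2 := her.trans_le ((min_le_right _ _).trans (min_le_right _ _))
  obtain ⟨E, hE0, hE⟩ := par h he
  set a := ⟪w 0, e⟫_ℝ with ha
  set p := ‖e‖ ^ 2 with hp
  have h0l : (0 : ℝ) ∈ Icc 0 l := ⟨le_rfl, hl.le⟩
  have ha1 : |a| ≤ ‖e‖ := by
    have := abs_real_inner_le_norm (w 0) e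
    rwa [h.unit 0 h0l, one_mul] at this
  have hpa : 0 ≤ p - a ^ 2 := by
    have := pow_le_pow_left₀ (abs_nonneg _) ha1 2
    rw [sq_abs] at this
    linarith
  set k := 1 - a / l with hk
  have hk1 : |k - 1| ≤ l⁻¹ * ‖e‖ := by
    rw [hk, sub_sub_cancel_left, abs_neg, abs_div, abs_of_pos hl, div_eq_inv_mul]
    gcongr
  have hk2 : 1 - η / 2 ≤ k := by
    have : l⁻¹ * ‖e‖ ≤ η / 2 := by
      rw [inv_mul_le_iff₀ hl]
      linarith
    linarith [(abs_le.1 hk1).1]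
  have hk3 : 1 ≤ k * (1 + η) := by
    linarith [mul_le_mul_of_nonneg_right hk2 (show 0 ≤ 1 + η by positivity),
      mul_le_mul_of_nonneg_right h01 h0.le]
  let φ : ℝ → ℝ := fun t => Real.sinh (l - t) / Real.sinh l
  let φ' : ℝ → ℝ := fun t => -Real.cosh (l - t) / Real.sinh l
  have hlt : ∀ t : ℝ, HasDerivAt (fun t => l - t) (-1) t := fun t =>
    (hasDerivAt_id t).const_sub l
  have hφ : ∀ t, HasDerivAt φ (φ' t) t := fun t =>
    ((hlt t).sinh.div_const _).congr_deriv (by simp [φ'])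
  have hφ' : ∀ t, HasDerivAt φ' (φ t) t := fun t =>
    ((hlt t).cosh.neg.div_const _).congr_deriv (by simp [φ])
  let V : ℝ → Eu A := fun t => φ t • (E t - a • w t) + ((1 - t / l) * a) • w t
  let u : ℝ → Eu A := fun t => k • w t + φ' t • (E t - a • w t) + X.II (γ t) (w t) (V t)
  have hc : ∀ t ∈ Icc 0 l, HasDerivWithinAt (fun t => γ t + V t) (u t) (Icc 0 l) t := by
    intro t ht
    have h1 : HasDerivAt (fun t => (1 - t / l) * a) (-(1 / l) * a) t :=
      (((hasDerivAt_id t).div_const l).const_sub 1).mul_const a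
    refine ((h.vel t ht).add (((hφ t).hasDerivWithinAt.smul ((hE t ht).1.sub
      ((h.acc t ht).const_smul a))).add (h1.hasDerivWithinAt.smul (h.acc t ht)))).congr_deriv ?_
    simp only [u, V, hk, Emb.II, map_add, map_sub, map_smul, Pi.sub_apply, Pi.smul_apply]
    module
  have hpt : ∀ t ∈ Icc 0 l, ‖V t‖ < r ∧ ‖X.P (γ t + V t) (u t)‖ ≤
      k + (1 + η) / 2 * ((φ' t ^ 2 + φ t ^ 2) * (p - a ^ 2) + η * p) := by
    intro t ht
    have h1 : |φ t| ≤ 1 := by
      rw [abs_div, abs_of_pos hsl, div_le_one hsl,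
        abs_of_nonneg (Real.sinh_nonneg_iff.2 (sub_nonneg.2 ht.2)), Real.sinh_le_sinh]
      linarith [ht.1]
    have h2 : |φ' t| ≤ H := by
      rw [abs_div, abs_of_pos hsl, abs_neg, abs_of_pos (Real.cosh_pos _), hH]
      refine div_le_div_of_nonneg_right ?_ hsl.le
      rw [Real.cosh_le_cosh, abs_of_nonneg (sub_nonneg.2 ht.2), abs_of_pos hl]
      linarith [ht.1]
    have h3 : |1 - t / l| ≤ 1 := by
      have := div_nonneg ht.1 hl.le
      have := (div_le_one hl).2 ht.2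
      rw [abs_le]
      constructor <;> linarith
    have hEn : ‖E t‖ = ‖e‖ := (sq_eq_sq₀ (norm_nonneg _) (norm_nonneg _)).1 (hE t ht).2.2.1
    obtain ⟨q1, q2, q3, q4⟩ := point hs (h.mem t ht) (h.tan t ht) (h.unit t ht) (hE t ht).2.1
      (hE t ht).2.2.1 (hE t ht).2.2.2 ((sq_le_one_iff_abs_le_one _).2 h1)
      ((sq_le_one_iff_abs_le_one _).2 h3) (V := V t) (u := u t) rfl rfl (hB _ (h.mem t ht))
    rw [hEn] at q2 q3
    have h4 := hstep _ (h.mem t ht) _ _ (u t) (h.tan t ht) (h.unit t ht) q1 (q2.trans_lt he1) (by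
      have := mul_le_mul_of_nonneg_right h2 (norm_nonneg e)
      have := mul_le_mul_of_nonneg_left q2 hB0.le
      linarith)
    have h5 := mul_le_mul_of_nonneg_left (pow_le_pow_left₀ (norm_nonneg _) q2 2) h0.le
    exact ⟨q2.trans_lt he1, sqrt_bound (by linarith) (by positivity) h0.le hk3 (by linarith)⟩
  have hcont : ContinuousOn (fun t => X.P (γ t + V t) (u t)) (Icc 0 l) := by
    have h1 : ContinuousOn γ (Icc 0 l) := fun t ht => (h.vel t ht).continuousWithinAt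
    have h2 : ContinuousOn w (Icc 0 l) := fun t ht => (h.acc t ht).continuousWithinAt
    have h3 : ContinuousOn E (Icc 0 l) := fun t ht => (hE t ht).1.continuousWithinAt
    have h4 : ContinuousOn φ (Icc 0 l) := fun t _ => (hφ t).continuousAt.continuousWithinAt
    have h5 : ContinuousOn φ' (Icc 0 l) := fun t _ => (hφ' t).continuousAt.continuousWithinAt
    have h6 : ContinuousOn V (Icc 0 l) := by fun_prop
    have h7 : ContinuousOn (fun t => X.II (γ t) (w t) (V t)) (Icc 0 l) :=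
      (((cont_K X).comp_continuousOn h1).clm_apply h2).clm_apply h6
    exact (X.P_smooth.continuous.comp_continuousOn (h1.add h6)).clm_apply (by fun_prop)
  have hlen := G.le_len 0 l (fun t => X.pr (γ t + V t)) (fun t => X.P (γ t + V t) (u t)) hl.le
    (fun t ht => X.maps _ (h.mem t ht) _ (by simpa using (hpt t ht).1.trans_le hrδ))
    (fun t ht => (X.pr_hasFDerivAt _).comp_hasDerivWithinAt t (hc t ht)) hcont
  have hV0 : V 0 = e := by simp [V, φ, hE0, hsl.ne']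
  have hVl : V l = 0 := by simp [V, φ, hl.ne']
  simp only [hV0, hVl, add_zero, X.fix _ (h.mem l ⟨hl.le, le_rfl⟩)] at hlen
  have hint : ∫ t in (0 : ℝ)..l, (k + (1 + η) / 2 * ((φ' t ^ 2 + φ t ^ 2) * (p - a ^ 2) + η * p))
      = l - a + (1 + η) / 2 * (H * (p - a ^ 2) + η * p * l) := by
    rw [intervalIntegral.integral_eq_sub_of_hasDerivAt
      (f := fun t => k * t + (1 + η) / 2 * (φ t * φ' t * (p - a ^ 2) + η * p * t))
      (fun t _ => (((hasDerivAt_id t).const_mul k).add (((((hφ t).mul (hφ' t)).mul_const _).add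
        ((hasDerivAt_id t).const_mul _)).const_mul _)).congr_deriv (by ring))
      (Continuous.intervalIntegrable (by simp only [φ, φ']; fun_prop) _ _)]
    simp only [φ, φ', hk, hH, sub_self, sub_zero, Real.sinh_zero]
    field_simp
    ring
  have hle := intervalIntegral.integral_mono_on (μ := volume) hl.le
    (hcont.norm.intervalIntegrable_of_Icc hl.le)
    (Continuous.intervalIntegrable (by simp only [φ, φ']; fun_prop) _ _) (fun t ht => (hpt t ht).2)
  rw [hint] at hle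
  have hp0 : 0 ≤ p := sq_nonneg _
  have c1 := mul_le_mul_of_nonneg_right h02 hp0
  have c2 : 0 ≤ η * H * a ^ 2 := by positivity
  have c3 := mul_le_mul_of_nonneg_right h01 (show 0 ≤ η * p * l by positivity)
  linarith

end EBarrierAux

open EBarrierAux in
theorem Geo.barrier {X : Emb A n} (G : Geo X) (hs : X.Sec) : G.Barrier := by
  obtain ⟨r₀, hr₀, hloc⟩ := G.local_le one_pos
  refine ⟨fun γ w l h hl ε hε => ?_, fun x hx ε hε => ?_⟩
  · have hx : γ 0 ∈ X.M := h.mem 0 ⟨le_rfl, hl.le⟩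
    obtain ⟨θ, hθ, r₁, hr₁, hfin⟩ := final_ineq hl hε
    obtain ⟨r₂, hr₂, hδ, hlen⟩ := length hs h hl (half_pos hθ)
    obtain ⟨B, hB0, hB⟩ := II_le X
    obtain ⟨r₃, hr₃, htay⟩ := taylor X one_pos
    have hstrict : HasStrictFDerivAt X.pr (X.P (γ 0)) (γ 0) :=
      X.smooth.contDiffAt.hasStrictFDerivAt (by simp)
    have h1 := hstrict.isLittleO.def (c := θ / (4 * (B / 2 + 1))) (by positivity)
    have hpe : Tendsto (fun z => γ 0 + X.P (γ 0) (z - γ 0)) (𝓝 (γ 0)) (𝓝 (γ 0)) :=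
      Continuous.tendsto' (by fun_prop) _ _ (by simp)
    have h2 : Tendsto (fun z => ‖z - X.pr (γ 0 + X.P (γ 0) (z - γ 0))‖) (𝓝 (γ 0)) (𝓝 0) :=
      Continuous.tendsto' (by have := X.smooth.continuous; fun_prop) _ _ (by simp [X.fix _ hx])
    have h3 : Tendsto (fun z => ‖z - γ 0‖) (𝓝 (γ 0)) (𝓝 0) :=
      Continuous.tendsto' (by fun_prop) _ _ (by simp)
    filter_upwards [self_mem_nhdsWithin,
      mem_nhdsWithin_of_mem_nhds ((tendsto_id.prodMk_nhds hpe).eventually h1),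
      mem_nhdsWithin_of_mem_nhds (h2.eventually (gt_mem_nhds hr₀)),
      mem_nhdsWithin_of_mem_nhds (h3.eventually (gt_mem_nhds (lt_min hr₁ (lt_min hr₂ hr₃))))]
      with z hz q1 q2 q3
    obtain ⟨v, rfl⟩ : ∃ v, z = γ 0 + v := ⟨z - γ 0, by abel⟩
    simp only [add_sub_cancel_left, id, lt_min_iff, X.fix _ hz, add_sub_add_left_eq_sub, map_sub,
      (Emb.isProj hx).idem, sub_self, sub_zero] at q1 q2 q3 ⊢
    have he := (Emb.isProj hx).norm_le v
    have hm := X.maps _ hx (γ 0 + X.P (γ 0) v) (by simpa using (he.trans_lt q3.2.1).trans_le hδ)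
    have b1 := hlen _ ((Emb.isProj hx).idem v) (he.trans_lt q3.2.1)
    rw [← (Emb.isProj hx).symm, h.tan 0 ⟨le_rfl, hl.le⟩] at b1
    have b2 := htay _ hx v q3.2.2
    rw [X.fix _ hz, add_sub_cancel_left, one_mul] at b2
    have b3 : ‖v - X.P (γ 0) v‖ ≤ (B / 2 + 1) * ‖v‖ ^ 2 := by
      have c1 := norm_le_norm_sub_add (v - X.P (γ 0) v) ((1 / 2 : ℝ) • X.II (γ 0) v v)
      have c2 := hB _ hx v v
      rw [norm_smul, Real.norm_of_nonneg (by norm_num)] at c1
      linarith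
    have b4 := q1.trans (mul_le_mul_of_nonneg_left b3 (by positivity))
    rw [show θ / (4 * (B / 2 + 1)) * ((B / 2 + 1) * ‖v‖ ^ 2) = θ / 4 * ‖v‖ ^ 2 by
      field_simp] at b4
    have b5 := hloc _ hm _ hz q2
    rw [G.comm] at b5
    have b6 := G.tri _ hz _ hm _ (h.mem l ⟨hl.le, le_rfl⟩)
    have b7 := pow_le_pow_left₀ (norm_nonneg _) he 2
    have b8 : ⟪w 0, v⟫_ℝ ^ 2 ≤ ‖X.P (γ 0) v‖ ^ 2 := by
      have := abs_real_inner_le_norm (w 0) (X.P (γ 0) v)
      rw [← (Emb.isProj hx).symm, h.tan 0 ⟨le_rfl, hl.le⟩, h.unit 0 ⟨le_rfl, hl.le⟩,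
        one_mul] at this
      simpa using pow_le_pow_left₀ (abs_nonneg _) this 2
    refine hfin _ _ _ _ (norm_nonneg _) q3.1.le b8 b7 (G.nonneg _ _) ?_
    linarith [mul_le_mul_of_nonneg_left b7 hθ.le]
  · set η := min 1 (ε / 6) with hη
    have h0 : 0 < η := lt_min one_pos (by positivity)
    have h01 : η ≤ 1 := min_le_left _ _
    have h02 : η ≤ ε / 6 := min_le_right _ _
    obtain ⟨r, hr, hloc'⟩ := G.local_le h0
    have h3 : Tendsto (fun z => ‖z - x‖) (𝓝 x) (𝓝 0) :=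
      Continuous.tendsto' (by fun_prop) _ _ (by simp)
    filter_upwards [self_mem_nhdsWithin, mem_nhdsWithin_of_mem_nhds (h3.eventually (gt_mem_nhds
      (lt_min hr (lt_min one_half_pos (show 0 < ε / 32 by positivity)))))] with z hz q
    simp only [lt_min_iff] at q
    have b1 := hloc' x hx z hz q.1
    rw [G.comm] at b1
    have b0 := G.nonneg z x
    have hm := norm_nonneg (z - x)
    generalize G.d z x = D at b1 b0
    generalize ‖z - x‖ = m at b1 q hm
    have b2 : D ≤ 2 * m := by linarith [mul_le_mul_of_nonneg_right h01 hm]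
    have b3 := cosh_add_le (l := 0) (s := D) le_rfl (by rw [abs_of_nonneg b0]; linarith [q.2.1])
    simp only [zero_add, Real.cosh_zero, Real.sinh_zero, mul_zero, add_zero, one_mul,
      abs_of_nonneg b0] at b3
    have b4 := pow_le_pow_left₀ b0 b1 2
    have b5 := pow_le_pow_left₀ b0 b2 3
    have b6 : (1 + η) ^ 2 ≤ 1 + ε / 2 := by linarith [mul_le_mul_of_nonneg_right h01 h0.le]
    have b7 := mul_le_mul_of_nonneg_right b6 (sq_nonneg m)
    have b8 := mul_le_mul_of_nonneg_right q.2.2.le (sq_nonneg m)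
    linarith

end Pool.Agent.AlEmb
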