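import Pool.Agent.Lib.MP_3fa020_gt.EBasic

/-!
Auxiliary facts for the barrier estimate: elementary inequalities, Taylor bound for the
projection, the key inequality and parallel transport.
-/

namespace Pool.Agent.AlEmb.EBarrierAux

open Set Filter Topology MeasureTheory
open scoped InnerProductSpace ContDiff

variable {A n : ℕ}

lemma cosh_add_le {l s : ℝ} (hl : 0 ≤ l) (hs : |s| ≤ 1) :
    Real.cosh (l + s) ≤ Real.cosh l + s * Real.sinh l + Real.cosh l * s ^ 2 / 2 +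
      (Real.cosh l + Real.sinh l) * |s| ^ 3 := by
  have h1 := Real.exp_bound hs (n := 3) (by norm_num)
  have h2 := Real.exp_bound (x := -s) (by rwa [abs_neg]) (n := 3) (by norm_num)
  simp only [Finset.sum_range_succ, Finset.range_zero, Finset.sum_empty, Nat.factorial, abs_neg,
    abs_le] at h1 h2
  norm_num at h1 h2
  have h0 : 0 ≤ |s| ^ 3 := by positivity
  have h3 : Real.cosh s ≤ 1 + s ^ 2 / 2 + |s| ^ 3 := by
    rw [Real.cosh_eq]; linarith [h1.2, h2.2]
  have h4 : Real.sinh s ≤ s + |s| ^ 3 := by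
    rw [Real.sinh_eq]; linarith [h1.2, h2.1]
  rw [Real.cosh_add]
  have h5 := mul_le_mul_of_nonneg_left h3 (Real.cosh_pos l).le
  have h6 := mul_le_mul_of_nonneg_left h4 (Real.sinh_nonneg_iff.2 hl)
  linarith

lemma final_ineq {l ε : ℝ} (hl : 0 < l) (hε : 0 < ε) : ∃ θ > 0, ∃ r > 0, ∀ a p m D : ℝ,
    0 ≤ m → m ≤ r → a ^ 2 ≤ p → p ≤ m ^ 2 → 0 ≤ D →
    D ≤ l - a + Real.cosh l / Real.sinh l / 2 * (p - a ^ 2) + θ * m ^ 2 →
    Real.cosh D ≤ Real.cosh l - Real.sinh l * a + (Real.cosh l + ε) / 2 * m ^ 2 := by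
  have hs : 0 < Real.sinh l := Real.sinh_pos_iff.2 hl
  have hc : 0 < Real.cosh l := Real.cosh_pos l
  set c := Real.cosh l with hc'
  set s := Real.sinh l with hs'
  set H := c / s / 2 with hH
  have hH0 : 0 < H := by positivity
  have hHs : H * s = c / 2 := by rw [hH]; field_simp
  set θ := min 1 (ε / (4 * s)) with hθ
  have hθ0 : 0 < θ := lt_min one_pos (by positivity)
  have hθ1 : θ ≤ 1 := min_le_left _ _
  have hθ2 : θ * s ≤ ε / 4 := by
    have := mul_le_mul_of_nonneg_right (min_le_right 1 (ε / (4 * s))) hs.le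
    rwa [show ε / (4 * s) * s = ε / 4 by field_simp] at this
  set K := c * (3 * (H + 1)) / 2 + (c + s) * 8 with hK
  have hK0 : 0 < K := by positivity
  refine ⟨θ, hθ0, min (min (1 / 2) (1 / (H + 1))) (ε / (4 * K)), by positivity,
    fun a p m D hm hr ha hp hD hD' => ?_⟩
  have hm1 : m ≤ 1 / 2 := hr.trans ((min_le_left _ _).trans (min_le_left _ _))
  have hm2 : (H + 1) * m ≤ 1 := by
    have := hr.trans ((min_le_left _ _).trans (min_le_right _ _))
    rwa [le_div_iff₀ (by positivity), mul_comm] at this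
  have hm3 : K * m ≤ ε / 4 := by
    have := hr.trans (min_le_right _ _)
    rw [le_div_iff₀ (by positivity)] at this
    linarith
  set b := H * (p - a ^ 2) + θ * m ^ 2 with hb
  have hb0 : 0 ≤ b := by
    have : 0 ≤ p - a ^ 2 := by linarith
    positivity
  have hb1 : b ≤ (H + 1) * m ^ 2 := by
    have h1 : H * (p - a ^ 2) ≤ H * m ^ 2 :=
      mul_le_mul_of_nonneg_left (by linarith [sq_nonneg a]) hH0.le
    have h2 : θ * m ^ 2 ≤ 1 * m ^ 2 := mul_le_mul_of_nonneg_right hθ1 (sq_nonneg m)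
    linarith
  have hb2 : b ≤ m := hb1.trans (by linarith [mul_le_mul_of_nonneg_right hm2 hm])
  have ha1 : |a| ≤ m := abs_le_of_sq_le_sq' (ha.trans hp) hm |> abs_le.2
  have ht : |b - a| ≤ 2 * m := by
    rw [abs_le] at ha1 ⊢
    constructor <;> linarith [ha1.1, ha1.2]
  have h1 := cosh_add_le (s := b - a) hl.le (ht.trans (by linarith))
  have h2 : Real.cosh D ≤ Real.cosh (l + (b - a)) := by
    rw [Real.cosh_le_cosh, abs_of_nonneg hD]
    exact le_trans (by linarith) (le_abs_self _)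
  have h3 : |b - a| ^ 3 ≤ 8 * m ^ 3 := by
    have := pow_le_pow_left₀ (abs_nonneg _) ht 3
    linarith
  have h4 : (b - a) ^ 2 ≤ a ^ 2 + 3 * (H + 1) * m ^ 3 := by
    have h5 : b * (b - 2 * a) ≤ (H + 1) * m ^ 2 * (3 * m) := by
      have h6 : b - 2 * a ≤ 3 * m := by linarith [(abs_le.1 ha1).1]
      exact le_trans (mul_le_mul_of_nonneg_left h6 hb0)
        (mul_le_mul_of_nonneg_right hb1 (by positivity))
    linarith
  have h5 : c * (b - a) ^ 2 ≤ c * (a ^ 2 + 3 * (H + 1) * m ^ 3) :=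
    mul_le_mul_of_nonneg_left h4 hc.le
  have h6 : (c + s) * |b - a| ^ 3 ≤ (c + s) * (8 * m ^ 3) :=
    mul_le_mul_of_nonneg_left h3 (by positivity)
  have h7 : K * m * m ^ 2 ≤ ε / 4 * m ^ 2 := mul_le_mul_of_nonneg_right hm3 (sq_nonneg m)
  have h8 : θ * s * m ^ 2 ≤ ε / 4 * m ^ 2 := mul_le_mul_of_nonneg_right hθ2 (sq_nonneg m)
  have h9 : b * s = c / 2 * (p - a ^ 2) + θ * s * m ^ 2 := by
    rw [hb, ← hHs]; ring
  have h10 : c * p ≤ c * m ^ 2 := mul_le_mul_of_nonneg_left hp hc.le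
  rw [← hc', ← hs'] at h1
  rw [hK] at h7
  linarith [mul_nonneg hε.le (sq_nonneg m)]

lemma unif_near' {U V : Type*} [NormedAddCommGroup U] [NormedAddCommGroup V] {M : Set U}
    (hM : IsCompact M) {F : U → V} (hF : Continuous F) {ε : ℝ} (hε : 0 < ε) :
    ∃ r > 0, ∀ x ∈ M, ∀ z, ‖z - x‖ < r → ‖F z - F x‖ < ε := by
  have := hM.uniformContinuousAt_of_continuousAt F (fun _ _ => hF.continuousAt)
    (Metric.dist_mem_uniformity hε)
  rw [Metric.mem_uniformity_dist] at this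
  obtain ⟨r, hr, h⟩ := this
  refine ⟨r, hr, fun x hx z hz => ?_⟩
  have := h (a := x) (b := z) (by rw [dist_comm, dist_eq_norm]; exact hz) hx
  change dist (F x) (F z) < ε at this
  rwa [dist_comm, dist_eq_norm] at this

lemma cont_K (X : Emb A n) : Continuous (fderiv ℝ X.P) :=
  X.P_smooth.continuous_fderiv (by simp)

lemma II_le (X : Emb A n) : ∃ B > 0, ∀ x ∈ X.M, ∀ v w, ‖X.II x v w‖ ≤ B * ‖v‖ * ‖w‖ := by
  obtain ⟨B, hB⟩ := X.cpt.exists_bound_of_continuousOn (f := fderiv ℝ X.P) (cont_K X).continuousOn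
  refine ⟨max B 1, by positivity, fun x hx v w => ((fderiv ℝ X.P x).le_opNorm₂ v w).trans ?_⟩
  gcongr
  exact (hB x hx).trans (le_max_left _ _)

lemma taylor (X : Emb A n) {η : ℝ} (hη : 0 < η) : ∃ r > 0, ∀ y ∈ X.M, ∀ v, ‖v‖ < r →
    ‖X.pr (y + v) - y - X.P y v - (1 / 2 : ℝ) • X.II y v v‖ ≤ η * ‖v‖ ^ 2 := by
  obtain ⟨r, hr, h⟩ := unif_near' X.cpt (F := fderiv ℝ X.P) (cont_K X) hη
  refine ⟨r, hr, fun y hy v hv => ?_⟩
  have h1 : ∀ t : ℝ, HasDerivAt (fun t : ℝ => y + t • v) v t := fun t => by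
    simpa using ((hasDerivAt_id t).smul_const v).const_add y
  have h2 : ∀ t : ℝ, HasDerivAt (fun t : ℝ => X.P (y + t • v) v - t • X.II y v v)
      (X.II (y + t • v) v v - X.II y v v) t := by
    intro t
    have h3 := ((X.P_diff _).hasFDerivAt.comp_hasDerivAt t (h1 t)).clm_apply (hasDerivAt_const t v)
    have h4 := (hasDerivAt_id t).smul_const (X.II y v v)
    exact (h3.sub h4).congr_deriv (by simp [Emb.II])
  have h3 : ∀ t ∈ Icc (0 : ℝ) 1, ‖X.P (y + t • v) v - X.P y v - t • X.II y v v‖ ≤ η * ‖v‖ ^ 2 := by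
    intro t ht
    have := norm_image_sub_le_of_norm_deriv_le_segment' (C := η * ‖v‖ ^ 2)
      (fun s (_ : s ∈ Icc (0 : ℝ) 1) => (h2 s).hasDerivWithinAt) (fun s hs => by
        have h5 := h y hy (y + s • v) (by
          rw [add_sub_cancel_left, norm_smul, Real.norm_of_nonneg hs.1]
          exact lt_of_le_of_lt (mul_le_of_le_one_left (norm_nonneg _) hs.2.le) hv)
        have h6 := (fderiv ℝ X.P (y + s • v) - fderiv ℝ X.P y).le_opNorm₂ v v
        refine le_trans (le_of_eq (by simp [Emb.II])) (h6.trans ?_)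
        rw [mul_assoc, ← sq]
        exact mul_le_mul_of_nonneg_right h5.le (sq_nonneg _)) t ht
    simp only [zero_smul, add_zero, sub_zero] at this
    rw [sub_right_comm]
    exact this.trans (mul_le_of_le_one_right (by positivity) ht.2)
  have h4 : ∀ t : ℝ, HasDerivAt
      (fun t : ℝ => X.pr (y + t • v) - t • X.P y v - (t ^ 2 / 2) • X.II y v v)
      (X.P (y + t • v) v - X.P y v - t • X.II y v v) t := by
    intro t
    have h5 := (X.pr_hasFDerivAt _).comp_hasDerivAt t (h1 t)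
    have h6 := (hasDerivAt_id t).smul_const (X.P y v)
    have h7 := ((hasDerivAt_pow 2 t).div_const 2).smul_const (X.II y v v)
    exact ((h5.sub h6).sub h7).congr_deriv (by simp)
  have := norm_image_sub_le_of_norm_deriv_le_segment_01'
    (fun s (_ : s ∈ Icc (0 : ℝ) 1) => (h4 s).hasDerivWithinAt)
    (fun s hs => h3 s (Ico_subset_Icc_self hs))
  refine le_trans (le_of_eq ?_) this
  congr 1
  simp [X.fix y hy]
  abel

lemma key {X : Emb A n} {x z : Eu A} (hx : x ∈ X.M) (hz : ‖z - x‖ < X.δ) (u : Eu A) :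
    ‖X.P z u‖ ^ 2 ≤ ‖u‖ ^ 2 + 2 * ⟪X.II (X.pr z) (X.P z u) (X.P z u), z - X.pr z⟫_ℝ := by
  have hG : X.pr z ∈ X.M := X.maps x hx z hz
  have hnb : ∀ᶠ y in 𝓝 z, ‖y - x‖ < X.δ :=
    (continuous_id.sub continuous_const).norm.continuousAt.eventually (gt_mem_nhds hz)
  have h1 : X.P (X.pr z) (X.P z u) = X.P z u := by
    have e1 : (X.pr ∘ X.pr) =ᶠ[𝓝 z] X.pr :=
      hnb.mono fun y hy => X.fix _ (X.maps x hx y hy)
    have e2 := ((X.pr_hasFDerivAt _).comp z (X.pr_hasFDerivAt z)).fderiv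
    rw [e1.fderiv_eq] at e2
    exact (congrArg (fun L : Eu A →L[ℝ] Eu A => L u) e2).symm
  have h2 : X.P (X.pr z) u = X.P z u - X.II (X.pr z) (X.P z u) (z - X.pr z) := by
    have e1 : (fun y => X.P (X.pr y) (y - X.pr y)) =ᶠ[𝓝 z] fun _ => 0 :=
      hnb.mono fun y hy => X.normal x hx y hy
    have e2 := (((X.P_diff _).hasFDerivAt.comp z (X.pr_hasFDerivAt z)).clm_apply
      ((hasFDerivAt_id z).sub (X.pr_hasFDerivAt z))).fderiv
    have e3 := e1.fderiv_eq (𝕜 := ℝ)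
    rw [fderiv_fun_const] at e3
    have e4 := congrArg (fun L : Eu A →L[ℝ] Eu A => L u) (e2.symm.trans e3)
    simp [h1] at e4
    rw [Emb.II, map_sub, ← sub_eq_zero, ← e4]
    abel
  have h3 := (Emb.isProj hG).norm_le u
  have h4 := Emb.II_adj hG (X.P z u) (z - X.pr z) (X.P z u)
  rw [h1] at h4
  have h5 := pow_le_pow_left₀ (norm_nonneg _) h3 2
  rw [h2, norm_sub_sq_real, real_inner_comm, h4, real_inner_comm] at h5
  linarith [sq_nonneg ‖X.II (X.pr z) (X.P z u) (z - X.pr z)‖]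

lemma step (X : Emb A n) {η : ℝ} (hη : 0 < η) : ∃ r > 0, r ≤ X.δ ∧ ∀ y ∈ X.M, ∀ w V u : Eu A,
    X.P y w = w → ‖w‖ = 1 → X.P y V = V → ‖V‖ < r → ‖u - w‖ < r →
      ‖X.P (y + V) u‖ ^ 2 ≤ ‖u‖ ^ 2 - ⟪X.II y w w, X.II y V V⟫_ℝ + η * ‖V‖ ^ 2 := by
  obtain ⟨B, hB0, hB⟩ := II_le X
  set η₁ := min 1 (η / (3 * B + 2)) with hη₁
  have h0 : 0 < η₁ := lt_min one_pos (by positivity)
  have h01 : η₁ ≤ 1 := min_le_left _ _
  have h02 : η₁ * (3 * B + 2) ≤ η := by
    rw [← le_div_iff₀ (by positivity)]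
    exact min_le_right _ _
  obtain ⟨r₁, hr₁, h1⟩ := taylor X h0
  obtain ⟨r₂, hr₂, h2⟩ := unif_near' (X.cpt.prod (isCompact_closedBall (0 : Eu A) 1))
    (F := fun z : Eu A × Eu A => X.II (X.pr z.1) (X.P z.1 z.2) (X.P z.1 z.2)) (by
      have := cont_K X
      have := X.P_smooth.continuous
      have := X.smooth.continuous
      unfold Emb.II
      fun_prop) h0
  refine ⟨min (min r₁ r₂) X.δ, lt_min (lt_min hr₁ hr₂) X.δ_pos, min_le_right _ _,
    fun y hy w V u hw hw1 hV hVr hu => ?_⟩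
  have h3 := key hy (z := y + V) (by simpa using hVr.trans_le (min_le_right _ _)) u
  have h4 := h1 y hy V (hVr.trans_le ((min_le_left _ _).trans (min_le_left _ _)))
  have h5 := (h2 (y, w) ⟨hy, by simp [hw1]⟩ (y + V, u) (by
    have := (min_le_left _ X.δ).trans (min_le_right r₁ r₂)
    simpa [Prod.norm_def] using ⟨hVr.trans_le this, hu.trans_le this⟩)).le
  simp only [X.fix y hy, hw] at h5
  rw [hV] at h4
  set σ := X.II (X.pr (y + V)) (X.P (y + V) u) (X.P (y + V) u) - X.II y w w with hσ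
  set ρ := X.pr (y + V) - y - V - (1 / 2 : ℝ) • X.II y V V with hρ
  have e1 : X.II (X.pr (y + V)) (X.P (y + V) u) (X.P (y + V) u) = X.II y w w + σ := by
    rw [hσ]; abel
  have e2 : y + V - X.pr (y + V) = -((1 / 2 : ℝ) • X.II y V V + ρ) := by rw [hρ]; abel
  rw [e1, e2, inner_neg_right, inner_add_left, inner_add_right, inner_add_right,
    real_inner_smul_right, real_inner_smul_right] at h3
  have b1 := hB y hy w w
  rw [hw1, mul_one, mul_one] at b1
  have b2 := hB y hy V V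
  rw [mul_assoc, ← sq] at b2
  have c1 := (abs_le.1 ((abs_real_inner_le_norm (X.II y w w) ρ).trans
    (mul_le_mul b1 h4 (norm_nonneg _) hB0.le))).1
  have c2 := (abs_le.1 ((abs_real_inner_le_norm σ (X.II y V V)).trans
    (mul_le_mul h5 b2 (norm_nonneg _) h0.le))).1
  have c3 := (abs_le.1 ((abs_real_inner_le_norm σ ρ).trans
    (mul_le_mul (h5.trans h01) h4 (norm_nonneg _) zero_le_one))).1
  have c4 := mul_le_mul_of_nonneg_right h02 (sq_nonneg ‖V‖)
  linarith

lemma inner_II {X : Emb A n} {x v w u : Eu A} (hx : x ∈ X.M) (hv : X.P x v = v)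
    (hw : X.P x w = w) (hu : X.P x u = u) : ⟪X.II x v w, u⟫_ℝ = 0 := by
  have := Emb.II_normal hx v w
  rw [hv, hw] at this
  rw [← hu, ← (Emb.isProj hx).symm, this, inner_zero_left]

lemma par {X : Emb A n} {G : Geo X} {γ w : ℝ → Eu A} {l : ℝ} (h : G.IsGeod γ w l) {e : Eu A}
    (he : X.P (γ 0) e = e) : ∃ E : ℝ → Eu A, E 0 = e ∧ ∀ t ∈ Icc 0 l,
      HasDerivWithinAt E (X.II (γ t) (w t) (E t)) (Icc 0 l) t ∧ X.P (γ t) (E t) = E t ∧
        ‖E t‖ ^ 2 = ‖e‖ ^ 2 ∧ ⟪w t, E t⟫_ℝ = ⟪w 0, e⟫_ℝ := by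
  have hγc : ContinuousOn γ (Icc 0 l) := fun t ht => (h.vel t ht).continuousWithinAt
  have hwc : ContinuousOn w (Icc 0 l) := fun t ht => (h.acc t ht).continuousWithinAt
  let K : ℝ → Eu A →L[ℝ] Eu A := fun t => fderiv ℝ X.P (γ t) (w t)
  have hKc : ContinuousOn K (Icc 0 l) := ((cont_K X).comp_continuousOn hγc).clm_apply hwc
  have hPc : ContinuousOn (fun t => X.P (γ t)) (Icc 0 l) :=
    X.P_smooth.continuous.comp_continuousOn hγc
  let T : ℝ → Eu A →L[ℝ] Eu A := fun t => (K t).comp (X.P (γ t)) - (X.P (γ t)).comp (K t)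
  have hTc : ContinuousOn T (Icc 0 l) := (hKc.clm_comp hPc).sub (hPc.clm_comp hKc)
  have hK := fun t (ht : t ∈ Icc 0 l) =>
    proj_deriv (h.mem t ht) (X.P_diff _) (Emb.ev_isProj _) (w t)
  have hKs : ∀ t ∈ Icc 0 l, ∀ u v, ⟪K t u, v⟫_ℝ = ⟪u, K t v⟫_ℝ := fun t ht => by
    simpa only [h.tan t ht] using (hK t ht).2
  have hPKP : ∀ t ∈ Icc 0 l, ∀ u, X.P (γ t) (K t (X.P (γ t) u)) = 0 := fun t ht u => by
    have := Emb.II_normal (h.mem t ht) (w t) u
    rwa [h.tan t ht] at this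
  obtain ⟨L, hL⟩ := isCompact_Icc.exists_bound_of_continuousOn hTc
  obtain ⟨L', hL'⟩ := isCompact_Icc.exists_bound_of_continuousOn hKc
  have hL0 : 0 ≤ L := (norm_nonneg _).trans (hL 0 ⟨le_rfl, h.nonneg⟩)
  let ρ : Eu A → Eu A := fun u => ((1 + ‖e‖ ^ 2) * (1 + ‖u‖ ^ 2)⁻¹) • u
  have hρ : ContDiff ℝ 1 ρ :=
    (contDiff_const.mul ((contDiff_const.add (contDiff_norm_sq ℝ)).inv
      (fun u => by positivity))).smul contDiff_id
  have hρb : ∀ u, ‖ρ u‖ ≤ 1 + ‖e‖ ^ 2 := by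
    intro u
    rw [norm_smul, Real.norm_of_nonneg (by positivity), mul_assoc]
    refine mul_le_of_le_one_right (by positivity) ?_
    rw [inv_mul_le_iff₀ (by positivity)]
    linarith [sq_nonneg (‖u‖ - 1), norm_nonneg u, sq_nonneg ‖u‖]
  let Ln : NNReal := ⟨L * (1 + ‖e‖ ^ 2), by positivity⟩
  let a : NNReal := Ln * ⟨l, h.nonneg⟩
  obtain ⟨C, hC⟩ := hρ.contDiffOn.exists_lipschitzOnWith one_ne_zero
    (convex_closedBall e a) (isCompact_closedBall e a)
  have hpl : IsPicardLindelof (fun t u => T t (ρ u)) (tmin := 0) (tmax := l)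
      ⟨0, le_rfl, h.nonneg⟩ e a 0 Ln (⟨L, hL0⟩ * C) := by
    refine ⟨fun t ht => ?_, fun u _ => hTc.clm_apply continuousOn_const, fun t ht u _ => ?_, ?_⟩
    · exact ((T t).lipschitzWith_of_opNorm_le (K := ⟨L, hL0⟩) (hL t ht)).comp_lipschitzOnWith hC
    · exact ((T t).le_opNorm _).trans (mul_le_mul (hL t ht) (hρb u) (norm_nonneg _) hL0)
    · simp [a, h.nonneg]
      rfl
  obtain ⟨E, hE0, hE⟩ := hpl.exists_eq_forall_mem_Icc_hasDerivWithinAt₀
  have hE0' : E 0 = e := hE0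
  have hci : ∀ {V : Type} [NormedAddCommGroup V] [NormedSpace ℝ V] {f : ℝ → V} {f' : V} {t : ℝ},
      t ∈ Ico 0 l → HasDerivWithinAt f f' (Icc 0 l) t → HasDerivWithinAt f f' (Ici t) t :=
    fun ht hf => hf.mono_of_mem_nhdsWithin (Icc_mem_nhdsGE_of_mem ht)
  have hEc : ContinuousOn E (Icc 0 l) := fun t ht => (hE t ht).continuousWithinAt
  have hn : ∀ t ∈ Icc 0 l, ‖E t‖ ^ 2 = ‖e‖ ^ 2 := by
    rw [← hE0']
    refine constant_of_has_deriv_right_zero (f := fun t => ‖E t‖ ^ 2) (hEc.norm.pow 2)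
      (fun t ht => hci ht ?_)
    have ht' := Ico_subset_Icc_self ht
    refine (hE t ht').norm_sq.congr_deriv ?_
    simp only [T, ρ, map_smul, sub_apply, ContinuousLinearMap.comp_apply,
      real_inner_smul_right, inner_sub_right]
    rw [← hKs t ht', ← (Emb.isProj (h.mem t ht')).symm (E t), real_inner_comm]
    simp
  have hE' : ∀ t ∈ Icc 0 l, HasDerivWithinAt E (T t (E t)) (Icc 0 l) t := by
    intro t ht
    refine (hE t ht).congr_deriv ?_
    simp only [ρ]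
    rw [hn t ht, mul_inv_cancel₀ (by positivity), one_smul]
  have hN : ∀ t ∈ Icc 0 l, E t - X.P (γ t) (E t) = 0 := by
    have h1 : ∀ t ∈ Icc 0 l, HasDerivWithinAt (fun t => E t - X.P (γ t) (E t))
        (-K t (E t - X.P (γ t) (E t))) (Icc 0 l) t := by
      intro t ht
      refine ((hE' t ht).sub ((((X.P_diff _).hasFDerivAt.comp_hasDerivWithinAt t
        (h.vel t ht))).clm_apply (hE' t ht))).congr_deriv ?_
      simp only [T, map_sub, sub_apply, ContinuousLinearMap.comp_apply,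
        Function.comp_apply, hPKP t ht, (Emb.isProj (h.mem t ht)).idem]
      change _ - (K t (E t) + _) = _
      abel
    refine eq_zero_of_abs_deriv_le_mul_abs_self_of_eq_zero_right (K := L')
      (fun t ht => (h1 t ht).continuousWithinAt) (fun t ht => hci ht (h1 t (Ico_subset_Icc_self ht)))
      (by rw [hE0', he, sub_self]) (fun t ht => ?_)
    rw [norm_neg]
    exact ((K t).le_opNorm _).trans
      (mul_le_mul_of_nonneg_right (hL' t (Ico_subset_Icc_self ht)) (norm_nonneg _))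
  have htan : ∀ t ∈ Icc 0 l, X.P (γ t) (E t) = E t := fun t ht => (sub_eq_zero.1 (hN t ht)).symm
  have hE'' : ∀ t ∈ Icc 0 l, HasDerivWithinAt E (X.II (γ t) (w t) (E t)) (Icc 0 l) t := by
    intro t ht
    refine (hE' t ht).congr_deriv ?_
    have := hPKP t ht (E t)
    rw [htan t ht] at this
    simp only [T, sub_apply, ContinuousLinearMap.comp_apply, htan t ht, this,
      sub_zero]
    rfl
  refine ⟨E, hE0', fun t ht => ⟨hE'' t ht, htan t ht, hn t ht, ?_⟩⟩
  rw [← hE0']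
  refine constant_of_has_deriv_right_zero (f := fun t => ⟪w t, E t⟫_ℝ) (hwc.inner hEc)
    (fun t ht => hci ht ?_) t ht
  have ht' := Ico_subset_Icc_self ht
  refine ((h.acc t ht').inner ℝ (hE'' t ht')).congr_deriv ?_
  rw [real_inner_comm, inner_II (h.mem t ht') (h.tan t ht') (htan t ht') (h.tan t ht'),
    inner_II (h.mem t ht') (h.tan t ht') (h.tan t ht') (htan t ht'), add_zero]

end Pool.Agent.AlEmb.EBarrierAux
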