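import Pool.Agent.Lib.MP_3fa020_gt.EDefs

/-!
Basic facts on `Emb`, `Geo`, projections.
-/

namespace Pool.Agent.AlEmb

open Set Filter Topology MeasureTheory
open scoped InnerProductSpace ContDiff

variable {A n : ℕ}

lemma r1_apply (u v : Eu A) : r1 u v = ⟪u, v⟫_ℝ • u := by simp [r1]

lemma sum_ee (v : Eu A) : ∑ a, ⟪ee a, v⟫_ℝ • ee a = v := by
  have := (EuclideanSpace.basisFun (Fin A) ℝ).sum_repr' v
  simpa [ee] using this

lemma inner_eq_sum_ee (v w : Eu A) : ⟪v, w⟫_ℝ = ∑ a, ⟪v, ee a⟫_ℝ * ⟪ee a, w⟫_ℝ := by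
  have := (EuclideanSpace.basisFun (Fin A) ℝ).sum_inner_mul_inner v w
  simpa [ee] using this.symm

lemma norm_ee (a : Fin A) : ‖(ee a : Eu A)‖ = 1 := by simp [ee]

/-- moving a symmetric operator from one slot of a trace to the other -/
lemma sum_ee_symm {V : Type*} [AddCommGroup V] [Module ℝ V] (b : Eu A →ₗ[ℝ] Eu A →ₗ[ℝ] V)
    (L L' : Eu A →L[ℝ] Eu A) (h : ∀ v w, ⟪L v, w⟫_ℝ = ⟪v, L' w⟫_ℝ) :
    ∑ a, b (L (ee a)) (ee a) = ∑ a, b (ee a) (L' (ee a)) := by
  have h1 : ∀ a, b (L (ee a)) (ee a) = ∑ c, ⟪ee c, L (ee a)⟫_ℝ • b (ee c) (ee a) := by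
    intro a
    conv_lhs => rw [← sum_ee (L (ee a))]
    simp [map_sum, LinearMap.sum_apply]
  have h2 : ∀ c, b (ee c) (L' (ee c)) = ∑ a, ⟪ee a, L' (ee c)⟫_ℝ • b (ee c) (ee a) := by
    intro c
    conv_lhs => rw [← sum_ee (L' (ee c))]
    simp [map_sum]
  simp_rw [h1, h2]
  rw [Finset.sum_comm]
  refine Finset.sum_congr rfl fun c _ => Finset.sum_congr rfl fun a _ => ?_
  rw [← h, real_inner_comm]

namespace IsProj

variable {d : ℕ} {P : Eu A →L[ℝ] Eu A} (h : IsProj d P)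
include h

lemma inner_self (v : Eu A) : ⟪P v, v⟫_ℝ = ‖P v‖ ^ 2 := by
  rw [← real_inner_self_eq_norm_sq, h.symm v (P v), h.idem, real_inner_comm]

lemma norm_le (v : Eu A) : ‖P v‖ ≤ ‖v‖ := by
  have h1 := h.inner_self v
  have h2 := real_inner_le_norm (P v) v
  by_cases h0 : ‖P v‖ = 0
  · rw [h0]; exact norm_nonneg _
  · have : 0 < ‖P v‖ := lt_of_le_of_ne (norm_nonneg _) (Ne.symm h0)
    nlinarith

lemma le_A : d ≤ A := by
  rw [← h.dim]
  have := Submodule.finrank_le (LinearMap.range (P : Eu A →ₗ[ℝ] Eu A))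
  simpa using this

lemma symTan : SymTan P P := ⟨h.symm, h.idem, h.idem⟩

end IsProj

lemma unif_near {V : Type*} [NormedAddCommGroup V] {M : Set (Eu A)} (hM : IsCompact M)
    {F : Eu A → V} (hF : ∀ x ∈ M, ContinuousAt F x) {ε : ℝ} (hε : 0 < ε) :
    ∃ r > 0, ∀ x ∈ M, ∀ z, ‖z - x‖ < r → ‖F z - F x‖ < ε := by
  have := hM.uniformContinuousAt_of_continuousAt F hF (Metric.dist_mem_uniformity hε)
  rw [Metric.mem_uniformity_dist] at this
  obtain ⟨r, hr, h⟩ := this
  refine ⟨r, hr, fun x hx z hz => ?_⟩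
  have := h (a := x) (b := z) (by rw [dist_comm, dist_eq_norm]; exact hz) hx
  change dist (F x) (F z) < ε at this
  rwa [dist_comm, dist_eq_norm] at this

namespace Emb

variable (X : Emb A n)

lemma P_smooth : ContDiff ℝ ∞ X.P := X.smooth.fderiv_right (m := ∞) (by simp)

lemma pr_diff (x : Eu A) : DifferentiableAt ℝ X.pr x :=
  X.smooth.differentiable (by simp) x

lemma P_diff (x : Eu A) : DifferentiableAt ℝ X.P x :=
  X.P_smooth.differentiable (by simp) x

lemma pr_hasFDerivAt (x : Eu A) : HasFDerivAt X.pr (X.P x) x := (X.pr_diff x).hasFDerivAt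

variable {X}

lemma eventually_pr_mem {x : Eu A} (hx : x ∈ X.M) : ∀ᶠ z in 𝓝 x, X.pr z ∈ X.M := by
  filter_upwards [Metric.ball_mem_nhds x X.δ_pos] with z hz
  exact X.maps x hx z (by simpa [dist_eq_norm] using hz)

lemma tendsto_pr {x : Eu A} (hx : x ∈ X.M) : Tendsto X.pr (𝓝 x) (𝓝[X.M] x) := by
  rw [tendsto_nhdsWithin_iff]
  refine ⟨?_, eventually_pr_mem hx⟩
  have := (X.smooth.continuous.continuousAt (x := x)).tendsto
  rwa [X.fix x hx] at this

/-- functions that agree on `M` have the same tangential derivatives -/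
lemma fderiv_tan {V : Type*} [NormedAddCommGroup V] [NormedSpace ℝ V] {F G : Eu A → V}
    {x : Eu A} (hx : x ∈ X.M) (h : F =ᶠ[𝓝[X.M] x] G) (hF : DifferentiableAt ℝ F x)
    (hG : DifferentiableAt ℝ G x) (v : Eu A) :
    fderiv ℝ F x (X.P x v) = fderiv ℝ G x (X.P x v) := by
  have h1 : (F ∘ X.pr) =ᶠ[𝓝 x] (G ∘ X.pr) := (tendsto_pr hx).eventually h
  have hF' : HasFDerivAt F (fderiv ℝ F x) (X.pr x) := by rw [X.fix x hx]; exact hF.hasFDerivAt
  have hG' : HasFDerivAt G (fderiv ℝ G x) (X.pr x) := by rw [X.fix x hx]; exact hG.hasFDerivAt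
  have e1 := (hF'.comp x (X.pr_hasFDerivAt x)).fderiv
  have e2 := (hG'.comp x (X.pr_hasFDerivAt x)).fderiv
  have := h1.fderiv_eq (𝕜 := ℝ)
  rw [e1, e2] at this
  exact congrArg (fun L : Eu A →L[ℝ] V => L v) this

lemma isProj {x : Eu A} (hx : x ∈ X.M) : IsProj n (X.P x) := by
  refine ⟨fun v => ?_, X.symm x hx, X.dim x hx⟩
  have := fderiv_tan (F := X.pr) (G := id) hx
    (eventually_nhdsWithin_of_forall fun y hy => X.fix y hy) (X.pr_diff x) differentiableAt_id v
  simpa [P] using this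

lemma II_symm (X : Emb A n) (x v w : Eu A) : X.II x v w = X.II x w v := by
  have : IsSymmSndFDerivAt ℝ X.pr x :=
    (X.smooth.contDiffAt (x := x)).isSymmSndFDerivAt (by simp; exact WithTop.coe_le_coe.2 le_top)
  exact this.eq v w

end Emb

/-- derivative of a field of projections along `M` -/
lemma proj_deriv {X : Emb A n} {P : Eu A → Eu A →L[ℝ] Eu A} {x : Eu A} {d : ℕ} (hx : x ∈ X.M)
    (hP : DifferentiableAt ℝ P x) (h : ∀ᶠ y in 𝓝[X.M] x, IsProj d (P y)) (v : Eu A) :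
    (∀ w, fderiv ℝ P x (X.P x v) w =
      fderiv ℝ P x (X.P x v) (P x w) + P x (fderiv ℝ P x (X.P x v) w)) ∧
    ∀ w w', ⟪fderiv ℝ P x (X.P x v) w, w'⟫_ℝ = ⟪w, fderiv ℝ P x (X.P x v) w'⟫_ℝ := by
  constructor
  · intro w
    have h1 : HasFDerivAt (fun y => P y w) ((fderiv ℝ P x).flip w) x := by
      simpa using hP.hasFDerivAt.clm_apply (hasFDerivAt_const w x)
    have h2 := hP.hasFDerivAt.clm_apply h1
    have := Emb.fderiv_tan (F := fun y => P y w) (G := fun y => P y (P y w)) hx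
      (h.mono fun y hy => (hy.idem w).symm) h1.differentiableAt h2.differentiableAt v
    rw [h1.fderiv, h2.fderiv] at this
    simpa [add_comm] using this
  · intro w w'
    have h1 : ∀ w, HasFDerivAt (fun y => P y w) ((fderiv ℝ P x).flip w) x := fun w => by
      simpa using hP.hasFDerivAt.clm_apply (hasFDerivAt_const w x)
    have h2 := (h1 w).inner ℝ (hasFDerivAt_const w' x)
    have h3 := (hasFDerivAt_const w x).inner ℝ (h1 w')
    have := Emb.fderiv_tan (F := fun y => ⟪P y w, w'⟫_ℝ) (G := fun y => ⟪w, P y w'⟫_ℝ) hx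
      (h.mono fun y hy => hy.symm w w') h2.differentiableAt h3.differentiableAt v
    rw [h2.fderiv, h3.fderiv] at this
    simpa using this

namespace Emb

variable {X : Emb A n}

lemma ev_isProj (x : Eu A) : ∀ᶠ y in 𝓝[X.M] x, IsProj n (X.P y) :=
  eventually_nhdsWithin_of_forall fun _ hy => isProj hy

/-- the second fundamental form is normal -/
lemma II_normal {x : Eu A} (hx : x ∈ X.M) (v w : Eu A) :
    X.P x (X.II x (X.P x v) (X.P x w)) = 0 := by
  have := (proj_deriv hx (X.P_diff x) (ev_isProj x) v).1 (X.P x w)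
  rw [(isProj hx).idem] at this
  simpa [II] using this.symm

lemma II_adj {x : Eu A} (hx : x ∈ X.M) (v w w' : Eu A) :
    ⟪X.II x (X.P x v) w, w'⟫_ℝ = ⟪w, X.II x (X.P x v) w'⟫_ℝ :=
  (proj_deriv hx (X.P_diff x) (ev_isProj x) v).2 w w'

lemma measurableSet_M (X : Emb A n) : MeasurableSet X.M := X.cpt.isClosed.measurableSet

end Emb

namespace Geo

variable {X : Emb A n} (G : Geo X)

lemma pos {x y : Eu A} (hx : x ∈ X.M) (hy : y ∈ X.M) (h : x ≠ y) : 0 < G.d x y :=
  lt_of_lt_of_le (norm_pos_iff.2 (sub_ne_zero.2 h)) (G.norm_le x hx y hy)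

/-- the intrinsic distance is locally almost the extrinsic one -/
lemma local_le {ε : ℝ} (hε : 0 < ε) :
    ∃ r > 0, ∀ x ∈ X.M, ∀ y ∈ X.M, ‖y - x‖ < r → G.d x y ≤ (1 + ε) * ‖y - x‖ := by
  obtain ⟨r, hr, h⟩ := unif_near X.cpt (F := X.P)
    (fun x _ => X.P_smooth.continuous.continuousAt) hε
  refine ⟨min r X.δ, lt_min hr X.δ_pos, fun x hx y hy hxy => ?_⟩
  have hn : ∀ t ∈ Icc (0 : ℝ) 1, ‖x + t • (y - x) - x‖ < min r X.δ := by
    intro t ht
    rw [add_sub_cancel_left, norm_smul, Real.norm_of_nonneg ht.1]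
    exact lt_of_le_of_lt (mul_le_of_le_one_left (norm_nonneg _) ht.2) hxy
  have hd : ∀ t : ℝ, HasDerivAt (fun t : ℝ => X.pr (x + t • (y - x)))
      (X.P (x + t • (y - x)) (y - x)) t := by
    intro t
    have h1 : HasDerivAt (fun t : ℝ => x + t • (y - x)) (y - x) t := by
      simpa using ((hasDerivAt_id t).smul_const (y - x)).const_add x
    exact (X.pr_hasFDerivAt _).comp_hasDerivAt t h1
  have hc : Continuous fun t : ℝ => X.P (x + t • (y - x)) (y - x) := by
    have := X.P_smooth.continuous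
    fun_prop
  have := G.le_len 0 1 (fun t => X.pr (x + t • (y - x))) (fun t => X.P (x + t • (y - x)) (y - x))
    zero_le_one (fun t ht => X.maps x hx _ ((hn t ht).trans_le (min_le_right _ _)))
    (fun t _ => (hd t).hasDerivWithinAt) hc.continuousOn
  simp only [zero_smul, add_zero, one_smul, add_sub_cancel, X.fix x hx, X.fix y hy] at this
  refine this.trans ?_
  have h2 : ∫ t in (0 : ℝ)..1, ‖X.P (x + t • (y - x)) (y - x)‖ ≤
      ∫ _ in (0 : ℝ)..1, (1 + ε) * ‖y - x‖ := by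
    refine intervalIntegral.integral_mono_on zero_le_one (hc.norm.intervalIntegrable _ _)
      (by simp) fun t ht => ?_
    have h3 := h x hx _ ((hn t ht).trans_le (min_le_left _ _))
    have h4 : X.P (x + t • (y - x)) (y - x) =
        X.P x (y - x) + (X.P (x + t • (y - x)) - X.P x) (y - x) := by simp
    rw [h4]
    refine (norm_add_le _ _).trans ?_
    have h5 := (Emb.isProj hx).norm_le (y - x)
    have h6 := (X.P (x + t • (y - x)) - X.P x).le_opNorm (y - x)
    have h7 := mul_le_mul_of_nonneg_right h3.le (norm_nonneg (y - x))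
    linarith
  simpa using h2

lemma abs_sub_le {q x y : Eu A} (hq : q ∈ X.M) (hx : x ∈ X.M) (hy : y ∈ X.M) :
    |G.d q x - G.d q y| ≤ G.d x y := by
  have h1 := G.tri q hq x hx y hy
  have h2 := G.tri q hq y hy x hx
  rw [G.comm y x] at h2
  rw [abs_le]; constructor <;> linarith

lemma continuousOn_d {q : Eu A} (hq : q ∈ X.M) : ContinuousOn (G.d q) X.M := by
  obtain ⟨r, hr, h⟩ := G.local_le one_pos
  intro x hx
  rw [Metric.continuousWithinAt_iff]
  intro ε hε
  refine ⟨min r (ε / 2), lt_min hr (half_pos hε), fun {y} hy hxy => ?_⟩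
  rw [dist_eq_norm] at hxy
  have h1 := h x hx y hy (hxy.trans_le (min_le_left _ _))
  have h2 := G.abs_sub_le hq hy hx
  rw [G.comm y x] at h2
  have h3 := hxy.trans_le (min_le_right _ _)
  rw [Real.dist_eq]
  linarith

lemma ball_subset (y : Eu A) (r : ℝ) : G.ball y r ⊆ X.M := fun _ h => h.1

lemma ball_mono (y : Eu A) {r s : ℝ} (h : r ≤ s) : G.ball y r ⊆ G.ball y s :=
  fun _ hx => ⟨hx.1, hx.2.trans_le h⟩

lemma ball_subset_ball {y z : Eu A} (hy : y ∈ X.M) (hz : z ∈ X.M) {r s : ℝ}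
    (h : G.d y z + r ≤ s) : G.ball z r ⊆ G.ball y s :=
  fun x hx => ⟨hx.1, by have := G.tri y hy z hz x hx.1; linarith [hx.2]⟩

lemma ball_mem_nhdsWithin {y x : Eu A} (hy : y ∈ X.M) {r : ℝ} (hx : x ∈ G.ball y r) :
    G.ball y r ∈ 𝓝[X.M] x := by
  have := (G.continuousOn_d hy x hx.1).eventually (gt_mem_nhds hx.2)
  filter_upwards [this, self_mem_nhdsWithin] with z h1 h2 using ⟨h2, h1⟩

lemma measurableSet_ball {y : Eu A} (hy : y ∈ X.M) (r : ℝ) : MeasurableSet (G.ball y r) := by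
  obtain ⟨U, hU, h⟩ := (continuousOn_iff'.1 (G.continuousOn_d hy)) (Iio r) isOpen_Iio
  have : G.ball y r = U ∩ X.M := by
    rw [← h]; ext x; simp [ball, and_comm]
  rw [this]
  exact hU.measurableSet.inter X.measurableSet_M

lemma isCompact_closedBall {y : Eu A} (hy : y ∈ X.M) (r : ℝ) :
    IsCompact {x | x ∈ X.M ∧ G.d y x ≤ r} := by
  have := (G.continuousOn_d hy).preimage_isClosed_of_isClosed X.cpt.isClosed (isClosed_Iic (a := r))
  exact X.cpt.of_isClosed_subset this fun _ h => h.1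

end Geo

end Pool.Agent.AlEmb
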