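import Pool.Agent.Lib.MP_3fa020_gt.EBasic

/-!
Comparison along minimizing geodesics: semiconcavity, Toponogov comparison.
-/

namespace Pool.Agent.AlEmb

open Set Filter Topology MeasureTheory
open scoped InnerProductSpace ContDiff

variable {A n : ℕ}

namespace ECompAux

lemma d_lin (β s : ℝ) : HasDerivAt (fun s : ℝ => β * s) β s := by
  simpa using (hasDerivAt_id' s).const_mul β

lemma d_sq (β s : ℝ) : HasDerivAt (fun s : ℝ => β * s ^ 2 / 2) (β * s) s :=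
  (((hasDerivAt_pow 2 s).const_mul β).div_const 2).congr_deriv (by norm_num; ring)

lemma tendsto_add (t₀ : ℝ) : Tendsto (fun h : ℝ => t₀ + h) (𝓝 0) (𝓝 t₀) :=
  Continuous.tendsto' (by fun_prop) 0 t₀ (add_zero _)

lemma anti {f f' : ℝ → ℝ} {l : ℝ} (h : ∀ t ∈ Icc 0 l, HasDerivWithinAt f (f' t) (Icc 0 l) t)
    (h0 : ∀ t ∈ Icc 0 l, f' t ≤ 0) : AntitoneOn f (Icc 0 l) :=
  antitoneOn_of_hasDerivWithinAt_nonpos (f' := f') (convex_Icc 0 l)
    (fun t ht => (h t ht).continuousWithinAt)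
    (fun t ht => (h t (interior_subset ht)).mono interior_subset)
    (fun t ht => h0 t (interior_subset ht))

lemma ivp {f f' f'' : ℝ → ℝ} {l β : ℝ}
    (h1 : ∀ t ∈ Icc 0 l, HasDerivWithinAt f (f' t) (Icc 0 l) t)
    (h2 : ∀ t ∈ Icc 0 l, HasDerivWithinAt f' (f'' t) (Icc 0 l) t)
    (hβ : ∀ t ∈ Icc 0 l, f'' t ≤ β) {t : ℝ} (ht : t ∈ Icc 0 l) :
    f t ≤ f 0 + t * f' 0 + β * t ^ 2 / 2 := by
  have h0 : (0 : ℝ) ∈ Icc 0 l := ⟨le_rfl, ht.1.trans ht.2⟩
  have a1 : AntitoneOn (fun s => f' s - β * s) (Icc 0 l) :=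
    anti (f' := fun s => f'' s - β)
      (fun s hs => (h2 s hs).sub (d_lin β s).hasDerivWithinAt)
      (fun s hs => by linarith [hβ s hs])
  have a2 : AntitoneOn (fun s => f s - s * f' 0 - β * s ^ 2 / 2) (Icc 0 l) :=
    anti (f' := fun s => f' s - f' 0 - β * s)
      (fun s hs => by
        have e1 : HasDerivAt (fun s : ℝ => s * f' 0) (f' 0) s := by
          simpa using (hasDerivAt_id s).mul_const (f' 0)
        exact ((h1 s hs).sub e1.hasDerivWithinAt).sub (d_sq β s).hasDerivWithinAt)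
      (fun s hs => by
        have := a1 h0 hs hs.1
        simp only at this
        linarith)
  have := a2 h0 ht ht.1
  simp only at this
  nlinarith

lemma bvp {f f' f'' : ℝ → ℝ} {l β : ℝ}
    (h1 : ∀ t ∈ Icc 0 l, HasDerivWithinAt f (f' t) (Icc 0 l) t)
    (h2 : ∀ t ∈ Icc 0 l, HasDerivWithinAt f' (f'' t) (Icc 0 l) t)
    (hβ : ∀ t ∈ Icc 0 l, f'' t ≤ β) {t : ℝ} (ht : t ∈ Icc 0 l) :
    (l - t) * f 0 + t * f l - β * l * t * (l - t) / 2 ≤ l * f t := by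
  have hl : 0 ≤ l := ht.1.trans ht.2
  have hc : ConcaveOn ℝ (Icc 0 l) (fun s => f s - β * s ^ 2 / 2) := by
    refine concaveOn_of_hasDerivWithinAt2_nonpos (f' := fun s => f' s - β * s)
      (f'' := fun s => f'' s - β) (convex_Icc 0 l) ?_ ?_ ?_ ?_
    · exact ContinuousOn.sub (fun s hs => (h1 s hs).continuousWithinAt) (by fun_prop)
    · intro s hs
      exact ((h1 s (interior_subset hs)).mono interior_subset).sub (d_sq β s).hasDerivWithinAt
    · intro s hs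
      exact ((h2 s (interior_subset hs)).mono interior_subset).sub (d_lin β s).hasDerivWithinAt
    · intro s hs
      linarith [hβ s (interior_subset hs)]
  rcases hl.eq_or_lt with rfl | hl'
  · have : t = 0 := le_antisymm ht.2 ht.1
    subst this
    simp
  · have key := hc.2 (left_mem_Icc.2 hl) (right_mem_Icc.2 hl)
      (show 0 ≤ (l - t) / l from div_nonneg (by linarith [ht.2]) hl) (div_nonneg ht.1 hl)
      (by field_simp; ring)
    have e : ((l - t) / l) • (0 : ℝ) + (t / l) • l = t := by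
      simp only [smul_eq_mul]; field_simp; ring
    rw [e] at key
    simp only [smul_eq_mul] at key
    have k2 := mul_le_mul_of_nonneg_left key hl
    have e2 : l * ((l - t) / l * (f 0 - β * 0 ^ 2 / 2) + t / l * (f l - β * l ^ 2 / 2)) =
        (l - t) * f 0 + t * (f l - β * l ^ 2 / 2) := by
      field_simp; ring
    rw [e2] at k2
    nlinarith

/-- second order Taylor estimate at a point where the second derivative vanishes -/
lemma taylor0 {k k' : ℝ → ℝ} {t₀ : ℝ} (h1 : ∀ᶠ s in 𝓝 t₀, HasDerivAt k (k' s) s)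
    (h2 : HasDerivAt k' 0 t₀) {η : ℝ} (hη : 0 < η) :
    ∀ᶠ h in 𝓝 (0 : ℝ), |k (t₀ + h) - k t₀ - h * k' t₀| ≤ η * h ^ 2 := by
  have h3 := (hasDerivAt_iff_isLittleO.1 h2).def hη
  obtain ⟨r, hr, hb⟩ := Metric.eventually_nhds_iff.1 (h1.and h3)
  filter_upwards [Metric.ball_mem_nhds (0 : ℝ) hr] with h hh
  rw [Metric.mem_ball, Real.dist_eq, sub_zero] at hh
  have hm : ∀ s ∈ Metric.closedBall t₀ |h|, dist s t₀ < r := fun s hs =>
    lt_of_le_of_lt (Metric.mem_closedBall.1 hs) hh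
  have := Convex.norm_image_sub_le_of_norm_hasDerivWithin_le
    (f := fun s => k s - s * k' t₀) (f' := fun s => k' s - k' t₀) (C := η * |h|)
    (s := Metric.closedBall t₀ |h|) (x := t₀) (y := t₀ + h)
    (fun s hs => by
      have e1 : HasDerivAt (fun s : ℝ => s * k' t₀) (k' t₀) s := by
        simpa using (hasDerivAt_id s).mul_const (k' t₀)
      exact ((hb (hm s hs)).1.sub e1).hasDerivWithinAt)
    (fun s hs => by
      have e := (hb (hm s hs)).2
      simp only [smul_zero, sub_zero] at e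
      refine e.trans (mul_le_mul_of_nonneg_left ?_ hη.le)
      simpa [Real.dist_eq] using Metric.mem_closedBall.1 hs)
    (convex_closedBall _ _) (Metric.mem_closedBall_self (abs_nonneg h))
    (by simp [Real.dist_eq])
  simp only [add_sub_cancel_left, Real.norm_eq_abs] at this
  have e : k (t₀ + h) - (t₀ + h) * k' t₀ - (k t₀ - t₀ * k' t₀) =
      k (t₀ + h) - k t₀ - h * k' t₀ := by ring
  rw [e, mul_assoc, abs_mul_abs_self] at this
  simpa [sq] using this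

lemma sq_le_cosh (h : ℝ) : 2 + h ^ 2 ≤ 2 * Real.cosh h := by
  have e : Real.cosh h = 2 * Real.sinh (h / 2) ^ 2 + 1 := by
    have := Real.cosh_two_mul (h / 2)
    rw [show 2 * (h / 2) = h by ring, Real.cosh_sq] at this
    linarith
  have h1 : |h / 2| ≤ |Real.sinh (h / 2)| := by
    rw [Real.abs_sinh]
    exact Real.self_le_sinh_iff.2 (abs_nonneg _)
  have h2 : (h / 2) ^ 2 ≤ Real.sinh (h / 2) ^ 2 := sq_le_sq.2 h1
  nlinarith

/-- minimum principle for `F'' ≤ F` in the barrier sense -/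
lemma min_principle {F : ℝ → ℝ} {l : ℝ} (hF : ContinuousOn F (Icc 0 l))
    (h0 : 0 ≤ F 0) (hl : 0 ≤ F l)
    (hb : ∀ t₀ ∈ Ioo 0 l, ∀ ε > 0, ∃ b, ∀ᶠ h in 𝓝 (0 : ℝ),
      F (t₀ + h) ≤ F t₀ + b * h + (F t₀ + ε) * h ^ 2 / 2) {t : ℝ} (ht : t ∈ Icc 0 l) :
    Real.sinh (l - t) * F 0 + Real.sinh t * F l ≤ Real.sinh l * F t := by
  by_contra hneg
  rw [not_le] at hneg
  set U : ℝ → ℝ := fun s => Real.sinh (l - s) * F 0 + Real.sinh s * F l with hU
  set D : ℝ → ℝ := fun s => Real.sinh l * F s - U s with hD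
  have hDc : ContinuousOn D (Icc 0 l) := by
    refine (continuousOn_const.mul hF).sub ?_
    exact Continuous.continuousOn (by simp only [hU]; fun_prop)
  obtain ⟨t₀, ht₀, hmin⟩ := isCompact_Icc.exists_isMinOn ⟨t, ht⟩ hDc
  have hm : D t₀ < 0 := lt_of_le_of_lt (hmin ht) (by simp only [hD, hU]; linarith)
  have hi : t₀ ∈ Ioo 0 l := by
    refine ⟨lt_of_le_of_ne ht₀.1 ?_, lt_of_le_of_ne ht₀.2 ?_⟩
    · rintro rfl
      simp [hD, hU] at hm
    · rintro rfl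
      simp [hD, hU] at hm
  have hS : 0 < Real.sinh l := Real.sinh_pos_iff.2 (hi.1.trans hi.2)
  obtain ⟨b, hb'⟩ := hb t₀ hi (-D t₀ / (2 * Real.sinh l)) (div_pos (by linarith) (by positivity))
  have hneg' : Tendsto (fun h : ℝ => -h) (𝓝 0) (𝓝 0) := by
    simpa using (continuous_neg.tendsto (0 : ℝ))
  have hin : ∀ᶠ h in 𝓝 (0 : ℝ), t₀ + h ∈ Icc 0 l :=
    (tendsto_add t₀).eventually (Icc_mem_nhds hi.1 hi.2)
  have hall := (hb'.and hin).and (hneg'.eventually (hb'.and hin))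
  obtain ⟨h, ⟨⟨p1, p2⟩, ⟨p3, p4⟩⟩, hh⟩ :=
    ((hall.filter_mono (nhdsWithin_le_nhds (s := Ioi 0))).and self_mem_nhdsWithin).exists
  have hh' : 0 < h := hh
  have m1 : D t₀ ≤ D (t₀ + h) := hmin p2
  have m2 : D t₀ ≤ D (t₀ + -h) := hmin p4
  have hU0 : 0 ≤ U t₀ :=
    add_nonneg (mul_nonneg (Real.sinh_nonneg_iff.2 (by linarith [ht₀.2])) h0)
      (mul_nonneg (Real.sinh_nonneg_iff.2 ht₀.1) hl)
  have hUs : U (t₀ + h) + U (t₀ + -h) = 2 * Real.cosh h * U t₀ := by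
    simp only [hU]
    rw [show l - (t₀ + h) = (l - t₀) - h by ring, show l - (t₀ + -h) = (l - t₀) + h by ring,
      show t₀ + -h = t₀ - h by ring, Real.sinh_sub (l - t₀), Real.sinh_add (l - t₀),
      Real.sinh_add t₀, Real.sinh_sub t₀]
    ring
  have hc := mul_le_mul_of_nonneg_right (sq_le_cosh h) hU0
  have hsum : F (t₀ + h) + F (t₀ + -h) ≤
      2 * F t₀ + (F t₀ + -D t₀ / (2 * Real.sinh l)) * h ^ 2 := by
    have : (-h) ^ 2 = h ^ 2 := by ring
    rw [this] at p3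
    linarith
  have hs2 := mul_le_mul_of_nonneg_left hsum hS.le
  have e : Real.sinh l * (2 * F t₀ + (F t₀ + -D t₀ / (2 * Real.sinh l)) * h ^ 2) =
      2 * (Real.sinh l * F t₀) + (Real.sinh l * F t₀ - D t₀ / 2) * h ^ 2 := by
    field_simp; ring
  rw [e] at hs2
  have hD0 : D t₀ = Real.sinh l * F t₀ - U t₀ := rfl
  have hD1 : D (t₀ + h) = Real.sinh l * F (t₀ + h) - U (t₀ + h) := rfl
  have hD2 : D (t₀ + -h) = Real.sinh l * F (t₀ + -h) - U (t₀ + -h) := rfl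
  have hp : D t₀ * h ^ 2 < 0 := mul_neg_of_neg_of_pos hm (by positivity)
  nlinarith

lemma deriv_nonneg {f : ℝ → ℝ} {f' b : ℝ} (hb : 0 < b) (h : HasDerivWithinAt f f' (Icc 0 b) 0)
    (h0 : ∀ᶠ t in 𝓝[Icc 0 b] 0, f 0 ≤ f t) : 0 ≤ f' := by
  rw [hasDerivWithinAt_iff_tendsto_slope, Icc_diff_left] at h
  haveI : (𝓝[Ioc 0 b] (0 : ℝ)).NeBot := left_nhdsWithin_Ioc_neBot hb
  refine ge_of_tendsto h ?_
  filter_upwards [h0.filter_mono (nhdsWithin_mono _ Ioc_subset_Icc_self), self_mem_nhdsWithin]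
    with t h1 h2
  rw [slope_def_field]
  exact div_nonneg (by linarith) (by linarith [h2.1])

end ECompAux

namespace Geo

open ECompAux

variable {X : Emb A n} {G : Geo X} {γ w : ℝ → Eu A} {l : ℝ}

/-- restriction of a geodesic -/
theorem IsGeod.restrict (h : G.IsGeod γ w l) {t : ℝ} (ht : t ∈ Icc 0 l) : G.IsGeod γ w t := by
  have hs : Icc 0 t ⊆ Icc 0 l := Icc_subset_Icc_right ht.2
  exact ⟨ht.1, fun s h1 => h.mem s (hs h1), fun s h1 => (h.vel s (hs h1)).mono hs,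
    fun s h1 => (h.acc s (hs h1)).mono hs, fun s h1 => h.unit s (hs h1),
    fun s h1 => h.tan s (hs h1), fun s h1 s' h2 => h.dist s (hs h1) s' (hs h2)⟩

lemma IsGeod.comp_vel (h : G.IsGeod γ w l) {g : Eu A → ℝ} (hg : Differentiable ℝ g) {t : ℝ}
    (ht : t ∈ Icc 0 l) :
    HasDerivWithinAt (fun s => g (γ s)) (fderiv ℝ g (γ t) (w t)) (Icc 0 l) t :=
  (hg (γ t)).hasFDerivAt.comp_hasDerivWithinAt t (h.vel t ht)

lemma IsGeod.comp_acc (h : G.IsGeod γ w l) {g : Eu A → ℝ} (hg : ContDiff ℝ 2 g) {t : ℝ}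
    (ht : t ∈ Icc 0 l) :
    HasDerivWithinAt (fun s => fderiv ℝ g (γ s) (w s)) (Hess X.P g (γ t) (w t) (w t))
      (Icc 0 l) t := by
  have h1 : ContDiff ℝ 1 (fderiv ℝ g) := hg.fderiv_right (m := 1) (by norm_num)
  have h2 : HasDerivWithinAt (fun s => fderiv ℝ g (γ s))
      (fderiv ℝ (fderiv ℝ g) (γ t) (w t)) (Icc 0 l) t :=
    ((h1.differentiable (by norm_num)) (γ t)).hasFDerivAt.comp_hasDerivWithinAt t (h.vel t ht)
  exact h2.clm_apply (h.acc t ht)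

/-- semiconcave functions along geodesics, initial value form -/
theorem IsGeod.semi_ivp (h : G.IsGeod γ w l) {g : Eu A → ℝ} (hg : ContDiff ℝ 2 g) {β : ℝ}
    (hβ : ∀ t ∈ Icc 0 l, Hess X.P g (γ t) (w t) (w t) ≤ β) {t : ℝ} (ht : t ∈ Icc 0 l) :
    g (γ t) ≤ g (γ 0) + t * fderiv ℝ g (γ 0) (w 0) + β * t ^ 2 / 2 :=
  ivp (f := fun s => g (γ s)) (f' := fun s => fderiv ℝ g (γ s) (w s))
    (fun _ hs => h.comp_vel (hg.differentiable (by norm_num)) hs)
    (fun _ hs => h.comp_acc hg hs) hβ ht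

/-- semiconcave functions along geodesics, boundary value form -/
theorem IsGeod.semi_bvp (h : G.IsGeod γ w l) {g : Eu A → ℝ} (hg : ContDiff ℝ 2 g) {β : ℝ}
    (hβ : ∀ t ∈ Icc 0 l, Hess X.P g (γ t) (w t) (w t) ≤ β) {t : ℝ} (ht : t ∈ Icc 0 l) :
    (l - t) * g (γ 0) + t * g (γ l) - β * l * t * (l - t) / 2 ≤ l * g (γ t) :=
  bvp (f := fun s => g (γ s)) (f' := fun s => fderiv ℝ g (γ s) (w s))
    (fun _ hs => h.comp_vel (hg.differentiable (by norm_num)) hs)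
    (fun _ hs => h.comp_acc hg hs) hβ ht

theorem IsGeod.lip (h : G.IsGeod γ w l) {g : Eu A → ℝ} (hg : ContDiff ℝ 1 g) {L : ℝ}
    (hL : ∀ t ∈ Icc 0 l, ‖X.P (γ t) (gradient g (γ t))‖ ≤ L) :
    |g (γ l) - g (γ 0)| ≤ L * l := by
  have := Convex.norm_image_sub_le_of_norm_hasDerivWithin_le
    (f := fun s => g (γ s)) (f' := fun s => fderiv ℝ g (γ s) (w s)) (C := L)
    (s := Icc 0 l) (x := 0) (y := l)
    (fun s hs => h.comp_vel (hg.differentiable (by norm_num)) hs)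
    (fun s hs => by
      have e : fderiv ℝ g (γ s) (w s) = ⟪X.P (γ s) (gradient g (γ s)), w s⟫_ℝ := by
        rw [(Emb.isProj (h.mem s hs)).symm, h.tan s hs]
        simp [gradient]
      rw [e]
      refine (norm_inner_le_norm _ _).trans ?_
      rw [h.unit s hs, mul_one]
      exact hL s hs)
    (convex_Icc 0 l) (left_mem_Icc.2 h.nonneg) (right_mem_Icc.2 h.nonneg)
  simpa [abs_of_nonneg h.nonneg] using this

lemma IsGeod.norm_sub_sq (h : G.IsGeod γ w l) {s t : ℝ} (hs : s ∈ Icc 0 l) (ht : t ∈ Icc 0 l) :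
    ‖γ s - γ t‖ ^ 2 ≤ (s - t) ^ 2 := by
  have h1 := G.norm_le _ (h.mem s hs) _ (h.mem t ht)
  rw [h.dist s hs t ht] at h1
  have := pow_le_pow_left₀ (norm_nonneg _) h1 2
  rwa [sq_abs] at this

lemma IsGeod.tendsto (h : G.IsGeod γ w l) {t : ℝ} (ht : t ∈ Icc 0 l) :
    Tendsto γ (𝓝[Icc 0 l] t) (𝓝[X.M] (γ t)) :=
  tendsto_nhdsWithin_iff.2 ⟨(h.vel t ht).continuousWithinAt,
    eventually_nhdsWithin_of_forall fun s hs => h.mem s hs⟩

lemma IsGeod.local_barrier (hg : G.HasGeod) (hb : G.Barrier) (h : G.IsGeod γ w l) {q : Eu A}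
    (hq : q ∈ X.M) {t₀ : ℝ} (ht : t₀ ∈ Ioo 0 l) {ε : ℝ} (hε : 0 < ε) :
    ∃ b, ∀ᶠ k in 𝓝 (0 : ℝ), Real.cosh (G.d (γ (t₀ + k)) q) ≤
      Real.cosh (G.d (γ t₀) q) + b * k + (Real.cosh (G.d (γ t₀) q) + ε) * k ^ 2 / 2 := by
  have ht' : t₀ ∈ Icc 0 l := Ioo_subset_Icc_self ht
  have hI : Icc 0 l ∈ 𝓝 t₀ := Icc_mem_nhds ht.1 ht.2
  have hadd := tendsto_add t₀
  have hT : Tendsto (fun k : ℝ => γ (t₀ + k)) (𝓝 0) (𝓝[X.M] (γ t₀)) := by
    have := h.tendsto ht'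
    rw [nhdsWithin_eq_nhds.2 hI] at this
    exact this.comp hadd
  have hsq : ∀ᶠ k in 𝓝 (0 : ℝ), ‖γ (t₀ + k) - γ t₀‖ ^ 2 ≤ k ^ 2 := by
    filter_upwards [hadd.eventually hI] with k hk
    simpa using h.norm_sub_sq hk ht'
  by_cases hx : γ t₀ = q
  · refine ⟨0, ?_⟩
    have h1 := hb.2 q hq ε hε
    rw [hx] at hT hsq
    filter_upwards [hT.eventually h1, hsq] with k h2 h3
    rw [hx, G.self q hq, Real.cosh_zero]
    nlinarith
  · obtain ⟨σ, v, hσ, hσ0, hσl⟩ := hg _ (h.mem t₀ ht') q hq hx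
    have hL : 0 < G.d (γ t₀) q := G.pos (h.mem t₀ ht') hq hx
    set L := G.d (γ t₀) q with hLdef
    have hS : 0 < Real.sinh L := Real.sinh_pos_iff.2 hL
    have h1 := hb.1 σ v L hσ hL (ε / 2) (half_pos hε)
    rw [hσ0, hσl] at h1
    have hv : X.P (γ t₀) (v 0) = v 0 := by
      have := hσ.tan 0 (left_mem_Icc.2 hL.le)
      rwa [hσ0] at this
    have d1 : ∀ᶠ s in 𝓝 t₀, HasDerivAt (fun s => ⟪v 0, γ s⟫_ℝ) ⟪v 0, w s⟫_ℝ s := by
      filter_upwards [Ioo_mem_nhds ht.1 ht.2] with s hs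
      have := (h.vel s (Ioo_subset_Icc_self hs)).hasDerivAt (Icc_mem_nhds hs.1 hs.2)
      simpa using (hasDerivAt_const s (v 0)).inner ℝ this
    have d2 : HasDerivAt (fun s => ⟪v 0, w s⟫_ℝ) 0 t₀ := by
      have h2 := (h.acc t₀ ht').hasDerivAt hI
      have h3 := (hasDerivAt_const t₀ (v 0)).inner ℝ h2
      have h4 : ⟪v 0, X.II (γ t₀) (w t₀) (w t₀)⟫_ℝ = 0 := by
        have h5 := Emb.II_normal (h.mem t₀ ht') (w t₀) (w t₀)
        rw [h.tan t₀ ht'] at h5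
        rw [← hv, (Emb.isProj (h.mem t₀ ht')).symm, h5, inner_zero_right]
      simpa [h4] using h3
    have h2 := taylor0 d1 d2 (η := ε / (4 * Real.sinh L)) (by positivity)
    refine ⟨-(Real.sinh L * ⟪v 0, w t₀⟫_ℝ), ?_⟩
    filter_upwards [hT.eventually h1, hsq, h2] with k h3 h4 h5
    rw [inner_sub_right] at h3
    have h6 := mul_le_mul_of_nonneg_left (neg_le_of_abs_le h5) hS.le
    have e : Real.sinh L * -(ε / (4 * Real.sinh L) * k ^ 2) = -(ε / 4 * k ^ 2) := by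
      field_simp
    rw [e] at h6
    have h7 : (Real.cosh L + ε / 2) / 2 * ‖γ (t₀ + k) - γ t₀‖ ^ 2 ≤
        (Real.cosh L + ε / 2) / 2 * k ^ 2 :=
      mul_le_mul_of_nonneg_left h4 (by have := Real.cosh_pos L; positivity)
    nlinarith

/-- Toponogov comparison, point on a side -/
theorem IsGeod.cosh_bvp (hg : G.HasGeod) (hb : G.Barrier) (h : G.IsGeod γ w l) {q : Eu A}
    (hq : q ∈ X.M) {t : ℝ} (ht : t ∈ Icc 0 l) :
    Real.sinh (l - t) * Real.cosh (G.d (γ 0) q) + Real.sinh t * Real.cosh (G.d (γ l) q) ≤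
      Real.sinh l * Real.cosh (G.d (γ t) q) := by
  refine min_principle (F := fun s => Real.cosh (G.d (γ s) q)) ?_ (Real.cosh_pos _).le
    (Real.cosh_pos _).le (fun t₀ ht₀ ε hε => h.local_barrier hg hb hq ht₀ hε) ht
  have h1 : ContinuousOn (fun s => G.d q (γ s)) (Icc 0 l) :=
    (G.continuousOn_d hq).comp (fun s hs => (h.vel s hs).continuousWithinAt)
      (fun s hs => h.mem s hs)
  simp_rw [G.comm _ q]
  exact Real.continuous_cosh.comp_continuousOn h1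

theorem hinge (hg : G.HasGeod) (hb : G.Barrier) : G.Hinge := by
  intro γ₁ w₁ γ₂ w₂ a b h₁ h₂ h0
  have ha0 : (0 : ℝ) ∈ Icc 0 a := left_mem_Icc.2 h₁.nonneg
  have haa : a ∈ Icc 0 a := right_mem_Icc.2 h₁.nonneg
  have hb0 : (0 : ℝ) ∈ Icc 0 b := left_mem_Icc.2 h₂.nonneg
  have hbb : b ∈ Icc 0 b := right_mem_Icc.2 h₂.nonneg
  have da : G.d (γ₂ 0) (γ₁ a) = a := by
    rw [← h0, h₁.dist 0 ha0 a haa, zero_sub, abs_neg, abs_of_nonneg h₁.nonneg]
  rcases h₁.nonneg.eq_or_lt with rfl | ha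
  · rw [h0, h₂.dist 0 hb0 b hbb, zero_sub, abs_neg, abs_of_nonneg h₂.nonneg]
    simp
  rcases h₂.nonneg.eq_or_lt with rfl | hb'
  · rw [G.comm, da]
    simp
  have hq := h₁.mem a haa
  have h1 := hb.1 γ₁ w₁ a h₁ ha 1 one_pos
  rw [h0] at h1
  have hSb : 0 < Real.sinh b := Real.sinh_pos_iff.2 hb'
  set Y := Real.cosh (G.d (γ₂ b) (γ₁ a)) with hY
  have hd : HasDerivWithinAt (fun t => Real.sinh b * (Real.cosh a -
      Real.sinh a * ⟪w₁ 0, γ₂ t - γ₂ 0⟫_ℝ + (Real.cosh a + 1) / 2 * t ^ 2) -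
      (Real.sinh (b - t) * Real.cosh a + Real.sinh t * Y))
      (Real.cosh a * Real.cosh b - Real.sinh a * Real.sinh b * ⟪w₁ 0, w₂ 0⟫_ℝ - Y)
      (Icc 0 b) 0 := by
    have e1 : HasDerivWithinAt (fun t => ⟪w₁ 0, γ₂ t - γ₂ 0⟫_ℝ) ⟪w₁ 0, w₂ 0⟫_ℝ (Icc 0 b) 0 := by
      simpa using (hasDerivWithinAt_const 0 (Icc 0 b) (w₁ 0)).inner ℝ
        ((h₂.vel 0 hb0).sub_const (γ₂ 0))
    have e2 : HasDerivAt (fun t : ℝ => t ^ 2) 0 0 := by
      simpa using hasDerivAt_pow 2 (0 : ℝ)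
    have e3 : HasDerivAt (fun t : ℝ => Real.sinh (b - t)) (-Real.cosh b) 0 := by
      simpa using ((hasDerivAt_id (0 : ℝ)).const_sub b).sinh
    have e4 : HasDerivAt Real.sinh 1 0 := by simpa using Real.hasDerivAt_sinh 0
    have := ((((e1.const_mul (Real.sinh a)).const_sub (Real.cosh a)).add
      (e2.const_mul ((Real.cosh a + 1) / 2)).hasDerivWithinAt).const_mul (Real.sinh b)).sub
      ((e3.mul_const (Real.cosh a)).add (e4.mul_const Y)).hasDerivWithinAt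
    exact this.congr_deriv (by ring)
  have := deriv_nonneg hb' hd (by
    filter_upwards [(h₂.tendsto hb0).eventually h1, self_mem_nhdsWithin] with t h2 ht
    have h3 := h₂.cosh_bvp hg hb hq ht
    rw [da] at h3
    have h4 := h₂.norm_sub_sq ht hb0
    rw [sub_zero] at h4
    have h5 : (Real.cosh a + 1) / 2 * ‖γ₂ t - γ₂ 0‖ ^ 2 ≤ (Real.cosh a + 1) / 2 * t ^ 2 :=
      mul_le_mul_of_nonneg_left h4 (by have := Real.cosh_pos a; positivity)
    have h6 := mul_le_mul_of_nonneg_left (h2.trans (add_le_add_right h5 _)) hSb.le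
    simp only [sub_self, inner_zero_right, mul_zero, sub_zero, Real.sinh_zero, zero_mul, add_zero,
      ne_eq, OfNat.ofNat_ne_zero, not_false_eq_true, zero_pow]
    linarith)
  rw [G.comm]
  linarith

end Geo

end Pool.Agent.AlEmb
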