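import Pool.Agent.Lib.MP_3fa020_gt.ECut

namespace Pool.Agent.AlEmb

open Set Filter Topology MeasureTheory
open scoped InnerProductSpace ContDiff

namespace ECritAux

variable {n k j p m : ℕ} {c C K KO KO' : ℝ}

/-- a partition of unity built from finitely many cutoffs -/
lemma exists_part {S : Ctx n k} {f : ℕ → Eu S.A → ℝ} {ι : Type*} (T : Finset ι)
    {ψ : ι → Eu S.A → ℝ} (h : ∀ i ∈ T, S.Lv f j (ψ i)) :
    ∃ χ : ι → Eu S.A → ℝ, (∀ i ∈ T, S.Lv f j (χ i)) ∧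
      ∀ x, ∑ i ∈ T, ψ i x * χ i x = 1 - ∏ i ∈ T, (1 - ψ i x) := by
  classical
  induction T using Finset.induction_on with
  | empty => exact ⟨ψ, by simp, by simp⟩
  | insert a T ha ih =>
    obtain ⟨χ, h1, h2⟩ := ih fun i hi => h i (Finset.mem_insert_of_mem hi)
    refine ⟨Function.update χ a fun x => ∏ i ∈ T, (1 - ψ i x), fun i hi => ?_, fun x => ?_⟩
    · rcases Finset.mem_insert.1 hi with rfl | hi
      · rw [Function.update_self]
        exact Ctx.Lv.prod T fun i hi => (h i (Finset.mem_insert_of_mem hi)).one_sub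
      · rw [Function.update_of_ne (ne_of_mem_of_not_mem hi ha)]; exact h1 i hi
    · rw [Finset.sum_insert ha, Finset.prod_insert ha, Function.update_self,
        Finset.sum_congr rfl (g := fun i => ψ i x * χ i x) fun i hi => by
          rw [Function.update_of_ne (ne_of_mem_of_not_mem hi ha)], h2]
      ring

/-- sets with one more critical scale -/
lemma bad_cover (hG : ClG n k j c (p + 1) (m + 1) K) {S : Ctx n k} {f : ℕ → Eu S.A → ℝ}
    {y₀ t : Eu S.A} {R r θ : ℝ} (hF : S.Frame f j c y₀ R) (ht : t ∈ S.X.M) (h0 : 0 < r)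
    (h1 : r ≤ 1) (hθ : 0 < θ) (h2 : θ * r ≤ c / 10 ^ 6 * R) {V : Set (Eu S.A)}
    (hV : V ⊆ S.G.ball t r) (h3 : ∀ x ∈ V, S.G.d y₀ x + 4 * (θ * r) ≤ 0.6 * R)
    (h4 : ∀ x ∈ V, S.Gm f j c R x (m + 1) (400 * (θ * r))) :
    S.X.Bd (S.Ev f j c R (p + 1)) V ((1 + 4 / θ) ^ n * (K * (θ * r) ^ (n - 2 * (p + 1)))) := by
  have hK := hG.1
  refine S.bd_cover ht h0 h1 hθ hV (by positivity) fun z hz => ?_
  exact (hG.2 S f y₀ R hF z (hV hz).1 _ (by positivity) h2 (h3 z hz)).subset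
    fun x hx => ⟨hx.2, h4 x hx.1⟩

/-- selection of finitely many slabs -/
lemma vitali {S : Ctx n k} {f : ℕ → Eu S.A → ℝ} {y₀ y : Eu S.A} {R s ε t₀ : ℝ}
    (hF : S.Frame f j c y₀ R) (hy : y ∈ S.X.M) (hs : 0 < s) (hR : S.G.d y₀ y + s ≤ R)
    (hε : 0 < ε) (hε1 : ε ≤ 1) (ht₀ : 0 < t₀) {W : Set (Eu S.A)} (hW : W ⊆ S.G.ball y s)
    {ρ : Eu S.A → ℝ} (hρ : ∀ x ∈ W, t₀ ≤ ρ x ∧ ρ x ≤ s) :
    ∃ T : Finset (Eu S.A), (T : Set (Eu S.A)) ⊆ W ∧ ∑ i ∈ T, ρ i ^ j ≤ (40 / ε) ^ j * s ^ j ∧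
      ∀ x ∈ W, ∃ i ∈ T, S.Slab f j (ε * ρ i / 4) i x := by
  set φ : Eu S.A → Fin j → ℝ := fun x a => f a x with hφ
  obtain ⟨u, hu, h1, h2⟩ := Vitali.exists_disjoint_subfamily_covering_enlargement_closedBall W φ
    (fun x => ε * ρ x / 20) s (fun x hx => by nlinarith [hρ x hx]) 5 (by norm_num)
  have key : ∀ T : Finset (Eu S.A), (T : Set (Eu S.A)) ⊆ u →
      ∑ i ∈ T, (ε * ρ i / 20) ^ j ≤ (2 * s) ^ j := by
    intro T hT
    have := pack_sum T φ (fun x => ε * ρ x / 20) (φ y) (r := 2 * s) (by linarith)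
      (fun i hi => by have := (hρ i (hu (hT hi))).1; have : 0 < ρ i := by linarith
                      positivity)
      (fun i hi => by
        have hi' := hW (hu (hT hi))
        have h3 : ‖φ i - φ y‖ ≤ s := by
          refine (pi_norm_le_iff_of_nonneg hs.le).2 fun a => ?_
          have := hF.lip hy hi'.1 (by linarith [hi'.2]) a.2
          simp only [hφ, Pi.sub_apply, Real.norm_eq_abs]
          linarith [hi'.2]
        nlinarith [hρ i (hu (hT hi))])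
      (h1.subset hT)
    simpa using this
  have hfin : u.Finite := by
    by_contra hinf
    obtain ⟨N, hN⟩ := exists_nat_gt ((2 * s) ^ j / (ε * t₀ / 20) ^ j)
    obtain ⟨T, hT, hc⟩ := Set.Infinite.exists_subset_card_eq hinf N
    have h3 := key T hT
    have h4 : ∑ i ∈ T, (ε * t₀ / 20) ^ j ≤ ∑ i ∈ T, (ε * ρ i / 20) ^ j :=
      Finset.sum_le_sum fun i hi => by
        have := (hρ i (hu (hT hi))).1
        gcongr
    rw [Finset.sum_const, hc, nsmul_eq_mul] at h4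
    rw [div_lt_iff₀ (by positivity)] at hN
    linarith
  refine ⟨hfin.toFinset, by simpa using hu, ?_, fun x hx => ?_⟩
  · have h3 := key hfin.toFinset (by simp)
    have h4 : ∀ i, ρ i ^ j = (20 / ε) ^ j * (ε * ρ i / 20) ^ j := fun i => by
      rw [← mul_pow]; congr 1; field_simp
    simp only [h4]
    rw [← Finset.mul_sum]
    calc _ ≤ (20 / ε) ^ j * (2 * s) ^ j := by gcongr
      _ = _ := by rw [← mul_pow, ← mul_pow]; congr 1; ring
  · obtain ⟨b, hb, h3⟩ := h2 x hx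
    have h4 : 0 ≤ ε * ρ x / 20 := by
      have := (hρ x hx).1
      have : 0 < ρ x := by linarith
      positivity
    have h5 := h3 (Metric.mem_closedBall_self h4)
    refine ⟨b, by simpa using hb, fun a ha => ?_⟩
    have h6 := (dist_le_pi_dist (φ x) (φ b) ⟨a, ha⟩).trans (Metric.mem_closedBall.1 h5)
    rw [Real.dist_eq] at h6
    simp only [hφ] at h6
    linarith

/-- the constant of the summed annulus estimate -/
noncomputable def cst (n j : ℕ) (c C KO KO' B : ℝ) : ℝ :=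
  C * (((1 + 32000 / c) ^ n + B) * ((1 + 4 / (c / 10 ^ 7)) ^ n * |KO'|) + |KO| * 10 ^ (j + 1))

/-- sum of the annulus estimates over a finite family of centres -/
lemma sum_ann (hc : 0 < c) (hc1 : c ≤ 1) (hp : p + 1 ≤ k) (hd : n = j + 2 * (p + 1))
    (hC : 0 ≤ C) (hA : Ann n k j p c C) (hO' : ClO n k (j + 1) (c / 10 ^ 6) p KO')
    (hO : ClO n k j c p KO) {S : Ctx n k} {f : ℕ → Eu S.A → ℝ} {y₀ y : Eu S.A} {R s B : ℝ}
    (hF : S.Frame f j c y₀ R) (hy : y ∈ S.X.M) (hs : 0 < s) (hsR : s ≤ c / 10 ^ 6 * R)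
    (hR : S.G.d y₀ y + 4 * s ≤ 0.6 * R) {ι : Type*} (T : Finset ι) (t : ι → Eu S.A) (L : ι → ℕ)
    (φ : ι → Eu S.A → ℝ) (ht : ∀ i ∈ T, t i ∈ S.G.ball y s)
    (hg : ∀ i ∈ T, S.Good f j c R (t i) (s / 2 ^ L i) (4 * s))
    (hφ : ∀ i ∈ T, S.Cut f j (c / 10 ^ 5 * (s / 2 ^ L i)) (t i) (φ i))
    (h1 : ∀ x, ∑ i ∈ T, φ i x ≤ 1) (hB : ∑ i ∈ T, (s / 2 ^ L i) ^ j ≤ B * s ^ j) :
    ∃ a : ι → Eu S.A → ℝ, (∀ i ∈ T, ∀ x ∈ S.X.M, 0 ≤ a i x) ∧
      (∀ i ∈ T, ∀ x ∈ S.X.M, 3 / 2 * (s / 2 ^ L i) ≤ S.G.d (t i) x → S.G.d (t i) x ≤ 3 * s →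
        φ i x * S.Ev f j c R (p + 1) x ≤ a i x) ∧
      S.X.Maj (fun x => ∑ i ∈ T, a i x) (cst n j c C KO KO' B * s ^ j) := by
  classical
  have hR0 := hF.pos
  have hR1 := hF.le_one
  have hs1 : s ≤ R / 10 ^ 6 := by nlinarith
  have hcs : c * s ≤ s := by nlinarith
  have hcs0 : 0 < c * s := mul_pos hc hs
  have hdy : ∀ x ∈ S.G.ball y s, S.G.d y₀ x + 3 * s ≤ 0.6 * R := fun x hx => by
    linarith [S.G.tri _ hF.mem _ hy _ hx.1, hx.2]
  have hsl : ∀ l : ℕ, 0 < s / 2 ^ l ∧ s / 2 ^ l ≤ s := fun l =>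
    ⟨by positivity, div_le_self hs.le (one_le_pow₀ one_le_two)⟩
  obtain ⟨N, hN1, hN2, hN3⟩ := Geo.cover S.geod S.hinge hy hs.le (ε := c * s / 8000)
    (by positivity) (subset_refl (S.G.ball y s))
  have hN4 : (N.card : ℝ) ≤ (1 + 32000 / c) ^ n := by
    refine hN2.trans (pow_le_pow_left₀ ?_ (add_le_add_right ?_ _) _)
    · have := Real.cosh_pos s
      positivity
    · have := Ctx.cosh_le_two hs.le (by linarith)
      rw [div_le_div_iff₀ (by positivity) hc]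
      nlinarith
  have cen : ∀ (z : Eu S.A) (l : ℕ), ∃ q h, z ∈ S.G.ball y s →
      S.Adp f j c (s / 2 ^ l) q h ∧ S.G.d z q ≤ s / 2 ^ l / 2000 ∧
        ∀ a < j, f a z + c * (s / 2 ^ l) / 4000 ≤ f a q := fun z l => by
    by_cases hz : z ∈ S.G.ball y s
    · obtain ⟨q, h, H⟩ := hF.exists_cen hc hc1 (hsl l).1 ((hsl l).2.trans hsR) hz.1
        (by linarith [hdy z hz, (hsl l).2])
      exact ⟨q, h, fun _ => H⟩
    · exact ⟨z, fun _ => 0, fun h => absurd h hz⟩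
  choose Q H hQ using cen
  have near : ∀ i, ∃ z, i ∈ T → z ∈ N ∧ S.G.d z (t i) < c * s / 8000 := fun i => by
    by_cases hi : i ∈ T
    · obtain ⟨z, hz⟩ := hN3 _ (ht i hi)
      exact ⟨z, fun _ => hz⟩
    · exact ⟨y, fun h => absurd h hi⟩
  choose z hz using near
  set b : ι → ℕ → Eu S.A := fun i l => if l = 0 then z i else t i with hb
  have hbm : ∀ i ∈ T, ∀ l, b i l ∈ S.G.ball y s := fun i hi l => by
    simp only [hb]
    split_ifs
    · exact hN1 (hz i hi).1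
    · exact ht i hi
  have hcen : ∀ i ∈ T, ∀ l, S.Cen f j c (s / 2 ^ l) (t i) (Q (b i l) l) := fun i hi l => by
    obtain ⟨h2, h3, h4⟩ := hQ _ l (hbm i hi l)
    by_cases hl : l = 0
    · subst hl
      have e : b i 0 = z i := by simp [hb]
      rw [e] at h2 h3 h4 ⊢
      have hzm := hN1 (hz i hi).1
      have h5 := (hz i hi).2
      have h6 := S.G.tri _ (ht i hi).1 _ hzm.1 _ h2.mem
      rw [S.G.comm (t i) (z i)] at h6
      simp only [pow_zero, div_one] at h3 h4 ⊢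
      refine ⟨by linarith, fun a ha => ?_⟩
      have h7 := abs_le.1 (hF.lip hzm.1 (ht i hi).1 (by linarith [hdy _ hzm]) ha)
      linarith [h4 a ha]
    · have e : b i l = t i := by simp [hb, hl]
      rw [e] at h2 h3 h4 ⊢
      have := mul_pos hc (hsl l).1
      exact ⟨by linarith [(hsl l).1], fun a ha => by linarith [h4 a ha]⟩
  set O : Eu S.A → ℕ → Eu S.A → ℝ := fun w l => (S.Wf f j c (s / 2 ^ l) (Q w l) (H w l)).indicator
    (S.Od (Function.update f j (H w l)) (j + 1) (c / 10 ^ 6) (c / 10 ^ 6 * (s / 2 ^ l)) p) with hOd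
  have O0 : ∀ w l x, 0 ≤ O w l x := fun w l x =>
    indicator_nonneg (fun x hx => Ctx.wf_Od_nonneg hc hc1 hx (by omega)) x
  set B' : ℝ := (1 + 4 / (c / 10 ^ 7)) ^ n * |KO'| with hB'
  have B0 : 0 ≤ B' := by positivity
  have OM : ∀ w ∈ S.G.ball y s, ∀ l,
      S.X.Maj (fun x => (s / 2 ^ l)⁻¹ * O w l x) (B' * (s / 2 ^ l) ^ j) := fun w hw l => by
    have h2 := hO'.wf hc hc1 f (H w l) (hQ w l hw).1.mem (hsl l).1 (by linarith [(hsl l).2])
    refine (Emb.Maj.smul h2 (c := (s / 2 ^ l)⁻¹) (by positivity)).mono (fun x _ => le_rfl)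
      (le_of_eq ?_)
    rw [show n - 2 * p - 1 = j + 1 by omega, pow_succ (s / 2 ^ l) j, ← hB', ← mul_assoc B',
      mul_comm _ (s / 2 ^ l), inv_mul_cancel_left₀ (hsl l).1.ne']
  set D : Eu S.A → ℝ := (S.G.ball y (5 * s)).indicator (S.Od f j c R p) with hD
  have D0 : ∀ x, 0 ≤ D x := fun x => indicator_nonneg (fun x hx => hF.Od_nonneg hc hc1
    (S.G.ball_subset_ball hF.mem hy (by linarith) hx) (by omega)) x
  have DM : S.X.Maj (fun x => R⁻¹ * D x) (|KO| * 10 ^ (j + 1) * s ^ j) := by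
    have h2 := hO.loc hc hc1 (by omega) hF hy (s := 5 * s) (by linarith) (by linarith)
    refine (Emb.Maj.smul h2 (c := R⁻¹) (by positivity)).mono (fun x _ => le_rfl) ?_
    rw [show n - 2 * p - 1 = j + 1 by omega, show 2 * (5 * s) = 10 * s by ring, mul_pow,
      pow_succ s, inv_mul_le_iff₀ hR0]
    calc _ ≤ |KO| * (10 ^ (j + 1) * (s ^ j * R)) := by
          gcongr
          · exact le_abs_self _
          · linarith
      _ = _ := by ring
  have main : ∀ i, ∃ a F : Eu S.A → ℝ, i ∈ T → ContinuousOn a S.X.M ∧ (∀ x ∈ S.X.M, 0 ≤ a x) ∧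
      S.X.IsDiv F ∧ (∀ x ∈ S.X.M, 3 / 2 * (s / 2 ^ L i) ≤ S.G.d (t i) x →
        S.G.d (t i) x ≤ 3 * s → φ i x * S.Ev f j c R (p + 1) x ≤ a x) ∧
      ∀ x ∈ S.X.M, a x ≤ F x + C * (φ i x * ∑ w ∈ N, (s / 2 ^ 0)⁻¹ * O w 0 x +
        (s / 2 ^ L i)⁻¹ * O (b i (L i)) (L i) x + φ i x * (R⁻¹ * D x)) := fun i => by
    by_cases hi : i ∈ T
    swap
    · exact ⟨fun _ => 0, fun _ => 0, fun h => absurd h hi⟩
    obtain ⟨a, F, h2, h3, h4, h5, h6⟩ := hA S f y₀ R hF (t i) (ht i hi).1 s hs hsR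
      (by linarith [hdy _ (ht i hi)]) (L i) (fun l => Q (b i l) l) (fun l => H (b i l) l)
      (fun l _ => ⟨(hQ _ l (hbm i hi l)).1, hcen i hi l⟩) (hg i hi) (Or.inr hd) (φ i) (hφ i hi)
    refine ⟨a, F, fun _ => ⟨h2, h3, h4, h5, fun x hx => (h6 x hx).trans ?_⟩⟩
    have p0 := (hφ i hi).nonneg x
    have p1 := (hφ i hi).le_one x
    have e0 : ((n - j - 2 * (p + 1) : ℕ) : ℝ) = 0 := by
      rw [show n - j - 2 * (p + 1) = 0 by omega, Nat.cast_zero]
    have e1 : (S.Wf f j c s (Q (b i 0) 0) (H (b i 0) 0)).indicator (S.Od (Function.update f j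
        (H (b i 0) 0)) (j + 1) (c / 10 ^ 6) (c / 10 ^ 6 * s) p) x / s ≤
        ∑ w ∈ N, (s / 2 ^ 0)⁻¹ * O w 0 x := by
      refine le_trans (le_of_eq ?_) (Finset.single_le_sum (f := fun w => (s / 2 ^ 0)⁻¹ * O w 0 x)
        (fun w _ => mul_nonneg (by positivity) (O0 w 0 x)) (hz i hi).1)
      simp only [hOd, hb, if_true, pow_zero, div_one]
      rw [div_eq_inv_mul]
    have e2 : (S.G.ball (t i) (4 * s)).indicator (S.Od f j c R p) x / R ≤ R⁻¹ * D x := by
      rw [div_eq_inv_mul]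
      refine mul_le_mul_of_nonneg_left ?_ (by positivity)
      by_cases hx' : x ∈ S.G.ball (t i) (4 * s)
      · rw [indicator_of_mem hx', hD, indicator_of_mem
          (S.G.ball_subset_ball hy (ht i hi).1 (by linarith [(ht i hi).2]) hx')]
      · rw [indicator_of_notMem hx']; exact D0 x
    have e3 : 0 ≤ (s / 2 ^ L i)⁻¹ * O (b i (L i)) (L i) x :=
      mul_nonneg (by positivity) (O0 _ _ x)
    rw [e0, zero_mul, zero_add, mul_assoc, div_eq_inv_mul _ (s / 2 ^ L i)]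
    refine add_le_add_right (mul_le_mul_of_nonneg_left ?_ hC) _
    have e4 := mul_le_mul_of_nonneg_left e1 p0
    have e5 := mul_le_mul_of_nonneg_left e2 p0
    have e6 := mul_le_of_le_one_left e3 p1
    simp only [mul_add]
    exact add_le_add (add_le_add e4 e6) e5
  choose a F haF using main
  refine ⟨a, fun i hi => (haF i hi).2.1, fun i hi => (haF i hi).2.2.2.1, ?_⟩
  have M1 := Emb.Maj.sum N fun w hw => OM w (hN1 hw) 0
  have M2 := Emb.Maj.sum T fun i hi => OM _ (hbm i hi (L i)) (L i)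
  have M3 := (((M1.add M2).add DM).smul hC).of_div (a := fun x => ∑ i ∈ T, a i x)
    (continuousOn_finsetSum T fun i hi => (haF i hi).1)
    (fun x hx => Finset.sum_nonneg fun i hi => (haF i hi).2.1 x hx)
    (Emb.IsDiv.sum T fun i hi => (haF i hi).2.2.1) (fun x hx => by
      refine (Finset.sum_le_sum fun i hi => (haF i hi).2.2.2.2 x hx).trans ?_
      rw [Finset.sum_add_distrib, ← Finset.mul_sum, Finset.sum_add_distrib,
        Finset.sum_add_distrib, ← Finset.sum_mul, ← Finset.sum_mul]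
      refine add_le_add_right (mul_le_mul_of_nonneg_left ?_ hC) _
      refine add_le_add (add_le_add_left (mul_le_of_le_one_left ?_ (h1 x)) _)
        (mul_le_of_le_one_left (mul_nonneg (by positivity) (D0 x)) (h1 x))
      exact Finset.sum_nonneg fun w _ => mul_nonneg (by positivity) (O0 w 0 x))
  refine M3.mono (fun x _ => le_rfl) ?_
  rw [cst, mul_assoc C]
  refine mul_le_mul_of_nonneg_left ?_ hC
  rw [Finset.sum_const, nsmul_eq_mul, ← Finset.mul_sum, pow_zero, div_one, ← hB']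
  have e1 := mul_le_mul_of_nonneg_right hN4 (show 0 ≤ B' * s ^ j by positivity)
  have e2 := mul_le_mul_of_nonneg_left hB B0
  nlinarith

end ECritAux

open ECritAux

/-- one step of the induction on critical scales in the critical degree -/
theorem clG_crit {n k j p m : ℕ} {c C KO KO' K : ℝ} (hc : 0 < c) (hc1 : c ≤ 1)
    (hp : p + 1 ≤ k) (hd : n = j + 2 * (p + 1)) (hC : 0 ≤ C) (hA : Ann n k j p c C)
    (hO' : ClO n k (j + 1) (c / 10 ^ 6) p KO')
    (hO : ClO n k j c p KO) (hG : ClG n k j c (p + 1) (m + 1) K) :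
    ∃ K', ClG n k j c (p + 1) m K' := by
  classical
  have hK := hG.1
  set ε : ℝ := c / 10 ^ 5 / 3 with hε
  have ε0 : 0 < ε := by positivity
  have ε1 : ε ≤ 1 := by rw [hε]; linarith
  have he : n - 2 * (p + 1) = j := by omega
  refine ⟨(1 + 4 / (1 / 400)) ^ n * K + cst n j c C KO KO' (4 ^ j * (40 / ε) ^ j) +
    (6 ^ j + (1 + 4 / (1 / 4800)) ^ n * K) * (40 / ε) ^ j, by unfold cst; positivity,
    fun S f y₀ R hF y hy s hs hsR hR => ?_⟩
  have hR0 := hF.pos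
  have hR1 := hF.le_one
  have hs1 : s ≤ R / 10 ^ 6 := by nlinarith
  set W := S.G.ball y s ∩ {x | S.Gm f j c R x m (400 * s)} with hW
  have hdy : ∀ x ∈ W, S.G.d y₀ x + 3 * s ≤ 0.6 * R := fun x hx => by
    linarith [S.G.tri _ hF.mem _ hy _ hx.1.1, hx.1.2]
  have bad : S.X.Bd (S.Ev f j c R (p + 1)) (W ∩ {x | ¬S.Good f j c R x s (4 * s)})
      ((1 + 4 / (1 / 400)) ^ n * K * s ^ j) := by
    refine (bad_cover hG hF hy hs (by linarith) (θ := 1 / 400) (by norm_num) (by linarith)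
      (fun x hx => hx.1.1) (fun x hx => by linarith [hdy x hx.1])
      (fun x hx => (Ctx.Gm.succ hx.1.2 hx.2).anti (by linarith))).up ?_
    rw [he, mul_assoc]
    gcongr
    linarith
  obtain ⟨τ, hτ, hsm⟩ := hF.small hc (p := p) (by omega)
  set t₀ := min (τ / 12) s with ht₀
  have t0 : 0 < t₀ := by positivity
  have t1 : t₀ ≤ τ / 12 := min_le_left _ _
  have t2 : t₀ ≤ s := min_le_right _ _
  set A : Eu S.A → Set ℝ := fun x => {r | t₀ ≤ r ∧ ∃ x' ∈ W, S.Good f j c R x' r (4 * s) ∧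
    S.Slab f j (ε * r) x x'} with hAd
  set Wg := W ∩ {x | S.Good f j c R x s (4 * s)} with hWg
  have bdd : ∀ x, BddBelow (A x) := fun x => ⟨t₀, fun r hr => hr.1⟩
  have hsA : ∀ x ∈ Wg, s ∈ A x := fun x hx =>
    ⟨t2, x, hx.1, hx.2, fun a _ => by rw [sub_self, abs_zero]; positivity⟩
  set ρ : Eu S.A → ℝ := fun x => sInf (A x) with hρd
  have hρ : ∀ x ∈ Wg, t₀ ≤ ρ x ∧ ρ x ≤ s := fun x hx =>
    ⟨le_csInf ⟨s, hsA x hx⟩ fun r hr => hr.1, csInf_le (bdd x) (hsA x hx)⟩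
  obtain ⟨T, hT, hsum, hcov⟩ := vitali hF hy hs (by linarith) ε0 ε1 t0
    (W := Wg) (fun x hx => hx.1.1) hρ
  have ρ0 : ∀ i ∈ T, 0 < ρ i := fun i hi => t0.trans_le (hρ i (hT hi)).1
  have pick : ∀ i, ∃ (t : Eu S.A) (L : ℕ), i ∈ T → t ∈ W ∧ S.Good f j c R t (s / 2 ^ L) (4 * s) ∧
      S.Slab f j (ε * (s / 2 ^ L)) i t ∧ ρ i ≤ s / 2 ^ L ∧ s / 2 ^ L ≤ 4 * ρ i := fun i => by
    by_cases hi : i ∈ T
    swap
    · exact ⟨y, 0, fun h => absurd h hi⟩
    have h0 := ρ0 i hi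
    obtain ⟨r, hr, h1, h2⟩ : ∃ r ∈ A i, r ≤ s ∧ r ≤ 2 * ρ i := by
      obtain ⟨r, hr, h1⟩ := exists_lt_of_csInf_lt ⟨s, hsA i (hT hi)⟩
        (show sInf (A i) < 2 * ρ i by change ρ i < _; linarith)
      rcases le_total r s with h | h
      · exact ⟨r, hr, h, h1.le⟩
      · exact ⟨s, hsA i (hT hi), le_rfl, by linarith⟩
    have h3 : ρ i ≤ r := csInf_le (bdd i) hr
    have r0 : 0 < r := by linarith
    obtain ⟨L, h4, h5⟩ := exists_nat_pow_near (x := s / r) (y := 2) ((one_le_div r0).2 h1)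
      one_lt_two
    have h6 : r ≤ s / 2 ^ L := by
      rw [le_div_iff₀ (by positivity)]; rw [le_div_iff₀ r0] at h4; linarith
    have h7 : s / 2 ^ L ≤ 2 * r := by
      rw [div_le_iff₀ (by positivity)]; rw [div_lt_iff₀ r0, pow_succ] at h5; linarith
    obtain ⟨-, t, ht, hg, hsl⟩ := hr
    exact ⟨t, L, fun _ => ⟨ht, fun x hx => hg x (h6.trans hx), hsl.mono (by gcongr),
      h3.trans h6, by linarith⟩⟩
  choose t L htL using pick
  obtain ⟨G, -, hcut⟩ := exists_cut j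
  have cut : ∀ i, ∃ ψ, i ∈ T → S.Cut f j (ε * ρ i / 2) i ψ ∧
      ∀ x, S.Slab f j (ε * ρ i / 4) i x → ψ x = 1 := fun i => by
    by_cases hi : i ∈ T
    · have := ρ0 i hi
      obtain ⟨ψ, h1, h2, -⟩ := hcut S f hF.smooth i (ε * ρ i / 2) (by positivity)
      exact ⟨ψ, fun _ => ⟨h1, fun x hx => h2 x (hx.mono (by linarith))⟩⟩
    · exact ⟨fun _ => 0, fun h => absurd h hi⟩
  choose ψ hψ using cut
  obtain ⟨χ, hχ, hpart⟩ := exists_part (S := S) (f := f) (j := j) T fun i hi => (hψ i hi).1.toLv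
  obtain ⟨a, ha0, ha1, ha2⟩ := sum_ann hc hc1 hp hd hC hA hO' hO hF hy hs hsR hR T t L
    (fun i x => ψ i x * χ i x) (B := 4 ^ j * (40 / ε) ^ j) (fun i hi => (htL i hi).1.1)
    (fun i hi => (htL i hi).2.1)
    (fun i hi => ((hψ i hi).1.mul (hχ i hi)).mono fun x hx => by
      obtain ⟨-, -, h1, h2, -⟩ := htL i hi
      refine (h1.symm.trans hx).mono ?_
      have h3 := mul_le_mul_of_nonneg_left h2 ε0.le
      have h4 := mul_pos ε0 (ρ0 i hi)
      have h5 : c / 10 ^ 5 * (s / 2 ^ L i) = 3 * (ε * (s / 2 ^ L i)) := by rw [hε]; ring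
      linarith)
    (fun x => by
      rw [hpart x]
      have := Finset.prod_nonneg (s := T) fun i hi => sub_nonneg.2 ((hψ i hi).1.le_one x)
      linarith)
    (by
      rw [mul_assoc]
      refine le_trans ?_ (mul_le_mul_of_nonneg_left hsum (by positivity))
      rw [Finset.mul_sum]
      refine Finset.sum_le_sum fun i hi => ?_
      rw [← mul_pow]
      exact pow_le_pow_left₀ (by positivity) (htL i hi).2.2.2.2 _)
  set U : Eu S.A → Set (Eu S.A) := fun i => W ∩ {x | S.Slab f j (ε * ρ i / 2) i x} ∩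
    S.G.ball (t i) (3 / 2 * (s / 2 ^ L i)) with hU
  have out : S.X.Bd (S.Ev f j c R (p + 1)) (Wg ∩ {x | ∀ i ∈ T, x ∉ U i})
      (cst n j c C KO KO' (4 ^ j * (40 / ε) ^ j) * s ^ j) := by
    refine Emb.Bd.of_maj ha2 (fun x hx => Finset.sum_nonneg fun i hi => ha0 i hi x hx)
      fun x hx hx' => ?_
    obtain ⟨i₀, hi₀, h1⟩ := hcov x hx'.1
    have h2 : ∑ i ∈ T, ψ i x * χ i x = 1 := by
      rw [hpart x, Finset.prod_eq_zero hi₀ (by rw [(hψ i₀ hi₀).2 x h1, sub_self]), sub_zero]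
    rw [← one_mul (S.Ev f j c R (p + 1) x), ← h2, Finset.sum_mul]
    refine Finset.sum_le_sum fun i hi => ?_
    by_cases h3 : ψ i x = 0
    · rw [h3, zero_mul, zero_mul]; exact ha0 i hi x hx
    have h4 := (hψ i hi).1.slab x (subset_tsupport _ h3)
    have h5 := (htL i hi).1.1
    refine ha1 i hi x hx (not_lt.1 fun h6 => hx'.2 i hi ⟨⟨hx'.1.1, h4⟩, hx, h6⟩) ?_
    have h7 := S.G.tri _ h5.1 _ hy _ hx
    rw [S.G.comm (t i) y] at h7
    linarith [h5.2, hx'.1.1.1.2]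
  have inn : ∀ i ∈ T, S.X.Bd (S.Ev f j c R (p + 1)) (U i)
      ((6 ^ j + (1 + 4 / (1 / 4800)) ^ n * K) * ρ i ^ j) := fun i hi => by
    have h0 := ρ0 i hi
    have h1 := (hρ i (hT hi)).2
    obtain ⟨h2, -, -, -, h3⟩ := htL i hi
    have h4 : U i ⊆ S.G.ball (t i) (6 * ρ i) := fun x hx => S.G.ball_mono _ (by linarith) hx.2
    rw [add_mul]
    rcases lt_or_ge (ρ i) (2 * t₀) with h | h
    · refine ((hsm (t i) h2.1.1 (6 * ρ i) (by linarith) (by linarith)
        (by linarith [hdy _ h2])).subset h4).up ?_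
      rw [he, mul_pow]
      exact le_add_of_nonneg_right (by positivity)
    · refine (bad_cover hG hF h2.1.1 (r := 6 * ρ i) (by linarith) (by linarith) (θ := 1 / 4800)
        (by norm_num) (by linarith) h4 (fun x hx => by linarith [hdy x hx.1.1])
        (fun x hx => (Ctx.Gm.succ (r := ρ i / 2) hx.1.1.2 fun hg => ?_).anti (by linarith))).up ?_
      · have : ρ i ≤ ρ i / 2 := csInf_le (bdd i)
          ⟨by linarith, x, hx.1.1, hg, Ctx.Slab.mono hx.1.2 (le_of_eq (by ring))⟩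
        linarith
      · rw [he, mul_assoc]
        refine le_add_of_nonneg_of_le (by positivity) ?_
        gcongr
        linarith
  have inn' := Emb.Bd.biUnion T inn (W := {x | ∃ i ∈ T, x ∈ U i}) fun x hx => hx
  refine ((bad.union out subset_rfl).union inn' fun x hx => ?_).up ?_
  · by_cases h1 : ∃ i ∈ T, x ∈ U i
    · exact Or.inr h1
    · by_cases h2 : S.Good f j c R x s (4 * s)
      · exact Or.inl (Or.inr ⟨⟨hx, h2⟩, fun i hi h => h1 ⟨i, hi, h⟩⟩)
      · exact Or.inl (Or.inl ⟨hx, h2⟩)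
  · rw [he, ← Finset.mul_sum, add_mul _ _ (s ^ j), add_mul _ _ (s ^ j),
      mul_assoc _ ((40 / ε) ^ j) (s ^ j)]
    gcongr

end Pool.Agent.AlEmb
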