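import Pool.Agent.Lib.MP_3fa020_gt.EDefs2

/-!
Truncated distance functions and their smoothings.
-/

namespace Pool.Agent.AlEmb

open Set Filter Topology MeasureTheory
open scoped InnerProductSpace ContDiff

namespace EGeoAAux

variable {A n k : ℕ}

lemma fderiv_gr {X : Emb A n} {x : Eu A} (hx : x ∈ X.M) (g : Eu A → ℝ) {w : Eu A}
    (hw : X.P x w = w) : fderiv ℝ g x w = ⟪X.gr g x, w⟫_ℝ := by
  rw [Emb.gr, (Emb.isProj hx).symm, hw, inner_grad]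

lemma gr_tan {X : Emb A n} {x : Eu A} (hx : x ∈ X.M) (g : Eu A → ℝ) :
    X.P x (X.gr g x) = X.gr g x := (Emb.isProj hx).idem _

lemma gr_cont (X : Emb A n) {g : Eu A → ℝ} (hg : ContDiff ℝ ∞ g) (x : Eu A) :
    ContinuousAt (X.gr g) x :=
  (X.P_smooth.continuous.continuousAt).clm_apply (cda_grad hg.contDiffAt).continuousAt

lemma cosh_small {u : ℝ} (h0 : 0 ≤ u) (h1 : u ≤ 1 / 100) : Real.cosh u ≤ 1.01 := by
  have h2 : Real.cosh u ≤ Real.exp u := by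
    rw [Real.cosh_eq]
    have : Real.exp (-u) ≤ Real.exp u := Real.exp_le_exp.2 (by linarith)
    linarith
  have h3 : Real.exp u ≤ 1 / (1 - u) := Real.exp_bound_div_one_sub_of_interval h0 (by linarith)
  have h4 : Real.cosh u ≤ 2 := by
    refine h2.trans (h3.trans ?_)
    rw [div_le_iff₀ (by linarith)]; linarith
  have h5 := EPackAux.cosh_le (u := u) (r := u) (abs_of_nonneg h0).le
  have h6 : Real.cosh u ^ 2 ≤ 4 := by nlinarith [Real.cosh_pos u]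
  have h7 : u ^ 2 ≤ 1 / 10000 := by nlinarith
  nlinarith [mul_le_mul h6 h7 (sq_nonneg u) (by norm_num)]

lemma cosh_mono {u v : ℝ} (h0 : 0 ≤ u) (h : u ≤ v) : Real.cosh u ≤ Real.cosh v := by
  rw [Real.cosh_le_cosh, abs_of_nonneg h0, abs_of_nonneg (h0.trans h)]; exact h

lemma sinh_small {u : ℝ} (h0 : 0 ≤ u) (h1 : u ≤ 1 / 100) : Real.sinh u ≤ 1.01 * u := by
  have h2 := EPackAux.sinh_le_mul_cosh h0
  have h3 := cosh_small h0 h1
  nlinarith

lemma kappa_small {u : ℝ} (h0 : 0 ≤ u) (h1 : u ≤ 1 / 100) : Real.cosh u - 1 ≤ 0.6 * u ^ 2 := by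
  have h5 := EPackAux.cosh_le (u := u) (r := u) (abs_of_nonneg h0).le
  have h3 := cosh_small h0 h1
  have h6 : Real.cosh u ^ 2 ≤ 1.1 := by nlinarith [Real.cosh_pos u]
  nlinarith [mul_le_mul_of_nonneg_right h6 (sq_nonneg u), sq_nonneg u]

/-- `ρ` is the distance to `B` truncated at level `T` -/
structure IsDist {X : Emb A n} (G : Geo X) (B : Set (Eu A)) (T : ℝ) (ρ : Eu A → ℝ) : Prop where
  sub : B ⊆ X.M
  nonneg : ∀ x ∈ X.M, 0 ≤ ρ x
  le_T : ∀ x ∈ X.M, ρ x ≤ T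
  le_d : ∀ x ∈ X.M, ∀ z ∈ B, ρ x ≤ G.d x z
  att : ∀ x ∈ X.M, ρ x = T ∨ ∃ z ∈ B, ρ x = G.d x z

section Dist

variable {X : Emb A n} {G : Geo X} {B : Set (Eu A)} {T : ℝ} {ρ : Eu A → ℝ}

lemma IsDist.lip (h : IsDist G B T ρ) {x x' : Eu A} (hx : x ∈ X.M) (hx' : x' ∈ X.M) :
    ρ x' ≤ ρ x + G.d x x' := by
  rcases h.att x hx with e | ⟨z, hz, e⟩
  · have := h.le_T x' hx'
    have := G.nonneg x x'
    linarith
  · have h1 := h.le_d x' hx' z hz
    have h2 := G.tri x' hx' x hx z (h.sub hz)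
    rw [G.comm x' x] at h2
    linarith

lemma IsDist.cont (h : IsDist G B T ρ) : ContinuousOn ρ X.M := by
  intro x hx
  rw [Metric.continuousWithinAt_iff']
  intro ε hε
  have h1 : ∀ᶠ z in 𝓝[X.M] x, G.d x z < ε := by
    refine (G.continuousOn_d hx x hx).eventually (gt_mem_nhds ?_)
    rw [G.self x hx]; exact hε
  filter_upwards [h1, self_mem_nhdsWithin] with z h2 hz
  have h3 := h.lip hx hz
  have h4 := h.lip hz hx
  rw [G.comm z x] at h4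
  rw [Real.dist_eq, abs_lt]
  constructor <;> linarith

lemma exists_isDist (G : Geo X) (hB : IsClosed B) (hBM : B ⊆ X.M) (hT : 0 ≤ T) :
    ∃ ρ, IsDist G B T ρ := by
  have key : ∀ x, ∃ r : ℝ, x ∈ X.M → 0 ≤ r ∧ r ≤ T ∧ (∀ z ∈ B, r ≤ G.d x z) ∧
      (r = T ∨ ∃ z ∈ B, r = G.d x z) := by
    intro x
    by_cases hx : x ∈ X.M
    · rcases B.eq_empty_or_nonempty with rfl | hne
      · exact ⟨T, fun _ => ⟨hT, le_rfl, by simp, Or.inl rfl⟩⟩
      · obtain ⟨z, hz, hmin⟩ := (X.cpt.of_isClosed_subset hB hBM).exists_isMinOn hne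
          ((G.continuousOn_d hx).mono hBM)
        refine ⟨min T (G.d x z), fun _ => ⟨le_min hT (G.nonneg _ _), min_le_left _ _,
          fun z' hz' => (min_le_right _ _).trans (hmin hz'), ?_⟩⟩
        rcases min_choice T (G.d x z) with e | e
        · exact Or.inl e
        · exact Or.inr ⟨z, hz, e⟩
    · exact ⟨0, fun h => absurd h hx⟩
  choose ρ hρ using key
  exact ⟨ρ, hBM, fun x hx => (hρ x hx).1, fun x hx => (hρ x hx).2.1,
    fun x hx => (hρ x hx).2.2.1, fun x hx => (hρ x hx).2.2.2⟩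

/-- admissible barrier gradients -/
def Gr (G : Geo X) (B : Set (Eu A)) (T m : ℝ) (ρ : Eu A → ℝ) (x g : Eu A) : Prop :=
  (g = 0 ∧ (ρ x = 0 ∨ ρ x = T)) ∨ ∃ γ u : ℝ → Eu A, G.IsGeod γ u (ρ x) ∧ γ 0 = x ∧
    γ (ρ x) ∈ B ∧ g = -(Real.sinh (ρ x) / m) • u 0

lemma IsDist.barrier (h : IsDist G B T ρ) (hg : G.HasGeod) (hb : G.Barrier) {m : ℝ}
    (hm : 0 < m) {x : Eu A} (hx : x ∈ X.M) : ∃ g, Gr G B T m ρ x g ∧ ∀ ε > 0,
      ∀ᶠ z in 𝓝[X.M] x, (Real.cosh (ρ z) - 1) / m ≤ (Real.cosh (ρ x) - 1) / m + ⟪g, z - x⟫_ℝ +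
        (Real.cosh T / m + ε) / 2 * ‖z - x‖ ^ 2 := by
  have hcT : 0 < Real.cosh T / m := div_pos (Real.cosh_pos T) hm
  rcases h.att x hx with e | ⟨q, hq, e⟩
  · refine ⟨0, Or.inl ⟨rfl, Or.inr e⟩, fun ε hε => ?_⟩
    filter_upwards [self_mem_nhdsWithin] with z hz
    have h1 := cosh_mono (h.nonneg z hz) (h.le_T z hz)
    rw [e, inner_zero_left]
    have h2 : (Real.cosh (ρ z) - 1) / m ≤ (Real.cosh T - 1) / m := by gcongr
    have h3 : 0 ≤ (Real.cosh T / m + ε) / 2 * ‖z - x‖ ^ 2 := by positivity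
    linarith
  · have hqM := h.sub hq
    have hle : Real.cosh (ρ x) ≤ Real.cosh T := cosh_mono (h.nonneg x hx) (h.le_T x hx)
    by_cases hxq : x = q
    · subst hxq
      rw [G.self x hx] at e
      refine ⟨0, Or.inl ⟨rfl, Or.inl e⟩, fun ε hε => ?_⟩
      filter_upwards [hb.2 x hx (m * ε) (by positivity), self_mem_nhdsWithin] with z h1 hz
      have h2 := cosh_mono (h.nonneg z hz) (h.le_d z hz x hq)
      rw [e, Real.cosh_zero] at hle
      rw [e, inner_zero_left, Real.cosh_zero, div_le_iff₀ hm]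
      have h3 : ((1 - 1) / m + 0 + (Real.cosh T / m + ε) / 2 * ‖z - x‖ ^ 2) * m =
          (Real.cosh T + m * ε) / 2 * ‖z - x‖ ^ 2 := by field_simp; ring
      rw [h3]
      have h4 : (1 + m * ε) / 2 * ‖z - x‖ ^ 2 ≤ (Real.cosh T + m * ε) / 2 * ‖z - x‖ ^ 2 := by
        gcongr
      linarith
    · obtain ⟨γ, u, hγ, h0, hl⟩ := hg x hx q hqM hxq
      have hpos := G.pos hx hqM hxq
      rw [← e] at hγ hl hpos
      refine ⟨_, Or.inr ⟨γ, u, hγ, h0, hl ▸ hq, rfl⟩, fun ε hε => ?_⟩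
      have hb1 := hb.1 γ u _ hγ hpos (m * ε) (by positivity)
      rw [h0, hl] at hb1
      filter_upwards [hb1, self_mem_nhdsWithin] with z h1 hz
      have h2 := cosh_mono (h.nonneg z hz) (h.le_d z hz q hq)
      rw [div_le_iff₀ hm, real_inner_smul_left]
      have h3 : ((Real.cosh (ρ x) - 1) / m + -(Real.sinh (ρ x) / m) * ⟪u 0, z - x⟫_ℝ +
          (Real.cosh T / m + ε) / 2 * ‖z - x‖ ^ 2) * m = Real.cosh (ρ x) - 1 -
          Real.sinh (ρ x) * ⟪u 0, z - x⟫_ℝ + (Real.cosh T + m * ε) / 2 * ‖z - x‖ ^ 2 := by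
        field_simp; ring
      rw [h3]
      have h4 : (Real.cosh (ρ x) + m * ε) / 2 * ‖z - x‖ ^ 2 ≤
          (Real.cosh T + m * ε) / 2 * ‖z - x‖ ^ 2 := by gcongr
      linarith

lemma IsDist.gr_bound (h : IsDist G B T ρ) {m : ℝ} (hm : 0 < m) (hT : Real.sinh T ≤ 3 / 4 * m)
    {x : Eu A} (hx : x ∈ X.M) {g : Eu A} (hg : Gr G B T m ρ x g) :
    ‖g‖ ≤ 3 / 4 ∧ X.P x g = g := by
  rcases hg with ⟨rfl, -⟩ | ⟨γ, u, hγ, h0, -, rfl⟩
  · exact ⟨by norm_num, by simp⟩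
  · have hz : (0 : ℝ) ∈ Icc 0 (ρ x) := left_mem_Icc.2 hγ.nonneg
    have h1 : 0 ≤ Real.sinh (ρ x) := Real.sinh_nonneg_iff.2 hγ.nonneg
    have h2 : Real.sinh (ρ x) ≤ Real.sinh T := Real.sinh_le_sinh.2 (h.le_T x hx)
    constructor
    · rw [norm_smul, hγ.unit 0 hz, mul_one, norm_neg, Real.norm_of_nonneg (by positivity),
        div_le_iff₀ hm]
      linarith
    · have := hγ.tan 0 hz
      rw [h0] at this
      rw [map_smul, this]

/-- the smoothed truncated distance function -/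
lemma IsDist.smooth (h : IsDist G B T ρ) (hg : G.HasGeod) (hb : G.Barrier) {m : ℝ}
    (hm : 0 < m) (hT : Real.sinh T ≤ 3 / 4 * m) {f : ℕ → Eu A → ℝ} {j : ℕ}
    (hf : ∀ a < j, ContDiff ℝ ∞ (f a)) {η : ℝ} (hη : 0 < η) :
    ∃ H : Eu A → ℝ, ContDiff ℝ ∞ H ∧ (∀ x ∈ X.M, |H x - (Real.cosh (ρ x) - 1) / m| ≤ η) ∧
      (∀ x ∈ X.M, ∀ w, X.P x w = w → Hess X.P H x w w ≤ (Real.cosh T / m + η) * ‖w‖ ^ 2) ∧
      (∀ x ∈ X.M, ‖X.gr H x‖ ≤ 1) ∧
      ∀ x ∈ X.M, ∀ a < j, ‖X.gr (f a) x‖ ≤ 1 → ∃ x' ∈ X.M, G.d x x' ≤ η ∧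
        (0 < ρ x' → ρ x' < T → ∃ γ u : ℝ → Eu A, G.IsGeod γ u (ρ x') ∧ γ 0 = x' ∧
          γ (ρ x') ∈ B ∧ ⟪X.gr H x, X.gr (f a) x⟫_ℝ ≤
            -(Real.sinh (ρ x') * ⟪u 0, X.gr (f a) x'⟫_ℝ) / m + η) := by
  obtain ⟨r₁, hr₁, hloc⟩ := G.local_le one_pos
  have hu : ∀ a ∈ {a | a < j}, ∀ᶠ r in 𝓝[>] (0 : ℝ), ∀ x ∈ X.M, ∀ z, ‖z - x‖ < r →
      ‖X.gr (f a) z - X.gr (f a) x‖ < η / 2 := by
    intro a ha
    obtain ⟨r, hr, h1⟩ := unif_near X.cpt (F := X.gr (f a)) (fun x _ => gr_cont X (hf a ha) x)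
      (half_pos hη)
    filter_upwards [nhdsWithin_le_nhds (gt_mem_nhds hr)] with s hs x hx z hz
    exact h1 x hx z (hz.trans hs)
  have hu' := (eventually_all_finite (Set.finite_lt_nat j)).2 hu
  have hs : ∀ᶠ r in 𝓝[>] (0 : ℝ), r < min r₁ (min (η / 2) (1 / 4)) :=
    nhdsWithin_le_nhds (gt_mem_nhds (by positivity))
  obtain ⟨ε, ⟨e1, e2⟩, hε⟩ := ((hu'.and hs).and self_mem_nhdsWithin).exists
  have hε : 0 < ε := hε
  rw [lt_min_iff, lt_min_iff] at e2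
  obtain ⟨e2, e3, e4⟩ := e2
  have hFc : ContinuousOn (fun x => (Real.cosh (ρ x) - 1) / m) X.M :=
    ((Real.continuous_cosh.comp_continuousOn h.cont).sub continuousOn_const).div_const m
  obtain ⟨H, hH, hP⟩ := X.smoothing _ hFc (β := Real.cosh T / m) (L := 3 / 4)
    (div_pos (Real.cosh_pos T) hm).le (Gr G B T m ρ)
    (fun x hx g hg => h.gr_bound hm hT hx hg) (fun x hx => h.barrier hg hb hm hx) hε
  refine ⟨H, hH, fun x hx => (hP x hx).1.trans (by linarith), fun x hx w hw => ?_,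
    fun x hx => ?_, fun x hx a ha h1 => ?_⟩
  · refine ((hP x hx).2.1 w hw).trans ?_
    gcongr; linarith
  · obtain ⟨x', hx', -, g, hg1, hg2⟩ := (hP x hx).2.2 _ (gr_tan hx H)
    rw [fderiv_gr hx H (gr_tan hx H), real_inner_self_eq_norm_sq] at hg2
    have h1 := (h.gr_bound hm hT hx' hg1).1
    have h2 := real_inner_le_norm g (X.gr H x)
    have h3 := norm_nonneg (X.gr H x)
    have h4 := mul_le_mul_of_nonneg_right h1 h3
    have h5 := mul_le_mul_of_nonneg_right e4.le h3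
    nlinarith
  · obtain ⟨x', hx', hxx, g, hg1, hg2⟩ := (hP x hx).2.2 _ (gr_tan hx (f a))
    rw [fderiv_gr hx H (gr_tan hx (f a))] at hg2
    refine ⟨x', hx', ?_, fun p1 p2 => ?_⟩
    · have := hloc x hx x' hx' (hxx.trans e2)
      linarith
    · have hn := (h.gr_bound hm hT hx' hg1).1
      rcases hg1 with ⟨-, e | e⟩ | ⟨γ, u, hγ, h0, hl, e⟩
      · exact absurd e p1.ne'
      · exact absurd e p2.ne
      · refine ⟨γ, u, hγ, h0, hl, ?_⟩
        have h2 := e1 a ha x hx x' hxx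
        have h3 : ⟪g, X.gr (f a) x⟫_ℝ =
            ⟪g, X.gr (f a) x'⟫_ℝ - ⟪g, X.gr (f a) x' - X.gr (f a) x⟫_ℝ := by
          rw [inner_sub_right]; ring
        have h4 : ⟪g, X.gr (f a) x'⟫_ℝ = -(Real.sinh (ρ x') * ⟪u 0, X.gr (f a) x'⟫_ℝ) / m := by
          rw [e, real_inner_smul_left]; ring
        have h5 := abs_real_inner_le_norm g (X.gr (f a) x' - X.gr (f a) x)
        have h6 := mul_le_mul hn h2.le (norm_nonneg _) (by norm_num)
        have h7 := neg_abs_le ⟪g, X.gr (f a) x' - X.gr (f a) x⟫_ℝ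
        have h8 := mul_le_mul_of_nonneg_left h1 hε.le
        linarith

end Dist

end EGeoAAux

end Pool.Agent.AlEmb
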