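import Pool.Agent.Lib.MP_3fa020_gt.EDefs2
import Pool.Agent.Lib.MP_3fa020_gt.EGeoA1

namespace Pool.Agent.AlEmb

open Set Filter Topology MeasureTheory
open scoped InnerProductSpace ContDiff

namespace EGeoAAux

variable {n k : ℕ} {S : Ctx n k} {f : ℕ → Eu S.A → ℝ} {j : ℕ} {c R : ℝ} {y₀ : Eu S.A}

lemma geod_ball (hy : y₀ ∈ S.X.M) {γ u : ℝ → Eu S.A} {l : ℝ} (hγ : S.G.IsGeod γ u l) {t₀ : ℝ}
    (ht₀ : t₀ ∈ Icc 0 l) (h : S.G.d y₀ (γ t₀) + l < R) {t : ℝ} (ht : t ∈ Icc 0 l) :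
    γ t ∈ S.G.ball y₀ R := by
  refine ⟨hγ.mem t ht, ?_⟩
  have h1 := S.G.tri y₀ hy _ (hγ.mem t₀ ht₀) _ (hγ.mem t ht)
  rw [hγ.dist t₀ ht₀ t ht] at h1
  have h2 : |t₀ - t| ≤ l := by
    rw [abs_le]; constructor <;> linarith [ht₀.1, ht₀.2, ht.1, ht.2]
  linarith

lemma obt_core (hF : S.Frame f j c y₀ R) {γ u : ℝ → Eu S.A} {l : ℝ} (hγ : S.G.IsGeod γ u l)
    {t₀ : ℝ} (ht₀ : t₀ ∈ Icc 0 l) (h : S.G.d y₀ (γ t₀) + l < R) {a : ℕ} (ha : a < j) {δ : ℝ}
    (hδ : 0 ≤ δ) (hgain : f a (γ 0) + δ + l ^ 2 / (2 * R) ≤ f a (γ l)) :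
    δ ≤ Real.sinh l * ⟪u 0, S.X.gr (f a) (γ 0)⟫_ℝ := by
  have hz : (0 : ℝ) ∈ Icc 0 l := left_mem_Icc.2 hγ.nonneg
  have h1 := hγ.semi_ivp ((hF.smooth a ha).of_le (WithTop.coe_le_coe.2 le_top))
    (β := 1 / R) (fun t ht => by
      have := (hF.pt _ (geod_ball hF.mem hγ ht₀ h ht)).hess a ha _ (hγ.tan t ht)
      rwa [hγ.unit t ht, one_pow] at this) (right_mem_Icc.2 hγ.nonneg)
  rw [fderiv_gr (hγ.mem 0 hz) _ (hγ.tan 0 hz), real_inner_comm] at h1
  have h2 : 1 / R * l ^ 2 / 2 = l ^ 2 / (2 * R) := by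
    have := hF.pos.ne'
    field_simp
  have h3 : δ ≤ l * ⟪u 0, S.X.gr (f a) (γ 0)⟫_ℝ := by linarith
  have h4 : l ≤ Real.sinh l := Real.self_le_sinh_iff.2 hγ.nonneg
  rcases le_or_gt 0 ⟪u 0, S.X.gr (f a) (γ 0)⟫_ℝ with h5 | h5
  · exact h3.trans (mul_le_mul_of_nonneg_right h4 h5)
  · have h6 : l = 0 := by
      by_contra h7
      have := mul_neg_of_pos_of_neg (lt_of_le_of_ne hγ.nonneg (Ne.symm h7)) h5
      linarith
    rw [h6] at h3 ⊢
    simpa using h3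

lemma step (hf : ∀ a < j, ContDiff ℝ ∞ (f a)) (hc : 0 < c) {z w : Eu S.A} (hz : z ∈ S.X.M)
    (hw : ‖w‖ ≤ 1) (hP : S.X.P z w = w) (hd : ∀ a < j, c ≤ fderiv ℝ (f a) z w) :
    ∀ᶠ s in 𝓝[>] (0 : ℝ), ∃ z' ∈ S.X.M, S.G.d z z' ≤ 5 / 4 * s ∧
      ∀ a < j, f a z + 3 / 4 * c * s ≤ f a z' := by
  set g : ℝ → Eu S.A := fun s => S.X.pr (z + s • w) with hg
  have h0 : g 0 = z := by simp [hg, S.X.fix z hz]
  have h1 : HasDerivAt (fun t : ℝ => z + t • w) w 0 := by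
    simpa using ((hasDerivAt_id (0 : ℝ)).smul_const w).const_add z
  have hd0 : HasDerivAt g w 0 := by
    have := (S.X.pr_hasFDerivAt (z + (0 : ℝ) • w)).comp_hasDerivAt 0 h1
    simp only [zero_smul, add_zero, hP] at this
    exact this
  have hM : ∀ᶠ s in 𝓝 (0 : ℝ), g s ∈ S.X.M := by
    have h2 : Tendsto (fun t : ℝ => z + t • w) (𝓝 0) (𝓝 z) := by
      simpa using h1.continuousAt.tendsto
    exact h2.eventually (Emb.eventually_pr_mem hz)
  obtain ⟨r, hr, hloc⟩ := S.G.local_le (ε := 1 / 10) (by norm_num)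
  have hr' : ∀ᶠ s in 𝓝 (0 : ℝ), ‖g s - z‖ < r := by
    have h2 : Tendsto g (𝓝 0) (𝓝 z) := by simpa [h0] using hd0.continuousAt.tendsto
    filter_upwards [h2.eventually (Metric.ball_mem_nhds z hr)] with s hs
    simpa [dist_eq_norm] using hs
  have hn : ∀ᶠ s in 𝓝[>] (0 : ℝ), ‖s⁻¹ • (g (0 + s) - g 0)‖ < 11 / 10 :=
    hd0.tendsto_slope_zero_right.norm.eventually (gt_mem_nhds (by linarith))
  have hfa : ∀ a ∈ {a | a < j}, ∀ᶠ s in 𝓝[>] (0 : ℝ),
      3 / 4 * c < s⁻¹ • (f a (g (0 + s)) - f a (g 0)) := by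
    intro a ha
    have h2 : HasFDerivAt (f a) (fderiv ℝ (f a) z) (g 0) := by
      rw [h0]; exact ((hf a ha).differentiable (by simp) z).hasFDerivAt
    have h3 := (h2.comp_hasDerivAt 0 hd0).tendsto_slope_zero_right
    exact h3.eventually (lt_mem_nhds (by linarith [hd a ha]))
  have hfa' := (eventually_all_finite (Set.finite_lt_nat j)).2 hfa
  filter_upwards [nhdsWithin_le_nhds hM, nhdsWithin_le_nhds hr', hn, hfa', self_mem_nhdsWithin]
    with s e1 e2 e3 e4 hs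
  have hs : 0 < s := hs
  rw [zero_add, h0] at e3 e4
  refine ⟨g s, e1, ?_, fun a ha => ?_⟩
  · rw [norm_smul, Real.norm_of_nonneg (inv_pos.2 hs).le, inv_mul_lt_iff₀ hs] at e3
    have := hloc z hz _ e1 e2
    linarith
  · have := e4 a ha
    rw [smul_eq_mul, lt_inv_mul_iff₀ hs] at this
    linarith

end EGeoAAux

open EGeoAAux

namespace Ctx

variable {n k : ℕ} {S : Ctx n k} {f : ℕ → Eu S.A → ℝ} {j : ℕ} {c R : ℝ} {y₀ : Eu S.A}

theorem Frame.lip (hF : S.Frame f j c y₀ R) {x x' : Eu S.A} (hx : x ∈ S.X.M) (hx' : x' ∈ S.X.M)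
    (h : S.G.d y₀ x + S.G.d x x' < R) {a : ℕ} (ha : a < j) : |f a x' - f a x| ≤ S.G.d x x' := by
  by_cases hxx : x = x'
  · subst hxx
    simpa using S.G.nonneg x x
  · obtain ⟨γ, u, hγ, h0, hl⟩ := S.geod x hx x' hx' hxx
    have := hγ.lip ((hF.smooth a ha).of_le (by simp)) (L := 1) (fun t ht =>
      (hF.pt _ (geod_ball hF.mem hγ (left_mem_Icc.2 hγ.nonneg) (by rwa [h0]) ht)).grad a ha)
    rwa [h0, hl, one_mul] at this

/-- pushing inside -/
theorem Frame.push (hF : S.Frame f j c y₀ R) (hc : 0 < c) {x : Eu S.A} (hx : x ∈ S.X.M) {l : ℝ}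
    (hl : 0 ≤ l) (h : S.G.d y₀ x + l < R) :
    ∃ z ∈ S.X.M, S.G.d x z ≤ l ∧ ∀ a < j, f a x + c / 2 * l ≤ f a z := by
  have hK : IsCompact (Icc (0 : ℝ) l ×ˢ S.X.M) := isCompact_Icc.prod S.X.cpt
  have c1 : IsClosed {p ∈ Icc (0 : ℝ) l ×ˢ S.X.M | S.G.d x p.2 ≤ p.1} :=
    hK.isClosed.isClosed_le ((S.G.continuousOn_d hx).comp continuousOn_snd fun p hp => hp.2)
      continuousOn_fst
  have c2 : IsClosed (⋂ a ∈ {a | a < j}, {p : ℝ × Eu S.A | f a x + c / 2 * p.1 ≤ f a p.2}) := by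
    refine isClosed_biInter fun a ha => isClosed_le (by fun_prop) ?_
    exact (hF.smooth a ha).continuous.comp continuous_snd
  have hT := hK.of_isClosed_subset (c1.inter c2) fun p hp => hp.1.1
  obtain ⟨⟨t, z⟩, ⟨⟨⟨ht, hz⟩, hd⟩, hg⟩, hmax⟩ := hT.exists_isMaxOn
    ⟨(0, x), ⟨⟨⟨le_rfl, hl⟩, hx⟩, (S.G.self x hx).le⟩, by simp⟩ continuousOn_fst
  simp only [mem_iInter, mem_ofPred_eq] at ht hz hd hg
  rcases ht.2.eq_or_lt with rfl | hlt
  · exact ⟨z, hz, hd, hg⟩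
  exfalso
  have hb : z ∈ S.G.ball y₀ R := ⟨hz, by linarith [S.G.tri y₀ hF.mem x hx z hz]⟩
  obtain ⟨w, w1, w2, w3⟩ := (hF.pt z hb).dir
  have hs : ∀ᶠ s in 𝓝[>] (0 : ℝ), s < (l - t) / 2 :=
    nhdsWithin_le_nhds (gt_mem_nhds (by linarith))
  obtain ⟨s, ⟨⟨z', hz', e1, e2⟩, e3⟩, hs0⟩ :=
    (((step hF.smooth hc hz w1 w2 w3).and hs).and self_mem_nhdsWithin).exists
  have hs0 : 0 < s := hs0
  have hmem : (t + 5 / 4 * s, z') ∈ {p ∈ Icc (0 : ℝ) l ×ˢ S.X.M | S.G.d x p.2 ≤ p.1} ∩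
      ⋂ a ∈ {a | a < j}, {p : ℝ × Eu S.A | f a x + c / 2 * p.1 ≤ f a p.2} := by
    refine ⟨⟨⟨⟨by linarith [ht.1], by linarith⟩, hz'⟩, ?_⟩, ?_⟩
    · have := S.G.tri x hx z hz z' hz'
      change S.G.d x z' ≤ t + 5 / 4 * s
      linarith
    · simp only [mem_iInter, mem_ofPred_eq]
      intro a ha
      have := mul_pos hc hs0
      linarith [hg a ha, e2 a ha]
  have := hmax hmem
  change t + 5 / 4 * s ≤ t at this
  linarith

theorem Frame.exists_adp (hF : S.Frame f j c y₀ R) (hc : 0 < c) (hc1 : c ≤ 1) {σ : ℝ}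
    {q : Eu S.A} (hσ : 0 < σ) (hσR : σ ≤ c / 10 ^ 6 * R) (hq : q ∈ S.X.M)
    (h : S.G.d y₀ q + 5.5 * σ ≤ R) : ∃ h, S.Adp f j c σ q h := by
  have hR := hF.pos
  have hσ1 : σ ≤ 1 / 10 ^ 6 := by
    have : c * R ≤ 1 := mul_le_one₀ hc1 hR.le hF.le_one
    linarith
  have hcσ : 0 < c * σ := mul_pos hc hσ
  have hcσ1 : c * σ ≤ σ := by nlinarith
  have hcσ2 : c * σ ≤ c := by nlinarith
  have hD : IsDist S.G {q} (7 * σ) (fun x => min (S.G.d q x) (7 * σ)) := by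
    refine ⟨by simpa using hq, fun x _ => le_min (S.G.nonneg _ _) (by positivity),
      fun x _ => min_le_right _ _, fun x _ z hz => ?_, fun x _ => ?_⟩
    · rw [mem_singleton_iff.1 hz, S.G.comm x q]; exact min_le_left _ _
    · rcases min_choice (S.G.d q x) (7 * σ) with e | e
      · exact Or.inr ⟨q, rfl, by rw [e, S.G.comm]⟩
      · exact Or.inl e
  have hch := cosh_small (u := 7 * σ) (by positivity) (by linarith)
  have hsh := sinh_small (u := 7 * σ) (by positivity) (by linarith)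
  obtain ⟨H, hH, h1, h2, h3, h4⟩ := hD.smooth S.geod S.bar (m := 16 * σ) (by positivity)
    (by linarith) hF.smooth (η := c * σ / 10 ^ 6) (by positivity)
  refine ⟨H, hq, hH, fun x hx => (h1 x hx).trans (by linarith), fun x hx w hw => ?_, h3,
    fun x hx hd a ha hg => ?_⟩
  · refine (h2 x hx w hw).trans ?_
    rw [div_eq_inv_mul (‖w‖ ^ 2)]
    gcongr
    rw [← one_div, le_div_iff₀ (by positivity)]
    have e : (Real.cosh (7 * σ) / (16 * σ) + c * σ / 10 ^ 6) * (15 * σ) =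
        15 / 16 * Real.cosh (7 * σ) + 15 * (c * σ) * σ / 10 ^ 6 := by field_simp
    rw [e]
    nlinarith
  · have t1 := S.G.tri y₀ hF.mem q hq x hx
    have hb : x ∈ S.G.ball y₀ R := ⟨hx, by linarith⟩
    obtain ⟨x', hx', d1, hgeo⟩ := h4 x hx a ha ((hF.pt x hb).grad a ha)
    have t2 := S.G.tri q hq x hx x' hx'
    have l1 := abs_le.1 (hF.lip hx hx' (by linarith) ha)
    have hne : q ≠ x' := by
      rintro rfl
      linarith [l1.2]
    have hpos := S.G.pos hq hx' hne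
    have e : min (S.G.d q x') (7 * σ) = S.G.d q x' := min_eq_left (by linarith)
    simp only [e] at hgeo
    obtain ⟨γ, u, hγ, g0, gl, hin⟩ := hgeo hpos (by linarith)
    have gl : γ (S.G.d q x') = q := gl
    have hl2 : S.G.d q x' ^ 2 / (2 * R) ≤ 13 * (c * σ) / 10 ^ 6 := by
      rw [div_le_iff₀ (by positivity)]
      have a1 : S.G.d q x' ^ 2 ≤ (5.01 * σ) ^ 2 := pow_le_pow_left₀ hpos.le (by linarith) 2
      have a2 := mul_le_mul_of_nonneg_left hσR hσ.le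
      nlinarith
    have hcore := obt_core hF hγ (right_mem_Icc.2 hγ.nonneg) (by rw [gl]; linarith) ha
      (δ := 64 * (c * σ) / 10 ^ 6) (by positivity) (by rw [g0, gl]; linarith [l1.2])
    rw [g0] at hcore
    have a3 : -(Real.sinh (S.G.d q x') * ⟪u 0, S.X.gr (f a) x'⟫_ℝ) / (16 * σ) ≤
        -(4 * c / 10 ^ 6) := by
      rw [div_le_iff₀ (by positivity)]
      linarith
    linarith

theorem Frame.exists_adpO (hF : S.Frame f j c y₀ R) (hc : 0 < c) (hc1 : c ≤ 1) {s : ℝ}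
    {y : Eu S.A} (hs : 0 < s) (hsR : s ≤ c / 10 ^ 6 * R) (hy : y ∈ S.X.M)
    (h : S.G.d y₀ y + 3 * s ≤ R) : ∃ h, S.AdpO f j c s y h := by
  have hR := hF.pos
  have hs1 : s ≤ 1 / 10 ^ 6 := by
    have : c * R ≤ 1 := mul_le_one₀ hc1 hR.le hF.le_one
    linarith
  have hcs : 0 < c * s := mul_pos hc hs
  have hcs1 : c * s ≤ s := by nlinarith
  have hcs2 : c * s ≤ c := by nlinarith
  set B : Set (Eu S.A) := {z ∈ S.X.M | 2 * s ≤ S.G.d y z} ∪
    ({z ∈ S.X.M | 1.4 * s ≤ S.G.d y z} ∩ ⋂ a ∈ {a | a < j}, {z | f a y + c * s / 40 ≤ f a z})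
    with hB
  have hBc : IsClosed B := by
    refine IsClosed.union ?_ (IsClosed.inter ?_ ?_)
    · exact S.X.cpt.isClosed.isClosed_le continuousOn_const (S.G.continuousOn_d hy)
    · exact S.X.cpt.isClosed.isClosed_le continuousOn_const (S.G.continuousOn_d hy)
    · exact isClosed_biInter fun a ha =>
        isClosed_le continuous_const (hF.smooth a ha).continuous
  have hBM : B ⊆ S.X.M := by
    rintro z (hz | hz)
    · exact hz.1
    · exact hz.1.1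
  obtain ⟨ρ, hD⟩ := exists_isDist S.G hBc hBM hs.le
  have hch := cosh_small (u := s) hs.le (by linarith)
  have hsh := sinh_small (u := s) hs.le (by linarith)
  obtain ⟨H, hH, h1, h2, h3, h4⟩ := hD.smooth S.geod S.bar (m := 2 * s) (by positivity)
    (by linarith) hF.smooth (η := c * s / 10 ^ 4) (by positivity)
  have big : ∀ x ∈ S.X.M, 0.21 * s ≤ ρ x → s / 100 < H x := by
    intro x hx hρ
    have a1 := (abs_le.1 (h1 x hx)).1
    have a2 := EPackAux.sq_le_cosh (hD.nonneg x hx)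
    have a3 : (0.21 * s) ^ 2 ≤ ρ x ^ 2 := pow_le_pow_left₀ (by positivity) hρ 2
    have a4 : 0.011 * s ≤ (Real.cosh (ρ x) - 1) / (2 * s) := by
      rw [le_div_iff₀ (by positivity)]
      nlinarith
    linarith
  have small : ∀ x ∈ S.X.M, ρ x ≤ s / 10 → H x < s / 200 := by
    intro x hx hρ
    have a1 := (abs_le.1 (h1 x hx)).2
    have a2 := kappa_small (hD.nonneg x hx) (by linarith)
    have a3 : ρ x ^ 2 ≤ (s / 10) ^ 2 := pow_le_pow_left₀ (hD.nonneg x hx) hρ 2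
    have a4 : (Real.cosh (ρ x) - 1) / (2 * s) ≤ 0.003 * s := by
      rw [div_le_iff₀ (by positivity)]
      nlinarith
    linarith
  have outer : ∀ x ∈ S.X.M, S.Slab f j (c / 10 ^ 5 * s) y x → s / 200 ≤ H x →
      S.G.d y x ≤ 3 / 2 * s := by
    intro x hx hsl hH2
    by_contra hcon
    push Not at hcon
    refine absurd (small x hx ?_) (not_lt.2 hH2)
    rcases le_or_gt (2 * s) (S.G.d y x) with p | p
    · have := hD.le_d x hx x (Or.inl ⟨hx, p⟩)
      rw [S.G.self x hx] at this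
      linarith
    · have t1 := S.G.tri y₀ hF.mem y hy x hx
      obtain ⟨z, hz, d1, g1⟩ := hF.push hc hx (l := s / 10) (by positivity) (by linarith)
      have t2 := S.G.tri y hy z hz x hx
      rw [S.G.comm z x] at t2
      refine (hD.le_d x hx z (Or.inr ⟨⟨hz, by linarith⟩, ?_⟩)).trans d1
      simp only [mem_iInter, mem_ofPred_eq]
      intro a ha
      have a1 := (abs_le.1 (hsl a ha)).1
      linarith [g1 a ha]
  refine ⟨H, hH, fun x hx w hw => ?_, h3, fun x hx hd => (big x hx ?_).le, outer,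
    fun x hx hsl p1 p2 a ha => ?_⟩
  · refine (h2 x hx w hw).trans ?_
    rw [div_eq_inv_mul (‖w‖ ^ 2)]
    gcongr
    rw [← one_div, le_div_iff₀ (by positivity)]
    have e : (Real.cosh s / (2 * s) + c * s / 10 ^ 4) * s =
        1 / 2 * Real.cosh s + (c * s) * s / 10 ^ 4 := by field_simp
    rw [e]
    nlinarith
  · rcases hD.att x hx with e | ⟨z, hz, e⟩
    · linarith
    · have t1 := S.G.tri y hy x hx z (hBM hz)
      rcases hz with hz | hz
      · linarith [hz.2]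
      · linarith [hz.1.2]
  · have d0 := outer x hx hsl p1
    have t1 := S.G.tri y₀ hF.mem y hy x hx
    have hb : x ∈ S.G.ball y₀ R := ⟨hx, by linarith⟩
    obtain ⟨x', hx', d1, hgeo⟩ := h4 x hx a ha ((hF.pt x hb).grad a ha)
    have r1 : s / 10 < ρ x := not_le.1 fun p => absurd (small x hx p) (not_lt.2 p1)
    have r2 : ρ x < 0.21 * s := not_le.1 fun p => absurd (big x hx p) (not_lt.2 p2)
    have r3 := hD.lip hx hx'
    have r4 := hD.lip hx' hx
    rw [S.G.comm x' x] at r4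
    obtain ⟨γ, u, hγ, g0, gl, hin⟩ := hgeo (by linarith) (by linarith)
    have l1 := abs_le.1 (hF.lip hx hx' (by linarith) ha)
    have hz0 : (0 : ℝ) ∈ Icc 0 (ρ x') := left_mem_Icc.2 hγ.nonneg
    have hdz : S.G.d x' (γ (ρ x')) = ρ x' := by
      have := hγ.dist 0 hz0 _ (right_mem_Icc.2 hγ.nonneg)
      rwa [g0, zero_sub, abs_neg, abs_of_nonneg hγ.nonneg] at this
    have t2 := S.G.tri y hy x hx x' hx'
    have t3 := S.G.tri y hy x' hx' _ (hBM gl)
    have t4 := S.G.tri y₀ hF.mem y hy x' hx'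
    have hgain : f a y + c * s / 40 ≤ f a (γ (ρ x')) := by
      rcases gl with gl | gl
      · exact absurd gl.2 (not_le.2 (by linarith))
      · have := gl.2
        simp only [mem_iInter, mem_ofPred_eq] at this
        exact this a ha
    have hl2 : ρ x' ^ 2 / (2 * R) ≤ c * s / 10 ^ 6 := by
      rw [div_le_iff₀ (by positivity)]
      have a1 : ρ x' ^ 2 ≤ s ^ 2 := pow_le_pow_left₀ hγ.nonneg (by linarith) 2
      have a2 := mul_le_mul_of_nonneg_left hsR hs.le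
      nlinarith
    have a0 := (abs_le.1 (hsl a ha)).2
    have hcore := obt_core hF hγ hz0 (by rw [g0]; linarith) ha
      (δ := c * s / 50) (by positivity) (by rw [g0]; linarith [l1.2])
    rw [g0] at hcore
    have a3 : -(Real.sinh (ρ x') * ⟪u 0, S.X.gr (f a) x'⟫_ℝ) / (2 * s) ≤ -(c / 100) := by
      rw [div_le_iff₀ (by positivity)]
      linarith
    linarith

end Ctx

end Pool.Agent.AlEmb
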