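import Pool.Agent.Lib.MP_3fa020_gt.EDefs2

/-!
Regular points of the annulus are centres of longer frames.
-/

namespace Pool.Agent.AlEmb

open Set Filter Topology MeasureTheory
open scoped InnerProductSpace ContDiff

namespace EGeoBAux

lemma cosh_le {u : ℝ} (h0 : 0 ≤ u) (h1 : u ≤ 1 / 100) : Real.cosh u - 1 ≤ 0.505 * u ^ 2 := by
  have h2 : u ^ 2 ≤ 1 / 10000 := by nlinarith
  have h3 := Real.cosh_le_exp_half_sq u
  have h4 := Real.abs_exp_sub_one_sub_id_le (x := u ^ 2 / 2)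
    (by rw [abs_of_nonneg (by positivity)]; linarith)
  have h5 := (abs_le.1 h4).2
  nlinarith [sq_nonneg u]

lemma cosh_sub {a b : ℝ} (h0 : 0 ≤ a) (h1 : a ≤ b) :
    a * (b - a) ≤ Real.cosh b - Real.cosh a := by
  have e : Real.cosh b = Real.cosh a * Real.cosh (b - a) + Real.sinh a * Real.sinh (b - a) := by
    rw [← Real.cosh_add, add_sub_cancel]
  have h2 := Real.one_le_cosh (b - a)
  have h3 := Real.cosh_pos a
  have h4 := Real.self_le_sinh_iff.2 h0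
  have h5 := Real.self_le_sinh_iff.2 (sub_nonneg.2 h1)
  have h6 := mul_le_mul h4 h5 (sub_nonneg.2 h1) (h0.trans h4)
  nlinarith

lemma slope_ge {l D r m e : ℝ} (hl : 0 < l) (hr : l ≤ r) (he : 0 < e) (h : m ≤ l * D)
    (hm : e * r ≤ m) : e ≤ D := by
  by_contra h1
  have h2 := mul_lt_mul_of_pos_left (not_le.1 h1) hl
  nlinarith

lemma cd {A : ℕ} {g : Eu A → ℝ} (hg : ContDiff ℝ ∞ g) (m : ℕ) : ContDiff ℝ m g :=
  hg.of_le (by exact_mod_cast le_top)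

variable {n k : ℕ} {S : Ctx n k} {f : ℕ → Eu S.A → ℝ} {j : ℕ} {c R : ℝ} {y₀ : Eu S.A}

lemma geod_mem (hF : S.Frame f j c y₀ R) {γ w : ℝ → Eu S.A} {l : ℝ} (hγ : S.G.IsGeod γ w l)
    (h : S.G.d y₀ (γ 0) + l < R) {t : ℝ} (ht : t ∈ Icc 0 l) : γ t ∈ S.G.ball y₀ R := by
  have h0 : (0 : ℝ) ∈ Icc 0 l := left_mem_Icc.2 hγ.nonneg
  have h1 := S.G.tri y₀ hF.mem _ (hγ.mem 0 h0) _ (hγ.mem t ht)
  rw [hγ.dist 0 h0 t ht, zero_sub, abs_neg, abs_of_nonneg ht.1] at h1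
  exact ⟨hγ.mem t ht, by linarith [ht.2]⟩

lemma lip (hF : S.Frame f j c y₀ R) {x x' : Eu S.A} (hx : x ∈ S.X.M) (hx' : x' ∈ S.X.M)
    (h : S.G.d y₀ x + S.G.d x x' < R) {a : ℕ} (ha : a < j) : |f a x' - f a x| ≤ S.G.d x x' := by
  rcases eq_or_ne x x' with rfl | hne
  · simpa using S.G.nonneg x x
  · obtain ⟨γ, w, hγ, h0, h1⟩ := S.geod x hx x' hx' hne
    have := hγ.lip (L := 1) (cd (hF.smooth a ha) 1) fun t ht =>
      (hF.pt _ (geod_mem hF hγ (by rwa [h0]) ht)).grad a ha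
    rwa [h0, h1, one_mul] at this

/-- the direction towards the point given by regularity -/
lemma key (hF : S.Frame f j c y₀ R) (hc : 0 < c) (hc1 : c ≤ 1) {σ₀ : ℝ}
    {y x x' : Eu S.A} (hσR : σ₀ ≤ c / 10 ^ 6 * R) (hy : y ∈ S.X.M)
    (hyR : S.G.d y₀ y + 6 * σ₀ ≤ R) (hx : x ∈ S.X.M) (h1 : 0 < S.G.d y x)
    (h2 : S.G.d y x ≤ 4 * σ₀) (hR : S.Reg f j c y x) (hx' : x' ∈ S.X.M)
    (he : S.G.d x x' ≤ c / 10 ^ 6 * S.G.d y x) :
    ∃ w, ‖w‖ = 1 ∧ S.X.P x' w = w ∧ (∀ a < j, c / 10 ^ 6 ≤ fderiv ℝ (f a) x' w) ∧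
      ∀ (σ : ℝ) (q : Eu S.A) (h : Eu S.A → ℝ), 0 < σ → S.Adp f j c σ q h →
        S.Cen f j c σ y q → σ ≤ S.G.d y x → S.G.d y x ≤ 4 * σ →
        c / 10 ^ 6 ≤ fderiv ℝ h x' w := by
  obtain ⟨z, hz, z1, z2, z3⟩ := hR
  set r := S.G.d y x with hr
  have he' : S.G.d x x' ≤ r / 10 ^ 6 := he.trans (by nlinarith)
  have t1 := S.G.tri x' hx' x hx z hz
  have t2 := S.G.tri y hy x' hx' z hz
  have t3 := S.G.tri y hy x hx x' hx'
  have t4 := S.G.tri y₀ hF.mem y hy x hx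
  have t5 := S.G.tri y₀ hF.mem y hy x' hx'
  have t6 := S.G.tri y hy x' hx' x hx
  have t7 := S.G.tri y hy x hx z hz
  rw [S.G.comm x' x] at t1 t6
  set l := S.G.d x' z with hl
  have l0 : 0 < l := by linarith
  have l1 : l ≤ r / 99 := by linarith
  have hne : x' ≠ z := by
    rintro rfl
    rw [hl, S.G.self x' hx'] at l0
    exact lt_irrefl _ l0
  obtain ⟨γ, w, hγ, g0, g1⟩ := S.geod x' hx' z hz hne
  rw [← hl] at hγ g1
  have h0 : (0 : ℝ) ∈ Icc 0 l := left_mem_Icc.2 l0.le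
  have hm : ∀ t ∈ Icc 0 l, γ t ∈ S.G.ball y₀ R := fun t ht =>
    geod_mem hF hγ (by rw [g0]; linarith) ht
  have hc6 : 0 < c / 10 ^ 6 := by positivity
  refine ⟨w 0, hγ.unit 0 h0, g0 ▸ hγ.tan 0 h0, fun a ha => ?_,
    fun σ q h hσ hA hC s1 s2 => ?_⟩
  · have i1 := hγ.semi_ivp (β := 1 / R) (cd (hF.smooth a ha) 2) (fun t ht => by
      have := (hF.pt _ (hm t ht)).hess a ha _ (hγ.tan t ht)
      rwa [hγ.unit t ht, one_pow] at this) (right_mem_Icc.2 l0.le)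
    rw [g0, g1] at i1
    have i2 := (abs_le.1 (lip hF hx hx' (by linarith) ha)).2
    have i3 := z2 a ha
    have i4 : 1 / R * l ^ 2 / 2 ≤ c * r / 10 ^ 6 := by
      have hR := hF.pos
      have i5 : l ≤ c / 10 ^ 6 * R := by linarith
      have i6 : l * l ≤ r * (c / 10 ^ 6 * R) := mul_le_mul (by linarith) i5 l0.le h1.le
      rw [div_le_iff₀ two_pos, one_div, inv_mul_le_iff₀ hR]
      have i7 : 0 < r * (c / 10 ^ 6 * R) := by positivity
      nlinarith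
    refine slope_ge (r := r) (m := c / 10 ^ 6 * r) l0 (by linarith) hc6 ?_ le_rfl
    have i8 : 0 < c * r := by positivity
    nlinarith
  · have i1 := hγ.semi_ivp (β := 1 / (15 * σ)) (cd hA.smooth 2) (fun t ht => by
      have := hA.hess _ (hγ.mem t ht) _ (hγ.tan t ht)
      rwa [hγ.unit t ht, one_pow] at this) (right_mem_Icc.2 l0.le)
    rw [g0, g1] at i1
    have q1 := hC.1
    have q2 := abs_le.1 (S.G.abs_sub_le hx' hy hA.mem)
    have q3 := abs_le.1 (S.G.abs_sub_le hz hy hA.mem)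
    rw [S.G.comm x' y, S.G.comm x' q] at q2
    rw [S.G.comm z y, S.G.comm z q] at q3
    have c1 := (abs_le.1 (hA.close x' hx')).2
    have c2 := (abs_le.1 (hA.close z hz)).1
    rw [min_eq_left (by linarith)] at c1 c2
    set a := S.G.d q x'
    set b := S.G.d q z
    have a1 : 0.99 * r ≤ a := by linarith
    have a2 : r / 350 ≤ b - a := by linarith
    have a3 : 0.99 * r * (r / 350) ≤ Real.cosh b - Real.cosh a :=
      (mul_le_mul a1 a2 (by linarith) (by linarith)).trans (cosh_sub (by linarith) (by linarith))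
    have a4 : 0.99 * r / 5600 ≤ (Real.cosh b - 1) / (16 * σ) - (Real.cosh a - 1) / (16 * σ) := by
      rw [← sub_div, le_div_iff₀ (by positivity)]
      nlinarith
    have a5 : 1 / (15 * σ) * l ^ 2 / 2 ≤ r / 50000 := by
      have i6 : l * l ≤ r / 99 * (4 * σ / 99) := mul_le_mul l1 (by linarith) l0.le (by linarith)
      rw [div_le_iff₀ two_pos, one_div, inv_mul_le_iff₀ (by positivity)]
      have i7 : 0 < r * σ := by positivity
      nlinarith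
    refine slope_ge (r := r) (m := c / 10 ^ 6 * r) l0 (by linarith) hc6 ?_ le_rfl
    have i8 : c / 10 ^ 6 * r ≤ r / 10 ^ 6 := by nlinarith
    linarith

end EGeoBAux

namespace Ctx

open EGeoBAux

variable {n k : ℕ} {S : Ctx n k} {f : ℕ → Eu S.A → ℝ} {j : ℕ} {c R : ℝ} {y₀ : Eu S.A}

theorem Adp.upper {σ : ℝ} {y q x : Eu S.A} {h : Eu S.A → ℝ} (hA : S.Adp f j c σ q h)
    (hσ : 0 < σ) (hσ1 : σ ≤ 1 / 10 ^ 6) (hy : y ∈ S.X.M) (hq : S.G.d y q ≤ σ / 1000)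
    (hx : x ∈ S.X.M) : 32 * h x / σ ≤ 1.01 * (S.G.d y x / σ + 1 / 1000) ^ 2 + 1 / 100 := by
  have c1 := (abs_le.1 (hA.close x hx)).2
  have q2 := S.G.tri q hA.mem y hy x hx
  rw [S.G.comm q y] at q2
  set u := min (S.G.d q x) (7 * σ)
  have u0 : 0 ≤ u := le_min (S.G.nonneg _ _) (by positivity)
  have u1 : u ≤ 7 * σ := min_le_right _ _
  have u2 : u ≤ S.G.d q x := min_le_left _ _
  have u3 := cosh_le u0 (by linarith)
  set v := S.G.d y x / σ + 1 / 1000 with hv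
  have u4 : u ≤ v * σ := by
    rw [hv, add_mul, div_mul_cancel₀ _ hσ.ne']
    linarith
  have u5 : u ^ 2 ≤ (v * σ) ^ 2 := pow_le_pow_left₀ u0 u4 2
  have u6 : (Real.cosh u - 1) / (16 * σ) ≤ 1.01 * v ^ 2 * σ / 32 := by
    rw [div_le_iff₀ (by positivity)]
    nlinarith
  rw [div_le_iff₀ hσ]
  nlinarith

theorem Adp.lower {σ : ℝ} {y q x : Eu S.A} {h : Eu S.A → ℝ} (hA : S.Adp f j c σ q h)
    (hσ : 0 < σ) (hy : y ∈ S.X.M) (hq : S.G.d y q ≤ σ / 1000) (hx : x ∈ S.X.M) {t : ℝ}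
    (h1 : 1 / 1000 ≤ t) (h2 : t ≤ 7) (h3 : t * σ ≤ S.G.d y x) :
    (t - 1 / 1000) ^ 2 - 1 / 100 ≤ 32 * h x / σ := by
  have c1 := (abs_le.1 (hA.close x hx)).1
  have q2 := S.G.tri y hy q hA.mem x hx
  set u := min (S.G.d q x) (7 * σ)
  have u4 : (t - 1 / 1000) * σ ≤ u := le_min (by linarith) (by nlinarith)
  have u5 : ((t - 1 / 1000) * σ) ^ 2 ≤ u ^ 2 :=
    pow_le_pow_left₀ (mul_nonneg (by linarith) hσ.le) u4 2
  have u3 := ECompAux.sq_le_cosh u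
  have u6 : (t - 1 / 1000) ^ 2 * σ / 32 ≤ (Real.cosh u - 1) / (16 * σ) := by
    rw [le_div_iff₀ (by positivity)]
    nlinarith
  rw [le_div_iff₀ hσ]
  nlinarith

/-- a regular point of the annulus is the centre of a frame with one more function -/
theorem Frame.new_frame (hF : S.Frame f j c y₀ R) (hc : 0 < c) (hc1 : c ≤ 1) {σ : ℝ}
    {y q x : Eu S.A} {h : Eu S.A → ℝ} (hσ : 0 < σ) (hσR : σ ≤ c / 10 ^ 6 * R) (hy : y ∈ S.X.M)
    (hyR : S.G.d y₀ y + 6 * σ ≤ R) (hA : S.Adp f j c σ q h) (hC : S.Cen f j c σ y q)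
    (hx : x ∈ S.X.M) (h1 : σ ≤ S.G.d y x) (h2 : S.G.d y x ≤ 4 * σ)
    (hS : S.Slab f j (c / 10 ^ 5 * S.G.d y x) y x) (hR : S.Reg f j c y x) :
    x ∈ S.Wf f j c σ q h := by
  have q1 := hC.1
  have q2 := S.G.tri q hA.mem y hy x hx
  rw [S.G.comm q y] at q2
  have t4 := S.G.tri y₀ hF.mem y hy x hx
  have n0 := S.G.nonneg y₀ y
  have e0 : 0 < c / 10 ^ 6 * σ := by positivity
  have e1 : c / 10 ^ 6 * σ ≤ σ / 10 ^ 6 := by nlinarith
  have hlt : ∀ a < j, Function.update f j h a = f a := fun a ha => Function.update_of_ne ha.ne _ _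
  have heq : Function.update f j h j = h := Function.update_self _ _ _
  refine ⟨by linarith, hx, e0, by linarith [hF.le_one], fun a ha => ?_, fun x' hx' => ?_⟩
  · rcases Nat.lt_succ_iff_lt_or_eq.1 ha with ha | rfl
    · rw [hlt a ha]
      exact hF.smooth a ha
    · rw [heq]
      exact hA.smooth
  obtain ⟨hx', d1⟩ := hx'
  have t5 := S.G.tri y₀ hF.mem x hx x' hx'
  have t6 := S.G.tri q hA.mem x hx x' hx'
  have hP := hF.pt x' ⟨hx', by linarith⟩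
  have ho : ∀ b < j, ⟪S.X.gr h x', S.X.gr (f b) x'⟫_ℝ ≤ -(c / 10 ^ 6) := fun b hb => by
    refine hA.obt x' hx' (by linarith) b hb ?_
    have i1 := (abs_le.1 (lip hF hx hx' (by linarith) hb)).2
    have i2 := (abs_le.1 (hS b hb)).2
    have i3 := hC.2 b hb
    have i4 := mul_le_mul_of_nonneg_left h2 hc.le
    have i5 : 0 < c * σ := by positivity
    linarith
  refine ⟨fun a ha w hw => ?_, fun a ha => ?_, fun a ha b hb hab => ?_, ?_⟩
  · rcases Nat.lt_succ_iff_lt_or_eq.1 ha with ha | rfl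
    · rw [hlt a ha]
      exact (hP.hess a ha w hw).trans (div_le_div_of_nonneg_left (by positivity) e0 (by linarith))
    · rw [heq]
      exact (hA.hess x' hx' w hw).trans
        (div_le_div_of_nonneg_left (by positivity) e0 (by linarith))
  · rcases Nat.lt_succ_iff_lt_or_eq.1 ha with ha | rfl
    · rw [hlt a ha]
      exact hP.grad a ha
    · rw [heq]
      exact hA.grad x' hx'
  · rcases Nat.lt_succ_iff_lt_or_eq.1 ha with ha | rfl <;>
      rcases Nat.lt_succ_iff_lt_or_eq.1 hb with hb | rfl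
    · rw [hlt a ha, hlt b hb]
      exact (hP.obt a ha b hb hab).trans (by linarith)
    · rw [hlt a ha, heq, real_inner_comm]
      exact ho a ha
    · rw [hlt b hb, heq]
      exact ho b hb
    · exact absurd rfl hab
  · obtain ⟨w, w1, w2, w3, w4⟩ := key hF hc hc1 hσR hy hyR hx (hσ.trans_le h1) h2 hR hx'
      (d1.le.trans (mul_le_mul_of_nonneg_left h1 (by positivity)))
    refine ⟨w, w1.le, w2, fun a ha => ?_⟩
    rcases Nat.lt_succ_iff_lt_or_eq.1 ha with ha | rfl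
    · rw [hlt a ha]
      exact w3 a ha
    · rw [heq]
      exact w4 σ q h hσ hA hC h1 h2

/-- one direction works for all scales -/
theorem Frame.reg_dir (hF : S.Frame f j c y₀ R) (hc : 0 < c) (hc1 : c ≤ 1) {σ₀ : ℝ}
    {y x : Eu S.A} (hσR : σ₀ ≤ c / 10 ^ 6 * R) (hy : y ∈ S.X.M)
    (hyR : S.G.d y₀ y + 6 * σ₀ ≤ R) (hx : x ∈ S.X.M) (h1 : 0 < S.G.d y x)
    (h2 : S.G.d y x ≤ 4 * σ₀) (hR : S.Reg f j c y x) :
    ∃ w, S.X.P x w = w ∧ (∀ a < j, 0 ≤ fderiv ℝ (f a) x w) ∧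
      ∀ (σ : ℝ) (q : Eu S.A) (h : Eu S.A → ℝ), 0 < σ → σ ≤ σ₀ → S.Adp f j c σ q h →
        S.Cen f j c σ y q → σ ≤ S.G.d y x → S.G.d y x ≤ 4 * σ → 0 < fderiv ℝ h x w := by
  have hc6 : 0 < c / 10 ^ 6 := by positivity
  obtain ⟨w, -, w2, w3, w4⟩ := key hF hc hc1 hσR hy hyR hx h1 h2 hR hx
    (by rw [S.G.self x hx]; positivity)
  exact ⟨w, w2, fun a ha => hc6.le.trans (w3 a ha),
    fun σ q h hσ _ hA hC s1 s2 => hc6.trans_le (w4 σ q h hσ hA hC s1 s2)⟩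

end Ctx

end Pool.Agent.AlEmb
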