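import Pool.Agent.Lib.MP_3fa020_gt.ETool
import Pool.Agent.Lib.MP_3fa020_gt.EGeoA
import Pool.Agent.Lib.MP_3fa020_gt.EGeoB

/-!
Cutoff functions that are constant along the levels, and the annulus estimate.
-/

namespace Pool.Agent.AlEmb

open Set Filter Topology MeasureTheory
open scoped InnerProductSpace ContDiff

variable {n k : ℕ}

/-- a smooth function on the line has bounded derivatives if it is constant near infinity -/
lemma exists_bound_of_const {g : ℝ → ℝ} (hg : Continuous g) {a b : ℝ}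
    (h : ∀ t, t < a ∨ b < t → g t = 0) : ∃ G ≥ 0, ∀ t, |g t| ≤ G := by
  obtain ⟨G, hG⟩ := (isCompact_Icc (a := a) (b := b)).exists_bound_of_continuousOn hg.continuousOn
  refine ⟨max G 0, le_max_right _ _, fun t => ?_⟩
  by_cases ht : t ∈ Icc a b
  · exact (hG t ht).trans (le_max_left _ _)
  · rw [h t (by simpa only [mem_Icc, not_and_or, not_le] using ht), abs_zero]; exact le_max_right _ _

/-- the derivative of the smooth transition function vanishes outside `[0, 1]` -/
lemma deriv_st_zero {t : ℝ} (h : t < 0 ∨ 1 < t) : deriv Real.smoothTransition t = 0 := by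
  rcases h with h | h
  · have : Real.smoothTransition =ᶠ[𝓝 t] fun _ => 0 :=
      (eventually_lt_nhds h).mono fun s hs => Real.smoothTransition.zero_of_nonpos hs.le
    rw [this.deriv_eq, deriv_const]
  · have : Real.smoothTransition =ᶠ[𝓝 t] fun _ => 1 :=
      (eventually_gt_nhds h).mono fun s hs => Real.smoothTransition.one_of_one_le hs.le
    rw [this.deriv_eq, deriv_const]

lemma st_smooth : ContDiff ℝ ∞ Real.smoothTransition := Real.smoothTransition.contDiff

lemma deriv_st_smooth : ContDiff ℝ ∞ (deriv Real.smoothTransition) :=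
  (contDiff_infty_iff_deriv.1 st_smooth).2

lemma deriv_st_nonneg (t : ℝ) : 0 ≤ deriv Real.smoothTransition t :=
  Real.smoothTransition.monotone.deriv_nonneg

lemma deriv2_st_zero {t : ℝ} (h : t < 0 ∨ 1 < t) : deriv (deriv Real.smoothTransition) t = 0 := by
  have : deriv Real.smoothTransition =ᶠ[𝓝 t] fun _ => 0 := by
    rcases h with h | h
    · exact (eventually_lt_nhds h).mono fun s hs => deriv_st_zero (Or.inl hs)
    · exact (eventually_gt_nhds h).mono fun s hs => deriv_st_zero (Or.inr hs)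
  rw [this.deriv_eq, deriv_const]

/-- bounds for the first two derivatives of the smooth transition function -/
lemma exists_st_bound : ∃ G ≥ 1, ∀ t, |deriv Real.smoothTransition t| ≤ G ∧
    |deriv (deriv Real.smoothTransition) t| ≤ G := by
  obtain ⟨G₁, h₁, H₁⟩ := exists_bound_of_const deriv_st_smooth.continuous
    fun t ht => deriv_st_zero ht
  obtain ⟨G₂, h₂, H₂⟩ := exists_bound_of_const
    (contDiff_infty_iff_deriv.1 deriv_st_smooth).2.continuous fun t ht => deriv2_st_zero ht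
  exact ⟨G₁ + G₂ + 1, by linarith, fun t => ⟨by linarith [H₁ t], by linarith [H₂ t]⟩⟩

namespace Ctx

variable (S : Ctx n k) (f : ℕ → Eu S.A → ℝ) (j : ℕ)

/-- a smooth function with values in `[0, 1]` which is constant along the levels -/
structure Lv (ψ : Eu S.A → ℝ) : Prop where
  smooth : ContDiff ℝ ∞ ψ
  nonneg : ∀ x, 0 ≤ ψ x
  le_one : ∀ x, ψ x ≤ 1
  const : ∀ x, S.X.NZ f j x → ∀ v, fderiv ℝ ψ x (S.X.Pl f j x v) = 0

/-- a cutoff supported in the slab of width `η` about `y` -/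
structure Cut (η : ℝ) (y : Eu S.A) (ψ : Eu S.A → ℝ) : Prop extends S.Lv f j ψ where
  slab : ∀ x ∈ tsupport ψ, S.Slab f j η y x

variable {S f j}

lemma Lv.one : S.Lv f j fun _ => 1 :=
  ⟨contDiff_const, fun _ => zero_le_one, fun _ => le_rfl, fun _ _ _ => by simp⟩

lemma Lv.mul {ψ φ : Eu S.A → ℝ} (h : S.Lv f j ψ) (h' : S.Lv f j φ) :
    S.Lv f j fun x => ψ x * φ x := by
  refine ⟨h.smooth.mul h'.smooth, fun x => mul_nonneg (h.nonneg x) (h'.nonneg x),
    fun x => mul_le_one₀ (h.le_one x) (h'.nonneg x) (h'.le_one x), fun x hx v => ?_⟩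
  rw [fderiv_fun_mul (cda_diff h.smooth.contDiffAt) (cda_diff h'.smooth.contDiffAt)]
  simp [h.const x hx v, h'.const x hx v]

lemma Lv.one_sub {ψ : Eu S.A → ℝ} (h : S.Lv f j ψ) : S.Lv f j fun x => 1 - ψ x := by
  refine ⟨contDiff_const.sub h.smooth, fun x => sub_nonneg.2 (h.le_one x),
    fun x => by linarith [h.nonneg x], fun x hx v => ?_⟩
  rw [fderiv_const_sub]
  simp [h.const x hx v]

lemma Lv.prod {ι : Type*} (s : Finset ι) {ψ : ι → Eu S.A → ℝ} (h : ∀ i ∈ s, S.Lv f j (ψ i)) :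
    S.Lv f j fun x => ∏ i ∈ s, ψ i x := by
  classical
  induction s using Finset.induction_on with
  | empty => simpa using Lv.one
  | insert a s ha ih =>
    simp only [Finset.prod_insert ha]
    exact (h a (Finset.mem_insert_self _ _)).mul (ih fun i hi => h i (Finset.mem_insert_of_mem hi))

lemma Cut.mul {η : ℝ} {y : Eu S.A} {ψ φ : Eu S.A → ℝ} (h : S.Cut f j η y ψ) (h' : S.Lv f j φ) :
    S.Cut f j η y fun x => ψ x * φ x :=
  ⟨h.toLv.mul h', fun x hx => h.slab x (tsupport_mul_subset_left hx)⟩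

lemma Slab.mono {η η' : ℝ} {y x : Eu S.A} (h : S.Slab f j η y x) (h' : η ≤ η') :
    S.Slab f j η' y x := fun a ha => (h a ha).trans h'

lemma Slab.trans {η η' : ℝ} {y x z : Eu S.A} (h : S.Slab f j η y x) (h' : S.Slab f j η' x z) :
    S.Slab f j (η + η') y z := fun a ha => by
  have := abs_sub_le (f a z) (f a x) (f a y)
  linarith [h a ha, h' a ha]

lemma Slab.symm {η : ℝ} {y x : Eu S.A} (h : S.Slab f j η y x) : S.Slab f j η x y :=
  fun a ha => by rw [abs_sub_comm]; exact h a ha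

lemma Cut.mono {η η' : ℝ} {y y' : Eu S.A} {ψ : Eu S.A → ℝ} (h : S.Cut f j η y ψ)
    (h' : ∀ x, S.Slab f j η y x → S.Slab f j η' y' x) : S.Cut f j η' y' ψ :=
  ⟨h.toLv, fun x hx => h' x (h.slab x hx)⟩

end Ctx

/-- existence of cutoffs with a gradient bound -/
theorem exists_cut (j : ℕ) : ∃ G ≥ 0, ∀ {n k : ℕ} (S : Ctx n k) (f : ℕ → Eu S.A → ℝ),
    (∀ a < j, ContDiff ℝ ∞ (f a)) → ∀ (y : Eu S.A) (η : ℝ), 0 < η →
    ∃ ψ, S.Cut f j η y ψ ∧ (∀ x, S.Slab f j (η / 2) y x → ψ x = 1) ∧
      ∀ x v, (∀ a < j, |fderiv ℝ (f a) x v| ≤ 1) → |fderiv ℝ ψ x v| ≤ G / η := by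
  obtain ⟨G, hG, HG⟩ := exists_st_bound
  refine ⟨j * (4 * G), by positivity, fun {n k} S f hf y η hη => ?_⟩
  set g : ℝ → ℝ := fun t => Real.smoothTransition (2 - 2 * t) * Real.smoothTransition (2 + 2 * t)
    with hg
  have gs : ContDiff ℝ ∞ g := (st_smooth.comp (by fun_prop)).mul (st_smooth.comp (by fun_prop))
  have g0 : ∀ t, 0 ≤ g t := fun t => mul_nonneg (Real.smoothTransition.nonneg _)
    (Real.smoothTransition.nonneg _)
  have g1 : ∀ t, g t ≤ 1 := fun t => mul_le_one₀ (Real.smoothTransition.le_one _)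
    (Real.smoothTransition.nonneg _) (Real.smoothTransition.le_one _)
  have gd : ∀ t, |deriv g t| ≤ 4 * G := fun t => by
    have d := fun s => (cda_diff (st_smooth.contDiffAt (x := s))).hasDerivAt
    have h1 : HasDerivAt (fun t : ℝ => 2 - 2 * t) (-2) t := by
      simpa using ((hasDerivAt_id t).const_mul 2).const_sub 2
    have h2 : HasDerivAt (fun t : ℝ => 2 + 2 * t) 2 t := by
      simpa using ((hasDerivAt_id t).const_mul 2).const_add 2
    have := (((d _).comp t h1).mul ((d _).comp t h2)).deriv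
    rw [show deriv g t = _ from this]
    have a1 := abs_le.1 (HG (2 - 2 * t)).1
    have a2 := abs_le.1 (HG (2 + 2 * t)).1
    have b1 := Real.smoothTransition.nonneg (2 - 2 * t)
    have b2 := Real.smoothTransition.nonneg (2 + 2 * t)
    have b3 := Real.smoothTransition.le_one (2 - 2 * t)
    have b4 := Real.smoothTransition.le_one (2 + 2 * t)
    simp only [Function.comp]
    rw [abs_le]
    constructor <;> nlinarith
  have fd : ∀ a < j, ∀ x, HasFDerivAt (fun x => g ((f a x - f a y) / η))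
      (deriv g ((f a x - f a y) / η) • (η⁻¹ • fderiv ℝ (f a) x)) x := fun a ha x => by
    have h1 : HasFDerivAt (fun x => (f a x - f a y) / η) (η⁻¹ • fderiv ℝ (f a) x) x := by
      simpa [div_eq_inv_mul] using
        ((cda_diff (hf a ha).contDiffAt).hasFDerivAt.sub_const (f a y)).const_mul η⁻¹
    exact (cda_diff gs.contDiffAt).hasDerivAt.comp_hasFDerivAt x h1
  have lv : ∀ a ∈ Finset.range j, S.Lv f j fun x => g ((f a x - f a y) / η) := fun a ha => by
    have ha := Finset.mem_range.1 ha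
    refine ⟨gs.comp (((hf a ha).sub contDiff_const).div_const η), fun x => g0 _, fun x => g1 _,
      fun x hx v => ?_⟩
    rw [(fd a ha x).fderiv]
    simp [hx.fderiv_Pl ha v]
  refine ⟨fun x => ∏ a ∈ Finset.range j, g ((f a x - f a y) / η), ⟨Ctx.Lv.prod _ lv, ?_⟩, ?_, ?_⟩
  · intro x hx a ha
    have hcl : IsClosed {x | |f a x - f a y| ≤ η} :=
      isClosed_le (((hf a ha).continuous.sub continuous_const).abs) continuous_const
    refine closure_minimal (fun z hz => ?_) hcl hx
    by_contra h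
    simp only [mem_ofPred_eq, not_le] at h
    refine hz (Finset.prod_eq_zero (Finset.mem_range.2 ha) ?_)
    rcases lt_abs.1 h with h | h
    · have : 1 < (f a z - f a y) / η := by rwa [lt_div_iff₀ hη, one_mul]
      simp only [hg]
      rw [Real.smoothTransition.zero_of_nonpos (by linarith), zero_mul]
    · have : (f a z - f a y) / η < -1 := by rw [div_lt_iff₀ hη]; linarith
      simp only [hg]
      rw [Real.smoothTransition.zero_of_nonpos (x := 2 + _) (by linarith), mul_zero]
  · intro x hx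
    refine Finset.prod_eq_one fun a ha => ?_
    have h := abs_le.1 (hx a (Finset.mem_range.1 ha))
    have h1 : (f a x - f a y) / η ≤ 1 / 2 := by rw [div_le_iff₀ hη]; linarith
    have h2 : -(1 / 2) ≤ (f a x - f a y) / η := by rw [le_div_iff₀ hη]; linarith
    simp only [hg]
    rw [Real.smoothTransition.one_of_one_le (by linarith),
      Real.smoothTransition.one_of_one_le (by linarith), one_mul]
  · intro x v hv
    have key : ∀ i ≤ j, |fderiv ℝ (fun x => ∏ a ∈ Finset.range i, g ((f a x - f a y) / η)) x v| ≤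
        i * (4 * G) / η := by
      intro i hi
      induction i with
      | zero => simp
      | succ i ih =>
        have l1 := Ctx.Lv.prod (S := S) (f := f) (j := j) (Finset.range i)
          fun a ha => lv a (Finset.range_mono (Nat.le_of_succ_le hi) ha)
        simp only [Finset.prod_range_succ]
        rw [fderiv_fun_mul (cda_diff l1.smooth.contDiffAt) (fd i hi x).differentiableAt,
          (fd i hi x).fderiv]
        have e1 := abs_le.1 (ih (Nat.le_of_succ_le hi))
        have e2 : |deriv g ((f i x - f i y) / η) * (η⁻¹ * fderiv ℝ (f i) x v)| ≤ 4 * G / η := by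
          rw [abs_mul, abs_mul, abs_of_pos (inv_pos.2 hη), div_eq_mul_inv (4 * G)]
          have := hv i hi
          have h3 : η⁻¹ * |fderiv ℝ (f i) x v| ≤ η⁻¹ := mul_le_of_le_one_right (by positivity) this
          exact mul_le_mul (gd _) h3 (by positivity) (by positivity)
        have e3 := abs_le.1 e2
        have p0 := l1.nonneg x
        have p1 := l1.le_one x
        have q0 := g0 ((f i x - f i y) / η)
        have q1 := g1 ((f i x - f i y) / η)
        have e4 : ((i + 1 : ℕ) : ℝ) * (4 * G) / η = i * (4 * G) / η + 4 * G / η := by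
          push_cast; ring
        have e5 : 0 ≤ i * (4 * G) / η := by positivity
        have e6 : 0 ≤ 4 * G / η := by positivity
        simp only [add_apply, smul_apply, smul_eq_mul]
        rw [e4, abs_le]
        constructor <;> nlinarith
    exact key j le_rfl

/-- the annulus estimate -/
def Ann (n k j p : ℕ) (c C : ℝ) : Prop :=
  ∀ (S : Ctx n k) (f : ℕ → Eu S.A → ℝ) (y₀ : Eu S.A) (R : ℝ), S.Frame f j c y₀ R →
    ∀ y ∈ S.X.M, ∀ σ, 0 < σ → σ ≤ c / 10 ^ 6 * R → S.G.d y₀ y + 6 * σ ≤ R →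
    ∀ (L : ℕ) (q : ℕ → Eu S.A) (h : ℕ → Eu S.A → ℝ),
    (∀ l ≤ L, S.Adp f j c (σ / 2 ^ l) (q l) (h l) ∧ S.Cen f j c (σ / 2 ^ l) y (q l)) →
    S.Good f j c R y (σ / 2 ^ L) (4 * σ) → (L = 0 ∨ n = j + 2 * (p + 1)) →
    ∀ ψ, S.Cut f j (c / 10 ^ 5 * (σ / 2 ^ L)) y ψ →
    ∃ a F : Eu S.A → ℝ, ContinuousOn a S.X.M ∧ (∀ x ∈ S.X.M, 0 ≤ a x) ∧ S.X.IsDiv F ∧
      (∀ x ∈ S.X.M, 3 / 2 * (σ / 2 ^ L) ≤ S.G.d y x → S.G.d y x ≤ 3 * σ →
        ψ x * S.Ev f j c R (p + 1) x ≤ a x) ∧
      ∀ x ∈ S.X.M, a x ≤ F x + C * ψ x *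
        (((n - j - 2 * (p + 1) : ℕ) : ℝ) * (S.Wf f j c σ (q 0) (h 0)).indicator
            (S.Ev (Function.update f j (h 0)) (j + 1) (c / 10 ^ 6) (c / 10 ^ 6 * σ) (p + 1)) x +
          (S.Wf f j c σ (q 0) (h 0)).indicator
            (S.Od (Function.update f j (h 0)) (j + 1) (c / 10 ^ 6) (c / 10 ^ 6 * σ) p) x / σ +
          (S.Wf f j c (σ / 2 ^ L) (q L) (h L)).indicator
            (S.Od (Function.update f j (h L)) (j + 1) (c / 10 ^ 6) (c / 10 ^ 6 * (σ / 2 ^ L)) p) x /
            (σ / 2 ^ L) +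
          (S.G.ball y (4 * σ)).indicator (S.Od f j c R p) x / R)

/-- adapted functions exist at every small scale -/
lemma Ctx.Frame.exists_cen {S : Ctx n k} {f : ℕ → Eu S.A → ℝ} {j : ℕ} {c R : ℝ} {y₀ : Eu S.A}
    (hF : S.Frame f j c y₀ R) (hc : 0 < c) (hc1 : c ≤ 1) {σ : ℝ} {y : Eu S.A} (hσ : 0 < σ)
    (hσR : σ ≤ c / 10 ^ 6 * R) (hy : y ∈ S.X.M) (h : S.G.d y₀ y + 5.6 * σ ≤ R) :
    ∃ q h, S.Adp f j c σ q h ∧ S.G.d y q ≤ σ / 2000 ∧
      ∀ a < j, f a y + c * σ / 4000 ≤ f a q := by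
  obtain ⟨q, hq, h1, h2⟩ := hF.push hc hy (l := σ / 2000) (by positivity) (by linarith)
  obtain ⟨g, hg⟩ := hF.exists_adp hc hc1 hσ hσR hq (by linarith [S.G.tri _ hF.mem _ hy _ hq])
  exact ⟨q, g, hg, h1, fun a ha => by linarith [h2 a ha]⟩

end Pool.Agent.AlEmb
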