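import Pool.Agent.Lib.MP_3fa020_gt.EStmt

/-!
Internal definitions for the proof of the bounds on Lipschitz-Killing curvature integrals.
-/

namespace Pool.Agent.AlEmb

open Set Filter Topology MeasureTheory
open scoped InnerProductSpace ContDiff

variable {A n : ℕ}

/-- orthogonal projection of rank `d` -/
structure IsProj (d : ℕ) (P : Eu A →L[ℝ] Eu A) : Prop where
  idem : ∀ v, P (P v) = P v
  symm : ∀ v w, ⟪P v, w⟫_ℝ = ⟪v, P w⟫_ℝ
  dim : Module.finrank ℝ (LinearMap.range (P : Eu A →ₗ[ℝ] Eu A)) = d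

/-- symmetric operator living on the range of `P` -/
structure SymTan (P S : Eu A →L[ℝ] Eu A) : Prop where
  symm : ∀ v w, ⟪S v, w⟫_ℝ = ⟪v, S w⟫_ℝ
  right : ∀ v, S (P v) = S v
  left : ∀ v, P (S v) = S v

/-- `v ↦ ⟪u, v⟫ u` -/
noncomputable def r1 (u : Eu A) : Eu A →L[ℝ] Eu A := (innerSL ℝ u).smulRight u

/-- normalisation -/
noncomputable def nrm (v : Eu A) : Eu A := ‖v‖⁻¹ • v

/-- A compact submanifold together with a smooth nearest point projection. -/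
structure Emb (A n : ℕ) where
  M : Set (Eu A)
  cpt : IsCompact M
  pr : Eu A → Eu A
  smooth : ContDiff ℝ ∞ pr
  δ : ℝ
  δ_pos : 0 < δ
  maps : ∀ x ∈ M, ∀ z, ‖z - x‖ < δ → pr z ∈ M
  fix : ∀ x ∈ M, pr x = x
  symm : ∀ x ∈ M, ∀ v w, ⟪fderiv ℝ pr x v, w⟫_ℝ = ⟪v, fderiv ℝ pr x w⟫_ℝ
  normal : ∀ x ∈ M, ∀ z, ‖z - x‖ < δ → fderiv ℝ pr (pr z) (z - pr z) = 0
  dim : ∀ x ∈ M,
    Module.finrank ℝ (LinearMap.range (fderiv ℝ pr x : Eu A →ₗ[ℝ] Eu A)) = n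

namespace Emb

variable (X : Emb A n)

/-- on `M` this is the tangent projection -/
noncomputable def P (x : Eu A) : Eu A →L[ℝ] Eu A := fderiv ℝ X.pr x

/-- on tangent vectors this is the second fundamental form -/
noncomputable def II (x v w : Eu A) : Eu A := fderiv ℝ X.P x v w

/-- Riemannian volume -/
noncomputable def μ : Measure (Eu A) := (μHE[n] : Measure (Eu A)).restrict X.M

/-- sectional curvature at least `-1` -/
def Sec : Prop := ∀ x ∈ X.M, ∀ v w, X.P x v = v → X.P x w = w →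
  -(‖v‖ ^ 2 * ‖w‖ ^ 2 - ⟪v, w⟫_ℝ ^ 2) ≤ ⟪X.II x v v, X.II x w w⟫_ℝ - ‖X.II x v w‖ ^ 2

end Emb

/-- divergence of `Y` along the distribution `P` -/
noncomputable def divP (P : Eu A → Eu A →L[ℝ] Eu A) (Y : Eu A → Eu A) (x : Eu A) : ℝ :=
  ∑ a, ⟪fderiv ℝ Y x (P x (ee a)), ee a⟫_ℝ

/-- Hessian of `g` along the distribution `P` -/
noncomputable def Hess (P : Eu A → Eu A →L[ℝ] Eu A) (g : Eu A → ℝ) (x v w : Eu A) : ℝ :=
  fderiv ℝ (fderiv ℝ g) x v w + fderiv ℝ g x (fderiv ℝ P x v w)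

/-- intrinsic distance -/
structure Geo (X : Emb A n) where
  d : Eu A → Eu A → ℝ
  nonneg : ∀ x y, 0 ≤ d x y
  comm : ∀ x y, d x y = d y x
  self : ∀ x ∈ X.M, d x x = 0
  tri : ∀ x ∈ X.M, ∀ y ∈ X.M, ∀ z ∈ X.M, d x z ≤ d x y + d y z
  norm_le : ∀ x ∈ X.M, ∀ y ∈ X.M, ‖x - y‖ ≤ d x y
  le_len : ∀ (a b : ℝ) (γ γ' : ℝ → Eu A), a ≤ b → (∀ t ∈ Icc a b, γ t ∈ X.M) →
    (∀ t ∈ Icc a b, HasDerivWithinAt γ (γ' t) (Icc a b) t) → ContinuousOn γ' (Icc a b) →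
    d (γ a) (γ b) ≤ ∫ t in a..b, ‖γ' t‖
  mid : ∀ x ∈ X.M, ∀ y ∈ X.M, ∃ γ : ℝ → Eu A, γ 0 = x ∧ γ (d x y) = y ∧
    (∀ t ∈ Icc 0 (d x y), γ t ∈ X.M) ∧
    ∀ s ∈ Icc 0 (d x y), ∀ t ∈ Icc 0 (d x y), d (γ s) (γ t) = |s - t|

namespace Geo

variable {X : Emb A n} (G : Geo X)

/-- intrinsic open ball -/
def ball (y : Eu A) (r : ℝ) : Set (Eu A) := {x | x ∈ X.M ∧ G.d y x < r}

/-- unit speed minimizing geodesic on `[0, l]` with velocity `w` -/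
structure IsGeod (γ w : ℝ → Eu A) (l : ℝ) : Prop where
  nonneg : 0 ≤ l
  mem : ∀ t ∈ Icc 0 l, γ t ∈ X.M
  vel : ∀ t ∈ Icc 0 l, HasDerivWithinAt γ (w t) (Icc 0 l) t
  acc : ∀ t ∈ Icc 0 l, HasDerivWithinAt w (X.II (γ t) (w t) (w t)) (Icc 0 l) t
  unit : ∀ t ∈ Icc 0 l, ‖w t‖ = 1
  tan : ∀ t ∈ Icc 0 l, X.P (γ t) (w t) = w t
  dist : ∀ s ∈ Icc 0 l, ∀ t ∈ Icc 0 l, G.d (γ s) (γ t) = |s - t|

/-- distinct points are joined by a minimizing geodesic -/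
def HasGeod : Prop := ∀ x ∈ X.M, ∀ y ∈ X.M, x ≠ y →
  ∃ γ w : ℝ → Eu A, G.IsGeod γ w (G.d x y) ∧ γ 0 = x ∧ γ (G.d x y) = y

/-- Hessian comparison for the distance function in the barrier sense -/
def Barrier : Prop :=
  (∀ (γ w : ℝ → Eu A) (l : ℝ), G.IsGeod γ w l → 0 < l → ∀ ε > 0, ∀ᶠ z in 𝓝[X.M] (γ 0),
    Real.cosh (G.d z (γ l)) ≤ Real.cosh l - Real.sinh l * ⟪w 0, z - γ 0⟫_ℝ +
      (Real.cosh l + ε) / 2 * ‖z - γ 0‖ ^ 2) ∧
  ∀ x ∈ X.M, ∀ ε > 0, ∀ᶠ z in 𝓝[X.M] x, Real.cosh (G.d z x) ≤ 1 + (1 + ε) / 2 * ‖z - x‖ ^ 2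

/-- Toponogov hinge comparison -/
def Hinge : Prop :=
  ∀ (γ₁ w₁ γ₂ w₂ : ℝ → Eu A) (a b : ℝ), G.IsGeod γ₁ w₁ a → G.IsGeod γ₂ w₂ b → γ₁ 0 = γ₂ 0 →
    Real.cosh (G.d (γ₁ a) (γ₂ b)) ≤
      Real.cosh a * Real.cosh b - Real.sinh a * Real.sinh b * ⟪w₁ 0, w₂ 0⟫_ℝ

end Geo

/-- The algebra of double forms: `t x y` is the product of the one-form `x` and the vector `y`,
`B` is the top degree coefficient and `τ` is the transposition. -/
structure DFA (A : ℕ) where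
  R : Type
  [inst : NormedCommRing R]
  [alg : NormedAlgebra ℝ R]
  t : Eu A →L[ℝ] Eu A →L[ℝ] R
  B : R →L[ℝ] ℝ
  τ : R →ₐ[ℝ] R
  swap : ∀ x y x' y', t x y * t x' y' = -(t x y' * t x' y)
  B_prod : ∀ (m : ℕ) (x y : Fin m → Eu A), B (∏ i, t (x i) (y i)) =
    if m = A then (Matrix.of fun i j => ⟪x i, y j⟫_ℝ).det else 0
  τ_t : ∀ x y, τ (t x y) = t y x
  B_τ : ∀ F, B (τ F) = B F

attribute [instance] DFA.inst DFA.alg

/-- algebraic curvature tensor of a family of symmetric operators -/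
noncomputable def curvT (S : Fin A → Eu A →L[ℝ] Eu A) (a b c d : Eu A) : ℝ :=
  ∑ i, (⟪S i a, c⟫_ℝ * ⟪S i b, d⟫_ℝ - ⟪S i a, d⟫_ℝ * ⟪S i b, c⟫_ℝ)

/-- curvature tensor of constant curvature one on the range of `P` -/
noncomputable def gramT (P : Eu A →L[ℝ] Eu A) (a b c d : Eu A) : ℝ :=
  ⟪P a, P c⟫_ℝ * ⟪P b, P d⟫_ℝ - ⟪P a, P d⟫_ℝ * ⟪P b, P c⟫_ℝ

/-- components of the second fundamental form of the distribution `P` -/
noncomputable def Sop (P : Eu A → Eu A →L[ℝ] Eu A) (x : Eu A) (c : Fin A) : Eu A →L[ℝ] Eu A :=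
  (P x).comp (((fderiv ℝ P x).flip (ee c)).comp (P x))

/-- covariant derivative of the field `u` along the distribution `P` -/
noncomputable def Top (P : Eu A → Eu A →L[ℝ] Eu A) (u : Eu A → Eu A) (x : Eu A) :
    Eu A →L[ℝ] Eu A :=
  (P x).comp ((fderiv ℝ u x).comp (P x))

namespace DFA

variable (D : DFA A)

/-- the double form of an operator -/
noncomputable def Th : (Eu A →L[ℝ] Eu A) →L[ℝ] D.R :=
  ∑ a, (D.t (ee a)).comp (ContinuousLinearMap.apply ℝ (Eu A) (ee a))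

/-- the normal volume element -/
noncomputable def nu (d : ℕ) (P : Eu A →L[ℝ] Eu A) : D.R :=
  ((A - d).factorial : ℝ)⁻¹ • D.Th (1 - P) ^ (A - d)

/-- top degree coefficient on the range of the rank `d` projection `P` -/
noncomputable def BP (d : ℕ) (P : Eu A →L[ℝ] Eu A) : D.R →L[ℝ] ℝ :=
  D.B.comp ((ContinuousLinearMap.mul ℝ D.R).flip (D.nu d P))

/-- double forms living on the range of `P` -/
noncomputable def Tan (P : Eu A →L[ℝ] Eu A) : Subalgebra ℝ D.R :=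
  Algebra.adjoin ℝ {F | ∃ x y, F = D.t (P x) (P y)}

/-- double forms whose vector parts are orthogonal to `u` -/
noncomputable def Perp (u : Eu A) : Subalgebra ℝ D.R :=
  Algebra.adjoin ℝ {F | ∃ x y, ⟪u, y⟫_ℝ = 0 ∧ F = D.t x y}

/-- the cone generated by `ρ` (at most `p` times) and the squares `t v v` -/
inductive Cone (ρ : D.R) : ℕ → D.R → Prop
  | zero : Cone ρ 0 0
  | one : Cone ρ 0 1
  | sq (v : Eu A) : Cone ρ 0 (D.t v v)
  | rho : Cone ρ 1 ρ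
  | smul {p : ℕ} {F : D.R} (c : ℝ) : 0 ≤ c → Cone ρ p F → Cone ρ p (c • F)
  | add {p : ℕ} {F G : D.R} : Cone ρ p F → Cone ρ p G → Cone ρ p (F + G)
  | mul {p q : ℕ} {F G : D.R} : Cone ρ p F → Cone ρ q G → Cone ρ (p + q) (F * G)
  | mono {p q : ℕ} {F : D.R} : p ≤ q → Cone ρ p F → Cone ρ q F

/-- curvature form (twice the curvature tensor) of the distribution `P` -/
noncomputable def Om (P : Eu A → Eu A →L[ℝ] Eu A) (x : Eu A) : D.R :=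
  ∑ c, D.Th (Sop P x c) ^ 2

/-- shifted curvature form of `M` -/
noncomputable def Rh (X : Emb A n) (x : Eu A) : D.R := D.Om X.P x + D.Th (X.P x) ^ 2

/-- positivity of the powers of the shifted curvature form up to order `k` -/
def PosK (X : Emb A n) (k : ℕ) : Prop :=
  ∀ x ∈ X.M, ∀ F, D.Cone (D.Rh X x) k F → 0 ≤ D.BP n (X.P x) F

end DFA

end Pool.Agent.AlEmb
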