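import Pool.Agent.Lib.MP_3fa020_gt.EBasic

/-!
Finite volume and the divergence theorem. The maps `x ↦ pr (x + t Y x)` are injective self maps
of `M` for small `t` which expand the Hausdorff measure locally by `1 + t div Y + o(t)`.
-/

namespace Pool.Agent.AlEmb

open Set Filter Topology MeasureTheory
open scoped InnerProductSpace ContDiff NNReal ENNReal

variable {A n : ℕ}

namespace EDivAux

/-- comparison of the measures of two images -/
lemma meas_le {a b c : ℕ} (f : Eu a → Eu b) (g : Eu a → Eu c) (S : Set (Eu a)) (K : ℝ≥0)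
    (h : ∀ x ∈ S, ∀ y ∈ S, ‖f x - f y‖ ≤ K * ‖g x - g y‖) :
    (μHE[n] : Measure (Eu b)) (f '' S) ≤ (K : ℝ≥0∞) ^ n * (μHE[n] : Measure (Eu c)) (g '' S) := by
  have hL : LipschitzOnWith K (f ∘ Function.invFunOn g S) (g '' S) := by
    refine LipschitzOnWith.of_dist_le_mul fun u hu v hv => ?_
    have := h _ (Function.invFunOn_mem hu) _ (Function.invFunOn_mem hv)
    rwa [Function.invFunOn_eq hu, Function.invFunOn_eq hv, ← dist_eq_norm, ← dist_eq_norm] at this
  have hs : f '' S ⊆ (f ∘ Function.invFunOn g S) '' (g '' S) := by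
    rintro _ ⟨x, hx, rfl⟩
    have hu : g x ∈ g '' S := mem_image_of_mem g hx
    refine ⟨g x, hu, ?_⟩
    have := h _ (Function.invFunOn_mem hu) _ hx
    rw [Function.invFunOn_eq hu, sub_self, norm_zero, mul_zero] at this
    exact sub_eq_zero.1 (norm_le_zero_iff.1 this)
  have h1 := (measure_mono hs).trans (hL.hausdorffMeasure_image_le (d := n) (Nat.cast_nonneg n))
  rw [ENNReal.rpow_natCast] at h1
  simp only [Measure.euclideanHausdorffMeasure_def, Measure.smul_apply, ENNReal.smul_def,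
    smul_eq_mul]
  rw [mul_left_comm]
  exact mul_le_mul_right h1 _

/-- orthonormal frame of the range of a projection -/
structure Frame (P : Eu A →L[ℝ] Eu A) (L : Eu n →L[ℝ] Eu A) (π : Eu A →L[ℝ] Eu n) : Prop where
  left : ∀ u, π (L u) = u
  right : ∀ v, L (π v) = P v
  norm : ∀ u, ‖L u‖ = ‖u‖
  le : ∀ v, ‖π v‖ ≤ ‖v‖

lemma exists_frame {P : Eu A →L[ℝ] Eu A} (h : IsProj n P) :
    ∃ (L : Eu n →L[ℝ] Eu A) (π : Eu A →L[ℝ] Eu n), Frame P L π := by
  set W := LinearMap.range (P : Eu A →ₗ[ℝ] Eu A) with hW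
  let e : W ≃ₗᵢ[ℝ] Eu n := ((stdOrthonormalBasis ℝ W).reindex (finCongr h.dim)).repr
  let Q : Eu A →L[ℝ] W := P.codRestrict W fun v => ⟨v, rfl⟩
  have hQ : ∀ w : W, Q w = w := by
    rintro ⟨_, v, rfl⟩
    exact Subtype.ext (h.idem v)
  refine ⟨W.subtypeL.comp e.symm.toContinuousLinearEquiv.toContinuousLinearMap,
    e.toContinuousLinearEquiv.toContinuousLinearMap.comp Q, fun u => ?_, fun v => ?_,
    fun u => ?_, fun v => ?_⟩
  · change e (Q (e.symm u : W)) = u
    rw [hQ, e.apply_symm_apply]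
  · change (e.symm (e (Q v)) : Eu A) = P v
    rw [e.symm_apply_apply]
    rfl
  · exact e.symm.norm_map u
  · exact (e.norm_map (Q v)).trans_le (h.norm_le v)

namespace Frame

variable {P : Eu A →L[ℝ] Eu A} {L : Eu n →L[ℝ] Eu A} {π : Eu A →L[ℝ] Eu n} (h : Frame P L π)
include h

lemma pi_P (v : Eu A) : π (P v) = π v := by rw [← h.right, h.left]

lemma P_L (u : Eu n) : P (L u) = L u := by rw [← h.right, h.left]

lemma norm_pi (v : Eu A) : ‖π v‖ = ‖P v‖ := by rw [← h.right, h.norm]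

lemma norm_sw (Q : Eu A →L[ℝ] Eu A) : ‖π.comp (Q.comp L)‖ ≤ ‖Q‖ :=
  ContinuousLinearMap.opNorm_le_bound _ (norm_nonneg _) fun u =>
    (h.le _).trans ((Q.le_opNorm (L u)).trans_eq (by rw [h.norm]))

lemma trace_sw (Q : Eu A →L[ℝ] Eu A) :
    LinearMap.trace ℝ (Eu n) (π.comp (Q.comp L) : Eu n →L[ℝ] Eu n) =
      ∑ a, ⟪Q (P (ee a)), ee a⟫_ℝ := by
  rw [ContinuousLinearMap.toLinearMap_comp, LinearMap.trace_comp_comm',
    LinearMap.trace_eq_sum_inner _ (EuclideanSpace.basisFun (Fin A) ℝ)]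
  refine Finset.sum_congr rfl fun a _ => ?_
  rw [real_inner_comm]
  simp [ee, h.right]

end Frame

/-- uniform linearisation near a compact set -/
lemma unif_lin {V : Type*} [NormedAddCommGroup V] [NormedSpace ℝ V] {M : Set (Eu A)}
    (hM : IsCompact M) {G : Eu A → V} (hG : ∀ x ∈ M, ContDiffAt ℝ 1 G x) {ε : ℝ} (hε : 0 < ε) :
    ∃ r > 0, ∀ x ∈ M, ∀ z z', ‖z - x‖ < r → ‖z' - x‖ < r →
      ‖G z - G z' - fderiv ℝ G x (z - z')‖ ≤ ε * ‖z - z'‖ := by
  have ho : IsOpen {x | ContDiffAt ℝ 1 G x} :=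
    isOpen_iff_mem_nhds.2 fun x hx => ContDiffAt.eventually hx (by simp)
  obtain ⟨r1, hr1, h1⟩ := hM.exists_thickening_subset_open ho hG
  obtain ⟨r2, hr2, h2⟩ := unif_near hM (F := fderiv ℝ G)
    (fun x hx => (hG x hx).continuousAt_fderiv one_ne_zero) hε
  refine ⟨min r1 r2, lt_min hr1 hr2, fun x hx z z' hz hz' => ?_⟩
  refine (convex_ball x (min r1 r2)).norm_image_sub_le_of_norm_fderiv_le' (fun y hy => ?_)
    (fun y hy => ?_) (by rwa [mem_ball_iff_norm]) (by rwa [mem_ball_iff_norm])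
  · have : ContDiffAt ℝ 1 G y := h1 (Metric.mem_thickening_iff.2
      ⟨x, hx, lt_of_lt_of_le hy (min_le_left _ _)⟩)
    exact this.differentiableAt one_ne_zero
  · exact (h2 x hx y ((mem_ball_iff_norm.1 hy).trans_le (min_le_right _ _))).le

lemma pr_lin (X : Emb A n) {ε : ℝ} (hε : 0 < ε) :
    ∃ r > 0, ∀ x ∈ X.M, ∀ z z', ‖z - x‖ < r → ‖z' - x‖ < r →
      ‖X.pr z - X.pr z' - X.P x (z - z')‖ ≤ ε * ‖z - z'‖ :=
  unif_lin X.cpt (fun _ _ => X.smooth.contDiffAt.of_le (by simp)) hε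

lemma det_deriv : ∃ T : (Eu n →L[ℝ] Eu n) →L[ℝ] ℝ,
    (∀ B : Eu n →L[ℝ] Eu n, T B = LinearMap.trace ℝ (Eu n) B) ∧
    HasFDerivAt (fun B : Eu n →L[ℝ] Eu n => (1 + B).det) T 0 := by
  classical
  let b := (EuclideanSpace.basisFun (Fin n) ℝ).toBasis
  have e : ∀ B : Eu n →L[ℝ] Eu n, (1 + B).det = (1 + LinearMap.toMatrix b b B).det := by
    intro B
    rw [ContinuousLinearMap.det, ← LinearMap.det_toMatrix b, ContinuousLinearMap.toLinearMap_add,
      map_add]
    congr 2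
    exact LinearMap.toMatrix_one b
  have hd : DifferentiableAt ℝ (fun B : Eu n →L[ℝ] Eu n => (1 + B).det) 0 := by
    simp only [e, Matrix.det_apply', Matrix.add_apply, LinearMap.toMatrix_apply, b,
      OrthonormalBasis.coe_toBasis, OrthonormalBasis.coe_toBasis_repr_apply,
      EuclideanSpace.basisFun_repr, ContinuousLinearMap.coe_coe]
    fun_prop
  refine ⟨fderiv ℝ (fun B : Eu n →L[ℝ] Eu n => (1 + B).det) 0, fun B => ?_, hd.hasFDerivAt⟩
  have h1 : HasDerivAt (fun t : ℝ => t • B) B 0 := by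
    simpa using (hasDerivAt_id (0 : ℝ)).smul_const B
  have h2 := (hd.hasFDerivAt.comp_hasDerivAt_of_eq (0 : ℝ) h1 (zero_smul ℝ B).symm)
  set N := LinearMap.toMatrix b b B with hN
  set q := (Matrix.det (1 + (Polynomial.X : Polynomial ℝ) • N.map Polynomial.C)).divX.divX
  have h3 : HasDerivAt (fun t : ℝ => 1 + N.trace * t + q.eval t * t ^ 2) N.trace 0 := by
    have := (((hasDerivAt_id (0 : ℝ)).const_mul N.trace).const_add 1).add
      ((q.hasDerivAt 0).mul (hasDerivAt_pow 2 (0 : ℝ)))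
    exact this.congr_deriv (by simp)
  have h4 : ((fun B : Eu n →L[ℝ] Eu n => (1 + B).det) ∘ fun t : ℝ => t • B) =
      fun t : ℝ => 1 + N.trace * t + q.eval t * t ^ 2 := by
    funext t
    rw [Function.comp_apply, e, ContinuousLinearMap.toLinearMap_smul, map_smul,
      Matrix.det_one_add_smul]
  rw [h4] at h2
  rw [h2.unique h3, LinearMap.trace_eq_matrix_trace ℝ b]

lemma fin_loc (X : Emb A n) {x : Eu A} (hx : x ∈ X.M) :
    (μHE[n] : Measure (Eu A)).FiniteAtFilter (𝓝[X.M] x) := by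
  obtain ⟨L, π, hF⟩ := exists_frame (Emb.isProj hx)
  obtain ⟨r, hr, h⟩ := pr_lin X (ε := 1 / 2) (by norm_num)
  refine ⟨X.M ∩ Metric.ball x r, inter_mem_nhdsWithin _ (Metric.ball_mem_nhds x hr), ?_⟩
  have h1 := meas_le (n := n) id π (X.M ∩ Metric.ball x r) 2 fun y hy z hz => by
    have h2 := h x hx y z (mem_ball_iff_norm.1 hy.2) (mem_ball_iff_norm.1 hz.2)
    rw [X.fix y hy.1, X.fix z hz.1] at h2
    have h3 := norm_le_norm_add_norm_sub' (y - z) (X.P x (y - z))
    rw [← map_sub, hF.norm_pi]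
    simp only [id, NNReal.coe_ofNat]
    linarith
  rw [image_id] at h1
  refine h1.trans_lt (ENNReal.mul_lt_top (ENNReal.pow_lt_top ENNReal.coe_lt_top) ?_)
  rw [EuclideanSpace.euclideanHausdorffMeasure_eq_volume]
  exact (π.lipschitz.isBounded_image
    (Metric.isBounded_ball.subset inter_subset_right)).measure_lt_top

/-- local expansion of the measure -/
lemma loc_le (X : Emb A n) {x : Eu A} (hx : x ∈ X.M) {F : Eu A → Eu A} (hF : ContDiffAt ℝ 1 F x)
    {L : Eu n →L[ℝ] Eu A} {π : Eu A →L[ℝ] Eu n} (h : Frame (X.P x) L π) {c : ℝ}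
    (hc : c < (π.comp ((fderiv ℝ F x).comp L)).det) :
    ∃ r > 0, ∀ S ⊆ X.M ∩ Metric.ball x r,
      ENNReal.ofReal c * (μHE[n] : Measure (Eu A)) S ≤ (μHE[n] : Measure (Eu A)) (F '' S) := by
  rcases le_or_gt c 0 with hc0 | hc0
  · exact ⟨1, one_pos, fun S _ => by simp [ENNReal.ofReal_of_nonpos hc0]⟩
  set D := fderiv ℝ F x with hD
  set B := π.comp (D.comp L) with hB
  have hdet : 0 < B.det := hc0.trans hc
  obtain ⟨κ, hκ, hκ'⟩ := LinearMap.exists_antilipschitzWith (B : Eu n →ₗ[ℝ] Eu n)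
    (not_not.1 fun h0 => hdet.ne' (LinearMap.det_eq_zero_iff_ker_ne_bot.2 h0))
  have hκ'' : ∀ u, ‖u‖ ≤ κ * ‖B u‖ := fun u => by simpa using hκ'.le_mul_dist u 0
  obtain ⟨K, hK, hK1⟩ : ∃ K : ℝ, c * (K ^ n * K ^ n) < B.det ∧ 1 < K := by
    have h1 : Tendsto (fun K : ℝ => c * (K ^ n * K ^ n)) (𝓝[>] 1) (𝓝 (c * (1 ^ n * 1 ^ n))) :=
      (Continuous.tendsto (by fun_prop) _).mono_left nhdsWithin_le_nhds
    rw [one_pow, mul_one, mul_one] at h1
    exact ((h1.eventually (gt_mem_nhds hc)).and self_mem_nhdsWithin).exists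
  have hK0 : 0 < K := by linarith
  set θ := 1 - 1 / K with hθ
  have hθ0 : 0 < θ := by rw [hθ, sub_pos, div_lt_one hK0]; exact hK1
  have hθK : K * θ = K - 1 := by rw [hθ]; field_simp
  set m := (1 + ‖D‖) * K * κ with hm
  have hm0 : 0 ≤ m := by positivity
  set ε := θ / (1 + m) with hε
  have hε0 : 0 < ε := by positivity
  have hε1 : ε * (1 + m) = θ := by rw [hε]; field_simp
  obtain ⟨r1, hr1, h1⟩ := pr_lin X hε0
  obtain ⟨r2, hr2, h2⟩ := unif_lin (isCompact_singleton (x := x)) (G := F)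
    (fun y hy => by rwa [mem_singleton_iff.1 hy]) hε0
  refine ⟨min r1 r2, lt_min hr1 hr2, fun S hS => ?_⟩
  have key : ∀ y ∈ S, ∀ z ∈ S, ‖y - z‖ ≤ K * ‖π y - π z‖ ∧
      ‖B (π y) - B (π z)‖ ≤ K * ‖F y - F z‖ := by
    intro y hy z hz
    have hy' := mem_ball_iff_norm.1 (hS hy).2
    have hz' := mem_ball_iff_norm.1 (hS hz).2
    have a1 := h1 x hx y z (hy'.trans_le (min_le_left _ _)) (hz'.trans_le (min_le_left _ _))
    have a2 := h2 x rfl y z (hy'.trans_le (min_le_right _ _)) (hz'.trans_le (min_le_right _ _))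
    rw [X.fix y (hS hy).1, X.fix z (hS hz).1] at a1
    rw [← map_sub, ← map_sub, ← map_sub]
    set v := y - z with hv
    have hv0 := norm_nonneg v
    have a3 := norm_le_norm_add_norm_sub' v (X.P x v)
    rw [← h.norm_pi] at a3
    have a4 : ‖v‖ ≤ K * ‖π v‖ := by
      have : ε * ‖v‖ ≤ θ * ‖v‖ := mul_le_mul_of_nonneg_right (by nlinarith) hv0
      have : K * ‖v‖ ≤ K * (‖π v‖ + θ * ‖v‖) := mul_le_mul_of_nonneg_left (by linarith) hK0.le
      have e : K * (θ * ‖v‖) = (K - 1) * ‖v‖ := by rw [← mul_assoc, hθK]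
      linarith
    refine ⟨a4, ?_⟩
    have e : B (π v) = π (F y - F z) - π (F y - F z - D v) - π (D (v - X.P x v)) := by
      simp [hB, h.right]
    have a5 : ‖B (π v)‖ ≤ ‖F y - F z‖ + ε * ‖v‖ + ‖D‖ * (ε * ‖v‖) := by
      rw [e]
      refine (norm_sub_le _ _).trans (add_le_add ((norm_sub_le _ _).trans
        (add_le_add (h.le _) ((h.le _).trans a2))) ((h.le _).trans ?_))
      exact (D.le_opNorm _).trans (mul_le_mul_of_nonneg_left a1 (norm_nonneg _))
    have a6 : ‖v‖ ≤ K * (κ * ‖B (π v)‖) :=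
      a4.trans (mul_le_mul_of_nonneg_left (hκ'' _) hK0.le)
    have a7 : ε * (1 + ‖D‖) * ‖v‖ ≤ ε * (1 + ‖D‖) * (K * (κ * ‖B (π v)‖)) :=
      mul_le_mul_of_nonneg_left a6 (by positivity)
    have a8 : ε * m * ‖B (π v)‖ ≤ θ * ‖B (π v)‖ :=
      mul_le_mul_of_nonneg_right (by nlinarith) (norm_nonneg _)
    have a9 : K * ‖B (π v)‖ ≤ K * (‖F y - F z‖ + θ * ‖B (π v)‖) := by
      refine mul_le_mul_of_nonneg_left ?_ hK0.le
      rw [hm] at a8
      linarith
    have e' : K * (θ * ‖B (π v)‖) = (K - 1) * ‖B (π v)‖ := by rw [← mul_assoc, hθK]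
    linarith
  lift K to ℝ≥0 using hK0.le
  have b1 := meas_le (n := n) id π S K fun y hy z hz => (key y hy z hz).1
  have b2 := meas_le (n := n) (fun y => B (π y)) F S K fun y hy z hz => (key y hy z hz).2
  have b3 := (B : Eu n →ₗ[ℝ] Eu n).euclideanHausdorffMeasure_image (π '' S)
  rw [LinearMap.normDet_eq_abs_det, finrank_euclideanSpace_fin, image_image] at b3
  rw [image_id] at b1
  have hKn : (K : ℝ≥0∞) ^ n ≠ 0 := pow_ne_zero _ (by simpa using hK0.ne')
  have hKt : (K : ℝ≥0∞) ^ n ≠ ⊤ := ENNReal.pow_ne_top ENNReal.coe_ne_top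
  have b4 : ENNReal.ofReal c * ((K : ℝ≥0∞) ^ n * (K : ℝ≥0∞) ^ n) ≤ ENNReal.ofReal |B.det| := by
    rw [← ENNReal.ofReal_coe_nnreal, ← ENNReal.ofReal_pow K.coe_nonneg, ← ENNReal.ofReal_mul (by positivity),
      ← ENNReal.ofReal_mul hc0.le]
    exact ENNReal.ofReal_le_ofReal (hK.le.trans (le_abs_self _))
  refine (ENNReal.mul_le_mul_iff_right hKn hKt).1 (le_trans ?_ b2)
  calc (K : ℝ≥0∞) ^ n * (ENNReal.ofReal c * (μHE[n] : Measure (Eu A)) S)
      ≤ (K : ℝ≥0∞) ^ n * (ENNReal.ofReal c *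
          ((K : ℝ≥0∞) ^ n * (μHE[n] : Measure (Eu n)) (π '' S))) := by gcongr
    _ = ENNReal.ofReal c * ((K : ℝ≥0∞) ^ n * (K : ℝ≥0∞) ^ n) *
          (μHE[n] : Measure (Eu n)) (π '' S) := by ring
    _ ≤ ENNReal.ofReal |B.det| * (μHE[n] : Measure (Eu n)) (π '' S) := by gcongr
    _ = _ := b3.symm

/-- from local to global -/
lemma glob {ν : Measure (Eu A)} {M : Set (Eu A)} (hM : IsCompact M) {F : Eu A → Eu A}
    (hF : ContinuousOn F M) (hi : InjOn F M) {g : Eu A → ℝ} (hg : ContinuousOn g M)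
    (h : ∀ x ∈ M, ∃ c, g x < c ∧ ∃ r > 0, ∀ S ⊆ M ∩ Metric.ball x r,
      ENNReal.ofReal c * ν S ≤ ν (F '' S)) :
    ∫⁻ x in M, ENNReal.ofReal (g x) ∂ν ≤ ν (F '' M) := by
  have key : ∃ U, M ⊆ U ∧ MeasurableSet U ∧ ∀ S ⊆ M ∩ U, MeasurableSet S →
      ∫⁻ x in S, ENNReal.ofReal (g x) ∂ν ≤ ν (F '' S) := by
    refine hM.induction_on (p := fun s => ∃ U, s ⊆ U ∧ MeasurableSet U ∧ ∀ S ⊆ M ∩ U,
      MeasurableSet S → ∫⁻ x in S, ENNReal.ofReal (g x) ∂ν ≤ ν (F '' S)) ?_ ?_ ?_ ?_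
    · refine ⟨∅, Subset.rfl, MeasurableSet.empty, fun S hS _ => ?_⟩
      rw [inter_empty, subset_empty_iff] at hS
      simp [hS]
    · rintro s t hst ⟨U, h1, h2, h3⟩
      exact ⟨U, hst.trans h1, h2, h3⟩
    · rintro s t ⟨U, h1, h2, h3⟩ ⟨V, h4, h5, h6⟩
      refine ⟨U ∪ V, union_subset_union h1 h4, h2.union h5, fun S hS hSm => ?_⟩
      have hSM : S ⊆ M := fun x hx => (hS hx).1
      have a1 := h3 (S ∩ U) (fun x hx => ⟨hSM hx.1, hx.2⟩) (hSm.inter h2)
      have a2 := h6 (S \ U) (fun x hx => ⟨hSM hx.1, (hS hx.1).2.resolve_left hx.2⟩) (hSm.diff h2)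
      have hsub : S \ U ⊆ M := fun x hx => hSM hx.1
      have hm := (hSm.diff h2).image_of_continuousOn_injOn (hF.mono hsub) (hi.mono hsub)
      have hd : Disjoint (F '' (S ∩ U)) (F '' (S \ U)) := by
        rw [Set.disjoint_left]
        rintro _ ⟨x, hx, rfl⟩ ⟨y, hy, hxy⟩
        exact hy.2 (hi (hSM hy.1) (hSM hx.1) hxy ▸ hx.2)
      rw [← lintegral_inter_add_sdiff _ S h2]
      refine (add_le_add a1 a2).trans ?_
      rw [← measure_union hd hm, ← image_union, inter_union_sdiff]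
    · intro x hx
      obtain ⟨c, hc, r, hr, h1⟩ := h x hx
      obtain ⟨r', hr', h2⟩ := Metric.mem_nhdsWithin_iff.1 ((hg x hx).eventually (gt_mem_nhds hc))
      refine ⟨Metric.ball x (min r r'), mem_nhdsWithin_of_mem_nhds
        (Metric.ball_mem_nhds x (lt_min hr hr')), _, Subset.rfl, measurableSet_ball,
        fun S hS hSm => ?_⟩
      refine le_trans ?_ (h1 S fun y hy =>
        ⟨(hS hy).1, Metric.ball_subset_ball (min_le_left _ _) (hS hy).2⟩)
      rw [← setLIntegral_const]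
      exact setLIntegral_mono' hSm fun y hy => ENNReal.ofReal_le_ofReal (le_of_lt
        (h2 ⟨Metric.ball_subset_ball (min_le_right _ _) (hS hy).2, (hS hy).1⟩))
  obtain ⟨U, h1, -, h3⟩ := key
  exact h3 M (fun x hx => ⟨hx, h1 hx⟩) hM.isClosed.measurableSet

lemma bound {M : Set (Eu A)} (hM : IsCompact M) {Y : Eu A → Eu A}
    (hY : ∀ x ∈ M, ContDiffAt ℝ 1 Y x) :
    ∃ C, 1 ≤ C ∧ ∀ x ∈ M, ‖Y x‖ ≤ C ∧ ‖fderiv ℝ Y x‖ ≤ C := by
  obtain ⟨C1, h1⟩ := hM.exists_bound_of_continuousOn (f := Y)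
    fun x hx => (hY x hx).continuousAt.continuousWithinAt
  obtain ⟨C2, h2⟩ := hM.exists_bound_of_continuousOn (f := fderiv ℝ Y)
    fun x hx => ((hY x hx).continuousAt_fderiv one_ne_zero).continuousWithinAt
  exact ⟨max 1 (max C1 C2), le_max_left _ _, fun x hx =>
    ⟨(h1 x hx).trans (le_max_of_le_right (le_max_left _ _)),
      (h2 x hx).trans (le_max_of_le_right (le_max_right _ _))⟩⟩

lemma small {a b : ℝ} (hb : 0 < b) : ∀ᶠ t : ℝ in 𝓝 0, |t| * a < b := by
  have h : Tendsto (fun t : ℝ => |t| * a) (𝓝 0) (𝓝 (|0| * a)) := Continuous.tendsto (by fun_prop) _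
  rw [abs_zero, zero_mul] at h
  exact h.eventually (gt_mem_nhds hb)

lemma inj (X : Emb A n) {Y : Eu A → Eu A} (hY : ∀ x ∈ X.M, ContDiffAt ℝ 1 Y x) :
    ∀ᶠ t : ℝ in 𝓝 0, InjOn (fun x => X.pr (x + t • Y x)) X.M ∧
      MapsTo (fun x => X.pr (x + t • Y x)) X.M X.M := by
  obtain ⟨C, hC, hb⟩ := bound X.cpt hY
  obtain ⟨r1, hr1, h1⟩ := pr_lin X (ε := 1 / 8) (by norm_num)
  obtain ⟨r2, hr2, h2⟩ := unif_lin X.cpt hY one_pos
  filter_upwards [small (a := 5 * C) hr1, small (a := 5 * C) hr2, small (a := C) X.δ_pos,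
    small (a := C + 1) (b := 1 / 8) (by norm_num)] with t t1 t2 t3 t4
  have ht := abs_nonneg t
  have htC : 0 ≤ |t| * C := by positivity
  have hn : ∀ x ∈ X.M, ‖t • Y x‖ ≤ |t| * C := fun x hx => by
    rw [norm_smul, Real.norm_eq_abs]
    exact mul_le_mul_of_nonneg_left (hb x hx).1 ht
  have hmv : ∀ x ∈ X.M, ‖X.pr (x + t • Y x) - x‖ ≤ 2 * (|t| * C) := fun x hx => by
    have a1 := h1 x hx (x + t • Y x) x (by rw [add_sub_cancel_left]; linarith [hn x hx])
      (by simpa using hr1)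
    rw [add_sub_cancel_left, X.fix x hx] at a1
    have a2 := norm_le_norm_add_norm_sub' (X.pr (x + t • Y x) - x) (X.P x (t • Y x))
    linarith [hn x hx, (Emb.isProj hx).norm_le (t • Y x)]
  refine ⟨fun x hx y hy hxy => ?_, fun x hx => X.maps x hx _ ?_⟩
  swap
  · rw [add_sub_cancel_left]
    exact (hn x hx).trans_lt t3
  simp only at hxy
  have a0 : ‖y - x‖ ≤ 4 * (|t| * C) := by
    have := norm_sub_le_norm_sub_add_norm_sub y (X.pr (y + t • Y y)) x
    rw [norm_sub_rev y (X.pr _)] at this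
    have h3 := hmv x hx
    rw [hxy] at h3
    linarith [hmv y hy]
  have a1 := h1 x hx y x (by linarith) (by simpa using hr1)
  have a2 := h2 x hx y x (by linarith) (by simpa using hr2)
  have a3 := h1 x hx (y + t • Y y) (x + t • Y x) (by
    rw [add_sub_right_comm]
    linarith [norm_add_le (y - x) (t • Y y), hn y hy])
    (by rw [add_sub_cancel_left]; linarith [hn x hx])
  rw [X.fix x hx, X.fix y hy] at a1
  have e : y + t • Y y - (x + t • Y x) = y - x + t • (Y y - Y x) := by rw [smul_sub]; abel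
  rw [hxy, sub_self, zero_sub, norm_neg, e, map_add] at a3
  set v := y - x with hv
  set w := t • (Y y - Y x) with hw
  have hv0 := norm_nonneg v
  have a4 : ‖Y y - Y x‖ ≤ (C + 1) * ‖v‖ := by
    have := norm_le_norm_add_norm_sub' (Y y - Y x) (fderiv ℝ Y x v)
    have h3 := ((fderiv ℝ Y x).le_opNorm v).trans (mul_le_mul_of_nonneg_right (hb x hx).2 hv0)
    linarith
  have a5 : ‖w‖ ≤ 1 / 8 * ‖v‖ := by
    rw [hw, norm_smul, Real.norm_eq_abs]
    refine (mul_le_mul_of_nonneg_left a4 ht).trans ?_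
    rw [← mul_assoc]
    exact mul_le_mul_of_nonneg_right t4.le hv0
  have a6 := norm_le_norm_add_norm_sub' v (X.P x v)
  have a7 := norm_le_add_norm_add (X.P x v) (X.P x w)
  have a8 := (Emb.isProj hx).norm_le w
  have a9 := norm_add_le v w
  exact (sub_eq_zero.1 (norm_le_zero_iff.1 (by linarith : ‖v‖ ≤ 0))).symm

lemma det_est (X : Emb A n) {Y : Eu A → Eu A} (hY : ∀ x ∈ X.M, ContDiffAt ℝ 1 Y x)
    (htan : ∀ x ∈ X.M, X.P x (Y x) = Y x) {η : ℝ} (hη : 0 < η) :
    ∀ᶠ t : ℝ in 𝓝 0, ∀ x ∈ X.M, ∀ (L : Eu n →L[ℝ] Eu A) (π : Eu A →L[ℝ] Eu n),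
      Frame (X.P x) L π → 1 + t * divP X.P Y x - η * |t| ≤
        (π.comp ((fderiv ℝ (fun x => X.pr (x + t • Y x)) x).comp L)).det := by
  obtain ⟨C, hC, hb⟩ := bound X.cpt hY
  obtain ⟨T, hT, hT'⟩ := det_deriv (n := n)
  set m := (2 * ‖T‖ + 3) * C with hm
  have hm0 : 0 ≤ m := by positivity
  set ε := min 1 (η / (m + 1)) with hε
  have hε0 : 0 < ε := lt_min one_pos (by positivity)
  have hε1 : ε ≤ 1 := min_le_left _ _
  have hε2 : ε * m ≤ η := by
    have : ε * (m + 1) ≤ η := (le_div_iff₀ (by positivity)).1 (min_le_right _ _)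
    linarith
  obtain ⟨r0, hr0, h0⟩ := Metric.eventually_nhds_iff.1 (hT'.isLittleO.bound hε0)
  obtain ⟨r1, hr1, h1⟩ := unif_lin X.cpt (G := X.P)
    (fun _ _ => X.P_smooth.contDiffAt.of_le (by simp)) hε0
  obtain ⟨r2, hr2, h2⟩ := unif_near X.cpt (F := X.P)
    (fun x _ => X.P_smooth.continuous.continuousAt) hε0
  filter_upwards [small (a := 3 * C) hr0, small (a := C) hr1, small (a := C) hr2]
    with t t0 t1 t2 x hx L π h
  have ht := abs_nonneg t
  have htC : 0 ≤ |t| * C := by positivity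
  have hn : ‖t • Y x‖ ≤ |t| * C := by
    rw [norm_smul, Real.norm_eq_abs]
    exact mul_le_mul_of_nonneg_left (hb x hx).1 ht
  set z := x + t • Y x with hz
  set DY := fderiv ℝ Y x with hDY
  have hD : HasFDerivAt (fun x => X.pr (x + t • Y x))
      ((X.P z).comp (ContinuousLinearMap.id ℝ (Eu A) + t • DY)) x :=
    (X.pr_hasFDerivAt z).comp x ((hasFDerivAt_id x).add
      (((hY x hx).differentiableAt one_ne_zero).hasFDerivAt.const_smul t))
  have hzx : z - x = t • Y x := add_sub_cancel_left _ _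
  have a1 := h1 x hx z x (by rw [hzx]; linarith) (by simpa using hr1)
  have a2 := (h2 x hx z (by rw [hzx]; linarith)).le
  rw [hzx] at a1
  set Q := X.P z - X.P x - fderiv ℝ X.P x (t • Y x) + t • (X.P z - X.P x).comp DY with hQ
  have hQn : ‖Q‖ ≤ 2 * (ε * (|t| * C)) := by
    have b1 : ‖t • (X.P z - X.P x).comp DY‖ ≤ |t| * (ε * C) := by
      rw [norm_smul, Real.norm_eq_abs]
      exact mul_le_mul_of_nonneg_left ((ContinuousLinearMap.opNorm_comp_le _ _).trans
        (mul_le_mul a2 (hb x hx).2 (norm_nonneg _) hε0.le)) ht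
    have b2 := mul_le_mul_of_nonneg_left hn hε0.le
    refine (norm_add_le _ _).trans ?_
    linarith
  set B := t • π.comp (DY.comp L) + π.comp (Q.comp L) with hB
  have hII : ∀ u, π (fderiv ℝ X.P x (Y x) (L u)) = 0 := fun u => by
    have := Emb.II_normal hx (Y x) (L u)
    rw [htan x hx, h.P_L] at this
    rw [← h.pi_P, ← map_zero π, ← this]
    rfl
  have e : π.comp (((X.P z).comp (ContinuousLinearMap.id ℝ (Eu A) + t • DY)).comp L) = 1 + B := by
    refine ContinuousLinearMap.ext fun u => ?_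
    simp only [hB, hQ, ContinuousLinearMap.comp_apply, add_apply, sub_apply, smul_apply,
      ContinuousLinearMap.id_apply, one_apply_eq_self, map_add, map_sub, map_smul, hII, h.pi_P, h.left, smul_zero,
      smul_sub]
    abel
  have c1 := (h.norm_sw Q).trans hQn
  have c2 : ‖B‖ ≤ 3 * (|t| * C) := by
    have b1 : ‖t • π.comp (DY.comp L)‖ ≤ |t| * C := by
      rw [norm_smul, Real.norm_eq_abs]
      exact mul_le_mul_of_nonneg_left ((h.norm_sw DY).trans (hb x hx).2) ht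
    have b2 := mul_le_mul_of_nonneg_right hε1 htC
    refine (norm_add_le _ _).trans ?_
    linarith
  have c3 := h0 (y := B) (by rw [dist_zero_right]; linarith)
  have c4 : T B = t * divP X.P Y x + T (π.comp (Q.comp L)) := by
    rw [hB, map_add, map_smul, hT, h.trace_sw]
    rfl
  have c5 := (T.le_opNorm (π.comp (Q.comp L))).trans
    (mul_le_mul_of_nonneg_left c1 (norm_nonneg _))
  have c6 : (1 : Eu n →L[ℝ] Eu n).det = 1 := LinearMap.det_id
  simp only [add_zero, sub_zero, c6, c4, Real.norm_eq_abs] at c3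
  rw [Real.norm_eq_abs] at c5
  rw [hD.fderiv, e]
  have c7 := mul_le_mul_of_nonneg_left c2 hε0.le
  have c8 := mul_le_mul_of_nonneg_right hε2 ht
  rw [hm] at c8
  linarith [(abs_le.1 c3).1, (abs_le.1 c5).1]

lemma divP_cont (X : Emb A n) {Y : Eu A → Eu A} (hY : ∀ x ∈ X.M, ContDiffAt ℝ 1 Y x) :
    ContinuousOn (divP X.P Y) X.M := by
  intro x hx
  have h1 := (hY x hx).continuousAt_fderiv one_ne_zero
  have h2 := X.P_smooth.continuous
  refine ContinuousAt.continuousWithinAt ?_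
  unfold divP
  fun_prop

end EDivAux

open EDivAux

theorem Emb.μ_finite (X : Emb A n) : IsFiniteMeasure X.μ :=
  ⟨by
    rw [Emb.μ, Measure.restrict_apply_univ]
    exact X.cpt.measure_lt_top_of_nhdsWithin fun x hx => fin_loc X hx⟩

/-- divergence theorem on a closed submanifold -/
theorem Emb.integral_divP (X : Emb A n) (Y : Eu A → Eu A) (hY : ∀ x ∈ X.M, ContDiffAt ℝ 1 Y x)
    (htan : ∀ x ∈ X.M, X.P x (Y x) = Y x) : ∫ x, divP X.P Y x ∂X.μ = 0 := by
  have := X.μ_finite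
  have hc := divP_cont X hY
  have hfin : (μHE[n] : Measure (Eu A)) X.M ≠ ⊤ := by
    simpa [Emb.μ] using measure_ne_top X.μ univ
  have hint : Integrable (divP X.P Y) X.μ :=
    hc.integrableOn_of_subset_isCompact X.cpt X.measurableSet_M Subset.rfl hfin
  set I := ∫ x, divP X.P Y x ∂X.μ with hI
  set m := X.μ.real univ with hm
  have hm0 : 0 ≤ m := measureReal_nonneg
  have key : ∀ η : ℝ, 0 < η → ∀ᶠ t : ℝ in 𝓝 0, t ≠ 0 → t * I ≤ 2 * η * |t| * m := by
    intro η hη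
    filter_upwards [inj X hY, det_est X hY htan hη] with t h1 h2 ht
    have hF : ∀ x ∈ X.M, ContDiffAt ℝ 1 (fun x => X.pr (x + t • Y x)) x := fun x hx =>
      (X.smooth.contDiffAt.of_le (by simp)).comp x (contDiffAt_id.add ((hY x hx).const_smul t))
    have h3 := glob (ν := μHE[n]) X.cpt (fun x hx => (hF x hx).continuousAt.continuousWithinAt)
      h1.1 (g := fun x => 1 - 2 * η * |t| + t * divP X.P Y x) (by fun_prop) fun x hx => by
        obtain ⟨L, π, h⟩ := exists_frame (Emb.isProj hx)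
        have h4 := h2 x hx L π h
        have h5 : 0 < η * |t| := mul_pos hη (abs_pos.2 ht)
        obtain ⟨c, hc1, hc2⟩ := exists_between
          (lt_of_lt_of_le (by linarith : 1 - 2 * η * |t| + t * divP X.P Y x <
            1 + t * divP X.P Y x - η * |t|) h4)
        exact ⟨c, hc1, loc_le X hx (hF x hx) h hc2⟩
    have h4 := ENNReal.toReal_mono hfin (h3.trans (measure_mono h1.2.image_subset))
    have h5 := integral_eq_lintegral_pos_part_sub_lintegral_neg_part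
      ((integrable_const (1 - 2 * η * |t|)).add (hint.const_mul t))
    have h6 : m = ((μHE[n] : Measure (Eu A)) X.M).toReal := by
      simp [hm, Emb.μ, Measure.real]
    simp only [Pi.add_apply] at h5
    rw [integral_add (integrable_const _) (hint.const_mul t), integral_const, integral_const_mul,
      smul_eq_mul, ← hm, ← hI] at h5
    rw [← h6] at h4
    have h7 := ENNReal.toReal_nonneg
      (a := ∫⁻ x, ENNReal.ofReal (-(1 - 2 * η * |t| + t * divP X.P Y x)) ∂X.μ)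
    change (∫⁻ x, ENNReal.ofReal (1 - 2 * η * |t| + t * divP X.P Y x) ∂X.μ).toReal ≤ m at h4
    linarith
  have key2 : ∀ η : ℝ, 0 < η → |I| ≤ 2 * η * m := by
    intro η hη
    obtain ⟨r, hr, h⟩ := Metric.eventually_nhds_iff.1 (key η hη)
    have hr2 : 0 < r / 2 := half_pos hr
    have h1 := h (y := r / 2) (by rw [dist_zero_right, Real.norm_of_nonneg hr2.le]; linarith)
      hr2.ne'
    have h2 := h (y := -(r / 2))
      (by rw [dist_zero_right, norm_neg, Real.norm_of_nonneg hr2.le]; linarith)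
      (neg_ne_zero.2 hr2.ne')
    rw [abs_neg] at h2
    rw [abs_of_pos hr2] at h1 h2
    exact abs_le.2 ⟨by nlinarith, by nlinarith⟩
  refine abs_nonpos_iff.1 (le_of_forall_pos_le_add fun ε hε => ?_)
  have h := key2 (ε / (2 * (m + 1))) (by positivity)
  have h2 : 2 * (ε / (2 * (m + 1))) * m ≤ ε := by
    rw [show 2 * (ε / (2 * (m + 1))) * m = ε * (m / (m + 1)) by field_simp]
    exact mul_le_of_le_one_right hε.le ((div_le_one (by positivity)).2 (by linarith))
  linarith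

end Pool.Agent.AlEmb
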