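import Pool.Agent.Lib.MP_3fa020_gt.EBasic

/-!
Distinct points are joined by a minimizing geodesic that solves the geodesic equation.
-/

namespace Pool.Agent.AlEmb

open Set Filter Topology MeasureTheory
open scoped InnerProductSpace ContDiff

variable {A n : ℕ}

namespace EGeodAux

section Reg

variable {γ : ℝ → Eu A} {l K : ℝ}

lemma slope_norm {a b : ℝ} (h : a < b) : ‖slope γ a b‖ = ‖γ b - γ a‖ / (b - a) := by
  rw [slope_def_module, norm_smul, norm_inv, Real.norm_of_nonneg (sub_pos.2 h).le, div_eq_inv_mul]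

lemma direct (h1 : ∀ s ∈ Icc 0 l, ∀ t ∈ Icc 0 l, s ≤ t → ‖γ t - γ s‖ ≤ t - s)
    (h2 : ∀ s ∈ Icc 0 l, ∀ t ∈ Icc 0 l, s ≤ t → t - s ≤ ‖γ t - γ s‖ + K ^ 2 / 32 * (t - s) ^ 2)
    {a u v b ρ : ℝ} (ha : 0 ≤ a) (hau : a ≤ u) (huv : u < v) (hvb : v ≤ b) (hb : b ≤ l)
    (hK : 0 ≤ K) (hρ : 0 ≤ ρ) (hr : b - a ≤ ρ ^ 2) (h4 : b - a ≤ 4 * (v - u)) :
    ‖slope γ u v - slope γ a b‖ ≤ K * ρ / 2 := by
  have hab : a < b := by linarith
  have hL : 0 < b - a := sub_pos.2 hab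
  have hm : 0 < v - u := sub_pos.2 huv
  have ma : a ∈ Icc 0 l := ⟨ha, by linarith⟩
  have mu : u ∈ Icc 0 l := ⟨by linarith, by linarith⟩
  have mv : v ∈ Icc 0 l := ⟨by linarith, by linarith⟩
  have mb : b ∈ Icc 0 l := ⟨by linarith, hb⟩
  set s := slope γ a b with hs
  set s' := slope γ u v with hs'
  have e1 : (b - a) • s = γ b - γ a := sub_smul_slope γ a b
  have e2 : (v - u) • s' = γ v - γ u := sub_smul_slope γ u v
  have n1 : ‖s‖ ≤ 1 := by
    rw [hs, slope_norm hab, div_le_one hL]; exact h1 a ma b mb hab.le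
  have n2 : ‖s'‖ ≤ 1 := by
    rw [hs', slope_norm huv, div_le_one hm]; exact h1 u mu v mv huv.le
  have n3 : 1 - ‖s‖ ≤ K ^ 2 / 32 * (b - a) := by
    have := h2 a ma b mb hab.le
    rw [← e1, norm_smul, Real.norm_of_nonneg hL.le] at this
    nlinarith
  have n0 := norm_nonneg s
  have i1 : ⟪s, γ u - γ a⟫_ℝ ≤ ‖s‖ * (u - a) :=
    (real_inner_le_norm _ _).trans (mul_le_mul_of_nonneg_left (h1 a ma u mu hau) n0)
  have i2 : ⟪s, γ b - γ v⟫_ℝ ≤ ‖s‖ * (b - v) :=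
    (real_inner_le_norm _ _).trans (mul_le_mul_of_nonneg_left (h1 v mv b mb hvb) n0)
  have i3 : (b - a) * ‖s‖ ^ 2 = ⟪s, γ u - γ a⟫_ℝ + (v - u) * ⟪s, s'⟫_ℝ + ⟪s, γ b - γ v⟫_ℝ := by
    rw [← real_inner_self_eq_norm_sq, ← real_inner_smul_right, ← real_inner_smul_right, e1, e2,
      ← inner_add_right, ← inner_add_right]
    congr 1
    abel
  have i4 : ‖s' - s‖ ^ 2 = ‖s'‖ ^ 2 - 2 * ⟪s, s'⟫_ℝ + ‖s‖ ^ 2 := by
    rw [norm_sub_sq_real, real_inner_comm]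
  have i5 : (v - u) * ‖s' - s‖ ^ 2 ≤ 2 * (b - a) * (1 - ‖s‖) := by
    have j1 : ‖s'‖ ^ 2 ≤ 1 := pow_le_one₀ (norm_nonneg _) n2
    have j2 := mul_le_mul_of_nonneg_left j1 hm.le
    have j3 : (v - u) * (1 - ‖s‖) ^ 2 ≤ (b - a) * (1 - ‖s‖) ^ 2 :=
      mul_le_mul_of_nonneg_right (by linarith) (sq_nonneg _)
    have j4 : 0 ≤ (b - a) * (1 - ‖s‖) ^ 2 := by positivity
    rw [i4]
    nlinarith
  have i6 : ‖s' - s‖ ^ 2 ≤ (K * ρ / 2) ^ 2 := by
    have j1 : 2 * (b - a) * (1 - ‖s‖) ≤ 2 * (4 * (v - u)) * (K ^ 2 / 32 * ρ ^ 2) :=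
      mul_le_mul (by linarith) (n3.trans (mul_le_mul_of_nonneg_left hr (by positivity)))
        (by linarith) (by positivity)
    refine le_of_mul_le_mul_left ?_ hm
    nlinarith
  exact (pow_le_pow_iff_left₀ (norm_nonneg _) (by positivity) two_ne_zero).1 i6

lemma chain (h1 : ∀ s ∈ Icc 0 l, ∀ t ∈ Icc 0 l, s ≤ t → ‖γ t - γ s‖ ≤ t - s)
    (h2 : ∀ s ∈ Icc 0 l, ∀ t ∈ Icc 0 l, s ≤ t → t - s ≤ ‖γ t - γ s‖ + K ^ 2 / 32 * (t - s) ^ 2)
    (hK : 0 ≤ K) {u v : ℝ} (huv : u < v) (k : ℕ) : ∀ a b ρ : ℝ, 0 ≤ a → a ≤ u → v ≤ b → b ≤ l →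
      0 ≤ ρ → b - a ≤ ρ ^ 2 → b - a ≤ 4 ^ k * (v - u) → ‖slope γ u v - slope γ a b‖ ≤ K * ρ := by
  induction k with
  | zero =>
    intro a b ρ ha hau hvb hb hρ hr h4
    have := direct h1 h2 ha hau huv hvb hb hK hρ hr (by linarith)
    nlinarith [mul_nonneg hK hρ]
  | succ k ih =>
    intro a b ρ ha hau hvb hb hρ hr h4
    by_cases h : b - a ≤ 4 * (v - u)
    · have := direct h1 h2 ha hau huv hvb hb hK hρ hr h
      nlinarith [mul_nonneg hK hρ]
    · rw [not_le] at h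
      set a' := min u (b - (b - a) / 4) with ha'
      have p1 : a' ≤ u := min_le_left _ _
      have p2 : a' ≤ b - (b - a) / 4 := min_le_right _ _
      have p3 : a ≤ a' := le_min hau (by linarith)
      have p4 : v ≤ a' + (b - a) / 4 := by
        rcases min_choice u (b - (b - a) / 4) with h' | h' <;> rw [ha', h'] <;> linarith
      have q1 := ih a' (a' + (b - a) / 4) (ρ / 2) (by linarith) p1 p4 (by linarith) (by linarith)
        (by linarith) (by rw [pow_succ] at h4; linarith)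
      have q2 := direct h1 h2 (u := a') (v := a' + (b - a) / 4) ha p3 (by linarith) (by linarith)
        hb hK hρ hr (by linarith)
      have q3 := norm_sub_le_norm_sub_add_norm_sub (slope γ u v) (slope γ a' (a' + (b - a) / 4))
        (slope γ a b)
      linarith

lemma near (h1 : ∀ s ∈ Icc 0 l, ∀ t ∈ Icc 0 l, s ≤ t → ‖γ t - γ s‖ ≤ t - s)
    (h2 : ∀ s ∈ Icc 0 l, ∀ t ∈ Icc 0 l, s ≤ t → t - s ≤ ‖γ t - γ s‖ + K ^ 2 / 32 * (t - s) ^ 2)
    (hK : 0 ≤ K) {u v a b ρ : ℝ} (ha : 0 ≤ a) (hb : b ≤ l) (hu : u ∈ Icc a b) (hv : v ∈ Icc a b)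
    (huv : u ≠ v) (hρ : 0 ≤ ρ) (hr : b - a ≤ ρ ^ 2) : ‖slope γ u v - slope γ a b‖ ≤ K * ρ := by
  wlog h : u < v generalizing u v
  · rw [slope_comm]
    exact this hv hu huv.symm (lt_of_le_of_ne (not_lt.1 h) huv.symm)
  obtain ⟨k, hk⟩ := pow_unbounded_of_one_lt ((b - a) / (v - u)) (by norm_num : (1 : ℝ) < 4)
  exact chain h1 h2 hK h k a b ρ ha hu.1 hv.2 hb hρ hr ((div_lt_iff₀ (sub_pos.2 h)).1 hk).le

lemma pair (h1 : ∀ s ∈ Icc 0 l, ∀ t ∈ Icc 0 l, s ≤ t → ‖γ t - γ s‖ ≤ t - s)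
    (h2 : ∀ s ∈ Icc 0 l, ∀ t ∈ Icc 0 l, s ≤ t → t - s ≤ ‖γ t - γ s‖ + K ^ 2 / 32 * (t - s) ^ 2)
    (hK : 0 ≤ K) {t ρ : ℝ} (hρ : 0 ≤ ρ) {u v u' v' : ℝ}
    (hu : u ∈ Icc 0 l ∩ Metric.ball t (ρ ^ 2 / 2)) (hv : v ∈ Icc 0 l ∩ Metric.ball t (ρ ^ 2 / 2))
    (hu' : u' ∈ Icc 0 l ∩ Metric.ball t (ρ ^ 2 / 2))
    (hv' : v' ∈ Icc 0 l ∩ Metric.ball t (ρ ^ 2 / 2)) (huv : u ≠ v) (huv' : u' ≠ v') :
    ‖slope γ u v - slope γ u' v'‖ ≤ 2 * K * ρ := by
  have hm : ∀ z ∈ Icc 0 l ∩ Metric.ball t (ρ ^ 2 / 2),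
      z ∈ Icc (max 0 (t - ρ ^ 2 / 2)) (min l (t + ρ ^ 2 / 2)) := by
    rintro z ⟨z1, z2⟩
    rw [Real.ball_eq_Ioo] at z2
    exact ⟨max_le z1.1 z2.1.le, le_min z1.2 z2.2.le⟩
  have hr : min l (t + ρ ^ 2 / 2) - max 0 (t - ρ ^ 2 / 2) ≤ ρ ^ 2 := by
    linarith [min_le_right l (t + ρ ^ 2 / 2), le_max_right 0 (t - ρ ^ 2 / 2)]
  have q1 := near h1 h2 hK (le_max_left _ _) (min_le_left _ _) (hm u hu) (hm v hv) huv hρ hr
  have q2 := near h1 h2 hK (le_max_left _ _) (min_le_left _ _) (hm u' hu') (hm v' hv') huv' hρ hr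
  rw [norm_sub_rev] at q2
  linarith [norm_sub_le_norm_sub_add_norm_sub (slope γ u v)
    (slope γ (max 0 (t - ρ ^ 2 / 2)) (min l (t + ρ ^ 2 / 2))) (slope γ u' v')]

lemma small (hK : 0 ≤ K) {ε : ℝ} (hε : 0 < ε) : ∃ ρ > 0, 2 * K * ρ < ε := by
  refine ⟨ε / (2 * K + 1), by positivity, ?_⟩
  rw [mul_div_assoc', div_lt_iff₀ (by positivity)]
  nlinarith

lemma exists_vel (hl : 0 < l) (h1 : ∀ s ∈ Icc 0 l, ∀ t ∈ Icc 0 l, s ≤ t → ‖γ t - γ s‖ ≤ t - s)
    (h2 : ∀ s ∈ Icc 0 l, ∀ t ∈ Icc 0 l, s ≤ t → t - s ≤ ‖γ t - γ s‖ + K ^ 2 / 32 * (t - s) ^ 2)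
    (hK : 0 ≤ K) : ∃ w : ℝ → Eu A, Continuous w ∧
      ∀ t ∈ Icc 0 l, HasDerivWithinAt γ (w t) (Icc 0 l) t ∧ ‖w t‖ = 1 := by
  have hne : ∀ t ∈ Icc 0 l, (𝓝[Icc 0 l \ {t}] t).NeBot := fun t ht =>
    accPt_principal_iff_nhdsWithin.1 ((uniqueDiffOn_Icc hl t ht).accPt)
  have hev : ∀ t, ∀ t', ∀ ρ, t ∈ Metric.ball t' ρ → ∀ᶠ u in 𝓝[Icc 0 l \ {t}] t,
      u ∈ Icc 0 l ∩ Metric.ball t' ρ ∧ t ≠ u := by
    intro t t' ρ h
    filter_upwards [self_mem_nhdsWithin, nhdsWithin_le_nhds (Metric.isOpen_ball.mem_nhds h)]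
      with u hu hu' using ⟨⟨hu.1, hu'⟩, fun e => hu.2 e.symm⟩
  have hex : ∀ t ∈ Icc 0 l, ∃ w, Tendsto (slope γ t) (𝓝[Icc 0 l \ {t}] t) (𝓝 w) := by
    intro t ht
    have := hne t ht
    refine cauchy_map_iff_exists_tendsto.1 (Metric.cauchy_iff.2 ⟨inferInstance, fun ε hε => ?_⟩)
    obtain ⟨ρ, hρ, h⟩ := small hK hε
    have hb : t ∈ Metric.ball t (ρ ^ 2 / 2) := Metric.mem_ball_self (by positivity)
    refine ⟨_, image_mem_map (hev t t _ hb), ?_⟩
    rintro _ ⟨u, hu, rfl⟩ _ ⟨v, hv, rfl⟩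
    rw [dist_eq_norm]
    exact (pair h1 h2 hK hρ.le ⟨ht, hb⟩ hu.1 ⟨ht, hb⟩ hv.1 hu.2 hv.2).trans_lt h
  choose! w hw using hex
  have hc : ContinuousOn w (Icc 0 l) := by
    intro t ht
    rw [Metric.continuousWithinAt_iff]
    intro ε hε
    obtain ⟨ρ, hρ, h⟩ := small hK hε
    refine ⟨ρ ^ 2 / 2, by positivity, fun {t'} ht' hd => ?_⟩
    have hb : t ∈ Metric.ball t (ρ ^ 2 / 2) := Metric.mem_ball_self (by positivity)
    have := hne t ht
    have := hne t' ht'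
    rw [dist_eq_norm]
    refine lt_of_le_of_lt (le_of_tendsto ((hw t' ht').sub_const (w t)).norm ?_) h
    filter_upwards [hev t' t _ hd] with u hu
    refine le_of_tendsto ((hw t ht).const_sub (slope γ t' u)).norm ?_
    filter_upwards [hev t t _ hb] with v hv
    exact pair h1 h2 hK hρ.le ⟨ht', hd⟩ hu.1 ⟨ht, hb⟩ hv.1 hu.2 hv.2
  have hs : ∀ t ∈ Icc 0 l, ∀ u ∈ Icc 0 l, t < u →
      ‖slope γ t u‖ ≤ 1 ∧ 1 - K ^ 2 / 32 * |u - t| ≤ ‖slope γ t u‖ := by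
    intro t ht u hu h
    have hp := sub_pos.2 h
    rw [slope_norm h, div_le_one hp, le_div_iff₀ hp, abs_of_pos hp]
    exact ⟨h1 t ht u hu h.le, by linarith [h2 t ht u hu h.le]⟩
  have hs' : ∀ t ∈ Icc 0 l, ∀ᶠ u in 𝓝[Icc 0 l \ {t}] t,
      ‖slope γ t u‖ ≤ 1 ∧ 1 - K ^ 2 / 32 * |u - t| ≤ ‖slope γ t u‖ := by
    intro t ht
    filter_upwards [self_mem_nhdsWithin] with u hu
    rcases lt_or_gt_of_ne (show u ≠ t from hu.2) with h | h
    · rw [slope_comm, abs_sub_comm]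
      exact hs u hu.1 t ht h
    · exact hs t ht u hu.1 h
  refine ⟨fun t => w (projIcc 0 l hl.le t),
    hc.comp_continuous (continuous_subtype_val.comp continuous_projIcc) fun t => Subtype.prop _,
    fun t ht => ?_⟩
  simp only [projIcc_of_mem _ ht]
  have := hne t ht
  refine ⟨hasDerivWithinAt_iff_tendsto_slope.2 (hw t ht), le_antisymm
    (le_of_tendsto (hw t ht).norm ((hs' t ht).mono fun u hu => hu.1)) ?_⟩
  have h3 : Tendsto (fun u => 1 - K ^ 2 / 32 * |u - t|) (𝓝[Icc 0 l \ {t}] t) (𝓝 1) := by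
    refine Tendsto.mono_left ?_ nhdsWithin_le_nhds
    exact Continuous.tendsto' (by fun_prop) _ _ (by simp)
  exact le_of_tendsto_of_tendsto h3 (hw t ht).norm ((hs' t ht).mono fun u hu => hu.2)

end Reg

variable {X : Emb A n}

lemma lip (X : Emb A n) :
    ∃ C, 0 ≤ C ∧ ∀ x ∈ X.M, ∀ z, ‖z - x‖ ≤ 1 → ‖X.P z - X.P x‖ ≤ C * ‖z - x‖ := by
  obtain ⟨R, hR⟩ := X.cpt.isBounded.subset_closedBall 0
  have hc : Continuous (fderiv ℝ X.P) := X.P_smooth.continuous_fderiv (by simp)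
  obtain ⟨C, hC⟩ := (isCompact_closedBall (0 : Eu A) (R + 1)).exists_bound_of_continuousOn
    (f := fderiv ℝ X.P) hc.continuousOn
  refine ⟨max C 0, le_max_right _ _, fun x hx z hz => ?_⟩
  have h1 : ‖x‖ ≤ R := by simpa using hR hx
  refine (convex_closedBall (0 : Eu A) (R + 1)).norm_image_sub_le_of_norm_fderiv_le
    (fun y _ => X.P_diff y) (fun y hy => (hC y hy).trans (le_max_left _ _))
    (by simpa using by linarith) ?_
  have := norm_add_le (z - x) x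
  rw [sub_add_cancel] at this
  simpa using by linarith

lemma local_quad (G : Geo X) :
    ∃ C, 0 ≤ C ∧ ∀ x ∈ X.M, ∀ y ∈ X.M, G.d x y ≤ ‖y - x‖ + C * G.d x y ^ 2 := by
  obtain ⟨C, hC, h⟩ := lip X
  have hr : 0 < min 1 X.δ := lt_min one_pos X.δ_pos
  refine ⟨C + 1 / min 1 X.δ, by positivity, fun x hx y hy => ?_⟩
  have hd0 := G.nonneg x y
  have hle : ‖y - x‖ ≤ G.d x y := by rw [norm_sub_rev]; exact G.norm_le x hx y hy
  have hp : 0 ≤ 1 / min 1 X.δ * G.d x y ^ 2 := by positivity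
  by_cases hxy : ‖y - x‖ < min 1 X.δ
  swap
  · rw [not_lt] at hxy
    have : G.d x y ≤ 1 / min 1 X.δ * G.d x y ^ 2 := by
      rw [one_div_mul_eq_div, le_div_iff₀ hr]
      nlinarith
    nlinarith [norm_nonneg (y - x), sq_nonneg (G.d x y)]
  have hn : ∀ t ∈ Icc (0 : ℝ) 1, ‖x + t • (y - x) - x‖ ≤ ‖y - x‖ := by
    intro t ht
    rw [add_sub_cancel_left, norm_smul, Real.norm_of_nonneg ht.1]
    exact mul_le_of_le_one_left (norm_nonneg _) ht.2
  have hd : ∀ t : ℝ, HasDerivAt (fun t : ℝ => X.pr (x + t • (y - x)))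
      (X.P (x + t • (y - x)) (y - x)) t := by
    intro t
    have h1 : HasDerivAt (fun t : ℝ => x + t • (y - x)) (y - x) t := by
      simpa using ((hasDerivAt_id t).smul_const (y - x)).const_add x
    exact (X.pr_hasFDerivAt _).comp_hasDerivAt t h1
  have hc : Continuous fun t : ℝ => X.P (x + t • (y - x)) (y - x) := by
    have := X.P_smooth.continuous
    fun_prop
  have := G.le_len 0 1 (fun t => X.pr (x + t • (y - x))) (fun t => X.P (x + t • (y - x)) (y - x))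
    zero_le_one
    (fun t ht => X.maps x hx _ (((hn t ht).trans_lt hxy).trans_le (min_le_right _ _)))
    (fun t _ => (hd t).hasDerivWithinAt) hc.continuousOn
  simp only [zero_smul, add_zero, one_smul, add_sub_cancel, X.fix x hx, X.fix y hy] at this
  have h2 : ∫ t in (0 : ℝ)..1, ‖X.P (x + t • (y - x)) (y - x)‖ ≤
      ∫ _ in (0 : ℝ)..1, (‖y - x‖ + C * ‖y - x‖ ^ 2) := by
    refine intervalIntegral.integral_mono_on zero_le_one (hc.norm.intervalIntegrable _ _)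
      (by simp) fun t ht => ?_
    have h3 := (h x hx _ (((hn t ht).trans hxy.le).trans (min_le_left _ _))).trans
      (mul_le_mul_of_nonneg_left (hn t ht) hC)
    have h4 : X.P (x + t • (y - x)) (y - x) =
        X.P x (y - x) + (X.P (x + t • (y - x)) - X.P x) (y - x) := by simp
    rw [h4]
    refine (norm_add_le _ _).trans ?_
    have h5 := (Emb.isProj hx).norm_le (y - x)
    have h6 := (X.P (x + t • (y - x)) - X.P x).le_opNorm (y - x)
    have h7 := mul_le_mul_of_nonneg_right h3 (norm_nonneg (y - x))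
    linarith
  have h8 := mul_le_mul_of_nonneg_left (pow_le_pow_left₀ (norm_nonneg _) hle 2) hC
  simp only [intervalIntegral.integral_const, sub_zero, one_smul] at h2
  linarith

/-- first variation of the energy -/
lemma first_var (G : Geo X) {γ w η ζ : ℝ → Eu A} {l : ℝ} (hl : 0 < l) (cγ : Continuous γ)
    (cw : Continuous w) (cη : Continuous η) (cζ : Continuous ζ) (mem : ∀ t ∈ Icc 0 l, γ t ∈ X.M)
    (vel : ∀ t ∈ Icc 0 l, HasDerivWithinAt γ (w t) (Icc 0 l) t)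
    (unit : ∀ t ∈ Icc 0 l, ‖w t‖ = 1) (tan : ∀ t ∈ Icc 0 l, X.P (γ t) (w t) = w t)
    (hd : G.d (γ 0) (γ l) = l) (dη : ∀ t, HasDerivAt η (ζ t) t) (h0 : η 0 = 0) (h1 : η l = 0) :
    ∫ t in (0 : ℝ)..l, (⟪w t, ζ t⟫_ℝ + ⟪X.II (γ t) (w t) (w t), η t⟫_ℝ) = 0 := by
  have cP := X.P_smooth.continuous
  have cD : Continuous (fderiv ℝ X.P) := X.P_smooth.continuous_fderiv (by simp)
  set V : ℝ → ℝ → Eu A := fun τ t => X.P (γ t + τ • η t) (w t + τ • ζ t) with hV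
  set V' : ℝ → ℝ → Eu A := fun τ t =>
    fderiv ℝ X.P (γ t + τ • η t) (η t) (w t + τ • ζ t) + X.P (γ t + τ • η t) (ζ t) with hV'
  have cV : ∀ τ, Continuous (V τ) := fun τ => by simp only [hV]; fun_prop
  have cF : Continuous fun p : ℝ × ℝ => 2 * ⟪V p.1 p.2, V' p.1 p.2⟫_ℝ := by
    simp only [hV, hV']; fun_prop
  have dV : ∀ τ t, HasDerivAt (fun τ => ‖V τ t‖ ^ 2) (2 * ⟪V τ t, V' τ t⟫_ℝ) τ := by
    intro τ t
    have a1 : HasDerivAt (fun τ : ℝ => γ t + τ • η t) (η t) τ := by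
      simpa using ((hasDerivAt_id τ).smul_const (η t)).const_add (γ t)
    have a2 : HasDerivAt (fun τ : ℝ => w t + τ • ζ t) (ζ t) τ := by
      simpa using ((hasDerivAt_id τ).smul_const (ζ t)).const_add (w t)
    exact (((X.P_diff _).hasFDerivAt.comp_hasDerivAt τ a1).clm_apply a2).norm_sq
  obtain ⟨B, hB⟩ := ((isCompact_Icc (a := (-1 : ℝ)) (b := 1)).prod
    (isCompact_Icc (a := (0 : ℝ)) (b := l))).exists_bound_of_continuousOn cF.continuousOn
  have hI : uIoc 0 l ⊆ Icc 0 l := by rw [uIoc_of_le hl.le]; exact Ioc_subset_Icc_self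
  have key := (intervalIntegral.hasDerivAt_integral_of_dominated_loc_of_deriv_le (μ := volume)
    (a := 0) (b := l) (F := fun τ t => ‖V τ t‖ ^ 2) (F' := fun τ t => 2 * ⟪V τ t, V' τ t⟫_ℝ)
    (x₀ := 0) (s := Icc (-1) 1) (bound := fun _ => B) (Icc_mem_nhds (by norm_num) one_pos)
    (Eventually.of_forall fun τ => ((cV τ).norm.pow 2).aestronglyMeasurable)
    (((cV 0).norm.pow 2).intervalIntegrable _ _)
    (cF.comp (Continuous.prodMk_right 0)).aestronglyMeasurable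
    (Eventually.of_forall fun t ht τ hτ => hB (τ, t) ⟨hτ, hI ht⟩) (by simp)
    (Eventually.of_forall fun t _ τ _ => dV τ t)).2
  obtain ⟨B', hB'⟩ := (isCompact_Icc (a := (0 : ℝ)) (b := l)).exists_bound_of_continuousOn
    cη.continuousOn
  have hV0 : ∀ t ∈ Icc 0 l, V 0 t = w t := fun t ht => by simp [hV, tan t ht]
  have hE0 : ∫ t in (0 : ℝ)..l, ‖V 0 t‖ ^ 2 = l := by
    rw [intervalIntegral.integral_congr (g := fun _ => (1 : ℝ))]
    · simp
    · intro t ht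
      rw [uIcc_of_le hl.le] at ht
      simp [hV0 t ht, unit t ht]
  have hmin : IsLocalMin (fun τ => ∫ t in (0 : ℝ)..l, ‖V τ t‖ ^ 2) 0 := by
    have hs : ∀ᶠ τ : ℝ in 𝓝 0, |τ| * B' < X.δ :=
      (by fun_prop : Continuous fun τ : ℝ => |τ| * B').continuousAt.eventually_lt
        continuousAt_const (by simpa using X.δ_pos)
    filter_upwards [hs] with τ hτ
    have b1 := G.le_len 0 l (fun t => X.pr (γ t + τ • η t)) (V τ) hl.le
      (fun t ht => X.maps _ (mem t ht) _ (by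
        rw [add_sub_cancel_left, norm_smul, Real.norm_eq_abs]
        exact (mul_le_mul_of_nonneg_left (hB' t ht) (abs_nonneg τ)).trans_lt hτ))
      (fun t ht => (X.pr_hasFDerivAt _).comp_hasDerivWithinAt t
        ((vel t ht).add ((dη t).hasDerivWithinAt.const_smul τ))) (cV τ).continuousOn
    simp only [h0, h1, smul_zero, add_zero, X.fix _ (mem 0 ⟨le_rfl, hl.le⟩),
      X.fix _ (mem l ⟨hl.le, le_rfl⟩), hd] at b1
    have b2 : ∫ t in (0 : ℝ)..l, ‖V τ t‖ ≤ ∫ t in (0 : ℝ)..l, (1 / 2 + 1 / 2 * ‖V τ t‖ ^ 2) :=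
      intervalIntegral.integral_mono_on hl.le ((cV τ).norm.intervalIntegrable _ _)
        ((by have := cV τ; fun_prop : Continuous fun t =>
          1 / 2 + 1 / 2 * ‖V τ t‖ ^ 2).intervalIntegrable _ _)
        fun t _ => by nlinarith [sq_nonneg (‖V τ t‖ - 1)]
    rw [intervalIntegral.integral_add (f := fun _ => (1 / 2 : ℝ))
      (g := fun t => 1 / 2 * ‖V τ t‖ ^ 2) intervalIntegrable_const
      ((((cV τ).norm.pow 2).intervalIntegrable _ _).const_mul _),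
      intervalIntegral.integral_const_mul, intervalIntegral.integral_const] at b2
    simp only [sub_zero, smul_eq_mul] at b2
    change ∫ t in (0 : ℝ)..l, ‖V 0 t‖ ^ 2 ≤ ∫ t in (0 : ℝ)..l, ‖V τ t‖ ^ 2
    linarith
  have hz := hmin.hasDerivAt_eq_zero key
  rw [intervalIntegral.integral_const_mul, mul_eq_zero] at hz
  refine Eq.trans (intervalIntegral.integral_congr fun t ht => ?_) (hz.resolve_left two_ne_zero)
  rw [uIcc_of_le hl.le] at ht
  have c1 := Emb.II_adj (mem t ht) (w t) (w t) (η t)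
  have c2 := (Emb.isProj (mem t ht)).symm (w t) (ζ t)
  rw [tan t ht] at c1 c2
  simp only [hV0 t ht, hV', zero_smul, add_zero, inner_add_right]
  rw [c1, c2, X.II_symm, add_comm]
  rfl

lemma acc (G : Geo X) {γ w : ℝ → Eu A} {l : ℝ} (hl : 0 < l) (cγ : Continuous γ)
    (cw : Continuous w) (mem : ∀ t ∈ Icc 0 l, γ t ∈ X.M)
    (vel : ∀ t ∈ Icc 0 l, HasDerivWithinAt γ (w t) (Icc 0 l) t)
    (unit : ∀ t ∈ Icc 0 l, ‖w t‖ = 1) (tan : ∀ t ∈ Icc 0 l, X.P (γ t) (w t) = w t)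
    (hd : G.d (γ 0) (γ l) = l) :
    ∀ t ∈ Icc 0 l, HasDerivWithinAt w (X.II (γ t) (w t) (w t)) (Icc 0 l) t := by
  have cD : Continuous (fderiv ℝ X.P) := X.P_smooth.continuous_fderiv (by simp)
  set k : ℝ → Eu A := fun t => X.II (γ t) (w t) (w t) with hk
  have ck : Continuous k := by simp only [hk, Emb.II]; fun_prop
  set a : ℝ → Eu A := fun t => ∫ s in (0 : ℝ)..t, k s with ha
  have da : ∀ t, HasDerivAt a (k t) t := fun t => (ck.integral_hasStrictDerivAt 0 t).hasDerivAt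
  have ca : Continuous a := continuous_iff_continuousAt.2 fun t => (da t).continuousAt
  set m : Eu A := l⁻¹ • ∫ s in (0 : ℝ)..l, (w s - a s) with hm
  set ζ : ℝ → Eu A := fun t => m - (w t - a t) with hζ
  have cζ : Continuous ζ := by simp only [hζ]; fun_prop
  set η : ℝ → Eu A := fun t => ∫ s in (0 : ℝ)..t, ζ s with hη
  have dη : ∀ t, HasDerivAt η (ζ t) t := fun t => (cζ.integral_hasStrictDerivAt 0 t).hasDerivAt
  have cη : Continuous η := continuous_iff_continuousAt.2 fun t => (dη t).continuousAt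
  have h0 : η 0 = 0 := by simp [hη]
  have h1 : η l = 0 := by
    simp only [hη, hζ]
    rw [intervalIntegral.integral_sub (f := fun _ => m) (g := fun t => w t - a t)
      intervalIntegrable_const ((cw.sub ca).intervalIntegrable _ _),
      intervalIntegral.integral_const, sub_zero, hm, smul_inv_smul₀ hl.ne', sub_self]
  have e1 := first_var G hl cγ cw cη cζ mem vel unit tan hd dη h0 h1
  have e2 : ∫ t in (0 : ℝ)..l, (⟪m + a t, ζ t⟫_ℝ + ⟪k t, η t⟫_ℝ) = 0 := by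
    rw [intervalIntegral.integral_eq_sub_of_hasDerivAt (f := fun t => ⟪m + a t, η t⟫_ℝ)
      (fun t _ => ((da t).const_add m).inner ℝ (dη t))
      ((by fun_prop : Continuous fun t =>
        ⟪m + a t, ζ t⟫_ℝ + ⟪k t, η t⟫_ℝ).intervalIntegrable _ _)]
    simp [h0, h1]
  have e3 : ∫ t in (0 : ℝ)..l, ‖ζ t‖ ^ 2 = 0 := by
    have := intervalIntegral.integral_sub (μ := volume) (a := 0) (b := l)
      ((by fun_prop : Continuous fun t => ⟪m + a t, ζ t⟫_ℝ + ⟪k t, η t⟫_ℝ).intervalIntegrable _ _)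
      ((by fun_prop : Continuous fun t => ⟪w t, ζ t⟫_ℝ + ⟪k t, η t⟫_ℝ).intervalIntegrable _ _)
    rw [e1, e2, sub_self] at this
    refine Eq.trans (intervalIntegral.integral_congr fun t _ => ?_) this
    have e : ζ t = m + a t - w t := by simp only [hζ]; abel
    simp only [add_sub_add_right_eq_sub]
    rw [← inner_sub_left, ← e, real_inner_self_eq_norm_sq]
  have e4 : ∀ t ∈ Icc 0 l, w t = m + a t := by
    intro t ht
    by_contra hne
    have hp : 0 < ‖ζ t‖ ^ 2 := by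
      refine pow_pos (norm_pos_iff.2 fun h => hne ?_) 2
      simp only [hζ] at h
      rw [sub_eq_zero] at h
      rw [h, sub_add_cancel]
    have := intervalIntegral.integral_lt_integral_of_continuousOn_of_le_of_exists_lt hl
      (continuousOn_const (c := (0 : ℝ))) (cζ.norm.pow 2).continuousOn
      (fun s _ => sq_nonneg _) ⟨t, ht, hp⟩
    rw [intervalIntegral.integral_zero] at this
    exact this.ne' e3
  intro t ht
  exact ((da t).const_add m).hasDerivWithinAt.congr e4 (e4 t ht)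

end EGeodAux

open EGeodAux in
theorem Geo.hasGeod {X : Emb A n} (G : Geo X) : G.HasGeod := by
  intro x hx y hy hxy
  have hl := G.pos hx hy hxy
  obtain ⟨γ₀, g0, gl, gm, gd⟩ := G.mid x hx y hy
  set l := G.d x y with hldef
  obtain ⟨C, hC, hq⟩ := local_quad G
  have c0 : ContinuousOn γ₀ (Icc 0 l) := by
    refine LipschitzOnWith.continuousOn (K := 1) (LipschitzOnWith.of_dist_le_mul fun s hs t ht => ?_)
    rw [dist_eq_norm, Real.dist_eq, ← gd s hs t ht, NNReal.coe_one, one_mul]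
    exact G.norm_le _ (gm s hs) _ (gm t ht)
  set γ : ℝ → Eu A := fun t => γ₀ (projIcc 0 l hl.le t) with hγ
  have cγ : Continuous γ :=
    c0.comp_continuous (continuous_subtype_val.comp continuous_projIcc) fun t => Subtype.prop _
  have he : ∀ t ∈ Icc 0 l, γ t = γ₀ t := fun t ht => by simp only [hγ, projIcc_of_mem _ ht]
  have mem : ∀ t ∈ Icc 0 l, γ t ∈ X.M := fun t ht => he t ht ▸ gm t ht
  have dst : ∀ s ∈ Icc 0 l, ∀ t ∈ Icc 0 l, G.d (γ s) (γ t) = |s - t| := fun s hs t ht => by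
    rw [he s hs, he t ht, gd s hs t ht]
  have dst' : ∀ s ∈ Icc 0 l, ∀ t ∈ Icc 0 l, s ≤ t → G.d (γ s) (γ t) = t - s :=
    fun s hs t ht h => by rw [dst s hs t ht, abs_sub_comm, abs_of_nonneg (sub_nonneg.2 h)]
  obtain ⟨w, cw, hw⟩ := exists_vel (γ := γ) (K := √(32 * C)) hl
    (fun s hs t ht h => by
      rw [← dst' s hs t ht h, norm_sub_rev]
      exact G.norm_le _ (mem s hs) _ (mem t ht))
    (fun s hs t ht h => by
      have := hq _ (mem s hs) _ (mem t ht)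
      rw [dst' s hs t ht h] at this
      rw [Real.sq_sqrt (by positivity)]
      linarith) (Real.sqrt_nonneg _)
  have tan : ∀ t ∈ Icc 0 l, X.P (γ t) (w t) = w t := by
    intro t ht
    have a1 := (X.pr_hasFDerivAt _).comp_hasDerivWithinAt t (hw t ht).1
    have a2 := a1.congr (f₁ := γ) (fun s hs => (X.fix _ (mem s hs)).symm) (X.fix _ (mem t ht)).symm
    exact (uniqueDiffOn_Icc hl t ht).eq_deriv _ a2 (hw t ht).1
  have m0 : (0 : ℝ) ∈ Icc 0 l := ⟨le_rfl, hl.le⟩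
  have ml : l ∈ Icc 0 l := ⟨hl.le, le_rfl⟩
  exact ⟨γ, w, ⟨hl.le, mem, fun t ht => (hw t ht).1,
    acc G hl cγ cw mem (fun t ht => (hw t ht).1) (fun t ht => (hw t ht).2) tan
      (by rw [dst' 0 m0 l ml hl.le, sub_zero]),
    fun t ht => (hw t ht).2, tan, dst⟩, (he 0 m0).trans g0, (he l ml).trans gl⟩

end Pool.Agent.AlEmb
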