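import Pool.Agent.Lib.MP_3fa020_gt.EBasic

namespace Pool.Agent.AlEmb

open Set Filter Topology MeasureTheory
open scoped InnerProductSpace ContDiff

variable {A n : ℕ}

namespace EPackAux

section Normed

variable {V : Type*} [NormedAddCommGroup V] [NormedSpace ℝ V] [FiniteDimensional ℝ V]

/-- disjoint open balls inside a closed ball -/
theorem pack_open {ι : Type*} (T : Finset ι) (c : ι → V) (ρ : ι → ℝ) (b : V) {r : ℝ}
    (hr : 0 ≤ r) (hρ : ∀ i ∈ T, 0 < ρ i) (h1 : ∀ i ∈ T, ‖c i - b‖ + ρ i ≤ r)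
    (h2 : (T : Set ι).PairwiseDisjoint fun i => Metric.ball (c i) (ρ i)) :
    ∑ i ∈ T, ρ i ^ Module.finrank ℝ V ≤ r ^ Module.finrank ℝ V := by
  borelize V
  let μ : Measure V := Measure.addHaar
  have hpos : μ (Metric.ball 0 1) ≠ 0 := (Metric.measure_ball_pos μ 0 one_pos).ne'
  have hfin : μ (Metric.ball 0 1) ≠ ⊤ := measure_ball_lt_top.ne
  have hsub : (⋃ i ∈ T, Metric.ball (c i) (ρ i)) ⊆ Metric.closedBall b r := by
    intro x hx
    simp only [mem_iUnion] at hx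
    obtain ⟨i, hi, hx⟩ := hx
    rw [Metric.mem_ball, dist_eq_norm] at hx
    rw [Metric.mem_closedBall, dist_eq_norm]
    have h3 : x - b = (x - c i) + (c i - b) := by abel
    have h4 := norm_add_le (x - c i) (c i - b)
    rw [h3]
    linarith [h1 i hi]
  have hle := measure_mono (μ := μ) hsub
  rw [measure_biUnion_finset h2 (fun i _ => measurableSet_ball),
    Measure.addHaar_closedBall μ b hr,
    Finset.sum_congr rfl (fun i hi => Measure.addHaar_ball_of_pos μ (c i) (hρ i hi)),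
    ← Finset.sum_mul, ENNReal.mul_le_mul_iff_left hpos hfin,
    ← ENNReal.ofReal_sum_of_nonneg (fun i hi => pow_nonneg (hρ i hi).le _),
    ENNReal.ofReal_le_ofReal_iff (pow_nonneg hr _)] at hle
  exact hle

/-- packing bound for a family -/
theorem pack_fam {ι : Type*} (T : Finset ι) (f : ι → V) (b : V) {r ε : ℝ} (hr : 0 ≤ r)
    (hε : 0 < ε) (h1 : ∀ i ∈ T, ‖f i - b‖ ≤ r)
    (h2 : ∀ i ∈ T, ∀ j ∈ T, i ≠ j → ε ≤ ‖f i - f j‖) :
    (T.card : ℝ) ≤ (1 + 2 * r / ε) ^ Module.finrank ℝ V := by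
  have h := pack_open T f (fun _ => ε / 2) b (r := r + ε / 2) (by linarith)
    (fun _ _ => half_pos hε) (fun i hi => by linarith [h1 i hi]) (by
      intro i hi j hj hij
      refine Metric.ball_disjoint_ball ?_
      rw [dist_eq_norm]
      linarith [h2 i hi j hj hij])
  rw [Finset.sum_const, nsmul_eq_mul] at h
  have h3 : r + ε / 2 = (1 + 2 * r / ε) * (ε / 2) := by field_simp; ring
  rw [h3, mul_pow] at h
  exact le_of_mul_le_mul_right h (pow_pos (half_pos hε) _)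

end Normed

lemma sinh_le_mul_cosh {s : ℝ} (hs : 0 ≤ s) : Real.sinh s ≤ s * Real.cosh s := by
  have hd : ∀ x : ℝ, HasDerivAt (fun x => x * Real.cosh x - Real.sinh x) (x * Real.sinh x) x := by
    intro x
    have := ((hasDerivAt_id' x).fun_mul (Real.hasDerivAt_cosh x)).fun_sub
      (Real.hasDerivAt_sinh x)
    refine this.congr_deriv ?_
    ring
  have hm : MonotoneOn (fun x => x * Real.cosh x - Real.sinh x) (Ici 0) := by
    refine monotoneOn_of_deriv_nonneg (convex_Ici 0)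
      (fun x _ => (hd x).continuousAt.continuousWithinAt)
      (fun x _ => (hd x).differentiableAt.differentiableWithinAt) fun x hx => ?_
    rw [interior_Ici] at hx
    rw [(hd x).deriv]
    exact mul_nonneg (le_of_lt hx) (Real.sinh_nonneg_iff.2 (le_of_lt hx))
  have := hm self_mem_Ici hs hs
  simp at this
  linarith

lemma cosh_half (u : ℝ) : Real.cosh u = 1 + 2 * Real.sinh (u / 2) ^ 2 := by
  have h1 := Real.cosh_two_mul (u / 2)
  have h2 := Real.cosh_sq (u / 2)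
  rw [show 2 * (u / 2) = u by ring] at h1
  linarith

lemma sq_le_cosh {D : ℝ} (hD : 0 ≤ D) : 1 + D ^ 2 / 2 ≤ Real.cosh D := by
  rw [cosh_half]
  have h1 : D / 2 ≤ Real.sinh (D / 2) := Real.self_le_sinh_iff.2 (by linarith)
  nlinarith

lemma sinh_le {s r : ℝ} (hs : 0 ≤ s) (hsr : s ≤ r) : Real.sinh s ≤ s * Real.cosh r := by
  refine (sinh_le_mul_cosh hs).trans (mul_le_mul_of_nonneg_left ?_ hs)
  rw [Real.cosh_le_cosh, abs_of_nonneg hs, abs_of_nonneg (hs.trans hsr)]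
  exact hsr

lemma cosh_le {u r : ℝ} (hu : |u| ≤ r) : Real.cosh u ≤ 1 + Real.cosh r ^ 2 * u ^ 2 / 2 := by
  rw [← Real.cosh_abs u, cosh_half, ← sq_abs u]
  have h0 := abs_nonneg u
  have h1 := sinh_le (s := |u| / 2) (r := r) (by linarith) (by linarith)
  have h2 : 0 ≤ Real.sinh (|u| / 2) := Real.sinh_nonneg_iff.2 (by linarith)
  have h3 := pow_le_pow_left₀ h2 h1 2
  nlinarith

/-- the hyperbolic law of cosines against the Euclidean one -/
lemma hinge_le {D s t c r N : ℝ} (hD : 0 ≤ D) (hs : 0 ≤ s) (ht : 0 ≤ t) (hsr : s ≤ r)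
    (htr : t ≤ r) (hc : c ≤ 1) (hN : 0 ≤ N) (hN2 : N ^ 2 = s ^ 2 + t ^ 2 - 2 * s * t * c)
    (h : Real.cosh D ≤ Real.cosh s * Real.cosh t - Real.sinh s * Real.sinh t * c) :
    D ≤ Real.cosh r * N := by
  have h1 := sq_le_cosh hD
  have h2 := cosh_le (u := s - t) (r := r) (by rw [abs_le]; constructor <;> linarith)
  rw [Real.cosh_sub] at h2
  have h3 : Real.sinh s * Real.sinh t ≤ s * Real.cosh r * (t * Real.cosh r) :=
    mul_le_mul (sinh_le hs hsr) (sinh_le ht htr) (Real.sinh_nonneg_iff.2 ht)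
      (mul_nonneg hs (Real.cosh_pos r).le)
  have h4 := mul_le_mul_of_nonneg_right h3 (sub_nonneg.2 hc)
  have h5 : D ^ 2 ≤ (Real.cosh r * N) ^ 2 := by
    rw [mul_pow, hN2]
    nlinarith
  exact (pow_le_pow_iff_left₀ hD (mul_nonneg (Real.cosh_pos r).le hN) two_ne_zero).1 h5

/-- coordinates on the range of a projection -/
lemma exists_coord {d : ℕ} {P : Eu A →L[ℝ] Eu A} (hP : IsProj d P) :
    ∃ e : Eu A →ₗ[ℝ] Eu d, ∀ v, P v = v → ‖e v‖ = ‖v‖ := by
  let W := LinearMap.range (P : Eu A →ₗ[ℝ] Eu A)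
  let b : OrthonormalBasis (Fin d) ℝ W := (stdOrthonormalBasis ℝ W).reindex (finCongr hP.dim)
  refine ⟨(b.repr.toLinearEquiv : W →ₗ[ℝ] Eu d).comp (P : Eu A →ₗ[ℝ] Eu A).rangeRestrict,
    fun v hv => ?_⟩
  have h1 := b.repr.norm_map ((P : Eu A →ₗ[ℝ] Eu A).rangeRestrict v)
  have h2 : ‖(P : Eu A →ₗ[ℝ] Eu A).rangeRestrict v‖ = ‖v‖ := by
    rw [← Submodule.norm_coe]
    change ‖P v‖ = ‖v‖
    rw [hv]
  rw [← h2, ← h1]
  rfl

variable {X : Emb A n} {G : Geo X}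

/-- the logarithm at `y` -/
lemma exists_log (hg : G.HasGeod) (hh : G.Hinge) {y : Eu A} (hy : y ∈ X.M) (r : ℝ) :
    ∃ L : Eu A → Eu A, (∀ x ∈ X.M, X.P y (L x) = L x ∧ ‖L x‖ = G.d y x) ∧
      ∀ x ∈ G.ball y r, ∀ x' ∈ G.ball y r, G.d x x' ≤ Real.cosh r * ‖L x - L x'‖ := by
  classical
  have hg' : ∀ x : Eu A, ∃ γ w : ℝ → Eu A, x ∈ X.M → y ≠ x →
      G.IsGeod γ w (G.d y x) ∧ γ 0 = y ∧ γ (G.d y x) = x := by
    intro x
    by_cases h : x ∈ X.M ∧ y ≠ x
    · obtain ⟨γ, w, h1⟩ := hg y hy x h.1 h.2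
      exact ⟨γ, w, fun _ _ => h1⟩
    · exact ⟨0, 0, fun h1 h2 => absurd ⟨h1, h2⟩ h⟩
  choose γ w hγ using hg'
  have hu : ∀ x ∈ X.M, y ≠ x → ‖w x 0‖ = 1 ∧ X.P y (w x 0) = w x 0 := by
    intro x hx hyx
    obtain ⟨h1, h2, _⟩ := hγ x hx hyx
    have h0 : (0 : ℝ) ∈ Icc 0 (G.d y x) := ⟨le_rfl, h1.nonneg⟩
    refine ⟨h1.unit 0 h0, ?_⟩
    have := h1.tan 0 h0
    rwa [h2] at this
  have hL : ∀ x ∈ X.M, X.P y (G.d y x • w x 0) = G.d y x • w x 0 ∧
      ‖G.d y x • w x 0‖ = G.d y x := by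
    intro x hx
    by_cases hyx : y = x
    · subst hyx
      simp [G.self y hy]
    · obtain ⟨h1, h2⟩ := hu x hx hyx
      refine ⟨by rw [map_smul, h2], ?_⟩
      rw [norm_smul, h1, mul_one, Real.norm_of_nonneg (G.nonneg _ _)]
  refine ⟨fun x => G.d y x • w x 0, hL, fun x hx x' hx' => ?_⟩
  have hc1 := Real.one_le_cosh r
  by_cases hyx : y = x
  · subst hyx
    simp only [G.self y hy, zero_smul, zero_sub, norm_neg, (hL x' hx'.1).2]
    exact le_mul_of_one_le_left (G.nonneg _ _) hc1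
  by_cases hyx' : y = x'
  · subst hyx'
    simp only [G.self y hy, zero_smul, sub_zero, (hL x hx.1).2, G.comm x y]
    exact le_mul_of_one_le_left (G.nonneg _ _) hc1
  obtain ⟨h1, h2, h3⟩ := hγ x hx.1 hyx
  obtain ⟨h1', h2', h3'⟩ := hγ x' hx'.1 hyx'
  have h4 := hh _ _ _ _ _ _ h1 h1' (h2.trans h2'.symm)
  rw [h3, h3'] at h4
  have hu1 := (hu x hx.1 hyx).1
  have hu2 := (hu x' hx'.1 hyx').1
  refine hinge_le (G.nonneg _ _) (G.nonneg _ _) (G.nonneg _ _) hx.2.le hx'.2.le ?_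
    (norm_nonneg _) ?_ h4
  · have := real_inner_le_norm (w x 0) (w x' 0)
    rwa [hu1, hu2, mul_one] at this
  · rw [norm_sub_sq_real, (hL x hx.1).2, (hL x' hx'.1).2, real_inner_smul_left,
      real_inner_smul_right]
    ring

/-- the logarithm in coordinates -/
lemma exists_log' (hg : G.HasGeod) (hh : G.Hinge) {y : Eu A} (hy : y ∈ X.M) (r : ℝ) :
    ∃ l : Eu A → Eu n, (∀ x ∈ G.ball y r, ‖l x‖ ≤ r) ∧
      ∀ x ∈ G.ball y r, ∀ x' ∈ G.ball y r, G.d x x' ≤ Real.cosh r * ‖l x - l x'‖ := by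
  obtain ⟨L, h1, h2⟩ := exists_log hg hh hy r
  obtain ⟨e, he⟩ := exists_coord (Emb.isProj hy)
  refine ⟨fun x => e (L x), fun x hx => ?_, fun x hx x' hx' => ?_⟩
  · rw [he _ (h1 x hx.1).1, (h1 x hx.1).2]
    exact hx.2.le
  · rw [← map_sub, he _ (by rw [map_sub, (h1 x hx.1).1, (h1 x' hx'.1).1])]
    exact h2 x hx x' hx'

lemma vol_closedBall {r : ℝ} (hr : 0 ≤ r) :
    (volume : Measure (Eu n)) (Metric.closedBall 0 r) ≤ ENNReal.ofReal ((2 * r) ^ n) := by
  have h1 := PiLp.volume_preserving_ofLp (Fin n)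
  have h2 : Metric.closedBall (0 : Eu n) r ⊆
      WithLp.ofLp ⁻¹' Metric.closedBall (0 : Fin n → ℝ) r := by
    intro v hv
    rw [mem_closedBall_zero_iff] at hv
    rw [mem_preimage, mem_closedBall_zero_iff, pi_norm_le_iff_of_nonneg hr]
    intro i
    exact (PiLp.norm_apply_le v i).trans hv
  refine (measure_mono h2).trans ?_
  rw [h1.measure_preimage measurableSet_closedBall.nullMeasurableSet,
    Real.volume_pi_closedBall _ hr, Fintype.card_fin]

end EPackAux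

section Normed

variable {V : Type*} [NormedAddCommGroup V] [NormedSpace ℝ V] [FiniteDimensional ℝ V]

/-- packing bound -/
theorem pack_card (T : Finset V) (b : V) {r ε : ℝ} (hr : 0 ≤ r) (hε : 0 < ε)
    (h1 : ∀ v ∈ T, ‖v - b‖ ≤ r) (h2 : ∀ v ∈ T, ∀ w ∈ T, v ≠ w → ε ≤ ‖v - w‖) :
    (T.card : ℝ) ≤ (1 + 2 * r / ε) ^ Module.finrank ℝ V :=
  EPackAux.pack_fam T id b hr hε h1 h2

/-- disjoint balls inside a ball -/
theorem pack_sum {ι : Type*} (T : Finset ι) (c : ι → V) (ρ : ι → ℝ) (b : V) {r : ℝ}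
    (hr : 0 ≤ r) (hρ : ∀ i ∈ T, 0 < ρ i) (h1 : ∀ i ∈ T, ‖c i - b‖ + ρ i ≤ r)
    (h2 : (T : Set ι).PairwiseDisjoint fun i => Metric.closedBall (c i) (ρ i)) :
    ∑ i ∈ T, ρ i ^ Module.finrank ℝ V ≤ r ^ Module.finrank ℝ V :=
  EPackAux.pack_open T c ρ b hr hρ h1 (h2.mono fun _ => Metric.ball_subset_closedBall)

end Normed

/-- a maximal separated subset is a net -/
theorem exists_net {α : Type*} (W : Set α) (close : α → α → Prop)
    (hrefl : ∀ x ∈ W, close x x) (hsymm : ∀ x ∈ W, ∀ y ∈ W, close x y → close y x) {N : ℝ}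
    (h : ∀ T : Finset α, (T : Set α) ⊆ W → (∀ x ∈ T, ∀ y ∈ T, x ≠ y → ¬close x y) →
      (T.card : ℝ) ≤ N) :
    ∃ T : Finset α, (T : Set α) ⊆ W ∧ (T.card : ℝ) ≤ N ∧ ∀ x ∈ W, ∃ t ∈ T, close t x := by
  classical
  let S : Set ℕ := {k | ∃ T : Finset α, (T : Set α) ⊆ W ∧
    (∀ x ∈ T, ∀ y ∈ T, x ≠ y → ¬close x y) ∧ T.card = k}
  have hne : S.Nonempty := ⟨0, ∅, by simp, by simp, rfl⟩
  have hbd : BddAbove S := by
    refine ⟨⌈N⌉₊, ?_⟩
    rintro k ⟨T, h1, h2, rfl⟩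
    exact_mod_cast (h T h1 h2).trans (Nat.le_ceil N)
  obtain ⟨T, h1, h2, h3⟩ := Nat.sSup_mem hne hbd
  refine ⟨T, h1, h T h1 h2, fun x hx => ?_⟩
  by_contra hcon
  push Not at hcon
  have hxT : x ∉ T := fun hxT => hcon x hxT (hrefl x hx)
  have h4 : (insert x T).card ∈ S := by
    refine ⟨insert x T, ?_, ?_, rfl⟩
    · rw [Finset.coe_insert]
      exact insert_subset hx h1
    · intro a ha b hb hab
      rw [Finset.mem_insert] at ha hb
      rcases ha with rfl | ha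
      · rcases hb with rfl | hb
        · exact absurd rfl hab
        · exact fun hc => hcon b hb (hsymm a hx b (h1 hb) hc)
      · rcases hb with rfl | hb
        · exact hcon a ha
        · exact h2 a ha b hb hab
  have h5 := le_csSup hbd h4
  rw [Finset.card_insert_of_notMem hxT] at h5
  omega

/-- packing of unit vectors in the range of a projection -/
theorem IsProj.card_le {d : ℕ} {P : Eu A →L[ℝ] Eu A} (hP : IsProj d P) {m : ℕ}
    (v : Fin m → Eu A) {η : ℝ} (hη : 0 < η) (h1 : ∀ i, ‖v i‖ = 1) (h2 : ∀ i, P (v i) = v i)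
    (h3 : ∀ i j, i ≠ j → ⟪v i, v j⟫_ℝ ≤ 1 - η ^ 2 / 2) : (m : ℝ) ≤ (1 + 2 / η) ^ d := by
  obtain ⟨e, he⟩ := EPackAux.exists_coord hP
  have h := EPackAux.pack_fam Finset.univ (fun i => e (v i)) 0 (r := 1) zero_le_one hη
    (fun i _ => by rw [sub_zero, he _ (h2 i), h1]) (fun i _ j _ hij => by
      rw [← map_sub, he _ (by rw [map_sub, h2, h2])]
      have h4 := norm_sub_sq_real (v i) (v j)
      rw [h1, h1] at h4
      refine (pow_le_pow_iff_left₀ hη.le (norm_nonneg _) two_ne_zero).1 ?_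
      linarith [h3 i j hij])
  simpa using h

namespace Geo

variable {X : Emb A n} {G : Geo X}

theorem vol_ball (hg : G.HasGeod) (hh : G.Hinge) {y : Eu A} (hy : y ∈ X.M) {r : ℝ}
    (hr : 0 ≤ r) : X.μ (G.ball y r) ≤ ENNReal.ofReal ((2 * r * Real.cosh r) ^ n) := by
  classical
  obtain ⟨l, h1, h2⟩ := EPackAux.exists_log' hg hh hy r
  have hc := Real.cosh_pos r
  have hinj : InjOn l (G.ball y r) := by
    intro x hx x' hx' h
    have h3 := (G.norm_le x hx.1 x' hx'.1).trans (h2 x hx x' hx')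
    rw [h, sub_self, norm_zero, mul_zero] at h3
    exact sub_eq_zero.1 (norm_le_zero_iff.1 h3)
  let f := Function.invFunOn l (G.ball y r)
  have hf : ∀ x ∈ G.ball y r, f (l x) = x := fun x hx => hinj.leftInvOn_invFunOn hx
  have himg : G.ball y r ⊆ f '' (l '' G.ball y r) :=
    fun x hx => ⟨l x, mem_image_of_mem l hx, hf x hx⟩
  have hlip : LipschitzOnWith (NNReal.mk (Real.cosh r) hc.le) f (l '' G.ball y r) := by
    refine LipschitzOnWith.of_dist_le_mul ?_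
    rintro _ ⟨x, hx, rfl⟩ _ ⟨x', hx', rfl⟩
    rw [hf x hx, hf x' hx', dist_eq_norm, dist_eq_norm]
    exact (G.norm_le x hx.1 x' hx'.1).trans (h2 x hx x' hx')
  have h3 := hlip.hausdorffMeasure_image_le (d := (n : ℝ)) (Nat.cast_nonneg n)
  have h4 : (μHE[n] : Measure (Eu A)) (f '' (l '' G.ball y r)) ≤
      ENNReal.ofReal (Real.cosh r ^ n) * (μHE[n] : Measure (Eu n)) (l '' G.ball y r) := by
    simp only [Measure.euclideanHausdorffMeasure_def, Measure.smul_apply, ENNReal.smul_def,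
      smul_eq_mul]
    rw [mul_left_comm]
    refine mul_le_mul_right (h3.trans_eq ?_) _
    rw [ENNReal.rpow_natCast, ENNReal.ofReal_pow hc.le, ENNReal.ofReal_eq_coe_nnreal hc.le]
  have h5 : l '' G.ball y r ⊆ Metric.closedBall 0 r := by
    rintro _ ⟨x, hx, rfl⟩
    exact mem_closedBall_zero_iff.2 (h1 x hx)
  rw [EuclideanSpace.euclideanHausdorffMeasure_eq_volume] at h4
  calc X.μ (G.ball y r) ≤ (μHE[n] : Measure (Eu A)) (G.ball y r) := Measure.restrict_apply_le _ _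
    _ ≤ _ := measure_mono himg
    _ ≤ _ := h4
    _ ≤ ENNReal.ofReal (Real.cosh r ^ n) * ENNReal.ofReal ((2 * r) ^ n) :=
      mul_le_mul_right ((measure_mono h5).trans (EPackAux.vol_closedBall hr)) _
    _ = _ := by
      rw [← ENNReal.ofReal_mul (pow_nonneg hc.le _), ← mul_pow, mul_comm (Real.cosh r)]

theorem cover (hg : G.HasGeod) (hh : G.Hinge) {y : Eu A} (hy : y ∈ X.M) {r ε : ℝ} (hr : 0 ≤ r)
    (hε : 0 < ε) {W : Set (Eu A)} (hW : W ⊆ G.ball y r) :
    ∃ T : Finset (Eu A), (T : Set (Eu A)) ⊆ W ∧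
      (T.card : ℝ) ≤ (1 + 2 * (r * Real.cosh r) / ε) ^ n ∧ ∀ x ∈ W, ∃ t ∈ T, G.d t x < ε := by
  obtain ⟨l, h1, h2⟩ := EPackAux.exists_log' hg hh hy r
  have hc := Real.cosh_pos r
  refine exists_net W (fun t x => G.d t x < ε) (fun x hx => by rwa [G.self x (hW hx).1])
    (fun x _ x' _ h => by rwa [G.comm]) fun T hT hsep => ?_
  have h := EPackAux.pack_fam T l 0 hr (div_pos hε hc)
    (fun x hx => by rw [sub_zero]; exact h1 x (hW (hT hx))) (fun x hx x' hx' hne => by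
      rw [div_le_iff₀' hc]
      exact (not_lt.1 (hsep x hx x' hx' hne)).trans (h2 x (hW (hT hx)) x' (hW (hT hx'))))
  rw [finrank_euclideanSpace_fin] at h
  refine h.trans_eq ?_
  congr 2
  field_simp

end Geo

end Pool.Agent.AlEmb
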