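import Pool.Agent.Lib.MP_3fa020_gt.EBasic

namespace Pool.Agent.AlEmb

open Set Filter Topology MeasureTheory
open scoped InnerProductSpace ContDiff Convolution

variable {A n : ℕ}

namespace ESmoothAux

/-- second derivative test at a local minimum -/
lemma second_nonneg {χ χ' : ℝ → ℝ} {s c : ℝ} (h1 : ∀ t, HasDerivAt χ (χ' t) t)
    (h2 : HasDerivAt χ' c s) (hm : IsLocalMin χ s) : 0 ≤ c := by
  by_contra hc
  push Not at hc
  have e1 : deriv χ = χ' := funext fun t => (h1 t).deriv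
  have h0 : deriv χ s = 0 := hm.deriv_eq_zero
  have hM : IsLocalMax χ s :=
    isLocalMax_of_deriv_deriv_neg (by rw [e1, h2.deriv]; exact hc) h0 (h1 s).continuousAt
  have hE : χ =ᶠ[𝓝 s] fun _ => χ s := by
    filter_upwards [hm, hM] with t a b using le_antisymm b a
  have hE2 := hE.deriv.deriv_eq
  rw [e1, h2.deriv] at hE2
  have : deriv (fun _ : ℝ => χ s) = fun _ => 0 := funext fun t => deriv_const t _
  rw [this, deriv_const] at hE2
  exact hc.ne hE2

/-- first order barriers -/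
lemma first_order {φ : ℝ → ℝ} (hφ : Continuous φ) {k m : ℝ} (hk : 0 ≤ k)
    (h : ∀ s ∈ Ico 0 k, ∃ (ψ : ℝ → ℝ) (c : ℝ), HasDerivAt ψ c s ∧ c ≤ m ∧ ψ s = φ s ∧
      ∀ᶠ t in 𝓝 s, φ t ≤ ψ t) : φ k ≤ φ 0 + m * k := by
  have := image_le_of_liminf_slope_right_le_deriv_boundary (f := φ) (a := 0) (b := k)
    hφ.continuousOn (B := fun t => φ 0 + m * t) (B' := fun _ => m) (by simp)
    (by fun_prop) (fun x _ => by
      simpa using (((hasDerivAt_id x).const_mul m).const_add (φ 0)).hasDerivWithinAt)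
    (fun s hs r hr => by
      obtain ⟨ψ, c, h1, h2, h3, h4⟩ := h s hs
      have h5 : Tendsto (slope ψ s) (𝓝[>] s) (𝓝 c) :=
        (hasDerivAt_iff_tendsto_slope_left_right.1 h1).2
      have h6 := h5.eventually (gt_mem_nhds (lt_of_le_of_lt h2 hr))
      refine Eventually.frequently ?_
      filter_upwards [h6, nhdsWithin_le_nhds h4, self_mem_nhdsWithin] with t a b ht
      refine lt_of_le_of_lt ?_ a
      rw [slope_def_field, slope_def_field, h3]
      exact div_le_div_of_nonneg_right (by linarith) (sub_pos.2 ht).le)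
  exact this ⟨hk, le_rfl⟩

/-- second order barriers, strict version -/
lemma second_order_lt {φ : ℝ → ℝ} (hφ : Continuous φ) {k m : ℝ} (hk : 0 < k)
    (h : ∀ s ∈ Ioo (-k) k, ∃ (ψ ψ' : ℝ → ℝ) (c : ℝ), (∀ t, HasDerivAt ψ (ψ' t) t) ∧
      HasDerivAt ψ' c s ∧ c < m ∧ ψ s = φ s ∧ ∀ᶠ t in 𝓝 s, φ t ≤ ψ t) :
    φ k + φ (-k) - 2 * φ 0 ≤ m * k ^ 2 := by
  by_contra hc
  push Not at hc
  set a := (φ k - φ (-k)) / (2 * k) with ha
  set b := (φ k + φ (-k)) / 2 - m * k ^ 2 / 2 with hb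
  set u : ℝ → ℝ := fun t => φ t - (m * t ^ 2 / 2 + a * t + b) with hu
  have hak : a * k = (φ k - φ (-k)) / 2 := by rw [ha]; field_simp
  have u1 : u k = 0 := by simp only [hu, hb]; rw [hak]; ring
  have u2 : u (-k) = 0 := by
    simp only [hu, hb]; rw [mul_neg, hak]; ring
  have u0 : u 0 < 0 := by simp only [hu, hb]; linarith
  have huc : Continuous u := by simp only [hu]; fun_prop
  obtain ⟨s, hs, hmin⟩ := (isCompact_Icc (a := -k) (b := k)).exists_isMinOn
    ⟨0, by constructor <;> linarith⟩ huc.continuousOn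
  have hs0 : u s < 0 := lt_of_le_of_lt (hmin (show (0 : ℝ) ∈ Icc (-k) k by
    constructor <;> linarith)) u0
  have hs' : s ∈ Ioo (-k) k := by
    refine ⟨lt_of_le_of_ne hs.1 ?_, lt_of_le_of_ne hs.2 ?_⟩
    · rintro rfl; rw [u2] at hs0; exact lt_irrefl _ hs0
    · rintro rfl; rw [u1] at hs0; exact lt_irrefl _ hs0
  obtain ⟨ψ, ψ', c, h1, h2, h3, h4, h5⟩ := h s hs'
  have hq : ∀ t : ℝ, HasDerivAt (fun t : ℝ => m * t ^ 2 / 2 + a * t + b) (m * t + a) t := by
    intro t
    have := ((((hasDerivAt_pow 2 t).const_mul m).div_const 2).add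
      ((hasDerivAt_id t).const_mul a)).add_const b
    exact this.congr_deriv (by simp; ring)
  have hq' : HasDerivAt (fun t : ℝ => m * t + a) m s := by
    simpa using ((hasDerivAt_id s).const_mul m).add_const a
  have := second_nonneg (χ := fun t => ψ t - (m * t ^ 2 / 2 + a * t + b))
    (χ' := fun t => ψ' t - (m * t + a)) (s := s) (c := c - m)
    (fun t => (h1 t).sub (hq t)) (h2.sub hq') (by
      have hl : IsLocalMin u s := hmin.isLocalMin (Icc_mem_nhds hs'.1 hs'.2)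
      filter_upwards [hl, h5] with t a1 a2
      simp only [hu] at a1
      rw [h4]; linarith)
  linarith

/-- second order barriers -/
lemma second_order {φ : ℝ → ℝ} (hφ : Continuous φ) {k m : ℝ} (hk : 0 < k)
    (h : ∀ s ∈ Ioo (-k) k, ∃ (ψ ψ' : ℝ → ℝ) (c : ℝ), (∀ t, HasDerivAt ψ (ψ' t) t) ∧
      HasDerivAt ψ' c s ∧ c ≤ m ∧ ψ s = φ s ∧ ∀ᶠ t in 𝓝 s, φ t ≤ ψ t) :
    φ k + φ (-k) - 2 * φ 0 ≤ m * k ^ 2 := by
  refine le_of_forall_pos_le_add fun η hη => ?_
  have hk2 : 0 < k ^ 2 := by positivity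
  have := second_order_lt hφ hk (m := m + η / k ^ 2) fun s hs => by
    obtain ⟨ψ, ψ', c, h1, h2, h3, h4, h5⟩ := h s hs
    exact ⟨ψ, ψ', c, h1, h2, lt_of_le_of_lt h3 (lt_add_of_pos_right _ (by positivity)), h4, h5⟩
  rwa [add_mul, div_mul_cancel₀ _ hk2.ne'] at this

section line

variable {V : Type*} [NormedAddCommGroup V] [NormedSpace ℝ V] {f : Eu A → V}

lemma line0 (z v : Eu A) (s : ℝ) : HasDerivAt (fun s : ℝ => z + s • v) v s := by
  simpa using ((hasDerivAt_id s).smul_const v).const_add z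

lemma line1 (hf : ContDiff ℝ ∞ f) (z v : Eu A) (s : ℝ) :
    HasDerivAt (fun s : ℝ => f (z + s • v)) (fderiv ℝ f (z + s • v) v) s :=
  (hf.differentiable (by simp) _).hasFDerivAt.comp_hasDerivAt s (line0 z v s)

lemma line2 (hf : ContDiff ℝ ∞ f) (z v : Eu A) (s : ℝ) :
    HasDerivAt (fun s : ℝ => fderiv ℝ f (z + s • v) v)
      (fderiv ℝ (fderiv ℝ f) (z + s • v) v v) s := by
  have h1 : ContDiff ℝ ∞ (fderiv ℝ f) := hf.fderiv_right (m := ∞) (by simp)
  simpa using (line1 h1 z v s).clm_apply (hasDerivAt_const s v)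

end line

/-- mollification -/
lemma exists_moll (Φ : Eu A → ℝ) (hΦ : Continuous Φ) {r : ℝ} (hr : 0 < r) :
    ∃ h : Eu A → ℝ, ContDiff ℝ ∞ h ∧ ∀ (a b c m : ℝ) (x y z : Eu A),
      (∀ t : Eu A, ‖t‖ < r → a * Φ (x - t) + b * Φ (y - t) + c * Φ (z - t) ≤ m) →
      a * h x + b * h y + c * h z ≤ m := by
  let ρ : ContDiffBump (0 : Eu A) := ⟨r / 2, r, half_pos hr, half_lt_self hr⟩
  refine ⟨ρ.normed volume ⋆[ContinuousLinearMap.lsmul ℝ ℝ, volume] Φ,
    ρ.hasCompactSupport_normed.contDiff_convolution_left _ ρ.contDiff_normed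
      hΦ.locallyIntegrable, fun a b c m x y z h => ?_⟩
  have hi : ∀ G : Eu A → ℝ, Continuous G →
      Integrable (fun t => ρ.normed volume t * G t) volume := fun G hG =>
    (ρ.continuous_normed.mul hG).integrable_of_hasCompactSupport
      ρ.hasCompactSupport_normed.mul_right
  simp only [convolution_def, ContinuousLinearMap.lsmul_apply, smul_eq_mul]
  have i1 := (hi (fun t => Φ (x - t)) (by fun_prop)).const_mul a
  have i2 := (hi (fun t => Φ (y - t)) (by fun_prop)).const_mul b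
  have i3 := (hi (fun t => Φ (z - t)) (by fun_prop)).const_mul c
  have i12 : Integrable (fun t => a * (ρ.normed volume t * Φ (x - t)) +
      b * (ρ.normed volume t * Φ (y - t))) volume := i1.add i2
  rw [← integral_const_mul, ← integral_const_mul, ← integral_const_mul, ← integral_add i1 i2,
    ← integral_add i12 i3]
  have e : m = ∫ t, ρ.normed volume t * m := by
    rw [integral_mul_const, ρ.integral_normed, one_mul]
  rw [e]
  refine integral_mono (i12.add i3) (hi _ continuous_const) fun t => ?_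
  by_cases ht : ‖t‖ < r
  · have := mul_le_mul_of_nonneg_left (h t ht) (ρ.nonneg_normed (μ := volume) t)
    linarith
  · have : ρ.normed volume t = 0 := by
      by_contra h0
      have : t ∈ Function.support (ρ.normed volume) := h0
      rw [ρ.support_normed_eq] at this
      exact ht (by simpa using this)
    simp [this]

/-- the barrier along a line -/
lemma barrier (X : Emb A n) (G : Eu A → ℝ) {β e : ℝ} {x z v g : Eu A} {s : ℝ}
    (hx : x ∈ X.M) (hz : ‖z + s • v - x‖ < X.δ)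
    (hb : ∀ᶠ w in 𝓝[X.M] (X.pr (z + s • v)), G w ≤ G (X.pr (z + s • v)) +
      ⟪g, w - X.pr (z + s • v)⟫_ℝ + (β + e) / 2 * ‖w - X.pr (z + s • v)‖ ^ 2) :
    ∃ ψ ψ' : ℝ → ℝ, (∀ t, HasDerivAt ψ (ψ' t) t) ∧ ψ' s = ⟪g, X.P (z + s • v) v⟫_ℝ ∧
      HasDerivAt ψ' (⟪g, X.II (z + s • v) v v⟫_ℝ + (β + e) * ‖X.P (z + s • v) v‖ ^ 2) s ∧
      ψ s = G (X.pr (z + s • v)) ∧ ∀ᶠ t in 𝓝 s, G (X.pr (z + t • v)) ≤ ψ t := by
  set y := X.pr (z + s • v) with hy
  have p1 : ∀ t : ℝ, HasDerivAt (fun t : ℝ => X.pr (z + t • v) - y) (X.P (z + t • v) v) t :=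
    fun t => (line1 X.smooth z v t).sub_const y
  have p2 : HasDerivAt (fun t : ℝ => X.P (z + t • v) v) (X.II (z + s • v) v v) s :=
    line2 X.smooth z v s
  refine ⟨fun t => G y + ⟪g, X.pr (z + t • v) - y⟫_ℝ + (β + e) / 2 * ‖X.pr (z + t • v) - y‖ ^ 2,
    fun t => ⟪g, X.P (z + t • v) v⟫_ℝ + (β + e) * ⟪X.pr (z + t • v) - y, X.P (z + t • v) v⟫_ℝ,
    fun t => ?_, by simp [hy], ?_, by simp [hy], ?_⟩
  · have := (((hasDerivAt_const t g).inner ℝ (p1 t)).const_add (G y)).add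
      ((p1 t).norm_sq.const_mul ((β + e) / 2))
    exact this.congr_deriv (by simp only [inner_zero_left, add_zero]; ring)
  · have := ((hasDerivAt_const s g).inner ℝ p2).add (((p1 s).inner ℝ p2).const_mul (β + e))
    exact this.congr_deriv (by simp [hy])
  · have hc : Continuous fun t : ℝ => z + t • v := by fun_prop
    have ht : Tendsto (fun t : ℝ => X.pr (z + t • v)) (𝓝 s) (𝓝[X.M] y) := by
      rw [tendsto_nhdsWithin_iff]
      refine ⟨(X.smooth.continuous.comp hc).continuousAt.tendsto, ?_⟩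
      have : ∀ᶠ t : ℝ in 𝓝 s, ‖z + t • v - x‖ < X.δ :=
        (show ContinuousAt (fun t : ℝ => ‖z + t • v - x‖) s by fun_prop).eventually
          (gt_mem_nhds hz)
      exact this.mono fun t h => X.maps x hx _ h
    exact ht.eventually hb

lemma near (X : Emb A n) (Φ : Eu A → ℝ) (hΦ : Continuous Φ) {e : ℝ} (he : 0 < e) :
    ∃ r > 0, ∀ x ∈ X.M, ∀ z, ‖z - x‖ < r → ‖z - x‖ < X.δ ∧ ‖X.pr z - x‖ < e ∧
      ‖X.P z - X.P x‖ < e ∧ ‖X.P (X.pr z) - X.P x‖ < e ∧
      ‖fderiv ℝ X.P z - fderiv ℝ X.P x‖ < e ∧ |Φ z - Φ x| < e := by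
  have c1 := X.smooth.continuous
  have c2 := X.P_smooth.continuous
  have c3 : Continuous (fderiv ℝ X.P) := X.P_smooth.continuous_fderiv (by simp)
  obtain ⟨r1, h1, k1⟩ := unif_near X.cpt (F := X.pr) (fun x _ => c1.continuousAt) he
  obtain ⟨r2, h2, k2⟩ := unif_near X.cpt (F := X.P) (fun x _ => c2.continuousAt) he
  obtain ⟨r3, h3, k3⟩ := unif_near X.cpt (F := fun z => X.P (X.pr z))
    (fun x _ => (c2.comp c1).continuousAt) he
  obtain ⟨r4, h4, k4⟩ := unif_near X.cpt (F := fderiv ℝ X.P) (fun x _ => c3.continuousAt) he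
  obtain ⟨r5, h5, k5⟩ := unif_near X.cpt (F := Φ) (fun x _ => hΦ.continuousAt) he
  refine ⟨min (min (min X.δ r1) (min r2 r3)) (min r4 r5), by
    have := X.δ_pos; positivity, fun x hx z hz => ?_⟩
  simp only [lt_min_iff] at hz
  obtain ⟨⟨⟨a0, a1⟩, a2, a3⟩, a4, a5⟩ := hz
  have b1 := k1 x hx z a1
  have b3 := k3 x hx z a3
  simp only [X.fix x hx] at b1 b3
  exact ⟨a0, b1, k2 x hx z a2, b3, k4 x hx z a4, k5 x hx z a5⟩

lemma small_step {r : ℝ} (hr : 0 < r) (v : Eu A) :
    ∀ᶠ k : ℝ in 𝓝 0, ∀ s : ℝ, |s| ≤ |k| → ∀ x t : Eu A, ‖t‖ < r / 2 →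
      ‖x - t + s • v - x‖ < r := by
  have : ∀ᶠ k : ℝ in 𝓝 0, |k| * ‖v‖ < r / 2 :=
    (show ContinuousAt (fun k : ℝ => |k| * ‖v‖) 0 by fun_prop).eventually
      (gt_mem_nhds (by simpa using hr))
  refine this.mono fun k hk s hs x t ht => ?_
  have e : x - t + s • v - x = s • v - t := by abel
  rw [e]
  refine lt_of_le_of_lt (norm_sub_le _ _) ?_
  rw [norm_smul, Real.norm_eq_abs]
  have := mul_le_mul_of_nonneg_right hs (norm_nonneg v)
  linarith

end ESmoothAux

open ESmoothAux in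
/-- smoothing of a function that is semiconcave in the barrier sense -/
theorem Emb.smoothing (X : Emb A n) (F : Eu A → ℝ) (hF : ContinuousOn F X.M) {β L : ℝ}
    (hβ : 0 ≤ β) (Gr : Eu A → Eu A → Prop)
    (hL : ∀ x ∈ X.M, ∀ g, Gr x g → ‖g‖ ≤ L ∧ X.P x g = g)
    (hbar : ∀ x ∈ X.M, ∃ g, Gr x g ∧ ∀ ε > 0, ∀ᶠ z in 𝓝[X.M] x,
      F z ≤ F x + ⟪g, z - x⟫_ℝ + (β + ε) / 2 * ‖z - x‖ ^ 2) {ε : ℝ} (hε : 0 < ε) :
    ∃ h : Eu A → ℝ, ContDiff ℝ ∞ h ∧ ∀ x ∈ X.M, |h x - F x| ≤ ε ∧
      (∀ w, X.P x w = w → Hess X.P h x w w ≤ (β + ε) * ‖w‖ ^ 2) ∧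
      ∀ w, X.P x w = w → ∃ x' ∈ X.M, ‖x' - x‖ < ε ∧ ∃ g, Gr x' g ∧
        fderiv ℝ h x w ≤ ⟪g, w⟫_ℝ + ε * ‖w‖ := by
  obtain ⟨G, hG⟩ := ContinuousMap.exists_restrict_eq (Y := ℝ) X.cpt.isClosed
    ⟨X.M.domRestrict F, hF.domRestrict⟩
  have hGF : ∀ x ∈ X.M, G x = F x := fun x hx => DFunLike.congr_fun hG ⟨x, hx⟩
  have hbar' : ∀ x ∈ X.M, ∃ g, Gr x g ∧ ∀ ε > 0, ∀ᶠ z in 𝓝[X.M] x,
      G z ≤ G x + ⟪g, z - x⟫_ℝ + (β + ε) / 2 * ‖z - x‖ ^ 2 := by
    intro x hx
    obtain ⟨g, h1, h2⟩ := hbar x hx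
    refine ⟨g, h1, fun e he => ?_⟩
    filter_upwards [h2 e he, self_mem_nhdsWithin] with z a b
    rwa [hGF z b, hGF x hx]
  set Φ : Eu A → ℝ := fun z => G (X.pr z) with hΦ
  have hΦc : Continuous Φ := G.continuous.comp X.smooth.continuous
  obtain ⟨C, hC⟩ := X.cpt.exists_bound_of_continuousOn (f := fderiv ℝ X.P)
    (X.P_smooth.continuous_fderiv (by simp)).continuousOn
  obtain ⟨e, he, e1, e2, e3⟩ : ∃ e > 0, e < ε ∧ L * e < ε / 2 ∧
      L * e * (1 + 2 * C) + (β + e) * (1 + e) ^ 2 < β + ε := by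
    have a1 : ∀ᶠ e : ℝ in 𝓝 0, e < ε := gt_mem_nhds hε
    have a2 : ∀ᶠ e : ℝ in 𝓝 0, L * e < ε / 2 :=
      (show ContinuousAt (fun e : ℝ => L * e) 0 by fun_prop).eventually
        (gt_mem_nhds (by simpa using hε))
    have a3 : ∀ᶠ e : ℝ in 𝓝 0, L * e * (1 + 2 * C) + (β + e) * (1 + e) ^ 2 < β + ε :=
      (show ContinuousAt (fun e : ℝ => L * e * (1 + 2 * C) + (β + e) * (1 + e) ^ 2) 0 by
        fun_prop).eventually (gt_mem_nhds (by simpa using hε))
    have a4 : ∀ᶠ e : ℝ in 𝓝[>] 0, 0 < e := self_mem_nhdsWithin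
    obtain ⟨e, h⟩ := (a4.and (nhdsWithin_le_nhds (a1.and (a2.and a3)))).exists
    exact ⟨e, h.1, h.2⟩
  obtain ⟨r, hr, hn⟩ := near X Φ hΦc he
  obtain ⟨h, hh, hav⟩ := exists_moll Φ hΦc (half_pos hr)
  refine ⟨h, hh, fun x hx => ?_⟩
  have hL0 : 0 ≤ L := by
    obtain ⟨g, hg, -⟩ := hbar x hx
    exact (norm_nonneg _).trans (hL x hx g hg).1
  have hC0 : 0 ≤ C := (norm_nonneg _).trans (hC x hx)
  have hφ : ∀ z v : Eu A, Continuous fun s : ℝ => Φ (z + s • v) := fun z v => by fun_prop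
  -- first order bound
  have FO : ∀ (v : Eu A) (m : ℝ), (∀ z, ‖z - x‖ < r → ∀ g, Gr (X.pr z) g →
      ⟪g, X.P z v⟫_ℝ ≤ m) → fderiv ℝ h x v ≤ m := by
    intro v m hm
    have h1 := line1 hh x v 0
    simp only [zero_smul, add_zero] at h1
    refine le_of_tendsto (hasDerivAt_iff_tendsto_slope_left_right.1 h1).2 ?_
    filter_upwards [nhdsWithin_le_nhds (small_step hr v), self_mem_nhdsWithin] with k hk hk0
    have hk0 : 0 < k := hk0
    have := hav 1 (-1) 0 (m * k) (x + k • v) x x fun t ht => by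
      have := first_order (hφ (x - t) v) hk0.le (m := m) fun s hs => by
        have hz := hk s (by rw [abs_of_nonneg hs.1, abs_of_pos hk0]; exact hs.2.le) x t ht
        have hδ := (hn x hx _ hz).1
        obtain ⟨g, g1, g2⟩ := hbar' _ (X.maps x hx _ hδ)
        obtain ⟨ψ, ψ', b1, b2, -, b4, b5⟩ := barrier X G hx hδ (g2 1 one_pos)
        exact ⟨ψ, _, b1 s, by rw [b2]; exact hm _ hz g g1, b4, b5⟩
      simp only [zero_smul, add_zero] at this
      rw [show x + k • v - t = x - t + k • v by abel]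
      linarith
    rw [slope_def_field, sub_zero, div_le_iff₀ hk0]
    simp only [zero_smul, add_zero]
    linarith
  have hip : ∀ (g : Eu A) (T : Eu A →L[ℝ] Eu A) (v : Eu A), ‖g‖ ≤ L → ‖T‖ < e →
      ⟪g, T v⟫_ℝ ≤ L * e * ‖v‖ := by
    intro g T v h1 h2
    refine (real_inner_le_norm _ _).trans ?_
    rw [mul_assoc]
    exact mul_le_mul h1 ((T.le_opNorm v).trans
      (mul_le_mul_of_nonneg_right h2.le (norm_nonneg _))) (norm_nonneg _) hL0
  refine ⟨?_, fun w hw => ?_, fun w hw => ?_⟩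
  · have hb : ∀ t : Eu A, ‖t‖ < r / 2 → |Φ (x - t) - F x| < e := fun t ht => by
      have := (hn x hx (x - t) (by
        rw [sub_sub_cancel_left, norm_neg]; linarith)).2.2.2.2.2
      rwa [show Φ x = F x by simp only [hΦ, X.fix x hx, hGF x hx]] at this
    have b1 := hav 1 0 0 (F x + e) x x x fun t ht => by
      have := abs_lt.1 (hb t ht); linarith [this.2]
    have b2 := hav (-1) 0 0 (-F x + e) x x x fun t ht => by
      have := abs_lt.1 (hb t ht); linarith [this.1]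
    rw [abs_le]; constructor <;> linarith
  · have hN : X.P x (X.II x w w) = 0 := by
      have := Emb.II_normal hx w w
      rwa [hw] at this
    have hII : ‖X.II x w w‖ ≤ C * ‖w‖ ^ 2 := by
      have := (fderiv ℝ X.P x).le_opNorm₂ w w
      have h2 := mul_le_mul_of_nonneg_right (hC x hx) (sq_nonneg ‖w‖)
      calc ‖X.II x w w‖ ≤ ‖fderiv ℝ X.P x‖ * ‖w‖ * ‖w‖ := this
        _ = ‖fderiv ℝ X.P x‖ * ‖w‖ ^ 2 := by ring
        _ ≤ _ := h2
    have hLe : 0 ≤ L * e := mul_nonneg hL0 he.le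
    have t1 : fderiv ℝ h x (X.II x w w) ≤ L * e * (C * ‖w‖ ^ 2) := by
      refine FO _ _ fun z hz g hg => ?_
      obtain ⟨a0, -, a2, -⟩ := hn x hx z hz
      have := hip g _ (X.II x w w) (hL _ (X.maps x hx z a0) g hg).1 a2
      rw [sub_apply, hN, sub_zero] at this
      exact this.trans (mul_le_mul_of_nonneg_left hII hLe)
    set m := (L * e * (1 + C) + (β + e) * (1 + e) ^ 2) * ‖w‖ ^ 2 with hm
    have t2 : ∀ᶠ k : ℝ in 𝓝 0, h (x + k • w) + h (x + (-k) • w) - 2 * h x ≤ m * k ^ 2 := by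
      have key : ∀ k : ℝ, 0 < k → (∀ s : ℝ, |s| ≤ |k| → ∀ x t : Eu A, ‖t‖ < r / 2 →
          ‖x - t + s • w - x‖ < r) → h (x + k • w) + h (x + (-k) • w) - 2 * h x ≤ m * k ^ 2 := by
        intro k hk0 hk
        have := hav 1 1 (-2) (m * k ^ 2) (x + k • w) (x + (-k) • w) x fun t ht => by
          have := second_order (hφ (x - t) w) hk0 (m := m) fun s hs => by
            have hz := hk s (by rw [abs_of_pos hk0]; exact (abs_lt.2 hs).le) x t ht
            obtain ⟨hδ, -, a2, a3, a4, -⟩ := hn x hx _ hz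
            have hy := X.maps x hx _ hδ
            obtain ⟨g, g1, g2⟩ := hbar' _ hy
            obtain ⟨ψ, ψ', b1, -, b3, b4, b5⟩ := barrier X G hx hδ (g2 e he)
            refine ⟨ψ, ψ', _, b1, b3, ?_, b4, b5⟩
            set z := x - t + s • w
            obtain ⟨l1, l2⟩ := hL _ hy g g1
            have c1 : ⟪g, X.II x w w⟫_ℝ ≤ L * e * (C * ‖w‖ ^ 2) := by
              have := hip g _ (X.II x w w) l1 a3
              rw [sub_apply, hN, sub_zero, ← (Emb.isProj hy).symm, l2] at this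
              exact this.trans (mul_le_mul_of_nonneg_left hII hLe)
            have c2 : ⟪g, X.II z w w - X.II x w w⟫_ℝ ≤ L * (e * ‖w‖ ^ 2) := by
              refine (real_inner_le_norm _ _).trans (mul_le_mul l1 ?_ (norm_nonneg _) hL0)
              have := (fderiv ℝ X.P z - fderiv ℝ X.P x).le_opNorm₂ w w
              have h2 := mul_le_mul_of_nonneg_right a4.le (sq_nonneg ‖w‖)
              calc _ ≤ ‖fderiv ℝ X.P z - fderiv ℝ X.P x‖ * ‖w‖ * ‖w‖ := this
                _ = ‖fderiv ℝ X.P z - fderiv ℝ X.P x‖ * ‖w‖ ^ 2 := by ring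
                _ ≤ _ := h2
            have c3 : ‖X.P z w‖ ≤ (1 + e) * ‖w‖ := by
              have h4 : X.P z w = w + (X.P z - X.P x) w := by simp [hw]
              rw [h4]
              refine (norm_add_le _ _).trans ?_
              have h6 := (X.P z - X.P x).le_opNorm w
              have h7 := mul_le_mul_of_nonneg_right a2.le (norm_nonneg w)
              linarith
            have c4 : (β + e) * ‖X.P z w‖ ^ 2 ≤ (β + e) * ((1 + e) * ‖w‖) ^ 2 :=
              mul_le_mul_of_nonneg_left (pow_le_pow_left₀ (norm_nonneg _) c3 2) (by linarith)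
            rw [inner_sub_right] at c2
            rw [hm]
            nlinarith
          simp only [zero_smul, add_zero] at this
          rw [show x + k • w - t = x - t + k • w by abel,
            show x + (-k) • w - t = x - t + (-k) • w by abel]
          linarith
        linarith
      filter_upwards [small_step hr w] with k hk
      rcases lt_trichotomy k 0 with h0 | h0 | h0
      · have := key (-k) (by linarith) (by simpa using hk)
        rw [neg_neg, neg_sq] at this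
        linarith
      · subst h0; simp only [neg_zero, zero_smul, add_zero]; linarith
      · exact key k h0 hk
    have t3 : fderiv ℝ (fderiv ℝ h) x w w ≤ m := by
      have n1 : ∀ k : ℝ, x + (-k) • w = x + k • (-w) := fun k => by simp
      have q1 : ∀ k : ℝ, HasDerivAt (fun k : ℝ => m * k ^ 2) (2 * m * k) k := fun k =>
        ((hasDerivAt_pow 2 k).const_mul m).congr_deriv (by simp; ring)
      have q2 : HasDerivAt (fun k : ℝ => 2 * m * k) (2 * m) 0 := by
        simpa using (hasDerivAt_id (0 : ℝ)).const_mul (2 * m)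
      have := second_nonneg
        (χ := fun k => m * k ^ 2 - (h (x + k • w) + h (x + k • (-w)) - 2 * h x))
        (χ' := fun k => 2 * m * k - (fderiv ℝ h (x + k • w) w + fderiv ℝ h (x + k • (-w)) (-w)))
        (s := 0) (fun k => (q1 k).sub (((line1 hh x w k).add (line1 hh x (-w) k)).sub_const _))
        (q2.sub ((line2 hh x w 0).add (line2 hh x (-w) 0))) (by
          filter_upwards [t2] with k hk
          rw [n1] at hk
          simp only [zero_smul, add_zero]
          linarith)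
      simp only [zero_smul, add_zero, map_neg, neg_apply, neg_neg] at this
      linarith
    have t4 := mul_le_mul_of_nonneg_right e3.le (sq_nonneg ‖w‖)
    change fderiv ℝ (fderiv ℝ h) x w w + fderiv ℝ h x (X.II x w w) ≤ _
    rw [hm] at t3
    nlinarith
  · by_contra hc
    push Not at hc
    have := FO w (fderiv ℝ h x w - ε / 2 * ‖w‖) fun z hz g hg => by
      obtain ⟨a0, a1, a2, -⟩ := hn x hx z hz
      have hy := X.maps x hx z a0
      have b1 := hc _ hy (a1.trans e1) g hg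
      have b2 := hip g _ w (hL _ hy g hg).1 a2
      rw [sub_apply, hw, inner_sub_right] at b2
      have b3 := mul_le_mul_of_nonneg_right e2.le (norm_nonneg w)
      linarith
    have hw0 : w = 0 := by
      have h1 : ε / 2 * ‖w‖ ≤ 0 := by linarith
      have h2 : ‖w‖ ≤ 0 := by
        by_contra h3
        push Not at h3
        linarith [mul_pos (half_pos hε) h3]
      exact norm_le_zero_iff.1 h2
    obtain ⟨g, hg, -⟩ := hbar x hx
    have := hc x hx (by simpa using hε) g hg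
    simp [hw0] at this

end Pool.Agent.AlEmb
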