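import Pool.Agent.Lib.MP_3fa020_gt.EFrame
import Pool.Agent.Lib.MP_3fa020_gt.EDiv
import Pool.Agent.Lib.MP_3fa020_gt.EGeod
import Pool.Agent.Lib.MP_3fa020_gt.EBarrier
import Pool.Agent.Lib.MP_3fa020_gt.EComp
import Pool.Agent.Lib.MP_3fa020_gt.EPack
import Pool.Agent.Lib.MP_3fa020_gt.ESmooth

/-!
Frames, positive curvature quantities, upper integrals and the inductive claims.
-/

namespace Pool.Agent.AlEmb

open Set Filter Topology MeasureTheory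
open scoped InnerProductSpace ContDiff

variable {A n k : ℕ}

namespace Emb

variable (X : Emb A n)

/-- tangential gradient -/
noncomputable def gr (g : Eu A → ℝ) (x : Eu A) : Eu A := X.P x (gradient g x)

/-- the upper integral of the positive part of `g` over `M` is at most `K` -/
def Maj (g : Eu A → ℝ) (K : ℝ) : Prop :=
  0 ≤ K ∧ ∃ g' : Eu A → ENNReal, AEMeasurable g' X.μ ∧ (∀ x ∈ X.M, ENNReal.ofReal (g x) ≤ g' x) ∧
    ∫⁻ x, g' x ∂X.μ ≤ ENNReal.ofReal K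

/-- the upper integral of `g` over `W` is at most `K` -/
def Bd (g : Eu A → ℝ) (W : Set (Eu A)) (K : ℝ) : Prop := X.Maj (W.indicator g) K

/-- integrable with integral zero -/
def IsDiv (F : Eu A → ℝ) : Prop := Integrable F X.μ ∧ ∫ x, F x ∂X.μ = 0

/-- the frame conditions at a point -/
structure FramePt (f : ℕ → Eu A → ℝ) (j : ℕ) (c R : ℝ) (x : Eu A) : Prop where
  hess : ∀ a < j, ∀ w, X.P x w = w → Hess X.P (f a) x w w ≤ ‖w‖ ^ 2 / R
  grad : ∀ a < j, ‖X.gr (f a) x‖ ≤ 1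
  obt : ∀ a < j, ∀ b < j, a ≠ b → ⟪X.gr (f a) x, X.gr (f b) x⟫_ℝ ≤ -c
  dir : ∃ w, ‖w‖ ≤ 1 ∧ X.P x w = w ∧ ∀ a < j, c ≤ fderiv ℝ (f a) x w

end Emb

/-- all data of the problem, normalised to curvature at least `-1` -/
structure Ctx (n k : ℕ) where
  A : ℕ
  D : DFA A
  X : Emb A n
  G : Geo X
  sec : X.Sec
  pos : D.PosK X k

/-- constant in the definition of `Z` -/
noncomputable def bl (j : ℕ) (c : ℝ) : ℝ := (1 + 1 / c) ^ j + 1

namespace Ctx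

variable (S : Ctx n k)

lemma geod : S.G.HasGeod := S.G.hasGeod
lemma bar : S.G.Barrier := S.G.barrier S.sec
lemma hinge : S.G.Hinge := Geo.hinge S.geod S.bar

/-- a frame of `j` functions on the ball of radius `R` about `y` -/
structure Frame (f : ℕ → Eu S.A → ℝ) (j : ℕ) (c : ℝ) (y : Eu S.A) (R : ℝ) : Prop where
  mem : y ∈ S.X.M
  pos : 0 < R
  le_one : R ≤ 1
  smooth : ∀ a < j, ContDiff ℝ ∞ (f a)
  pt : ∀ x ∈ S.G.ball y R, S.X.FramePt f j c R x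

variable (f : ℕ → Eu S.A → ℝ) (j : ℕ) (c R : ℝ)

/-- metric form of the level -/
noncomputable def th (x : Eu S.A) : S.D.R := S.D.Th (S.X.Pl f j x)

/-- the positive first order form -/
noncomputable def Z (x : Eu S.A) : S.D.R :=
  (bl j c / R) • S.th f j x - S.D.Th (S.X.Sh f j x)

/-- the positive second order form -/
noncomputable def Ps (x : Eu S.A) : S.D.R := S.D.Rh S.X x + S.Z f j c R x ^ 2

/-- top coefficient on the level -/
noncomputable def Bl (x : Eu S.A) : S.D.R →L[ℝ] ℝ := S.D.BP (n - j) (S.X.Pl f j x)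

/-- positive quantity of degree `2 p` -/
noncomputable def Ev (p : ℕ) (x : Eu S.A) : ℝ :=
  S.Bl f j x (S.Ps f j c R x ^ p * S.th f j x ^ (n - j - 2 * p))

/-- positive quantity of degree `2 p + 1` -/
noncomputable def Od (p : ℕ) (x : Eu S.A) : ℝ :=
  S.Bl f j x (S.Z f j c R x * S.Ps f j c R x ^ p * S.th f j x ^ (n - j - 2 * p - 1))

/-- Lipschitz-Killing integrand of the level -/
noncomputable def LK (p : ℕ) (x : Eu S.A) : ℝ :=
  S.Bl f j x (S.D.Om (S.X.Pl f j) x ^ p * S.th f j x ^ (n - j - 2 * p))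

/-- `x` is a regular point for the distance from `y` relative to the frame -/
def Reg (y x : Eu S.A) : Prop :=
  ∃ z ∈ S.X.M, S.G.d x z ≤ S.G.d y x / 100 ∧
    (∀ a < j, f a x + c * S.G.d y x / 10 ^ 5 ≤ f a z) ∧ S.G.d y x + S.G.d y x / 200 ≤ S.G.d y z

/-- the values of the frame at `x` and `y` differ by at most `η` -/
def Slab (η : ℝ) (y x : Eu S.A) : Prop := ∀ a < j, |f a x - f a y| ≤ η

/-- critical point for the distance from `y` inside the thin cone -/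
def Bad (y x : Eu S.A) : Prop :=
  x ∈ S.X.M ∧ S.G.d y x ≤ 4 * (c / 10 ^ 6 * R) ∧ S.Slab f j (c / 10 ^ 5 * S.G.d y x) y x ∧
    ¬S.Reg f j c y x

/-- no critical point at distance between `r` and `s` -/
def Good (y : Eu S.A) (r s : ℝ) : Prop :=
  ∀ x, r ≤ S.G.d y x → S.G.d y x ≤ s → ¬S.Bad f j c R y x

/-- at least `m` well separated critical scales above `r` -/
def Gm (y : Eu S.A) : ℕ → ℝ → Prop
  | 0, _ => True
  | m + 1, r => ∃ x, S.Bad f j c R y x ∧ r ≤ S.G.d y x ∧ Gm y m (100 * S.G.d y x)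

/-- smoothed distance function from `q` at scale `σ` -/
structure Adp (σ : ℝ) (q : Eu S.A) (h : Eu S.A → ℝ) : Prop where
  mem : q ∈ S.X.M
  smooth : ContDiff ℝ ∞ h
  close : ∀ x ∈ S.X.M,
    |h x - (Real.cosh (min (S.G.d q x) (7 * σ)) - 1) / (16 * σ)| ≤ σ / 10 ^ 6
  hess : ∀ x ∈ S.X.M, ∀ w, S.X.P x w = w → Hess S.X.P h x w w ≤ ‖w‖ ^ 2 / (15 * σ)
  grad : ∀ x ∈ S.X.M, ‖S.X.gr h x‖ ≤ 1
  obt : ∀ x ∈ S.X.M, S.G.d q x ≤ 5 * σ → ∀ a < j, f a x + c * σ / 12500 ≤ f a q →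
    ⟪S.X.gr h x, S.X.gr (f a) x⟫_ℝ ≤ -(c / 10 ^ 6)

/-- `q` is a point near `y` pushed inside -/
def Cen (σ : ℝ) (y q : Eu S.A) : Prop :=
  S.G.d y q ≤ σ / 1000 ∧ ∀ a < j, f a y + c * σ / 8000 ≤ f a q

/-- the points around which the extended family is a frame -/
def Wf (σ : ℝ) (q : Eu S.A) (h : Eu S.A → ℝ) : Set (Eu S.A) :=
  {x | S.G.d q x < 5 * σ ∧ S.Frame (Function.update f j h) (j + 1) (c / 10 ^ 6) x (c / 10 ^ 6 * σ)}

/-- cutoff profile for the odd step -/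
structure AdpO (s : ℝ) (y : Eu S.A) (h : Eu S.A → ℝ) : Prop where
  smooth : ContDiff ℝ ∞ h
  hess : ∀ x ∈ S.X.M, ∀ w, S.X.P x w = w → Hess S.X.P h x w w ≤ ‖w‖ ^ 2 / s
  grad : ∀ x ∈ S.X.M, ‖S.X.gr h x‖ ≤ 1
  inner : ∀ x ∈ S.X.M, S.G.d y x ≤ s → s / 100 ≤ h x
  outer : ∀ x ∈ S.X.M, S.Slab f j (c / 10 ^ 5 * s) y x → s / 200 ≤ h x → S.G.d y x ≤ 3 / 2 * s
  obt : ∀ x ∈ S.X.M, S.Slab f j (c / 10 ^ 5 * s) y x → s / 200 ≤ h x → h x ≤ s / 100 →
    ∀ a < j, ⟪S.X.gr h x, S.X.gr (f a) x⟫_ℝ ≤ 0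

end Ctx

/-- bound for the even quantity on all frames -/
def ClE (n k j : ℕ) (c : ℝ) (p : ℕ) (K : ℝ) : Prop :=
  ∀ (S : Ctx n k) (f : ℕ → Eu S.A → ℝ) (y : Eu S.A) (R : ℝ), S.Frame f j c y R →
    S.X.Bd (S.Ev f j c R p) (S.G.ball y (R / 2)) (K * R ^ (n - 2 * p))

/-- bound for the odd quantity on all frames -/
def ClO (n k j : ℕ) (c : ℝ) (p : ℕ) (K : ℝ) : Prop :=
  ∀ (S : Ctx n k) (f : ℕ → Eu S.A → ℝ) (y : Eu S.A) (R : ℝ), S.Frame f j c y R →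
    S.X.Bd (S.Od f j c R p) (S.G.ball y (R / 2)) (K * R ^ (n - 2 * p - 1))

/-- the global bound -/
def MainBound (n k : ℕ) : Prop :=
  ∀ D₀ : ℝ, ∃ C : ℝ, ∀ S : Ctx n k, (∀ x ∈ S.X.M, ∀ y ∈ S.X.M, S.G.d x y ≤ D₀) →
    ∀ p ≤ k, 2 * p ≤ n → S.X.Maj (fun x => S.D.BP n (S.X.P x)
      (S.D.Rh S.X x ^ p * S.D.Th (S.X.P x) ^ (n - 2 * p))) C

end Pool.Agent.AlEmb
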