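import Pool.Agent.Lib.MP_3fa020_gt.EBasic

/-!
The intrinsic distance of a compact submanifold.
-/

namespace Pool.Agent.AlEmb

open Set Filter Topology MeasureTheory
open scoped InnerProductSpace ContDiff ENNReal

variable {A n : ℕ}

namespace EDistAux

/-- continuous curves in `M` from `x` to `y` -/
structure Crv (M : Set (Eu A)) (x y : Eu A) where
  a : ℝ
  b : ℝ
  γ : ℝ → Eu A
  le : a ≤ b
  cont : ContinuousOn γ (Icc a b)
  src : γ a = x
  tgt : γ b = y
  maps : MapsTo γ (Icc a b) M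

variable {M : Set (Eu A)} {x y z : Eu A}

/-- length of a curve -/
noncomputable def Crv.len (c : Crv M x y) : ℝ≥0∞ := eVariationOn c.γ (Icc c.a c.b)

/-- infimum of the lengths -/
noncomputable def ed (M : Set (Eu A)) (x y : Eu A) : ℝ≥0∞ := ⨅ c : Crv M x y, c.len

lemma ed_le (c : Crv M x y) : ed M x y ≤ c.len := iInf_le _ c

lemma ed_comm_le (M : Set (Eu A)) (x y : Eu A) : ed M x y ≤ ed M y x := by
  refine le_iInf fun c => ?_
  have hm : MapsTo (fun t : ℝ => -t) (Icc (-c.b) (-c.a)) (Icc c.a c.b) :=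
    fun t ht => ⟨le_neg.1 ht.2, neg_le.1 ht.1⟩
  refine (ed_le ⟨-c.b, -c.a, c.γ ∘ fun t => -t, neg_le_neg c.le,
    c.cont.comp continuous_neg.continuousOn hm, by simp [c.tgt], by simp [c.src],
    c.maps.comp hm⟩).trans ?_
  exact eVariationOn.comp_le_of_antitoneOn c.γ _ (fun _ _ _ _ h => neg_le_neg h) hm

lemma ed_tri (M : Set (Eu A)) (x y z : Eu A) : ed M x z ≤ ed M x y + ed M y z := by
  refine ENNReal.le_iInf_add_iInf fun c e => ?_
  have h1 := c.le
  have h2 := e.le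
  have m1 : MapsTo (fun t : ℝ => min t c.b) (Icc c.a (c.b + (e.b - e.a))) (Icc c.a c.b) :=
    fun t ht => ⟨le_min ht.1 h1, min_le_right _ _⟩
  have m2 : MapsTo (fun t : ℝ => max t c.b - c.b + e.a) (Icc c.a (c.b + (e.b - e.a)))
      (Icc e.a e.b) := fun t ht => ⟨by linarith [le_max_right t c.b], by
    have : max t c.b ≤ c.b + (e.b - e.a) := max_le ht.2 (by linarith)
    linarith⟩
  have e1 : ∀ t ≤ c.b, c.γ (min t c.b) + e.γ (max t c.b - c.b + e.a) - y = c.γ t := by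
    intro t ht
    rw [min_eq_left ht, max_eq_right ht, sub_self, zero_add, e.src, add_sub_cancel_right]
  have e2 : ∀ t, c.b ≤ t →
      c.γ (min t c.b) + e.γ (max t c.b - c.b + e.a) - y = e.γ (t - c.b + e.a) := by
    intro t ht
    rw [min_eq_right ht, max_eq_left ht, c.tgt, add_sub_cancel_left]
  refine (ed_le ⟨c.a, c.b + (e.b - e.a),
    fun t => c.γ (min t c.b) + e.γ (max t c.b - c.b + e.a) - y, by linarith,
    ((c.cont.comp (by fun_prop) m1).add (e.cont.comp (by fun_prop) m2)).sub continuousOn_const,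
    by rw [e1 _ h1, c.src], by
      rw [e2 _ (by linarith), show c.b + (e.b - e.a) - c.b + e.a = e.b by ring, e.tgt],
    fun t ht => ?_⟩).trans ?_
  · rcases le_total t c.b with h | h
    · simp only [e1 t h]
      exact c.maps ⟨ht.1, h⟩
    · simp only [e2 t h]
      exact e.maps ⟨by linarith, by linarith [ht.2]⟩
  · have := eVariationOn.Icc_add_Icc
      (fun t => c.γ (min t c.b) + e.γ (max t c.b - c.b + e.a) - y) (s := univ) h1
      (by linarith : c.b ≤ c.b + (e.b - e.a)) (mem_univ _)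
    simp only [univ_inter] at this
    refine this.symm.trans_le (add_le_add
      (eVariationOn.congr fun t ht => e1 t ht.2).le ?_)
    refine (eVariationOn.congr (g := e.γ ∘ fun t => t - c.b + e.a)
      fun t ht => e2 t ht.1).trans_le ?_
    exact eVariationOn.comp_le_of_monotoneOn e.γ _ (fun _ _ _ _ h => by linarith)
      fun t ht => ⟨by linarith [ht.1], by linarith [ht.2]⟩

lemma edist_le_ed (M : Set (Eu A)) (x y : Eu A) : edist x y ≤ ed M x y := by
  refine le_iInf fun c => ?_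
  have := eVariationOn.edist_le c.γ (left_mem_Icc.2 c.le) (right_mem_Icc.2 c.le)
  rwa [c.src, c.tgt] at this

lemma ed_self (hx : x ∈ M) : ed M x x = 0 := by
  refine le_antisymm ((ed_le ⟨0, 0, fun _ => x, le_rfl, continuousOn_const, rfl, rfl,
    fun _ _ => hx⟩).trans_eq ?_) zero_le
  exact eVariationOn.subsingleton _ (by simp)

lemma ed_split (c : Crv M x y) {t : ℝ} (ht : t ∈ Icc c.a c.b) :
    ed M x (c.γ t) + ed M (c.γ t) y ≤ c.len := by
  have := eVariationOn.Icc_add_Icc c.γ (s := univ) ht.1 ht.2 (mem_univ _)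
  simp only [univ_inter] at this
  refine le_of_le_of_eq (add_le_add ?_ ?_) this
  · exact ed_le ⟨c.a, t, c.γ, ht.1, c.cont.mono (Icc_subset_Icc_right ht.2), c.src, rfl,
      c.maps.mono_left (Icc_subset_Icc_right ht.2)⟩
  · exact ed_le ⟨t, c.b, c.γ, ht.2, c.cont.mono (Icc_subset_Icc_left ht.1), rfl, c.tgt,
      c.maps.mono_left (Icc_subset_Icc_left ht.1)⟩

lemma var_le {a b : ℝ} {γ γ' : ℝ → Eu A}
    (hd : ∀ t ∈ Icc a b, HasDerivWithinAt γ (γ' t) (Icc a b) t)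
    (hc : ContinuousOn γ' (Icc a b)) :
    eVariationOn γ (Icc a b) ≤ ENNReal.ofReal (∫ t in a..b, ‖γ' t‖) := by
  have hi : ∀ s ∈ Icc a b, ∀ t ∈ Icc a b, IntervalIntegrable γ' volume s t := fun s hs t ht =>
    (hc.mono (uIcc_subset_Icc hs ht)).intervalIntegrable
  have h1 : ∀ s ∈ Icc a b, ∀ t ∈ Icc a b, s ≤ t → dist (γ t) (γ s) ≤ ∫ u in s..t, ‖γ' u‖ := by
    intro s hs t ht hst
    have hs' : Icc s t ⊆ Icc a b := Icc_subset_Icc hs.1 ht.2
    rw [dist_eq_norm, ← intervalIntegral.integral_eq_sub_of_hasDerivAt_of_le hst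
      (fun u hu => ((hd u (hs' hu)).continuousWithinAt).mono hs')
      (fun u hu => (hd u (hs' (Ioo_subset_Icc_self hu))).hasDerivAt
        (Icc_mem_nhds (hs.1.trans_lt hu.1) (hu.2.trans_le ht.2))) (hi s hs t ht)]
    exact intervalIntegral.norm_integral_le_integral_norm hst
  refine iSup_le fun ⟨N, u, hu, hm⟩ => ?_
  have h2 : ∀ k, ∑ i ∈ Finset.range k, dist (γ (u (i + 1))) (γ (u i)) ≤
      ∫ t in u 0..u k, ‖γ' t‖ := by
    intro k
    induction k with
    | zero => simp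
    | succ k ih =>
      rw [Finset.sum_range_succ, ← intervalIntegral.integral_add_adjacent_intervals
        (hi _ (hm 0) _ (hm k)).norm (hi _ (hm k) _ (hm (k + 1))).norm]
      exact add_le_add ih (h1 _ (hm k) _ (hm (k + 1)) (hu k.le_succ))
  simp only [edist_dist]
  rw [← ENNReal.ofReal_sum_of_nonneg fun _ _ => dist_nonneg]
  refine ENNReal.ofReal_le_ofReal ((h2 N).trans ?_)
  have hab : a ≤ b := (hm 0).1.trans (hm 0).2
  exact intervalIntegral.integral_mono_interval (hm 0).1 (hu (Nat.zero_le N)) (hm N).2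
    (Eventually.of_forall fun _ => norm_nonneg _)
    (hi _ (left_mem_Icc.2 hab) _ (right_mem_Icc.2 hab)).norm

/-- the intrinsic distance -/
noncomputable def dd (M : Set (Eu A)) (x y : Eu A) : ℝ := (ed M x y).toReal

lemma dd_comm (M : Set (Eu A)) (x y : Eu A) : dd M x y = dd M y x := by
  rw [dd, dd, le_antisymm (ed_comm_le M x y) (ed_comm_le M y x)]

lemma dd_self (hx : x ∈ M) : dd M x x = 0 := by rw [dd, ed_self hx, ENNReal.toReal_zero]

lemma dd_le_len (a b : ℝ) (γ γ' : ℝ → Eu A) (hab : a ≤ b) (hm : ∀ t ∈ Icc a b, γ t ∈ M)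
    (hd : ∀ t ∈ Icc a b, HasDerivWithinAt γ (γ' t) (Icc a b) t)
    (hc : ContinuousOn γ' (Icc a b)) : dd M (γ a) (γ b) ≤ ∫ t in a..b, ‖γ' t‖ :=
  ENNReal.toReal_le_of_le_ofReal
    (intervalIntegral.integral_nonneg hab fun _ _ => norm_nonneg _)
    ((ed_le ⟨a, b, γ, hab, fun t ht => (hd t ht).continuousWithinAt, rfl, rfl, hm⟩).trans
      (var_le hd hc))

lemma dd_local (X : Emb A n) :
    ∃ r > 0, ∀ x ∈ X.M, ∀ y ∈ X.M, ‖y - x‖ < r → dd X.M x y ≤ 2 * ‖y - x‖ := by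
  obtain ⟨r, hr, h⟩ := unif_near X.cpt (F := X.P)
    (fun x _ => X.P_smooth.continuous.continuousAt) one_pos
  refine ⟨min r X.δ, lt_min hr X.δ_pos, fun x hx y hy hxy => ?_⟩
  have hn : ∀ t ∈ Icc (0 : ℝ) 1, ‖x + t • (y - x) - x‖ < min r X.δ := by
    intro t ht
    rw [add_sub_cancel_left, norm_smul, Real.norm_of_nonneg ht.1]
    exact lt_of_le_of_lt (mul_le_of_le_one_left (norm_nonneg _) ht.2) hxy
  have hd : ∀ t : ℝ, HasDerivAt (fun t : ℝ => X.pr (x + t • (y - x)))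
      (X.P (x + t • (y - x)) (y - x)) t := by
    intro t
    have h1 : HasDerivAt (fun t : ℝ => x + t • (y - x)) (y - x) t := by
      simpa using ((hasDerivAt_id t).smul_const (y - x)).const_add x
    exact (X.pr_hasFDerivAt _).comp_hasDerivAt t h1
  have hc : Continuous fun t : ℝ => X.P (x + t • (y - x)) (y - x) := by
    have := X.P_smooth.continuous
    fun_prop
  have := dd_le_len (M := X.M) 0 1 (fun t => X.pr (x + t • (y - x)))
    (fun t => X.P (x + t • (y - x)) (y - x))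
    zero_le_one (fun t ht => X.maps x hx _ ((hn t ht).trans_le (min_le_right _ _)))
    (fun t _ => (hd t).hasDerivWithinAt) hc.continuousOn
  simp only [zero_smul, add_zero, one_smul, add_sub_cancel, X.fix x hx, X.fix y hy] at this
  refine this.trans ?_
  have h2 : ∫ t in (0 : ℝ)..1, ‖X.P (x + t • (y - x)) (y - x)‖ ≤
      ∫ _ in (0 : ℝ)..1, 2 * ‖y - x‖ := by
    refine intervalIntegral.integral_mono_on zero_le_one (hc.norm.intervalIntegrable _ _)
      (by simp) fun t ht => ?_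
    have h3 := h x hx _ ((hn t ht).trans_le (min_le_left _ _))
    have h4 : X.P (x + t • (y - x)) (y - x) =
        X.P x (y - x) + (X.P (x + t • (y - x)) - X.P x) (y - x) := by simp
    rw [h4]
    refine (norm_add_le _ _).trans ?_
    have h5 := (Emb.isProj hx).norm_le (y - x)
    have h6 := (X.P (x + t • (y - x)) - X.P x).le_opNorm (y - x)
    have h7 := mul_le_mul_of_nonneg_right h3.le (norm_nonneg (y - x))
    linarith
  simpa using h2

lemma dd_tendsto (X : Emb A n) {ι : Type*} {l : Filter ι} {p : ι → Eu A} (hx : x ∈ X.M)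
    (hp : ∀ᶠ i in l, p i ∈ X.M) (h : Tendsto p l (𝓝 x)) :
    Tendsto (fun i => dd X.M x (p i)) l (𝓝 0) := by
  obtain ⟨r, hr, h1⟩ := dd_local X
  have h2 : Tendsto (fun i => ‖p i - x‖) l (𝓝 0) := tendsto_iff_norm_sub_tendsto_zero.1 h
  refine squeeze_zero' (Eventually.of_forall fun _ => ENNReal.toReal_nonneg) ?_
    (by simpa using h2.const_mul 2)
  filter_upwards [hp, h2.eventually (gt_mem_nhds hr)] with i h3 h4 using h1 x hx _ h3 h4

section fin

variable (hf : ∀ x ∈ M, ∀ y ∈ M, ed M x y ≠ ⊤)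
include hf

lemma dd_tri (hx : x ∈ M) (hy : y ∈ M) (hz : z ∈ M) : dd M x z ≤ dd M x y + dd M y z := by
  rw [dd, dd, dd, ← ENNReal.toReal_add (hf x hx y hy) (hf y hy z hz)]
  exact ENNReal.toReal_mono (ENNReal.add_ne_top.2 ⟨hf x hx y hy, hf y hy z hz⟩) (ed_tri M x y z)

lemma norm_le_dd (hx : x ∈ M) (hy : y ∈ M) : ‖x - y‖ ≤ dd M x y := by
  rw [← dist_eq_norm, dist_edist]
  exact ENNReal.toReal_mono (hf x hx y hy) (edist_le_ed M x y)

end fin

section geo

variable (X : Emb A n) (hf : ∀ x ∈ X.M, ∀ y ∈ X.M, ed X.M x y ≠ ⊤)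
include hf

lemma dd_cont (hx : x ∈ X.M) : ContinuousOn (dd X.M x) X.M := by
  intro y hy
  refine tendsto_iff_norm_sub_tendsto_zero.2 (squeeze_zero' (Eventually.of_forall fun _ =>
    norm_nonneg _) ?_ (dd_tendsto X (p := id) hy self_mem_nhdsWithin
      (tendsto_id.mono_left nhdsWithin_le_nhds)))
  filter_upwards [self_mem_nhdsWithin] with z hz
  have h1 := dd_tri hf hx hy hz
  have h2 := dd_tri hf hx hz hy
  rw [dd_comm _ z y] at h2
  rw [Real.norm_eq_abs, abs_le, id]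
  constructor <;> linarith

lemma exists_between (hx : x ∈ X.M) (hy : y ∈ X.M) {s : ℝ} (h0 : 0 ≤ s) (h1 : s ≤ dd X.M x y) :
    ∃ z ∈ X.M, dd X.M x z = s ∧ dd X.M z y = dd X.M x y - s := by
  have h2 : ∀ ε > 0, ∃ z ∈ X.M ∩ dd X.M x ⁻¹' {s}, dd X.M y z ≤ dd X.M x y - s + ε := by
    intro ε hε
    have h3 : ed X.M x y < ed X.M x y + ENNReal.ofReal ε :=
      ENNReal.lt_add_right (hf x hx y hy) (ENNReal.ofReal_pos.2 hε).ne'
    obtain ⟨c, hc⟩ := iInf_lt_iff.1 h3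
    obtain ⟨t, ht, h4⟩ := intermediate_value_Icc c.le ((dd_cont X hf hx).comp c.cont c.maps)
      (show s ∈ _ from ⟨by simpa [c.src, dd_self hx] using h0, by simpa [c.tgt] using h1⟩)
    have hz := c.maps ht
    refine ⟨c.γ t, ⟨hz, h4⟩, ?_⟩
    have h5 := ENNReal.toReal_mono (ENNReal.add_ne_top.2 ⟨hf x hx y hy, ENNReal.ofReal_ne_top⟩)
      ((ed_split c ht).trans hc.le)
    rw [ENNReal.toReal_add (hf x hx _ hz) (hf _ hz y hy),
      ENNReal.toReal_add (hf x hx y hy) ENNReal.ofReal_ne_top, ENNReal.toReal_ofReal hε.le] at h5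
    change dd X.M x (c.γ t) + dd X.M (c.γ t) y ≤ dd X.M x y + ε at h5
    change dd X.M x (c.γ t) = s at h4
    rw [dd_comm]
    linarith
  have hK : IsCompact (X.M ∩ dd X.M x ⁻¹' {s}) := X.cpt.of_isClosed_subset
    ((dd_cont X hf hx).preimage_isClosed_of_isClosed X.cpt.isClosed isClosed_singleton)
    inter_subset_left
  obtain ⟨z, hz, hm⟩ := hK.exists_isMinOn ((h2 1 one_pos).imp fun _ h => h.1)
    ((dd_cont X hf hy).mono inter_subset_left)
  have h3 : dd X.M x z = s := hz.2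
  refine ⟨z, hz.1, h3, le_antisymm ?_ (by linarith [dd_tri hf hx hz.1 hy])⟩
  rw [dd_comm]
  refine le_of_forall_pos_le_add fun ε hε => ?_
  obtain ⟨w, hw, h4⟩ := h2 ε hε
  exact (isMinOn_iff.1 hm w hw).trans h4

lemma exists_chain (hx : x ∈ X.M) (hy : y ∈ X.M) {h : ℝ} (h0 : 0 < h) :
    ∃ z : ℕ → Eu A, z 0 = x ∧ (∀ k, z k ∈ X.M) ∧
      (∀ k : ℕ, k * h ≤ dd X.M x y → dd X.M (z k) y = dd X.M x y - k * h) ∧
      ∀ j k : ℕ, dd X.M (z j) (z k) ≤ |(j : ℝ) * h - k * h| := by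
  have h1 : ∀ p : X.M, ∃ q : X.M, dd X.M p q = min h (dd X.M p y) ∧
      dd X.M q y = dd X.M p y - min h (dd X.M p y) := fun p => by
    obtain ⟨q, hq, h2⟩ := exists_between X hf p.2 hy (le_min h0.le ENNReal.toReal_nonneg)
      (min_le_right h _)
    exact ⟨⟨q, hq⟩, h2⟩
  choose F hF1 hF2 using h1
  have h2 : ∀ j k : ℕ, dd X.M (F^[j] ⟨x, hx⟩ : X.M) (F^[j + k] ⟨x, hx⟩ : X.M) ≤ k * h := by
    intro j k
    induction k with
    | zero => simp [dd_self (F^[j] ⟨x, hx⟩).2]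
    | succ k ih =>
      rw [← add_assoc, Function.iterate_succ_apply']
      refine (dd_tri hf (F^[j] ⟨x, hx⟩).2 (F^[j + k] ⟨x, hx⟩).2 (F _).2).trans ?_
      rw [hF1]
      push_cast
      linarith [min_le_left h (dd X.M (F^[j + k] ⟨x, hx⟩ : X.M) y)]
  refine ⟨fun k => (F^[k] ⟨x, hx⟩ : X.M), rfl, fun k => (F^[k] ⟨x, hx⟩).2, fun k => ?_,
    fun j k => ?_⟩
  · induction k with
    | zero => simp
    | succ k ih =>
      intro hk
      push_cast at hk ⊢
      have h3 := ih (by linarith)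
      simp only [Function.iterate_succ_apply'] at h3 ⊢
      rw [hF2, h3, min_eq_left (by linarith)]
      ring
  · rcases le_total j k with hjk | hjk
    · obtain ⟨m, rfl⟩ := Nat.exists_eq_add_of_le hjk
      refine (h2 j m).trans (le_trans (le_of_eq ?_) (neg_le_abs _))
      push_cast
      ring
    · obtain ⟨m, rfl⟩ := Nat.exists_eq_add_of_le hjk
      rw [dd_comm]
      refine (h2 k m).trans (le_trans (le_of_eq ?_) (le_abs_self _))
      push_cast
      ring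

lemma exists_mid (hx : x ∈ X.M) (hy : y ∈ X.M) : ∃ γ : ℝ → Eu A, γ 0 = x ∧ γ (dd X.M x y) = y ∧
    (∀ t ∈ Icc 0 (dd X.M x y), γ t ∈ X.M) ∧
    ∀ s ∈ Icc 0 (dd X.M x y), ∀ t ∈ Icc 0 (dd X.M x y), dd X.M (γ s) (γ t) = |s - t| := by
  obtain ⟨η, hh, hη⟩ : ∃ η : ℕ → ℝ, (∀ N, 0 < η N) ∧ Tendsto η atTop (𝓝 0) :=
    ⟨fun N => 1 / (N + 1), fun N => by positivity, tendsto_one_div_add_atTop_nhds_zero_nat⟩
  choose z hz0 hz1 hz2 hz3 using fun N : ℕ => exists_chain X hf hx hy (hh N)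
  obtain ⟨U, hU⟩ : ∃ U : Ultrafilter ℕ, (U : Filter ℕ) ≤ atTop :=
    ⟨Ultrafilter.of atTop, Ultrafilter.of_le _⟩
  have h0 : Tendsto η U (𝓝 0) := hη.mono_left hU
  have h1 : ∀ t : ℝ, ∃ p ∈ X.M, Tendsto (fun N : ℕ => z N ⌊t / η N⌋₊) U (𝓝 p) :=
    fun t => X.cpt.ultrafilter_le_nhds (U.map fun N : ℕ => z N ⌊t / η N⌋₊)
      (le_principal_iff.2 (mem_map.2 (Eventually.of_forall fun N => hz1 N _)))
  choose γ hγ1 hγ2 using h1
  have h2 := fun t => dd_tendsto X (hγ1 t) (Eventually.of_forall fun N => hz1 N _) (hγ2 t)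
  have h3 : ∀ t : ℝ, 0 ≤ t → ∀ N : ℕ, (⌊t / η N⌋₊ : ℝ) * η N ≤ t ∧
      t ≤ (⌊t / η N⌋₊ : ℝ) * η N + η N := fun t ht N =>
    ⟨(le_div_iff₀ (hh N)).1 (Nat.floor_le (div_nonneg ht (hh N).le)), by
      have := (div_lt_iff₀ (hh N)).1 (Nat.lt_floor_add_one (t / η N))
      linarith⟩
  have h4 : ∀ t ∈ Icc 0 (dd X.M x y), dd X.M (γ t) y = dd X.M x y - t := by
    intro t ht
    have h5 := fun N => hz2 N _ ((h3 t ht.1 N).1.trans ht.2)
    have h6 := ((h2 t).add h0).const_add (dd X.M x y - t)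
    have h7 := (h2 t).const_add (dd X.M (γ t) y)
    rw [add_zero, add_zero] at h6
    rw [add_zero] at h7
    refine le_antisymm (ge_of_tendsto' h6 fun N => ?_) (ge_of_tendsto' h7 fun N => ?_)
    · have := dd_tri hf (hγ1 t) (hz1 N ⌊t / η N⌋₊) hy
      linarith [h5 N, (h3 t ht.1 N).2]
    · have := dd_tri hf (hz1 N ⌊t / η N⌋₊) (hγ1 t) hy
      rw [dd_comm _ _ (γ t)] at this
      linarith [h5 N, (h3 t ht.1 N).1]
  have h5 : ∀ s, 0 ≤ s → ∀ t, 0 ≤ t → dd X.M (γ s) (γ t) ≤ |s - t| := by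
    intro s hs t ht
    have h6 := (((h2 s).add (h2 t)).add h0).const_add |s - t|
    rw [add_zero, add_zero, add_zero] at h6
    refine ge_of_tendsto' h6 fun N => ?_
    have a1 := dd_tri hf (hγ1 s) (hz1 N ⌊s / η N⌋₊) (hγ1 t)
    have a2 := dd_tri hf (hz1 N ⌊s / η N⌋₊) (hz1 N ⌊t / η N⌋₊) (hγ1 t)
    have a5 := dd_comm X.M (z N ⌊t / η N⌋₊) (γ t)
    have a3 := hz3 N ⌊s / η N⌋₊ ⌊t / η N⌋₊
    have a4 : |(⌊s / η N⌋₊ : ℝ) * η N - ⌊t / η N⌋₊ * η N| ≤ |s - t| + η N := by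
      have b1 := h3 s hs N
      have b2 := h3 t ht N
      have b3 := le_abs_self (s - t)
      have b4 := neg_le_abs (s - t)
      rw [abs_le]
      constructor <;> linarith [b1.1, b1.2, b2.1, b2.2]
    linarith
  have hl : 0 ≤ dd X.M x y := ENNReal.toReal_nonneg
  refine ⟨γ, ?_, ?_, fun t _ => hγ1 t, fun s hs t ht => le_antisymm (h5 s hs.1 t ht.1) ?_⟩
  · have := hγ2 0
    simp only [zero_div, Nat.floor_zero, hz0] at this
    exact tendsto_nhds_unique this tendsto_const_nhds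
  · have h6 := h4 _ (right_mem_Icc.2 hl)
    have h7 := norm_le_dd hf (hγ1 (dd X.M x y)) hy
    rw [h6, sub_self] at h7
    exact sub_eq_zero.1 (norm_le_zero_iff.1 h7)
  · have a1 := dd_tri hf (hγ1 s) (hγ1 t) hy
    have a2 := dd_tri hf (hγ1 t) (hγ1 s) hy
    rw [dd_comm _ (γ t) (γ s)] at a2
    rw [h4 s hs, h4 t ht] at a1 a2
    rw [abs_le]
    constructor <;> linarith

end geo

end EDistAux

open EDistAux in
theorem exists_geo (X : Emb A n) {D : ℝ} (hD : 0 ≤ D) (h : DiamLE D X.M) :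
    ∃ G : Geo X, ∀ x ∈ X.M, ∀ y ∈ X.M, G.d x y ≤ D := by
  have h1 : ∀ x ∈ X.M, ∀ y ∈ X.M, ∀ ε > 0, ed X.M x y ≤ ENNReal.ofReal (D + ε) := by
    intro x hx y hy ε hε
    obtain ⟨γ, c1, c2, c3, c4, c5⟩ := h x hx y hy ε hε
    exact (ed_le ⟨0, 1, γ, zero_le_one, c1, c2, c3, c4⟩).trans c5
  have hf : ∀ x ∈ X.M, ∀ y ∈ X.M, ed X.M x y ≠ ⊤ := fun x hx y hy =>
    ne_top_of_le_ne_top ENNReal.ofReal_ne_top (h1 x hx y hy 1 one_pos)
  refine ⟨⟨dd X.M, fun _ _ => ENNReal.toReal_nonneg, dd_comm X.M, fun _ => dd_self,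
    fun _ hx _ hy _ hz => dd_tri hf hx hy hz, fun _ hx _ hy => norm_le_dd hf hx hy, dd_le_len,
    fun _ hx _ hy => exists_mid X hf hx hy⟩, fun x hx y hy => ?_⟩
  exact le_of_forall_pos_le_add fun ε hε =>
    ENNReal.toReal_le_of_le_ofReal (by linarith) (h1 x hx y hy ε hε)

end Pool.Agent.AlEmb
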