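import Pool.Agent.Lib.MP_3fa020_gt.EAlg

/-!
Domination calculus in the positive cone.
-/

namespace Pool.Agent.AlEmb

open Set Filter Topology
open scoped InnerProductSpace

variable {A : ℕ}

namespace DFA

variable {D : DFA A} {ρ : D.R} {p q : ℕ} {F G F' G' H : D.R}

namespace Cone

lemma zero' (p : ℕ) : D.Cone ρ p 0 := Cone.mono (Nat.zero_le _) Cone.zero

lemma cast (h : D.Cone ρ p F) (e : F = G) : D.Cone ρ p G := e ▸ h

lemma mul0 (h : D.Cone ρ 0 F) (h' : D.Cone ρ q G) : D.Cone ρ q (F * G) := by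
  simpa using h.mul h'

lemma mul0' (h : D.Cone ρ q F) (h' : D.Cone ρ 0 G) : D.Cone ρ q (F * G) := h.mul h'

lemma sum {ι : Type*} (s : Finset ι) {f : ι → D.R} (h : ∀ i ∈ s, D.Cone ρ p (f i)) :
    D.Cone ρ p (∑ i ∈ s, f i) := by
  classical
  induction s using Finset.induction_on with
  | empty => simpa using zero' p
  | insert a s ha ih =>
    rw [Finset.sum_insert ha]
    exact (h a (by simp)).add (ih fun i hi => h i (by simp [hi]))

lemma pow (h : D.Cone ρ p F) (k : ℕ) : D.Cone ρ (p * k) (F ^ k) := by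
  induction k with
  | zero => simpa using Cone.one
  | succ k ih => rw [pow_succ, Nat.mul_succ]; exact ih.mul h

lemma pow0 (h : D.Cone ρ 0 F) (k : ℕ) : D.Cone ρ 0 (F ^ k) := by simpa using h.pow k

lemma pow1 (h : D.Cone ρ 1 F) (k : ℕ) : D.Cone ρ k (F ^ k) := by simpa using h.pow k

end Cone

lemma Th_cone (D : DFA A) (ρ : D.R) {T : Eu A →L[ℝ] Eu A}
    (hT : ∀ v w, ⟪T v, w⟫_ℝ = ⟪v, T w⟫_ℝ) (h : ∀ v, 0 ≤ ⟪T v, v⟫_ℝ) : D.Cone ρ 0 (D.Th T) := by
  have hs : (T : Eu A →ₗ[ℝ] Eu A).IsSymmetric := hT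
  have hn : Module.finrank ℝ (Eu A) = A := by simp
  let b := hs.eigenvectorBasis hn
  have := D.Th_frame b (P := ContinuousLinearMap.id ℝ _) (fun v => by
    simpa using (b.sum_repr' v).symm) T
  rw [ContinuousLinearMap.comp_id] at this
  rw [this]
  refine Cone.sum _ fun i _ => ?_
  have e : T (b i) = hs.eigenvalues hn i • b i := hs.apply_eigenvectorBasis hn i
  rw [e, map_smul]
  refine Cone.smul _ ?_ (Cone.sq _)
  have := h (b i)
  rw [e, inner_smul_left] at this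
  simpa using this

/-- `F` is dominated by `G` -/
def Dom (D : DFA A) (ρ : D.R) (p : ℕ) (F G : D.R) : Prop :=
  D.Cone ρ p (G - F) ∧ D.Cone ρ p (G + F)

namespace Dom

lemma cone (h : D.Dom ρ p F G) : D.Cone ρ p G :=
  (Cone.smul (1 / 2) (by norm_num) (h.1.add h.2)).cast (by module)

lemma refl (h : D.Cone ρ p F) : D.Dom ρ p F F :=
  ⟨(Cone.zero' p).cast (by ring), h.add h⟩

lemma zero (h : D.Cone ρ p F) : D.Dom ρ p 0 F := ⟨h.cast (by ring), h.cast (by ring)⟩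

lemma of_le (h : D.Cone ρ p F) (h' : D.Cone ρ p (G - F)) : D.Dom ρ p F G :=
  ⟨h', ((h.add h).add h').cast (by ring)⟩

lemma mono (h : D.Dom ρ p F G) (hpq : p ≤ q) : D.Dom ρ q F G :=
  ⟨h.1.mono hpq, h.2.mono hpq⟩

lemma neg (h : D.Dom ρ p F G) : D.Dom ρ p (-F) G :=
  ⟨h.2.cast (by ring), h.1.cast (by ring)⟩

lemma add (h : D.Dom ρ p F G) (h' : D.Dom ρ p F' G') : D.Dom ρ p (F + F') (G + G') :=
  ⟨(h.1.add h'.1).cast (by ring), (h.2.add h'.2).cast (by ring)⟩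

lemma sub (h : D.Dom ρ p F G) (h' : D.Dom ρ p F' G') : D.Dom ρ p (F - F') (G + G') := by
  rw [sub_eq_add_neg]; exact h.add h'.neg

lemma mul (h : D.Dom ρ p F G) (h' : D.Dom ρ q F' G') : D.Dom ρ (p + q) (F * F') (G * G') := by
  constructor
  · refine (Cone.smul (1 / 2) (by norm_num) ((h.1.mul h'.2).add (h.2.mul h'.1))).cast ?_
    have : (G - F) * (G' + F') + (G + F) * (G' - F') = (2 : ℝ) • (G * G' - F * F') := by
      rw [two_smul]; ring
    rw [this]; module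
  · refine (Cone.smul (1 / 2) (by norm_num) ((h.1.mul h'.1).add (h.2.mul h'.2))).cast ?_
    have : (G - F) * (G' - F') + (G + F) * (G' + F') = (2 : ℝ) • (G * G' + F * F') := by
      rw [two_smul]; ring
    rw [this]; module

lemma mul0 (h : D.Dom ρ 0 F G) (h' : D.Dom ρ q F' G') : D.Dom ρ q (F * F') (G * G') := by
  simpa using h.mul h'

lemma mul0' (h : D.Dom ρ q F G) (h' : D.Dom ρ 0 F' G') : D.Dom ρ q (F * F') (G * G') := h.mul h'

lemma pow (h : D.Dom ρ p F G) (k : ℕ) : D.Dom ρ (p * k) (F ^ k) (G ^ k) := by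
  induction k with
  | zero => simpa using refl Cone.one
  | succ k ih => rw [pow_succ, pow_succ, Nat.mul_succ]; exact ih.mul h

lemma pow0 (h : D.Dom ρ 0 F G) (k : ℕ) : D.Dom ρ 0 (F ^ k) (G ^ k) := by simpa using h.pow k

lemma pow1 (h : D.Dom ρ 1 F G) (k : ℕ) : D.Dom ρ k (F ^ k) (G ^ k) := by simpa using h.pow k

lemma trans (h : D.Dom ρ p F G) (h' : D.Dom ρ p G H) : D.Dom ρ p F H :=
  ⟨(h.1.add h'.1).cast (by ring), (h.2.add h'.1).cast (by ring)⟩

lemma smul {c e : ℝ} (h : D.Dom ρ p F G) (hc : |c| ≤ e) : D.Dom ρ p (c • F) (e • G) := by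
  have h1 := abs_le.1 hc
  constructor
  · refine ((Cone.smul ((e + c) / 2) (by linarith) h.1).add
      (Cone.smul ((e - c) / 2) (by linarith) h.2)).cast ?_
    module
  · refine ((Cone.smul ((e - c) / 2) (by linarith) h.1).add
      (Cone.smul ((e + c) / 2) (by linarith) h.2)).cast ?_
    module

lemma smul' {c : ℝ} (h : D.Dom ρ p F G) (hc : 0 ≤ c) : D.Dom ρ p (c • F) (c • G) :=
  h.smul (abs_of_nonneg hc).le

lemma up {c e : ℝ} (h : D.Dom ρ p F (c • G)) (hG : D.Cone ρ p G) (hc : c ≤ e) :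
    D.Dom ρ p F (e • G) :=
  ⟨(h.1.add (Cone.smul (e - c) (by linarith) hG)).cast (by module),
    (h.2.add (Cone.smul (e - c) (by linarith) hG)).cast (by module)⟩

lemma cast (h : D.Dom ρ p F G) (e : F = F') (e' : G = G') : D.Dom ρ p F' G' := e ▸ e' ▸ h

lemma sum {ι : Type*} (s : Finset ι) {f g : ι → D.R} (h : ∀ i ∈ s, D.Dom ρ p (f i) (g i)) :
    D.Dom ρ p (∑ i ∈ s, f i) (∑ i ∈ s, g i) :=
  ⟨(Cone.sum s fun i hi => (h i hi).1).cast (by rw [Finset.sum_sub_distrib]),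
    (Cone.sum s fun i hi => (h i hi).2).cast (by rw [Finset.sum_add_distrib])⟩

lemma abs_le {φ : D.R →L[ℝ] ℝ} {k : ℕ} (hφ : ∀ F, D.Cone ρ k F → 0 ≤ φ F) (h : D.Dom ρ p F G)
    (hp : p ≤ k) : |φ F| ≤ φ G := by
  have h1 := hφ _ (h.1.mono hp)
  have h2 := hφ _ (h.2.mono hp)
  rw [map_sub] at h1
  rw [map_add] at h2
  rw [_root_.abs_le]; constructor <;> linarith

lemma le {φ : D.R →L[ℝ] ℝ} {k : ℕ} (hφ : ∀ F, D.Cone ρ k F → 0 ≤ φ F) (h : D.Dom ρ p F G)
    (hp : p ≤ k) : φ F ≤ φ G := (le_abs_self _).trans (h.abs_le hφ hp)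

end Dom

lemma dom_Th (D : DFA A) (ρ : D.R) {T T' : Eu A →L[ℝ] Eu A}
    (hT : ∀ v w, ⟪T v, w⟫_ℝ = ⟪v, T w⟫_ℝ) (hT' : ∀ v w, ⟪T' v, w⟫_ℝ = ⟪v, T' w⟫_ℝ)
    (h : ∀ v, |⟪T v, v⟫_ℝ| ≤ ⟪T' v, v⟫_ℝ) : D.Dom ρ 0 (D.Th T) (D.Th T') := by
  constructor
  · rw [← map_sub]
    refine D.Th_cone ρ (fun v w => by simp [inner_sub_left, inner_sub_right, hT, hT']) fun v => ?_
    have := abs_le.1 (h v)
    simp only [sub_apply, inner_sub_left]; linarith
  · rw [← map_add]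
    refine D.Th_cone ρ (fun v w => by simp [inner_add_left, inner_add_right, hT, hT']) fun v => ?_
    have := abs_le.1 (h v)
    simp only [add_apply, inner_add_left]; linarith

/-- positivity passes to the next level -/
lemma pos_step {d k : ℕ} {P : Eu A →L[ℝ] Eu A} (h : IsProj (d + 1) P) (u : Eu A)
    (hφ : ∀ F, D.Cone ρ k F → 0 ≤ D.BP (d + 1) P F) (F : D.R) (hF : D.Cone ρ k F) :
    0 ≤ D.BP d (P - r1 u) F := by
  rw [← D.BP_step h]
  exact hφ _ ((Cone.sq u).mul0 hF)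

end DFA

end Pool.Agent.AlEmb
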