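import Pool.Agent.Lib.MP_3fa020_gt.EObt

/-!
Pointwise algebraic estimates at a frame point.
-/

namespace Pool.Agent.AlEmb

open Set Filter Topology MeasureTheory
open scoped InnerProductSpace ContDiff

variable {n k : ℕ}

namespace Ctx

variable (S : Ctx n k) (f : ℕ → Eu S.A → ℝ) (j : ℕ) (c R : ℝ) (x : Eu S.A)

/-- the pointwise estimates with constant `C` -/
structure Est (C : ℝ) : Prop where
  nz : S.X.NZ f j x
  J_le : S.X.Jl f j x ≤ 1
  J_ge : 1 ≤ C * S.X.Jl f j x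
  J_pos : 0 < S.X.Jl f j x
  b_le : bl j c ≤ C
  pos : ∀ F, S.D.Cone (S.D.Rh S.X x) k F → 0 ≤ S.Bl f j x F
  thc : S.D.Cone (S.D.Rh S.X x) 0 (S.th f j x)
  Zc : S.D.Cone (S.D.Rh S.X x) 0 (S.Z f j c R x)
  Psc : S.D.Cone (S.D.Rh S.X x) 1 (S.Ps f j c R x)
  thZ : S.D.Dom (S.D.Rh S.X x) 0 (S.th f j x) (R • S.Z f j c R x)
  ShZ : S.D.Dom (S.D.Rh S.X x) 0 (S.D.Th (S.X.Sh f j x)) (C • S.Z f j c R x)
  ZZ : S.D.Dom (S.D.Rh S.X x) 1 (S.Z f j c R x ^ 2) (S.Ps f j c R x)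
  M2 : ∀ p ≤ k, ∀ W W', S.D.Dom (S.D.Rh S.X x) 0 W' W →
    |S.Bl f j x (W' * S.D.Om (S.X.Pl f j) x ^ p)| ≤ C ^ p * S.Bl f j x (W * S.Ps f j c R x ^ p)
  M2' : ∀ i, j = i + 1 → ∀ q p, q + p ≤ k → ∀ W W', S.D.Dom (S.D.Rh S.X x) 0 W' W →
    |S.Bl f j x (W' * S.D.Th (S.X.Sh f j x) ^ (2 * q) * S.D.Om (S.X.Pl f i) x ^ p)| ≤
      C ^ (q + p) * S.Bl f j x (W * S.Ps f j c R x ^ (q + p))
  M1 : ∀ p, p + 1 ≤ k → ∀ W, S.D.Cone (S.D.Rh S.X x) 0 W →
    S.Bl f j x (W * S.Ps f j c R x ^ (p + 1)) ≤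
      S.Bl f j x (W * S.D.Om (S.X.Pl f j) x ^ (p + 1)) +
      (p + 1) * C ^ (p + 1) / R * S.Bl f j x (W * S.th f j x * S.Z f j c R x * S.Ps f j c R x ^ p)

variable {S f j c R x}

lemma pos_level (h : S.X.NZ f j x) (F : S.D.R) (hF : S.D.Cone (S.D.Rh S.X x) k F) :
    0 ≤ S.Bl f j x F := by
  induction j generalizing F with
  | zero => exact S.pos x h.mem F hF
  | succ j ih =>
    have h1 := h.lev_succ.isProj
    have e : n - (j + 1) + 1 = n - j := by have := h.le; omega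
    refine DFA.pos_step h1 _ (fun G hG => ?_) F hF
    rw [e]
    exact ih (h.mono (Nat.le_succ j)) G hG

lemma eqv_up (h : S.X.NZ f j x) {i : ℕ} (hi : i ≤ j) {F G : S.D.R}
    (e : S.D.Eqv (n - i) (S.X.Pl f i x) F G) : S.D.Eqv (n - j) (S.X.Pl f j x) F G := by
  induction j with
  | zero => obtain rfl : i = 0 := by omega
            exact e
  | succ j ih =>
    rcases hi.eq_or_lt with rfl | hi
    · exact e
    · have e' : n - (j + 1) + 1 = n - j := by have := h.le; omega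
      refine DFA.Eqv.step h.lev_succ.isProj _ ?_
      rw [e']
      exact ih (h.mono (Nat.le_succ j)) (by omega)

lemma gauss (h : S.X.NZ f j x) :
    S.D.Eqv (n - j) (S.X.Pl f j x) (S.D.Om (S.X.Pl f j) x)
      (S.D.Om S.X.P x + ∑ a ∈ Finset.range j, S.D.Th (S.X.Sh f (a + 1) x) ^ 2) := by
  induction j with
  | zero => simpa [Emb.Pl] using DFA.Eqv.refl _
  | succ j ih =>
    refine (S.D.eqv_Om h.lev_succ h.unitF).trans ?_
    rw [Finset.sum_range_succ, ← add_assoc]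
    exact (eqv_up h (Nat.le_succ j) (ih (h.mono (Nat.le_succ j)))).add (DFA.Eqv.refl _)

end Ctx

lemma one_le_gamma {c : ℝ} (hc : 0 < c) : 1 ≤ 1 + 1 / c := by
  have : 0 < 1 / c := by positivity
  linarith

lemma one_le_bl (j : ℕ) {c : ℝ} (hc : 0 < c) : 1 ≤ bl j c := by
  have : 0 ≤ (1 + 1 / c) ^ j := by positivity
  rw [bl]; linarith

open _root_.Pool.Agent.AlEmb.DFA in
theorem exists_est (j : ℕ) {c : ℝ} (hc : 0 < c) (hc1 : c ≤ 1) :
    ∃ C ≥ 1, ∀ {n k : ℕ} (S : Ctx n k) (f : ℕ → Eu S.A → ℝ) (R : ℝ) (x : Eu S.A), 0 < R → R ≤ 1 →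
      x ∈ S.X.M → (∀ a < j, ContDiff ℝ ∞ (f a)) → S.X.FramePt f j c R x → S.Est f j c R x C := by
  set b := bl j c with hb
  have hb1 : 1 ≤ b := one_le_bl j hc
  set C₂ := 2 * b + 1 / c with hC₂
  have hci : 1 ≤ 1 / c := by rw [le_div_iff₀ hc]; linarith
  have hC₂1 : 1 ≤ C₂ := by linarith
  set C₃ := 2 + b + j * (C₂ ^ 2 + 2 * b * C₂ + b ^ 2) with hC₃
  have hj0 : (0 : ℝ) ≤ j * (C₂ ^ 2 + 2 * b * C₂ + b ^ 2) := by positivity
  have hc3 : 0 ≤ (1 / c) ^ j := by positivity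
  set C := C₃ + C₂ ^ 2 + (1 / c) ^ j with hC
  have hC₂C : C₂ ≤ C := by nlinarith
  have hC₃C : C₃ + C₂ ^ 2 ≤ C := by linarith
  have hC1 : 1 ≤ C := by linarith
  refine ⟨C, hC1, fun {n k} S f R x hR hR1 hx hs hp => ?_⟩
  have h := hp.nz hx hs hc
  have hP := h.lev'.isProj
  set P := S.X.Pl f j x with hPdef
  set ρ := S.D.Rh S.X x
  set θ := S.th f j x with hθ
  set Z := S.Z f j c R x with hZ
  set Ψ := S.Ps f j c R x with hΨ
  have hJ := hp.Jl_bd hc h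
  have hcj : 0 < c ^ j := by positivity
  -- restricted shape operators
  let T : ℕ → Eu S.A →L[ℝ] Eu S.A := fun a => P.comp ((S.X.Sh f (a + 1) x).comp P)
  have hT : ∀ a v, ⟪T a v, v⟫_ℝ = ⟪S.X.Sh f (a + 1) x (P v), P v⟫_ℝ := fun a v => hP.symm _ _
  have hTs : ∀ a < j, ∀ v w, ⟪T a v, w⟫_ℝ = ⟪v, T a w⟫_ℝ := fun a ha v w => by
    simp only [T, ContinuousLinearMap.comp_apply]
    rw [hP.symm, (h.mono ha).Sh_symTan.symm, hP.symm]
  let Zo : Eu S.A →L[ℝ] Eu S.A := (b / R) • P - S.X.Sh f j x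
  have hZo : Z = S.D.Th Zo := by simp [hZ, Ctx.Z, Ctx.th, Zo, hb, hPdef]
  have hSs := h.Sh_symTan
  have hZs : ∀ v w, ⟪Zo v, w⟫_ℝ = ⟪v, Zo w⟫_ℝ := fun v w => by
    simp [Zo, inner_sub_left, inner_sub_right, inner_smul_left, inner_smul_right, hP.symm, hSs.symm]
  have hZq : ∀ v, ⟪Zo v, v⟫_ℝ = b * (‖P v‖ ^ 2 / R) - ⟪S.X.Sh f j x (P v), P v⟫_ℝ := fun v => by
    simp only [Zo, sub_apply, smul_apply, inner_sub_left, inner_smul_left, hP.inner_self,
      conj_trivial]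
    rw [hSs.right, ← hP.symm, hSs.left]
    ring
  have hγ : ∀ a < j, (1 + 1 / c) ^ (a + 1) ≤ b - 1 := fun a ha => by
    have := pow_le_pow_right₀ (one_le_gamma hc) (show a + 1 ≤ j from ha)
    rw [hb, bl]; linarith
  have hN : ∀ v, ‖P v‖ ^ 2 / R ≤ ⟪Zo v, v⟫_ℝ := fun v => by
    have hN : 0 ≤ ‖P v‖ ^ 2 / R := by positivity
    rw [hZq]
    cases j with
    | zero => simp only [Emb.Sh, zero_apply, inner_zero_left]; nlinarith
    | succ j =>
      have := (hp.shape_bd hc hR h (hP.idem v) (Nat.lt_succ_self j)).1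
      rw [hb, bl]; linarith
  have hq : ∀ a < j, ∀ v, 0 ≤ b * (‖P v‖ ^ 2 / R) - ⟪T a v, v⟫_ℝ ∧
      b * (‖P v‖ ^ 2 / R) - ⟪T a v, v⟫_ℝ ≤ (b + 1 / c) * ⟪Zo v, v⟫_ℝ := fun a ha v => by
    have hN0 : 0 ≤ ‖P v‖ ^ 2 / R := by positivity
    have h1 := (hp.shape_bd hc hR h (hP.idem v) ha).1
    have h2 := mul_le_mul_of_nonneg_right (hγ a ha) hN0
    have h3 := hN v
    have hγ0 : 0 ≤ (1 + 1 / c) ^ (a + 1) * (‖P v‖ ^ 2 / R) := by positivity
    rw [hT]
    refine ⟨by linarith, ?_⟩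
    obtain ⟨i, rfl⟩ : ∃ i, j = i + 1 := ⟨j - 1, by omega⟩
    have h4 : (1 + 1 / c) ^ (a + 1) * (‖P v‖ ^ 2 / R) - ⟪S.X.Sh f (a + 1) x (P v), P v⟫_ℝ ≤
        1 / c * ⟪Zo v, v⟫_ℝ := by
      have h5 : (1 + 1 / c) ^ (i + 1) * (‖P v‖ ^ 2 / R) - ⟪S.X.Sh f (i + 1) x (P v), P v⟫_ℝ ≤
          ⟪Zo v, v⟫_ℝ := by rw [hZq, hb, bl]; linarith
      rcases (Nat.lt_succ_iff.1 ha).eq_or_lt with rfl | hlt
      · nlinarith
      · have h6 := (hp.shape_bd hc hR h (hP.idem v) (Nat.lt_succ_self i)).2 a hlt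
        rw [one_div, ← div_eq_inv_mul, le_div_iff₀ hc]
        rw [one_div] at h5 h6
        linarith
    nlinarith
  have hPq : ∀ v, ⟪P v, v⟫_ℝ = R * (‖P v‖ ^ 2 / R) := fun v => by
    rw [hP.inner_self]; field_simp
  have hZ0 : ∀ v, 0 ≤ ⟪Zo v, v⟫_ℝ := fun v => le_trans (by positivity) (hN v)
  have Zc : S.D.Cone ρ 0 Z := hZo ▸ S.D.Th_cone ρ hZs hZ0
  have thc : S.D.Cone ρ 0 θ := S.D.Th_cone ρ hP.symm fun v => by rw [hP.inner_self]; positivity
  have dom : ∀ (U : Eu S.A →L[ℝ] Eu S.A) (e : ℝ), (∀ v w, ⟪U v, w⟫_ℝ = ⟪v, U w⟫_ℝ) →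
      (∀ v, |⟪U v, v⟫_ℝ| ≤ e * ⟪Zo v, v⟫_ℝ) → S.D.Dom ρ 0 (S.D.Th U) (e • Z) := by
    intro U e h1 h2
    rw [hZo, ← map_smul]
    exact S.D.dom_Th ρ h1 (fun v w => by simp [inner_smul_left, inner_smul_right, hZs])
      fun v => by simpa [inner_smul_left] using h2 v
  have thZ : S.D.Dom ρ 0 θ (R • Z) := dom P R hP.symm fun v => by
    rw [hPq, abs_of_nonneg (by positivity)]
    exact mul_le_mul_of_nonneg_left (hN v) hR.le
  have TZ : ∀ a < j, S.D.Dom ρ 0 (S.D.Th (T a)) (C₂ • Z) := fun a ha =>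
    dom _ _ (hTs a ha) fun v => by
      obtain ⟨k1, k2⟩ := hq a ha v
      have k3 := mul_le_mul_of_nonneg_left (hN v) (by linarith : 0 ≤ b)
      have k4 : 0 ≤ b * (‖P v‖ ^ 2 / R) := by positivity
      have k5 := mul_nonneg (by linarith : 0 ≤ b + 1 / c) (hZ0 v)
      rw [abs_le, hC₂]; constructor <;> nlinarith
  let Za : ℕ → S.D.R := fun a => (b / R) • θ - S.D.Th (T a)
  have hZa : ∀ a < j, S.D.Dom ρ 0 (Za a) (C₂ • Z) ∧ S.D.Cone ρ 0 (Za a) := fun a ha => by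
    have e : Za a = S.D.Th ((b / R) • P - T a) := by simp [Za, hθ, Ctx.th, hPdef]
    have hs : ∀ v w, ⟪((b / R) • P - T a) v, w⟫_ℝ = ⟪v, ((b / R) • P - T a) w⟫_ℝ := fun v w => by
      simp only [sub_apply, smul_apply, inner_sub_left, inner_sub_right, inner_smul_left,
        inner_smul_right, hP.symm, hTs a ha, conj_trivial]
    have hv : ∀ v, ⟪((b / R) • P - T a) v, v⟫_ℝ = b * (‖P v‖ ^ 2 / R) - ⟪T a v, v⟫_ℝ := fun v => by
      simp only [sub_apply, smul_apply, inner_sub_left, inner_smul_left, hP.inner_self,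
        conj_trivial]
      ring
    rw [e]
    refine ⟨dom _ _ hs fun v => ?_, S.D.Th_cone ρ hs fun v => by rw [hv]; exact (hq a ha v).1⟩
    rw [hv, abs_of_nonneg (hq a ha v).1]
    exact (hq a ha v).2.trans (mul_le_mul_of_nonneg_right (by linarith) (hZ0 v))
  have ZZ : S.D.Dom ρ 1 (Z ^ 2) Ψ :=
    Dom.of_le ((Zc.pow0 2).mono zero_le_one) (Cone.rho.cast (by simp [hΨ, Ctx.Ps, hZ, ρ]))
  have rΨ : S.D.Dom ρ 1 ρ Ψ :=
    Dom.of_le Cone.rho (((Zc.pow0 2).mono zero_le_one).cast (by simp [hΨ, Ctx.Ps, hZ, ρ]))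
  have Psc := ZZ.cone
  have sq : ∀ {F G : S.D.R} {e e' : ℝ}, 0 ≤ e → 0 ≤ e' → S.D.Dom ρ 0 F (e • Z) →
      S.D.Dom ρ 0 G (e' • Z) → S.D.Dom ρ 1 (F * G) ((e * e') • Ψ) := fun he he' h1 h2 =>
    ((h1.mul0 h2).mono zero_le_one).trans ((ZZ.smul' (mul_nonneg he he')).cast
      (by rw [smul_mul_smul_comm, sq]) rfl)
  have thZ1 : S.D.Dom ρ 0 θ ((1 : ℝ) • Z) := thZ.up Zc hR1
  -- the curvature form of the level
  let Ω := ρ - θ * θ + ∑ a ∈ Finset.range j, S.D.Th (T a) * S.D.Th (T a)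
  have hΩ : S.D.Eqv (n - j) P (S.D.Om (S.X.Pl f j) x) Ω := by
    refine (Ctx.gauss h).trans (Eqv.add ?_ (Eqv.sum _ fun a _ => ?_))
    · have e1 : S.D.Eqv (n - j) P (S.D.Th (S.X.P x)) θ := by
        refine (S.D.eqv_Th hP _).symm.trans (Eqv.of_eq ?_)
        rw [hθ, Ctx.th]
        congr 1
        ext1 v
        simp only [ContinuousLinearMap.comp_apply]
        rw [hPdef, h.lev'.sub, hP.idem]
      have := (Eqv.refl ρ).sub (e1.mul e1)
      refine Eqv.trans (Eqv.of_eq ?_) this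
      simp only [ρ, Rh]; ring
    · rw [pow_two]
      exact (S.D.eqv_Th hP _).symm.mul (S.D.eqv_Th hP _).symm
  have hsum : ∀ (g : ℕ → S.D.R) (e : ℝ) (G : S.D.R) (p : ℕ),
      (∀ a < j, S.D.Dom ρ p (g a) (e • G)) →
      S.D.Dom ρ p (∑ a ∈ Finset.range j, g a) ((j * e) • G) := fun g e G p hg =>
    (Dom.sum _ fun a ha => hg a (Finset.mem_range.1 ha)).cast rfl (by
      rw [Finset.sum_const, Finset.card_range, ← Nat.cast_smul_eq_nsmul ℝ, smul_smul])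
  have hj1 : (j : ℝ) * (C₂ * C₂) ≤ j * (C₂ ^ 2 + 2 * b * C₂ + b ^ 2) := by
    gcongr; nlinarith
  have ΩΨ : S.D.Dom ρ 1 Ω (C₃ • Ψ) := by
    have := (rΨ.sub (sq zero_le_one zero_le_one thZ1 thZ1)).add
      (hsum _ _ _ _ fun a ha => sq (by linarith) (by linarith) (TZ a ha) (TZ a ha))
    refine Dom.up (c := 2 + j * (C₂ * C₂)) (this.cast rfl (by module)) Psc (by linarith)
  have ShZ : S.D.Dom ρ 0 (S.D.Th (S.X.Sh f j x)) (C₂ • Z) := by
    cases j with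
    | zero => simpa [Emb.Sh] using Dom.zero (Cone.smul C₂ (by linarith) Zc)
    | succ j =>
      refine (TZ j (Nat.lt_succ_self j)).cast ?_ rfl
      congr 1
      ext1 v
      simp only [T, ContinuousLinearMap.comp_apply]
      rw [hSs.right, hSs.left]
  have fin : ∀ {p : ℕ} {F G : S.D.R} {e : ℝ}, p ≤ k → S.D.Dom ρ p F (e • G) →
      |S.Bl f j x F| ≤ e * S.Bl f j x G := fun hp hd => by
    simpa using hd.abs_le (Ctx.pos_level h) hp
  refine ⟨h, hJ.2, ?_, hcj.trans_le hJ.1, by linarith, Ctx.pos_level h, thc, Zc, Psc, thZ,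
    ShZ.up Zc hC₂C, ZZ, fun p hp W W' hW => ?_, fun i hi q p hqp W W' hW => ?_,
    fun p hp W hW => ?_⟩
  · have e : (1 / c) ^ j * c ^ j = 1 := by rw [← mul_pow]; simp [hc.ne']
    have : (1 / c) ^ j ≤ C := by nlinarith
    nlinarith [mul_le_mul this hJ.1 hcj.le (by linarith)]
  · rw [show S.Bl f j x (W' * S.D.Om (S.X.Pl f j) x ^ p) = S.Bl f j x (W' * Ω ^ p) from
      ((Eqv.refl W').mul (hΩ.pow p)).BP]
    exact fin hp ((hW.mul0 ((ΩΨ.up Psc (show C₃ ≤ C by nlinarith)).pow1 p)).cast rfl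
      (by rw [smul_pow, mul_smul_comm]))
  · subst hi
    have e1 : S.D.Eqv (n - (i + 1)) P (S.D.Om (S.X.Pl f i) x)
        (Ω - S.D.Th (S.X.Sh f (i + 1) x) * S.D.Th (S.X.Sh f (i + 1) x)) := by
      have := (S.D.eqv_Om h.lev_succ h.unitF).symm.trans hΩ
      refine Eqv.trans (Eqv.of_eq ?_) (this.sub (Eqv.refl _))
      simp only [Emb.Sh, Emb.Pl_succ]; ring
    have e2 := sq (by linarith) (by linarith) ShZ ShZ
    have e3 : S.D.Dom ρ 1 (Ω - S.D.Th (S.X.Sh f (i + 1) x) * S.D.Th (S.X.Sh f (i + 1) x))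
        (C • Ψ) :=
      Dom.up (c := C₃ + C₂ * C₂) ((ΩΨ.sub e2).cast rfl (by module)) Psc (by linarith)
    rw [show S.Bl f (i + 1) x (W' * S.D.Th (S.X.Sh f (i + 1) x) ^ (2 * q) *
      S.D.Om (S.X.Pl f i) x ^ p) = S.Bl f (i + 1) x (W' * S.D.Th (S.X.Sh f (i + 1) x) ^ (2 * q) *
        (Ω - S.D.Th (S.X.Sh f (i + 1) x) * S.D.Th (S.X.Sh f (i + 1) x)) ^ p) from
      ((Eqv.refl _).mul (e1.pow p)).BP]
    refine fin hqp (((hW.mul0 ((e2.up Psc (show C₂ * C₂ ≤ C by nlinarith)).pow1 q)).mul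
      (e3.pow1 p)).cast (by ring) ?_)
    rw [smul_pow, smul_pow, mul_smul_comm (C ^ q), smul_mul_smul_comm, pow_add, pow_add, mul_assoc W]
  · let Ψ' := ρ + ∑ a ∈ Finset.range j, Za a * Za a + (b / R) • (θ * Z)
    let Y := θ + ∑ a ∈ Finset.range j, ((2 * (b / R)) • Za a - ((b / R) * (b / R)) • θ) +
      (b / R) • Z
    have hbR : 0 ≤ b / R := by positivity
    have e1 : Ψ' - Ω = θ * Y := by
      have : ∀ a, S.D.Th (T a) = (b / R) • θ - Za a := fun a => by simp [Za]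
      simp only [Ψ', Ω, Y, this, mul_add, Finset.mul_sum, Algebra.smul_def, map_mul, map_ofNat]
      have : ∀ a, θ * (2 * algebraMap ℝ S.D.R (b / R) * Za a -
          algebraMap ℝ S.D.R (b / R) * algebraMap ℝ S.D.R (b / R) * θ) = Za a * Za a -
          (algebraMap ℝ S.D.R (b / R) * θ - Za a) * (algebraMap ℝ S.D.R (b / R) * θ - Za a) :=
        fun a => by ring
      simp only [this, Finset.sum_sub_distrib]
      ring
    have hY : S.D.Dom ρ 0 Y ((C / R) • Z) := by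
      have k1 : ∀ a < j, S.D.Dom ρ 0 ((2 * (b / R)) • Za a - ((b / R) * (b / R)) • θ)
          (((2 * b * C₂ + b ^ 2) / R) • Z) := fun a ha =>
        (((hZa a ha).1.smul' (c := 2 * (b / R)) (by positivity)).sub
          (thZ.smul' (c := (b / R) * (b / R)) (by positivity))).cast rfl (by
            rw [smul_smul, smul_smul, ← add_smul]; congr 1; field_simp)
      have k2 : R ≤ 1 / R := by rw [le_div_iff₀ hR]; nlinarith
      have := ((thZ.up Zc k2).add (hsum _ _ _ _ k1)).add ((Dom.refl Zc).smul' hbR)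
      refine Dom.up (c := (1 + j * (2 * b * C₂ + b ^ 2) + b) / R) (this.cast rfl ?_) Zc ?_
      · rw [← add_smul, ← add_smul]; congr 1; ring
      · have : (j : ℝ) * (2 * b * C₂ + b ^ 2) ≤ j * (C₂ ^ 2 + 2 * b * C₂ + b ^ 2) := by
          gcongr; nlinarith
        gcongr
        nlinarith
    have hΨ' : S.D.Dom ρ 1 Ψ' (C • Ψ) := by
      have k1 := (sq hR.le zero_le_one thZ ((Dom.refl Zc).cast rfl (one_smul ℝ Z).symm)).smul' hbR
      have := (rΨ.add (hsum _ _ _ _ fun a ha =>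
        sq (by linarith) (by linarith) (hZa a ha).1 (hZa a ha).1)).add k1
      refine Dom.up (c := 1 + j * (C₂ * C₂) + b) (this.cast rfl ?_) Psc (by nlinarith)
      rw [smul_smul, show b / R * (R * 1) = b by field_simp]
      module
    have hle : S.D.Dom ρ 1 Ψ Ψ' := by
      refine Dom.of_le Psc ?_
      have k1 : S.D.Cone ρ 0 ((b / R) • (θ * Z)) := Cone.smul _ hbR (thc.mul0 Zc)
      refine Cone.mono zero_le_one ?_
      cases j with
      | zero =>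
        refine Cone.zero.cast ?_
        have : Z = (b / R) • θ := by simp [hZ, Ctx.Z, Emb.Sh, hθ, hb]
        simp only [Ψ', hΨ, Ctx.Ps, ← hZ, Finset.range_zero, Finset.sum_empty]
        rw [← smul_mul_assoc, ← this]
        simp only [ρ]; ring
      | succ i =>
        have e : Za i = Z := by
          simp only [Za, hZ, Ctx.Z, hθ, hb]
          congr 2
          ext1 v
          simp only [T, ContinuousLinearMap.comp_apply]
          rw [hSs.right, hSs.left]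
        refine ((Cone.sum (f := fun a => Za a * Za a) (Finset.range i) fun a ha => ?_).add k1).cast ?_
        · have := (hZa a (by have := Finset.mem_range.1 ha; omega)).2
          exact this.mul0 this
        · simp only [Ψ', hΨ, Ctx.Ps, ← hZ, Finset.sum_range_succ, e, ρ]; ring
    have k1 := ((Dom.refl hW).mul0 (hle.pow1 (p + 1))).le (Ctx.pos_level h) hp
    have k2 : W * Ψ' ^ (p + 1) = W * Ω ^ (p + 1) + W * θ * Y *
        ∑ i ∈ Finset.range (p + 1), Ψ' ^ i * Ω ^ (p - i) := by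
      have := (Commute.all Ψ' Ω).mul_geom_sum₂ (p + 1)
      simp only [Nat.add_one_sub_one] at this
      rw [e1] at this
      linear_combination (-W) * this
    have k3 : S.D.Dom ρ p (∑ i ∈ Finset.range (p + 1), Ψ' ^ i * Ω ^ (p - i))
        (((p + 1) * C ^ p) • Ψ ^ p) := by
      refine (Dom.sum (g := fun _ => C ^ p • Ψ ^ p) _ fun i hi => ?_).cast rfl (by
        rw [Finset.sum_const, Finset.card_range, ← Nat.cast_smul_eq_nsmul ℝ, smul_smul]
        push_cast; rfl)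
      have hi := Nat.lt_succ_iff.1 (Finset.mem_range.1 hi)
      have := (hΨ'.pow1 i).mul ((ΩΨ.up Psc (show C₃ ≤ C by nlinarith)).pow1 (p - i))
      rw [← pow_add, Nat.add_sub_cancel' hi, smul_pow] at this
      exact this
    have k4 := fin (e := (p + 1) * C ^ (p + 1) / R) (G := W * θ * Z * Ψ ^ p) (by omega : p ≤ k)
      ((((Dom.refl (hW.mul0 thc)).mul0 hY).mul0 k3).cast rfl (by
        rw [mul_smul_comm (C / R), smul_mul_smul_comm]; congr 1; ring))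
    rw [show S.Bl f j x (W * S.D.Om (S.X.Pl f j) x ^ (p + 1)) = S.Bl f j x (W * Ω ^ (p + 1)) from
      ((Eqv.refl W).mul (hΩ.pow _)).BP]
    rw [k2, map_add] at k1
    linarith [le_abs_self (S.Bl f j x (W * θ * Y *
      ∑ i ∈ Finset.range (p + 1), Ψ' ^ i * Ω ^ (p - i)))]

end Pool.Agent.AlEmb
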