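import Pool.Agent.Lib.MP_3fa020_gt.EDom

namespace Pool.Agent.AlEmb

open Set Filter Topology
open scoped InnerProductSpace

variable {A : ℕ}

namespace EPosAux

lemma det4 (M : Matrix (Fin 4) (Fin 4) ℝ) : M.det =
    M 0 0 * M 1 1 * M 2 2 * M 3 3 - M 0 0 * M 1 1 * M 2 3 * M 3 2 - M 0 0 * M 1 2 * M 2 1 * M 3 3
    + M 0 0 * M 1 2 * M 2 3 * M 3 1 + M 0 0 * M 1 3 * M 2 1 * M 3 2 - M 0 0 * M 1 3 * M 2 2 * M 3 1
    - M 0 1 * M 1 0 * M 2 2 * M 3 3 + M 0 1 * M 1 0 * M 2 3 * M 3 2 + M 0 1 * M 1 2 * M 2 0 * M 3 3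
    - M 0 1 * M 1 2 * M 2 3 * M 3 0 - M 0 1 * M 1 3 * M 2 0 * M 3 2 + M 0 1 * M 1 3 * M 2 2 * M 3 0
    + M 0 2 * M 1 0 * M 2 1 * M 3 3 - M 0 2 * M 1 0 * M 2 3 * M 3 1 - M 0 2 * M 1 1 * M 2 0 * M 3 3
    + M 0 2 * M 1 1 * M 2 3 * M 3 0 + M 0 2 * M 1 3 * M 2 0 * M 3 1 - M 0 2 * M 1 3 * M 2 1 * M 3 0
    - M 0 3 * M 1 0 * M 2 1 * M 3 2 + M 0 3 * M 1 0 * M 2 2 * M 3 1 + M 0 3 * M 1 1 * M 2 0 * M 3 2
    - M 0 3 * M 1 1 * M 2 2 * M 3 0 - M 0 3 * M 1 2 * M 2 0 * M 3 1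
    + M 0 3 * M 1 2 * M 2 1 * M 3 0 := by
  rw [Matrix.det_succ_row_zero]
  simp [Fin.sum_univ_four, Matrix.det_fin_three, Fin.succAbove]
  ring

lemma sq4 {R : Type*} [CommRing R] (u : Fin 4 → R) (h : ∀ i, u i * u i = 0) :
    (∑ i, u i) ^ 2 =
      2 * (u 0 * u 1 + u 0 * u 2 + u 0 * u 3 + u 1 * u 2 + u 1 * u 3 + u 2 * u 3) := by
  rw [Fin.sum_univ_four]
  linear_combination h 0 + h 1 + h 2 + h 3

lemma sq44 {R : Type*} [CommRing R] (u w : Fin 4 → R) (hu : ∀ i, u i * u i = 0)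
    (hw : ∀ i, w i * w i = 0) (h : ∀ i, u i * w i = 0) :
    (∑ i, u i) ^ 2 * (∑ i, w i) ^ 2 =
      (u 0 * u 1 * w 2 * w 3 + u 0 * w 1 * u 2 * w 3 + u 0 * w 1 * w 2 * u 3
        + w 0 * u 1 * u 2 * w 3 + w 0 * u 1 * w 2 * u 3 + w 0 * w 1 * u 2 * u 3) * 4 := by
  rw [sq4 u hu, sq4 w hw]
  linear_combination 4 * ((u 1 * w 1 + u 1 * w 2 + u 1 * w 3 + u 2 * w 1 + u 2 * w 2 + u 2 * w 3
    + u 3 * w 1 + u 3 * w 2 + u 3 * w 3) * h 0 + (u 0 * w 2 + u 0 * w 3 + u 2 * w 0 + u 2 * w 2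
    + u 2 * w 3 + u 3 * w 0 + u 3 * w 2 + u 3 * w 3) * h 1 + (u 0 * w 1 + u 0 * w 3 + u 1 * w 0
    + u 1 * w 3 + u 3 * w 0 + u 3 * w 1 + u 3 * w 3) * h 2 + (u 0 * w 1 + u 0 * w 2 + u 1 * w 0
    + u 1 * w 2 + u 2 * w 0 + u 2 * w 1) * h 3)

lemma psd2 {a b c a' b' c' : ℝ} (h : ∀ x y : ℝ, 0 ≤ x ^ 2 * a + 2 * x * y * b + y ^ 2 * c)
    (h' : ∀ x y : ℝ, 0 ≤ x ^ 2 * a' + 2 * x * y * b' + y ^ 2 * c') :
    0 ≤ a * c' + c * a' - 2 * b * b' := by
  have d1 : discrim a (2 * b) c ≤ 0 :=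
    discrim_le_zero fun x => by have := h x 1; nlinarith
  have d2 : discrim a' (2 * b') c' ≤ 0 :=
    discrim_le_zero fun x => by have := h' x 1; nlinarith
  unfold discrim at d1 d2
  have a0 : 0 ≤ a := by simpa using h 1 0
  have c0 : 0 ≤ c := by simpa using h 0 1
  have a1 : 0 ≤ a' := by simpa using h' 1 0
  have c1 : 0 ≤ c' := by simpa using h' 0 1
  have e1 : b ^ 2 * b' ^ 2 ≤ (a * c) * (a' * c') :=
    mul_le_mul (by nlinarith) (by nlinarith) (by positivity) (by positivity)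
  have e2 : (2 * b * b') ^ 2 ≤ (a * c' + c * a') ^ 2 := by nlinarith [sq_nonneg (a * c' - c * a')]
  have := (abs_le_of_sq_le_sq' e2 (by positivity)).2
  linarith

lemma first_order {β γ : ℝ} (h : ∀ c s : ℝ, c ^ 2 + s ^ 2 = 1 → 2 * c * s * β + s ^ 2 * γ ≤ 0) :
    β = 0 := by
  have h1 : IsLocalMax (fun t => 2 * Real.cos t * Real.sin t * β + Real.sin t ^ 2 * γ) 0 :=
    Filter.Eventually.of_forall fun t => by simpa using h _ _ (Real.cos_sq_add_sin_sq t)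
  have h2 := ((((Real.hasDerivAt_cos 0).const_mul 2).mul (Real.hasDerivAt_sin 0)).mul_const β).add
    (((Real.hasDerivAt_sin 0).pow 2).mul_const γ)
  have := h1.hasDerivAt_eq_zero h2
  simpa using this

lemma exists_rot (a b : ℝ) : ∃ c s : ℝ, c ^ 2 + s ^ 2 = 1 ∧ (c ^ 2 - s ^ 2) * a + c * s * b = 0 := by
  have h1 : Continuous fun t => (Real.cos t ^ 2 - Real.sin t ^ 2) * a + Real.cos t * Real.sin t * b := by
    fun_prop
  have h2 := intermediate_value_uIcc (a := 0) (b := Real.pi / 2) h1.continuousOn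
  obtain ⟨t, -, ht⟩ := h2 (show (0 : ℝ) ∈ _ by
    simp only [Real.cos_zero, Real.sin_zero, Real.cos_pi_div_two, Real.sin_pi_div_two, mem_uIcc]
    rcases le_total 0 a with h | h
    · right; constructor <;> linarith
    · left; constructor <;> linarith)
  exact ⟨_, _, Real.cos_sq_add_sin_sq t, ht⟩

variable {ι : Type} [Fintype ι]

/-- curvature tensor of a family of operators -/
noncomputable def Rm (L : ι → Eu A →L[ℝ] Eu A) (a b c d : Eu A) : ℝ :=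
  ∑ i, (⟪L i a, c⟫_ℝ * ⟪L i b, d⟫_ℝ - ⟪L i a, d⟫_ℝ * ⟪L i b, c⟫_ℝ)

variable {L : ι → Eu A →L[ℝ] Eu A}

lemma Rm_rot12 (x y c d : Eu A) (p q r s : ℝ) :
    Rm L (p • x + q • y) (r • x + s • y) c d = (p * s - q * r) * Rm L x y c d := by
  simp only [Rm, map_add, map_smul, inner_add_left, real_inner_smul_left, Finset.mul_sum]
  exact Finset.sum_congr rfl fun i _ => by ring

lemma Rm_rot34 (x y a b : Eu A) (p q r s : ℝ) :
    Rm L a b (p • x + q • y) (r • x + s • y) = (p * s - q * r) * Rm L a b x y := by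
  simp only [Rm, inner_add_right, real_inner_smul_right, Finset.mul_sum]
  exact Finset.sum_congr rfl fun i _ => by ring

lemma Rm_lin1 (x y b c d : Eu A) (p q : ℝ) :
    Rm L (p • x + q • y) b c d = p * Rm L x b c d + q * Rm L y b c d := by
  simp only [Rm, map_add, map_smul, inner_add_left, real_inner_smul_left, Finset.mul_sum,
    ← Finset.sum_add_distrib]
  exact Finset.sum_congr rfl fun i _ => by ring

lemma Rm_lin2 (x y a c d : Eu A) (p q : ℝ) :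
    Rm L a (p • x + q • y) c d = p * Rm L a x c d + q * Rm L a y c d := by
  simp only [Rm, map_add, map_smul, inner_add_left, real_inner_smul_left, Finset.mul_sum,
    ← Finset.sum_add_distrib]
  exact Finset.sum_congr rfl fun i _ => by ring

lemma Rm_lin3 (x y a b d : Eu A) (p q : ℝ) :
    Rm L a b (p • x + q • y) d = p * Rm L a b x d + q * Rm L a b y d := by
  simp only [Rm, inner_add_right, real_inner_smul_right, Finset.mul_sum, ← Finset.sum_add_distrib]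
  exact Finset.sum_congr rfl fun i _ => by ring

lemma Rm_lin4 (x y a b c : Eu A) (p q : ℝ) :
    Rm L a b c (p • x + q • y) = p * Rm L a b c x + q * Rm L a b c y := by
  simp only [Rm, inner_add_right, real_inner_smul_right, Finset.mul_sum, ← Finset.sum_add_distrib]
  exact Finset.sum_congr rfl fun i _ => by ring

lemma Rm_anti (a b c d : Eu A) : Rm L a b c d = -Rm L a b d c := by
  simp only [Rm, ← Finset.sum_neg_distrib]
  exact Finset.sum_congr rfl fun i _ => by ring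

lemma Rm_sym (hL : ∀ i v w, ⟪L i v, w⟫_ℝ = ⟪v, L i w⟫_ℝ) (a b c d : Eu A) :
    Rm L a b c d = Rm L c d a b := by
  refine Finset.sum_congr rfl fun i _ => ?_
  rw [hL i c a, hL i d b, hL i c b, hL i d a, real_inner_comm (L i a) c, real_inner_comm (L i b) d,
    real_inner_comm (L i b) c, real_inner_comm (L i a) d]
  ring

lemma unit_comb {x z : Eu A} (hx : ‖x‖ = 1) (hz : ‖z‖ = 1) (hxz : ⟪x, z⟫_ℝ = 0) {c s : ℝ}
    (h : c ^ 2 + s ^ 2 = 1) : ‖c • x + s • z‖ = 1 := by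
  have : ‖c • x + s • z‖ ^ 2 = 1 := by
    rw [norm_add_sq_real, norm_smul, norm_smul, hx, hz, real_inner_smul_left, real_inner_smul_right,
      hxz]
    simpa using h
  nlinarith [norm_nonneg (c • x + s • z)]

/-- the adapted frame -/
lemma exists_frame (hL : ∀ i v w, ⟪L i v, w⟫_ℝ = ⟪v, L i w⟫_ℝ) {P : Eu A →L[ℝ] Eu A}
    (hP : IsProj 4 P) : ∃ b : Fin 4 → Eu A, (∀ i, P (b i) = b i) ∧
      (∀ v, P v = ∑ i, ⟪b i, v⟫_ℝ • b i) ∧
      Rm L (b 0) (b 1) (b 0) (b 2) = 0 ∧ Rm L (b 0) (b 1) (b 0) (b 3) = 0 ∧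
      Rm L (b 0) (b 1) (b 1) (b 2) = 0 ∧ Rm L (b 0) (b 1) (b 1) (b 3) = 0 ∧
      Rm L (b 0) (b 2) (b 1) (b 2) + Rm L (b 0) (b 3) (b 1) (b 3) = 0 := by
  let K : Set (Eu A × Eu A) :=
    {z | P z.1 = z.1 ∧ P z.2 = z.2 ∧ ‖z.1‖ = 1 ∧ ‖z.2‖ = 1 ∧ ⟪z.1, z.2⟫_ℝ = 0}
  have hK : IsCompact K := by
    apply Metric.isCompact_of_isClosed_isBounded
    · refine (isClosed_eq (by fun_prop) (by fun_prop)).inter
        ((isClosed_eq (by fun_prop) (by fun_prop)).inter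
        ((isClosed_eq (by fun_prop) (by fun_prop)).inter
        ((isClosed_eq (by fun_prop) (by fun_prop)).inter (isClosed_eq (by fun_prop) (by fun_prop)))))
    · refine (Metric.isBounded_closedBall (x := 0) (r := 1)).subset fun z hz => ?_
      simp [Prod.norm_def, hz.2.2.1, hz.2.2.2.1]
  obtain ⟨b0, h1, h2, -⟩ := hP.frame
  obtain ⟨⟨x, y⟩, ⟨hx, hy, nx, ny, hxy⟩, hmax⟩ := hK.exists_isMaxOn
    ⟨(b0 0, b0 1), h2 0, h2 1, h1.1 0, h1.1 1, h1.2 (by decide)⟩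
    (f := fun z => Rm L z.1 z.2 z.1 z.2) (by unfold Rm; fun_prop)
  simp only at hx hy nx ny hxy
  have hyx : ⟪y, x⟫_ℝ = 0 := by rw [real_inner_comm, hxy]
  have hP3 : IsProj 3 (P - r1 x) := IsProj.step hP nx hx
  have hP2 : IsProj 2 (P - r1 x - r1 y) := IsProj.step hP3 ny (by simp [r1_apply, hy, hxy])
  obtain ⟨z, z1, z2, z3⟩ := hP2.frame
  have p2x : (P - r1 x - r1 y) x = 0 := by simp [r1_apply, hx, hyx, nx]
  have p2y : (P - r1 x - r1 y) y = 0 := by simp [r1_apply, hy, hxy, ny]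
  have zx : ∀ i, ⟪x, z i⟫_ℝ = 0 := fun i => by rw [← z2 i, ← hP2.symm, p2x, inner_zero_left]
  have zy : ∀ i, ⟪y, z i⟫_ℝ = 0 := fun i => by rw [← z2 i, ← hP2.symm, p2y, inner_zero_left]
  have zP : ∀ i, P (z i) = z i := fun i => by simpa [r1_apply, zx, zy] using z2 i
  have v1 : ∀ i, Rm L x y x (z i) = 0 := by
    intro i
    apply first_order (γ := Rm L x (z i) x (z i) - Rm L x y x y)
    intro c s hcs
    have := hmax (a := (x, c • y + s • z i)) ⟨hx, by simp [hy, zP], nx,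
      unit_comb ny (z1.1 i) (zy i) hcs, by simp [inner_add_right, inner_smul_right, hxy, zx]⟩
    simp only [mem_ofPred_eq, Rm_lin2, Rm_lin4, Rm_sym hL x (z i) x y] at this
    linear_combination this - Rm L x y x y * hcs
  have v2 : ∀ i, Rm L x y y (z i) = 0 := by
    intro i
    rw [Rm_anti, neg_eq_zero]
    apply first_order (γ := Rm L (z i) y (z i) y - Rm L x y x y)
    intro c s hcs
    have := hmax (a := (c • x + s • z i, y)) ⟨by simp [hx, zP], hy,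
      unit_comb nx (z1.1 i) (zx i) hcs, ny, by
        simp [inner_add_left, inner_smul_left, hxy, real_inner_comm y (z i), zy]⟩
    simp only [mem_ofPred_eq, Rm_lin1, Rm_lin3, Rm_sym hL (z i) y x y] at this
    linear_combination this - Rm L x y x y * hcs
  obtain ⟨c, s, hcs, hr⟩ := exists_rot (Rm L x (z 0) y (z 0) + Rm L x (z 1) y (z 1))
    (Rm L y (z 0) y (z 0) + Rm L y (z 1) y (z 1) - (Rm L x (z 0) x (z 0) + Rm L x (z 1) x (z 1)))
  refine ⟨![c • x + s • y, (-s) • x + c • y, z 0, z 1], fun i => ?_, fun v => ?_, ?_, ?_, ?_, ?_, ?_⟩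
  · fin_cases i <;> simp [hx, hy, zP]
  · have := z3 v
    simp only [Fin.sum_univ_two, sub_apply, r1_apply] at this
    simp only [Fin.sum_univ_four, Matrix.cons_val, inner_add_left, real_inner_smul_left]
    rw [add_assoc, ← this]
    have e : (c * ⟪x, v⟫_ℝ + s * ⟪y, v⟫_ℝ) • (c • x + s • y) +
        (-s * ⟪x, v⟫_ℝ + c * ⟪y, v⟫_ℝ) • ((-s) • x + c • y) =
        ((c ^ 2 + s ^ 2) * ⟪x, v⟫_ℝ) • x + ((c ^ 2 + s ^ 2) * ⟪y, v⟫_ℝ) • y := by module
    rw [e, hcs]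
    module
  · simp only [Matrix.cons_val, Rm_rot12, Rm_lin3, v1, v2]; ring
  · simp only [Matrix.cons_val, Rm_rot12, Rm_lin3, v1, v2]; ring
  · simp only [Matrix.cons_val, Rm_rot12, Rm_lin3, v1, v2]; ring
  · simp only [Matrix.cons_val, Rm_rot12, Rm_lin3, v1, v2]; ring
  · simp only [Matrix.cons_val, Rm_lin1, Rm_lin3, Rm_sym hL y (z 0) x (z 0),
      Rm_sym hL y (z 1) x (z 1)]
    linear_combination hr

variable (D : DFA A) {d : ℕ} {P : Eu A →L[ℝ] Eu A}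

lemma eqv_frame (h : IsProj d P) {b : Fin d → Eu A} (hb : ∀ v, P v = ∑ i, ⟪b i, v⟫_ℝ • b i)
    (T : Eu A →L[ℝ] Eu A) : D.Eqv d P (D.Th T) (∑ i, D.t (b i) (T (b i))) := by
  rw [← D.Th_frame b hb T, ← D.sum_t_adj P P T h.symm, D.Th_apply]
  exact DFA.Eqv.sum _ fun a _ => (D.t_nu_left h _ _).symm

lemma BP2 (h : IsProj d P) (x y x' y' : Eu A) : D.BP d P (D.t x y * D.t x' y') =
    if 2 = d then ⟪P x, P y⟫_ℝ * ⟪P x', P y'⟫_ℝ - ⟪P x, P y'⟫_ℝ * ⟪P x', P y⟫_ℝ else 0 := by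
  simpa [Fin.prod_univ_two, Matrix.det_fin_two] using D.BP_prod h ![x, x'] ![y, y']

lemma BP4 (h : IsProj d P) (x y : Fin 4 → Eu A) :
    D.BP d P (D.t (x 0) (y 0) * D.t (x 1) (y 1) * D.t (x 2) (y 2) * D.t (x 3) (y 3)) =
    if 4 = d then (Matrix.of fun i j => ⟪P (x i), P (y j)⟫_ℝ).det else 0 := by
  simpa [Fin.prod_univ_four] using D.BP_prod h x y

lemma pos_one (hL : ∀ i v w, ⟪L i v, w⟫_ℝ = ⟪v, L i w⟫_ℝ) (hR : ∀ v w, 0 ≤ Rm L v w v w)
    (h : IsProj d P) : 0 ≤ D.BP d P (∑ i, D.Th (L i) ^ 2) := by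
  obtain ⟨b, -, h2, hb⟩ := h.frame
  rw [(DFA.Eqv.sum Finset.univ fun i _ => (eqv_frame D h hb (L i)).pow 2).BP]
  simp only [sq, Finset.sum_mul_sum, map_sum, BP2 D h]
  by_cases hd : 2 = d
  · subst hd
    have e : ∀ i a a', ⟪P (b a), P (L i (b a'))⟫_ℝ = ⟪L i (b a), b a'⟫_ℝ := fun i a a' => by
      rw [← h.symm, h.idem, h2, hL]
    have := hR (b 0) (b 1)
    simp only [if_true, e, Fin.sum_univ_two]
    unfold Rm at this
    refine le_trans (mul_nonneg zero_le_two this) (le_of_eq ?_)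
    rw [Finset.mul_sum]
    exact Finset.sum_congr rfl fun i _ => by ring
  · simp [hd]

lemma pos_two (hL : ∀ i v w, ⟪L i v, w⟫_ℝ = ⟪v, L i w⟫_ℝ) (hR : ∀ v w, 0 ≤ Rm L v w v w)
    (h : IsProj d P) : 0 ≤ D.BP d P ((∑ i, D.Th (L i) ^ 2) ^ 2) := by
  by_cases hd : 4 = d
  swap
  · obtain ⟨b, -, -, hb⟩ := h.frame
    rw [((DFA.Eqv.sum Finset.univ fun i _ => (eqv_frame D h hb (L i)).pow 2).pow 2).BP]
    simp only [sq, Finset.sum_mul_sum, map_sum]
    refine Finset.sum_nonneg fun i _ => Finset.sum_nonneg fun j _ => Finset.sum_nonneg fun a _ =>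
      Finset.sum_nonneg fun a' _ => Finset.sum_nonneg fun c _ => Finset.sum_nonneg fun c' _ => ?_
    have := BP4 D h ![b a, b c, b a', b c'] ![L i (b a), L i (b c), L j (b a'), L j (b c')]
    simp only [Matrix.cons_val, if_neg hd] at this
    rw [← mul_assoc, this]
  subst hd
  obtain ⟨b, h2, hb, k1, k2, k3, k4, k5⟩ := exists_frame hL h
  rw [((DFA.Eqv.sum Finset.univ fun i _ => (eqv_frame D h hb (L i)).pow 2).pow 2).BP, sq,
    Finset.sum_mul_sum]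
  have e : ∀ i a a', ⟪P (b a), P (L i (b a'))⟫_ℝ = ⟪L i (b a), b a'⟫_ℝ := fun i a a' => by
    rw [← h.symm, h.idem, h2, hL]
  have key : ∀ f : Fin 4 → ι, D.BP 4 P (D.t (b 0) (L (f 0) (b 0)) * D.t (b 1) (L (f 1) (b 1)) *
      D.t (b 2) (L (f 2) (b 2)) * D.t (b 3) (L (f 3) (b 3))) =
      (Matrix.of fun a a' => ⟪L (f a') (b a'), b a⟫_ℝ).det := by
    intro f
    rw [BP4 D h b (fun a => L (f a) (b a)), if_pos rfl]
    congr 1
    ext a a'
    simp only [Matrix.of_apply]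
    rw [e, hL, real_inner_comm]
  let r : Fin 4 → Fin 4 → Fin 4 → Fin 4 → ℝ := fun i j k l => Rm L (b i) (b j) (b k) (b l)
  have main : D.BP 4 P (∑ i, ∑ j, (∑ a, D.t (b a) (L i (b a))) ^ 2 *
      (∑ a, D.t (b a) (L j (b a))) ^ 2) = 4 * (
      r 0 1 0 1 * r 2 3 2 3 - r 0 1 0 2 * r 2 3 1 3 + r 0 1 0 3 * r 2 3 1 2 + r 0 1 1 2 * r 2 3 0 3
      - r 0 1 1 3 * r 2 3 0 2 + r 0 1 2 3 * r 2 3 0 1 - r 0 2 0 1 * r 1 3 2 3 + r 0 2 0 2 * r 1 3 1 3
      - r 0 2 0 3 * r 1 3 1 2 - r 0 2 1 2 * r 1 3 0 3 + r 0 2 1 3 * r 1 3 0 2 - r 0 2 2 3 * r 1 3 0 1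
      + r 0 3 0 1 * r 1 2 2 3 - r 0 3 0 2 * r 1 2 1 3 + r 0 3 0 3 * r 1 2 1 2 + r 0 3 1 2 * r 1 2 0 3
      - r 0 3 1 3 * r 1 2 0 2 + r 0 3 2 3 * r 1 2 0 1 + r 1 2 0 1 * r 0 3 2 3 - r 1 2 0 2 * r 0 3 1 3
      + r 1 2 0 3 * r 0 3 1 2 + r 1 2 1 2 * r 0 3 0 3 - r 1 2 1 3 * r 0 3 0 2 + r 1 2 2 3 * r 0 3 0 1
      - r 1 3 0 1 * r 0 2 2 3 + r 1 3 0 2 * r 0 2 1 3 - r 1 3 0 3 * r 0 2 1 2 - r 1 3 1 2 * r 0 2 0 3
      + r 1 3 1 3 * r 0 2 0 2 - r 1 3 2 3 * r 0 2 0 1 + r 2 3 0 1 * r 0 1 2 3 - r 2 3 0 2 * r 0 1 1 3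
      + r 2 3 0 3 * r 0 1 1 2 + r 2 3 1 2 * r 0 1 0 3 - r 2 3 1 3 * r 0 1 0 2
      + r 2 3 2 3 * r 0 1 0 1) := by
    simp only [r, Rm, Finset.sum_mul_sum, ← Finset.sum_add_distrib, ← Finset.sum_sub_distrib,
      map_sum]
    rw [Finset.mul_sum]
    refine Finset.sum_congr rfl fun i _ => ?_
    rw [Finset.mul_sum]
    refine Finset.sum_congr rfl fun j _ => ?_
    rw [sq44 _ _ (fun a => D.same_left _ _ _) (fun a => D.same_left _ _ _)
      (fun a => D.same_left _ _ _), show ∀ F : D.R, F * 4 = (4 : ℝ) • F from fun F => by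
        rw [Algebra.smul_def, mul_comm, map_ofNat], map_smul, smul_eq_mul]
    congr 1
    have q1 := key ![i, i, j, j]
    have q2 := key ![i, j, i, j]
    have q3 := key ![i, j, j, i]
    have q4 := key ![j, i, i, j]
    have q5 := key ![j, i, j, i]
    have q6 := key ![j, j, i, i]
    simp only [det4, Matrix.of_apply, Matrix.cons_val] at q1 q2 q3 q4 q5 q6
    simp only [map_add, q1, q2, q3, q4, q5, q6]
    ring
  rw [main]
  have sy : ∀ i j k l, r i j k l = r k l i j := fun i j k l => Rm_sym hL _ _ _ _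
  have ps : ∀ i (x y : ℝ), 0 ≤ x ^ 2 * r i 2 i 2 + 2 * x * y * r i 2 i 3 + y ^ 2 * r i 3 i 3 := by
    intro i x y
    have := hR (b i) (x • b 2 + y • b 3)
    simp only [Rm_lin2, Rm_lin4, Rm_sym hL (b i) (b 3) (b i) (b 2)] at this
    simp only [r]
    linarith
  have t1 := psd2 (ps 0) (ps 1)
  have t2 := mul_nonneg (hR (b 0) (b 1)) (hR (b 2) (b 3))
  change r 0 1 0 2 = 0 at k1
  change r 0 1 0 3 = 0 at k2
  change r 0 1 1 2 = 0 at k3
  change r 0 1 1 3 = 0 at k4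
  change r 0 2 1 2 + r 0 3 1 3 = 0 at k5
  change 0 ≤ r 0 1 0 1 * r 2 3 2 3 at t2
  rw [sy 0 2 0 1, sy 0 3 0 1, sy 1 2 0 1, sy 1 3 0 1, sy 2 3 0 1, sy 0 3 0 2, sy 1 2 0 2,
    sy 1 3 0 2, sy 1 2 0 3, sy 1 3 0 3, sy 1 3 1 2, k1, k2, k3, k4,
    show r 0 3 1 3 = -r 0 2 1 2 by linarith]
  linear_combination 8 * t1 + 8 * t2 + 8 * sq_nonneg (r 0 1 2 3) + 8 * sq_nonneg (r 0 2 1 3)
    + 8 * sq_nonneg (r 0 3 1 2) + 16 * sq_nonneg (r 0 2 1 2)

lemma pos_mono (l : List (Eu A)) (G : D.R)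
    (hG : ∀ d (P : Eu A →L[ℝ] Eu A), IsProj d P → 0 ≤ D.BP d P G) :
    ∀ d (P : Eu A →L[ℝ] Eu A), IsProj d P → 0 ≤ D.BP d P ((l.map fun v => D.t v v).prod * G) := by
  induction l with
  | nil => simpa using hG
  | cons v l ih =>
    intro d P h
    rw [List.map_cons, List.prod_cons, mul_assoc,
      ← ((D.eqv_t h v v).mul (DFA.Eqv.refl ((l.map fun v => D.t v v).prod * G))).BP]
    by_cases hv : P v = 0
    · simp [hv]
    · have hn : ‖P v‖ ≠ 0 := norm_ne_zero_iff.2 hv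
      obtain ⟨u, hu, hPu, e⟩ : ∃ u, ‖u‖ = 1 ∧ P u = u ∧ P v = ‖P v‖ • u :=
        ⟨‖P v‖⁻¹ • P v, by simp [norm_smul, hn], by simp [h.idem], by simp [smul_smul, hn]⟩
      cases d with
      | zero =>
        obtain ⟨b, -, -, hb⟩ := h.frame
        exact absurd (by simpa using hb v) hv
      | succ d =>
        rw [e]
        simp only [map_smul, smul_apply, smul_mul_assoc, smul_eq_mul]
        rw [D.BP_step h]
        have := ih d _ (h.step hu hPu)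
        positivity

/-- normal forms -/
inductive NF (ρ : D.R) (p : ℕ) : D.R → Prop
  | mono (q : ℕ) (l : List (Eu A)) (c : ℝ) : q ≤ p → 0 ≤ c →
      NF ρ p (c • ((l.map fun v => D.t v v).prod * ρ ^ q))
  | add {F G : D.R} : NF ρ p F → NF ρ p G → NF ρ p (F + G)

lemma NF.smul {ρ : D.R} {p : ℕ} {F : D.R} (h : NF D ρ p F) {c : ℝ} (hc : 0 ≤ c) :
    NF D ρ p (c • F) := by
  induction h with
  | mono q l c' h1 h2 => rw [smul_smul]; exact NF.mono q l _ h1 (mul_nonneg hc h2)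
  | add _ _ h1 h2 => rw [smul_add]; exact h1.add h2

lemma NF.up {ρ : D.R} {p p' : ℕ} {F : D.R} (h : NF D ρ p F) (hp : p ≤ p') : NF D ρ p' F := by
  induction h with
  | mono q l c' h1 h2 => exact NF.mono q l _ (h1.trans hp) h2
  | add _ _ h1 h2 => exact h1.add h2

lemma NF.mul {ρ : D.R} {p p' : ℕ} {F G : D.R} (h : NF D ρ p F) (h' : NF D ρ p' G) :
    NF D ρ (p + p') (F * G) := by
  induction h with
  | add _ _ h1 h2 => rw [add_mul]; exact h1.add h2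
  | mono q l c h1 h2 =>
    induction h' with
    | add _ _ h3 h4 => rw [mul_add]; exact h3.add h4
    | mono q' l' c' h3 h4 =>
      have := NF.mono (D := D) (ρ := ρ) (q + q') (l ++ l') (c * c') (Nat.add_le_add h1 h3)
        (mul_nonneg h2 h4)
      rw [List.map_append, List.prod_append, pow_add] at this
      rw [smul_mul_smul_comm, mul_mul_mul_comm]
      exact this

lemma nf_of_cone {ρ : D.R} {p : ℕ} {F : D.R} (h : D.Cone ρ p F) : NF D ρ p F := by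
  induction h with
  | zero => simpa using NF.mono (D := D) (ρ := ρ) 0 [] 0 le_rfl le_rfl
  | one => simpa using NF.mono (D := D) (ρ := ρ) 0 [] 1 le_rfl zero_le_one
  | sq v => simpa using NF.mono (D := D) (ρ := ρ) 0 [v] 1 le_rfl zero_le_one
  | rho => simpa using NF.mono (D := D) (ρ := ρ) 1 [] 1 le_rfl zero_le_one
  | smul c hc _ ih => exact ih.smul D hc
  | add _ _ h1 h2 => exact h1.add h2
  | mul _ _ h1 h2 => exact h1.mul D h2
  | mono h _ ih => exact ih.up D h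

end EPosAux

open EPosAux in
/-- Milnor's lemma: positivity up to the second power for nonnegative shifted sectional
curvature -/
theorem DFA.pos_sec (D : DFA A) {d : ℕ} {P : Eu A →L[ℝ] Eu A} (hP : IsProj d P)
    (S : Fin A → Eu A →L[ℝ] Eu A) (hS : ∀ c, SymTan P (S c))
    (h : ∀ v w, -gramT P v w v w ≤ curvT S v w v w)
    (F : D.R) (hF : D.Cone (∑ c, D.Th (S c) ^ 2 + D.Th P ^ 2) 2 F) : 0 ≤ D.BP d P F := by
  let L : Option (Fin A) → Eu A →L[ℝ] Eu A := fun i => i.elim P S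
  have hL : ∀ i v w, ⟪L i v, w⟫_ℝ = ⟪v, L i w⟫_ℝ := by
    rintro (_ | i)
    · exact hP.symm
    · exact (hS i).symm
  have hR : ∀ v w, 0 ≤ Rm L v w v w := by
    intro v w
    have h1 := h v w
    have e : ∀ a b, ⟪P a, P b⟫_ℝ = ⟪P a, b⟫_ℝ := fun a b => by rw [← hP.symm, hP.idem]
    simp only [gramT, curvT, e] at h1
    simp only [Rm, Fintype.sum_option, L, Option.elim]
    linarith
  have e : ∑ c, D.Th (S c) ^ 2 + D.Th P ^ 2 = ∑ i, D.Th (L i) ^ 2 := by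
    simp only [Fintype.sum_option, L, Option.elim, add_comm]
  rw [e] at hF
  have hN := nf_of_cone D hF
  clear hF
  induction hN with
  | add _ _ h1 h2 => rw [map_add]; exact add_nonneg h1 h2
  | mono q l c h1 h2 =>
    rw [map_smul]
    refine mul_nonneg h2 (pos_mono D l _ (fun d' P' h' => ?_) d P hP)
    interval_cases q
    · have := D.BP_prod h' (ι := Fin 0) Fin.elim0 Fin.elim0
      simp only [Finset.univ_eq_empty, Finset.prod_empty, Matrix.det_isEmpty] at this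
      rw [pow_zero, this]
      split_ifs <;> norm_num
    · rw [pow_one]; exact pos_one D hL hR h'
    · exact pos_two D hL hR h'

end Pool.Agent.AlEmb
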