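import Pool.Agent.Lib.MP_3fa020_gt.EBasic

/-!
Tubular neighbourhoods: a compact submanifold has a smooth nearest point projection.
-/

namespace Pool.Agent.AlEmb

open Set Filter Topology MeasureTheory
open scoped InnerProductSpace ContDiff

namespace ETubeAux

variable {E F : Type*} [NormedAddCommGroup E] [InnerProductSpace ℝ E] [FiniteDimensional ℝ E]
  [NormedAddCommGroup F] [InnerProductSpace ℝ F] [FiniteDimensional ℝ F]

/-- the adjoint as a continuous real linear map -/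
noncomputable def adjL : (E →L[ℝ] F) →L[ℝ] (F →L[ℝ] E) :=
  LinearMap.mkContinuous
    { toFun := fun B => ContinuousLinearMap.adjoint B
      map_add' := fun B C => map_add _ B C
      map_smul' := fun c B => by
        rw [LinearIsometryEquiv.map_smulₛₗ]
        rfl } 1 fun B => by
    rw [one_mul]
    exact (LinearIsometryEquiv.norm_map
      (ContinuousLinearMap.adjoint (𝕜 := ℝ) (E := E) (F := F)) B).le

lemma adjL_inner (B : E →L[ℝ] F) (x : E) (y : F) : ⟪adjL B y, x⟫_ℝ = ⟪y, B x⟫_ℝ :=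
  ContinuousLinearMap.adjoint_inner_left B x y

lemma norm_adjL (B : E →L[ℝ] F) : ‖adjL B‖ = ‖B‖ :=
  LinearIsometryEquiv.norm_map (ContinuousLinearMap.adjoint (𝕜 := ℝ) (E := E) (F := F)) B

lemma adjL_eq_zero {B : E →L[ℝ] F} (hB : Function.Surjective B) {y : F} (h : adjL B y = 0) :
    y = 0 := by
  obtain ⟨x, rfl⟩ := hB y
  have := adjL_inner B x (B x)
  rw [h, inner_zero_left] at this
  exact inner_self_eq_zero.1 this.symm

lemma adjL_lower {B : E →L[ℝ] F} (hB : Function.Surjective B) :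
    ∃ c > 0, ∀ B' : E →L[ℝ] F, ‖B' - B‖ < c → ∀ y, c * ‖y‖ ≤ ‖adjL B' y‖ := by
  obtain ⟨K, hK, h⟩ := LinearMap.exists_antilipschitzWith (adjL B : F →ₗ[ℝ] E)
    (LinearMap.ker_eq_bot'.2 fun y hy => adjL_eq_zero hB hy)
  have hK' : (0 : ℝ) < K := hK
  refine ⟨1 / (2 * K), by positivity, fun B' hB' y => ?_⟩
  have h1 : ‖y‖ ≤ K * ‖adjL B y‖ := by
    simpa using h.le_mul_dist y 0
  have h2 : adjL B y = adjL B' y - adjL (B' - B) y := by simp
  have h3 : ‖adjL (B' - B) y‖ ≤ 1 / (2 * K) * ‖y‖ := by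
    refine ((adjL (B' - B)).le_opNorm y).trans ?_
    rw [norm_adjL]
    exact mul_le_mul_of_nonneg_right hB'.le (norm_nonneg _)
  have h4 : ‖adjL B y‖ ≤ ‖adjL B' y‖ + 1 / (2 * K) * ‖y‖ := by
    rw [h2]
    exact (norm_sub_le _ _).trans (by linarith)
  have h5 : 2 * (1 / (2 * K) * ‖y‖) ≤ ‖adjL B y‖ := by
    have : 2 * (1 / (2 * (K : ℝ)) * ‖y‖) = ‖y‖ / K := by field_simp
    rw [this, div_le_iff₀ hK']
    linarith
  linarith

/-- Lagrange multipliers for the nearest point -/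
lemma lagrange {Φ : E → F} {B : E →L[ℝ] F} {m z : E} (hΦ : HasStrictFDerivAt Φ B m)
    (hB : Function.Surjective B) (h : ∀ᶠ x in 𝓝 m, Φ x = Φ m → ‖z - m‖ ≤ ‖z - x‖) :
    ∃ y, z - m = adjL B y := by
  have hmin : IsLocalMinOn (fun x => ‖z - x‖ ^ 2) {x | Φ x = Φ m} m := by
    rw [IsLocalMinOn, IsMinFilter, eventually_nhdsWithin_iff]
    filter_upwards [h] with x hx hx'
    exact pow_le_pow_left₀ (norm_nonneg _) (hx hx') 2
  have hd : HasStrictFDerivAt (fun x => ‖z - x‖ ^ 2)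
      ((2 • innerSL ℝ (z - m)).comp (-ContinuousLinearMap.id ℝ E)) m :=
    (hasStrictFDerivAt_norm_sq (z - m)).comp m ((hasStrictFDerivAt_id m).const_sub z)
  obtain ⟨Λ, Λ₀, h0, hΛ⟩ := IsLocalExtrOn.exists_linear_map_of_hasStrictFDerivAt
    (Or.inl hmin) hΦ hd
  have h1 : ∀ v, Λ (B v) = 2 * Λ₀ * ⟪z - m, v⟫_ℝ := by
    intro v
    have := hΛ v
    simp only [ContinuousLinearMap.comp_apply, neg_apply,
      ContinuousLinearMap.id_apply, smul_apply, innerSL_apply_apply,
      inner_neg_right, smul_eq_mul, nsmul_eq_mul, Nat.cast_ofNat] at this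
    linarith
  have h2 : Λ₀ ≠ 0 := by
    rintro rfl
    apply h0
    refine Prod.ext ?_ rfl
    ext y
    obtain ⟨v, rfl⟩ := hB y
    simpa using h1 v
  refine ⟨(2 * Λ₀)⁻¹ • (InnerProductSpace.toDual ℝ F).symm (LinearMap.toContinuousLinearMap Λ), ?_⟩
  refine ext_inner_right ℝ fun v => ?_
  rw [adjL_inner, real_inner_smul_left, InnerProductSpace.toDual_symm_apply]
  simp only [LinearMap.coe_toContinuousLinearMap', h1]
  field_simp

/-- the linearisation of the normal exponential map -/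
noncomputable def dH (B : E →L[ℝ] F) : E × F →L[ℝ] E × F :=
  (ContinuousLinearMap.fst ℝ E F + (adjL B).comp (ContinuousLinearMap.snd ℝ E F)).prod
    (B.comp (ContinuousLinearMap.fst ℝ E F))

lemma dH_apply (B : E →L[ℝ] F) (y : E × F) : dH B y = (y.1 + adjL B y.2, B y.1) := rfl

lemma exists_equiv {B : E →L[ℝ] F} (hB : Function.Surjective B) :
    ∃ e : (E × F) ≃L[ℝ] (E × F), (e : E × F →L[ℝ] E × F) = dH B := by
  have hi : Function.Injective (dH B : E × F →ₗ[ℝ] E × F) := by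
    rw [← LinearMap.ker_eq_bot, LinearMap.ker_eq_bot']
    rintro ⟨v, y⟩ h
    have h' : dH B (v, y) = 0 := h
    rw [dH_apply, Prod.ext_iff] at h'
    obtain ⟨h1, h2⟩ := h'
    simp only [Prod.fst_zero, Prod.snd_zero] at h1 h2
    have h3 := adjL_inner B v y
    rw [h2, inner_zero_right, eq_neg_of_add_eq_zero_right h1, inner_neg_left, neg_eq_zero,
      inner_self_eq_zero] at h3
    rw [h3, zero_add] at h1
    rw [h3, adjL_eq_zero hB h1]
    rfl
  exact ⟨(LinearEquiv.ofInjectiveEndo _ hi).toContinuousLinearEquiv, by ext <;> rfl⟩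

/-- local smoothness of the nearest point map -/
lemma local_smooth {M U : Set E} {Φ : E → F} (hU : IsOpen U) (hΦ : ContDiffOn ℝ ∞ Φ U)
    (hs : ∀ y ∈ U, Function.Surjective (fderiv ℝ Φ y)) (hM : M ∩ U = U ∩ Φ ⁻¹' {0})
    {p : E} (hpM : p ∈ M) (hpU : p ∈ U) {q : E → E} (hq : ∀ z, q z ∈ M)
    (hq' : ∀ z, ∀ x ∈ M, ‖z - q z‖ ≤ ‖z - x‖) :
    (∀ᶠ z in 𝓝 p, ContDiffAt ℝ ∞ q z) ∧
      ∀ v, fderiv ℝ Φ p (fderiv ℝ q p v) = 0 ∧
        ∃ y, v - fderiv ℝ q p v = adjL (fderiv ℝ Φ p) y := by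
  have hz : ∀ x ∈ U, x ∈ M ↔ Φ x = 0 := fun x hx => by
    have := Set.ext_iff.1 hM x
    simpa [hx] using this
  have hΦa : ∀ x ∈ U, ContDiffAt ℝ ∞ Φ x := fun x hx => hΦ.contDiffAt (hU.mem_nhds hx)
  have hDa : ∀ x ∈ U, ContDiffAt ℝ ∞ (fderiv ℝ Φ) x := fun x hx =>
    (hΦa x hx).fderiv_right (m := ∞) (by simp)
  set H : E × F → E × F := fun y => (y.1 + adjL (fderiv ℝ Φ y.1) y.2, Φ y.1) with hH
  have hHa : ∀ y : E × F, y.1 ∈ U → ContDiffAt ℝ ∞ H y := fun y hy => by
    refine ContDiffAt.prodMk (contDiffAt_fst.add (ContDiffAt.clm_apply ?_ contDiffAt_snd))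
      ((hΦa _ hy).comp y contDiffAt_fst)
    exact adjL.contDiff.contDiffAt.comp y ((hDa _ hy).comp y contDiffAt_fst)
  obtain ⟨e, he⟩ := exists_equiv (hs p hpU)
  have hH0 : H (p, 0) = (p, 0) := by simp [hH, (hz p hpU).1 hpM]
  have hHd : HasFDerivAt H (e : E × F →L[ℝ] E × F) (p, 0) := by
    rw [he]
    have h1 : DifferentiableAt ℝ (fun y : E × F => adjL (fderiv ℝ Φ y.1)) (p, 0) :=
      ((adjL.contDiff.contDiffAt.comp (p, (0 : F)) ((hDa p hpU).comp (p, (0 : F))
        (contDiffAt_fst (p := (p, (0 : F)))))).differentiableAt (by simp) :)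
    have h2 := h1.hasFDerivAt.clm_apply (hasFDerivAt_snd (p := (p, (0 : F))))
    have h3 : HasFDerivAt (fun y : E × F => Φ y.1)
        ((fderiv ℝ Φ p).comp (ContinuousLinearMap.fst ℝ E F)) (p, 0) :=
      HasFDerivAt.comp (p, (0 : F)) (g := Φ) (f := Prod.fst)
        ((hΦa p hpU).differentiableAt (by simp)).hasFDerivAt hasFDerivAt_fst
    have h4 := ((hasFDerivAt_fst (p := (p, (0 : F)))).add h2).prodMk h3
    refine h4.congr_fderiv ?_
    simp [dH]
  set K := (hHa (p, 0) hpU).toOpenPartialHomeomorph H hHd (by simp) with hK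
  have hKc : (K : E × F → E × F) = H := rfl
  have hsrc : (p, (0 : F)) ∈ K.source := ContDiffAt.mem_toOpenPartialHomeomorph_source _ _ _
  have htgt : (p, (0 : F)) ∈ K.target := by
    have := K.map_source hsrc
    rwa [hKc, hH0] at this
  have hsymm : K.symm (p, 0) = (p, 0) := by
    have := K.left_inv hsrc
    rwa [hKc, hH0] at this
  have hin : ContinuousAt (fun z : E => (z, (0 : F))) p := by fun_prop
  -- `q z` tends to `p`
  have hqp : Tendsto q (𝓝 p) (𝓝 p) := by
    rw [tendsto_iff_norm_sub_tendsto_zero]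
    have h0 : Tendsto (fun z : E => 2 * ‖z - p‖) (𝓝 p) (𝓝 0) := by
      have : ContinuousAt (fun z : E => 2 * ‖z - p‖) p := by fun_prop
      simpa using this.tendsto
    refine squeeze_zero (fun _ => norm_nonneg _) (fun z => ?_) h0
    have h1 := hq' z p hpM
    have h2 : q z - p = (z - p) - (z - q z) := by abel
    rw [h2]
    exact (norm_sub_le _ _).trans (by linarith)
  obtain ⟨c, hc, hc'⟩ := adjL_lower (hs p hpU)
  have hev : q =ᶠ[𝓝 p] fun z => (K.symm (z, 0)).1 := by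
    obtain ⟨r, hr, hr'⟩ := Metric.isOpen_iff.1 K.open_source _ hsrc
    have e1 : ∀ᶠ z in 𝓝 p, q z ∈ U := hqp.eventually (hU.mem_nhds hpU)
    have e2 : ∀ᶠ z in 𝓝 p, ‖fderiv ℝ Φ (q z) - fderiv ℝ Φ p‖ < c := by
      have := ((hDa p hpU).continuousAt.tendsto.comp hqp).eventually (Metric.ball_mem_nhds _ hc)
      simpa only [Function.comp, dist_eq_norm] using this
    have e3 : ∀ᶠ z in 𝓝 p, dist (q z) p < r := hqp.eventually (Metric.ball_mem_nhds _ hr)
    have e4 : ∀ᶠ z in 𝓝 p, dist z p < c * r := Metric.ball_mem_nhds _ (by positivity)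
    filter_upwards [e1, e2, e3, e4] with z h1 h2 h3 h4
    have h5 : Φ (q z) = 0 := (hz _ h1).1 (hq z)
    obtain ⟨y, hy⟩ := lagrange (z := z)
      ((hΦa _ h1).hasStrictFDerivAt (by simp)) (hs _ h1) (by
        filter_upwards [hU.mem_nhds h1] with x hx hx'
        exact hq' z x ((hz x hx).2 (hx'.trans h5)))
    have h6 : ‖y‖ < r := by
      have h7 := hc' _ h2 y
      rw [← hy] at h7
      have h8 := hq' z p hpM
      rw [dist_eq_norm] at h4
      exact lt_of_mul_lt_mul_left (by linarith) hc.le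
    have h9 : (q z, y) ∈ K.source := hr' (by
      rw [Metric.mem_ball, Prod.dist_eq, dist_zero_right]
      exact max_lt h3 h6)
    have h10 := K.left_inv h9
    have h11 : H (q z, y) = (z, 0) := by
      simp only [hH, ← hy, h5, add_sub_cancel]
    rw [hKc, h11] at h10
    rw [h10]
  constructor
  · have e1 : ∀ᶠ y in 𝓝 (p, (0 : F)), y.1 ∈ U :=
      continuous_fst.continuousAt.eventually (hU.mem_nhds hpU)
    have e2 : ∀ᶠ y in 𝓝 (p, (0 : F)),
        fderiv ℝ H y ∈ range ((↑) : ((E × F) ≃L[ℝ] (E × F)) → E × F →L[ℝ] E × F) := by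
      have := ((hHa (p, 0) hpU).fderiv_right (m := ∞) (by simp)).continuousAt
      exact this.eventually (ContinuousLinearEquiv.isOpen.mem_nhds ⟨e, hHd.fderiv.symm⟩)
    have e3 : Tendsto (fun z : E => K.symm (z, 0)) (𝓝 p) (𝓝 (p, 0)) := by
      have := (K.symm.continuousAt htgt).tendsto
      rw [hsymm] at this
      exact this.comp hin.tendsto
    have e4 : ∀ᶠ z in 𝓝 p, (z, (0 : F)) ∈ K.target := hin.eventually (K.open_target.mem_nhds htgt)
    filter_upwards [e3.eventually e1, e3.eventually e2, e4, hev.eventually_nhds] with z h1 h2 h3 h4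
    obtain ⟨e', he'⟩ := h2
    have h5 := hHa _ h1
    have h6 : ContDiffAt ℝ ∞ K.symm (z, 0) :=
      K.contDiffAt_symm (f₀' := e') h3 (by
        rw [he']
        exact (h5.differentiableAt (by simp)).hasFDerivAt) h5
    have h7 : ContDiffAt ℝ ∞ (fun z : E => (K.symm (z, 0)).1) z :=
      contDiffAt_fst.comp z (h6.comp z (contDiffAt_id.prodMk contDiffAt_const))
    exact h7.congr_of_eventuallyEq h4
  · intro v
    have h1 : HasFDerivAt K.symm (e.symm : E × F →L[ℝ] E × F) (p, 0) :=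
      K.hasFDerivAt_symm htgt (by rw [hsymm]; exact hHd)
    have h2' : HasFDerivAt (fun z : E => K.symm (z, 0))
        ((e.symm : E × F →L[ℝ] E × F).comp (ContinuousLinearMap.inl ℝ E F)) p :=
      HasFDerivAt.comp p (g := K.symm) (f := fun z : E => (z, (0 : F))) h1
        (hasFDerivAt_prodMk_left p (0 : F))
    have h2 := h2'.fst
    have h3 := (h2.congr_of_eventuallyEq hev).fderiv
    have h4 : fderiv ℝ q p v = (e.symm (v, 0)).1 := by
      rw [h3]
      rfl
    have h5 : dH (fderiv ℝ Φ p) (e.symm (v, 0)) = (v, 0) := by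
      rw [← he]
      exact e.apply_symm_apply _
    rw [dH_apply, Prod.ext_iff] at h5
    rw [h4]
    exact ⟨h5.2, (e.symm (v, 0)).2, by rw [sub_eq_iff_eq_add', eq_comm]; exact h5.1⟩

lemma symm_of {B : E →L[ℝ] F} {L : E →L[ℝ] E}
    (h : ∀ v, B (L v) = 0 ∧ ∃ y, v - L v = adjL B y) (v w : E) : ⟪L v, w⟫_ℝ = ⟪v, L w⟫_ℝ := by
  have key : ∀ v w, ⟪w, L v⟫_ℝ = ⟪L w, L v⟫_ℝ := fun v w => by
    obtain ⟨y, hy⟩ := (h w).2
    rw [← sub_eq_zero, ← inner_sub_left, hy, adjL_inner, (h v).1, inner_zero_right]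
  rw [real_inner_comm, key, key w v, real_inner_comm]

lemma range_eq {B : E →L[ℝ] F} {L : E →L[ℝ] E}
    (h : ∀ v, B (L v) = 0 ∧ ∃ y, v - L v = adjL B y) :
    LinearMap.range (L : E →ₗ[ℝ] E) = LinearMap.ker (B : E →ₗ[ℝ] F) := by
  ext a
  constructor
  · rintro ⟨v, rfl⟩
    exact (h v).1
  · intro ha
    have ha' : B a = 0 := ha
    obtain ⟨y, hy⟩ := (h a).2
    have h1 : ⟪a - L a, a - L a⟫_ℝ = 0 := by
      conv_lhs => rw [hy, adjL_inner, ← hy, map_sub, ha', (h a).1, sub_zero, inner_zero_right]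
    exact ⟨a, (sub_eq_zero.1 (inner_self_eq_zero.1 h1)).symm⟩

end ETubeAux

open ETubeAux

variable {A n : ℕ}

theorem exists_emb {M : Set (Eu A)} (hc : IsCompact M) (h : IsSubmfd n M) :
    ∃ X : Emb A n, X.M = M := by
  rcases M.eq_empty_or_nonempty with rfl | hne
  · exact ⟨⟨∅, hc, id, contDiff_id, 1, one_pos, by simp, by simp, by simp, by simp, by simp⟩, rfl⟩
  have hex : ∀ z : Eu A, ∃ m ∈ M, ∀ x ∈ M, ‖z - m‖ ≤ ‖z - x‖ := fun z => by
    obtain ⟨m, hm, h1⟩ := hc.exists_infDist_eq_dist hne z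
    refine ⟨m, hm, fun x hx => ?_⟩
    rw [← dist_eq_norm, ← dist_eq_norm, ← h1]
    exact Metric.infDist_le_dist_of_mem hx
  choose q hq hq' using hex
  have hloc : ∀ p ∈ M, (∀ᶠ z in 𝓝 p, ContDiffAt ℝ ∞ q z) ∧
      (∀ v w, ⟪fderiv ℝ q p v, w⟫_ℝ = ⟪v, fderiv ℝ q p w⟫_ℝ) ∧
      Module.finrank ℝ (LinearMap.range (fderiv ℝ q p : Eu A →ₗ[ℝ] Eu A)) = n := by
    intro p hp
    obtain ⟨U, Φ, hU, hpU, hΦ, hs, hM⟩ := h.2 p hp
    obtain ⟨h1, h2⟩ := local_smooth hU hΦ hs hM hp hpU hq hq'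
    refine ⟨h1, symm_of h2, ?_⟩
    rw [range_eq h2]
    have h3 := LinearMap.finrank_range_add_finrank_ker (fderiv ℝ Φ p : Eu A →ₗ[ℝ] Eu (A - n))
    rw [LinearMap.range_eq_top.2 (hs p hpU), finrank_top, finrank_euclideanSpace_fin,
      finrank_euclideanSpace_fin] at h3
    have := h.1
    omega
  have hfix : ∀ x ∈ M, q x = x := fun x hx => by
    have := hq' x x hx
    rw [sub_self, norm_zero, norm_le_zero_iff, sub_eq_zero] at this
    exact this.symm
  obtain ⟨δ, hδ, hW⟩ := hc.exists_cthickening_subset_open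
    (isOpen_interior (s := {z | ContDiffAt ℝ ∞ q z}))
    (fun p hp => mem_interior_iff_mem_nhds.2 (hloc p hp).1)
  obtain ⟨χ, hχ0, hχ1, -⟩ := exists_contMDiffMap_zero_one_of_isClosed (n := (⊤ : ℕ∞))
    (modelWithCornersSelf ℝ (Eu A))
    (s := (Metric.thickening δ M)ᶜ) (t := Metric.cthickening (δ / 2) M)
    Metric.isOpen_thickening.isClosed_compl Metric.isClosed_cthickening
    (disjoint_compl_left_iff_subset.2
      (Metric.cthickening_subset_thickening' hδ (half_lt_self hδ) M))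
  have hχ : ContDiff ℝ ∞ χ := χ.contMDiff.contDiff
  have hpr : ∀ x ∈ M, ∀ z, ‖z - x‖ < δ / 2 → χ z • q z = q z := fun x hx z hz => by
    have : z ∈ Metric.cthickening (δ / 2) M :=
      Metric.mem_cthickening_of_dist_le z x _ M hx (by rw [dist_eq_norm]; exact hz.le)
    rw [hχ1 this, Pi.one_apply, one_smul]
  have hev : ∀ x ∈ M, (fun z => χ z • q z) =ᶠ[𝓝 x] q := fun x hx => by
    filter_upwards [Metric.ball_mem_nhds x (half_pos hδ)] with z hz
    exact hpr x hx z (by simpa [dist_eq_norm] using hz)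
  have hsm : ContDiff ℝ ∞ fun z => χ z • q z := by
    rw [contDiff_iff_contDiffAt]
    intro z
    by_cases hz : z ∈ Metric.cthickening δ M
    · exact hχ.contDiffAt.smul (interior_subset (hW hz))
    · refine (contDiffAt_const (c := (0 : Eu A))).congr_of_eventuallyEq ?_
      filter_upwards [Metric.isClosed_cthickening.isOpen_compl.mem_nhds hz] with y hy
      have : y ∈ (Metric.thickening δ M)ᶜ := fun h' =>
        hy (Metric.thickening_subset_cthickening δ M h')
      rw [hχ0 this, Pi.zero_apply, zero_smul]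
  refine ⟨⟨M, hc, fun z => χ z • q z, hsm, δ / 2, half_pos hδ, fun x hx z hz => ?_,
    fun x hx => ?_, fun x hx => ?_, fun x hx z hz => ?_, fun x hx => ?_⟩, rfl⟩
  · rw [hpr x hx z hz]
    exact hq z
  · rw [hpr x hx x (by simpa using hδ), hfix x hx]
  · rw [(hev x hx).fderiv_eq]
    exact (hloc x hx).2.1
  · rw [hpr x hx z hz, (hev _ (hq z)).fderiv_eq]
    have hd : HasFDerivAt q (fderiv ℝ q (q z)) (q z) :=
      ((hloc _ (hq z)).1.self_of_nhds.differentiableAt (by simp)).hasFDerivAt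
    have hmin : IsLocalMin (fun s => ‖z - q s‖ ^ 2) (q z) := by
      refine Eventually.of_forall fun s => ?_
      simp only [hfix _ (hq z)]
      exact pow_le_pow_left₀ (norm_nonneg _) (hq' z _ (hq s)) 2
    have h0 := hmin.hasFDerivAt_eq_zero (hd.const_sub z).norm_sq
    refine ext_inner_right ℝ fun v => ?_
    have h1 := congrArg (fun L : Eu A →L[ℝ] ℝ => L v) h0
    simp only [hfix _ (hq z), smul_apply, ContinuousLinearMap.comp_apply,
      neg_apply, innerSL_apply_apply, inner_neg_right, nsmul_eq_mul,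
      Nat.cast_ofNat, zero_apply] at h1
    rw [(hloc _ (hq z)).2.1, inner_zero_left]
    linarith
  · rw [(hev x hx).fderiv_eq]
    exact (hloc x hx).2.2

theorem ETubeAux.P_mem (X : Emb A n) {x : Eu A} (hx : x ∈ X.M) (v : Eu A) :
    X.P x v ∈ tangentConeAt ℝ X.M x := by
  have h1 : HasFDerivWithinAt X.pr (X.P x) (Metric.ball x X.δ) x :=
    (X.pr_hasFDerivAt x).hasFDerivWithinAt
  have h2 := h1.mapsTo_tangent_cone (x := x) (show v ∈ tangentConeAt ℝ (Metric.ball x X.δ) x by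
    rw [tangentConeAt_of_mem_nhds (Metric.ball_mem_nhds x X.δ_pos)]
    trivial)
  rw [X.fix x hx] at h2
  refine tangentConeAt_mono ?_ h2
  rintro _ ⟨z, hz, rfl⟩
  exact X.maps x hx z (by simpa [dist_eq_norm] using hz)

theorem Emb.proj_eq (X : Emb A n) {x : Eu A} (hx : x ∈ X.M) : proj X.M x = X.P x := by
  have h1 : HasFDerivWithinAt X.pr (X.P x) X.M x := (X.pr_hasFDerivAt x).hasFDerivWithinAt
  have h2 : HasFDerivWithinAt X.pr (ContinuousLinearMap.id ℝ (Eu A)) X.M x :=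
    (hasFDerivWithinAt_id x X.M).congr (fun y hy => X.fix y hy) (X.fix x hx)
  have h3 : ∀ w ∈ Submodule.span ℝ (tangentConeAt ℝ X.M x), X.P x w = w := by
    intro w hw
    induction hw using Submodule.span_induction with
    | mem w hw => exact h1.unique_on h2 hw
    | zero => exact map_zero _
    | add a b _ _ ha hb => rw [map_add, ha, hb]
    | smul c a _ ha => rw [map_smul, ha]
  ext1 v
  refine Submodule.eq_starProjection_of_mem_of_inner_eq_zero
    (Submodule.subset_span (ETubeAux.P_mem X hx v)) fun w hw => ?_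
  rw [inner_sub_left, (Emb.isProj hx).symm, h3 w hw, sub_self]

theorem Emb.sff_eq (X : Emb A n) {x : Eu A} (hx : x ∈ X.M) (v w : Eu A) :
    sff X.M x v w = X.II x (X.P x v) (X.P x w) := by
  have h1 : HasFDerivWithinAt (proj X.M) (fderiv ℝ X.P x) X.M x :=
    (X.P_diff x).hasFDerivAt.hasFDerivWithinAt.congr (fun y hy => X.proj_eq hy) (X.proj_eq hx)
  have h2 := h1.differentiableWithinAt.hasFDerivWithinAt.unique_on h1 (ETubeAux.P_mem X hx v)
  rw [sff, X.proj_eq hx, h2]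
  rfl

end Pool.Agent.AlEmb
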