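import Pool.Agent.Lib.MP_3fa020_gt.EDom

namespace Pool.Agent.AlEmb

open Set Filter Topology
open scoped InnerProductSpace

variable {A : ℕ}

namespace EWeylAux

section det

variable {ι : Type} [Fintype ι] [DecidableEq ι]

/-- rank one update of a determinant -/
lemma det_rank_one (G : Matrix ι ι ℝ) (u v : ι → ℝ) :
    (Matrix.of fun i j => G i j - u i * v j).det = G.det - ∑ i, u i * (G.updateRow i v).det := by
  have key : ∀ s : Finset ι, (Matrix.of fun i j => G i j - (if i ∈ s then u i else 0) * v j).det =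
      G.det - ∑ i ∈ s, u i * (G.updateRow i v).det := by
    intro s
    induction s using Finset.induction_on with
    | empty =>
      simp only [Finset.notMem_empty, if_false, zero_mul, sub_zero, Finset.sum_empty]
      rfl
    | insert a s ha ih =>
      set H : Matrix ι ι ℝ := Matrix.of fun i j => G i j - (if i ∈ s then u i else 0) * v j with hH
      have e : (Matrix.of fun i j => G i j - (if i ∈ insert a s then u i else 0) * v j) =
          H.updateRow a (H a + (-u a) • v) := by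
        ext i j
        by_cases hi : i = a
        · subst hi
          simp [hH, ha, sub_eq_add_neg]
        · simp [hH, hi]
      have e2 : (H.updateRow a v).det = (G.updateRow a v).det := by
        refine Matrix.det_eq_of_forall_row_eq_smul_add_const
          (fun i => -(if i ∈ s then u i else 0)) a (by simp [ha]) fun i j => ?_
        by_cases hi : i = a
        · subst hi
          simp [ha]
        · simp [hH, hi, sub_eq_add_neg]
      rw [e, Matrix.det_updateRow_add, Matrix.det_updateRow_smul, Matrix.updateRow_eq_self, e2, ih,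
        Finset.sum_insert ha]
      ring
  simpa using key Finset.univ

lemma sum_det_rank_one {K : Type} [Fintype K] (G : Matrix ι ι ℝ) (u v : K → ι → ℝ)
    (h : ∀ i j, G i j = ∑ l, u l i * v l j) :
    ∑ l, (Matrix.of fun i j => G i j - u l i * v l j).det =
      ((Fintype.card K : ℝ) - Fintype.card ι) * G.det := by
  simp only [det_rank_one, Finset.sum_sub_distrib]
  rw [Finset.sum_comm]
  have : ∀ i, ∑ l, u l i * (G.updateRow i (v l)).det = G.det := by
    intro i
    have e : G i = ∑ l, u l i • v l := by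
      funext j
      simp [h i j, Finset.sum_apply]
    conv_rhs => rw [← G.updateRow_eq_self i, ← Matrix.cramer_transpose_apply, e, map_sum]
    simp only [map_smul, Finset.sum_apply, Pi.smul_apply, smul_eq_mul,
      Matrix.cramer_transpose_apply]
  simp only [this, Finset.sum_const, Finset.card_univ, nsmul_eq_mul]
  ring

end det

/-- the Gram formula -/
lemma gram (D : DFA A) {ι : Type} [Fintype ι] [DecidableEq ι] (x y : ι → Eu A) (k : ℕ) :
    ∀ {d : ℕ} {P : Eu A →L[ℝ] Eu A}, IsProj d P → Fintype.card ι + k = d →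
      D.BP d P ((∏ i, D.t (x i) (y i)) * D.Th P ^ k) =
        (k.factorial : ℝ) * (Matrix.of fun i j => ⟪P (x i), P (y j)⟫_ℝ).det := by
  induction k with
  | zero =>
    intro d P hP hd
    rw [pow_zero, mul_one, D.BP_prod hP, if_pos (by omega)]
    simp
  | succ k ih =>
    intro d P hP hd
    obtain ⟨d, rfl⟩ : ∃ d', d = d' + 1 := ⟨d - 1, by omega⟩
    obtain ⟨b, hb0, hb1, hb⟩ := hP.frame
    have h1 : D.Th P = ∑ l, D.t (b l) (b l) := by
      simpa using D.Th_frame b hb (ContinuousLinearMap.id ℝ _)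
    have hbP : ∀ l v, ⟪b l, P v⟫_ℝ = ⟪b l, v⟫_ℝ := fun l v => by rw [← hP.symm, hb1]
    have h2 : ∀ l, D.BP (d + 1) P (D.t (b l) (b l) * ((∏ i, D.t (x i) (y i)) * D.Th P ^ k)) =
        (k.factorial : ℝ) * (Matrix.of fun i j =>
          (Matrix.of fun i j => ⟪P (x i), P (y j)⟫_ℝ) i j - ⟪b l, x i⟫_ℝ * ⟪b l, y j⟫_ℝ).det := by
      intro l
      have hP' := hP.step (hb0.1 l) (hb1 l)
      have h3 := D.eqv_Th hP' P
      have e : (P - r1 (b l)).comp (P.comp (P - r1 (b l))) = P - r1 (b l) := by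
        ext1 v
        have : P ((P - r1 (b l)) v) = (P - r1 (b l)) v := by
          simp [r1_apply, hP.idem, hb1]
        rw [ContinuousLinearMap.comp_apply, ContinuousLinearMap.comp_apply, this, hP'.idem]
      rw [e] at h3
      rw [D.BP_step hP, ← ((DFA.Eqv.refl _).mul (h3.pow k)).BP, ih hP' (by omega)]
      congr 2
      ext i j
      simp only [Matrix.of_apply]
      rw [hP'.symm, hP'.idem, hP.symm (x i), hP.idem]
      simp [r1_apply, inner_sub_right, inner_smul_right, real_inner_comm, mul_comm]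
    have h4 : (∏ i, D.t (x i) (y i)) * D.Th P ^ (k + 1) =
        ∑ l, D.t (b l) (b l) * ((∏ i, D.t (x i) (y i)) * D.Th P ^ k) := by
      rw [← Finset.sum_mul, ← h1]
      ring
    rw [h4, map_sum]
    simp only [h2]
    rw [← Finset.mul_sum, sum_det_rank_one _ (fun l i => ⟪b l, x i⟫_ℝ) (fun l j => ⟪b l, y j⟫_ℝ)]
    · have : ((d + 1 : ℕ) : ℝ) - Fintype.card ι = k + 1 := by
        rw [← hd]
        push_cast
        ring
      rw [Fintype.card_fin, this, Nat.factorial_succ]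
      push_cast
      ring
    · intro i j
      simp only [Matrix.of_apply]
      rw [hb (x i), sum_inner]
      exact Finset.sum_congr rfl fun l _ => by rw [real_inner_smul_left, hbP]

lemma sum_two {X V : Type} [Fintype X] [AddCommMonoid V] (F : X → X → V) :
    ∑ v : Fin 2 → X, F (v 0) (v 1) = ∑ a, ∑ b, F a b := by
  rw [← (finTwoArrowEquiv X).symm.sum_comp, Fintype.sum_prod_type]
  rfl

/-- the monomial attached to two pairs of indices -/
noncomputable def mono (D : DFA A) (u v : Fin 2 → Fin A) : D.R :=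
  ∏ j, D.t (ee (u j)) (ee (v j))

lemma two_sq (D : DFA A) (S : Eu A →L[ℝ] Eu A) :
    (2 : ℝ) • D.Th S ^ 2 = ∑ u : Fin 2 → Fin A, ∑ v : Fin 2 → Fin A,
      (⟪S (ee (u 0)), ee (v 0)⟫_ℝ * ⟪S (ee (u 1)), ee (v 1)⟫_ℝ -
        ⟪S (ee (u 0)), ee (v 1)⟫_ℝ * ⟪S (ee (u 1)), ee (v 0)⟫_ℝ) • mono D u v := by
  have h1 : ∀ x a, D.t x (S (ee a)) = ∑ c, ⟪S (ee a), ee c⟫_ℝ • D.t x (ee c) := by
    intro x a
    conv_lhs => rw [← sum_ee (S (ee a))]
    simp [map_sum, real_inner_comm]
  have h2 : ∀ a b, ∑ c, ∑ e, (⟪S (ee a), ee c⟫_ℝ * ⟪S (ee b), ee e⟫_ℝ -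
      ⟪S (ee a), ee e⟫_ℝ * ⟪S (ee b), ee c⟫_ℝ) • (D.t (ee a) (ee c) * D.t (ee b) (ee e)) =
      (2 : ℝ) • (D.t (ee a) (S (ee a)) * D.t (ee b) (S (ee b))) := by
    intro a b
    have e1 : D.t (ee a) (S (ee a)) * D.t (ee b) (S (ee b)) = ∑ c, ∑ e,
        (⟪S (ee a), ee c⟫_ℝ * ⟪S (ee b), ee e⟫_ℝ) • (D.t (ee a) (ee c) * D.t (ee b) (ee e)) := by
      rw [h1, h1, Finset.sum_mul_sum]
      simp only [smul_mul_smul_comm]
    have e2 : D.t (ee a) (S (ee b)) * D.t (ee b) (S (ee a)) = ∑ c, ∑ e,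
        (⟪S (ee a), ee e⟫_ℝ * ⟪S (ee b), ee c⟫_ℝ) • (D.t (ee a) (ee c) * D.t (ee b) (ee e)) := by
      rw [h1, h1, Finset.sum_mul_sum]
      simp only [smul_mul_smul_comm, mul_comm ⟪S (ee b), _⟫_ℝ]
    simp only [sub_smul, Finset.sum_sub_distrib]
    rw [← e1, ← e2, D.swap (ee a) (S (ee b)), two_smul, sub_neg_eq_add]
  simp only [mono, Fin.prod_univ_two]
  rw [sum_two fun a b => ∑ v : Fin 2 → Fin A,
    (⟪S (ee a), ee (v 0)⟫_ℝ * ⟪S (ee b), ee (v 1)⟫_ℝ -
      ⟪S (ee a), ee (v 1)⟫_ℝ * ⟪S (ee b), ee (v 0)⟫_ℝ) •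
        (D.t (ee a) (ee (v 0)) * D.t (ee b) (ee (v 1)))]
  rw [D.Th_apply, sq, Finset.sum_mul_sum, Finset.smul_sum]
  refine Finset.sum_congr rfl fun a _ => ?_
  rw [Finset.smul_sum]
  refine Finset.sum_congr rfl fun b _ => ?_
  rw [← h2, ← sum_two]

lemma two_Om (D : DFA A) (S : Fin A → Eu A →L[ℝ] Eu A) :
    (2 : ℝ) • ∑ c, D.Th (S c) ^ 2 = ∑ u : Fin 2 → Fin A, ∑ v : Fin 2 → Fin A,
      curvT S (ee (u 0)) (ee (u 1)) (ee (v 0)) (ee (v 1)) • mono D u v := by
  rw [Finset.smul_sum]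
  simp only [two_sq, curvT, Finset.sum_smul]
  rw [Finset.sum_comm]
  refine Finset.sum_congr rfl fun u _ => ?_
  rw [Finset.sum_comm]

lemma contract {d : ℕ} {P : Eu A →L[ℝ] Eu A} (hP : IsProj d P)
    {S : Fin A → Eu A →L[ℝ] Eu A} (hS : ∀ c, SymTan P (S c)) (a b x y : Eu A) :
    ∑ v : Fin 2 → Fin A, curvT S a b (ee (v 0)) (ee (v 1)) *
      (⟪P x, P (ee (v 0))⟫_ℝ * ⟪P y, P (ee (v 1))⟫_ℝ) = curvT S a b x y := by
  have h1 : ∀ c z w, ∑ e, ⟪S c z, ee e⟫_ℝ * ⟪P w, P (ee e)⟫_ℝ = ⟪S c z, w⟫_ℝ := by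
    intro c z w
    have : ∀ e, ⟪P w, P (ee e)⟫_ℝ = ⟪ee e, P w⟫_ℝ := fun e => by
      rw [← hP.symm, hP.idem, real_inner_comm]
    simp only [this]
    rw [← inner_eq_sum_ee, ← hP.symm, (hS c).left]
  rw [sum_two fun e f => curvT S a b (ee e) (ee f) * (⟪P x, P (ee e)⟫_ℝ * ⟪P y, P (ee f)⟫_ℝ)]
  simp only [curvT, Finset.sum_mul]
  rw [Finset.sum_congr rfl fun e _ => Finset.sum_comm, Finset.sum_comm]
  refine Finset.sum_congr rfl fun c _ => ?_
  rw [← h1 c a x, ← h1 c b y, ← h1 c a y, ← h1 c b x, mul_comm (∑ e, ⟪S c a, ee e⟫_ℝ * ⟪P y, _⟫_ℝ),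
    Finset.sum_mul_sum, Finset.sum_mul_sum, ← Finset.sum_sub_distrib]
  refine Finset.sum_congr rfl fun e _ => ?_
  rw [← Finset.sum_sub_distrib]
  refine Finset.sum_congr rfl fun f _ => ?_
  ring

/-- squares -/
def Sq (D : DFA A) (F : D.R) : Prop :=
  ∃ (I ι : Type) (_ : Fintype I) (_ : Fintype ι) (c : I → ℝ) (x : I → ι → Eu A),
    F = ∑ p, ∑ q, (c p * c q) • ∏ i, D.t (x p i) (x q i)

variable {D : DFA A}

lemma Sq.prod {ι : Type} [Fintype ι] (x : ι → Eu A) : Sq D (∏ i, D.t (x i) (x i)) :=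
  ⟨Unit, ι, inferInstance, inferInstance, fun _ => 1, fun _ => x, by simp⟩

lemma Sq.mul {F G : D.R} (hF : Sq D F) (hG : Sq D G) : Sq D (F * G) := by
  obtain ⟨I, ι, _, _, c, x, rfl⟩ := hF
  obtain ⟨I', ι', _, _, c', x', rfl⟩ := hG
  refine ⟨I × I', ι ⊕ ι', inferInstance, inferInstance, fun p => c p.1 * c' p.2,
    fun p => Sum.elim (x p.1) (x' p.2), ?_⟩
  simp only [Fintype.sum_prod_type, Fintype.prod_sum_type, Sum.elim_inl, Sum.elim_inr,
    Finset.sum_mul_sum, smul_mul_smul_comm]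
  refine Finset.sum_congr rfl fun p _ => Finset.sum_congr rfl fun p' _ =>
    Finset.sum_congr rfl fun q _ => Finset.sum_congr rfl fun q' _ => ?_
  congr 1
  ring

lemma Sq.smul {F : D.R} (hF : Sq D F) {r : ℝ} (hr : 0 ≤ r) : Sq D (r • F) := by
  obtain ⟨I, ι, _, _, c, x, rfl⟩ := hF
  refine ⟨I, ι, inferInstance, inferInstance, fun p => √r * c p, x, ?_⟩
  simp only [Finset.smul_sum, smul_smul]
  refine Finset.sum_congr rfl fun p _ => Finset.sum_congr rfl fun q _ => ?_
  congr 1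
  linear_combination (-(c p * c q)) * Real.mul_self_sqrt hr

lemma Sq.nonneg {F : D.R} (hF : Sq D F) : 0 ≤ D.B F := by
  classical
  obtain ⟨I, ι, _, _, c, x, rfl⟩ := hF
  simp only [map_sum, map_smul, D.B_prod', smul_eq_mul]
  by_cases hc : Fintype.card ι = A
  · let e : ι ≃ Fin A := Fintype.equivFinOfCardEq hc
    let X : I → Matrix ι ι ℝ := fun p => Matrix.of fun i k => ⟪x p i, ee (e k)⟫_ℝ
    have h : ∀ p q, (Matrix.of fun i j => ⟪x p i, x q j⟫_ℝ).det = (X p).det * (X q).det := by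
      intro p q
      rw [← Matrix.det_transpose (X q), ← Matrix.det_mul]
      congr 1
      ext i j
      simp only [X, Matrix.mul_apply, Matrix.of_apply, Matrix.transpose_apply]
      rw [inner_eq_sum_ee, ← e.sum_comp]
      simp only [real_inner_comm]
    simp only [hc, if_true, h]
    have : ∑ p, ∑ q, c p * c q * ((X p).det * (X q).det) =
        (∑ p, c p * (X p).det) * ∑ p, c p * (X p).det := by
      rw [Finset.sum_mul_sum]
      exact Finset.sum_congr rfl fun p _ => Finset.sum_congr rfl fun q _ => by ring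
    rw [this]
    exact mul_self_nonneg _
  · simp [hc]

/-- sums of squares -/
def SS (D : DFA A) : AddSubmonoid D.R := AddSubmonoid.closure {F | Sq D F}

lemma Sq.ss {F : D.R} (hF : Sq D F) : F ∈ SS D := AddSubmonoid.subset_closure hF

lemma ss_mul {F G : D.R} (hF : F ∈ SS D) (hG : G ∈ SS D) : F * G ∈ SS D := by
  induction hF using AddSubmonoid.closure_induction with
  | mem F hF =>
    induction hG using AddSubmonoid.closure_induction with
    | mem G hG => exact (Sq.mul hF hG).ss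
    | zero => simp
    | add G G' _ _ h h' =>
      rw [mul_add]
      exact add_mem h h'
  | zero => simp
  | add F F' _ _ h h' =>
    rw [add_mul]
    exact add_mem h h'

lemma ss_smul {F : D.R} (hF : F ∈ SS D) {r : ℝ} (hr : 0 ≤ r) : r • F ∈ SS D := by
  induction hF using AddSubmonoid.closure_induction with
  | mem F hF => exact (Sq.smul hF hr).ss
  | zero => simp
  | add F F' _ _ h h' =>
    rw [smul_add]
    exact add_mem h h'

lemma ss_nonneg {F : D.R} (hF : F ∈ SS D) : 0 ≤ D.B F := by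
  induction hF using AddSubmonoid.closure_induction with
  | mem F hF => exact Sq.nonneg hF
  | zero => simp
  | add F F' _ _ h h' =>
    rw [map_add]
    exact add_nonneg h h'

open scoped MatrixOrder in
lemma ss_psd {M : Matrix (Fin 2 → Fin A) (Fin 2 → Fin A) ℝ} (hM : M.PosSemidef) :
    ∑ u, ∑ v, M u v • mono D u v ∈ SS D := by
  obtain ⟨B, rfl⟩ := CStarAlgebra.nonneg_iff_eq_star_mul_self.mp hM.nonneg
  have : ∑ u, ∑ v, (star B * B) u v • mono D u v =
      ∑ μ, ∑ u, ∑ v, (B μ u * B μ v) • mono D u v := by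
    simp only [Matrix.mul_apply, Matrix.star_apply, star_trivial, Finset.sum_smul]
    rw [Finset.sum_congr rfl fun u _ => Finset.sum_comm, Finset.sum_comm]
  rw [this]
  exact AddSubmonoid.sum_mem _ fun μ _ => Sq.ss ⟨Fin 2 → Fin A, Fin 2, inferInstance,
    inferInstance, B μ, fun u j => ee (u j), rfl⟩

end EWeylAux

open EWeylAux

theorem DFA.BP_weyl (D : DFA A) {d p : ℕ} {P : Eu A →L[ℝ] Eu A} (hP : IsProj d P)
    (S : Fin A → Eu A →L[ℝ] Eu A) (hS : ∀ c, SymTan P (S c)) (hp : 2 * p ≤ d) :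
    2 ^ p * D.BP d P ((∑ c, D.Th (S c) ^ 2) ^ p * D.Th P ^ (d - 2 * p)) =
      ((d - 2 * p).factorial : ℝ) * weyl p (curvT S) := by
  classical
  have h1 : 2 ^ p * D.BP d P ((∑ c, D.Th (S c) ^ 2) ^ p * D.Th P ^ (d - 2 * p)) =
      D.BP d P (((2 : ℝ) • ∑ c, D.Th (S c) ^ 2) ^ p * D.Th P ^ (d - 2 * p)) := by
    rw [smul_pow, smul_mul_assoc, map_smul, smul_eq_mul]
  rw [h1, two_Om, Fintype.sum_pow, Finset.sum_mul, map_sum, weyl, Finset.mul_sum,
    ← (Equiv.curry (Fin p) (Fin 2) (Fin A)).sum_comp]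
  refine Finset.sum_congr rfl fun α _ => ?_
  rw [Finset.prod_univ_sum, Fintype.piFinset_univ, Finset.sum_mul, map_sum]
  have h2 : ∀ β : Fin p → Fin 2 → Fin A, D.BP d P ((∏ i,
      curvT S (ee (Equiv.curry (Fin p) (Fin 2) (Fin A) α i 0))
        (ee (Equiv.curry (Fin p) (Fin 2) (Fin A) α i 1)) (ee (β i 0)) (ee (β i 1)) •
        mono D (Equiv.curry (Fin p) (Fin 2) (Fin A) α i) (β i)) * D.Th P ^ (d - 2 * p)) =
      ((d - 2 * p).factorial : ℝ) * ∑ σ : Equiv.Perm (Fin p × Fin 2),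
        ((Equiv.Perm.sign σ : ℤ) : ℝ) * ∏ i, curvT S (ee (α (i, 0))) (ee (α (i, 1)))
          (ee (β i 0)) (ee (β i 1)) * (⟪P (ee (α (σ (i, 0)))), P (ee (β i 0))⟫_ℝ *
            ⟪P (ee (α (σ (i, 1)))), P (ee (β i 1))⟫_ℝ) := by
    intro β
    have e : ∏ i, mono D (Equiv.curry (Fin p) (Fin 2) (Fin A) α i) (β i) =
        ∏ u : Fin p × Fin 2, D.t (ee (α u)) (ee (β u.1 u.2)) := by
      rw [Fintype.prod_prod_type]
      rfl
    rw [Finset.prod_smul, smul_mul_assoc, map_smul, e,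
      EWeylAux.gram D _ _ _ hP (by simp; omega), Matrix.det_apply', smul_eq_mul, mul_left_comm,
      Finset.mul_sum]
    congr 1
    refine Finset.sum_congr rfl fun σ _ => ?_
    rw [Finset.prod_mul_distrib, Fintype.prod_prod_type, mul_left_comm]
    simp only [Fin.prod_univ_two, Matrix.of_apply]
    rfl
  simp only [h2]
  rw [← Finset.mul_sum, Finset.sum_comm]
  congr 1
  refine Finset.sum_congr rfl fun σ _ => ?_
  rw [← Finset.mul_sum]
  congr 1
  simp only [← contract hP hS (ee (α (_, 0))) (ee (α (_, 1))) (ee (α (σ (_, 0))))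
    (ee (α (σ (_, 1))))]
  rw [Finset.prod_univ_sum, Fintype.piFinset_univ]

/-- positivity of all powers when the shifted curvature operator is nonnegative -/
theorem DFA.pos_op (D : DFA A) {d : ℕ} {P : Eu A →L[ℝ] Eu A} (hP : IsProj d P)
    (S : Fin A → Eu A →L[ℝ] Eu A) (hS : ∀ c, SymTan P (S c))
    (h : ∀ ω : Fin A → Fin A → ℝ,
      -(∑ a, ∑ b, ∑ c, ∑ e, gramT P (ee a) (ee b) (ee c) (ee e) * ω a b * ω c e) ≤
        ∑ a, ∑ b, ∑ c, ∑ e, curvT S (ee a) (ee b) (ee c) (ee e) * ω a b * ω c e)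
    (k : ℕ) (F : D.R) (hF : D.Cone (∑ c, D.Th (S c) ^ 2 + D.Th P ^ 2) k F) :
    0 ≤ D.BP d P F := by
  classical
  let M : Matrix (Fin 2 → Fin A) (Fin 2 → Fin A) ℝ := Matrix.of fun u v =>
    curvT S (ee (u 0)) (ee (u 1)) (ee (v 0)) (ee (v 1)) +
      gramT P (ee (u 0)) (ee (u 1)) (ee (v 0)) (ee (v 1))
  have hM : M.PosSemidef := by
    refine .of_dotProduct_mulVec_nonneg ?_ fun x => ?_
    · ext u v
      simp only [M, Matrix.conjTranspose_apply, Matrix.of_apply, star_trivial, curvT, gramT]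
      congr 1
      · refine Finset.sum_congr rfl fun c _ => ?_
        simp only [(hS c).symm (ee (v _)), real_inner_comm (S c _)]
        ring
      · simp only [real_inner_comm (P (ee (u _))) (P (ee (v _)))]
        ring
    · have h1 := h fun a b => x ![a, b]
      have e : ∀ T : Eu A → Eu A → Eu A → Eu A → ℝ,
          ∑ a, ∑ b, ∑ c, ∑ e, T (ee a) (ee b) (ee c) (ee e) * x ![a, b] * x ![c, e] =
            ∑ u : Fin 2 → Fin A, ∑ v : Fin 2 → Fin A,
              T (ee (u 0)) (ee (u 1)) (ee (v 0)) (ee (v 1)) * x u * x v := by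
        intro T
        rw [← sum_two]
        refine Finset.sum_congr rfl fun u _ => ?_
        rw [← sum_two]
        refine Finset.sum_congr rfl fun v _ => ?_
        have e1 : ∀ w : Fin 2 → Fin A, ![w 0, w 1] = w := fun w => by
          ext j
          fin_cases j <;> rfl
        rw [e1, e1]
      rw [e, e, neg_le_iff_add_nonneg, ← Finset.sum_add_distrib] at h1
      refine h1.trans (le_of_eq (Finset.sum_congr rfl fun u _ => ?_))
      simp only [M, Matrix.mulVec, dotProduct, Matrix.of_apply, star_trivial, Finset.mul_sum,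
        ← Finset.sum_add_distrib]
      exact Finset.sum_congr rfl fun v _ => by ring
  have hρ : ∑ c, D.Th (S c) ^ 2 + D.Th P ^ 2 ∈ SS D := by
    have h1 := ss_smul (ss_psd (D := D) hM) (show (0 : ℝ) ≤ 1 / 2 by norm_num)
    have e : ∑ u, ∑ v, M u v • mono D u v = (2 : ℝ) • (∑ c, D.Th (S c) ^ 2 + D.Th P ^ 2) := by
      rw [smul_add, two_Om, two_sq, ← Finset.sum_add_distrib]
      refine Finset.sum_congr rfl fun u _ => ?_
      rw [← Finset.sum_add_distrib]
      refine Finset.sum_congr rfl fun v _ => ?_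
      have e1 : ∀ a c, ⟪P a, P c⟫_ℝ = ⟪P a, c⟫_ℝ := fun a c => by rw [← hP.symm, hP.idem]
      simp only [M, Matrix.of_apply, gramT, e1, add_smul]
    rw [e, smul_smul] at h1
    simpa using h1
  have hSS : F ∈ SS D := by
    induction hF with
    | zero => simp
    | one => simpa using (Sq.prod (D := D) (ι := Empty) Empty.elim).ss
    | sq v => simpa using (Sq.prod (D := D) fun _ : Unit => v).ss
    | rho => exact hρ
    | smul c hc _ ih => exact ss_smul ih hc
    | add _ _ h1 h2 => exact add_mem h1 h2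
    | mul _ _ h1 h2 => exact ss_mul h1 h2
    | mono _ _ ih => exact ih
  obtain ⟨b, -, -, hb⟩ := hP.compl.frame
  rw [D.BP_apply, D.nu_frame hb]
  exact ss_nonneg (ss_mul hSS (Sq.prod b).ss)

end Pool.Agent.AlEmb
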