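import Pool.Agent.Lib.MP_3fa020_gt.EDefs2
import Pool.Agent.Lib.MP_3fa020_gt.ETube
import Pool.Agent.Lib.MP_3fa020_gt.EDist
import Pool.Agent.Lib.MP_3fa020_gt.EAlg0
import Pool.Agent.Lib.MP_3fa020_gt.EWeyl
import Pool.Agent.Lib.MP_3fa020_gt.EPos

/-!
From the normalised global bound to the bounds on the Lipschitz-Killing curvature integrals.
-/

namespace Pool.Agent.AlEmb

open Set Filter Topology MeasureTheory
open scoped InnerProductSpace ContDiff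

namespace EFinalAux

variable {A n : ℕ}

lemma fd_scale (X : Emb A n) {l : ℝ} (hl : 0 < l) (z : Eu A) :
    fderiv ℝ (fun z => l • X.pr (l⁻¹ • z)) z = X.P (l⁻¹ • z) := by
  have h1 : HasFDerivAt (fun z : Eu A => l⁻¹ • z) (l⁻¹ • ContinuousLinearMap.id ℝ (Eu A)) z :=
    (hasFDerivAt_id z).const_smul l⁻¹
  have h2 : HasFDerivAt (fun z => l • X.pr (l⁻¹ • z))
      (l • (X.P (l⁻¹ • z)).comp (l⁻¹ • ContinuousLinearMap.id ℝ (Eu A))) z :=
    ((X.pr_hasFDerivAt (l⁻¹ • z)).comp z h1).const_smul l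
  rw [h2.fderiv]
  ext1 v
  simp [smul_smul, hl.ne']

lemma norm_scale {l δ : ℝ} (hl : 0 < l) {x z : Eu A} (h : ‖z - x‖ < l * δ) :
    ‖l⁻¹ • z - l⁻¹ • x‖ < δ := by
  rw [← smul_sub, norm_smul, norm_inv, Real.norm_of_nonneg hl.le, inv_mul_lt_iff₀ hl]
  exact h

/-- the submanifold scaled by the factor `l` -/
noncomputable def scale (X : Emb A n) {l : ℝ} (hl : 0 < l) : Emb A n where
  M := (fun z => l⁻¹ • z) ⁻¹' X.M
  cpt := (Homeomorph.smulOfNeZero l⁻¹ (inv_ne_zero hl.ne')).isCompact_preimage.2 X.cpt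
  pr := fun z => l • X.pr (l⁻¹ • z)
  smooth := (X.smooth.comp (contDiff_id.const_smul l⁻¹)).const_smul l
  δ := l * X.δ
  δ_pos := mul_pos hl X.δ_pos
  maps := fun x hx z hz => by
    have := X.maps _ hx _ (norm_scale hl hz)
    simpa [smul_smul, hl.ne'] using this
  fix := fun x hx => by
    have := X.fix _ hx
    simp only [this, smul_smul, mul_inv_cancel₀ hl.ne', one_smul]
  symm := fun x hx v w => by
    rw [fd_scale X hl]
    exact X.symm _ hx v w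
  normal := fun x hx z hz => by
    rw [fd_scale X hl]
    have h1 := X.normal _ hx _ (norm_scale hl hz)
    have h2 : z - l • X.pr (l⁻¹ • z) = l • (l⁻¹ • z - X.pr (l⁻¹ • z)) := by
      rw [smul_sub, smul_smul, mul_inv_cancel₀ hl.ne', one_smul]
    rw [h2, map_smul, smul_smul, inv_mul_cancel₀ hl.ne', one_smul]
    change l • fderiv ℝ X.pr _ _ = 0
    rw [h1, smul_zero]
  dim := fun x hx => by
    rw [fd_scale X hl]
    exact X.dim _ hx

lemma scale_P (X : Emb A n) {l : ℝ} (hl : 0 < l) (z : Eu A) :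
    (scale X hl).P z = X.P (l⁻¹ • z) := fd_scale X hl z

lemma scale_Sop (X : Emb A n) {l : ℝ} (hl : 0 < l) (z : Eu A) (c : Fin A) :
    Sop (scale X hl).P z c = l⁻¹ • Sop X.P (l⁻¹ • z) c := by
  have e : (scale X hl).P = fun z => X.P (l⁻¹ • z) := funext (scale_P X hl)
  have h1 : HasFDerivAt (fun z : Eu A => l⁻¹ • z) (l⁻¹ • ContinuousLinearMap.id ℝ (Eu A)) z :=
    (hasFDerivAt_id z).const_smul l⁻¹
  have h2 : HasFDerivAt (fun z => X.P (l⁻¹ • z))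
      ((fderiv ℝ X.P (l⁻¹ • z)).comp (l⁻¹ • ContinuousLinearMap.id ℝ (Eu A))) z :=
    (X.P_diff (l⁻¹ • z)).hasFDerivAt.comp z h1
  ext1 v
  rw [e, Sop_apply, h2.fderiv]
  simp [Sop_apply]

lemma curvT_smul (S : Fin A → Eu A →L[ℝ] Eu A) (r : ℝ) (a b c d : Eu A) :
    curvT (fun i => r • S i) a b c d = r ^ 2 * curvT S a b c d := by
  simp only [curvT, smul_apply, real_inner_smul_left, Finset.mul_sum]
  exact Finset.sum_congr rfl fun i _ => by ring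

lemma scale_curv (X : Emb A n) {l : ℝ} (hl : 0 < l) (z a b c d : Eu A) :
    curvT (Sop (scale X hl).P z) a b c d = l⁻¹ ^ 2 * curvT (Sop X.P (l⁻¹ • z)) a b c d := by
  rw [← curvT_smul]
  congr 1
  exact funext (scale_Sop X hl z)

lemma weyl_smul (k : ℕ) (T T' : Eu A → Eu A → Eu A → Eu A → ℝ) (r : ℝ)
    (h : ∀ a b c d, T' a b c d = r * T a b c d) : weyl k T' = r ^ k * weyl k T := by
  simp only [weyl, h, Finset.prod_mul_distrib, Finset.prod_const, Finset.card_univ,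
    Fintype.card_fin, Finset.mul_sum]
  exact Finset.sum_congr rfl fun a _ => Finset.sum_congr rfl fun σ _ => by ring

lemma riem_eq (X : Emb A n) {x : Eu A} (hx : x ∈ X.M) (a b c d : Eu A) :
    riem X.M x a b c d = curvT (Sop X.P x) a b c d := by
  simp only [riem, curvT, X.sff_eq hx, (Lev.base hx).inner_Sop, Finset.sum_sub_distrib, Emb.II]
  rw [inner_eq_sum_ee, inner_eq_sum_ee (fderiv ℝ X.P x (X.P x a) (X.P x d))]
  simp only [real_inner_comm (ee _)]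

lemma gram_eq (X : Emb A n) {x : Eu A} (hx : x ∈ X.M) (a b c d : Eu A) :
    gram X.M x a b c d = gramT (X.P x) a b c d := by
  simp only [gram, gramT, X.proj_eq hx]

lemma gramT_nonneg (P : Eu A →L[ℝ] Eu A) (v w : Eu A) : 0 ≤ gramT P v w v w := by
  have := real_inner_mul_inner_self_le (P v) (P w)
  rw [gramT, real_inner_comm (P v) (P w)]
  linarith

lemma sum6 (f : Fin A → Fin A → Fin A → Fin A → Fin A → Fin A → ℝ) :
    ∑ a, ∑ b, ∑ c, ∑ d, ∑ i, ∑ j, f a b c d i j = ∑ i, ∑ j, ∑ a, ∑ b, ∑ c, ∑ d, f a b c d i j := by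
  calc ∑ a, ∑ b, ∑ c, ∑ d, ∑ i, ∑ j, f a b c d i j
      = ∑ u : Fin A × Fin A × Fin A × Fin A, ∑ v : Fin A × Fin A,
          f u.1 u.2.1 u.2.2.1 u.2.2.2 v.1 v.2 := by simp only [Fintype.sum_prod_type]
    _ = ∑ v : Fin A × Fin A, ∑ u : Fin A × Fin A × Fin A × Fin A,
          f u.1 u.2.1 u.2.2.1 u.2.2.2 v.1 v.2 := Finset.sum_comm
    _ = _ := by simp only [Fintype.sum_prod_type]

lemma mul22 (f g : Fin A → Fin A → ℝ) :
    (∑ a, ∑ b, f a b) * (∑ c, ∑ d, g c d) = ∑ a, ∑ b, ∑ c, ∑ d, f a b * g c d := by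
  simp only [Finset.sum_mul]
  simp only [Finset.mul_sum]

lemma quad_nonneg (p u : Fin A → Fin A → ℝ) :
    0 ≤ ∑ a, ∑ b, ∑ c, ∑ d, ((∑ i, p a i * p c i) * (∑ j, p b j * p d j) -
      (∑ i, p a i * p d i) * (∑ j, p b j * p c j)) * u a b * u c d := by
  obtain ⟨η, hη⟩ : ∃ η : Fin A → Fin A → ℝ, ∀ i j, η i j = ∑ a, ∑ b, p a i * p b j * u a b :=
    ⟨_, fun _ _ => rfl⟩
  have h1 : ∑ a, ∑ b, ∑ c, ∑ d, ((∑ i, p a i * p c i) * (∑ j, p b j * p d j) -
      (∑ i, p a i * p d i) * (∑ j, p b j * p c j)) * u a b * u c d =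
      ∑ i, ∑ j, (η i j * η i j - η i j * η j i) := by
    simp only [hη, mul22, ← Finset.sum_sub_distrib]
    rw [← sum6]
    refine Finset.sum_congr rfl fun a _ => Finset.sum_congr rfl fun b _ =>
      Finset.sum_congr rfl fun c _ => Finset.sum_congr rfl fun d _ => ?_
    rw [Finset.sum_mul_sum, Finset.sum_mul_sum]
    simp only [← Finset.sum_sub_distrib, Finset.sum_mul]
    exact Finset.sum_congr rfl fun i _ => Finset.sum_congr rfl fun j _ => by ring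
  have h2 : ∑ i, ∑ j, η j i * η j i = ∑ i, ∑ j, η i j * η i j := Finset.sum_comm
  have h3 : 0 ≤ ∑ i, ∑ j, (η i j * η i j - 2 * (η i j * η j i) + η j i * η j i) :=
    Finset.sum_nonneg fun i _ => Finset.sum_nonneg fun j _ => by
      nlinarith [sq_nonneg (η i j - η j i)]
  rw [h1]
  simp only [Finset.sum_add_distrib, Finset.sum_sub_distrib, ← Finset.mul_sum] at h3 ⊢
  linarith

lemma gramT_quad (P : Eu A →L[ℝ] Eu A) (u : Fin A → Fin A → ℝ) :
    0 ≤ ∑ a, ∑ b, ∑ c, ∑ d, gramT P (ee a) (ee b) (ee c) (ee d) * u a b * u c d := by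
  have e : ∀ v w : Eu A, ⟪v, w⟫_ℝ = ∑ i, ⟪v, ee i⟫_ℝ * ⟪w, ee i⟫_ℝ := fun v w => by
    rw [inner_eq_sum_ee]
    simp only [real_inner_comm (ee _)]
  refine (quad_nonneg (fun a i => ⟪P (ee a), ee i⟫_ℝ) u).trans_eq ?_
  simp only [← e, gramT]

lemma bil (S : Eu A →L[ℝ] Eu A) (v w : Eu A) :
    ⟪S v, w⟫_ℝ = ∑ a, ∑ c, ⟪S (ee a), ee c⟫_ℝ * ⟪ee a, v⟫_ℝ * ⟪ee c, w⟫_ℝ := by
  conv_lhs => rw [← sum_ee v, ← sum_ee w]
  simp only [map_sum, map_smul, sum_inner, inner_sum, real_inner_smul_left, real_inner_smul_right]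
  rw [Finset.sum_comm]
  exact Finset.sum_congr rfl fun a _ => Finset.sum_congr rfl fun c _ => by ring

lemma cv_exp (S : Eu A →L[ℝ] Eu A) (v w : Eu A) :
    ⟪S v, v⟫_ℝ * ⟪S w, w⟫_ℝ - ⟪S v, w⟫_ℝ * ⟪S w, v⟫_ℝ =
      ∑ a, ∑ b, ∑ c, ∑ d, (⟪S (ee a), ee c⟫_ℝ * ⟪S (ee b), ee d⟫_ℝ -
        ⟪S (ee a), ee d⟫_ℝ * ⟪S (ee b), ee c⟫_ℝ) * (⟪ee a, v⟫_ℝ * ⟪ee b, w⟫_ℝ) *
          (⟪ee c, v⟫_ℝ * ⟪ee d, w⟫_ℝ) := by
  rw [bil S v v, bil S w w, bil S v w, bil S w v, mul22, mul22, ← Finset.sum_sub_distrib]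
  refine Finset.sum_congr rfl fun a _ => ?_
  have e1 : ∀ f : Fin A → Fin A → Fin A → ℝ, ∑ c, ∑ b, ∑ d, f b c d = ∑ b, ∑ c, ∑ d, f b c d :=
    fun f => Finset.sum_comm
  have e2 : ∀ f : Fin A → Fin A → Fin A → ℝ, ∑ d, ∑ b, ∑ c, f b c d = ∑ b, ∑ c, ∑ d, f b c d :=
    fun f => Finset.sum_comm.trans (Finset.sum_congr rfl fun _ _ => Finset.sum_comm)
  refine (congrArg₂ (· - ·) (e1 fun b c d => _) (e2 fun b c d => _)).trans ?_
  simp only [← Finset.sum_sub_distrib]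
  exact Finset.sum_congr rfl fun b _ => Finset.sum_congr rfl fun c _ =>
    Finset.sum_congr rfl fun d _ => by ring

lemma sum5 (f : Fin A → Fin A → Fin A → Fin A → Fin A → ℝ) :
    ∑ a, ∑ b, ∑ c, ∑ d, ∑ i, f a b c d i = ∑ i, ∑ a, ∑ b, ∑ c, ∑ d, f a b c d i := by
  calc ∑ a, ∑ b, ∑ c, ∑ d, ∑ i, f a b c d i
      = ∑ u : Fin A × Fin A × Fin A × Fin A, ∑ i, f u.1 u.2.1 u.2.2.1 u.2.2.2 i := by
        simp only [Fintype.sum_prod_type]
    _ = ∑ i, ∑ u : Fin A × Fin A × Fin A × Fin A, f u.1 u.2.1 u.2.2.1 u.2.2.2 i :=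
        Finset.sum_comm
    _ = _ := by simp only [Fintype.sum_prod_type]

lemma sec_of_op (X : Emb A n) {κ : ℝ} (h : CurvOpGE κ X.M) : SecGE κ X.M := by
  intro x hx v w
  have h1 := h x hx fun a b => ⟪ee a, v⟫_ℝ * ⟪ee b, w⟫_ℝ
  have hP := Emb.isProj hx
  have e : ∀ a b, ⟪X.P x a, X.P x b⟫_ℝ = ⟪X.P x a, b⟫_ℝ := fun a b => by rw [← hP.symm, hP.idem]
  simp only [riem_eq X hx, gram_eq X hx, gramT, curvT, e, Finset.sum_mul] at h1 ⊢
  rw [sum5] at h1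
  simp only [← cv_exp] at h1
  exact h1

lemma scale_sec (X : Emb A n) {l κ : ℝ} (hl : 0 < l) (hκ : -κ ≤ l ^ 2) (h : SecGE κ X.M) :
    SecGE (-1) (scale X hl).M := by
  intro z hz v w
  have h1 := h _ hz v w
  rw [riem_eq X hz, gram_eq X hz] at h1
  rw [riem_eq _ hz, gram_eq _ hz, scale_curv, scale_P, inv_pow, le_inv_mul_iff₀ (by positivity)]
  nlinarith [gramT_nonneg (X.P (l⁻¹ • z)) v w]

lemma scale_op (X : Emb A n) {l κ : ℝ} (hl : 0 < l) (hκ : -κ ≤ l ^ 2) (h : CurvOpGE κ X.M) :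
    CurvOpGE (-1) (scale X hl).M := by
  intro z hz u
  have h1 := h _ hz u
  simp only [riem_eq X hz, gram_eq X hz] at h1
  simp only [riem_eq _ hz, gram_eq _ hz, scale_curv, scale_P, mul_assoc (l⁻¹ ^ 2),
    ← Finset.mul_sum]
  rw [inv_pow, le_inv_mul_iff₀ (by positivity)]
  nlinarith [gramT_quad (X.P (l⁻¹ • z)) u]

lemma scale_diam (X : Emb A n) {l D : ℝ} (hl : 0 < l) (h : DiamLE D X.M) :
    DiamLE (l * D) (scale X hl).M := by
  intro x hx y hy ε hε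
  obtain ⟨γ, h1, h2, h3, h4, h5⟩ := h _ hx _ hy (ε / l) (div_pos hε hl)
  refine ⟨(fun z => l • z) ∘ γ, (continuous_const_smul l).comp_continuousOn h1, ?_, ?_, ?_, ?_⟩
  · simp [h2, smul_smul, hl.ne']
  · simp [h3, smul_smul, hl.ne']
  · intro t ht
    have := h4 ht
    change l⁻¹ • l • γ t ∈ X.M
    rwa [smul_smul, inv_mul_cancel₀ hl.ne', one_smul]
  · refine (((lipschitzWith_smul (β := Eu A) l).lipschitzOnWith (s := univ)).comp_eVariationOn_le
      (mapsTo_univ _ _)).trans ?_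
    have e : ENNReal.ofReal (l * D + ε) = (‖l‖₊ : ENNReal) * ENNReal.ofReal (D + ε / l) := by
      rw [← enorm_eq_nnnorm, Real.enorm_eq_ofReal hl.le, ← ENNReal.ofReal_mul hl.le]
      congr 1
      field_simp
    rw [e]
    gcongr

lemma sec_Sec (X : Emb A n) (h : SecGE (-1) X.M) : X.Sec := by
  intro x hx v w hv hw
  have h1 := h x hx v w
  simp only [riem, gram, X.sff_eq hx, X.proj_eq hx, hv, hw, X.II_symm x w v,
    real_inner_self_eq_norm_sq, real_inner_comm v w] at h1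
  linarith

lemma posK_sec (D : DFA A) (X : Emb A n) (h : SecGE (-1) X.M) : D.PosK X 2 := by
  intro x hx F hF
  refine D.pos_sec (Emb.isProj hx) (Sop X.P x) (Lev.base hx).symTan_Sop (fun v w => ?_) F hF
  have h1 := h x hx v w
  rw [riem_eq X hx, gram_eq X hx] at h1
  linarith

lemma posK_op (D : DFA A) (X : Emb A n) (h : CurvOpGE (-1) X.M) (k : ℕ) : D.PosK X k := by
  intro x hx F hF
  refine D.pos_op (Emb.isProj hx) (Sop X.P x) (Lev.base hx).symTan_Sop (fun u => ?_) k F hF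
  have h1 := h x hx u
  simp only [riem_eq X hx, gram_eq X hx] at h1
  linarith

lemma weyl_cont (X : Emb A n) (k : ℕ) : Continuous fun x => weyl k (curvT (Sop X.P x)) := by
  have hS : ∀ (c : Fin A) (v w : Eu A), Continuous fun y => ⟪Sop X.P y c v, w⟫_ℝ := fun c v w => by
    have h1 : Continuous fun y => Sop X.P y c := continuous_iff_continuousAt.2 fun y =>
      (cda_Sop X.P_smooth.contDiffAt c).continuousAt
    exact (h1.clm_apply continuous_const).inner continuous_const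
  unfold weyl curvT
  refine continuous_finsetSum _ fun a _ => continuous_finsetSum _ fun σ _ =>
    continuous_const.mul (continuous_finsetProd _ fun i _ => continuous_finsetSum _ fun c _ => ?_)
  exact ((hS _ _ _).mul (hS _ _ _)).sub ((hS _ _ _).mul (hS _ _ _))

lemma pointwise (D : DFA A) (X : Emb A n) {k k' : ℕ} (hpos : D.PosK X k') (hk : k ≤ k')
    (hn : 2 * k ≤ n) {x : Eu A} (hx : x ∈ X.M) :
    (∀ p ≤ k, 0 ≤ D.BP n (X.P x) (D.Rh X x ^ p * D.Th (X.P x) ^ (n - 2 * p))) ∧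
    |weyl k (curvT (Sop X.P x))| ≤ ∑ p ∈ Finset.range (k + 1), (2 ^ k * (k.choose p : ℝ)) *
      D.BP n (X.P x) (D.Rh X x ^ p * D.Th (X.P x) ^ (n - 2 * p)) := by
  have hP := Emb.isProj hx
  have hth : D.Cone (D.Rh X x) 0 (D.Th (X.P x)) :=
    D.Th_cone _ hP.symm fun v => by rw [hP.inner_self]; positivity
  have hρ : D.Cone (D.Rh X x) 1 (D.Rh X x) := DFA.Cone.rho
  refine ⟨fun p hp => hpos x hx _ (((hρ.pow1 p).mul0' (hth.pow0 _)).mono (hp.trans hk)), ?_⟩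
  have h1 : D.Dom (D.Rh X x) 1 (D.Om X.P x) (D.Rh X x + D.Th (X.P x) ^ 2) :=
    ((DFA.Dom.refl hρ).sub (DFA.Dom.refl ((hth.pow0 2).mono zero_le_one))).cast
      (by rw [DFA.Rh]; ring) rfl
  have h2 := ((h1.pow1 k).mul0' (DFA.Dom.refl (hth.pow0 (n - 2 * k)))).abs_le (hpos x hx) hk
  have h3 := D.BP_weyl hP (Sop X.P x) (Lev.base hx).symTan_Sop hn
  have h4 : (D.Rh X x + D.Th (X.P x) ^ 2) ^ k * D.Th (X.P x) ^ (n - 2 * k) =
      ∑ p ∈ Finset.range (k + 1),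
        (k.choose p : ℝ) • (D.Rh X x ^ p * D.Th (X.P x) ^ (n - 2 * p)) := by
    rw [add_pow, Finset.sum_mul]
    refine Finset.sum_congr rfl fun p hp => ?_
    have hp' : p ≤ k := Nat.lt_succ_iff.1 (Finset.mem_range.1 hp)
    have e : n - 2 * p = 2 * (k - p) + (n - 2 * k) := by omega
    rw [e, pow_add, pow_mul, Nat.cast_smul_eq_nsmul, nsmul_eq_mul]
    ring
  rw [h4, map_sum] at h2
  simp only [map_smul, smul_eq_mul] at h2
  simp only [mul_assoc, ← Finset.mul_sum]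
  have h5 : (1 : ℝ) ≤ ((n - 2 * k).factorial : ℝ) := by
    exact_mod_cast Nat.factorial_pos _
  refine (le_mul_of_one_le_left (abs_nonneg _) h5).trans ?_
  rw [← abs_of_nonneg (zero_le_one.trans h5), ← abs_mul, ← h3, abs_mul,
    abs_of_nonneg (by positivity)]
  exact mul_le_mul_of_nonneg_left h2 (by positivity)

lemma lint_ctx {k k' : ℕ} (S : Ctx n k') (hk : k ≤ k') (hn : 2 * k ≤ n) {C : ℝ}
    (h : ∀ p ≤ k', 2 * p ≤ n → S.X.Maj (fun x => S.D.BP n (S.X.P x)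
      (S.D.Rh S.X x ^ p * S.D.Th (S.X.P x) ^ (n - 2 * p))) C) :
    ∫⁻ x, ENNReal.ofReal |weyl k (curvT (Sop S.X.P x))| ∂S.X.μ ≤
      ∑ p ∈ Finset.range (k + 1), ENNReal.ofReal (2 ^ k * (k.choose p : ℝ)) * ENNReal.ofReal C := by
  have h1 : ∀ p : ℕ, ∃ g : Eu S.A → ENNReal, p ≤ k → AEMeasurable g S.X.μ ∧
      (∀ x ∈ S.X.M, ENNReal.ofReal (S.D.BP n (S.X.P x)
        (S.D.Rh S.X x ^ p * S.D.Th (S.X.P x) ^ (n - 2 * p))) ≤ g x) ∧
      ∫⁻ x, g x ∂S.X.μ ≤ ENNReal.ofReal C := by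
    intro p
    by_cases hp : p ≤ k
    · obtain ⟨_, g, hg⟩ := h p (hp.trans hk) (by omega)
      exact ⟨g, fun _ => hg⟩
    · exact ⟨0, fun h' => absurd h' hp⟩
  choose g hg using h1
  have hle : ∀ p ∈ Finset.range (k + 1), p ≤ k := fun p hp =>
    Nat.lt_succ_iff.1 (Finset.mem_range.1 hp)
  calc ∫⁻ x, ENNReal.ofReal |weyl k (curvT (Sop S.X.P x))| ∂S.X.μ
      ≤ ∫⁻ x, ∑ p ∈ Finset.range (k + 1),
          ENNReal.ofReal (2 ^ k * (k.choose p : ℝ)) * g p x ∂S.X.μ := by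
        refine setLIntegral_mono' S.X.measurableSet_M fun x hx => ?_
        obtain ⟨h2, h3⟩ := pointwise S.D S.X S.pos hk hn hx
        refine (ENNReal.ofReal_le_ofReal h3).trans ?_
        rw [ENNReal.ofReal_sum_of_nonneg fun p hp =>
          mul_nonneg (by positivity) (h2 p (hle p hp))]
        refine Finset.sum_le_sum fun p hp => ?_
        rw [ENNReal.ofReal_mul (by positivity)]
        exact mul_le_mul_right ((hg p (hle p hp)).2.1 x hx) _
    _ = ∑ p ∈ Finset.range (k + 1),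
          ENNReal.ofReal (2 ^ k * (k.choose p : ℝ)) * ∫⁻ x, g p x ∂S.X.μ := by
        rw [lintegral_finsetSum' _ fun p hp => (hg p (hle p hp)).1.const_mul _]
        exact Finset.sum_congr rfl fun p hp => lintegral_const_mul'' _ (hg p (hle p hp)).1
    _ ≤ _ := Finset.sum_le_sum fun p hp => mul_le_mul_right (hg p (hle p hp)).2.2 _

open scoped Pointwise in
lemma lint_scale (X : Emb A n) {l : ℝ} (hl : 0 < l) (hl1 : 1 ≤ l) (k : ℕ) :
    ∫⁻ x, ENNReal.ofReal |weyl k (curvT (Sop X.P x))| ∂X.μ ≤ ENNReal.ofReal ((l ^ 2) ^ k) *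
      ∫⁻ x, ENNReal.ofReal |weyl k (curvT (Sop (scale X hl).P x))| ∂(scale X hl).μ := by
  have hψ : Measurable fun z : Eu A => l⁻¹ • z := (continuous_const_smul l⁻¹).measurable
  have h1 : (μHE[n] : Measure (Eu A)) ≤ (μHE[n] : Measure (Eu A)).map fun z => l⁻¹ • z := by
    refine Measure.le_iff.2 fun s hs => ?_
    rw [Measure.map_apply hψ hs, Set.preimage_smul_inv₀ hl.ne',
      Measure.euclideanHausdorffMeasure_smul₀ n hl.ne', ENNReal.smul_def, smul_eq_mul]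
    refine le_mul_of_one_le_left' ?_
    have : (1 : NNReal) ≤ ‖l‖₊ := by
      rw [← NNReal.coe_le_coe, coe_nnnorm, Real.norm_of_nonneg hl.le]
      exact hl1
    exact_mod_cast one_le_pow₀ this
  have hF : Measurable fun x => ENNReal.ofReal |weyl k (curvT (Sop X.P x))| :=
    (weyl_cont X k).abs.measurable.ennreal_ofReal
  refine (lintegral_mono' (Measure.restrict_mono le_rfl h1) le_rfl).trans ?_
  rw [setLIntegral_map X.measurableSet_M hF hψ,
    ← lintegral_const_mul' _ _ ENNReal.ofReal_ne_top]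
  refine le_of_eq (lintegral_congr fun z => ?_)
  rw [weyl_smul k _ _ _ (scale_curv X hl z), ← ENNReal.ofReal_mul (by positivity), abs_mul,
    abs_of_nonneg (a := (l⁻¹ ^ 2) ^ k) (by positivity), ← mul_assoc, ← mul_pow, ← mul_pow,
    mul_inv_cancel₀ hl.ne', one_pow, one_pow, one_mul]

lemma final {k k' : ℕ} (h : MainBound n k') (hk : k ≤ k') (hn : 2 * k ≤ n) {D l : ℝ}
    (hD : 0 < D) (hl : 0 < l) (hl1 : 1 ≤ l) : ∃ C : ℝ, ∀ (A : ℕ) (X : Emb A n), DiamLE D X.M →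
      (scale X hl).Sec → (∀ F : DFA A, F.PosK (scale X hl) k') →
      IntegrableOn (lk k X.M) X.M (μHE[n]) ∧ ∫ x in X.M, |lk k X.M x| ∂(μHE[n]) ≤ C := by
  obtain ⟨C, hC⟩ := h (l * D)
  obtain ⟨K, hK⟩ : ∃ K : ENNReal, K = ENNReal.ofReal ((l ^ 2) ^ k) *
    ∑ p ∈ Finset.range (k + 1), ENNReal.ofReal (2 ^ k * (k.choose p : ℝ)) * ENNReal.ofReal C :=
    ⟨_, rfl⟩
  have hK' : K ≠ ⊤ := by
    rw [hK]
    exact ENNReal.mul_ne_top ENNReal.ofReal_ne_top (ENNReal.sum_ne_top.2 fun p _ =>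
      ENNReal.mul_ne_top ENNReal.ofReal_ne_top ENNReal.ofReal_ne_top)
  refine ⟨K.toReal, fun A X hd hs hp => ?_⟩
  obtain ⟨G, hG⟩ := exists_geo (scale X hl) (mul_pos hl hD).le (scale_diam X hl hd)
  obtain ⟨F⟩ := exists_DFA A
  have h1 := lint_ctx ⟨A, F, scale X hl, G, hs, hp F⟩ hk hn (hC ⟨A, F, scale X hl, G, hs, hp F⟩ hG)
  have e : ∀ x ∈ X.M, lk k X.M x = weyl k (curvT (Sop X.P x)) := fun x hx => by
    rw [lk]
    congr 1
    funext a b c d
    exact riem_eq X hx a b c d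
  have h2 : ∫⁻ x in X.M, ‖lk k X.M x‖ₑ ∂(μHE[n]) ≤ K := by
    have h3 : ∫⁻ x in X.M, ‖lk k X.M x‖ₑ ∂(μHE[n]) =
        ∫⁻ x, ENNReal.ofReal |weyl k (curvT (Sop X.P x))| ∂X.μ :=
      setLIntegral_congr_fun X.measurableSet_M fun x hx => by
        simp only [e x hx, Real.enorm_eq_ofReal_abs]
    rw [h3, hK]
    exact (lint_scale X hl hl1 k).trans (mul_le_mul_right h1 _)
  have hm : AEStronglyMeasurable (lk k X.M) ((μHE[n] : Measure (Eu A)).restrict X.M) :=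
    (((weyl_cont X k).continuousOn (s := X.M)).congr e).aestronglyMeasurable X.measurableSet_M
  refine ⟨⟨hm, h2.trans_lt hK'.lt_top⟩, ?_⟩
  have h4 := integral_norm_eq_lintegral_enorm hm
  simp only [Real.norm_eq_abs] at h4
  rw [h4]
  exact ENNReal.toReal_mono hK' h2

lemma exists_l (κ : ℝ) : ∃ l : ℝ, 0 < l ∧ 1 ≤ l ∧ -κ ≤ l ^ 2 := by
  refine ⟨1 + |κ|, by positivity, by linarith [abs_nonneg κ], ?_⟩
  nlinarith [abs_nonneg κ, neg_le_abs κ]

end EFinalAux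

open EFinalAux

theorem final_sec {n k : ℕ} (h : MainBound n 2) (hk : k ≤ 2) (hn : 2 * k ≤ n) (D κ : ℝ)
    (hD : 0 < D) : ∃ C : ℝ, ∀ (A : ℕ) (M : Set (Eu A)), IsCompact M → IsSubmfd n M →
      DiamLE D M → SecGE κ M →
      IntegrableOn (lk k M) M (μHE[n]) ∧ ∫ x in M, |lk k M x| ∂(μHE[n]) ≤ C := by
  obtain ⟨l, hl, hl1, hκ⟩ := exists_l κ
  obtain ⟨C, hC⟩ := final h hk hn hD hl hl1
  refine ⟨C, fun A M hc hM hd hs => ?_⟩
  obtain ⟨X, rfl⟩ := exists_emb hc hM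
  have h1 := scale_sec X hl hκ hs
  exact hC A X hd (sec_Sec _ h1) fun F => posK_sec F _ h1

theorem final_op {n k : ℕ} (h : MainBound n k) (hn : 2 * k ≤ n) (D κ : ℝ)
    (hD : 0 < D) : ∃ C : ℝ, ∀ (A : ℕ) (M : Set (Eu A)), IsCompact M → IsSubmfd n M →
      DiamLE D M → CurvOpGE κ M →
      IntegrableOn (lk k M) M (μHE[n]) ∧ ∫ x in M, |lk k M x| ∂(μHE[n]) ≤ C := by
  obtain ⟨l, hl, hl1, hκ⟩ := exists_l κ
  obtain ⟨C, hC⟩ := final h le_rfl hn hD hl hl1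
  refine ⟨C, fun A M hc hM hd hs => ?_⟩
  obtain ⟨X, rfl⟩ := exists_emb hc hM
  have h1 := scale_op X hl hκ hs
  exact hC A X hd (sec_Sec _ (sec_of_op _ h1)) fun F => posK_op F _ h1 k

end Pool.Agent.AlEmb
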