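import Pool.Agent.Lib.MP_3fa020_gt.EIdent

/-!
Levels defined by a sequence of functions.
-/

namespace Pool.Agent.AlEmb

open Set Filter Topology
open scoped InnerProductSpace ContDiff

variable {A n : ℕ}

lemma inner_grad (g : Eu A → ℝ) (x v : Eu A) : ⟪gradient g x, v⟫_ℝ = fderiv ℝ g x v :=
  inner_gradient_left

lemma cda_grad {g : Eu A → ℝ} {x : Eu A} (hg : ContDiffAt ℝ ∞ g x) :
    ContDiffAt ℝ ∞ (gradient g) x := by
  have : gradient g = fun y => ∑ a, fderiv ℝ g y (ee a) • ee a := by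
    funext y
    conv_lhs => rw [← sum_ee (gradient g y)]
    simp only [real_inner_comm (gradient g y), inner_grad]
  rw [this]
  exact ContDiffAt.sum fun a _ => ((cda_fderiv hg).clm_apply contDiffAt_const).smul contDiffAt_const

lemma inner_fderiv {u : Eu A → Eu A} {x : Eu A} (hu : DifferentiableAt ℝ u x) (v w : Eu A) :
    fderiv ℝ (fun y => ⟪u y, w⟫_ℝ) x v = ⟪fderiv ℝ u x v, w⟫_ℝ := by
  rw [(hu.hasFDerivAt.inner ℝ (hasFDerivAt_const w x)).fderiv]
  simp

lemma inner_fderiv_grad {g : Eu A → ℝ} {x : Eu A} (hg : ContDiffAt ℝ ∞ g x) (v w : Eu A) :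
    ⟪fderiv ℝ (gradient g) x v, w⟫_ℝ = fderiv ℝ (fderiv ℝ g) x v w := by
  rw [← inner_fderiv (cda_diff (cda_grad hg))]
  simp only [inner_grad]
  have h1 : HasFDerivAt (fun y => fderiv ℝ g y w) ((fderiv ℝ (fderiv ℝ g) x).flip w) x := by
    simpa using (cda_diff (cda_fderiv hg)).hasFDerivAt.clm_apply (hasFDerivAt_const w x)
  rw [h1.fderiv]; rfl

lemma cda_nrm {s : Eu A → Eu A} {x : Eu A} (hs : ContDiffAt ℝ ∞ s x) (h0 : s x ≠ 0) :
    ContDiffAt ℝ ∞ (fun y => nrm (s y)) x :=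
  ((hs.norm ℝ h0).inv (norm_ne_zero_iff.2 h0)).smul hs

lemma norm_nrm {v : Eu A} (h : v ≠ 0) : ‖nrm v‖ = 1 := by
  rw [nrm, norm_smul, norm_inv, norm_norm, inv_mul_cancel₀ (norm_ne_zero_iff.2 h)]

lemma smul_nrm (v : Eu A) : ‖v‖ • nrm v = v := by
  by_cases h : v = 0
  · simp [h]
  · rw [nrm, smul_smul, mul_inv_cancel₀ (norm_ne_zero_iff.2 h), one_smul]

lemma nrm_smul {c : ℝ} (hc : 0 < c) (v : Eu A) : nrm (c • v) = nrm v := by
  rw [nrm, nrm, norm_smul, Real.norm_of_nonneg hc.le, smul_smul, mul_inv, mul_right_comm,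
    inv_mul_cancel₀ hc.ne', one_mul]

lemma fderiv_nrm {s : Eu A → Eu A} {x : Eu A} (hs : ContDiffAt ℝ ∞ s x) (h0 : s x ≠ 0)
    (v w : Eu A) (hw : ⟪s x, w⟫_ℝ = 0) :
    ‖s x‖ * ⟪fderiv ℝ (fun y => nrm (s y)) x v, w⟫_ℝ = ⟪fderiv ℝ s x v, w⟫_ℝ := by
  have h1 := (cda_diff ((hs.norm ℝ h0).inv (norm_ne_zero_iff.2 h0))).hasFDerivAt.fun_smul
    (cda_diff hs).hasFDerivAt
  rw [show (fun y => nrm (s y)) = fun y => (fun y => ‖s y‖)⁻¹ y • s y from rfl, h1.fderiv]
  simp [inner_add_left, inner_smul_left, hw, norm_ne_zero_iff.2 h0]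

lemma fderiv_norm' {s : Eu A → Eu A} {x : Eu A} (hs : ContDiffAt ℝ ∞ s x) (h0 : s x ≠ 0)
    (v : Eu A) : fderiv ℝ (fun y => ‖s y‖) x v = ⟪fderiv ℝ s x v, nrm (s x)⟫_ℝ := by
  have h1 := (cda_diff (hs.norm ℝ h0)).hasFDerivAt.pow 2
  have h2 := (cda_diff hs).hasFDerivAt.norm_sq
  have := congrArg (fun L : Eu A →L[ℝ] ℝ => L v) (h1.unique h2)
  simp at this
  rw [nrm, inner_smul_right, real_inner_comm]
  have h3 := norm_ne_zero_iff.2 h0
  field_simp
  linarith

lemma divP_smul {P : Eu A → Eu A →L[ℝ] Eu A} {Y : Eu A → Eu A} {φ : Eu A → ℝ} {x : Eu A}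
    (hφ : DifferentiableAt ℝ φ x) (hY : DifferentiableAt ℝ Y x) :
    divP P (fun y => φ y • Y y) x = φ x * divP P Y x + fderiv ℝ φ x (P x (Y x)) := by
  simp only [divP, (hφ.hasFDerivAt.fun_smul hY.hasFDerivAt).fderiv, Finset.mul_sum]
  conv_rhs => rw [← sum_ee (Y x)]
  simp [inner_add_left, inner_smul_left, Finset.sum_add_distrib, real_inner_comm, mul_comm]

lemma TanF.smul {X : Emb A n} {P : Eu A → Eu A →L[ℝ] Eu A} {Y : Eu A → Eu A} {φ : Eu A → ℝ}
    {x : Eu A} (hY : TanF X P Y x) (hφ : ContDiffAt ℝ ∞ φ x) : TanF X P (fun y => φ y • Y y) x :=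
  ⟨hφ.smul hY.smooth, hY.tan.mono fun y hy => by rw [map_smul, hy]⟩

namespace Lev

variable {X : Emb A n} {d : ℕ} {P : Eu A → Eu A →L[ℝ] Eu A} {x : Eu A}

lemma base (hx : x ∈ X.M) : Lev X n X.P x :=
  ⟨hx, X.P_smooth.contDiffAt, eventually_nhdsWithin_of_forall fun _ hy =>
    ⟨Emb.isProj hy, (Emb.isProj hy).idem⟩, fun _ _ => X.II_symm _ _ _⟩

lemma sub' (h : Lev X d P x) (v : Eu A) : P x (X.P x v) = P x v := by
  refine ext_inner_right ℝ fun w => ?_
  rw [h.isProj.symm, (Emb.isProj h.mem).symm, h.sub, h.isProj.symm]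

lemma tanF_grad (h : Lev X d P x) {g : Eu A → ℝ} (hg : ContDiffAt ℝ ∞ g x) :
    TanF X P (fun y => P y (gradient g y)) x :=
  ⟨h.smooth.clm_apply (cda_grad hg), h.proj.mono fun _ hy => hy.1.idem _⟩

lemma fderiv_grad (h : Lev X d P x) {g : Eu A → ℝ} (hg : ContDiffAt ℝ ∞ g x) (v w : Eu A) :
    ⟪fderiv ℝ (fun y => P y (gradient g y)) x (P x v), P x w⟫_ℝ = Hess P g x (P x v) (P x w) := by
  rw [(h.diff.hasFDerivAt.clm_apply (cda_diff (cda_grad hg)).hasFDerivAt).fderiv, Hess]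
  simp only [add_apply, ContinuousLinearMap.comp_apply, ContinuousLinearMap.flip_apply,
    inner_add_left]
  rw [h.isProj.symm, h.isProj.idem, inner_fderiv_grad hg, h.adj, inner_grad]

lemma Hess_symm (h : Lev X d P x) {g : Eu A → ℝ} (hg : ContDiffAt ℝ ∞ g x) (v w : Eu A) :
    Hess P g x (P x v) (P x w) = Hess P g x (P x w) (P x v) := by
  rw [Hess, Hess, h.tors, cda_symm hg]

lemma unitF_nrm (h : Lev X d P x) {s : Eu A → Eu A} (hs : TanF X P s x) (h0 : s x ≠ 0) :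
    UnitF X P (fun y => nrm (s y)) x := by
  refine ⟨⟨cda_nrm hs.smooth h0, hs.tan.mono fun y hy => by rw [nrm, map_smul, hy]⟩, ?_⟩
  have : ∀ᶠ y in 𝓝 x, s y ≠ 0 := hs.smooth.continuousAt.eventually_ne h0
  exact (this.filter_mono nhdsWithin_le_nhds).mono fun y hy => norm_nrm hy

variable {g : Eu A → ℝ} (h : Lev X (d + 1) P x) (hg : ContDiffAt ℝ ∞ g x)
  (h0 : P x (gradient g x) ≠ 0)
include h hg h0

lemma shape (v w : Eu A) :
    ‖P x (gradient g x)‖ * ⟪Top (Pst P fun y => nrm (P y (gradient g y)))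
      (fun y => nrm (P y (gradient g y))) x v, w⟫_ℝ =
    Hess P g x (Pst P (fun y => nrm (P y (gradient g y))) x v)
      (Pst P (fun y => nrm (P y (gradient g y))) x w) := by
  have hu := h.unitF_nrm (h.tanF_grad hg) h0
  rw [Top_apply, (h.isProj' hu).symm, fderiv_nrm (h.tanF_grad hg).smooth h0, ← h.P_Pst hu v,
    ← h.P_Pst hu w, h.fderiv_grad hg]
  rw [← smul_nrm (P x (gradient g x)), inner_smul_left, h.inner_Pst hu, mul_zero]

lemma shape_symm (v w : Eu A) :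
    ⟪Top (Pst P fun y => nrm (P y (gradient g y))) (fun y => nrm (P y (gradient g y))) x v, w⟫_ℝ =
    ⟪v, Top (Pst P fun y => nrm (P y (gradient g y)))
      (fun y => nrm (P y (gradient g y))) x w⟫_ℝ := by
  have hu := h.unitF_nrm (h.tanF_grad hg) h0
  apply mul_left_cancel₀ (norm_ne_zero_iff.2 h0)
  rw [real_inner_comm _ v, h.shape hg h0, h.shape hg h0, ← h.P_Pst hu v, ← h.P_Pst hu w,
    h.Hess_symm hg]

lemma divP_step {Y : Eu A → Eu A}
    (hY : TanF X (Pst P fun y => nrm (P y (gradient g y))) Y x) :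
    divP P (fun y => ‖P y (gradient g y)‖ • Y y) x =
      ‖P x (gradient g x)‖ * divP (Pst P fun y => nrm (P y (gradient g y))) Y x := by
  have hs := h.tanF_grad hg
  have hu := h.unitF_nrm hs h0
  have h' := h.step hu (h.shape_symm hg h0)
  set u := fun y => nrm (P y (gradient g y)) with hudef
  have hYx : Pst P u x (Y x) = Y x := h'.tan_self hY
  have hPY : P x (Y x) = Y x := by rw [← hYx, h.P_Pst hu]
  have hPu : P x (u x) = u x := h.tan_self hu.toTanF
  have huY : ⟪u x, Y x⟫_ℝ = 0 := by rw [← hYx, h.inner_Pst hu]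
  rw [divP_smul (cda_diff (hs.smooth.norm ℝ h0)) (cda_diff hY.smooth), fderiv_norm' hs.smooth h0]
  have e1 : divP P Y x = divP (Pst P u) Y x + ⟪fderiv ℝ Y x (u x), u x⟫_ℝ := by
    simp only [divP, Pst, sub_apply, r1_apply, map_sub, map_smul, inner_sub_left,
      Finset.sum_sub_distrib, inner_smul_left]
    rw [inner_eq_sum_ee (fderiv ℝ Y x (u x)) (u x)]
    simp [real_inner_comm, mul_comm]
  have e2 : ⟪fderiv ℝ Y x (u x), u x⟫_ℝ = -⟪fderiv ℝ u x (u x), Y x⟫_ℝ := by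
    have h2 := (cda_diff hu.smooth).hasFDerivAt.inner ℝ (cda_diff hY.smooth).hasFDerivAt
    have := h.fderiv_eq (F := fun y => ⟪u y, Y y⟫_ℝ) (G := fun _ => (0 : ℝ)) (by
      filter_upwards [h.proj, hu.tan, hu.unit, hY.tan] with y h1 h2 h3 h4
      have h5 := h1.1.step h3 h2
      rw [← h4, Pst, ← h5.symm]
      simp [r1_apply, h2, h3]) h2.differentiableAt (differentiableAt_const _) (u x)
    rw [h2.fderiv, hPu] at this
    simp at this
    rw [real_inner_comm]
    linarith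
  have e3 := fderiv_nrm hs.smooth h0 (u x) (Y x) (by
    rw [← smul_nrm (P x (gradient g x)), inner_smul_left]; exact mul_eq_zero_of_right _ huY)
  have e4 := h.fderiv_grad hg (u x) (Y x)
  have e5 := h.fderiv_grad hg (Y x) (u x)
  rw [h.Hess_symm hg, ← e4, hPu, hPY] at e5
  rw [e1, e2, hPY]
  change _ + ⟪_, u x⟫_ℝ = _
  rw [e5, ← e3]
  ring

end Lev

lemma Hess_Pst {P : Eu A → Eu A →L[ℝ] Eu A} {u : Eu A → Eu A} {x : Eu A} (hP : ContDiffAt ℝ ∞ P x)
    (hu : ContDiffAt ℝ ∞ u x) (g : Eu A → ℝ) (v w : Eu A) (hw : ⟪u x, w⟫_ℝ = 0) :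
    Hess (Pst P u) g x v w = Hess P g x v w - fderiv ℝ g x (u x) * ⟪fderiv ℝ u x v, w⟫_ℝ := by
  simp only [Hess, fderiv_Pst hP hu, hw]
  simp
  ring

namespace Emb

variable (X : Emb A n) (f : ℕ → Eu A → ℝ)

/-- projection onto the tangent space of the common level set of the first `j` functions -/
noncomputable def Pl : ℕ → Eu A → Eu A →L[ℝ] Eu A
  | 0 => X.P
  | j + 1 => Pst (Pl j) fun x => nrm (Pl j x (gradient (f j) x))

/-- gradient of the next function along the level -/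
noncomputable def sl (j : ℕ) (x : Eu A) : Eu A := X.Pl f j x (gradient (f j) x)

/-- unit normal of the next level -/
noncomputable def ul (j : ℕ) (x : Eu A) : Eu A := nrm (X.sl f j x)

/-- coarea factor -/
noncomputable def Jl : ℕ → Eu A → ℝ
  | 0 => fun _ => 1
  | j + 1 => fun x => Jl j x * ‖X.sl f j x‖

/-- shape operator of a level inside the previous one -/
noncomputable def Sh : ℕ → Eu A → Eu A →L[ℝ] Eu A
  | 0 => fun _ => 0
  | j + 1 => Top (X.Pl f (j + 1)) (X.ul f j)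

lemma Pl_succ (j : ℕ) : X.Pl f (j + 1) = Pst (X.Pl f j) (X.ul f j) := rfl

/-- nondegeneracy -/
structure NZ (j : ℕ) (x : Eu A) : Prop where
  mem : x ∈ X.M
  smooth : ∀ a < j, ContDiff ℝ ∞ (f a)
  ne : ∀ a < j, X.sl f a x ≠ 0

variable {X f}

lemma Pl_congr {f' : ℕ → Eu A → ℝ} {j : ℕ} (h : ∀ a < j, f a = f' a) : X.Pl f j = X.Pl f' j := by
  induction j with
  | zero => rfl
  | succ j ih =>
    simp only [Pl]
    rw [ih fun a ha => h a (by omega), h j (by omega)]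

namespace NZ

variable {j : ℕ} {x : Eu A}

lemma mono (h : X.NZ f j x) {i : ℕ} (hi : i ≤ j) : X.NZ f i x :=
  ⟨h.mem, fun a ha => h.smooth a (by omega), fun a ha => h.ne a (by omega)⟩

lemma lev (h : X.NZ f j x) : ∀ {d : ℕ}, d + j = n → Lev X d (X.Pl f j) x := by
  induction j with
  | zero => intro d hd; obtain rfl : d = n := hd; exact Lev.base h.mem
  | succ j ih =>
    intro d hd
    have h1 : Lev X (d + 1) (X.Pl f j) x := ih (h.mono (by omega)) (by omega)
    have hg := (h.smooth j (by omega)).contDiffAt (x := x)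
    exact h1.step (h1.unitF_nrm (h1.tanF_grad hg) (h.ne j (by omega)))
      (h1.shape_symm hg (h.ne j (by omega)))

lemma le (h : X.NZ f j x) : j ≤ n := by
  induction j with
  | zero => omega
  | succ j ih =>
    have h1 := ih (h.mono (by omega))
    by_contra h2
    have h3 := ((h.mono (i := j) (by omega)).lev (d := 0) (by omega)).isProj
    obtain ⟨b, -, -, hb⟩ := h3.frame
    exact h.ne j (by omega) (by simpa [sl] using hb _)

lemma lev' (h : X.NZ f j x) : Lev X (n - j) (X.Pl f j) x := h.lev (by have := h.le; omega)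

lemma lev_succ (h : X.NZ f (j + 1) x) : Lev X (n - (j + 1) + 1) (X.Pl f j) x :=
  (h.mono (by omega)).lev (by have := h.le; omega)

lemma tanF (h : X.NZ f (j + 1) x) : TanF X (X.Pl f j) (X.sl f j) x :=
  h.lev_succ.tanF_grad (h.smooth j (by omega)).contDiffAt

lemma unitF (h : X.NZ f (j + 1) x) : UnitF X (X.Pl f j) (X.ul f j) x :=
  h.lev_succ.unitF_nrm h.tanF (h.ne j (by omega))

lemma Sh_symTan (h : X.NZ f j x) : SymTan (X.Pl f j x) (X.Sh f j x) := by
  cases j with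
  | zero => exact ⟨by simp [Sh], by simp [Sh], by simp [Sh]⟩
  | succ j =>
    exact ⟨h.lev_succ.shape_symm (h.smooth j (by omega)).contDiffAt (h.ne j (by omega)),
      h.lev'.Top_right _, h.lev'.Top_left _⟩

lemma cda_Sh (h : X.NZ f j x) : ContDiffAt ℝ ∞ (X.Sh f j) x := by
  cases j with
  | zero => exact contDiffAt_const
  | succ j => exact cda_Top h.lev'.smooth h.unitF.smooth

lemma cda_Jl (h : X.NZ f j x) : ContDiffAt ℝ ∞ (X.Jl f j) x := by
  induction j with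
  | zero => exact contDiffAt_const
  | succ j ih => exact (ih (h.mono (by omega))).mul (h.tanF.smooth.norm ℝ (h.ne j (by omega)))

lemma Pl_Pl (h : X.NZ f j x) {i : ℕ} (hi : i ≤ j) (v : Eu A) :
    X.Pl f i x (X.Pl f j x v) = X.Pl f j x v := by
  induction j generalizing v with
  | zero => obtain rfl : i = 0 := by omega
            exact h.lev'.isProj.idem v
  | succ j ih =>
    rcases hi.eq_or_lt with rfl | hi
    · exact h.lev'.isProj.idem v
    · rw [Pl_succ, ← h.lev_succ.P_Pst h.unitF]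
      exact ih (h.mono (by omega)) (by omega) _

lemma inner_ul (h : X.NZ f j x) {a : ℕ} (ha : a < j) (v : Eu A) :
    ⟪X.ul f a x, X.Pl f j x v⟫_ℝ = 0 := by
  rw [← h.Pl_Pl (i := a + 1) ha]
  exact (h.mono ha).lev_succ.inner_Pst (h.mono ha).unitF _

lemma fderiv_Pl (h : X.NZ f j x) {a : ℕ} (ha : a < j) (v : Eu A) :
    fderiv ℝ (f a) x (X.Pl f j x v) = 0 := by
  rw [← inner_grad, ← h.Pl_Pl ha.le, ← (h.mono ha.le).lev'.isProj.symm]
  change ⟪X.sl f a x, _⟫_ℝ = 0
  rw [← smul_nrm (X.sl f a x), inner_smul_left]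
  exact mul_eq_zero_of_right _ (h.inner_ul ha v)

lemma tanF_down (h : X.NZ f (j + 1) x) {Y : Eu A → Eu A} (hY : TanF X (X.Pl f (j + 1)) Y x) :
    TanF X (X.Pl f j) Y x := by
  refine ⟨hY.smooth, ?_⟩
  filter_upwards [h.lev_succ.proj, h.unitF.tan, hY.tan] with y h1 h2 h3
  rw [← h3, Pl_succ]
  simp [Pst, r1_apply, h1.1.idem, h2]

lemma divP_Jl (h : X.NZ f j x) {Y : Eu A → Eu A} (hY : TanF X (X.Pl f j) Y x) :
    divP X.P (fun y => X.Jl f j y • Y y) x = X.Jl f j x * divP (X.Pl f j) Y x := by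
  induction j generalizing Y with
  | zero => simp [Jl, Pl]
  | succ j ih =>
    have h0 := h.ne j (by omega)
    have := ih (h.mono (by omega)) ((h.tanF_down hY).smul (h.tanF.smooth.norm ℝ h0))
    simp only [smul_smul] at this
    rw [show (fun y => X.Jl f (j + 1) y • Y y) = fun y => (X.Jl f j y * ‖X.sl f j y‖) • Y y
      from rfl, this]
    have := h.lev_succ.divP_step (h.smooth j (by omega)).contDiffAt h0 hY
    change divP _ (fun y => ‖X.sl f j y‖ • Y y) x = ‖X.sl f j x‖ * divP (X.Pl f (j + 1)) Y x at this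
    rw [this, Jl]
    ring

lemma Hess_Pl (h : X.NZ f j x) (g : Eu A → ℝ) {w : Eu A} (hw : X.Pl f j x w = w) :
    Hess (X.Pl f j) g x w w = Hess X.P g x w w -
      ∑ a ∈ Finset.range j, fderiv ℝ g x (X.ul f a x) * ⟪X.Sh f (a + 1) x w, w⟫_ℝ := by
  induction j with
  | zero => simp [Pl]
  | succ j ih =>
    rw [Pl_succ, Hess_Pst h.lev_succ.smooth h.unitF.smooth _ _ _
      (by rw [← hw]; exact h.inner_ul (by omega) _),
      ih (h.mono (by omega)) (by rw [← hw]; exact h.Pl_Pl (by omega) _), Finset.sum_range_succ,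
      Sh, Top_apply, h.lev'.isProj.symm, hw]
    ring

lemma Sh_eq (h : X.NZ f (j + 1) x) {w : Eu A} (hw : X.Pl f (j + 1) x w = w) :
    ‖X.sl f j x‖ * ⟪X.Sh f (j + 1) x w, w⟫_ℝ = Hess (X.Pl f j) (f j) x w w := by
  have := h.lev_succ.shape (h.smooth j (by omega)).contDiffAt (h.ne j (by omega)) w w
  change ‖X.sl f j x‖ * ⟪X.Sh f (j + 1) x w, w⟫_ℝ =
    Hess (X.Pl f j) (f j) x (X.Pl f (j + 1) x w) (X.Pl f (j + 1) x w) at this
  rwa [hw] at this

end NZ

end Emb

end Pool.Agent.AlEmb
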