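import Pool.Agent.Lib.MP_3fa020_gt.EDefs2

namespace Pool.Agent.AlEmb

open Set Filter Topology MeasureTheory
open scoped InnerProductSpace ContDiff

namespace EGromovAux

open Real

lemma cosh_small {t : ℝ} (h0 : 0 ≤ t) (h1 : t ≤ 1 / 100) : cosh t ≤ 1001 / 1000 := by
  refine (cosh_le_exp_half_sq t).trans ?_
  have h2 : t ^ 2 / 2 ≤ 1 / 20000 := by nlinarith
  have h3 := Real.abs_exp_sub_one_le (x := t ^ 2 / 2) (by
    rw [abs_of_nonneg (by positivity)]; linarith)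
  rw [abs_of_nonneg (a := t ^ 2 / 2) (by positivity)] at h3
  linarith [(abs_le.1 h3).2]

lemma sinh_small {t : ℝ} (h0 : 0 ≤ t) (h1 : t ≤ 1 / 100) : sinh t ≤ 1001 / 1000 * t := by
  have := EPackAux.sinh_le_mul_cosh h0
  nlinarith [cosh_small h0 h1]

lemma cosh_sub_small {t : ℝ} (h0 : 0 ≤ t) (h1 : t ≤ 1 / 100) : cosh t - 1 ≤ 51 / 100 * t ^ 2 := by
  rw [EPackAux.cosh_half]
  have h2 := sinh_small (t := t / 2) (by linarith) (by linarith)
  have h3 : 0 ≤ sinh (t / 2) := sinh_nonneg_iff.2 (by linarith)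
  nlinarith [pow_le_pow_left₀ h3 h2 2]

lemma hinge_small {a b D u : ℝ} (ha : 0 ≤ a) (hab : 98 * a ≤ b) (hb : b ≤ 1 / 100) (hD : 0 ≤ D)
    (hu : 98 / 100 ≤ u) (h : cosh D ≤ cosh a * cosh b - sinh a * sinh b * u) :
    D ≤ b - 95 / 100 * a := by
  have b0 : 0 ≤ b := by linarith
  have key : cosh D ≤ cosh (b - 95 / 100 * a) := by
    rw [cosh_sub]
    have s1 : a ≤ sinh a := self_le_sinh_iff.2 ha
    have s2 : b ≤ sinh b := self_le_sinh_iff.2 b0
    have s3 := sinh_small (t := 95 / 100 * a) (by linarith) (by linarith)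
    have c1 := cosh_sub_small ha (by linarith)
    have c2 := cosh_small b0 hb
    have c3 := one_le_cosh (95 / 100 * a)
    have c4 := one_le_cosh b
    have c5 := one_le_cosh a
    have e1 : cosh b * (cosh a - 1) ≤ 1001 / 1000 * (51 / 100 * a ^ 2) :=
      mul_le_mul c2 c1 (by linarith) (by norm_num)
    have e2 : sinh a * (98 / 100) ≤ sinh a * u := mul_le_mul_of_nonneg_left hu (by linarith)
    have e3 : 98 * a * (2 / 100 * a) ≤ sinh b * (sinh a * u - sinh (95 / 100 * a)) :=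
      mul_le_mul (by linarith) (by linarith) (by positivity) (by linarith)
    have e4 : cosh b * 1 ≤ cosh b * cosh (95 / 100 * a) :=
      mul_le_mul_of_nonneg_left c3 (by linarith)
    nlinarith [sq_nonneg a]
  rwa [cosh_le_cosh, abs_of_nonneg hD, abs_of_nonneg (by linarith)] at key

lemma bvp_small {r l b D : ℝ} (hr : 0 < r) (hl : 98 * r ≤ l) (hb : l + 9 / 10 * r ≤ b)
    (hl1 : l ≤ 1 / 100) (hD : 0 ≤ D)
    (h : sinh (l - r / 100) * cosh r + sinh (r / 100) * cosh b ≤ sinh l * cosh D) :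
    r + r / 200 ≤ D := by
  have l0 : 0 < l := by linarith
  have s1 : l ≤ sinh l := self_le_sinh_iff.2 l0.le
  have s2 : r / 100 ≤ sinh (r / 100) := self_le_sinh_iff.2 (by linarith)
  have s3 : 9 / 10 * r ≤ sinh (9 / 10 * r) := self_le_sinh_iff.2 (by linarith)
  have c1 := cosh_sub_small hr.le (by linarith)
  have c2 := cosh_small l0.le hl1
  have c3 := one_le_cosh r
  have c4 := one_le_cosh l
  have hb' : cosh l + 9 / 10 * r * sinh l ≤ cosh b := by
    have : cosh (l + 9 / 10 * r) ≤ cosh b := by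
      rw [cosh_le_cosh, abs_of_nonneg (by linarith), abs_of_nonneg (by linarith)]
      exact hb
    rw [cosh_add] at this
    nlinarith [mul_le_mul_of_nonneg_left (one_le_cosh (9 / 10 * r)) (cosh_pos l).le,
      mul_le_mul_of_nonneg_left s3 (l0.le.trans s1)]
  have e1 : cosh l * (cosh r - 1) ≤ 1 / 100 * r * sinh l := by
    have : cosh l * (cosh r - 1) ≤ 1001 / 1000 * (51 / 100 * r ^ 2) :=
      mul_le_mul c2 c1 (by linarith) (by norm_num)
    nlinarith
  have e2 : sinh l * (cosh r + 89 / 100 * r * (r / 100)) ≤ sinh l * cosh D := by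
    refine le_trans ?_ h
    rw [sinh_sub]
    have p1 := mul_le_mul_of_nonneg_left hb' (show 0 ≤ sinh (r / 100) by linarith)
    have p2 := mul_le_mul_of_nonneg_left e1 (show 0 ≤ sinh (r / 100) by linarith)
    have p3 := mul_le_mul_of_nonneg_left (one_le_cosh (r / 100))
      (show 0 ≤ sinh l * cosh r by have := l0.le.trans s1; positivity)
    have p4 := mul_le_mul_of_nonneg_left s2
      (show 0 ≤ 89 / 100 * r * sinh l by have := l0.le.trans s1; positivity)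
    nlinarith
  have e3 := le_of_mul_le_mul_left e2 (l0.trans_le s1)
  have key : cosh (r + r / 200) ≤ cosh D := by
    refine le_trans ?_ e3
    rw [cosh_add]
    have q1 := cosh_sub_small (t := r / 200) (by linarith) (by linarith)
    have q2 := sinh_small (t := r / 200) (by linarith) (by linarith)
    have q3 := sinh_small hr.le (by linarith)
    have q4 := cosh_small hr.le (by linarith)
    have q5 : cosh r * (cosh (r / 200) - 1) ≤ 1001 / 1000 * (51 / 100 * (r / 200) ^ 2) :=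
      mul_le_mul q4 q1 (by linarith [one_le_cosh (r / 200)]) (by norm_num)
    have q6 : sinh r * sinh (r / 200) ≤ 1001 / 1000 * r * (1001 / 1000 * (r / 200)) :=
      mul_le_mul q3 q2 (sinh_nonneg_iff.2 (by linarith)) (by linarith)
    nlinarith [sq_nonneg r]
  rwa [cosh_le_cosh, abs_of_nonneg hD, abs_of_nonneg (by linarith)] at key

lemma gain_small {r r' l c R F0 F1 Fp : ℝ} (hr : 0 < r) (hl : 98 * r ≤ l) (hl' : l ≤ 101 / 100 * r')
    (hc : 0 < c) (hR : 0 < R) (hr' : r' ≤ 4 * (c / 10 ^ 6 * R))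
    (hF : F0 + c * r' * (1 / 200 - 2 / 10 ^ 5) ≤ F1)
    (h : (l - r / 100) * F0 + r / 100 * F1 - 1 / R * l * (r / 100) * (l - r / 100) / 2 ≤ l * Fp) :
    F0 + c * r / 10 ^ 5 ≤ Fp := by
  have l0 : 0 < l := by linarith
  have e1 : 1 / R * (l - r / 100) ≤ 5 / 10 ^ 6 * c := by
    rw [one_div, inv_mul_le_iff₀ hR]
    nlinarith [mul_pos hc hR]
  have e2 := mul_le_mul_of_nonneg_left e1 (show 0 ≤ l * (r / 100) by positivity)
  have e3 := mul_le_mul_of_nonneg_left hF (show 0 ≤ r / 100 by positivity)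
  have e4 := mul_le_mul_of_nonneg_left hl' (show 0 ≤ c * r by positivity)
  have e5 : 0 < l * (c * r) := by positivity
  refine le_of_mul_le_mul_left ?_ l0
  nlinarith

end EGromovAux

namespace Ctx

open EGromovAux

variable {n k : ℕ} {S : Ctx n k} {f : ℕ → Eu S.A → ℝ} {j : ℕ} {c R : ℝ} {y₀ : Eu S.A}

lemma Gm.egromov_seq {y : Eu S.A} {m : ℕ} : ∀ {r : ℝ}, S.Gm f j c R y m r →
    ∃ x : ℕ → Eu S.A, (∀ i < m, S.Bad f j c R y (x i) ∧ r ≤ S.G.d y (x i)) ∧
      ∀ i i', i < i' → i' < m → 100 * S.G.d y (x i) ≤ S.G.d y (x i') := by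
  induction m with
  | zero => exact fun _ => ⟨fun _ => y, by simp, by simp⟩
  | succ m ih =>
    rintro r ⟨x0, h1, h2, h3⟩
    obtain ⟨x, h4, h5⟩ := ih h3
    refine ⟨fun i => Nat.casesOn i x0 x, ?_, ?_⟩
    · rintro (_ | i) hi
      · exact ⟨h1, h2⟩
      · have := h4 i (by omega)
        exact ⟨this.1, by linarith [this.2, S.G.nonneg y x0]⟩
    · rintro (_ | i) (_ | i') hi hi'
      · omega
      · exact (h4 i' (by omega)).2
      · omega
      · exact h5 i i' (by omega) (by omega)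

lemma Frame.egromov_angle (hF : S.Frame f j c y₀ R) (hc : 0 < c) (hc1 : c ≤ 1)
    {y : Eu S.A} (hy : y ∈ S.X.M) (hyR : S.G.d y₀ y ≤ 3 / 4 * R) {x x' z z' : Eu S.A}
    (hx : S.Bad f j c R y x) (hx' : S.Bad f j c R y x') (hr : 0 < S.G.d y x)
    (hxx : 100 * S.G.d y x ≤ S.G.d y x') (hz : z ∈ S.X.M) (hz' : z' ∈ S.X.M)
    (hd : S.G.d x z ≤ S.G.d y x / 100) (hd' : S.G.d x' z' ≤ S.G.d y x' / 100)
    (hg : ∀ a < j, f a x' + c / 2 * (S.G.d y x' / 100) ≤ f a z')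
    {γ₁ w₁ γ₂ w₂ : ℝ → Eu S.A} (g₁ : S.G.IsGeod γ₁ w₁ (S.G.d y z)) (a₁ : γ₁ 0 = y)
    (b₁ : γ₁ (S.G.d y z) = z) (g₂ : S.G.IsGeod γ₂ w₂ (S.G.d y z')) (a₂ : γ₂ 0 = y)
    (b₂ : γ₂ (S.G.d y z') = z') : ⟪w₁ 0, w₂ 0⟫_ℝ ≤ 98 / 100 := by
  by_contra hu
  obtain ⟨xm, -, sx, nx⟩ := hx
  obtain ⟨xm', rx', sx', -⟩ := hx'
  have hR := hF.pos
  have hR1 := hF.le_one
  have hcR : c * R ≤ R := mul_le_of_le_one_left hR.le hc1
  have t1 := S.G.tri y hy x xm z hz
  have t2 := S.G.tri y hy z hz x xm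
  have t3 := S.G.tri y hy x' xm' z' hz'
  have t4 := S.G.tri y hy z' hz' x' xm'
  have t5 := S.G.tri x xm z hz z' hz'
  have t6 := S.G.tri y hy x xm z' hz'
  rw [S.G.comm z x] at t2
  rw [S.G.comm z' x'] at t4
  have hh := S.hinge γ₁ w₁ γ₂ w₂ _ _ g₁ g₂ (a₁.trans a₂.symm)
  rw [b₁, b₂] at hh
  have h1 := hinge_small (S.G.nonneg _ _) (by linarith) (by linarith) (S.G.nonneg _ _)
    (not_le.1 hu).le hh
  have l1 : 98 * S.G.d y x ≤ S.G.d x z' := by linarith
  have l2 : S.G.d x z' + 9 / 10 * S.G.d y x ≤ S.G.d y z' := by linarith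
  obtain ⟨γ, w, g, a0, b0⟩ := S.geod x xm z' hz' (fun e => by
    rw [← e, S.G.self x xm] at l1
    linarith)
  have ht : S.G.d y x / 100 ∈ Icc 0 (S.G.d x z') := ⟨by linarith, by linarith⟩
  have h0 : (0 : ℝ) ∈ Icc 0 (S.G.d x z') := left_mem_Icc.2 g.nonneg
  have hds : ∀ s ∈ Icc 0 (S.G.d x z'), S.G.d x (γ s) = s := fun s hs => by
    have := g.dist 0 h0 s hs
    rwa [a0, zero_sub, abs_neg, abs_of_nonneg hs.1] at this
  refine nx ⟨γ (S.G.d y x / 100), g.mem _ ht, (hds _ ht).le, fun a ha => ?_, ?_⟩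
  · have hb := g.semi_bvp ((hF.smooth a ha).of_le (by norm_cast)) (β := 1 / R) (fun s hs => by
      have hm : γ s ∈ S.G.ball y₀ R := ⟨g.mem s hs, by
        have u1 := S.G.tri y₀ hF.mem y hy _ (g.mem s hs)
        have u2 := S.G.tri y hy x xm _ (g.mem s hs)
        rw [hds s hs] at u2
        linarith [hs.2]⟩
      have := (hF.pt _ hm).hess a ha _ (g.tan s hs)
      rwa [g.unit s hs, one_pow] at this) ht
    rw [a0, b0] at hb
    refine gain_small hr l1 (by linarith) hc hR rx' ?_ hb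
    have v1 := (abs_le.1 (sx a ha)).2
    have v2 := (abs_le.1 (sx' a ha)).1
    have v3 := hg a ha
    have v4 : c * S.G.d y x ≤ c * S.G.d y x' := mul_le_mul_of_nonneg_left (by linarith) hc.le
    linarith
  · have hb := g.cosh_bvp S.geod S.bar hy ht
    rw [a0, b0, S.G.comm x y, S.G.comm z' y, S.G.comm _ y] at hb
    exact bvp_small hr l1 l2 (by linarith) (S.G.nonneg _ _) hb

/-- Gromov's bound for the number of critical scales; `hpush` is `Frame.push` -/
theorem Frame.gromov (hF : S.Frame f j c y₀ R) (hc : 0 < c) (hc1 : c ≤ 1)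
    (hpush : ∀ x ∈ S.X.M, ∀ l, 0 ≤ l → S.G.d y₀ x + l < R →
      ∃ z ∈ S.X.M, S.G.d x z ≤ l ∧ ∀ a < j, f a x + c / 2 * l ≤ f a z)
    {y : Eu S.A} (hy : y ∈ S.X.M) (hyR : S.G.d y₀ y ≤ 3 / 4 * R) {r : ℝ} (hr : 0 < r) :
    ¬S.Gm f j c R y (11 ^ n + 1) r := by
  intro h
  obtain ⟨x, h1, h2⟩ := h.egromov_seq
  have hR := hF.pos
  have hcR : c * R ≤ R := mul_le_of_le_one_left hR.le hc1
  have hex : ∀ i : Fin (11 ^ n + 1), ∃ z ∈ S.X.M, S.G.d (x i) z ≤ S.G.d y (x i) / 100 ∧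
      (∀ a < j, f a (x i) + c / 2 * (S.G.d y (x i) / 100) ≤ f a z) ∧
      ∃ γ w : ℝ → Eu S.A, S.G.IsGeod γ w (S.G.d y z) ∧ γ 0 = y ∧ γ (S.G.d y z) = z := by
    intro i
    obtain ⟨⟨xm, rx, -⟩, hi⟩ := h1 i i.2
    obtain ⟨z, hz, hd, hg⟩ := hpush (x i) xm (S.G.d y (x i) / 100) (by linarith) (by
      linarith [S.G.tri y₀ hF.mem y hy _ xm])
    refine ⟨z, hz, hd, hg, S.geod y hy z hz fun e => ?_⟩
    rw [← e, S.G.comm] at hd
    linarith
  choose z hz hd hg γ w hγ a0 b0 using hex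
  have hlt : ∀ i i' : Fin (11 ^ n + 1), i < i' → ⟪w i 0, w i' 0⟫_ℝ ≤ 98 / 100 := fun i i' hi =>
    hF.egromov_angle hc hc1 hy hyR (h1 i i.2).1 (h1 i' i'.2).1 (hr.trans_le (h1 i i.2).2)
      (h2 i i' hi i'.2) (hz i) (hz i') (hd i) (hd i') (hg i') (hγ i) (a0 i) (b0 i) (hγ i') (a0 i')
      (b0 i')
  have := (Emb.isProj hy).card_le (fun i => w i 0) (η := 1 / 5) (by norm_num)
    (fun i => (hγ i).unit 0 (left_mem_Icc.2 (hγ i).nonneg))
    (fun i => by
      have := (hγ i).tan 0 (left_mem_Icc.2 (hγ i).nonneg)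
      rwa [a0] at this)
    (fun i i' hi => by
      rcases lt_or_gt_of_ne hi with h | h
      · linarith [hlt i i' h]
      · rw [real_inner_comm]
        linarith [hlt i' i h])
  push_cast at this
  norm_num at this

end Ctx

end Pool.Agent.AlEmb
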