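import Pool.Agent.Lib.MP_3fa020_gt.ETrans

/-!
The three divergence identities.
-/

namespace Pool.Agent.AlEmb

open Set Filter Topology
open scoped InnerProductSpace ContDiff

variable {A n : ℕ}

namespace DFA

variable (D : DFA A) {X : Emb A n} {d : ℕ} {P : Eu A → Eu A →L[ℝ] Eu A} {x : Eu A}
  {u : Eu A → Eu A}

/-- transgression field -/
noncomputable def Tf (d : ℕ) (P : Eu A → Eu A →L[ℝ] Eu A) (u : Eu A → Eu A) (k q r : ℕ) :
    Eu A → Eu A :=
  D.VF (d + 1) P u fun y => D.Th (Top P u y) ^ (k + 1) * D.Om P y ^ q * D.Th (P y) ^ r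

lemma hasD_Tf (h : Lev X (d + 1) P x) (hu : TanF X P u x) (k q r : ℕ) :
    D.HasD (d + 1) P x (u x)
      (fun y => D.Th (Top P u y) ^ (k + 1) * D.Om P y ^ q * D.Th (P y) ^ r)
      (-(((k + 1 : ℕ) : ℝ) • (D.Th (Top P u x) ^ k * (2 * D.Lam P x (u x) (u x)) * D.Om P x ^ q *
        D.Th (P x) ^ r)) + ((k + 1 : ℕ) : ℝ) • (D.Th (Top P u x) ^ k * D.Lam P x (u x) (u x) *
        D.Om P x ^ q * D.Th (P x) ^ r)) := by
  refine ((((D.hasD_Top h hu (u x)).pow (k + 1)).mul ((D.hasD_Om h (u x)).pow q)).mul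
    ((D.hasD_theta h (u x)).pow r)).cast ?_
  simp only [Nat.cast_smul_eq_nsmul, nsmul_eq_mul, Nat.add_one_sub_one]
  ring

lemma tanF_Tf (h : Lev X (d + 1) P x) (hu : TanF X P u x) (k q r : ℕ) :
    TanF X P (D.Tf d P u k q r) x := D.tanF_VF h hu.smooth (D.hasD_Tf h hu k q r).smooth

lemma two_Lam_sq (w : Eu A) : 2 * D.Lam P x w w * (2 * D.Lam P x w w) = 0 := by
  linear_combination 4 * D.Lam_mul_Lam (P := P) (x := x) w w w

lemma two_Lam_t (w : Eu A) : 2 * D.Lam P x w w * D.t w w = 0 := by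
  linear_combination 2 * D.Lam_mul_t (P := P) (x := x) w w w

lemma BP_next (h : Lev X (d + 1) P x) (hu : UnitF X P u x) (k q r : ℕ) :
    D.BP (d + 1) (P x) (D.t (u x) (u x) * (D.Th (Top P u x) ^ k * D.Om P x ^ q * D.Th (P x) ^ r)) =
      D.BP d (Pst P u x)
        (D.Th (Top (Pst P u) u x) ^ k * D.Om P x ^ q * D.Th (Pst P u x) ^ r) := by
  rw [D.BP_step h.isProj]
  exact ((((D.eqv_beta h hu).pow k).mul (Eqv.refl _)).mul ((D.eqv_theta h hu).pow r)).BP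

lemma trans_step (h : Lev X (d + 1) P x) (hu : UnitF X P u x) (k q r : ℕ) :
    D.BP (d + 1) (P x) (D.Th (Top P u x) ^ k * D.Om P x ^ (q + 1) * D.Th (P x) ^ r) =
      (2 * (q + 1) / (k + 1)) *
        (D.BP (d + 1) (P x) (D.Th (Top P u x) ^ (k + 2) * D.Om P x ^ q * D.Th (P x) ^ r) -
          divP P (D.Tf d P u k q r) x) +
      r * D.BP d (Pst P u x)
        (D.Th (Top (Pst P u) u x) ^ k * D.Om P x ^ (q + 1) * D.Th (Pst P u x) ^ (r - 1)) := by
  have h1 := D.divP_VF h hu.toTanF (D.hasD_Tf h hu.toTanF k q r)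
  have h2 := D.contract h.isProj (h.norm_u hu) (h.tan_self hu.toTanF)
    (pow_mem (D.beta_perp h hu) k) (D.Om_perp h hu) (D.two_Lam_sq _) (D.two_Lam_t _) (q + 1) r
  rw [D.BP_next h hu] at h2
  rw [h2, Tf, h1]
  have e : D.Th (Top P u x) ^ k * (2 * D.Lam P x (u x) (u x)) * D.Om P x ^ q * D.Th (P x) ^ r =
      (2 : ℝ) • (D.Th (Top P u x) ^ k * D.Lam P x (u x) (u x) * D.Om P x ^ q *
        D.Th (P x) ^ r) := by rw [two_smul]; ring
  have e2 : D.Th (Top P u x) * (D.Th (Top P u x) ^ (k + 1) * D.Om P x ^ q * D.Th (P x) ^ r) =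
      D.Th (Top P u x) ^ (k + 2) * D.Om P x ^ q * D.Th (P x) ^ r := by ring
  simp only [Nat.add_one_sub_one, e, e2, map_add, map_neg, map_smul, smul_eq_mul]
  push_cast
  field_simp
  ring

lemma trans_base (h : Lev X (d + 1) P x) (hu : UnitF X P u x) (k r : ℕ) :
    D.BP (d + 1) (P x) (D.Th (Top P u x) ^ k * D.Om P x ^ 0 * D.Th (P x) ^ r) =
      r * D.BP d (Pst P u x)
        (D.Th (Top (Pst P u) u x) ^ k * D.Om P x ^ 0 * D.Th (Pst P u x) ^ (r - 1)) := by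
  have h2 := D.contract h.isProj (h.norm_u hu) (h.tan_self hu.toTanF)
    (pow_mem (D.beta_perp h hu) k) (D.Om_perp h hu) (D.two_Lam_sq _) (D.two_Lam_t _) 0 r
  rw [D.BP_next h hu] at h2
  simpa using h2

lemma inner_Tf (h : Lev X (d + 1) P x) (hu : UnitF X P u x) (k q r : ℕ) :
    ⟪D.Tf d P u k q r x, u x⟫_ℝ = D.BP d (Pst P u x)
      (D.Th (Top (Pst P u) u x) ^ (k + 1) * D.Om P x ^ q * D.Th (Pst P u x) ^ r) := by
  rw [Tf, D.inner_VF h.isProj, D.BP_next h hu]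

/-- Lovelock field -/
noncomputable def Lf (d : ℕ) (P : Eu A → Eu A →L[ℝ] Eu A) (w : Eu A → Eu A) (q r : ℕ) :
    Eu A → Eu A :=
  D.VF d P w fun y => D.Om P y ^ q * D.Th (P y) ^ r

lemma hasD_Lf (h : Lev X d P x) (v : Eu A) (q r : ℕ) :
    D.HasD d P x v (fun y => D.Om P y ^ q * D.Th (P y) ^ r) 0 :=
  (((D.hasD_Om h v).pow q).mul ((D.hasD_theta h v).pow r)).cast (by simp)

lemma tanF_Lf (h : Lev X d P x) {w : Eu A → Eu A} (hw : TanF X P w x) (q r : ℕ) :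
    TanF X P (D.Lf d P w q r) x := D.tanF_VF h hw.smooth (D.hasD_Lf h 0 q r).smooth

lemma div_Lf (h : Lev X d P x) {w : Eu A → Eu A} (hw : TanF X P w x) (q r : ℕ) :
    divP P (D.Lf d P w q r) x =
      D.BP d (P x) (D.Th (Top P w x) * D.Om P x ^ q * D.Th (P x) ^ r) := by
  rw [Lf, D.divP_VF h hw (D.hasD_Lf h _ q r), add_zero, mul_assoc]

/-- curvature form of the next level, extended -/
noncomputable def Psi (P : Eu A → Eu A →L[ℝ] Eu A) (u : Eu A → Eu A) (y : Eu A) : D.R :=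
  D.Om P y + D.Th (Top P u y) ^ 2

lemma hasD_Psi (h : Lev X (d + 1) P x) (hu : TanF X P u x) :
    D.HasD (d + 1) P x (u x) (D.Psi P u)
      (-(D.Th (Top P u x) * (2 * D.Lam P x (u x) (u x)))) := by
  refine ((D.hasD_Om h (u x)).add ((D.hasD_Top h hu (u x)).pow 2)).cast ?_
  simp only [Nat.cast_smul_eq_nsmul, nsmul_eq_mul]
  push_cast
  ring

lemma Psi_perp (h : Lev X (d + 1) P x) (hu : UnitF X P u x) :
    D.Psi P u x - 2 * D.Lam P x (u x) (u x) ∈ D.Perp (u x) := by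
  have := add_mem (D.Om_perp h hu) (pow_mem (D.beta_perp h hu) 2)
  rwa [sub_add_eq_add_sub] at this

lemma eqv_Psi (h : Lev X (d + 1) P x) (hu : UnitF X P u x) :
    D.Eqv d (Pst P u x) (D.Psi P u x) (D.Om (Pst P u) x) :=
  ((Eqv.refl _).add ((D.eqv_beta h hu).pow 2)).trans (D.eqv_Om h hu).symm

/-- first variation field -/
noncomputable def Uf (d : ℕ) (P : Eu A → Eu A →L[ℝ] Eu A) (u : Eu A → Eu A) (p r : ℕ) :
    Eu A → Eu A :=
  D.VF (d + 1) P u fun y => D.Psi P u y ^ p * D.Th (P y) ^ r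

lemma hasD_Uf (h : Lev X (d + 1) P x) (hu : TanF X P u x) (p r : ℕ) :
    D.HasD (d + 1) P x (u x) (fun y => D.Psi P u y ^ p * D.Th (P y) ^ r)
      (-((p : ℝ) • (D.Th (Top P u x) * (2 * D.Lam P x (u x) (u x)) * D.Psi P u x ^ (p - 1) *
        D.Th (P x) ^ r))) := by
  refine (((D.hasD_Psi h hu).pow p).mul ((D.hasD_theta h (u x)).pow r)).cast ?_
  simp only [Nat.cast_smul_eq_nsmul, nsmul_eq_mul]
  ring

lemma tanF_Uf (h : Lev X (d + 1) P x) (hu : TanF X P u x) (p r : ℕ) :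
    TanF X P (D.Uf d P u p r) x := D.tanF_VF h hu.smooth (D.hasD_Uf h hu p r).smooth

lemma div_Uf (h : Lev X (d + 1) P x) (hu : UnitF X P u x) (p r : ℕ) :
    divP P (D.Uf d P u p r) x = r * D.BP d (Pst P u x)
      (D.Th (Top (Pst P u) u x) * D.Om (Pst P u) x ^ p * D.Th (Pst P u x) ^ (r - 1)) := by
  have h1 := D.divP_VF h hu.toTanF (D.hasD_Uf h hu.toTanF p r)
  have h2 := D.contract h.isProj (h.norm_u hu) (h.tan_self hu.toTanF)
    (D.beta_perp h hu) (D.Psi_perp h hu) (D.two_Lam_sq _) (D.two_Lam_t _) p r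
  rw [D.BP_step h.isProj] at h2
  rw [Uf, h1, map_add, map_neg, map_smul, ← mul_assoc, h2, smul_eq_mul]
  have := (((D.eqv_beta h hu).mul ((D.eqv_Psi h hu).pow p)).mul
    ((D.eqv_theta h hu).pow (r - 1))).BP
  rw [← this]
  simp [Pst]

lemma inner_Uf (h : Lev X (d + 1) P x) (hu : UnitF X P u x) (p r : ℕ) :
    ⟪D.Uf d P u p r x, u x⟫_ℝ =
      D.BP d (Pst P u x) (D.Om (Pst P u) x ^ p * D.Th (Pst P u x) ^ r) := by
  rw [Uf, D.inner_VF h.isProj, D.BP_step h.isProj]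
  exact (((D.eqv_Psi h hu).pow p).mul ((D.eqv_theta h hu).pow r)).BP

/-- second field of the first variation identity -/
noncomputable def Vf (d : ℕ) (P : Eu A → Eu A →L[ℝ] Eu A) (u w : Eu A → Eu A) (p r : ℕ) :
    Eu A → Eu A :=
  D.VF (d + 1) P u fun y =>
    D.t (u y) (w y) * D.Th (Top P u y) * (D.Psi P u y ^ p * D.Th (P y) ^ r)

lemma tanF_Vf (h : Lev X (d + 1) P x) (hu : TanF X P u x) {w : Eu A → Eu A} (hw : TanF X P w x)
    (p r : ℕ) : TanF X P (D.Vf d P u w p r) x :=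
  D.tanF_VF h hu.smooth (((D.hasD_t h hu hw (u x)).mul (D.hasD_Top h hu (u x))).mul
    (D.hasD_Uf h hu p r)).smooth

lemma div_Vf (h : Lev X (d + 1) P x) (hu : UnitF X P u x)
    (hs : ∀ v w, ⟪Top (Pst P u) u x v, w⟫_ℝ = ⟪v, Top (Pst P u) u x w⟫_ℝ) {w : Eu A → Eu A}
    (hw : TanF X P w x) (hw' : ⟪u x, w x⟫_ℝ = 0) (p r : ℕ) :
    divP P (D.Vf d P u w p r) x =
      D.BP d (Pst P u x) ((D.t (Top P u x (u x)) (w x) * D.Th (Top (Pst P u) u x) +
        D.Lam P x (u x) (w x)) * (D.Om (Pst P u) x ^ p * D.Th (Pst P u x) ^ r)) -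
      D.BP d (Pst P u x) (D.Th (Top (Pst P u) w x) * D.Th (Top (Pst P u) u x) *
        D.Om (Pst P u) x ^ p * D.Th (Pst P u x) ^ r) := by
  have h1 := D.divP_VF h hu.toTanF (((D.hasD_t h hu.toTanF hw (u x)).mul
    (D.hasD_Top h hu.toTanF (u x))).mul (D.hasD_Uf h hu.toTanF p r))
  have h2 := D.contract h.isProj (h.norm_u hu) (h.tan_self hu.toTanF)
    (mul_mem (D.t_mem_Perp (u x) hw') (pow_mem (D.beta_perp h hu) 2)) (D.Psi_perp h hu)
    (D.two_Lam_sq _) (D.two_Lam_t _) p r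
  have e0 : ∑ c, D.t (ee c) (u x) * D.t (Top P u x (ee c)) (w x) =
      D.t (u x) (u x) * D.t (Top P u x (u x)) (w x) := by
    simp only [h.Top_split hu (ee _), map_add, add_apply, mul_add, Finset.sum_add_distrib,
      D.sym_kill' hs, zero_add]
    have : D.t (u x) (u x) = ∑ c, ⟪u x, ee c⟫_ℝ • D.t (ee c) (u x) := by
      nth_rewrite 1 [← sum_ee (u x)]
      simp [real_inner_comm]
    rw [this]
    simp [Finset.sum_mul]
  have e1 : D.t (u x) (u x) * (D.t (u x) (w x) * D.Th (Top P u x) ^ 2 * D.Psi P u x ^ p *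
      D.Th (P x) ^ (r - 1)) = 0 := by
    rw [← mul_assoc, ← mul_assoc, ← mul_assoc, D.same_left]; simp
  rw [e1, map_zero, mul_zero, add_zero] at h2
  rw [Vf, h1, e0]
  have e2 := ((((Eqv.refl (D.t (Top P u x (u x)) (w x))).mul (D.eqv_beta h hu)).add
    (Eqv.refl (D.Lam P x (u x) (w x)))).mul
    (((D.eqv_Psi h hu).pow p).mul ((D.eqv_theta h hu).pow r))).BP
  have e3 := ((((D.eqv_Top h hu w).mul (D.eqv_beta h hu)).mul ((D.eqv_Psi h hu).pow p)).mul
    ((D.eqv_theta h hu).pow r)).BP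
  rw [← e2, ← e3, Pst, ← D.BP_step h.isProj, ← D.BP_step h.isProj, ← map_sub, ← sub_eq_zero,
    ← map_sub, ← sub_eq_zero.2 h2, ← smul_eq_mul (p : ℝ), ← map_smul, ← map_sub]
  congr 1
  simp only [Nat.cast_smul_eq_nsmul, nsmul_eq_mul]
  linear_combination (-(D.Psi P u x ^ p * D.Th (P x) ^ r)) * D.t_mul_Lam (P := P) (x := x) (u x) (w x)

lemma τ_Om (h : Lev X d P x) : D.τ (D.Om P x) = D.Om P x := by
  simp only [Om, map_sum, map_pow, D.τ_Th (h.symTan_Sop _).symm]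

lemma inner_Uf_w (h : Lev X (d + 1) P x) (hu : UnitF X P u x)
    (hs : ∀ v w, ⟪Top (Pst P u) u x v, w⟫_ℝ = ⟪v, Top (Pst P u) u x w⟫_ℝ) {w : Eu A → Eu A}
    (hw : TanF X P w x) (hw' : ⟪u x, w x⟫_ℝ = 0) (p r : ℕ) :
    ⟪D.Uf d P u p r x, w x⟫_ℝ = -(2 * p) * (divP P (D.Vf d P u w (p - 1) r) x +
      D.BP d (Pst P u x) (D.Th (Top (Pst P u) w x) * D.Th (Top (Pst P u) u x) *
        D.Om (Pst P u) x ^ (p - 1) * D.Th (Pst P u x) ^ r)) := by
  rw [D.div_Vf h hu hs hw hw', sub_add_cancel, Uf, D.inner_VF h.isProj, ← D.BP_τ h.isProj]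
  set S := D.Th (Top (Pst P u) u x) with hS
  set a := Top P u x (u x)
  have e1 : D.τ (D.Psi P u x) = D.Om P x + (S + D.t a (u x)) ^ 2 := by
    rw [Psi, D.beta_split h hu, map_add, D.τ_Om h, map_pow, map_add, D.τ_Th hs, D.τ_t]
  have hSp : S ∈ D.Perp (u x) := D.Th_mem_Perp fun v => by rw [h.Top_Pst hu, h.inner_Pst hu]
  have e2 : D.Om P x + (S + D.t a (u x)) ^ 2 - (2 * D.Lam P x (u x) (u x) + 2 * S * D.t a (u x))
      ∈ D.Perp (u x) := by
    have := add_mem (D.Om_perp h hu) (pow_mem hSp 2)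
    convert this using 1
    linear_combination D.same_left a (u x) (u x)
  have h2 := D.contract h.isProj (h.norm_u hu) (h.tan_self hu.toTanF)
    (D.t_mem_Perp (u x) hw') e2
    (by linear_combination D.two_Lam_sq (P := P) (x := x) (u x) +
      8 * S * D.Lam_mul_t (P := P) (x := x) (u x) (u x) a + 4 * S ^ 2 * D.same_left a (u x) (u x))
    (by linear_combination D.two_Lam_t (P := P) (x := x) (u x) +
      2 * S * D.same_right a (u x) (u x)) p r
  have e3 : D.t (u x) (u x) * (D.t (u x) (w x) * (D.Om P x + (S + D.t a (u x)) ^ 2) ^ p *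
      D.Th (P x) ^ (r - 1)) = 0 := by
    rw [← mul_assoc, ← mul_assoc, D.same_left]; simp
  rw [e3, map_zero, mul_zero, add_zero] at h2
  rw [map_mul D.τ, map_mul D.τ, map_pow D.τ, map_pow D.τ, D.τ_t, e1, D.τ_Th h.isProj.symm, ← mul_assoc, h2]
  have e4 : D.Eqv d (Pst P u x) (D.Om P x + (S + D.t a (u x)) ^ 2) (D.Om (Pst P u) x) := by
    have : D.Eqv d (Pst P u x) (D.t a (u x)) 0 :=
      Eqv.trans (Eqv.symm (D.t_nu_right (h.isProj' hu) _ _)) (Eqv.of_eq (by simp [h.Pst_u hu]))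
    refine ((Eqv.refl _).add (((Eqv.refl S).add this).pow 2)).trans ?_
    rw [add_zero]
    exact (D.eqv_Om h hu).symm
  have e5 := ((Eqv.refl (D.t a (w x) * S + D.Lam P x (u x) (w x))).mul
    ((e4.pow (p - 1)).mul ((D.eqv_theta h hu).pow r))).BP
  rw [← e5, Pst, ← D.BP_step h.isProj]
  have e6 : D.t (u x) (w x) * (2 * D.Lam P x (u x) (u x) + 2 * S * D.t a (u x)) *
      (D.Om P x + (S + D.t a (u x)) ^ 2) ^ (p - 1) * D.Th (P x) ^ r =
      (-2 : ℝ) • (D.t (u x) (u x) * ((D.t a (w x) * S + D.Lam P x (u x) (w x)) *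
        ((D.Om P x + (S + D.t a (u x)) ^ 2) ^ (p - 1) * D.Th (P x) ^ r))) := by
    rw [neg_smul, two_smul]
    linear_combination (2 * (D.Om P x + (S + D.t a (u x)) ^ 2) ^ (p - 1) * D.Th (P x) ^ r) *
      (D.t_mul_Lam (P := P) (x := x) (u x) (w x) + S * D.swap (u x) (w x) a (u x))
  rw [e6, map_smul, smul_eq_mul]
  ring

end DFA

end Pool.Agent.AlEmb
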