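import Pool.Agent.Lib.MP_3fa020_gt.EDefs2

/-!
Upper integrals, divergences, integration by parts.
-/

namespace Pool.Agent.AlEmb

open Set Filter Topology MeasureTheory
open scoped InnerProductSpace ContDiff

variable {A n : ℕ}

namespace Emb

variable {X : Emb A n} {g g₁ g₂ : Eu A → ℝ} {K K₁ K₂ : ℝ}

lemma ae_mem (X : Emb A n) : ∀ᵐ x ∂X.μ, x ∈ X.M := ae_restrict_mem X.measurableSet_M

lemma integrable_of_continuousOn (h : ContinuousOn g X.M) : Integrable g X.μ := by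
  have := X.μ_finite
  obtain ⟨C, hC⟩ := X.cpt.exists_bound_of_continuousOn h
  exact Integrable.of_bound (h.aestronglyMeasurable X.measurableSet_M) C
    (X.ae_mem.mono fun x hx => hC x hx)

namespace Maj

lemma nonneg (h : X.Maj g K) : 0 ≤ K := h.1

lemma mono (h : X.Maj g₂ K₂) (hg : ∀ x ∈ X.M, g₁ x ≤ g₂ x) (hK : K₂ ≤ K₁) : X.Maj g₁ K₁ := by
  obtain ⟨h0, g', h1, h2, h3⟩ := h
  exact ⟨h0.trans hK, g', h1, fun x hx => (ENNReal.ofReal_le_ofReal (hg x hx)).trans (h2 x hx),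
    h3.trans (ENNReal.ofReal_le_ofReal hK)⟩

lemma zero (hg : ∀ x ∈ X.M, g x ≤ 0) (hK : 0 ≤ K) : X.Maj g K :=
  ⟨hK, fun _ => 0, aemeasurable_const, fun x hx => by simp [hg x hx], by simp⟩

lemma add (h₁ : X.Maj g₁ K₁) (h₂ : X.Maj g₂ K₂) : X.Maj (fun x => g₁ x + g₂ x) (K₁ + K₂) := by
  obtain ⟨a0, a, a1, a2, a3⟩ := h₁
  obtain ⟨b0, b, b1, b2, b3⟩ := h₂
  refine ⟨add_nonneg a0 b0, fun x => a x + b x, a1.add b1, fun x hx =>
    ENNReal.ofReal_add_le.trans (add_le_add (a2 x hx) (b2 x hx)), ?_⟩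
  rw [lintegral_add_left' a1, ENNReal.ofReal_add a0 b0]
  exact add_le_add a3 b3

lemma smul (h : X.Maj g K) {c : ℝ} (hc : 0 ≤ c) : X.Maj (fun x => c * g x) (c * K) := by
  obtain ⟨a0, a, a1, a2, a3⟩ := h
  refine ⟨mul_nonneg hc a0, fun x => ENNReal.ofReal c * a x, a1.const_mul _, fun x hx => ?_, ?_⟩
  · rw [ENNReal.ofReal_mul hc]; exact mul_le_mul_right (a2 x hx) _
  · rw [lintegral_const_mul' _ _ ENNReal.ofReal_ne_top, ENNReal.ofReal_mul hc]; gcongr

lemma sum {ι : Type*} (s : Finset ι) {g : ι → Eu A → ℝ} {K : ι → ℝ}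
    (h : ∀ i ∈ s, X.Maj (g i) (K i)) : X.Maj (fun x => ∑ i ∈ s, g i x) (∑ i ∈ s, K i) := by
  classical
  induction s using Finset.induction_on with
  | empty => exact zero (by simp) (by simp)
  | insert a s ha ih =>
    simp only [Finset.sum_insert ha]
    exact (h a (by simp)).add (ih fun i hi => h i (by simp [hi]))

lemma lintegral_le (h : X.Maj g K) : ∫⁻ x, ENNReal.ofReal (g x) ∂X.μ ≤ ENNReal.ofReal K := by
  obtain ⟨-, a, -, a2, a3⟩ := h
  exact (lintegral_mono_ae (X.ae_mem.mono a2)).trans a3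

/-- a divergence can be dropped -/
lemma of_div {a F : Eu A → ℝ} (h : X.Maj g K) (ha : ContinuousOn a X.M)
    (ha0 : ∀ x ∈ X.M, 0 ≤ a x) (hF : X.IsDiv F) (hle : ∀ x ∈ X.M, a x ≤ F x + g x) :
    X.Maj a K := by
  obtain ⟨h0, g', h1, h2, h3⟩ := h
  have hi := integrable_of_continuousOn ha
  refine ⟨h0, fun x => ENNReal.ofReal (a x), hi.aemeasurable.ennreal_ofReal, fun _ _ => le_rfl, ?_⟩
  have hfin : ∫⁻ x, g' x ∂X.μ ≠ ⊤ := ne_top_of_le_ne_top ENNReal.ofReal_ne_top h3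
  have hg := integrable_toReal_of_lintegral_ne_top h1 hfin
  rw [← ofReal_integral_eq_lintegral_ofReal hi (X.ae_mem.mono ha0)]
  refine ENNReal.ofReal_le_ofReal ?_
  have e : ∫ x, a x ∂X.μ ≤ ∫ x, (F x + (g' x).toReal) ∂X.μ := by
    refine integral_mono_ae hi (hF.1.add hg) ?_
    filter_upwards [X.ae_mem, ae_lt_top' h1 hfin] with x hx hx'
    have := (ENNReal.ofReal_le_iff_le_toReal hx'.ne).1 (h2 x hx)
    linarith [hle x hx]
  rw [integral_add hF.1 hg, hF.2, zero_add, integral_toReal h1 (ae_lt_top' h1 hfin)] at e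
  exact e.trans (ENNReal.toReal_le_of_le_ofReal h0 h3)

end Maj

namespace Bd

variable {W W₁ W₂ : Set (Eu A)}

lemma nonneg (h : X.Bd g W K) : 0 ≤ K := h.1

lemma up (h : X.Bd g W K₂) (hK : K₂ ≤ K₁) : X.Bd g W K₁ := Maj.mono h (fun _ _ => le_rfl) hK

/-- comparison of the positive parts -/
lemma pos (h : X.Bd g W K) : X.Maj (fun x => max (W.indicator g x) 0) K := by
  obtain ⟨h0, g', h1, h2, h3⟩ := h
  exact ⟨h0, g', h1, fun x hx => by simpa using h2 x hx, h3⟩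

lemma mono (h : X.Bd g₂ W₂ K₂) (hW : ∀ x ∈ X.M, x ∈ W₁ → x ∈ W₂ ∧ g₁ x ≤ g₂ x) (hK : K₂ ≤ K₁) :
    X.Bd g₁ W₁ K₁ := by
  refine Maj.mono h.pos (fun x hx => ?_) hK
  by_cases h1 : x ∈ W₁
  · rw [indicator_of_mem h1, indicator_of_mem (hW x hx h1).1]
    exact (hW x hx h1).2.trans (le_max_left _ _)
  · rw [indicator_of_notMem h1]; exact le_max_right _ _

lemma subset (h : X.Bd g W₂ K) (hW : W₁ ⊆ W₂) : X.Bd g W₁ K :=
  h.mono (fun _ _ hx => ⟨hW hx, le_rfl⟩) le_rfl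

lemma smul (h : X.Bd g W K) {c : ℝ} (hc : 0 ≤ c) : X.Bd (fun x => c * g x) W (c * K) :=
  Maj.mono (Maj.smul h hc) (fun x _ => by by_cases hx : x ∈ W <;> simp [hx]) le_rfl

lemma empty (hK : 0 ≤ K) : X.Bd g ∅ K := Maj.zero (by simp) hK

lemma biUnion {ι : Type*} (s : Finset ι) {V : ι → Set (Eu A)} {K : ι → ℝ}
    (h : ∀ i ∈ s, X.Bd g (V i) (K i)) (hW : ∀ x ∈ W, ∃ i ∈ s, x ∈ V i) :
    X.Bd g W (∑ i ∈ s, K i) := by
  refine Maj.mono (Maj.sum s fun i hi => (h i hi).pos) (fun x _ => ?_) le_rfl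
  by_cases hx : x ∈ W
  · obtain ⟨i, hi, hx'⟩ := hW x hx
    refine le_trans ?_ (Finset.single_le_sum (f := fun i => max ((V i).indicator g x) 0)
      (fun _ _ => le_max_right _ _) hi)
    rw [indicator_of_mem hx, indicator_of_mem hx']
    exact le_max_left _ _
  · rw [indicator_of_notMem hx]
    exact Finset.sum_nonneg fun _ _ => le_max_right _ _

lemma union (h₁ : X.Bd g W₁ K₁) (h₂ : X.Bd g W₂ K₂) (hW : W ⊆ W₁ ∪ W₂) : X.Bd g W (K₁ + K₂) := by
  have := biUnion (X := X) (g := g) (W := W) (Finset.univ : Finset Bool)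
    (V := fun b => bif b then W₁ else W₂) (K := fun b => bif b then K₁ else K₂)
    (by rintro (_ | _) _ <;> simpa) (fun x hx => by simpa [or_comm] using hW hx)
  simpa using this

lemma of_maj {a : Eu A → ℝ} (h : X.Maj a K) (ha0 : ∀ x ∈ X.M, 0 ≤ a x)
    (hle : ∀ x ∈ X.M, x ∈ W → g x ≤ a x) : X.Bd g W K :=
  Maj.mono h (fun x hx => by
    by_cases h1 : x ∈ W
    · rw [indicator_of_mem h1]; exact hle x hx h1
    · rw [indicator_of_notMem h1]; exact ha0 x hx) le_rfl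

end Bd

namespace IsDiv

variable {F F' : Eu A → ℝ}

lemma zero : X.IsDiv fun _ => 0 := ⟨integrable_zero _ _ _, by simp⟩

lemma add (h : X.IsDiv F) (h' : X.IsDiv F') : X.IsDiv fun x => F x + F' x :=
  ⟨h.1.add h'.1, by rw [integral_add h.1 h'.1, h.2, h'.2, add_zero]⟩

lemma smul (h : X.IsDiv F) (c : ℝ) : X.IsDiv fun x => c * F x :=
  ⟨h.1.const_mul c, by rw [integral_const_mul, h.2, mul_zero]⟩

lemma sum {ι : Type*} (s : Finset ι) {F : ι → Eu A → ℝ} (h : ∀ i ∈ s, X.IsDiv (F i)) :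
    X.IsDiv fun x => ∑ i ∈ s, F i x :=
  ⟨integrable_finsetSum _ fun i hi => (h i hi).1, by
    rw [integral_finsetSum _ fun i hi => (h i hi).1]
    exact Finset.sum_eq_zero fun i hi => (h i hi).2⟩

lemma congr (h : X.IsDiv F) (e : ∀ x ∈ X.M, F x = F' x) : X.IsDiv F' :=
  ⟨h.1.congr (X.ae_mem.mono e), by rw [← integral_congr_ae (X.ae_mem.mono e), h.2]⟩

end IsDiv

lemma isDiv_divP {Y : Eu A → Eu A} (h : ∀ x ∈ X.M, TanF X X.P Y x) : X.IsDiv (divP X.P Y) := by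
  refine ⟨integrable_of_continuousOn fun x hx => ContinuousAt.continuousWithinAt ?_,
    X.integral_divP Y (fun x hx => (h x hx).smooth.of_le (by simp))
      fun x hx => (Lev.base hx).tan_self (h x hx)⟩
  have := ContDiffAt.sum (s := Finset.univ) fun a _ =>
    ((cda_fderiv (h x hx).smooth).clm_apply
      ((X.P_smooth.contDiffAt (x := x)).clm_apply (contDiffAt_const (c := ee a)))).inner ℝ
      (contDiffAt_const (c := ee a))
  exact this.continuousAt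

variable {f : ℕ → Eu A → ℝ} {j : ℕ}

lemma NZ.tanF_base {x : Eu A} (h : X.NZ f j x) {Y : Eu A → Eu A} (hY : TanF X (X.Pl f j) Y x) :
    TanF X X.P Y x :=
  ⟨hY.smooth, by filter_upwards [h.lev'.proj, hY.tan] with y h1 h2; rw [← h2, h1.2]⟩

/-- divergence theorem on the levels -/
lemma isDiv_level {Y : Eu A → Eu A}
    (h : ∀ x ∈ X.M, (X.NZ f j x ∧ TanF X (X.Pl f j) Y x) ∨ Y =ᶠ[𝓝 x] fun _ => 0) :
    X.IsDiv fun x => X.Jl f j x * divP (X.Pl f j) Y x := by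
  have h0 : ∀ x, (Y =ᶠ[𝓝 x] fun _ => 0) → (fun y => X.Jl f j y • Y y) =ᶠ[𝓝 x] fun _ => 0 :=
    fun x hx => hx.mono fun y hy => by simp [hy]
  refine (isDiv_divP (Y := fun y => X.Jl f j y • Y y) fun x hx => ?_).congr fun x hx => ?_
  · rcases h x hx with ⟨h1, h2⟩ | h1
    · exact (h1.tanF_base h2).smul h1.cda_Jl
    · exact ⟨contDiffAt_const.congr_of_eventuallyEq (h0 x h1),
        ((h0 x h1).filter_mono nhdsWithin_le_nhds).mono fun y hy => by simp [hy]⟩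
  · rcases h x hx with ⟨h1, h2⟩ | h1
    · exact h1.divP_Jl h2
    · simp [divP, (h0 x h1).fderiv_eq, h1.fderiv_eq]

/-- integration by parts on the levels -/
lemma ibp {Y : Eu A → Eu A} {φ : Eu A → ℝ} (hφ : ContDiff ℝ ∞ φ)
    (h : ∀ x ∈ X.M, x ∈ tsupport φ → X.NZ f j x ∧ TanF X (X.Pl f j) Y x) :
    X.IsDiv fun x => X.Jl f j x * (φ x * divP (X.Pl f j) Y x + fderiv ℝ φ x (Y x)) := by
  refine (isDiv_level (f := f) (j := j) (Y := fun y => φ y • Y y) fun x hx => ?_).congr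
    fun x hx => ?_
  · by_cases h1 : x ∈ tsupport φ
    · exact Or.inl ⟨(h x hx h1).1, (h x hx h1).2.smul hφ.contDiffAt⟩
    · exact Or.inr ((notMem_tsupport_iff_eventuallyEq.1 h1).mono fun y hy => by simp [hy])
  · by_cases h1 : x ∈ tsupport φ
    · rw [divP_smul (cda_diff hφ.contDiffAt) (cda_diff (h x hx h1).2.smooth),
        (h x hx h1).1.lev'.tan_self (h x hx h1).2]
    · have h2 := notMem_tsupport_iff_eventuallyEq.1 h1
      have h3 : (fun y => φ y • Y y) =ᶠ[𝓝 x] fun _ => 0 := h2.mono fun y hy => by simp [hy]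
      simp [divP, h3.fderiv_eq, h2.fderiv_eq, h2.eq_of_nhds]

lemma continuousOn_cut {φ F : Eu A → ℝ} (hφ : Continuous φ)
    (h : ∀ x ∈ X.M, x ∈ tsupport φ → ContinuousAt F x) : ContinuousOn (fun x => φ x * F x) X.M := by
  intro x hx
  refine ContinuousAt.continuousWithinAt ?_
  by_cases h1 : x ∈ tsupport φ
  · exact hφ.continuousAt.mul (h x hx h1)
  · refine (continuousAt_const (y := (0 : ℝ))).congr ?_
    exact (notMem_tsupport_iff_eventuallyEq.1 h1).mono fun y hy => by simp [hy]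

end Emb

namespace Ctx

variable {k : ℕ} (S : Ctx n k)

lemma cosh_le_two {r : ℝ} (h0 : 0 ≤ r) (h1 : r ≤ 1) : Real.cosh r ≤ 2 := by
  have h2 : Real.cosh r ≤ Real.cosh 1 := by
    rw [Real.cosh_le_cosh, abs_of_nonneg h0, abs_one]; exact h1
  refine h2.trans ?_
  rw [Real.cosh_eq]
  have := Real.exp_one_lt_d9
  have h3 : Real.exp (-1) ≤ 1 := Real.exp_le_one_iff.2 (by norm_num)
  linarith

lemma bd_one {y : Eu S.A} (hy : y ∈ S.X.M) {r : ℝ} (h0 : 0 ≤ r) (h1 : r ≤ 1) :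
    S.X.Bd (fun _ => 1) (S.G.ball y r) (4 ^ n * r ^ n) := by
  refine ⟨by positivity, (S.G.ball y r).indicator 1,
    (measurable_one.indicator (S.G.measurableSet_ball hy r)).aemeasurable, fun x _ => ?_, ?_⟩
  · by_cases hx : x ∈ S.G.ball y r <;> simp [hx]
  · rw [lintegral_indicator_one (S.G.measurableSet_ball hy r)]
    refine (Geo.vol_ball S.geod S.hinge hy h0).trans (ENNReal.ofReal_le_ofReal ?_)
    rw [← mul_pow]
    have := cosh_le_two h0 h1
    have := Real.cosh_pos r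
    exact pow_le_pow_left₀ (by positivity) (by nlinarith) _

/-- covering by small balls -/
lemma bd_cover {g : Eu S.A → ℝ} {y : Eu S.A} (hy : y ∈ S.X.M) {r θ K : ℝ} (h0 : 0 < r)
    (h1 : r ≤ 1) (hθ : 0 < θ) {W : Set (Eu S.A)} (hW : W ⊆ S.G.ball y r) (hK : 0 ≤ K)
    (h : ∀ t ∈ W, S.X.Bd g (W ∩ S.G.ball t (θ * r)) K) : S.X.Bd g W ((1 + 4 / θ) ^ n * K) := by
  obtain ⟨T, h2, h3, h4⟩ := Geo.cover S.geod S.hinge hy h0.le (mul_pos hθ h0) hW
  refine (Emb.Bd.biUnion T (K := fun _ => K) (fun t ht => h t (h2 ht)) fun x hx => ?_).up ?_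
  · obtain ⟨t, ht, hd⟩ := h4 x hx
    exact ⟨t, ht, hx, (hW hx).1, hd⟩
  · rw [Finset.sum_const, nsmul_eq_mul]
    refine mul_le_mul_of_nonneg_right (h3.trans ?_) hK
    have := cosh_le_two h0.le h1
    have := Real.cosh_pos r
    refine pow_le_pow_left₀ (by positivity) (add_le_add_right ?_ _) _
    rw [div_le_div_iff₀ (by positivity) hθ]
    nlinarith [mul_pos hθ h0]

end Ctx

end Pool.Agent.AlEmb
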