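import Pool.Agent.Lib.MP_3fa020_gt.EDom

/-!
Calculus of double forms along an integrable distribution on `M`.
-/

namespace Pool.Agent.AlEmb

open Set Filter Topology
open scoped InnerProductSpace ContDiff

variable {A n : ℕ}

lemma two_le_inf : (2 : WithTop ℕ∞) ≤ ∞ := WithTop.coe_le_coe.2 le_top

/-- `P` is near `x` a smooth torsion free distribution of rank `d` tangent to `M` -/
structure Lev (X : Emb A n) (d : ℕ) (P : Eu A → Eu A →L[ℝ] Eu A) (x : Eu A) : Prop where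
  mem : x ∈ X.M
  smooth : ContDiffAt ℝ ∞ P x
  proj : ∀ᶠ y in 𝓝[X.M] x, IsProj d (P y) ∧ ∀ v, X.P y (P y v) = P y v
  tors : ∀ v w, fderiv ℝ P x (P x v) (P x w) = fderiv ℝ P x (P x w) (P x v)

/-- `u` is near `x` a smooth field tangent to `P` -/
structure TanF (X : Emb A n) (P : Eu A → Eu A →L[ℝ] Eu A) (u : Eu A → Eu A) (x : Eu A) :
    Prop where
  smooth : ContDiffAt ℝ ∞ u x
  tan : ∀ᶠ y in 𝓝[X.M] x, P y (u y) = u y

lemma cda_diff {V W : Type*} [NormedAddCommGroup V] [NormedSpace ℝ V] [NormedAddCommGroup W]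
    [NormedSpace ℝ W] {F : V → W} {x : V} (h : ContDiffAt ℝ ∞ F x) : DifferentiableAt ℝ F x :=
  h.differentiableAt (by simp)

lemma cda_ev_diff {V W : Type*} [NormedAddCommGroup V] [NormedSpace ℝ V] [NormedAddCommGroup W]
    [NormedSpace ℝ W] {F : V → W} {x : V} (h : ContDiffAt ℝ ∞ F x) :
    ∀ᶠ y in 𝓝 x, DifferentiableAt ℝ F y :=
  ((h.of_le (m := 1) (by simp)).eventually (by simp)).mono fun _ hy =>
    hy.differentiableAt (by simp)

lemma cda_fderiv {V W : Type*} [NormedAddCommGroup V] [NormedSpace ℝ V] [NormedAddCommGroup W]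
    [NormedSpace ℝ W] {F : V → W} {x : V} (h : ContDiffAt ℝ ∞ F x) :
    ContDiffAt ℝ ∞ (fderiv ℝ F) x := h.fderiv_right (by simp)

lemma cda_symm {W : Type*} [NormedAddCommGroup W] [NormedSpace ℝ W] {F : Eu A → W} {x : Eu A}
    (h : ContDiffAt ℝ ∞ F x) (v w : Eu A) :
    fderiv ℝ (fderiv ℝ F) x v w = fderiv ℝ (fderiv ℝ F) x w v :=
  (h.isSymmSndFDerivAt (by simpa using two_le_inf)).eq v w

lemma cda_Top {P : Eu A → Eu A →L[ℝ] Eu A} {u : Eu A → Eu A} {x : Eu A} (hP : ContDiffAt ℝ ∞ P x)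
    (hu : ContDiffAt ℝ ∞ u x) : ContDiffAt ℝ ∞ (Top P u) x :=
  hP.clm_comp ((cda_fderiv hu).clm_comp hP)

lemma Top_apply (P : Eu A → Eu A →L[ℝ] Eu A) (u : Eu A → Eu A) (x v : Eu A) :
    Top P u x v = P x (fderiv ℝ u x (P x v)) := rfl

lemma Sop_apply (P : Eu A → Eu A →L[ℝ] Eu A) (x : Eu A) (c : Fin A) (v : Eu A) :
    Sop P x c v = P x (fderiv ℝ P x (P x v) (ee c)) := rfl

lemma fderiv_clm_const {P : Eu A → Eu A →L[ℝ] Eu A} {x : Eu A} (hP : DifferentiableAt ℝ P x)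
    (w v : Eu A) : fderiv ℝ (fun y => P y w) x v = fderiv ℝ P x v w := by
  have h1 : HasFDerivAt (fun y => P y w) ((fderiv ℝ P x).flip w) x := by
    simpa using hP.hasFDerivAt.clm_apply (hasFDerivAt_const w x)
  rw [h1.fderiv]; rfl

lemma Sop_eq_Top {P : Eu A → Eu A →L[ℝ] Eu A} {x : Eu A} (hP : DifferentiableAt ℝ P x)
    (c : Fin A) : Sop P x c = Top P (fun y => P y (ee c)) x := by
  ext1 v
  rw [Sop_apply, Top_apply, fderiv_clm_const hP]

lemma cda_Sop {P : Eu A → Eu A →L[ℝ] Eu A} {x : Eu A} (hP : ContDiffAt ℝ ∞ P x) (c : Fin A) :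
    ContDiffAt ℝ ∞ (fun y => Sop P y c) x := by
  have h1 : ContDiffAt ℝ ∞ (fun y => (fderiv ℝ P y).flip (ee c)) x := by
    have := ((ContinuousLinearMap.flipₗᵢ ℝ (Eu A) (Eu A) (Eu A)).contDiff.contDiffAt.comp x
      (cda_fderiv hP)).clm_apply (contDiffAt_const (c := ee c))
    exact this
  exact hP.clm_comp (h1.clm_comp hP)

namespace Lev

variable {X : Emb A n} {d : ℕ} {P : Eu A → Eu A →L[ℝ] Eu A} {x : Eu A} (h : Lev X d P x)
include h

lemma isProj : IsProj d (P x) := (h.proj.self_of_nhdsWithin h.mem).1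

lemma sub (v : Eu A) : X.P x (P x v) = P x v := (h.proj.self_of_nhdsWithin h.mem).2 v

lemma diff : DifferentiableAt ℝ P x := cda_diff h.smooth

lemma fderiv_eq {V : Type*} [NormedAddCommGroup V] [NormedSpace ℝ V] {F G : Eu A → V}
    (e : F =ᶠ[𝓝[X.M] x] G) (hF : DifferentiableAt ℝ F x) (hG : DifferentiableAt ℝ G x)
    (v : Eu A) : fderiv ℝ F x (P x v) = fderiv ℝ G x (P x v) := by
  rw [← h.sub v]; exact Emb.fderiv_tan h.mem e hF hG _

lemma off (v w : Eu A) : fderiv ℝ P x (P x v) w =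
    fderiv ℝ P x (P x v) (P x w) + P x (fderiv ℝ P x (P x v) w) := by
  have := (proj_deriv h.mem h.diff (h.proj.mono fun _ hy => hy.1) (P x v)).1 w
  rwa [h.sub] at this

lemma adj (v w w' : Eu A) :
    ⟪fderiv ℝ P x (P x v) w, w'⟫_ℝ = ⟪w, fderiv ℝ P x (P x v) w'⟫_ℝ := by
  have := (proj_deriv h.mem h.diff (h.proj.mono fun _ hy => hy.1) (P x v)).2 w w'
  rwa [h.sub] at this

lemma PKP (v w : Eu A) : P x (fderiv ℝ P x (P x v) (P x w)) = 0 := by
  have := h.off v (P x w)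
  rw [h.isProj.idem] at this
  simpa using this.symm

lemma inner_Sop (c : Fin A) (v w : Eu A) :
    ⟪Sop P x c v, w⟫_ℝ = ⟪ee c, fderiv ℝ P x (P x v) (P x w)⟫_ℝ := by
  rw [Sop_apply, h.isProj.symm, h.adj]

lemma symTan_Sop (c : Fin A) : SymTan (P x) (Sop P x c) := by
  refine ⟨fun v w => ?_, fun v => by simp only [Sop_apply, h.isProj.idem],
    fun v => by simp only [Sop_apply, h.isProj.idem]⟩
  rw [h.inner_Sop, h.tors, ← h.inner_Sop, real_inner_comm]

lemma Top_right (u : Eu A → Eu A) (v : Eu A) : Top P u x (P x v) = Top P u x v := by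
  simp only [Top_apply, h.isProj.idem]

lemma Top_left (u : Eu A → Eu A) (v : Eu A) : P x (Top P u x v) = Top P u x v := by
  simp only [Top_apply, h.isProj.idem]

lemma tanF_P (w : Eu A) : TanF X P (fun y => P y w) x :=
  ⟨h.smooth.clm_apply contDiffAt_const, h.proj.mono fun _ hy => hy.1.idem w⟩

lemma tan_self {u : Eu A → Eu A} (hu : TanF X P u x) : P x (u x) = u x :=
  hu.tan.self_of_nhdsWithin h.mem

/-- Gauss formula for a tangent field -/
lemma tan_deriv {u : Eu A → Eu A} (hu : TanF X P u x) (v : Eu A) :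
    fderiv ℝ u x (P x v) = fderiv ℝ P x (P x v) (u x) + Top P u x v := by
  have h2 := h.diff.hasFDerivAt.clm_apply (cda_diff hu.smooth).hasFDerivAt
  have := h.fderiv_eq (F := u) (G := fun y => P y (u y)) (hu.tan.mono fun y hy => hy.symm)
    (cda_diff hu.smooth) h2.differentiableAt v
  rw [h2.fderiv] at this
  rw [this, Top_apply]
  simp [add_comm]

lemma unit_deriv {u : Eu A → Eu A} (hu : TanF X P u x) (h1 : ∀ᶠ y in 𝓝[X.M] x, ‖u y‖ = 1)
    (v : Eu A) : ⟪u x, Top P u x v⟫_ℝ = 0 := by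
  have h2 := (cda_diff hu.smooth).hasFDerivAt.inner ℝ (cda_diff hu.smooth).hasFDerivAt
  have := h.fderiv_eq (F := fun y => ⟪u y, u y⟫_ℝ) (G := fun _ => (1 : ℝ))
    (h1.mono fun y hy => by simp [hy]) h2.differentiableAt (differentiableAt_const _) v
  rw [h2.fderiv] at this
  simp only [fderiv_fun_const, Pi.zero_apply, zero_apply, ContinuousLinearMap.comp_apply,
    fderivInnerCLM_apply, ContinuousLinearMap.prod_apply] at this
  rw [real_inner_comm (u x)] at this
  rw [Top_apply, ← h.isProj.symm, h.tan_self hu]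
  linarith

/-- a trace between a tangential and a normal slot vanishes -/
lemma trace_zero {V : Type*} [AddCommGroup V] [Module ℝ V] (b : Eu A →ₗ[ℝ] Eu A →ₗ[ℝ] V)
    (hb : ∀ v w, b v (P x w) = 0) : ∑ a, b (P x (ee a)) (ee a) = 0 := by
  rw [sum_ee_symm b (P x) (P x) h.isProj.symm]
  simp [hb]

end Lev

namespace DFA

variable (D : DFA A)

/-- exterior covariant derivative paired with the vector `u` -/
noncomputable def dd (P : Eu A → Eu A →L[ℝ] Eu A) (x u : Eu A) (F : Eu A → D.R) : D.R :=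
  ∑ a, D.t (P x (ee a)) u * fderiv ℝ F x (P x (ee a))

/-- curvature form contracted with `w` -/
noncomputable def Lam (P : Eu A → Eu A →L[ℝ] Eu A) (x w u : Eu A) : D.R :=
  ∑ c, D.t (Sop P x c w) u * D.Th (Sop P x c)

/-- `F` is smooth at `x` and its exterior derivative paired with `u` is `G` -/
structure HasD (d : ℕ) (P : Eu A → Eu A →L[ℝ] Eu A) (x u : Eu A) (F : Eu A → D.R) (G : D.R) :
    Prop where
  smooth : ContDiffAt ℝ ∞ F x
  tan : F x ∈ D.Tan (P x)
  eqv : D.Eqv d (P x) (D.dd P x u F) G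

namespace HasD

variable {D} {d : ℕ} {P : Eu A → Eu A →L[ℝ] Eu A} {x u : Eu A} {F F' : Eu A → D.R} {G G' : D.R}

lemma congr (h : D.HasD d P x u F G) (e : D.Eqv d (P x) G G') : D.HasD d P x u F G' :=
  ⟨h.smooth, h.tan, h.eqv.trans e⟩

lemma cast (h : D.HasD d P x u F G) (e : G = G') : D.HasD d P x u F G' := e ▸ h

lemma add (h : D.HasD d P x u F G) (h' : D.HasD d P x u F' G') :
    D.HasD d P x u (fun y => F y + F' y) (G + G') := by
  refine ⟨h.smooth.add h'.smooth, add_mem h.tan h'.tan, Eqv.trans (Eqv.of_eq ?_) (h.eqv.add h'.eqv)⟩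
  simp only [dd, fderiv_fun_add (cda_diff h.smooth) (cda_diff h'.smooth), add_apply, mul_add,
    Finset.sum_add_distrib]

lemma mul (h : D.HasD d P x u F G) (h' : D.HasD d P x u F' G') :
    D.HasD d P x u (fun y => F y * F' y) (G * F' x + F x * G') := by
  refine ⟨h.smooth.mul h'.smooth, mul_mem h.tan h'.tan, Eqv.trans (Eqv.of_eq ?_)
    ((h.eqv.mul (Eqv.refl (F' x))).add ((Eqv.refl (F x)).mul h'.eqv))⟩
  simp only [dd, fderiv_fun_mul (cda_diff h.smooth) (cda_diff h'.smooth), add_apply, smul_apply,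
    smul_eq_mul, Finset.sum_mul, Finset.mul_sum, ← Finset.sum_add_distrib]
  exact Finset.sum_congr rfl fun a _ => by ring

lemma pow (h : D.HasD d P x u F G) (k : ℕ) :
    D.HasD d P x u (fun y => F y ^ k) ((k : ℝ) • (F x ^ (k - 1) * G)) := by
  refine ⟨h.smooth.pow k, pow_mem h.tan k, Eqv.trans (Eqv.of_eq ?_)
    (((Eqv.refl (F x ^ (k - 1))).mul h.eqv).smul k)⟩
  simp only [dd, ((cda_diff h.smooth).hasFDerivAt.pow k).fderiv, smul_apply, smul_eq_mul,
    Finset.mul_sum, Finset.smul_sum, Nat.cast_smul_eq_nsmul, nsmul_eq_mul]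
  exact Finset.sum_congr rfl fun a _ => by ring

lemma sum {ι : Type*} (s : Finset ι) {f : ι → Eu A → D.R} {g : ι → D.R}
    (h : ∀ i ∈ s, D.HasD d P x u (f i) (g i)) :
    D.HasD d P x u (fun y => ∑ i ∈ s, f i y) (∑ i ∈ s, g i) := by
  classical
  induction s using Finset.induction_on with
  | empty =>
    simp only [Finset.sum_empty]
    exact ⟨contDiffAt_const, zero_mem _, Eqv.of_eq (by simp [dd])⟩
  | insert a s ha ih =>
    simp only [Finset.sum_insert ha]
    exact (h a (by simp)).add (ih fun i hi => h i (by simp [hi]))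

end HasD

variable {X : Emb A n} {d : ℕ} {P : Eu A → Eu A →L[ℝ] Eu A} {x : Eu A}

lemma fderiv_Th {T : Eu A → Eu A →L[ℝ] Eu A} (hT : DifferentiableAt ℝ T x) (v : Eu A) :
    fderiv ℝ (fun y => D.Th (T y)) x v = D.Th (fderiv ℝ T x v) := by
  have := (D.Th.hasFDerivAt.comp x hT.hasFDerivAt).fderiv
  exact congrArg (fun L : Eu A →L[ℝ] D.R => L v) this

lemma cda_Th {T : Eu A → Eu A →L[ℝ] Eu A} (hT : ContDiffAt ℝ ∞ T x) :
    ContDiffAt ℝ ∞ (fun y => D.Th (T y)) x := D.Th.contDiff.contDiffAt.comp x hT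

lemma eqv_Th' (h : IsProj d (P x)) (T : Eu A →L[ℝ] Eu A) :
    D.Eqv d (P x) (D.Th T) (∑ b, D.t (P x (ee b)) (P x (T (P x (ee b))))) := by
  refine (D.eqv_Th h T).symm.trans (Eqv.of_eq ?_)
  have := D.sum_t_adj (P x) (P x) ((P x).comp (T.comp (P x))) h.symm
  simp only [ContinuousLinearMap.comp_apply] at this
  rw [this]
  congr 1
  ext1 v
  simp [h.idem]

lemma hasD_theta (h : Lev X d P x) (u : Eu A) : D.HasD d P x u (fun y => D.Th (P y)) 0 := by
  refine ⟨D.cda_Th h.smooth, D.Th_mem_Tan h.isProj h.isProj.idem h.isProj.idem, ?_⟩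
  rw [dd, ← Finset.sum_const_zero (s := Finset.univ (α := Fin A))]
  refine Eqv.sum _ fun a _ => ?_
  rw [D.fderiv_Th h.diff]
  refine ((Eqv.refl _).mul (D.eqv_Th' h.isProj _)).trans (Eqv.of_eq ?_)
  simp [h.PKP]

lemma hasD_Top (h : Lev X d P x) {w : Eu A → Eu A} (hw : TanF X P w x) (u : Eu A) :
    D.HasD d P x u (fun y => D.Th (Top P w y)) (-D.Lam P x (w x) u) := by
  have hT := cda_Top h.smooth hw.smooth
  refine ⟨D.cda_Th hT, D.Th_mem_Tan h.isProj (h.Top_right w) (h.Top_left w), ?_⟩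
  have hd : ∀ v z, fderiv ℝ (Top P w) x v z = fderiv ℝ P x v (fderiv ℝ w x (P x z)) +
      P x (fderiv ℝ (fderiv ℝ w) x v (P x z)) + P x (fderiv ℝ w x (fderiv ℝ P x v z)) := by
    intro v z
    have := h.diff.hasFDerivAt.clm_comp
      ((cda_diff (cda_fderiv hw.smooth)).hasFDerivAt.clm_comp h.diff.hasFDerivAt)
    rw [show Top P w = fun y => (P y).comp ((fderiv ℝ w y).comp (P y)) from rfl, this.fderiv]
    simp
    abel
  have e1 : D.Eqv d (P x) (D.dd P x u fun y => D.Th (Top P w y))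
      (∑ a, D.t (P x (ee a)) u * ∑ b, D.t (P x (ee b))
        (P x (fderiv ℝ (Top P w) x (P x (ee a)) (P x (ee b))))) := by
    refine Eqv.sum _ fun a _ => ?_
    rw [D.fderiv_Th (cda_diff hT)]
    exact (Eqv.refl _).mul (D.eqv_Th' h.isProj _)
  refine e1.trans (Eqv.of_eq ?_)
  have e2 : ∀ a b, P x (fderiv ℝ (Top P w) x (P x (ee a)) (P x (ee b))) =
      ∑ c, ⟪ee b, Sop P x c (w x)⟫_ℝ • Sop P x c (ee a) +
      (P x (fderiv ℝ (fderiv ℝ w) x (P x (ee a)) (P x (ee b))) +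
        P x (fderiv ℝ w x (fderiv ℝ P x (P x (ee a)) (P x (ee b))))) := by
    intro a b
    rw [hd, map_add, map_add, h.isProj.idem, h.isProj.idem, h.isProj.idem, add_assoc]
    congr 1
    rw [h.tan_deriv hw, map_add, map_add, ← h.Top_left w, h.PKP, add_zero]
    conv_lhs => rw [← sum_ee (fderiv ℝ P x (P x (ee b)) (w x))]
    simp only [map_sum, map_smul]
    refine Finset.sum_congr rfl fun c _ => ?_
    rw [← (h.symTan_Sop c).symm, h.inner_Sop, h.tan_self hw, Sop_apply]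
  simp only [e2, map_add, mul_add, Finset.mul_sum, Finset.sum_add_distrib]
  rw [D.sym_kill (fun a => P x (ee a)) u
      (fun a b => P x (fderiv ℝ (fderiv ℝ w) x (P x (ee a)) (P x (ee b))))
      (fun a b => by rw [cda_symm hw.smooth]),
    D.sym_kill (fun a => P x (ee a)) u
      (fun a b => P x (fderiv ℝ w x (fderiv ℝ P x (P x (ee a)) (P x (ee b)))))
      (fun a b => by rw [h.tors]), add_zero, add_zero]
  have e3 : ∀ a, ∑ b, D.t (P x (ee a)) u * D.t (P x (ee b))
      (∑ c, ⟪ee b, Sop P x c (w x)⟫_ℝ • Sop P x c (ee a)) =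
      ∑ c, -(D.t (Sop P x c (w x)) u * D.t (P x (ee a)) (Sop P x c (ee a))) := by
    intro a
    simp only [map_sum, Finset.mul_sum]
    rw [Finset.sum_comm]
    refine Finset.sum_congr rfl fun c _ => ?_
    rw [← D.swap']
    conv_rhs => rw [← (h.symTan_Sop c).left (w x), ← sum_ee (Sop P x c (w x))]
    simp [Finset.mul_sum]
  simp only [e3]
  rw [Finset.sum_comm, Lam, ← Finset.sum_neg_distrib]
  refine Finset.sum_congr rfl fun c _ => ?_
  rw [Finset.sum_neg_distrib, ← Finset.mul_sum, D.sum_t_adj _ _ _ h.isProj.symm]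
  congr 3
  ext1 v
  exact (h.symTan_Sop c).right v

lemma hasD_Om (h : Lev X d P x) (u : Eu A) : D.HasD d P x u (D.Om P) 0 := by
  have h1 : ∀ c, D.HasD d P x u (fun y => D.Th (Sop P y c)) (-D.Lam P x (P x (ee c)) u) := by
    intro c
    have h2 := D.hasD_Top h (h.tanF_P (ee c)) u
    have e : (fun y => D.Th (Sop P y c)) =ᶠ[𝓝 x] fun y => D.Th (Top P (fun y => P y (ee c)) y) := by
      filter_upwards [cda_ev_diff h.smooth] with y hy
      rw [Sop_eq_Top hy]
    refine ⟨h2.smooth.congr_of_eventuallyEq e, by rw [e.eq_of_nhds]; exact h2.tan, ?_⟩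
    rw [dd, e.fderiv_eq]
    exact h2.eqv
  refine (HasD.sum Finset.univ fun c _ => (h1 c).pow 2).cast ?_
  rw [← Finset.smul_sum]
  convert smul_zero (A := D.R) ((2 : ℕ) : ℝ)
  simp only [Lam, Nat.add_one_sub_one, pow_one, mul_neg, Finset.sum_neg_distrib, neg_eq_zero,
    Finset.mul_sum, D.Th_apply (Sop P x _), Finset.sum_mul]
  rw [Finset.sum_comm]
  refine Finset.sum_eq_zero fun c' _ => ?_
  rw [Finset.sum_comm]
  refine Finset.sum_eq_zero fun e _ => ?_
  rw [Finset.sum_comm]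
  refine Finset.sum_eq_zero fun b _ => ?_
  let β : Eu A →ₗ[ℝ] Eu A →ₗ[ℝ] D.R := LinearMap.mk₂ ℝ
    (fun v z => D.t (ee b) (P x (fderiv ℝ P x (P x (ee b)) z)) *
      (D.t (Sop P x c' v) u * D.t (ee e) (Sop P x c' (ee e))))
    (by intros; simp [mul_add, add_mul]) (by intros; simp) (by intros; simp [add_mul])
    (by intros; simp)
  exact h.trace_zero β fun v z => by simp [β, h.PKP]

lemma hasD_t (h : Lev X d P x) {a b : Eu A → Eu A} (ha : TanF X P a x) (hb : TanF X P b x)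
    (u : Eu A) : D.HasD d P x u (fun y => D.t (a y) (b y))
      (∑ c, D.t (ee c) u * D.t (Top P a x (ee c)) (b x) - D.t (a x) u * D.Th (Top P b x)) := by
  have hs : ContDiffAt ℝ ∞ (fun y => D.t (a y)) x := D.t.contDiff.contDiffAt.comp x ha.smooth
  refine ⟨hs.clm_apply hb.smooth, D.t_mem_Tan (h.tan_self ha) (h.tan_self hb), ?_⟩
  have hd := (D.t.hasFDerivAt.comp x (cda_diff ha.smooth).hasFDerivAt).clm_apply
    (cda_diff hb.smooth).hasFDerivAt
  rw [dd, show (fun y => D.t (a y) (b y)) = fun y => (D.t ∘ a) y (b y) from rfl, hd.fderiv,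
    D.Th_apply, Finset.mul_sum, ← Finset.sum_sub_distrib]
  refine Eqv.sum _ fun c _ => ?_
  simp only [add_apply, ContinuousLinearMap.comp_apply, Function.comp_apply,
    ContinuousLinearMap.flip_apply, mul_add]
  rw [add_comm, sub_eq_add_neg, D.swap' (a x), neg_neg]
  have e1 : D.Eqv d (P x) (D.t (P x (ee c)) u) (D.t (ee c) u) := D.t_nu_left h.isProj _ _
  exact (e1.mul (Eqv.symm (D.t_nu_left h.isProj _ _))).add
    (e1.mul (Eqv.symm (D.t_nu_right h.isProj _ _)))

end DFA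

end Pool.Agent.AlEmb
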