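import Pool.Agent.Lib.MP_3fa020_gt.EOdd3

namespace Pool.Agent.AlEmb

open Set Filter Topology MeasureTheory
open scoped InnerProductSpace ContDiff

namespace OddAux

/-- a bound that holds for all cutoff data -/
def Unif (n k i : ℕ) (c C G : ℝ) (q : ℕ)
    (g : ∀ S : Ctx n k, (ℕ → Eu S.A → ℝ) → ℝ → Set (Eu S.A) → (Eu S.A → ℝ) → (Eu S.A → ℝ) →
      (Eu S.A → Eu S.A) → Eu S.A → ℝ) : Prop :=
  ∃ B ≥ 0, ∀ (S : Ctx n k) (f : ℕ → Eu S.A → ℝ) (y₀ : Eu S.A) (R : ℝ),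
    S.Frame f (i + 1) c y₀ R → ∀ t ∈ S.G.ball y₀ (R / 2), ∀ K ζ κ w, Dat S f i c R C G K ζ κ w →
      (∀ x ∈ S.X.M, x ∈ K → x ∈ S.G.ball t (2 * (c / 10 ^ 6 * R))) →
      S.X.Maj (g S f R K ζ κ w) (B * R ^ (n - 2 * q))

variable {n k i : ℕ} {c C G : ℝ}

lemma small (hc : 0 < c) (hc1 : c ≤ 1) {R : ℝ} (hR : 0 < R) :
    0 < 2 * (c / 10 ^ 6 * R) ∧ 2 * (2 * (c / 10 ^ 6 * R)) ≤ R / 2 :=
  ⟨by positivity, by nlinarith⟩

lemma unif_E (hc : 0 < c) (hc1 : c ≤ 1) {q : ℕ} (hq : q ≤ k) (hE : ∃ K, ClE n k (i + 1) c q K) :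
    Unif n k i c C G q fun S f R K _ _ _ => K.indicator (S.Ev f (i + 1) c R q) := by
  obtain ⟨B, hB⟩ := hE
  refine ⟨|B|, abs_nonneg _, fun S f y₀ R hF t ht K ζ κ w _ hK => ?_⟩
  obtain ⟨h1, h2⟩ := small hc hc1 hF.pos
  refine (hB.loc hc hc1 hq hF ht.1 h1 (by linarith [ht.2])).mono
    (fun x hx hx' => ⟨hK x hx hx', le_rfl⟩) ?_
  exact mul_le_mul (le_abs_self _) (pow_le_pow_left₀ (by positivity) (by linarith) _)
    (by positivity) (abs_nonneg _)

lemma unif_O (hc : 0 < c) (hc1 : c ≤ 1) {q : ℕ} (hq : q ≤ k) (hd : 2 * q ≤ n)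
    (hO : ∀ q' < q, ∃ K, ClO n k (i + 1) c q' K) :
    Unif n k i c C G q fun S f R K _ _ _ x =>
      q * K.indicator (S.Od f (i + 1) c R (q - 1)) x / R := by
  cases q with
  | zero => exact ⟨0, le_rfl, fun S f y₀ R hF t ht K ζ κ w _ hK =>
      Emb.Maj.zero (by simp) (by simp)⟩
  | succ q =>
    obtain ⟨B, hB⟩ := hO q (Nat.lt_succ_self q)
    refine ⟨(q + 1 : ℕ) * |B|, by positivity, fun S f y₀ R hF t ht K ζ κ w _ hK => ?_⟩
    have hR := hF.pos
    obtain ⟨h1, h2⟩ := small hc hc1 hF.pos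
    have h3 : S.X.Bd (S.Od f (i + 1) c R q) K (|B| * R ^ (n - 2 * q - 1)) :=
      (hB.loc hc hc1 (by omega) hF ht.1 h1 (by linarith [ht.2])).mono
        (fun x hx hx' => ⟨hK x hx hx', le_rfl⟩)
        (mul_le_mul (le_abs_self _) (pow_le_pow_left₀ (by positivity) (by linarith) _)
          (by positivity) (abs_nonneg _))
    refine (Emb.Maj.smul h3 (c := (q + 1 : ℕ) / R) (by positivity)).mono
      (fun x _ => le_of_eq (by rw [Nat.add_one_sub_one]; ring)) (le_of_eq ?_)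
    rw [show n - 2 * q - 1 = n - 2 * (q + 1) + 1 by omega]
    field_simp
    ring

lemma LL_nonneg (n q : ℕ) (hC : 1 ≤ C) (hG : 0 ≤ G) : 0 ≤ LL n C G q := by
  unfold LL; positivity

lemma unif_main (hc : 0 < c) (hc1 : c ≤ 1) (hC : 1 ≤ C) (hG : 0 ≤ G) {q : ℕ} (hq : q ≤ k)
    (hd : i + 1 + 2 * q + 1 ≤ n) (hE : ∀ q' ≤ q, ∃ K, ClE n k (i + 1) c q' K)
    (hO : ∀ q' < q, ∃ K, ClO n k (i + 1) c q' K) :
    (Unif n k i c C G q fun S f R _ ζ κ w x => R * (ζ x * S.Od f (i + 1) c R q x +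
      q * bb S f (i + 1) c R (xi S f (i + 1) κ w) (q - 1) x)) ∧
    Unif n k i c C G q fun S f R _ _ κ w x =>
      R ^ 2 * aa S f (i + 1) c R (xi S f (i + 1) κ w) q x := by
  have step : ∀ q ≤ k, i + 1 + 2 * q + 1 ≤ n → (∃ K, ClE n k (i + 1) c q K) →
      (∀ q' < q, ∃ K, ClO n k (i + 1) c q' K) →
      (Unif n k i c C G q fun S f R _ _ κ w x =>
        q * aa S f (i + 1) c R (xi S f (i + 1) κ w) (q - 1) x) →
      (Unif n k i c C G q fun S f R _ ζ κ w x => R * (ζ x * S.Od f (i + 1) c R q x +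
        q * bb S f (i + 1) c R (xi S f (i + 1) κ w) (q - 1) x)) ∧
      Unif n k i c C G q fun S f R _ _ κ w x =>
        R ^ 2 * aa S f (i + 1) c R (xi S f (i + 1) κ w) q x := by
    intro q hq hd hE hO ⟨B₂, hB₂, H₂⟩
    obtain ⟨B₁, hB₁, H₁⟩ := unif_E (C := C) (G := G) hc hc1 hq hE
    obtain ⟨B₃, hB₃, H₃⟩ := unif_O (C := C) (G := G) hc hc1 hq (by omega) hO
    have hL := LL_nonneg n q hC hG
    have first : Unif n k i c C G q fun S f R _ ζ κ w x => R * (ζ x * S.Od f (i + 1) c R q x +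
        q * bb S f (i + 1) c R (xi S f (i + 1) κ w) (q - 1) x) := by
      refine ⟨LL n C G q * (B₁ + B₂ + B₃), by positivity,
        fun S f y₀ R hF t ht K ζ κ w hD hK => ?_⟩
      have hR := hF.pos
      obtain ⟨F, hF1, hF2⟩ := hD.P2 hc hC hG hR hq hd
      refine (((((H₁ S f y₀ R hF t ht K ζ κ w hD hK).add (H₂ S f y₀ R hF t ht K ζ κ w hD hK)).add
        (H₃ S f y₀ R hF t ht K ζ κ w hD hK)).smul hL).of_div ?_ (fun x hx => ?_) hF1 hF2).mono
        (fun _ _ => le_rfl) (le_of_eq (by ring))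
      · exact continuousOn_const.mul ((hD.zo_cont q).add (continuousOn_const.mul (hD.bb_cont _)))
      · have := hD.zo0 hx hq
        have := hD.bb0 hx (show q - 1 ≤ k by omega)
        positivity
    refine ⟨first, ?_⟩
    obtain ⟨B₄, hB₄, H₄⟩ := first
    refine ⟨LL n C G q * (B₁ + B₄), by positivity, fun S f y₀ R hF t ht K ζ κ w hD hK => ?_⟩
    have hR := hF.pos
    obtain ⟨F, hF1, hF2⟩ := hD.P1 hC hG hR hq hd
    refine ((((H₁ S f y₀ R hF t ht K ζ κ w hD hK).add (H₄ S f y₀ R hF t ht K ζ κ w hD hK)).smul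
      hL).of_div ?_ (fun x hx => ?_) hF1 fun x hx => (hF2 x hx).trans ?_).mono
      (fun _ _ => le_rfl) (le_of_eq (by ring))
    · exact continuousOn_const.mul (hD.aa_cont _)
    · have := hD.aa0 hx hq
      positivity
    · have := hD.zo0 hx hq
      beta_reduce
      gcongr
      linarith
  induction q with
  | zero =>
    exact step 0 hq hd (hE 0 le_rfl) hO ⟨0, le_rfl, fun S f y₀ R hF t ht K ζ κ w _ hK =>
      Emb.Maj.zero (by simp) (by simp)⟩
  | succ q ih =>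
    obtain ⟨B, hB, H⟩ := (ih (by omega) (by omega) (fun q' h => hE q' (by omega))
      fun q' h => hO q' (by omega)).2
    refine step (q + 1) hq hd (hE _ le_rfl) hO ⟨(q + 1 : ℕ) * B, by positivity,
      fun S f y₀ R hF t ht K ζ κ w hD hK => ?_⟩
    have hR := hF.pos
    refine ((H S f y₀ R hF t ht K ζ κ w hD hK).smul (c := (q + 1 : ℕ) / R ^ 2)
      (by positivity)).mono (fun x _ => le_of_eq ?_) (le_of_eq ?_)
    · rw [Nat.add_one_sub_one]
      field_simp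
    · rw [show n - 2 * q = n - 2 * (q + 1) + 2 by omega]
      field_simp
      ring

end OddAux

/-- the bound for the odd quantity -/
theorem odd_step {n k j p : ℕ} {c : ℝ} (hc : 0 < c) (hc1 : c ≤ 1) (hp : p ≤ k)
    (hd : j + 2 * p + 1 ≤ n) (hE : ∀ q ≤ p, ∃ K, ClE n k j c q K)
    (hO : ∀ q < p, ∃ K, ClO n k j c q K) : ∃ K, ClO n k j c p K := by
  cases j with
  | zero =>
    obtain ⟨K, hK⟩ := hE p le_rfl
    refine ⟨bl 0 c * K, fun S f y R hF => ?_⟩
    have hR := hF.pos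
    have hb := one_le_bl 0 hc
    refine ((hK S f y R hF).smul (c := bl 0 c / R) (by positivity)).mono
      (fun x _ hx => ⟨hx, le_of_eq ?_⟩) (le_of_eq ?_)
    · rw [Ctx.Od, Ctx.Ev, show n - 0 - 2 * p = n - 0 - 2 * p - 1 + 1 by omega, Nat.add_one_sub_one,
        ← smul_eq_mul (bl 0 c / R), ← map_smul]
      congr 1
      simp only [Ctx.Z, Emb.Sh, map_zero, sub_zero, Algebra.smul_def]
      ring
    · rw [show n - 2 * p = n - 2 * p - 1 + 1 by omega, Nat.add_one_sub_one]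
      field_simp
      ring
  | succ i =>
    obtain ⟨C, hC, G, hG, H⟩ := OddAux.exists_dat i hc hc1
    obtain ⟨B, hB, HB⟩ := (OddAux.unif_main hc hc1 hC hG hp hd hE hO).1
    refine ⟨(1 + 2 / (c / 10 ^ 5 * (c / 10 ^ 6) / 2)) ^ n * B, fun S f y R hF => ?_⟩
    have hR := hF.pos
    rw [mul_assoc _ B]
    refine hF.bd_half (by positivity) (by positivity) fun t ht => ?_
    obtain ⟨K, ζ, κ, w, hD, hK, h1⟩ := H S f y R hF t ht
    refine (Emb.Bd.of_maj ((HB S f y R hF t ht K ζ κ w hD hK).smul (c := 1 / R) (by positivity))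
      (fun x hx => ?_) fun x hx hx' => ?_).up (le_of_eq ?_)
    · have := hD.zo0 hx hp
      have := hD.bb0 hx (show p - 1 ≤ k by omega)
      positivity
    · have := hD.bb0 hx (show p - 1 ≤ k by omega)
      beta_reduce
      rw [h1 x hx', ← mul_assoc, one_div_mul_cancel hR.ne', one_mul, one_mul]
      exact le_add_of_nonneg_right (by positivity)
    · rw [show n - 2 * p = n - 2 * p - 1 + 1 by omega, Nat.add_one_sub_one]
      field_simp
      ring

end Pool.Agent.AlEmb
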