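import Pool.Agent.Lib.MP_3fa020_gt.ECut

namespace Pool.Agent.AlEmb

open Set Filter Topology MeasureTheory
open scoped InnerProductSpace ContDiff

namespace ESubAux

variable {n k j p m : ℕ} {c C KE KO KO' K : ℝ}

/-- the bound on a thin annulus without critical points -/
lemma annulus (hc : 0 < c) (hc1 : c ≤ 1) (hp : p + 1 ≤ k) (hd : j + 2 * (p + 1) < n) (hC : 0 ≤ C)
    (hA : Ann n k j p c C) (hE : ClE n k (j + 1) (c / 10 ^ 6) (p + 1) KE)
    (hO' : ClO n k (j + 1) (c / 10 ^ 6) p KO') (hO : ClO n k j c p KO) :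
    ∃ C' ≥ 0, ∀ (S : Ctx n k) (f : ℕ → Eu S.A → ℝ) (y₀ : Eu S.A) (R : ℝ), S.Frame f j c y₀ R →
      ∀ t ∈ S.X.M, ∀ σ, 0 < σ → σ ≤ c / 10 ^ 6 * R → S.G.d y₀ t + 8 * σ ≤ R →
      S.Good f j c R t σ (4 * σ) →
      S.X.Bd (S.Ev f j c R (p + 1)) {x | 3 / 2 * σ ≤ S.G.d t x ∧ S.G.d t x ≤ 3 * σ ∧
        S.Slab f j (c / 10 ^ 5 * σ / 2) t x} (C' * σ ^ (n - 2 * (p + 1))) := by
  obtain ⟨G, -, hG⟩ := exists_cut j
  obtain ⟨B, hB⟩ : ∃ B : ℝ, B = (1 + 4 / (c / 10 ^ 7)) ^ n := ⟨_, rfl⟩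
  have hB0 : 0 ≤ B := by rw [hB]; positivity
  obtain ⟨r, hr⟩ : ∃ r : ℝ, r = ((n - j - 2 * (p + 1) : ℕ) : ℝ) := ⟨_, rfl⟩
  have hr0 : 0 ≤ r := by rw [hr]; positivity
  obtain ⟨e, he⟩ : ∃ e : ℕ, e = n - 2 * (p + 1) := ⟨_, rfl⟩
  have he1 : n - 2 * p - 1 = e + 1 := by omega
  refine ⟨C * (r * (B * |KE|) + B * |KO'| + B * |KO'| + |KO| * 8 ^ (e + 1)), by positivity,
    fun S f y₀ R hF t ht σ hσ hσR hR hg => ?_⟩
  have hR0 := hF.pos
  have hcR : c * R ≤ R := mul_le_of_le_one_left hR0.le hc1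
  have hσ1 : σ ≤ R / 10 ^ 6 := by linarith
  have hσ2 : 5 * σ ≤ 1 := by linarith [hF.le_one]
  obtain ⟨q, h, h1, h2, h3⟩ := hF.exists_cen hc hc1 hσ hσR ht (by linarith)
  obtain ⟨ψ, hψ, hψ1, -⟩ := hG S f hF.smooth t (c / 10 ^ 5 * σ) (by positivity)
  have hcσ : 0 < c * σ := mul_pos hc hσ
  obtain ⟨a, F, ha, ha0, hFd, h4, h5⟩ := hA S f y₀ R hF t ht σ hσ hσR (by linarith) 0
    (fun _ => q) (fun _ => h) (fun l hl => by
      obtain rfl : l = 0 := by omega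
      rw [pow_zero, div_one]
      exact ⟨h1, by linarith, fun a ha => by linarith [h3 a ha]⟩)
    (by rwa [pow_zero, div_one]) (Or.inl rfl) ψ (by rwa [pow_zero, div_one])
  simp only [pow_zero, div_one] at h4 h5
  rw [← hr] at h5
  have b1 := hE.wf hc hc1 f h h1.mem hσ hσ2
  have b2 := hO'.wf hc hc1 f h h1.mem hσ hσ2
  have b3 := hO.loc hc hc1 (by omega) hF ht (s := 4 * σ) (by linarith) (by linarith)
  rw [← hB] at b1 b2
  rw [← he] at b1 ⊢
  rw [he1] at b2 b3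
  have m1 := Emb.Maj.smul b1 hr0
  have m2 := Emb.Maj.smul b2 (inv_pos.2 hσ).le
  have m3 := Emb.Maj.smul b3 (inv_pos.2 hR0).le
  have m4 := (((m1.add m2).add m2).add m3).smul hC
  refine Emb.Bd.of_maj (a := a) (Emb.Maj.mono (m4.of_div ha ha0 hFd fun x hx => ?_)
    (fun _ _ => le_rfl) ?_) ha0 fun x hx hx' => ?_
  · refine (h5 x hx).trans ?_
    have n1 : 0 ≤ (S.Wf f j c σ q h).indicator
        (S.Ev (Function.update f j h) (j + 1) (c / 10 ^ 6) (c / 10 ^ 6 * σ) (p + 1)) x :=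
      indicator_nonneg (fun z hz => Ctx.wf_Ev_nonneg hc hc1 hz hp) x
    have n2 : 0 ≤ (S.Wf f j c σ q h).indicator
        (S.Od (Function.update f j h) (j + 1) (c / 10 ^ 6) (c / 10 ^ 6 * σ) p) x :=
      indicator_nonneg (fun z hz => Ctx.wf_Od_nonneg hc hc1 hz (by omega)) x
    have n3 : 0 ≤ (S.G.ball t (4 * σ)).indicator (S.Od f j c R p) x :=
      indicator_nonneg (fun z hz => hF.Od_nonneg hc hc1
        (S.G.ball_subset_ball hF.mem ht (by linarith) hz) (by omega)) x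
    rw [div_eq_inv_mul _ σ, div_eq_inv_mul _ R]
    refine add_le_add_right (mul_le_mul_of_nonneg_right
      (mul_le_of_le_one_right hC (hψ.le_one x)) (by positivity)) _
  · have e1 : σ⁻¹ * (B * |KO'| * σ ^ (e + 1)) = B * |KO'| * σ ^ e := by
      rw [pow_succ]; field_simp
    have e2 : R⁻¹ * (KO * (2 * (4 * σ)) ^ (e + 1)) ≤ |KO| * 8 ^ (e + 1) * σ ^ e := by
      rw [inv_mul_le_iff₀ hR0, show 2 * (4 * σ) = 8 * σ by ring, mul_pow, pow_succ σ]
      have e3 : σ ≤ R := by linarith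
      calc KO * (8 ^ (e + 1) * (σ ^ e * σ)) ≤ |KO| * (8 ^ (e + 1) * (σ ^ e * R)) :=
            mul_le_mul (le_abs_self _) (by gcongr) (by positivity) (abs_nonneg _)
        _ = _ := by ring
    rw [e1, mul_assoc C]
    refine mul_le_mul_of_nonneg_left ?_ hC
    linarith
  · have := h4 x hx hx'.1 hx'.2.1
    rwa [hψ1 x hx'.2.2, one_mul] at this

lemma dyadic {s d : ℝ} (hd : d ≤ 3 * s) (L : ℕ) (h : 3 / 2 * (s / 2 ^ L) ≤ d) :
    ∃ l ≤ L, 3 / 2 * (s / 2 ^ l) ≤ d ∧ d ≤ 3 * (s / 2 ^ l) := by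
  induction L with
  | zero => exact ⟨0, le_rfl, h, by rwa [pow_zero, div_one]⟩
  | succ L ih =>
    by_cases h1 : 3 / 2 * (s / 2 ^ L) ≤ d
    · obtain ⟨l, hl, h2⟩ := ih h1
      exact ⟨l, by omega, h2⟩
    · refine ⟨L + 1, le_rfl, h, ?_⟩
      have e : 3 * (s / 2 ^ (L + 1)) = 3 / 2 * (s / 2 ^ L) := by rw [pow_succ]; field_simp
      rw [e]
      exact (not_le.1 h1).le

/-- a net of slabs -/
lemma net {S : Ctx n k} {f : ℕ → Eu S.A → ℝ} {y₀ y : Eu S.A} {R s ε : ℝ}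
    (hF : S.Frame f j c y₀ R) (hy : y ∈ S.X.M) (hs : 0 < s) (hR : S.G.d y₀ y + s ≤ R)
    (hε : 0 < ε) {W : Set (Eu S.A)} (hW : W ⊆ S.G.ball y s) :
    ∃ T : Finset (Eu S.A), (T : Set (Eu S.A)) ⊆ W ∧ (T.card : ℝ) ≤ (1 + 2 * s / ε) ^ j ∧
      ∀ x ∈ W, ∃ t ∈ T, S.Slab f j ε t x := by
  refine exists_net W (fun t x => S.Slab f j ε t x) (fun x _ a _ => by simpa using hε.le)
    (fun x _ x' _ h => h.symm) fun T hT hsep => ?_
  have := EPackAux.pack_fam T (fun t (a : Fin j) => f a t) (fun a => f a y) hs.le hε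
    (fun t ht => ?_) fun t ht t' ht' hne => ?_
  · simpa using this
  · refine (pi_norm_le_iff_of_nonneg hs.le).2 fun a => ?_
    have h1 := hW (hT ht)
    exact (hF.lip hy h1.1 (by linarith [h1.2]) a.2).trans h1.2.le
  · have h1 := hsep t ht t' ht' hne
    simp only [Ctx.Slab, not_forall, not_le] at h1
    obtain ⟨a, ha, h2⟩ := h1
    refine h2.le.trans ?_
    rw [abs_sub_comm]
    exact norm_le_pi_norm ((fun a : Fin j => f a t) - fun a : Fin j => f a t') ⟨a, ha⟩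

/-- the part with a critical scale -/
lemma bad (hc1 : c ≤ 1) (hG : ClG n k j c (p + 1) (m + 1) K) (L : ℕ)
    {S : Ctx n k} {f : ℕ → Eu S.A → ℝ} {y₀ y : Eu S.A} {R s : ℝ} (hF : S.Frame f j c y₀ R)
    (hy : y ∈ S.X.M) (hs : 0 < s) (hsR : s ≤ c / 10 ^ 6 * R) (hR : S.G.d y₀ y + 4 * s ≤ 0.6 * R) :
    S.X.Bd (S.Ev f j c R (p + 1)) ((S.G.ball y s ∩ {x | S.Gm f j c R x m (400 * s)}) ∩
      {x | ¬ S.Good f j c R x (s / 2 ^ L) (4 * s)})
      ((1 + 4 / (1 / (400 * 2 ^ L))) ^ n * (K * s ^ (n - 2 * (p + 1)))) := by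
  have hR0 := hF.pos
  have hcR : c * R ≤ R := mul_le_of_le_one_left hR0.le hc1
  have hK := hG.1
  have h2 : (1 : ℝ) ≤ 2 ^ L := one_le_pow₀ (by norm_num)
  have hθ : (1 : ℝ) / (400 * 2 ^ L) ≤ 1 / 400 := by gcongr; linarith
  have hθ0 : (0 : ℝ) < 1 / (400 * 2 ^ L) := by positivity
  have hθs : 1 / (400 * 2 ^ L) * s ≤ s / 400 := by
    linarith [mul_le_mul_of_nonneg_right hθ hs.le]
  refine S.bd_cover hy hs (by linarith [hF.le_one]) hθ0 (fun x hx => hx.1.1) (by positivity)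
    fun t ht => ?_
  have h3 := S.G.tri _ hF.mem _ hy _ ht.1.1.1
  refine (hG.2 S f y₀ R hF t ht.1.1.1 _ (mul_pos hθ0 hs) (by linarith)
    (by linarith [ht.1.1.2])).mono (fun x _ hx => ⟨⟨hx.2, ?_⟩, le_rfl⟩) ?_
  · have e : 400 * (1 / (400 * 2 ^ L) * s) = s / 2 ^ L := by field_simp
    show S.Gm f j c R x (m + 1) _
    rw [e]
    exact Ctx.Gm.succ hx.1.1.2 hx.1.2
  · exact mul_le_mul_of_nonneg_left (pow_le_pow_left₀ (by positivity) (by linarith) _) hK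

lemma arith {B s : ℝ} {e L : ℕ} (hs : 0 ≤ s) (he : j + 1 ≤ e)
    (hL : 2 * B ^ j * (3 / 2) ^ e ≤ 2 ^ L) :
    (B * 2 ^ L) ^ j * (3 / 2 * (s / 2 ^ L)) ^ e ≤ s ^ e / 2 := by
  obtain ⟨w, hw⟩ : ∃ w : ℝ, w = 2 ^ L := ⟨_, rfl⟩
  rw [← hw] at hL ⊢
  have h1 : 1 ≤ w := hw ▸ one_le_pow₀ (by norm_num)
  have h0 : 0 < w := by linarith
  have h2 : w ^ j * w ≤ w ^ e := by rw [← pow_succ]; exact pow_le_pow_right₀ h1 he
  rw [mul_pow, mul_pow, div_pow s, ← mul_div_assoc, ← mul_div_assoc,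
    div_le_div_iff₀ (by positivity) (by norm_num)]
  calc B ^ j * w ^ j * ((3 / 2) ^ e * s ^ e) * 2
      = s ^ e * (w ^ j * (2 * B ^ j * (3 / 2) ^ e)) := by ring
    _ ≤ s ^ e * (w ^ j * w) := by gcongr
    _ ≤ s ^ e * w ^ e := by gcongr

end ESubAux

open ESubAux in
/-- one step of the induction on critical scales below the critical degree -/
theorem clG_sub {n k j p m : ℕ} {c C KE KO KO' K : ℝ} (hc : 0 < c) (hc1 : c ≤ 1)
    (hp : p + 1 ≤ k) (hd : j + 2 * (p + 1) < n) (hC : 0 ≤ C) (hA : Ann n k j p c C)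
    (hE : ClE n k (j + 1) (c / 10 ^ 6) (p + 1) KE) (hO' : ClO n k (j + 1) (c / 10 ^ 6) p KO')
    (hO : ClO n k j c p KO) (hG : ClG n k j c (p + 1) (m + 1) K) :
    ∃ K', ClG n k j c (p + 1) m K' := by
  obtain ⟨C', hC', hann⟩ := annulus hc hc1 hp hd hC hA hE hO' hO
  have hK := hG.1
  obtain ⟨e, he⟩ : ∃ e : ℕ, e = n - 2 * (p + 1) := ⟨_, rfl⟩
  have hje : j + 1 ≤ e := by omega
  obtain ⟨B, hB⟩ : ∃ B : ℝ, B = 5 * 10 ^ 5 / c := ⟨_, rfl⟩
  have hB0 : 0 ≤ B := by rw [hB]; positivity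
  obtain ⟨L0, hL0⟩ := pow_unbounded_of_one_lt (2 * B ^ j * (3 / 2) ^ e) (one_lt_two (α := ℝ))
  obtain ⟨L, hL⟩ : ∃ L : ℕ, L = L0 + 1 := ⟨_, rfl⟩
  have hL1 : (2 : ℝ) ≤ 2 ^ L := by
    rw [hL, pow_succ]
    linarith [one_le_pow₀ (n := L0) (one_le_two (α := ℝ))]
  have hL2 : 2 * B ^ j * (3 / 2) ^ e ≤ 2 ^ L :=
    hL0.le.trans (pow_le_pow_right₀ one_le_two (by omega))
  obtain ⟨Kb, hKb⟩ : ∃ Kb : ℝ, Kb = (1 + 4 / (1 / (400 * 2 ^ L))) ^ n * K := ⟨_, rfl⟩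
  have hKb0 : 0 ≤ Kb := by rw [hKb]; positivity
  obtain ⟨N, hN⟩ : ∃ N : ℝ, N = (B * 2 ^ L) ^ j := ⟨_, rfl⟩
  have hN0 : 0 ≤ N := by rw [hN]; positivity
  obtain ⟨K', hK'⟩ : ∃ K' : ℝ, K' = 1 + 2 * (Kb + N * ((L + 1) * C')) := ⟨_, rfl⟩
  have hK1 : 1 ≤ K' := by
    have : 0 ≤ 2 * (Kb + N * ((L + 1) * C')) := by positivity
    linarith
  refine ⟨K', by linarith, fun S f y₀ R hF => ?_⟩
  rw [← he] at hann ⊢
  have hR0 := hF.pos
  have hcR : c * R ≤ R := mul_le_of_le_one_left hR0.le hc1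
  obtain ⟨τ, hτ, hsm⟩ := hF.small hc (p := p) (by omega)
  rw [← he] at hsm
  have key : ∀ i : ℕ, ∀ y ∈ S.X.M, ∀ s, 0 < s → s ≤ τ * (4 / 3) ^ i → s ≤ c / 10 ^ 6 * R →
      S.G.d y₀ y + 4 * s ≤ 0.6 * R →
      S.X.Bd (S.Ev f j c R (p + 1)) (S.G.ball y s ∩ {x | S.Gm f j c R x m (400 * s)})
        (K' * s ^ e) := by
    intro i
    induction i with
    | zero =>
      intro y hy s hs h1 _ h3
      rw [pow_zero, mul_one] at h1
      exact ((hsm y hy s hs h1 (by linarith)).subset inter_subset_left).up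
        (le_mul_of_one_le_left (by positivity) hK1)
    | succ i ih =>
      intro y hy s hs h1 h2 h3
      have hb := bad hc1 hG L hF hy hs h2 h3
      rw [← he, ← mul_assoc, ← hKb] at hb
      have hw0 : (0 : ℝ) < 2 ^ L := by positivity
      have hsL : 0 < s / 2 ^ L := by positivity
      have hsL1 : s / 2 ^ L ≤ s / 2 := by gcongr
      obtain ⟨T, hT1, hT2, hT3⟩ := net hF hy hs (by linarith)
        (ε := c / 10 ^ 5 * (s / 2 ^ L) / 2) (by positivity)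
        (W := (S.G.ball y s ∩ {x | S.Gm f j c R x m (400 * s)}) ∩
          {x | S.Good f j c R x (s / 2 ^ L) (4 * s)}) fun x hx => hx.1.1
      have hT4 : (T.card : ℝ) ≤ N := by
        refine hT2.trans ?_
        rw [hN]
        refine pow_le_pow_left₀ (by positivity) ?_ _
        have e1 : 2 * s / (c / 10 ^ 5 * (s / 2 ^ L) / 2) = 4 * 10 ^ 5 / c * 2 ^ L := by
          field_simp; ring
        have e2 : B * 2 ^ L = 10 ^ 5 / c * 2 ^ L + 4 * 10 ^ 5 / c * 2 ^ L := by rw [hB]; ring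
        have e3 : 1 ≤ 10 ^ 5 / c := by rw [le_div_iff₀ hc]; linarith
        rw [e1, e2]
        exact add_le_add_left (one_le_mul_of_one_le_of_one_le e3 (by linarith)) _
      have hpt : ∀ t ∈ T, S.X.Bd (S.Ev f j c R (p + 1))
          ((S.G.ball y s ∩ {x | S.Gm f j c R x m (400 * s)}) ∩
            {x | S.Slab f j (c / 10 ^ 5 * (s / 2 ^ L) / 2) t x})
          ((L + 1) * C' * s ^ e + K' * (3 / 2 * (s / 2 ^ L)) ^ e) := by
        intro t ht
        obtain ⟨⟨⟨htM, htd⟩, -⟩, htg⟩ := hT1 ht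
        have h4 := S.G.tri _ hF.mem _ hy _ htM
        have a1 := ih t htM (3 / 2 * (s / 2 ^ L)) (by positivity)
          (by rw [pow_succ] at h1; linarith) (by linarith) (by linarith)
        have a2 := Emb.Bd.biUnion (X := S.X) (g := S.Ev f j c R (p + 1))
          (W := {x | S.G.d t x ≤ 3 * s ∧ 3 / 2 * (s / 2 ^ L) ≤ S.G.d t x ∧
            S.Slab f j (c / 10 ^ 5 * (s / 2 ^ L) / 2) t x}) (Finset.range (L + 1))
          (V := fun l => {x | 3 / 2 * (s / 2 ^ l) ≤ S.G.d t x ∧ S.G.d t x ≤ 3 * (s / 2 ^ l) ∧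
            S.Slab f j (c / 10 ^ 5 * (s / 2 ^ l) / 2) t x}) (K := fun _ => C' * s ^ e)
          (fun l hl => by
            have l1 : (1 : ℝ) ≤ 2 ^ l := one_le_pow₀ one_le_two
            have l2 : s / 2 ^ l ≤ s := div_le_self hs.le l1
            have l3 : s / 2 ^ L ≤ s / 2 ^ l := by
              have := Finset.mem_range.1 hl
              gcongr
              · exact one_le_two
              · omega
            refine (hann S f y₀ R hF t htM _ (by positivity) (l2.trans h2) (by linarith)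
              fun x h5 h6 => htg x (l3.trans h5) (by linarith)).up ?_
            exact mul_le_mul_of_nonneg_left (pow_le_pow_left₀ (by positivity) l2 _) hC')
          (fun x hx => by
            obtain ⟨l, hl, h5, h6⟩ := dyadic hx.1 L hx.2.1
            refine ⟨l, Finset.mem_range.2 (by omega), h5, h6, hx.2.2.mono ?_⟩
            gcongr
            exact one_le_two)
        rw [Finset.sum_const, Finset.card_range, nsmul_eq_mul, Nat.cast_add_one,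
          ← mul_assoc] at a2
        refine a2.union a1 fun x hx => ?_
        obtain ⟨⟨⟨hxM, hxd⟩, hxg⟩, hxs⟩ := hx
        by_cases h5 : 3 / 2 * (s / 2 ^ L) ≤ S.G.d t x
        · have h6 := S.G.tri _ htM _ hy _ hxM
          rw [S.G.comm t y] at h6
          exact Or.inl ⟨by linarith, h5, hxs⟩
        · exact Or.inr ⟨⟨hxM, not_le.1 h5⟩, Ctx.Gm.anti hxg (by linarith)⟩
      have hg := Emb.Bd.biUnion (X := S.X) (g := S.Ev f j c R (p + 1))
        (W := (S.G.ball y s ∩ {x | S.Gm f j c R x m (400 * s)}) ∩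
          {x | S.Good f j c R x (s / 2 ^ L) (4 * s)}) T hpt fun x hx => by
          obtain ⟨t, ht, h4⟩ := hT3 x hx
          exact ⟨t, ht, hx.1, h4⟩
      refine (hb.union hg fun x hx => ?_).up ?_
      · by_cases h4 : S.Good f j c R x (s / 2 ^ L) (4 * s)
        · exact Or.inr ⟨hx, h4⟩
        · exact Or.inl ⟨hx, h4⟩
      · rw [Finset.sum_const, nsmul_eq_mul]
        have h4 := arith hs.le hje hL2
        rw [← hN] at h4
        have h5 : 0 ≤ s ^ e := by positivity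
        have h6 := mul_le_mul_of_nonneg_right hT4
          (show 0 ≤ (L + 1) * C' * s ^ e + K' * (3 / 2 * (s / 2 ^ L)) ^ e by positivity)
        have h7 := mul_le_mul_of_nonneg_left h4 (show 0 ≤ K' by linarith)
        have h8 : K' * s ^ e = s ^ e + 2 * (Kb * s ^ e + N * ((L + 1) * C' * s ^ e)) := by
          rw [hK']; ring
        rw [mul_add N, mul_left_comm N K'] at h6
        linarith
  intro y hy s hs h1 h2
  obtain ⟨i, hi⟩ := pow_unbounded_of_one_lt (s / τ) (show (1 : ℝ) < 4 / 3 by norm_num)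
  rw [div_lt_iff₀ hτ] at hi
  exact key i y hy s hs (by linarith) h1 h2

end Pool.Agent.AlEmb
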