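import Pool.Agent.Lib.MP_3fa020_gt.EAnn
import Pool.Agent.Lib.MP_3fa020_gt.EOdd
import Pool.Agent.Lib.MP_3fa020_gt.ESub
import Pool.Agent.Lib.MP_3fa020_gt.ECrit
import Pool.Agent.Lib.MP_3fa020_gt.EGromov
import Pool.Agent.Lib.MP_3fa020_gt.EFinal

/-!
The inductions on the number of critical scales, the size of the frame and the degree.
-/

namespace Pool.Agent.AlEmb

open Set Filter Topology MeasureTheory
open scoped InnerProductSpace ContDiff

variable {n k j p : ℕ} {c : ℝ}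

lemma clG_top (hc : 0 < c) (hc1 : c ≤ 1) : ClG n k j c p (11 ^ n + 1) 0 := by
  refine ⟨le_rfl, fun S f y₀ R hF y hy s hs h1 h2 => ?_⟩
  refine (Emb.Bd.empty (by simp)).subset fun x hx => ?_
  have := S.G.tri _ hF.mem _ hy _ hx.1.1
  have hR := hF.pos
  exact hF.gromov hc hc1 (fun x hx l hl h => hF.push hc hx hl h) hx.1.1
    (by linarith [hx.1.2]) (by positivity) hx.2

lemma clE_of_step (hc : 0 < c) (hc1 : c ≤ 1)
    (h : ∀ m K, ClG n k j c p (m + 1) K → ∃ K', ClG n k j c p m K') : ∃ K, ClE n k j c p K := by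
  have key : ∀ i m, i + m = 11 ^ n + 1 → ∃ K, ClG n k j c p m K := by
    intro i
    induction i with
    | zero => intro m hm; rw [zero_add] at hm; exact ⟨0, hm ▸ clG_top hc hc1⟩
    | succ i ih =>
      intro m hm
      obtain ⟨K, hK⟩ := ih (m + 1) (by omega)
      exact h m K hK
  obtain ⟨K, hK⟩ := key _ 0 rfl
  exact hK.clE hc hc1

lemma clE_succ (hp : p + 1 ≤ k)
    (hO : ∀ j (c : ℝ), 0 < c → c ≤ 1 → j + 2 * p + 1 ≤ n → ∃ K, ClO n k j c p K) :
    ∀ i j (c : ℝ), 0 < c → c ≤ 1 → j + 2 * (p + 1) + i = n → ∃ K, ClE n k j c (p + 1) K := by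
  intro i
  induction i with
  | zero =>
    intro j c hc hc1 hd
    obtain ⟨C, hC, hA⟩ := annulus n k j p hc hc1 hp (by omega)
    obtain ⟨KO, h1⟩ := hO j c hc hc1 (by omega)
    obtain ⟨KO', h2⟩ := hO (j + 1) (c / 10 ^ 6) (by positivity) (by linarith) (by omega)
    exact clE_of_step hc hc1 fun m K hK => clG_crit hc hc1 hp (by omega) hC hA h2 h1 hK
  | succ i ih =>
    intro j c hc hc1 hd
    obtain ⟨C, hC, hA⟩ := annulus n k j p hc hc1 hp (by omega)
    obtain ⟨KO, h1⟩ := hO j c hc hc1 (by omega)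
    obtain ⟨KO', h2⟩ := hO (j + 1) (c / 10 ^ 6) (by positivity) (by linarith) (by omega)
    obtain ⟨KE, h3⟩ := ih (j + 1) (c / 10 ^ 6) (by positivity) (by linarith) (by omega)
    exact clE_of_step hc hc1 fun m K hK => clG_sub hc hc1 hp (by omega) hC hA h3 h2 h1 hK

lemma cl_all (n k p : ℕ) : p ≤ k →
    (∀ j (c : ℝ), 0 < c → c ≤ 1 → j + 2 * p ≤ n → ∃ K, ClE n k j c p K) ∧
    ∀ j (c : ℝ), 0 < c → c ≤ 1 → j + 2 * p + 1 ≤ n → ∃ K, ClO n k j c p K := by
  induction p using Nat.strong_induction_on with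
  | _ p ih =>
    intro hp
    have hE : ∀ j (c : ℝ), 0 < c → c ≤ 1 → j + 2 * p ≤ n → ∃ K, ClE n k j c p K := by
      intro j c hc hc1 hd
      cases p with
      | zero => exact clE_zero n k j hc
      | succ p =>
        exact clE_succ hp (ih p (Nat.lt_succ_self p) (by omega)).2 (n - (j + 2 * (p + 1))) j c hc hc1
          (by omega)
    refine ⟨hE, fun j c hc hc1 hd => odd_step hc hc1 hp hd (fun q hq => ?_) fun q hq => ?_⟩
    · rcases hq.eq_or_lt with rfl | hq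
      · exact hE j c hc hc1 (by omega)
      · exact (ih q hq (by omega)).1 j c hc hc1 (by omega)
    · exact (ih q hq (by omega)).2 j c hc hc1 (by omega)

lemma Ctx.frame_zero (S : Ctx n k) {y : Eu S.A} (hy : y ∈ S.X.M) :
    S.Frame (fun _ _ => 0) 0 1 y 1 :=
  ⟨hy, one_pos, le_rfl, fun _ h => absurd h (Nat.not_lt_zero _), fun x _ =>
    ⟨fun _ h => absurd h (Nat.not_lt_zero _), fun _ h => absurd h (Nat.not_lt_zero _),
      fun _ h => absurd h (Nat.not_lt_zero _),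
      0, by simp, by simp, fun _ h => absurd h (Nat.not_lt_zero _)⟩⟩

theorem mainBound (n k : ℕ) : MainBound n k := by
  intro D₀
  have h1 : ∀ p, ∃ K, 0 ≤ K ∧ (p ≤ k → 2 * p ≤ n → ∀ (S : Ctx n k), ∀ y ∈ S.X.M,
      S.X.Bd (fun x => S.D.BP n (S.X.P x) (S.D.Rh S.X x ^ p * S.D.Th (S.X.P x) ^ (n - 2 * p)))
        (S.G.ball y (1 / 2)) K) := by
    intro p
    by_cases hp : p ≤ k ∧ 2 * p ≤ n
    · obtain ⟨K, hK⟩ := (cl_all n k p hp.1).1 0 1 one_pos le_rfl (by omega)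
      refine ⟨|K|, abs_nonneg _, fun _ _ S y hy => ?_⟩
      have hF := S.frame_zero hy
      refine (hK S _ y 1 hF).mono (fun x _ hx => ⟨hx, ?_⟩) (by simpa using le_abs_self K)
      obtain ⟨C, hC⟩ := hF.est one_pos le_rfl (S.G.ball_mono y (by norm_num) hx)
      have d1 : S.D.Dom (S.D.Rh S.X x) 1 (S.D.Rh S.X x) (S.Ps (fun _ _ => 0) 0 1 1 x) :=
        DFA.Dom.of_le DFA.Cone.rho (((hC.Zc.pow0 2).mono zero_le_one).cast (by
          simp only [Ctx.Ps]; ring))
      exact ((d1.pow1 p).mul0' (DFA.Dom.refl (hC.thc.pow0 (n - 0 - 2 * p)))).le hC.pos hp.1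
    · exact ⟨0, le_rfl, fun h h' => absurd ⟨h, h'⟩ hp⟩
  choose K hK0 hK using h1
  set r := |D₀| + 1 with hr
  have hr0 : 0 ≤ r := by positivity
  refine ⟨(1 + 2 * (r * Real.cosh r) / (1 / 2)) ^ n * ∑ p ∈ Finset.range (k + 1), K p,
    fun S hD p hp hn => ?_⟩
  have hs : K p ≤ ∑ p ∈ Finset.range (k + 1), K p :=
    Finset.single_le_sum (fun i _ => hK0 i) (Finset.mem_range.2 (by omega))
  have hN : 0 ≤ (1 + 2 * (r * Real.cosh r) / (1 / 2)) ^ n := by
    have := Real.cosh_pos r; positivity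
  rcases S.X.M.eq_empty_or_nonempty with he | ⟨y, hy⟩
  · exact Emb.Maj.zero (fun x hx => by rw [he] at hx; exact hx.elim)
      (mul_nonneg hN ((hK0 p).trans hs))
  · obtain ⟨T, h2, h3, h4⟩ := Geo.cover S.geod S.hinge hy hr0 (ε := 1 / 2) (by norm_num)
      (W := S.X.M) fun x hx => ⟨hx, by linarith [hD y hy x hx, le_abs_self D₀]⟩
    have := Emb.Bd.biUnion T (K := fun _ => K p) (W := S.X.M) (fun t ht => hK p hp hn S t (h2 ht))
      fun x hx => let ⟨t, ht, hd⟩ := h4 x hx; ⟨t, ht, hx, hd⟩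
    refine Emb.Maj.mono this (fun x hx => by rw [indicator_of_mem hx]) ?_
    rw [Finset.sum_const, nsmul_eq_mul]
    exact mul_le_mul h3 hs (hK0 p) hN

end Pool.Agent.AlEmb
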