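import Pool.Agent.Lib.MP_3fa020_gt.EInt

/-!
Obtuse frames: nondegeneracy and bounds for the shape operators.
-/

namespace Pool.Agent.AlEmb

open Set Filter Topology MeasureTheory
open scoped InnerProductSpace ContDiff

variable {A n : ℕ}

namespace Emb

variable {X : Emb A n} {f : ℕ → Eu A → ℝ} {j : ℕ} {c R : ℝ} {x : Eu A}

lemma inner_gr (hx : x ∈ X.M) (g : Eu A → ℝ) {w : Eu A} (hw : X.P x w = w) :
    ⟪X.gr g x, w⟫_ℝ = fderiv ℝ g x w := by
  rw [gr, (isProj hx).symm, hw, inner_grad]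

lemma P_gr (hx : x ∈ X.M) (g : Eu A → ℝ) : X.P x (X.gr g x) = X.gr g x := (isProj hx).idem _

lemma NZ.Pl_gr (h : X.NZ f j x) (g : Eu A → ℝ) :
    X.Pl f j x (X.gr g x) = X.Pl f j x (gradient g x) := h.lev'.sub' _

lemma NZ.P_ul (h : X.NZ f j x) {a : ℕ} (ha : a < j) : X.P x (X.ul f a x) = X.ul f a x := by
  rw [ul, nrm, map_smul, sl, (h.mono ha.le).lev'.sub]

lemma NZ.norm_ul (h : X.NZ f j x) {a : ℕ} (ha : a < j) : ‖X.ul f a x‖ = 1 := norm_nrm (h.ne a ha)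

lemma NZ.abs_fderiv_ul (h : X.NZ f j x) {a : ℕ} (ha : a < j) (g : Eu A → ℝ) :
    |fderiv ℝ g x (X.ul f a x)| ≤ ‖X.gr g x‖ := by
  rw [← inner_gr h.mem g (h.P_ul ha)]
  simpa [h.norm_ul ha] using abs_real_inner_le_norm (X.gr g x) (X.ul f a x)

/-- projecting an obtuse vector adds a vector of the cone of the gradients -/
lemma NZ.cone (h : X.NZ f j x)
    (ho : ∀ a < j, ∀ b < j, a ≠ b → ⟪X.gr (f a) x, X.gr (f b) x⟫_ℝ ≤ 0) (v : Eu A)
    (hv0 : X.P x v = v) (hv : ∀ b < j, ⟪v, X.gr (f b) x⟫_ℝ ≤ 0) (y : Eu A)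
    (hy : ∀ b < j, 0 ≤ ⟪X.gr (f b) x, y⟫_ℝ) : ⟪v, y⟫_ℝ ≤ ⟪X.Pl f j x v, y⟫_ℝ := by
  induction j generalizing v y with
  | zero => simp [Pl, hv0]
  | succ j ih =>
    have ih' := ih (h.mono (Nat.le_succ j)) fun a ha b hb => ho a (by omega) b (by omega)
    have h1 : ∀ y, (∀ b < j + 1, 0 ≤ ⟪X.gr (f b) x, y⟫_ℝ) → 0 ≤ ⟪X.ul f j x, y⟫_ℝ := by
      intro y hy
      have := ih' (X.gr (f j) x) (P_gr h.mem _) (fun b hb => ho j (by omega) b (by omega) (by omega))
        y fun b hb => hy b (by omega)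
      rw [(h.mono (Nat.le_succ j)).Pl_gr] at this
      rw [ul, nrm, inner_smul_left]
      exact mul_nonneg (by simp) ((hy j (by omega)).trans this)
    have h2 := h1 (-v) fun b hb => by
      rw [inner_neg_right, real_inner_comm]; linarith [hv b hb]
    have h3 := ih' v hv0 (fun b hb => hv b (by omega)) y fun b hb => hy b (by omega)
    rw [inner_neg_right] at h2
    rw [Pl_succ, Pst, sub_apply, r1_apply, inner_sub_left, inner_smul_left]
    have := mul_nonneg h2 (h1 y hy)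
    simp only [conj_trivial]
    linarith

lemma NZ.ne_zero (h : X.NZ f j x)
    (ho : ∀ a < j, ∀ b < j, a ≠ b → ⟪X.gr (f a) x, X.gr (f b) x⟫_ℝ ≤ 0) {v w : Eu A}
    (hv0 : X.P x v = v) (hv : ∀ b < j, ⟪v, X.gr (f b) x⟫_ℝ ≤ 0) (hw0 : X.P x w = w)
    (hw : ∀ b < j, 0 ≤ fderiv ℝ (f b) x w) (hvw : 0 < ⟪v, w⟫_ℝ) : X.Pl f j x v ≠ 0 := by
  intro e
  have := h.cone ho v hv0 hv w fun b hb => by rw [inner_gr h.mem _ hw0]; exact hw b hb
  rw [e, inner_zero_left] at this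
  linarith

lemma NZ.fderiv_ul_le (h : X.NZ f j x)
    (ho : ∀ a < j, ∀ b < j, a ≠ b → ⟪X.gr (f a) x, X.gr (f b) x⟫_ℝ ≤ 0) {b : ℕ} (hb : b < j)
    {g : Eu A → ℝ} (hg : ∀ a < b, ⟪X.gr g x, X.gr (f a) x⟫_ℝ ≤ 0) :
    ‖X.sl f b x‖ * fderiv ℝ g x (X.ul f b x) ≤ ⟪X.gr g x, X.gr (f b) x⟫_ℝ := by
  have := (h.mono hb.le).cone (fun a ha b hb => ho a (by omega) b (by omega)) (X.gr (f b) x)
    (P_gr h.mem _) (fun a ha => ho b hb a (by omega) (by omega)) (-X.gr g x) fun a ha => by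
      rw [inner_neg_right, real_inner_comm]; linarith [hg a ha]
  rw [(h.mono hb.le).Pl_gr, inner_neg_right, inner_neg_right] at this
  rw [← inner_gr h.mem g (h.P_ul hb), ← inner_smul_right, ul, smul_nrm, real_inner_comm,
    real_inner_comm (X.gr (f b) x)]
  change _ ≤ -⟪X.sl f b x, _⟫_ℝ at this
  linarith

namespace FramePt

variable (hp : X.FramePt f j c R x) (hx : x ∈ X.M) (hs : ∀ a < j, ContDiff ℝ ∞ (f a)) (hc : 0 < c)
include hp

lemma mono {i : ℕ} (hi : i ≤ j) : X.FramePt f i c R x :=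
  ⟨fun a ha => hp.hess a (by omega), fun a ha => hp.grad a (by omega),
    fun a ha b hb => hp.obt a (by omega) b (by omega), by
      obtain ⟨w, h1, h2, h3⟩ := hp.dir
      exact ⟨w, h1, h2, fun a ha => h3 a (by omega)⟩⟩

lemma scale {R' : ℝ} (h0 : 0 < R') (h : R' ≤ R) : X.FramePt f j c R' x :=
  ⟨fun a ha w hw => (hp.hess a ha w hw).trans (by gcongr), hp.grad, hp.obt, hp.dir⟩

include hc in
lemma obt0 : ∀ a < j, ∀ b < j, a ≠ b → ⟪X.gr (f a) x, X.gr (f b) x⟫_ℝ ≤ 0 :=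
  fun a ha b hb hab => (hp.obt a ha b hb hab).trans (by linarith)

include hc in
lemma le_sl {a : ℕ} (ha : a < j) (h : X.NZ f a x) : c ≤ ‖X.sl f a x‖ := by
  obtain ⟨w, h1, h2, h3⟩ := hp.dir
  have := h.cone (fun b hb b' hb' => hp.obt0 hc b (by omega) b' (by omega)) (X.gr (f a) x)
    (P_gr h.mem _) (fun b hb => hp.obt0 hc a ha b (by omega) (by omega)) w fun b hb => by
      rw [inner_gr h.mem _ h2]; linarith [h3 b (by omega)]
  rw [inner_gr h.mem _ h2, h.Pl_gr] at this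
  have h4 := real_inner_le_norm (X.sl f a x) w
  have h5 := mul_le_of_le_one_right (norm_nonneg (X.sl f a x)) h1
  have := h3 a ha
  change _ ≤ ⟪X.sl f a x, w⟫_ℝ at *
  linarith

include hx hs hc in
lemma nz : X.NZ f j x := by
  induction j with
  | zero => exact ⟨hx, hs, fun a ha => by omega⟩
  | succ j ih =>
    have h := ih (hp.mono (Nat.le_succ j)) fun a ha => hs a (by omega)
    refine ⟨hx, hs, fun a ha => norm_pos_iff.1 (hc.trans_le (hp.le_sl hc ha (h.mono (by omega))))⟩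

lemma sl_le {a : ℕ} (ha : a < j) (h : X.NZ f a x) : ‖X.sl f a x‖ ≤ 1 := by
  rw [sl, ← h.Pl_gr]
  exact (h.lev'.isProj.norm_le _).trans (hp.grad a ha)

include hc in
lemma Jl_bd (h : X.NZ f j x) : c ^ j ≤ X.Jl f j x ∧ X.Jl f j x ≤ 1 := by
  induction j with
  | zero => simp [Jl]
  | succ j ih =>
    have h' := h.mono (Nat.le_succ j)
    obtain ⟨h1, h2⟩ := ih (hp.mono (Nat.le_succ j)) h'
    have h3 := hp.le_sl hc (Nat.lt_succ_self j) h'
    have h4 := hp.sl_le (Nat.lt_succ_self j) h'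
    have h5 : 0 ≤ c ^ j := by positivity
    rw [Jl, pow_succ]
    exact ⟨mul_le_mul h1 h3 hc.le (h5.trans h1), mul_le_one₀ h2 (norm_nonneg _) h4⟩

include hc in
lemma coef (h : X.NZ f j x) {a b : ℕ} (ha : a < j) (hb : b < a) :
    c ≤ -fderiv ℝ (f a) x (X.ul f b x) ∧ -fderiv ℝ (f a) x (X.ul f b x) ≤ 1 := by
  have h1 := h.fderiv_ul_le (hp.obt0 hc) (b := b) (by omega) (g := f a)
    fun b' hb' => hp.obt0 hc a ha b' (by omega) (by omega)
  have h2 := hp.obt a ha b (by omega) (by omega)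
  have h3 := hp.le_sl hc (a := b) (by omega) (h.mono (by omega))
  have h4 := hp.sl_le (a := b) (by omega) (h.mono (by omega))
  have h5 := abs_le.1 ((h.abs_fderiv_ul (a := b) (by omega) (f a)).trans (hp.grad a ha))
  refine ⟨?_, by linarith⟩
  by_contra h6
  have : 0 ≤ -fderiv ℝ (f a) x (X.ul f b x) := by nlinarith
  nlinarith

omit hp in
lemma gamma_sum (hc : 0 < c) (a : ℕ) :
    c * (1 + 1 / c) ^ (a + 1) = 1 + c + ∑ b ∈ Finset.range a, (1 + 1 / c) ^ (b + 1) := by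
  induction a with
  | zero => simp; field_simp; ring
  | succ a ih =>
    rw [Finset.sum_range_succ, ← add_assoc, ← ih, pow_succ _ (a + 1)]
    field_simp

include hc in
/-- the shape operators are bounded above, and each defect dominates the previous ones -/
lemma shape_bd (hR : 0 < R) (h : X.NZ f j x) {w : Eu A} (hw : X.Pl f j x w = w) {a : ℕ} (ha : a < j) :
    0 ≤ (1 + 1 / c) ^ (a + 1) * (‖w‖ ^ 2 / R) - ⟪X.Sh f (a + 1) x w, w⟫_ℝ ∧
    ∀ b < a, c * ((1 + 1 / c) ^ (b + 1) * (‖w‖ ^ 2 / R) - ⟪X.Sh f (b + 1) x w, w⟫_ℝ) ≤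
      (1 + 1 / c) ^ (a + 1) * (‖w‖ ^ 2 / R) - ⟪X.Sh f (a + 1) x w, w⟫_ℝ := by
  induction a using Nat.strong_induction_on with
  | _ a ih =>
    set N := ‖w‖ ^ 2 / R
    have hN : 0 ≤ N := by positivity
    set B : ℕ → ℝ := fun b => (1 + 1 / c) ^ (b + 1) * N - ⟪X.Sh f (b + 1) x w, w⟫_ℝ with hB
    have hw' : ∀ i ≤ j, X.Pl f i x w = w := fun i hi => by rw [← hw]; exact h.Pl_Pl hi _
    have h1 := (h.mono ha).Sh_eq (hw' _ ha)
    rw [(h.mono ha.le).Hess_Pl _ (hw' _ ha.le)] at h1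
    have h2 := hp.hess a ha w (hw' 0 (by omega))
    have h3 := hp.le_sl hc ha (h.mono ha.le)
    have h4 := hp.sl_le ha (h.mono ha.le)
    have hγ : ∀ b, 0 ≤ (1 + 1 / c) ^ (b + 1) * N := fun b => by positivity
    have key : ∑ b ∈ Finset.range a, c * B b ≤ ‖X.sl f a x‖ * B a := by
      have e1 : ∑ b ∈ Finset.range a, c * B b ≤ ∑ b ∈ Finset.range a, ((1 + 1 / c) ^ (b + 1) * N +
          fderiv ℝ (f a) x (X.ul f b x) * ⟪X.Sh f (b + 1) x w, w⟫_ℝ) := by
        refine Finset.sum_le_sum fun b hb => ?_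
        have hb := Finset.mem_range.1 hb
        obtain ⟨k1, k2⟩ := hp.coef hc h ha hb
        have k3 : 0 ≤ B b := (ih b hb (by omega)).1
        have k4 := hγ b
        have e : ⟪X.Sh f (b + 1) x w, w⟫_ℝ = (1 + 1 / c) ^ (b + 1) * N - B b := by simp [hB]
        rw [e]
        nlinarith
      rw [Finset.sum_add_distrib, ← Finset.sum_mul] at e1
      have e2 := gamma_sum hc a
      have e3 := mul_le_mul_of_nonneg_right h3 (hγ a)
      simp only [hB]
      nlinarith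
    have hpos : ∀ b ∈ Finset.range a, 0 ≤ c * B b := fun b hb =>
      mul_nonneg hc.le (ih b (Finset.mem_range.1 hb) (by have := Finset.mem_range.1 hb; omega)).1
    have h5 : 0 ≤ B a := by
      have := (Finset.sum_nonneg hpos).trans key
      exact nonneg_of_mul_nonneg_right this (by linarith) |> fun h => by
        by_contra h6; nlinarith
    refine ⟨h5, fun b hb => ?_⟩
    have := (Finset.single_le_sum hpos (Finset.mem_range.2 hb)).trans key
    change c * B b ≤ B a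
    nlinarith

include hc in
/-- Hessian along the level of a function that is obtuse to the frame -/
lemma Hess_le (hR : 0 < R) (h : X.NZ f j x) {g : Eu A → ℝ} (hg1 : ‖X.gr g x‖ ≤ 1)
    (hg : ∀ a < j, ⟪X.gr g x, X.gr (f a) x⟫_ℝ ≤ 0) {w : Eu A} (hw : X.Pl f j x w = w) :
    Hess (X.Pl f j) g x w w ≤ Hess X.P g x w w + j * (1 + 1 / c) ^ j * (‖w‖ ^ 2 / R) := by
  rw [h.Hess_Pl g hw, sub_eq_add_neg, ← Finset.sum_neg_distrib]
  refine add_le_add_right ?_ _
  refine (Finset.sum_le_card_nsmul _ _ ((1 + 1 / c) ^ j * (‖w‖ ^ 2 / R)) fun a ha => ?_).trans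
    (by simp [mul_assoc])
  have ha := Finset.mem_range.1 ha
  have h1 := (hp.shape_bd hc hR h hw ha).1
  have h2 := h.fderiv_ul_le (hp.obt0 hc) ha (g := g) fun b hb => hg b (by omega)
  have h3 := hp.le_sl hc ha (h.mono ha.le)
  have h4 := hg a ha
  have h5 : fderiv ℝ g x (X.ul f a x) ≤ 0 := by by_contra h6; nlinarith
  have h6 := abs_le.1 ((h.abs_fderiv_ul ha g).trans hg1)
  have h7 : (1 + 1 / c) ^ (a + 1) ≤ (1 + 1 / c) ^ j :=
    pow_le_pow_right₀ (by have : 0 < 1 / c := by positivity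
                          linarith) ha
  have hN : 0 ≤ ‖w‖ ^ 2 / R := by positivity
  have h8 := mul_le_mul_of_nonneg_right h7 hN
  have h9 : 0 ≤ (1 + 1 / c) ^ (a + 1) * (‖w‖ ^ 2 / R) := by positivity
  nlinarith

end FramePt

end Emb

end Pool.Agent.AlEmb
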