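import Pool.Agent.Lib.MP_3fa020_gt.ECut

/-!
Pointwise algebraic inequalities for the odd step.
-/

namespace Pool.Agent.AlEmb.OddAux

open Set Filter Topology MeasureTheory
open scoped InnerProductSpace ContDiff

variable {n k : ℕ}

section defs

variable (S : Ctx n k) (f : ℕ → Eu S.A → ℝ) (j : ℕ) (c R : ℝ) (ξ : Eu S.A → S.D.R)

/-- even quantity weighted by `ξ` -/
noncomputable def aa (q : ℕ) (x : Eu S.A) : ℝ :=
  S.Bl f j x (ξ x * S.Ps f j c R x ^ q * S.th f j x ^ (n - j - 2 * q - 1))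

/-- odd quantity weighted by `ξ` -/
noncomputable def bb (q : ℕ) (x : Eu S.A) : ℝ :=
  S.Bl f j x (ξ x * S.Z f j c R x * S.Ps f j c R x ^ q * S.th f j x ^ (n - j - 2 * q - 2))

end defs

variable {S : Ctx n k} {f : ℕ → Eu S.A → ℝ} {j : ℕ} {c R C : ℝ} {x : Eu S.A}
  {ξ : Eu S.A → S.D.R}

lemma aa_nonneg (h : S.Est f j c R x C) (hξ : S.D.Cone (S.D.Rh S.X x) 0 (ξ x)) {q : ℕ}
    (hq : q ≤ k) : 0 ≤ aa S f j c R ξ q x :=
  h.pos _ (((hξ.mul0 (h.Psc.pow1 q)).mul0' (h.thc.pow0 _)).mono hq)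

lemma bb_nonneg (h : S.Est f j c R x C) (hξ : S.D.Cone (S.D.Rh S.X x) 0 (ξ x)) {q : ℕ}
    (hq : q ≤ k) : 0 ≤ bb S f j c R ξ q x :=
  h.pos _ ((((hξ.mul0 h.Zc).mul0 (h.Psc.pow1 q)).mul0' (h.thc.pow0 _)).mono hq)

lemma M1' (h : S.Est f j c R x C) {q : ℕ} (hq : q ≤ k) {W : S.D.R}
    (hW : S.D.Cone (S.D.Rh S.X x) 0 W) :
    S.Bl f j x (W * S.Ps f j c R x ^ q) ≤ S.Bl f j x (W * S.D.Om (S.X.Pl f j) x ^ q) +
      q * C ^ q / R * S.Bl f j x (W * S.th f j x * S.Z f j c R x * S.Ps f j c R x ^ (q - 1)) := by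
  cases q with
  | zero => simp
  | succ q => simpa using h.M1 q hq W hW

lemma M1Z (h : S.Est f j c R x C) (hC : 0 ≤ C) (hR : 0 < R) {q : ℕ} (hq : q ≤ k) {W : S.D.R}
    (hW : S.D.Cone (S.D.Rh S.X x) 0 W) :
    S.Bl f j x (W * S.Z f j c R x * S.Ps f j c R x ^ q) ≤
      S.Bl f j x (W * S.Z f j c R x * S.D.Om (S.X.Pl f j) x ^ q) +
      q * C ^ q / R * S.Bl f j x (W * S.th f j x * S.Ps f j c R x ^ q) := by
  refine (M1' h hq (hW.mul0 h.Zc)).trans (add_le_add_right ?_ _)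
  cases q with
  | zero => simp
  | succ q =>
    refine mul_le_mul_of_nonneg_left ?_ (by positivity)
    have := (((DFA.Dom.refl (hW.mul0 h.thc)).mul0 h.ZZ).mul
      (DFA.Dom.refl (h.Psc.pow1 q))).le h.pos (by omega)
    rw [Nat.add_one_sub_one,
      show W * S.Z f j c R x * S.th f j x * S.Z f j c R x * S.Ps f j c R x ^ q =
        W * S.th f j x * S.Z f j c R x ^ 2 * S.Ps f j c R x ^ q by ring,
      show W * S.th f j x * S.Ps f j c R x ^ (q + 1) =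
        W * S.th f j x * S.Ps f j c R x * S.Ps f j c R x ^ q by ring]
    exact this

lemma beta_eq (S : Ctx n k) (f : ℕ → Eu S.A → ℝ) (j : ℕ) (c R : ℝ) (x : Eu S.A) :
    S.D.Th (S.X.Sh f j x) = (bl j c / R) • S.th f j x - S.Z f j c R x := by
  simp [Ctx.Z]

lemma alg1 (h : S.Est f j c R x C) (hξ : S.D.Cone (S.D.Rh S.X x) 0 (ξ x)) {κ : ℝ} (hκ : 0 ≤ κ)
    {q : ℕ} (hq : q ≤ k) (hd : j + 2 * q + 1 ≤ n) :
    aa S f j c R ξ q x ≤ κ * (C ^ q * S.Ev f j c R q x) -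
      S.Bl f j x ((κ • S.th f j x - ξ x) * S.D.Om (S.X.Pl f j) x ^ q *
        S.th f j x ^ (n - j - 2 * q - 1)) + C ^ q / R * (q * bb S f j c R ξ (q - 1) x) := by
  have h1 := M1' h hq (hξ.mul0 (h.thc.pow0 (n - j - 2 * q - 1)))
  have h2 := mul_le_mul_of_nonneg_left ((le_abs_self _).trans (h.abs_LK_le hq)) hκ
  have e1 : S.Bl f j x ((κ • S.th f j x - ξ x) * S.D.Om (S.X.Pl f j) x ^ q *
      S.th f j x ^ (n - j - 2 * q - 1)) = κ * S.LK f j q x -
      S.Bl f j x (ξ x * S.th f j x ^ (n - j - 2 * q - 1) * S.D.Om (S.X.Pl f j) x ^ q) := by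
    rw [Ctx.LK, show n - j - 2 * q = n - j - 2 * q - 1 + 1 by omega, Nat.add_one_sub_one,
      ← smul_eq_mul κ, ← map_smul, ← map_sub]
    congr 1
    simp only [Algebra.smul_def]
    ring
  have e2 : (q : ℝ) * C ^ q / R * S.Bl f j x (ξ x * S.th f j x ^ (n - j - 2 * q - 1) *
      S.th f j x * S.Z f j c R x * S.Ps f j c R x ^ (q - 1)) =
      C ^ q / R * (q * bb S f j c R ξ (q - 1) x) := by
    cases q with
    | zero => simp
    | succ q =>
      rw [bb, Nat.add_one_sub_one, show n - j - 2 * q - 2 = n - j - 2 * (q + 1) - 1 + 1 by omega,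
        show ξ x * S.th f j x ^ (n - j - 2 * (q + 1) - 1) * S.th f j x * S.Z f j c R x *
          S.Ps f j c R x ^ q = ξ x * S.Z f j c R x * S.Ps f j c R x ^ q *
          S.th f j x ^ (n - j - 2 * (q + 1) - 1 + 1) by ring]
      ring
  rw [e2] at h1
  rw [e1, aa, mul_right_comm]
  linarith

lemma alg2 (h : S.Est f j c R x C) (hc : 0 < c) (hR : 0 < R) {q : ℕ} (hq : q ≤ k)
    (hd : j + 2 * q + 1 ≤ n) :
    S.Od f j c R q x ≤ (C + q) / R * (C ^ q * S.Ev f j c R q x) -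
      S.Bl f j x (S.D.Th (S.X.Sh f j x) * S.D.Om (S.X.Pl f j) x ^ q *
        S.th f j x ^ (n - j - 2 * q - 1)) := by
  have hb := one_le_bl j hc
  have hC : 0 ≤ C := by linarith [h.b_le]
  have h1 := M1Z h hC hR hq (h.thc.pow0 (n - j - 2 * q - 1))
  have h2 := (le_abs_self _).trans (h.abs_LK_le hq)
  have h3 : 0 ≤ C ^ q * S.Ev f j c R q x := mul_nonneg (by positivity) (h.Ev_nonneg hq)
  have h4 : bl j c / R * S.LK f j q x ≤ C / R * (C ^ q * S.Ev f j c R q x) :=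
    (mul_le_mul_of_nonneg_left h2 (by positivity)).trans
      (mul_le_mul_of_nonneg_right (by gcongr; exact h.b_le) h3)
  have e1 : S.Bl f j x (S.D.Th (S.X.Sh f j x) * S.D.Om (S.X.Pl f j) x ^ q *
      S.th f j x ^ (n - j - 2 * q - 1)) = bl j c / R * S.LK f j q x -
      S.Bl f j x (S.th f j x ^ (n - j - 2 * q - 1) * S.Z f j c R x *
        S.D.Om (S.X.Pl f j) x ^ q) := by
    rw [beta_eq S f j c R, Ctx.LK, show n - j - 2 * q = n - j - 2 * q - 1 + 1 by omega,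
      Nat.add_one_sub_one, ← smul_eq_mul (bl j c / R), ← map_smul, ← map_sub]
    congr 1
    simp only [Algebra.smul_def]
    ring
  have e2 : S.Bl f j x (S.th f j x ^ (n - j - 2 * q - 1) * S.th f j x * S.Ps f j c R x ^ q) =
      S.Ev f j c R q x := by
    rw [Ctx.Ev, ← pow_succ, show n - j - 2 * q - 1 + 1 = n - j - 2 * q by omega, mul_comm]
  have e3 : S.Od f j c R q x = S.Bl f j x (S.th f j x ^ (n - j - 2 * q - 1) * S.Z f j c R x *
      S.Ps f j c R x ^ q) := by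
    rw [Ctx.Od]; congr 1; ring
  rw [e2] at h1
  rw [e1, e3]
  have e4 : (C + q) / R * (C ^ q * S.Ev f j c R q x) =
      C / R * (C ^ q * S.Ev f j c R q x) + q * C ^ q / R * S.Ev f j c R q x := by ring
  linarith

lemma alg3 (h : S.Est f j c R x C) (hc : 0 < c) (hR : 0 < R)
    (hξ : S.D.Cone (S.D.Rh S.X x) 0 (ξ x)) {κ : ℝ} (hκ : 0 ≤ κ) {q : ℕ} (hq : q ≤ k)
    (hd : j + 2 * q + 3 ≤ n) :
    bb S f j c R ξ q x ≤ S.Bl f j x ((κ • S.th f j x - ξ x) * S.D.Th (S.X.Sh f j x) *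
        S.D.Om (S.X.Pl f j) x ^ q * S.th f j x ^ (n - j - 2 * q - 2)) +
      (C + q) / R * (C ^ q * aa S f j c R ξ q x) + κ * (C ^ (q + 1) * S.Od f j c R q x) := by
  have hb := one_le_bl j hc
  have hC : 0 ≤ C := by linarith [h.b_le]
  set r := n - j - 2 * q - 2 with hr
  have hr1 : n - j - 2 * q - 1 = r + 1 := by omega
  have h1 := M1Z h hC hR hq (hξ.mul0 (h.thc.pow0 r))
  have h2 := (le_abs_self _).trans
    (h.M2 q hq _ _ (DFA.Dom.refl (hξ.mul0 (h.thc.pow0 (r + 1)))))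
  have h3 := (neg_le_abs _).trans
    (h.M2 q hq _ _ (h.ShZ.mul0 (DFA.Dom.refl (h.thc.pow0 (r + 1)))))
  have ea : S.Bl f j x (ξ x * S.th f j x ^ (r + 1) * S.Ps f j c R x ^ q) =
      aa S f j c R ξ q x := by rw [aa, hr1, mul_right_comm]
  have ea' : S.Bl f j x (ξ x * S.th f j x ^ r * S.th f j x * S.Ps f j c R x ^ q) =
      aa S f j c R ξ q x := by rw [← ea]; congr 1; ring
  have eb : S.Bl f j x (ξ x * S.th f j x ^ r * S.Z f j c R x * S.Ps f j c R x ^ q) =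
      bb S f j c R ξ q x := by rw [bb, ← hr]; congr 1; ring
  have eo : S.Bl f j x (C • S.Z f j c R x * S.th f j x ^ (r + 1) * S.Ps f j c R x ^ q) =
      C * S.Od f j c R q x := by
    rw [Ctx.Od, hr1, ← smul_eq_mul C, ← map_smul]
    congr 1
    simp only [Algebra.smul_def]
    ring
  rw [ea', eb] at h1
  rw [ea] at h2
  rw [eo] at h3
  have ha : 0 ≤ C ^ q * aa S f j c R ξ q x := mul_nonneg (by positivity) (aa_nonneg h hξ hq)
  have h4 : bl j c / R * S.Bl f j x (ξ x * S.th f j x ^ (r + 1) * S.D.Om (S.X.Pl f j) x ^ q) ≤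
      C / R * (C ^ q * aa S f j c R ξ q x) :=
    (mul_le_mul_of_nonneg_left h2 (by positivity)).trans
      (mul_le_mul_of_nonneg_right (by gcongr; exact h.b_le) ha)
  have h5 := mul_le_mul_of_nonneg_left h3 hκ
  have e1 : S.Bl f j x ((κ • S.th f j x - ξ x) * S.D.Th (S.X.Sh f j x) *
      S.D.Om (S.X.Pl f j) x ^ q * S.th f j x ^ r) =
      κ * S.Bl f j x (S.D.Th (S.X.Sh f j x) * S.th f j x ^ (r + 1) * S.D.Om (S.X.Pl f j) x ^ q) -
      (bl j c / R * S.Bl f j x (ξ x * S.th f j x ^ (r + 1) * S.D.Om (S.X.Pl f j) x ^ q) -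
      S.Bl f j x (ξ x * S.th f j x ^ r * S.Z f j c R x * S.D.Om (S.X.Pl f j) x ^ q)) := by
    rw [← smul_eq_mul κ, ← smul_eq_mul (bl j c / R), ← map_smul, ← map_smul, ← map_sub, ← map_sub]
    congr 1
    rw [beta_eq S f j c R]
    simp only [Algebra.smul_def]
    ring
  rw [e1]
  have e4 : (C + q) / R * (C ^ q * aa S f j c R ξ q x) =
      C / R * (C ^ q * aa S f j c R ξ q x) + q * C ^ q / R * aa S f j c R ξ q x := by ring
  have e5 : κ * (C ^ (q + 1) * S.Od f j c R q x) = κ * (C ^ q * (C * S.Od f j c R q x)) := by ring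
  linarith

end Pool.Agent.AlEmb.OddAux
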