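import Pool.Agent.Lib.MP_3fa020_gt.EOdd1

/-!
The two integral inequalities of the odd step.
-/

namespace Pool.Agent.AlEmb.OddAux

open Set Filter Topology MeasureTheory
open scoped InnerProductSpace ContDiff

variable {n k : ℕ}

/-- the positive weight form -/
noncomputable def xi (S : Ctx n k) (f : ℕ → Eu S.A → ℝ) (j : ℕ) (κ : Eu S.A → ℝ)
    (w : Eu S.A → Eu S.A) (y : Eu S.A) : S.D.R :=
  κ y • S.th f j y - S.D.Th (Top (S.X.Pl f j) w y)

/-- the cutoff data of the odd step -/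
structure Dat (S : Ctx n k) (f : ℕ → Eu S.A → ℝ) (i : ℕ) (c R C G : ℝ) (K : Set (Eu S.A))
    (ζ κ : Eu S.A → ℝ) (w : Eu S.A → Eu S.A) : Prop where
  closed : IsClosed K
  zsm : ContDiff ℝ ∞ ζ
  z0 : ∀ x, 0 ≤ ζ x
  z1 : ∀ x, ζ x ≤ 1
  kc : Continuous κ
  k0 : ∀ x, 0 ≤ κ x
  k1 : ∀ x, κ x ≤ G / R ^ 2
  off : ∀ x ∉ K, ∀ᶠ y in 𝓝 x, ζ y = 0 ∧ κ y = 0 ∧ w y = 0
  est : ∀ x ∈ S.X.M, x ∈ K → S.Est f (i + 1) c R x C
  J : ∀ x ∈ S.X.M, x ∈ K → S.X.Jl f i x ≤ 1 ∧ 1 ≤ C * S.X.Jl f i x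
  tan : ∀ x ∈ S.X.M, x ∈ K → TanF S.X (S.X.Pl f (i + 1)) w x
  dz : ∀ x ∈ S.X.M, x ∈ K → ∀ v, fderiv ℝ ζ x (S.X.Pl f (i + 1) x v) = ⟪w x, v⟫_ℝ
  du : ∀ x ∈ S.X.M, x ∈ K → |fderiv ℝ ζ x (S.X.ul f i x)| ≤ G / R
  cone : ∀ x ∈ S.X.M, x ∈ K → S.D.Cone (S.D.Rh S.X x) 0 (xi S f (i + 1) κ w x)

lemma divP_zero {A : ℕ} (P : Eu A → Eu A →L[ℝ] Eu A) {Y : Eu A → Eu A} {x : Eu A}
    (h : Y =ᶠ[𝓝 x] fun _ => 0) : divP P Y x = 0 := by
  simp [divP, h.fderiv_eq]

lemma final_mul {a J C T D : ℝ} (ha : 0 ≤ a) (hC : 0 ≤ C) (hJ1 : J ≤ 1) (hJ : 1 ≤ C * J)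
    (hT : 0 ≤ T) (h : a ≤ D + T) : a ≤ C * (J * D) + C * T := by
  have hJ0 : 0 ≤ J := by
    by_contra h0
    have := mul_nonneg hC (neg_nonneg.2 (not_le.1 h0).le)
    linarith
  have h1 : J * a ≤ J * D + T := by nlinarith
  have h2 := mul_le_mul_of_nonneg_left h1 hC
  nlinarith

/-- the constant of the two inequalities -/
noncomputable def LL (n : ℕ) (C G : ℝ) (q : ℕ) : ℝ :=
  C ^ (q + 1) * (n * (C + q) + 2 * (C + q) + 2 * G + 1)

lemma num1 {R C G E b a D : ℝ} (n q : ℕ) (hR : 0 < R) (hC : 1 ≤ C) (hG : 0 ≤ G) (hE : 0 ≤ E)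
    (hb : 0 ≤ b) (h : a ≤ C * -D + C * (G / R ^ 2 * (C ^ q * E) + C ^ q / R * b)) :
    R ^ 2 * a ≤ -(R ^ 2 * C) * D + LL n C G q * (E + R * b) := by
  have h5 := mul_le_mul_of_nonneg_left h (sq_nonneg R)
  have e : R ^ 2 * (C * (G / R ^ 2 * (C ^ q * E) + C ^ q / R * b)) =
      C ^ (q + 1) * (G * E + 1 * (R * b)) := by field_simp; ring
  have h6 : C ^ (q + 1) * (G * E + 1 * (R * b)) ≤ LL n C G q * (E + R * b) := by
    rw [LL, mul_assoc, mul_add _ E]
    have : (0 : ℝ) ≤ n * (C + q) := by positivity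
    have : (0 : ℝ) ≤ C + q := by positivity
    gcongr <;> linarith
  linarith

lemma num2 {R C G E a O t D : ℝ} (n q : ℕ) (hR : 0 < R) (hC : 1 ≤ C) (hG : 0 ≤ G) (hE : 0 ≤ E)
    (ha : 0 ≤ a) (hO : 0 ≤ O)
    (h : t ≤ C * -D + C * (n * ((C + q) / R * (C ^ q * E)) + C ^ q * E * (G / R) +
        2 * ((C + q) / R * (C ^ q * (q * a))) + 2 * (G / R ^ 2 * (C ^ q * (q * O))))) :
    R * t ≤ -(R * C) * D + LL n C G q * (E + q * a + q * O / R) := by
  have h11 := mul_le_mul_of_nonneg_left h hR.le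
  have e : R * (C * (n * ((C + q) / R * (C ^ q * E)) + C ^ q * E * (G / R) +
      2 * ((C + q) / R * (C ^ q * (q * a))) + 2 * (G / R ^ 2 * (C ^ q * (q * O))))) =
      C ^ (q + 1) * ((n * (C + q) + G) * E + 2 * (C + q) * (q * a) + 2 * G * (q * O / R)) := by
    field_simp; ring
  have h12 : C ^ (q + 1) * ((n * (C + q) + G) * E + 2 * (C + q) * (q * a) +
      2 * G * (q * O / R)) ≤ LL n C G q * (E + q * a + q * O / R) := by
    rw [LL, mul_assoc (C ^ (q + 1)), mul_add _ (E + q * a), mul_add _ E]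
    have h1 : (0 : ℝ) ≤ n * (C + q) := by positivity
    have h2 : (0 : ℝ) ≤ C + q := by positivity
    refine mul_le_mul_of_nonneg_left (add_le_add (add_le_add ?_ ?_) ?_) (by positivity) <;>
      exact mul_le_mul_of_nonneg_right (by linarith) (by positivity)
  linarith

namespace Dat

variable {S : Ctx n k} {f : ℕ → Eu S.A → ℝ} {i : ℕ} {c R C G : ℝ} {K : Set (Eu S.A)}
  {ζ κ : Eu S.A → ℝ} {w : Eu S.A → Eu S.A} (h : Dat S f i c R C G K ζ κ w)
include h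

lemma w_off {x : Eu S.A} (hx : x ∉ K) : w =ᶠ[𝓝 x] fun _ => 0 :=
  (h.off x hx).mono fun _ hy => hy.2.2

lemma xi_off {x : Eu S.A} (hx : x ∉ K) : ∀ᶠ y in 𝓝 x, xi S f (i + 1) κ w y = 0 := by
  filter_upwards [h.off x hx, (h.w_off hx).eventually_nhds] with y h1 h2
  have h3 : w =ᶠ[𝓝 y] fun _ => 0 := h2
  have : Top (S.X.Pl f (i + 1)) w y = 0 := by
    ext1 v
    simp [Top_apply, h3.fderiv_eq]
  simp [xi, h1.2.1, this]

lemma cont {F : Eu S.A → S.D.R} (hF : ∀ x ∈ S.X.M, x ∈ K → ContDiffAt ℝ ∞ F x) :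
    ContinuousOn (fun y => S.Bl f (i + 1) y (xi S f (i + 1) κ w y * F y)) S.X.M := by
  intro x hx
  refine ContinuousAt.continuousWithinAt ?_
  by_cases hK : x ∈ K
  · have hz := (h.est x hx hK).nz
    have h1 : ContinuousAt (xi S f (i + 1) κ w) x :=
      (h.kc.continuousAt.smul (Ctx.cda_th hz).continuousAt).sub
        (S.D.cda_Th (cda_Top hz.lev'.smooth (h.tan x hx hK).smooth)).continuousAt
    exact S.D.B.continuous.continuousAt.comp ((h1.mul (hF x hx hK).continuousAt).mul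
      (S.D.cda_nu hz.lev'.smooth _).continuousAt)
  · refine (continuousAt_const (y := (0 : ℝ))).congr ?_
    exact (h.xi_off hK).mono fun y hy => by simp [hy]

lemma aa_cont (q : ℕ) : ContinuousOn (aa S f (i + 1) c R (xi S f (i + 1) κ w) q) S.X.M := by
  refine (h.cont (F := fun y => S.Ps f (i + 1) c R y ^ q * S.th f (i + 1) y ^
    (n - (i + 1) - 2 * q - 1)) fun x hx hK => ?_).congr fun y _ => by rw [aa, mul_assoc]
  exact ((Ctx.cda_Ps (h.est x hx hK).nz c R).pow _).mul ((Ctx.cda_th (h.est x hx hK).nz).pow _)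

lemma bb_cont (q : ℕ) : ContinuousOn (bb S f (i + 1) c R (xi S f (i + 1) κ w) q) S.X.M := by
  refine (h.cont (F := fun y => S.Z f (i + 1) c R y * S.Ps f (i + 1) c R y ^ q *
    S.th f (i + 1) y ^ (n - (i + 1) - 2 * q - 2)) fun x hx hK => ?_).congr fun y _ => by
      rw [bb]; simp only [mul_assoc]
  have hz := (h.est x hx hK).nz
  exact ((Ctx.cda_Z hz c R).mul ((Ctx.cda_Ps hz c R).pow _)).mul ((Ctx.cda_th hz).pow _)

lemma aa_off {x : Eu S.A} (hx : x ∉ K) (q : ℕ) :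
    aa S f (i + 1) c R (xi S f (i + 1) κ w) q x = 0 := by
  simp [aa, (h.xi_off hx).self_of_nhds]

lemma bb_off {x : Eu S.A} (hx : x ∉ K) (q : ℕ) :
    bb S f (i + 1) c R (xi S f (i + 1) κ w) q x = 0 := by
  simp [bb, (h.xi_off hx).self_of_nhds]

lemma aa0 {x : Eu S.A} (hx : x ∈ S.X.M) {q : ℕ} (hq : q ≤ k) :
    0 ≤ aa S f (i + 1) c R (xi S f (i + 1) κ w) q x := by
  by_cases hK : x ∈ K
  · exact aa_nonneg (h.est x hx hK) (h.cone x hx hK) hq
  · rw [h.aa_off hK]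

lemma bb0 {x : Eu S.A} (hx : x ∈ S.X.M) {q : ℕ} (hq : q ≤ k) :
    0 ≤ bb S f (i + 1) c R (xi S f (i + 1) κ w) q x := by
  by_cases hK : x ∈ K
  · exact bb_nonneg (h.est x hx hK) (h.cone x hx hK) hq
  · rw [h.bb_off hK]

lemma tsupp : tsupport ζ ⊆ K := by
  refine closure_minimal (fun x hx => ?_) h.closed
  by_contra hK
  exact hx (h.off x hK).self_of_nhds.1

lemma zo_cont (q : ℕ) : ContinuousOn (fun x => ζ x * S.Od f (i + 1) c R q x) S.X.M :=
  Emb.continuousOn_cut h.zsm.continuous fun x hx hs =>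
    (Ctx.cda_Od (h.est x hx (h.tsupp hs)).nz c R q).continuousAt

lemma zo0 {x : Eu S.A} (hx : x ∈ S.X.M) {q : ℕ} (hq : q ≤ k) :
    0 ≤ ζ x * S.Od f (i + 1) c R q x := by
  by_cases hK : x ∈ K
  · exact mul_nonneg (h.z0 x) ((h.est x hx hK).Od_nonneg hq)
  · rw [(h.off x hK).self_of_nhds.1, zero_mul]

omit h in
lemma tau_eq (x : Eu S.A) : S.D.Th (Top (S.X.Pl f (i + 1)) w x) =
    κ x • S.th f (i + 1) x - xi S f (i + 1) κ w x := by simp [xi]

theorem P1 (hC : 1 ≤ C) (hG : 0 ≤ G) (hR : 0 < R) {q : ℕ} (hq : q ≤ k)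
    (hd : i + 1 + 2 * q + 1 ≤ n) :
    ∃ F, S.X.IsDiv F ∧ ∀ x ∈ S.X.M, R ^ 2 * aa S f (i + 1) c R (xi S f (i + 1) κ w) q x ≤
      F x + LL n C G q * (K.indicator (S.Ev f (i + 1) c R q) x +
        R * (q * bb S f (i + 1) c R (xi S f (i + 1) κ w) (q - 1) x)) := by
  set Y := S.D.Lf (n - (i + 1)) (S.X.Pl f (i + 1)) w q (n - (i + 1) - 2 * q - 1) with hY
  have hoff : ∀ x ∉ K, Y =ᶠ[𝓝 x] fun _ => 0 := fun x hx =>
    (h.w_off hx).mono fun y hy => by simp [hY, DFA.Lf, DFA.VF, hy]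
  have hF := (Emb.isDiv_level (X := S.X) (f := f) (j := i + 1) (Y := Y) fun x hx => by
    by_cases hK : x ∈ K
    · exact Or.inl ⟨(h.est x hx hK).nz, S.D.tanF_Lf (h.est x hx hK).nz.lev' (h.tan x hx hK) _ _⟩
    · exact Or.inr (hoff x hK)).smul (-(R ^ 2 * C))
  refine ⟨_, hF, fun x hx => ?_⟩
  by_cases hK : x ∈ K
  · have he := h.est x hx hK
    have h1 := alg1 he (h.cone x hx hK) (h.k0 x) hq hd
    have h2 : divP (S.X.Pl f (i + 1)) Y x = _ := S.D.div_Lf he.nz.lev' (h.tan x hx hK) _ _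
    rw [tau_eq (κ := κ)] at h2
    have hE := he.Ev_nonneg hq
    have hb : 0 ≤ (q : ℝ) * bb S f (i + 1) c R (xi S f (i + 1) κ w) (q - 1) x :=
      mul_nonneg (by positivity) (h.bb0 hx (by omega))
    rw [indicator_of_mem hK]
    set E := S.Ev f (i + 1) c R q x
    set b := (q : ℝ) * bb S f (i + 1) c R (xi S f (i + 1) κ w) (q - 1) x
    have h3 : κ x * (C ^ q * E) ≤ G / R ^ 2 * (C ^ q * E) :=
      mul_le_mul_of_nonneg_right (h.k1 x) (by positivity)
    have h4 := final_mul (D := -divP (S.X.Pl f (i + 1)) Y x)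
      (T := G / R ^ 2 * (C ^ q * E) + C ^ q / R * b) (h.aa0 hx hq) (by linarith) he.J_le he.J_ge
      (by positivity) (by
        rw [h2]
        change _ ≤ -S.Bl f (i + 1) x ((κ x • S.th f (i + 1) x - xi S f (i + 1) κ w x) * _ *
          S.th f (i + 1) x ^ _) + _
        linarith)
    exact num1 n q hR hC hG hE hb (by rwa [mul_neg (S.X.Jl f (i + 1) x)] at h4)
  · rw [h.aa_off hK, h.bb_off hK, divP_zero _ (hoff x hK), indicator_of_notMem hK]
    simp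

theorem P2 (hc : 0 < c) (hC : 1 ≤ C) (hG : 0 ≤ G) (hR : 0 < R) {q : ℕ} (hq : q ≤ k)
    (hd : i + 1 + 2 * q + 1 ≤ n) :
    ∃ F, S.X.IsDiv F ∧ ∀ x ∈ S.X.M, R * (ζ x * S.Od f (i + 1) c R q x +
      q * bb S f (i + 1) c R (xi S f (i + 1) κ w) (q - 1) x) ≤
      F x + LL n C G q * (K.indicator (S.Ev f (i + 1) c R q) x +
        q * aa S f (i + 1) c R (xi S f (i + 1) κ w) (q - 1) x +
        q * K.indicator (S.Od f (i + 1) c R (q - 1)) x / R) := by
  set r := n - (i + 1) - 2 * q with hr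
  set U := S.D.Uf (n - (i + 1)) (S.X.Pl f i) (S.X.ul f i) q r with hU
  set V := S.D.Vf (n - (i + 1)) (S.X.Pl f i) (S.X.ul f i) w (q - 1) r with hV
  have hoff : ∀ x ∉ K, V =ᶠ[𝓝 x] fun _ => 0 := fun x hx =>
    (h.w_off hx).mono fun y hy => by simp [hV, DFA.Vf, DFA.VF, hy]
  have hF1 := Emb.ibp (X := S.X) (f := f) (j := i) (Y := U) h.zsm fun x hx hs => by
    have hz := (h.est x hx (h.tsupp hs)).nz
    exact ⟨hz.mono (Nat.le_succ i), S.D.tanF_Uf hz.lev_succ hz.unitF.toTanF _ _⟩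
  have hF2 := Emb.isDiv_level (X := S.X) (f := f) (j := i) (Y := V) fun x hx => by
    by_cases hK : x ∈ K
    · have hz := (h.est x hx hK).nz
      exact Or.inl ⟨hz.mono (Nat.le_succ i),
        S.D.tanF_Vf hz.lev_succ hz.unitF.toTanF (hz.tanF_down (h.tan x hx hK)) _ _⟩
    · exact Or.inr (hoff x hK)
  refine ⟨_, (hF1.add (hF2.smul (2 * q))).smul (-(R * C)), fun x hx => ?_⟩
  by_cases hK : x ∈ K
  · have he := h.est x hx hK
    have hz := he.nz
    have hL := hz.lev_succ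
    have hu := hz.unitF
    have hwP : S.X.Pl f (i + 1) x (w x) = w x := hz.lev'.tan_self (h.tan x hx hK)
    have h1 : divP (S.X.Pl f i) U x = r * S.Bl f (i + 1) x (S.D.Th (S.X.Sh f (i + 1) x) *
        S.D.Om (S.X.Pl f (i + 1)) x ^ q * S.th f (i + 1) x ^ (r - 1)) := S.D.div_Uf hL hu q r
    have h2 : ⟪U x, S.X.ul f i x⟫_ℝ = S.LK f (i + 1) q x := S.D.inner_Uf hL hu q r
    have h3 : ⟪U x, w x⟫_ℝ = -(2 * q) * (divP (S.X.Pl f i) V x +
        S.Bl f (i + 1) x (S.D.Th (Top (S.X.Pl f (i + 1)) w x) * S.D.Th (S.X.Sh f (i + 1) x) *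
          S.D.Om (S.X.Pl f (i + 1)) x ^ (q - 1) * S.th f (i + 1) x ^ r)) :=
      S.D.inner_Uf_w hL hu hz.Sh_symTan.symm (hz.tanF_down (h.tan x hx hK))
        (by rw [← hwP]; exact hz.inner_ul (Nat.lt_succ_self i) _) q r
    rw [tau_eq (κ := κ)] at h3
    have h4 : fderiv ℝ ζ x (U x) =
        ⟪U x, w x⟫_ℝ + ⟪U x, S.X.ul f i x⟫_ℝ * fderiv ℝ ζ x (S.X.ul f i x) := by
      have e1 : S.X.Pl f i x (U x) = U x := S.D.P_VF hL.isProj
      have e2 : U x = S.X.Pl f (i + 1) x (U x) + ⟪S.X.ul f i x, U x⟫_ℝ • S.X.ul f i x := by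
        rw [Emb.Pl_succ, Pst, sub_apply, r1_apply, e1, sub_add_cancel]
      conv_lhs => rw [e2]
      rw [map_add, map_smul, h.dz x hx hK, real_inner_comm, real_inner_comm (U x), smul_eq_mul]
    have h5 := alg2 he hc hR hq hd
    rw [show n - (i + 1) - 2 * q - 1 = r - 1 from rfl] at h5
    have hE := he.Ev_nonneg hq
    have hO := he.Od_nonneg hq
    have hO' := he.Od_nonneg (show q - 1 ≤ k by omega)
    have ha := h.aa0 hx (show q - 1 ≤ k by omega)
    have hb := h.bb0 hx (show q - 1 ≤ k by omega)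
    have hLK := he.abs_LK_le hq
    rw [indicator_of_mem hK, indicator_of_mem hK]
    set E := S.Ev f (i + 1) c R q x
    set O := S.Od f (i + 1) c R q x
    set O' := S.Od f (i + 1) c R (q - 1) x
    set a := aa S f (i + 1) c R (xi S f (i + 1) κ w) (q - 1) x
    set b := bb S f (i + 1) c R (xi S f (i + 1) κ w) (q - 1) x
    set T₁ := S.Bl f (i + 1) x (S.D.Th (S.X.Sh f (i + 1) x) *
        S.D.Om (S.X.Pl f (i + 1)) x ^ q * S.th f (i + 1) x ^ (r - 1))
    set T₂ := S.Bl f (i + 1) x ((κ x • S.th f (i + 1) x - xi S f (i + 1) κ w x) *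
      S.D.Th (S.X.Sh f (i + 1) x) * S.D.Om (S.X.Pl f (i + 1)) x ^ (q - 1) * S.th f (i + 1) x ^ r)
      with hT₂
    have h6 : (q : ℝ) * b ≤ q * T₂ + (C + q) / R * (C ^ q * (q * a)) +
        G / R ^ 2 * (C ^ q * (q * O')) := by
      cases q with
      | zero => simp
      | succ q =>
        have k1 := alg3 he hc hR (h.cone x hx hK) (h.k0 x) (q := q) (by omega) (by omega)
        rw [show n - (i + 1) - 2 * q - 2 = r by omega] at k1
        change b ≤ T₂ + (C + q) / R * (C ^ q * a) + κ x * (C ^ (q + 1) * O') at k1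
        have k2 : (C + q) / R * (C ^ q * a) ≤ (C + (q + 1 : ℕ)) / R * (C ^ (q + 1) * a) := by
          push_cast
          gcongr
          · linarith
          · omega
        have k3 : κ x * (C ^ (q + 1) * O') ≤ G / R ^ 2 * (C ^ (q + 1) * O') :=
          mul_le_mul_of_nonneg_right (h.k1 x) (by positivity)
        have k4 := mul_le_mul_of_nonneg_left (show b ≤ T₂ + (C + (q + 1 : ℕ)) / R *
          (C ^ (q + 1) * a) + G / R ^ 2 * (C ^ (q + 1) * O') by linarith)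
          (Nat.cast_nonneg (α := ℝ) (q + 1))
        linarith
    have hr1 : (1 : ℝ) ≤ r := by exact_mod_cast (by omega : 1 ≤ r)
    have hrn : (r : ℝ) ≤ n := by exact_mod_cast (by omega : r ≤ n)
    have hz0 := h.z0 x
    have h7 : r * ζ x * O ≤ n * ((C + q) / R * (C ^ q * E)) - ζ x * (r * T₁) := by
      have k1 := mul_le_mul_of_nonneg_left h5 (show 0 ≤ r * ζ x by positivity)
      have k2 : r * ζ x * ((C + q) / R * (C ^ q * E)) ≤ n * ((C + q) / R * (C ^ q * E)) :=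
        mul_le_mul_of_nonneg_right ((mul_le_of_le_one_right (by positivity) (h.z1 x)).trans hrn)
          (by positivity)
      linarith
    have h8 : S.LK f (i + 1) q x * fderiv ℝ ζ x (S.X.ul f i x) ≤ C ^ q * E * (G / R) := by
      refine (le_abs_self _).trans ?_
      rw [abs_mul]
      exact mul_le_mul hLK (h.du x hx hK) (abs_nonneg _) (by positivity)
    have h9 : ζ x * O ≤ r * ζ x * O := by
      rw [mul_assoc]; exact le_mul_of_one_le_left (by positivity) hr1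
    have hqb : 0 ≤ (q : ℝ) * b := by positivity
    have h10 := final_mul (a := ζ x * O + q * b) (D := -(ζ x * divP (S.X.Pl f i) U x +
        fderiv ℝ ζ x (U x) + 2 * q * divP (S.X.Pl f i) V x))
      (T := n * ((C + q) / R * (C ^ q * E)) + C ^ q * E * (G / R) +
        2 * ((C + q) / R * (C ^ q * (q * a))) + 2 * (G / R ^ 2 * (C ^ q * (q * O'))))
      (by positivity) (by linarith) (h.J x hx hK).1 (h.J x hx hK).2 (by positivity) (by
        rw [h4, h1, h2, h3]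
        linarith)
    refine num2 n q hR hC hG hE ha hO' (h10.trans_eq ?_)
    ring
  · have h1 : ζ =ᶠ[𝓝 x] fun _ => 0 := (h.off x hK).mono fun _ hy => hy.1
    rw [h.aa_off hK, h.bb_off hK, divP_zero _ (hoff x hK), indicator_of_notMem hK,
      indicator_of_notMem hK, h1.fderiv_eq, h1.eq_of_nhds]
    simp

end Dat

end Pool.Agent.AlEmb.OddAux
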