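import Pool.Agent.Lib.MP_3fa020_gt.EOdd2

/-!
Construction of the cutoff data for the odd step.
-/

namespace Pool.Agent.AlEmb.OddAux

open Set Filter Topology MeasureTheory
open scoped InnerProductSpace ContDiff

variable {n k : ℕ}

lemma inner_Top_smul {A d : ℕ} {X : Emb A n} {P : Eu A → Eu A →L[ℝ] Eu A} {x : Eu A}
    (hL : Lev X d P x) {h κ : Eu A → ℝ} (hh : ContDiffAt ℝ ∞ h x) (hκ : ContDiffAt ℝ ∞ κ x)
    (v v' : Eu A) : ⟪Top P (fun y => κ y • P y (gradient h y)) x v, v'⟫_ℝ =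
      κ x * Hess P h x (P x v) (P x v') + fderiv ℝ κ x (P x v) * fderiv ℝ h x (P x v') := by
  rw [Top_apply, hL.isProj.symm, ((cda_diff hκ).hasFDerivAt.fun_smul
    (cda_diff (hL.tanF_grad hh).smooth).hasFDerivAt).fderiv, ← hL.fderiv_grad hh, ← inner_grad h,
    ← hL.isProj.symm (gradient h x)]
  simp [inner_add_left, inner_smul_left, hL.isProj.symm, hL.isProj.idem]

lemma cone_xi {S : Ctx n k} {f : ℕ → Eu S.A → ℝ} {j : ℕ} {x : Eu S.A} (hz : S.X.NZ f j x)
    {h κ₁ κ : Eu S.A → ℝ} (hh : ContDiffAt ℝ ∞ h x) (hκ : ContDiffAt ℝ ∞ κ₁ x) {l : ℝ}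
    (hd : ∀ v, fderiv ℝ κ₁ x (S.X.Pl f j x v) = l * fderiv ℝ h x (S.X.Pl f j x v))
    (hg : ‖S.X.gr h x‖ ≤ 1) {e : ℝ}
    (hH : ∀ v, S.X.Pl f j x v = v → κ₁ x * Hess (S.X.Pl f j) h x v v ≤ e * ‖v‖ ^ 2)
    (hk : κ x = |l| + e) (ρ : S.D.R) :
    S.D.Cone ρ 0 (xi S f j κ (fun y => κ₁ y • S.X.Pl f j y (gradient h y)) x) := by
  have hL := hz.lev'
  have hP := hL.isProj
  rw [xi, Ctx.th, ← map_smul, ← map_sub]
  refine S.D.Th_cone ρ (fun v v' => ?_) fun v => ?_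
  · simp only [sub_apply, smul_apply, inner_sub_left, inner_sub_right, inner_smul_left,
      inner_smul_right, conj_trivial]
    rw [real_inner_comm (Top _ _ x v'), inner_Top_smul hL hh hκ, inner_Top_smul hL hh hκ, hd, hd,
      hL.Hess_symm hh, hP.symm]
    ring
  · simp only [sub_apply, smul_apply, inner_sub_left, inner_smul_left, conj_trivial]
    rw [inner_Top_smul hL hh hκ, hd, hP.inner_self, hk]
    have h1 := hH _ (hP.idem v)
    have h2 : |fderiv ℝ h x (S.X.Pl f j x v)| ≤ ‖S.X.Pl f j x v‖ := by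
      rw [← Emb.inner_gr hz.mem h (hL.sub v)]
      exact (abs_real_inner_le_norm _ _).trans (mul_le_of_le_one_left (norm_nonneg _) hg)
    have h3 : fderiv ℝ h x (S.X.Pl f j x v) ^ 2 ≤ ‖S.X.Pl f j x v‖ ^ 2 := by
      rw [← sq_abs]; exact pow_le_pow_left₀ (abs_nonneg _) h2 2
    have h4 := mul_le_mul (le_abs_self l) h3 (sq_nonneg _) (abs_nonneg l)
    nlinarith

theorem exists_dat (i : ℕ) {c : ℝ} (hc : 0 < c) (hc1 : c ≤ 1) :
    ∃ C ≥ 1, ∃ G ≥ 0, ∀ {n k : ℕ} (S : Ctx n k) (f : ℕ → Eu S.A → ℝ) (y₀ : Eu S.A) (R : ℝ),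
      S.Frame f (i + 1) c y₀ R → ∀ t ∈ S.G.ball y₀ (R / 2), ∃ K ζ κ w,
        Dat S f i c R C G K ζ κ w ∧ (∀ x ∈ S.X.M, x ∈ K → x ∈ S.G.ball t (2 * (c / 10 ^ 6 * R))) ∧
        ∀ x ∈ S.G.ball t (c / 10 ^ 5 * (c / 10 ^ 6) / 2 * R), ζ x = 1 := by
  obtain ⟨C, hC, HC⟩ := exists_est (i + 1) hc hc1
  obtain ⟨G₀, hG₀, HG₀⟩ := exists_st_bound
  obtain ⟨G₁, hG₁, HG₁⟩ := exists_cut (i + 1)
  set σ := c / 10 ^ 6 with hσ
  set ε := c / 10 ^ 5 with hε
  have hσ0 : 0 < σ := by positivity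
  have hε0 : 0 < ε := by positivity
  have hσ1 : σ ≤ 1 / 10 ^ 6 := by rw [hσ]; gcongr
  have hε1 : ε ≤ 1 := by rw [hε, div_le_one (by positivity)]; linarith
  set C₁ : ℝ := 1 + (i + 1 : ℕ) * (1 + 1 / c) ^ (i + 1) with hC₁
  have hC₁0 : 0 ≤ C₁ := by positivity
  refine ⟨C, hC, (40000 + 200 * C₁) * G₀ / σ ^ 2 + (G₁ / (ε * σ) + 200 * G₀ / σ), by positivity,
    fun {n k} S f y₀ R hF t ht => ?_⟩
  have hR := hF.pos
  set s := σ * R with hs
  have hs0 : 0 < s := by positivity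
  have hsR : s ≤ R / 10 ^ 6 := by rw [hs]; nlinarith
  obtain ⟨h, hh⟩ := hF.exists_adpO hc hc1 hs0 le_rfl ht.1 (by linarith [ht.2])
  obtain ⟨ψ, hψ, hψ1, hψd⟩ := HG₁ S f hF.smooth t (ε * s) (by positivity)
  set m := 200 / s with hm
  have hm0 : 0 < m := by positivity
  set g : Eu S.A → ℝ := fun x => m * h x - 1 with hg
  have gs : ContDiff ℝ ∞ g := (contDiff_const.mul hh.smooth).sub contDiff_const
  have gd : ∀ x, HasFDerivAt g (m • fderiv ℝ h x) x := fun x =>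
    ((cda_diff hh.smooth.contDiffAt).hasFDerivAt.const_mul m).sub_const 1
  have g0 : ∀ x, 0 ≤ g x ↔ s / 200 ≤ h x := fun x => by
    simp only [hg, hm, sub_nonneg]
    rw [div_mul_eq_mul_div, one_le_div hs0, div_le_iff₀' (by norm_num)]
  have g1 : ∀ x, g x ≤ 1 ↔ h x ≤ s / 100 := fun x => by
    simp only [hg, hm, sub_le_iff_le_add]
    rw [div_mul_eq_mul_div, div_le_iff₀ hs0, le_div_iff₀ (by norm_num)]
    constructor <;> intro _ <;> linarith
  set sT := Real.smoothTransition with hsT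
  have d2c : Continuous (deriv (deriv sT)) := (contDiff_infty_iff_deriv.1 deriv_st_smooth).2.continuous
  set κ₁ : Eu S.A → ℝ := fun x => ψ x * (m * deriv sT (g x)) with hκ₁
  have κs : ContDiff ℝ ∞ κ₁ := hψ.smooth.mul (contDiff_const.mul (deriv_st_smooth.comp gs))
  have hK : ∀ x ∈ S.X.M, x ∈ tsupport ψ ∩ {x | 0 ≤ g x} → x ∈ S.G.ball t (2 * s) :=
    fun x hx hK => ⟨hx, by linarith [hh.outer x hx (hψ.slab x hK.1) ((g0 x).1 hK.2)]⟩
  have hB : ∀ x ∈ S.X.M, x ∈ tsupport ψ ∩ {x | 0 ≤ g x} → x ∈ S.G.ball y₀ R :=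
    fun x hx h1 => S.G.ball_subset_ball hF.mem ht.1 (by linarith [ht.2]) (hK x hx h1)
  have zd : ∀ x v, fderiv ℝ (fun y => ψ y * sT (g y)) x v =
      κ₁ x * fderiv ℝ h x v + sT (g x) * fderiv ℝ ψ x v := fun x v => by
    rw [show fderiv ℝ (fun y => ψ y * sT (g y)) x = _ from
      ((cda_diff hψ.smooth.contDiffAt).hasFDerivAt.fun_mul
      ((cda_diff st_smooth.contDiffAt).hasDerivAt.comp_hasFDerivAt x (gd x))).fderiv]
    simp only [hκ₁, add_apply, smul_apply, smul_eq_mul, Function.comp]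
    ring
  have κd : ∀ x v, fderiv ℝ κ₁ x v = ψ x * (m ^ 2 * deriv (deriv sT) (g x)) * fderiv ℝ h x v +
      m * deriv sT (g x) * fderiv ℝ ψ x v := fun x v => by
    rw [show fderiv ℝ κ₁ x = _ from ((cda_diff hψ.smooth.contDiffAt).hasFDerivAt.fun_mul
      (((cda_diff deriv_st_smooth.contDiffAt).hasDerivAt.comp_hasFDerivAt x
        (gd x)).const_mul m)).fderiv]
    simp only [add_apply, smul_apply, smul_eq_mul, Function.comp]
    ring
  have κ0 : ∀ x, 0 ≤ κ₁ x := fun x =>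
    mul_nonneg (hψ.nonneg x) (mul_nonneg hm0.le (deriv_st_nonneg _))
  have κ1 : ∀ x, κ₁ x ≤ m * G₀ := fun x =>
    (mul_le_of_le_one_left (mul_nonneg hm0.le (deriv_st_nonneg _)) (hψ.le_one x)).trans
      (mul_le_mul_of_nonneg_left ((le_abs_self _).trans (HG₀ _).1) hm0.le)
  refine ⟨tsupport ψ ∩ {x | 0 ≤ g x}, fun x => ψ x * sT (g x),
    fun x => |ψ x * (m ^ 2 * deriv (deriv sT) (g x))| + C₁ / s * κ₁ x,
    fun y => κ₁ y • S.X.Pl f (i + 1) y (gradient h y), ⟨?_, ?_, ?_, ?_, ?_, ?_, ?_, ?_, ?_, ?_, ?_,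
      ?_, ?_, ?_⟩, hK, ?_⟩
  · exact (isClosed_tsupport ψ).inter (isClosed_le continuous_const gs.continuous)
  · exact hψ.smooth.mul (st_smooth.comp gs)
  · exact fun x => mul_nonneg (hψ.nonneg x) (Real.smoothTransition.nonneg _)
  · exact fun x => mul_le_one₀ (hψ.le_one x) (Real.smoothTransition.nonneg _)
      (Real.smoothTransition.le_one _)
  · exact (hψ.smooth.continuous.mul (continuous_const.mul (d2c.comp gs.continuous))).abs.add
      (continuous_const.mul κs.continuous)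
  · exact fun x => add_nonneg (abs_nonneg _) (mul_nonneg (by positivity) (κ0 x))
  · intro x
    have h1 : |ψ x * (m ^ 2 * deriv (deriv sT) (g x))| ≤ m ^ 2 * G₀ := by
      rw [abs_mul, abs_mul, abs_of_nonneg (hψ.nonneg x), abs_of_nonneg (sq_nonneg m)]
      exact (mul_le_of_le_one_left (by positivity) (hψ.le_one x)).trans
        (mul_le_mul_of_nonneg_left (HG₀ _).2 (sq_nonneg m))
    have h2 : C₁ / s * κ₁ x ≤ C₁ / s * (m * G₀) := mul_le_mul_of_nonneg_left (κ1 x) (by positivity)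
    have e : m ^ 2 * G₀ + C₁ / s * (m * G₀) = (40000 + 200 * C₁) * G₀ / σ ^ 2 / R ^ 2 := by
      rw [hm, hs]; field_simp; ring
    have h3 : 0 ≤ (G₁ / (ε * σ) + 200 * G₀ / σ) / R ^ 2 := by positivity
    rw [add_div _ _ (R ^ 2)]
    linarith
  · intro x hx
    rcases not_and_or.1 hx with h1 | h1
    · filter_upwards [notMem_tsupport_iff_eventuallyEq.1 h1] with y hy
      simp [hκ₁, hy]
    · filter_upwards [gs.continuous.continuousAt.eventually (gt_mem_nhds (not_le.1 h1))] with y hy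
      simp [hκ₁, hsT, deriv_st_zero (Or.inl hy), deriv2_st_zero (Or.inl hy),
        Real.smoothTransition.zero_of_nonpos hy.le]
  · exact fun x hx h1 => HC S f R x hR hF.le_one hx hF.smooth (hF.pt x (hB x hx h1))
  · intro x hx h1
    have hp := hF.pt x (hB x hx h1)
    have hz := hF.nz hc (hB x hx h1)
    have he := HC S f R x hR hF.le_one hx hF.smooth hp
    have h2 := (hp.mono (Nat.le_succ i)).Jl_bd hc (hz.mono (Nat.le_succ i))
    have h3 := hp.sl_le (Nat.lt_succ_self i) (hz.mono (Nat.le_succ i))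
    refine ⟨h2.2, he.J_ge.trans (mul_le_mul_of_nonneg_left ?_ (by linarith))⟩
    exact mul_le_of_le_one_right (le_trans (by positivity) h2.1) h3
  · exact fun x hx h1 =>
      ((hF.nz hc (hB x hx h1)).lev'.tanF_grad hh.smooth.contDiffAt).smul κs.contDiffAt
  · intro x hx h1 v
    have hz := hF.nz hc (hB x hx h1)
    rw [zd, hψ.const x hz, inner_smul_left, hz.lev'.isProj.symm, inner_grad]
    simp
  · intro x hx h1
    have hp := hF.pt x (hB x hx h1)
    have hz := hF.nz hc (hB x hx h1)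
    have h2 := hψd x (S.X.ul f i x) fun a ha =>
      (hz.abs_fderiv_ul (Nat.lt_succ_self i) (f a)).trans (hp.grad a ha)
    have h3 := (hz.abs_fderiv_ul (Nat.lt_succ_self i) h).trans (hh.grad x hx)
    rw [zd]
    refine (abs_add_le _ _).trans ?_
    rw [abs_mul (κ₁ x), abs_mul (sT _), abs_of_nonneg (κ0 x), abs_of_nonneg (Real.smoothTransition.nonneg _)]
    have h4 := (mul_le_of_le_one_right (κ0 x) h3).trans (κ1 x)
    have h5 := (mul_le_of_le_one_left (abs_nonneg _) (Real.smoothTransition.le_one (g x))).trans h2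
    have e : m * G₀ + G₁ / (ε * s) = (G₁ / (ε * σ) + 200 * G₀ / σ) / R := by
      rw [hm, hs]; field_simp; ring
    have h6 : 0 ≤ (40000 + 200 * C₁) * G₀ / σ ^ 2 / R := by positivity
    rw [add_div _ _ R]
    linarith
  · intro x hx h1
    have hp := hF.pt x (hB x hx h1)
    have hz := hF.nz hc (hB x hx h1)
    refine cone_xi hz hh.smooth.contDiffAt κs.contDiffAt
      (l := ψ x * (m ^ 2 * deriv (deriv sT) (g x))) (fun v => by rw [κd, hψ.const x hz]; simp)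
      (hh.grad x hx) (e := C₁ / s * κ₁ x) (fun v hv => ?_) rfl _
    by_cases h2 : g x ≤ 1
    · have h3 := hp.Hess_le hc hR hz (hh.grad x hx)
        (hh.obt x hx (hψ.slab x h1.1) ((g0 x).1 h1.2) ((g1 x).1 h2)) hv
      have h4 := hh.hess x hx v (by rw [← hv]; exact hz.lev'.sub v)
      have h5 : ‖v‖ ^ 2 / R ≤ ‖v‖ ^ 2 / s := by gcongr; linarith
      have h6 := mul_le_mul_of_nonneg_left h5
        (show (0 : ℝ) ≤ (i + 1 : ℕ) * (1 + 1 / c) ^ (i + 1) by positivity)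
      have h7 : Hess (S.X.Pl f (i + 1)) h x v v ≤ C₁ / s * ‖v‖ ^ 2 := by
        have : C₁ / s * ‖v‖ ^ 2 = ‖v‖ ^ 2 / s + (i + 1 : ℕ) * (1 + 1 / c) ^ (i + 1) * (‖v‖ ^ 2 / s) := by
          rw [hC₁]; ring
        linarith
      have := mul_le_mul_of_nonneg_left h7 (κ0 x)
      linarith
    · simp [hκ₁, hsT, deriv_st_zero (Or.inr (not_le.1 h2))]
  · intro x hx
    have h1 : S.G.d t x < ε * s / 2 := hx.2.trans_eq (by rw [hs]; ring)
    have h2 : ε * s ≤ s := mul_le_of_le_one_left hs0.le hε1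
    have h3 := hψ1 x fun a ha =>
      (hF.lip ht.1 hx.1 (by linarith [ht.2]) ha).trans h1.le
    have h4 : 1 ≤ g x := by
      have := hh.inner x hx.1 (by linarith)
      simp only [hg, hm]
      rw [le_sub_iff_add_le, div_mul_eq_mul_div, le_div_iff₀ hs0]
      linarith
    simp only [h3, hsT, Real.smoothTransition.one_of_one_le h4, mul_one]

end Pool.Agent.AlEmb.OddAux
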