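import Mathlib

/-!
Closed submanifolds of Euclidean space: tangent projection, second fundamental form, Riemann
tensor (Gauss equation), curvature bounds, intrinsic diameter and the Weyl integrands of the
intrinsic volumes.
-/

namespace Pool.Agent.AlEmb

open Set
open scoped InnerProductSpace

/-- Euclidean space of dimension `A`. -/
abbrev Eu (A : ℕ) := EuclideanSpace ℝ (Fin A)

variable {A : ℕ}

/-- the standard basis vector -/
noncomputable def ee (a : Fin A) : Eu A := EuclideanSpace.single a 1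

/-- `M` is a smooth embedded `n`-dimensional submanifold (without boundary): near each of its
points it is the zero set of a smooth submersion onto `ℝ^(A-n)`. -/
def IsSubmfd (n : ℕ) (M : Set (Eu A)) : Prop :=
  n ≤ A ∧ ∀ x ∈ M, ∃ (U : Set (Eu A)) (Φ : Eu A → Eu (A - n)), IsOpen U ∧ x ∈ U ∧
    ContDiffOn ℝ (⊤ : ℕ∞) Φ U ∧ (∀ y ∈ U, Function.Surjective (fderiv ℝ Φ y)) ∧
    M ∩ U = U ∩ Φ ⁻¹' {0}

/-- orthogonal projection onto the tangent space of `M` at `x` -/
noncomputable def proj (M : Set (Eu A)) (x : Eu A) : Eu A →L[ℝ] Eu A :=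
  (Submodule.span ℝ (tangentConeAt ℝ M x)).starProjection

/-- second fundamental form: derivative along `M` of the tangent projection, evaluated on the
tangential parts of `v` and `w` -/
noncomputable def sff (M : Set (Eu A)) (x v w : Eu A) : Eu A :=
  fderivWithin ℝ (proj M) M x (proj M x v) (proj M x w)

/-- Riemann curvature tensor of the induced metric (Gauss equation);
`riem v w v w = K(v,w) * |v ∧ w|^2` -/
noncomputable def riem (M : Set (Eu A)) (x a b c d : Eu A) : ℝ :=
  ⟪sff M x a c, sff M x b d⟫_ℝ - ⟪sff M x a d, sff M x b c⟫_ℝ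

/-- the curvature tensor of constant curvature one, `gram v w v w = |v ∧ w|^2` -/
noncomputable def gram (M : Set (Eu A)) (x a b c d : Eu A) : ℝ :=
  ⟪proj M x a, proj M x c⟫_ℝ * ⟪proj M x b, proj M x d⟫_ℝ -
    ⟪proj M x a, proj M x d⟫_ℝ * ⟪proj M x b, proj M x c⟫_ℝ

/-- sectional curvature at least `κ` -/
def SecGE (κ : ℝ) (M : Set (Eu A)) : Prop :=
  ∀ x ∈ M, ∀ v w, κ * gram M x v w v w ≤ riem M x v w v w

/-- curvature operator (on bivectors) at least `κ` -/
def CurvOpGE (κ : ℝ) (M : Set (Eu A)) : Prop :=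
  ∀ x ∈ M, ∀ ω : Fin A → Fin A → ℝ,
    κ * ∑ a, ∑ b, ∑ c, ∑ d, gram M x (ee a) (ee b) (ee c) (ee d) * ω a b * ω c d ≤
      ∑ a, ∑ b, ∑ c, ∑ d, riem M x (ee a) (ee b) (ee c) (ee d) * ω a b * ω c d

/-- intrinsic diameter at most `D` (in particular `M` is connected): any two points are joined
inside `M` by curves of length as close to `D` as we like -/
def DiamLE (D : ℝ) (M : Set (Eu A)) : Prop :=
  ∀ x ∈ M, ∀ y ∈ M, ∀ ε > 0, ∃ γ : ℝ → Eu A, ContinuousOn γ (Icc 0 1) ∧ γ 0 = x ∧ γ 1 = y ∧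
    MapsTo γ (Icc 0 1) M ∧ eVariationOn γ (Icc 0 1) ≤ ENNReal.ofReal (D + ε)

/-- contraction of the `k`-th power of a 4-tensor with the generalized Kronecker delta -/
noncomputable def weyl (k : ℕ) (T : Eu A → Eu A → Eu A → Eu A → ℝ) : ℝ :=
  ∑ a : Fin k × Fin 2 → Fin A, ∑ σ : Equiv.Perm (Fin k × Fin 2), ((Equiv.Perm.sign σ : ℤ) : ℝ) *
    ∏ i : Fin k, T (ee (a (i, 0))) (ee (a (i, 1))) (ee (a (σ (i, 0)))) (ee (a (σ (i, 1))))

/-- Weyl's integrand of the intrinsic volume `V_{n-2k}`, up to a positive constant `c(n,k)` -/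
noncomputable def lk (k : ℕ) (M : Set (Eu A)) (x : Eu A) : ℝ := weyl k (riem M x)

end Pool.Agent.AlEmb
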