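import Mathlib

/-!
Closed submanifolds of Euclidean space: tangent projection, second fundamental form, Riemann
tensor (Gauss equation), curvature bounds, intrinsic diameter and the Weyl integrands of the
intrinsic volumes.
-/

namespace Pool.Agent.AlStmt

open Set
open scoped InnerProductSpace

section General

variable {E F : Type} [NormedAddCommGroup E] [NormedAddCommGroup F]

/-- `Φ` is a smooth submersion on `U` -/
def IsSubmersionOn [NormedSpace ℝ E] [NormedSpace ℝ F] (Φ : E → F) (U : Set E) : Prop :=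
  ContDiffOn ℝ (⊤ : ℕ∞) Φ U ∧ ∀ y ∈ U, Function.Surjective (fderiv ℝ Φ y)

/-- derivative of `f` along `M` at `x` in the direction `v` -/
noncomputable def dAlong [NormedSpace ℝ E] [NormedSpace ℝ F] (f : E → F) (M : Set E) (x v : E) :
    F := fderivWithin ℝ f M x v

variable [InnerProductSpace ℝ E] [FiniteDimensional ℝ E]

/-- orthogonal projection onto the tangent space of `M` at `x` -/
noncomputable def proj (M : Set E) (x : E) : E →L[ℝ] E :=
  (Submodule.span ℝ (tangentConeAt ℝ M x)).starProjection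

/-- tangential part of the vector `v` -/
noncomputable def tang (M : Set E) (x v : E) : E := proj M x v

/-- second fundamental form: derivative along `M` of the tangent projection, evaluated on the
tangential parts of `v` and `w` -/
noncomputable def sff (M : Set E) (x v w : E) : E :=
  dAlong (proj M) M x (tang M x v) (tang M x w)

/-- Riemann curvature tensor of the induced metric (Gauss equation);
`riem v w v w = K(v,w) * |v ∧ w|^2` -/
noncomputable def riem (M : Set E) (x a b c d : E) : ℝ :=
  ⟪sff M x a c, sff M x b d⟫_ℝ - ⟪sff M x a d, sff M x b c⟫_ℝ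

/-- the curvature tensor of constant curvature one, `gram v w v w = |v ∧ w|^2` -/
noncomputable def gram (M : Set E) (x a b c d : E) : ℝ :=
  ⟪tang M x a, tang M x c⟫_ℝ * ⟪tang M x b, tang M x d⟫_ℝ -
    ⟪tang M x a, tang M x d⟫_ℝ * ⟪tang M x b, tang M x c⟫_ℝ

/-- sectional curvature at least `κ` -/
def SecGE (κ : ℝ) (M : Set E) : Prop :=
  ∀ x ∈ M, ∀ v w, κ * gram M x v w v w ≤ riem M x v w v w

end General

/-- intrinsic diameter at most `D` (in particular `M` is connected): any two points are joined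
inside `M` by curves of length as close to `D` as we like -/
def DiamLE {E : Type} [PseudoEMetricSpace E] (D : ℝ) (M : Set E) : Prop :=
  ∀ x ∈ M, ∀ y ∈ M, ∀ ε > 0, ∃ γ : ℝ → E, ContinuousOn γ (Icc 0 1) ∧ γ 0 = x ∧ γ 1 = y ∧
    MapsTo γ (Icc 0 1) M ∧ eVariationOn γ (Icc 0 1) ≤ ENNReal.ofReal (D + ε)

/-- Euclidean space of dimension `A`. -/
abbrev Eu (A : ℕ) := EuclideanSpace ℝ (Fin A)

variable {A : ℕ}

/-- the standard basis vector -/
noncomputable def ee (a : Fin A) : Eu A := EuclideanSpace.single a 1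

/-- `M` is a smooth embedded `n`-dimensional submanifold (without boundary): near each of its
points it is the zero set of a smooth submersion onto `ℝ^(A-n)`. -/
def IsSubmfd (n : ℕ) (M : Set (Eu A)) : Prop :=
  n ≤ A ∧ ∀ x ∈ M, ∃ (U : Set (Eu A)) (Φ : Eu A → Eu (A - n)), IsOpen U ∧ x ∈ U ∧
    IsSubmersionOn Φ U ∧ M ∩ U = U ∩ Φ ⁻¹' {0}

/-- the quadratic form on 2-tensors defined by a 4-tensor -/
noncomputable def quad (T : Eu A → Eu A → Eu A → Eu A → ℝ) (ω : Fin A → Fin A → ℝ) : ℝ :=
  ∑ a, ∑ b, ∑ c, ∑ d, T (ee a) (ee b) (ee c) (ee d) * ω a b * ω c d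

/-- curvature operator (on bivectors) at least `κ` -/
def CurvOpGE (κ : ℝ) (M : Set (Eu A)) : Prop :=
  ∀ x ∈ M, ∀ ω : Fin A → Fin A → ℝ, κ * quad (gram M x) ω ≤ quad (riem M x) ω

/-- contraction of the `k`-th power of a 4-tensor with the generalized Kronecker delta -/
noncomputable def weyl (k : ℕ) (T : Eu A → Eu A → Eu A → Eu A → ℝ) : ℝ :=
  ∑ a : Fin k × Fin 2 → Fin A, ∑ σ : Equiv.Perm (Fin k × Fin 2), ((Equiv.Perm.sign σ : ℤ) : ℝ) *
    ∏ i : Fin k, T (ee (a (i, 0))) (ee (a (i, 1))) (ee (a (σ (i, 0)))) (ee (a (σ (i, 1))))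

/-- Weyl's integrand of the intrinsic volume `V_{n-2k}`, up to a positive constant `c(n,k)` -/
noncomputable def lk (k : ℕ) (M : Set (Eu A)) (x : Eu A) : ℝ := weyl k (riem M x)

end Pool.Agent.AlStmt
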