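import Pool.Agent.Lib.MP_3fa020_gt.EEst

/-!
Tools for the inductive steps: localisation, covering, small scales.
-/

namespace Pool.Agent.AlEmb

open Set Filter Topology MeasureTheory
open scoped InnerProductSpace ContDiff

variable {n k : ℕ}

lemma DFA.BP_top {A d : ℕ} (D : DFA A) {P : Eu A →L[ℝ] Eu A} (h : IsProj d P) :
    D.BP d P (D.Th P ^ d) = d.factorial := by
  obtain ⟨b, h0, h1, h2⟩ := h.frame
  rw [(D.Th_pow_frame h2).1, map_smul, D.BP_prod h, if_pos (by simp)]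
  have : (Matrix.of fun i j => ⟪P (b i), P (b j)⟫_ℝ) = 1 := by
    ext i j
    simp [h1, orthonormal_iff_ite.1 h0, Matrix.one_apply]
  simp [this]

namespace Ctx

variable {S : Ctx n k} {f : ℕ → Eu S.A → ℝ} {j : ℕ} {c R C : ℝ} {x y₀ : Eu S.A}

lemma cda_th (h : S.X.NZ f j x) : ContDiffAt ℝ ∞ (S.th f j) x := S.D.cda_Th h.lev'.smooth

lemma cda_Z (h : S.X.NZ f j x) (c R : ℝ) : ContDiffAt ℝ ∞ (S.Z f j c R) x :=
  ((cda_th h).const_smul _).sub (S.D.cda_Th h.cda_Sh)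

lemma cda_Om (h : S.X.NZ f j x) : ContDiffAt ℝ ∞ (S.D.Om (S.X.Pl f j)) x :=
  (S.D.hasD_Om h.lev' 0).smooth

lemma cda_Ps (h : S.X.NZ f j x) (c R : ℝ) : ContDiffAt ℝ ∞ (S.Ps f j c R) x :=
  (((S.D.hasD_Om (Lev.base h.mem) 0).smooth).add
    ((S.D.cda_Th S.X.P_smooth.contDiffAt).pow 2)).add ((cda_Z h c R).pow 2)

lemma cda_Bl (h : S.X.NZ f j x) {F : Eu S.A → S.D.R} (hF : ContDiffAt ℝ ∞ F x) :
    ContDiffAt ℝ ∞ (fun y => S.Bl f j y (F y)) x := S.D.cda_BP h.lev'.smooth _ hF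

lemma cda_Ev (h : S.X.NZ f j x) (c R : ℝ) (p : ℕ) : ContDiffAt ℝ ∞ (S.Ev f j c R p) x :=
  cda_Bl h (((cda_Ps h c R).pow _).mul ((cda_th h).pow _))

lemma cda_Od (h : S.X.NZ f j x) (c R : ℝ) (p : ℕ) : ContDiffAt ℝ ∞ (S.Od f j c R p) x :=
  cda_Bl h (((cda_Z h c R).mul ((cda_Ps h c R).pow _)).mul ((cda_th h).pow _))

namespace Est

variable (h : S.Est f j c R x C)
include h

lemma Ev_nonneg {p : ℕ} (hp : p ≤ k) : 0 ≤ S.Ev f j c R p x :=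
  h.pos _ (((h.Psc.pow1 p).mul0' (h.thc.pow0 _)).mono hp)

lemma Od_nonneg {p : ℕ} (hp : p ≤ k) : 0 ≤ S.Od f j c R p x :=
  h.pos _ (((h.Zc.mul0 (h.Psc.pow1 p)).mul0' (h.thc.pow0 _)).mono hp)

lemma Ev_le {p : ℕ} (hp : p + 1 ≤ k) (hd : j + 2 * (p + 1) ≤ n) :
    S.Ev f j c R (p + 1) x ≤ S.LK f j (p + 1) x + (p + 1) * C ^ (p + 1) / R * S.Od f j c R p x := by
  have := h.M1 p hp _ (h.thc.pow0 (n - j - 2 * (p + 1)))
  rw [Ev, LK, Od, show n - j - 2 * p - 1 = n - j - 2 * (p + 1) + 1 by omega]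
  rw [mul_comm (S.Ps f j c R x ^ (p + 1)), mul_comm (S.D.Om (S.X.Pl f j) x ^ (p + 1)),
    show S.Z f j c R x * S.Ps f j c R x ^ p * S.th f j x ^ (n - j - 2 * (p + 1) + 1) =
      S.th f j x ^ (n - j - 2 * (p + 1)) * S.th f j x * S.Z f j c R x * S.Ps f j c R x ^ p by ring]
  exact this

lemma abs_LK_le {p : ℕ} (hp : p ≤ k) : |S.LK f j p x| ≤ C ^ p * S.Ev f j c R p x := by
  have := h.M2 p hp _ _ (DFA.Dom.refl (h.thc.pow0 (n - j - 2 * p)))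
  rwa [LK, Ev, mul_comm _ (S.th f j x ^ _), mul_comm _ (S.th f j x ^ _)]

lemma Z_scale (hc : 0 < c) {R' : ℝ} (h0 : 0 < R') (hR : R' ≤ R) :
    S.D.Dom (S.D.Rh S.X x) 0 (S.Z f j c R x) (S.Z f j c R' x) := by
  refine DFA.Dom.of_le h.Zc ((DFA.Cone.smul (bl j c / R' - bl j c / R) ?_ h.thc).cast ?_)
  · have := one_le_bl j hc
    rw [sub_nonneg]; gcongr
  · simp only [Z]; module

lemma Ps_scale (hc : 0 < c) {R' : ℝ} (h0 : 0 < R') (hR : R' ≤ R) :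
    S.D.Dom (S.D.Rh S.X x) 1 (S.Ps f j c R x) (S.Ps f j c R' x) :=
  (DFA.Dom.refl DFA.Cone.rho).add (((h.Z_scale hc h0 hR).pow0 2).mono zero_le_one)

lemma Ev_scale (hc : 0 < c) {R' : ℝ} (h0 : 0 < R') (hR : R' ≤ R) {p : ℕ} (hp : p ≤ k) :
    S.Ev f j c R p x ≤ S.Ev f j c R' p x :=
  (((h.Ps_scale hc h0 hR).pow1 p).mul0' (DFA.Dom.refl (h.thc.pow0 _))).le h.pos hp

lemma Od_scale (hc : 0 < c) {R' : ℝ} (h0 : 0 < R') (hR : R' ≤ R) {p : ℕ} (hp : p ≤ k) :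
    S.Od f j c R p x ≤ S.Od f j c R' p x :=
  (((h.Z_scale hc h0 hR).mul0 ((h.Ps_scale hc h0 hR).pow1 p)).mul0'
    (DFA.Dom.refl (h.thc.pow0 _))).le h.pos hp

end Est

namespace Frame

variable (hF : S.Frame f j c y₀ R)
include hF

lemma restrict {y : Eu S.A} (hy : y ∈ S.X.M) {R' : ℝ} (h0 : 0 < R') (h : S.G.d y₀ y + R' ≤ R) :
    S.Frame f j c y R' := by
  have h1 : R' ≤ R := by linarith [S.G.nonneg y₀ y]
  exact ⟨hy, h0, h1.trans hF.le_one, hF.smooth, fun x hx =>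
    (hF.pt x (S.G.ball_subset_ball hF.mem hy h hx)).scale h0 h1⟩

lemma self_mem : y₀ ∈ S.G.ball y₀ R := ⟨hF.mem, by rw [S.G.self _ hF.mem]; exact hF.pos⟩

lemma nz (hc : 0 < c) (hx : x ∈ S.G.ball y₀ R) : S.X.NZ f j x := (hF.pt x hx).nz hx.1 hF.smooth hc

lemma est (hc : 0 < c) (hc1 : c ≤ 1) (hx : x ∈ S.G.ball y₀ R) : ∃ C, S.Est f j c R x C := by
  obtain ⟨C, -, h⟩ := exists_est j hc hc1
  exact ⟨C, h S f R x hF.pos hF.le_one hx.1 hF.smooth (hF.pt x hx)⟩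

lemma Ev_nonneg (hc : 0 < c) (hc1 : c ≤ 1) (hx : x ∈ S.G.ball y₀ R) {p : ℕ} (hp : p ≤ k) :
    0 ≤ S.Ev f j c R p x := let ⟨_, h⟩ := hF.est hc hc1 hx; h.Ev_nonneg hp

lemma Od_nonneg (hc : 0 < c) (hc1 : c ≤ 1) (hx : x ∈ S.G.ball y₀ R) {p : ℕ} (hp : p ≤ k) :
    0 ≤ S.Od f j c R p x := let ⟨_, h⟩ := hF.est hc hc1 hx; h.Od_nonneg hp

/-- on very small balls the bound is trivial -/
lemma small (hc : 0 < c) {p : ℕ} (hd : 2 * (p + 1) ≤ n) :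
    ∃ τ > 0, ∀ y ∈ S.X.M, ∀ s, 0 < s → s ≤ τ → S.G.d y₀ y + s ≤ 0.9 * R →
      S.X.Bd (S.Ev f j c R (p + 1)) (S.G.ball y s) (s ^ (n - 2 * (p + 1))) := by
  obtain ⟨B, hB⟩ := (S.G.isCompact_closedBall hF.mem (0.9 * R)).exists_bound_of_continuousOn
    (f := S.Ev f j c R (p + 1)) fun x hx => (cda_Ev (hF.nz hc ⟨hx.1, by
      linarith [hx.2, hF.pos]⟩) c R _).continuousAt.continuousWithinAt
  have hB' : 0 < (|B| + 1) * 4 ^ n := by positivity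
  refine ⟨min 1 (1 / ((|B| + 1) * 4 ^ n)), by positivity, fun y hy s h0 h1 h2 => ?_⟩
  have h3 : s ≤ 1 := h1.trans (min_le_left _ _)
  have h4 : s * ((|B| + 1) * 4 ^ n) ≤ 1 := (le_div_iff₀ hB').1 (h1.trans (min_le_right _ _))
  refine ((S.bd_one hy h0.le h3).smul (c := |B| + 1) (by positivity)).mono
    (fun x hx hx' => ⟨hx', ?_⟩) ?_
  · have := hB x ⟨hx, by linarith [S.G.tri _ hF.mem _ hy _ hx, hx'.2]⟩
    have h5 := le_abs_self B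
    have h6 := le_abs_self (S.Ev f j c R (p + 1) x)
    rw [Real.norm_eq_abs] at this
    linarith
  · have e : s ^ n = s * (s ^ (2 * p + 1) * s ^ (n - 2 * (p + 1))) := by
      rw [← pow_add, ← pow_succ']; congr 1; omega
    have h5 : s ^ (2 * p + 1) ≤ 1 := pow_le_one₀ h0.le h3
    have h6 : 0 ≤ s ^ (n - 2 * (p + 1)) := by positivity
    rw [e]
    calc _ = (s * ((|B| + 1) * 4 ^ n)) * (s ^ (2 * p + 1) * s ^ (n - 2 * (p + 1))) := by ring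
      _ ≤ 1 * (1 * s ^ (n - 2 * (p + 1))) := by gcongr
      _ = _ := by ring

end Frame

lemma wf_Ev_nonneg (hc : 0 < c) (hc1 : c ≤ 1) {σ : ℝ} {q : Eu S.A} {h : Eu S.A → ℝ}
    (hx : x ∈ S.Wf f j c σ q h) {p : ℕ} (hp : p ≤ k) :
    0 ≤ S.Ev (Function.update f j h) (j + 1) (c / 10 ^ 6) (c / 10 ^ 6 * σ) p x :=
  hx.2.Ev_nonneg (by positivity) (by linarith [div_le_self hc.le (by norm_num : (1 : ℝ) ≤ 10 ^ 6)])
    hx.2.self_mem hp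

lemma wf_Od_nonneg (hc : 0 < c) (hc1 : c ≤ 1) {σ : ℝ} {q : Eu S.A} {h : Eu S.A → ℝ}
    (hx : x ∈ S.Wf f j c σ q h) {p : ℕ} (hp : p ≤ k) :
    0 ≤ S.Od (Function.update f j h) (j + 1) (c / 10 ^ 6) (c / 10 ^ 6 * σ) p x :=
  hx.2.Od_nonneg (by positivity) (by linarith [div_le_self hc.le (by norm_num : (1 : ℝ) ≤ 10 ^ 6)])
    hx.2.self_mem hp

end Ctx

variable {j p : ℕ} {c K : ℝ}

lemma ClE.loc (h : ClE n k j c p K) (hc : 0 < c) (hc1 : c ≤ 1) (hp : p ≤ k) {S : Ctx n k}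
    {f : ℕ → Eu S.A → ℝ} {y₀ y : Eu S.A} {R s : ℝ} (hF : S.Frame f j c y₀ R) (hy : y ∈ S.X.M)
    (hs : 0 < s) (hR : S.G.d y₀ y + 2 * s ≤ R) :
    S.X.Bd (S.Ev f j c R p) (S.G.ball y s) (K * (2 * s) ^ (n - 2 * p)) := by
  have := h S f y (2 * s) (hF.restrict hy (by linarith) hR)
  refine this.mono (fun x _ hx => ⟨S.G.ball_mono y (by linarith) hx, ?_⟩) le_rfl
  obtain ⟨C, he⟩ := hF.est hc hc1 (S.G.ball_subset_ball hF.mem hy (by linarith) hx)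
  exact he.Ev_scale hc (by linarith) (by linarith [S.G.nonneg y₀ y]) hp

lemma ClO.loc (h : ClO n k j c p K) (hc : 0 < c) (hc1 : c ≤ 1) (hp : p ≤ k) {S : Ctx n k}
    {f : ℕ → Eu S.A → ℝ} {y₀ y : Eu S.A} {R s : ℝ} (hF : S.Frame f j c y₀ R) (hy : y ∈ S.X.M)
    (hs : 0 < s) (hR : S.G.d y₀ y + 2 * s ≤ R) :
    S.X.Bd (S.Od f j c R p) (S.G.ball y s) (K * (2 * s) ^ (n - 2 * p - 1)) := by
  have := h S f y (2 * s) (hF.restrict hy (by linarith) hR)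
  refine this.mono (fun x _ hx => ⟨S.G.ball_mono y (by linarith) hx, ?_⟩) le_rfl
  obtain ⟨C, he⟩ := hF.est hc hc1 (S.G.ball_subset_ball hF.mem hy (by linarith) hx)
  exact he.Od_scale hc (by linarith) (by linarith [S.G.nonneg y₀ y]) hp

lemma wf_aux (hc : 0 < c) (hc1 : c ≤ 1) {S : Ctx n k} {f : ℕ → Eu S.A → ℝ} {σ : ℝ} {q : Eu S.A}
    {g : Eu S.A → ℝ} (hq : q ∈ S.X.M) (hσ : 0 < σ) (hσ1 : 5 * σ ≤ 1) {F : Eu S.A → ℝ} {e : ℕ}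
    (h : ∀ t ∈ S.Wf f j c σ q g, S.X.Bd F (S.G.ball t (c / 10 ^ 6 * σ / 2))
      (K * (c / 10 ^ 6 * σ) ^ e)) :
    S.X.Bd F (S.Wf f j c σ q g) ((1 + 4 / (c / 10 ^ 7)) ^ n * |K| * σ ^ e) := by
  rw [mul_assoc]
  refine S.bd_cover hq (r := 5 * σ) (by linarith) hσ1 (by positivity)
    (fun x hx => ⟨hx.2.mem, hx.1⟩) (by positivity) fun t ht => ?_
  refine (h t ht).mono (fun x _ hx => ⟨S.G.ball_mono t (le_of_eq (by ring)) hx.2, le_rfl⟩) ?_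
  have h1 : c / 10 ^ 6 * σ ≤ σ := by nlinarith
  have h2 : (c / 10 ^ 6 * σ) ^ e ≤ σ ^ e := pow_le_pow_left₀ (by positivity) h1 _
  exact mul_le_mul (le_abs_self K) h2 (by positivity) (abs_nonneg K)

lemma ClE.wf (h : ClE n k (j + 1) (c / 10 ^ 6) p K) (hc : 0 < c) (hc1 : c ≤ 1) {S : Ctx n k}
    (f : ℕ → Eu S.A → ℝ) {σ : ℝ} {q : Eu S.A} (g : Eu S.A → ℝ) (hq : q ∈ S.X.M) (hσ : 0 < σ)
    (hσ1 : 5 * σ ≤ 1) :
    S.X.Bd (S.Ev (Function.update f j g) (j + 1) (c / 10 ^ 6) (c / 10 ^ 6 * σ) p)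
      (S.Wf f j c σ q g) ((1 + 4 / (c / 10 ^ 7)) ^ n * |K| * σ ^ (n - 2 * p)) :=
  wf_aux hc hc1 hq hσ hσ1 fun t ht => h S _ t _ ht.2

lemma ClO.wf (h : ClO n k (j + 1) (c / 10 ^ 6) p K) (hc : 0 < c) (hc1 : c ≤ 1) {S : Ctx n k}
    (f : ℕ → Eu S.A → ℝ) {σ : ℝ} {q : Eu S.A} (g : Eu S.A → ℝ) (hq : q ∈ S.X.M) (hσ : 0 < σ)
    (hσ1 : 5 * σ ≤ 1) :
    S.X.Bd (S.Od (Function.update f j g) (j + 1) (c / 10 ^ 6) (c / 10 ^ 6 * σ) p)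
      (S.Wf f j c σ q g) ((1 + 4 / (c / 10 ^ 7)) ^ n * |K| * σ ^ (n - 2 * p - 1)) :=
  wf_aux hc hc1 hq hσ hσ1 fun t ht => h S _ t _ ht.2

/-- from small balls to the half ball -/
lemma Ctx.Frame.bd_half {S : Ctx n k} {f : ℕ → Eu S.A → ℝ} {y₀ : Eu S.A} {R : ℝ}
    (hF : S.Frame f j c y₀ R) {F : Eu S.A → ℝ} {θ K : ℝ} (hθ : 0 < θ) (hK : 0 ≤ K)
    (h : ∀ y ∈ S.G.ball y₀ (R / 2), S.X.Bd F (S.G.ball y (θ * R)) K) :
    S.X.Bd F (S.G.ball y₀ (R / 2)) ((1 + 2 / θ) ^ n * K) := by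
  have := S.bd_cover (g := F) hF.mem (r := R / 2) (θ := 2 * θ) (by linarith [hF.pos])
    (by linarith [hF.le_one]) (by positivity) subset_rfl hK fun t ht =>
      (h t ht).subset fun x hx => S.G.ball_mono t (le_of_eq (by ring)) hx.2
  convert this using 3
  field_simp
  ring

lemma clE_zero (n k j : ℕ) {c : ℝ} (hc : 0 < c) : ∃ K, ClE n k j c 0 K := by
  refine ⟨n.factorial * 4 ^ n, fun S f y R hF => ?_⟩
  have hR := hF.pos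
  refine ((S.bd_one hF.mem hF.pos.le hF.le_one).smul (c := n.factorial) (by positivity)).mono
    (fun x _ hx => ⟨S.G.ball_mono y (by linarith) hx, ?_⟩) (by simp [mul_assoc])
  have := S.D.BP_top (hF.nz hc (S.G.ball_mono y (by linarith) hx)).lev'.isProj
  simp only [Ctx.Ev, Ctx.Bl, Ctx.th, pow_zero, one_mul, mul_zero, Nat.sub_zero, this, mul_one]
  exact_mod_cast Nat.factorial_le (Nat.sub_le n j)

/-- bound on the part of a ball with at least `m` critical scales -/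
def ClG (n k j : ℕ) (c : ℝ) (p m : ℕ) (K : ℝ) : Prop :=
  0 ≤ K ∧ ∀ (S : Ctx n k) (f : ℕ → Eu S.A → ℝ) (y₀ : Eu S.A) (R : ℝ), S.Frame f j c y₀ R →
    ∀ y ∈ S.X.M, ∀ s, 0 < s → s ≤ c / 10 ^ 6 * R → S.G.d y₀ y + 4 * s ≤ 0.6 * R →
      S.X.Bd (S.Ev f j c R p) (S.G.ball y s ∩ {x | S.Gm f j c R x m (400 * s)})
        (K * s ^ (n - 2 * p))

lemma ClG.clE (h : ClG n k j c p 0 K) (hc : 0 < c) (hc1 : c ≤ 1) : ∃ K', ClE n k j c p K' := by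
  refine ⟨(1 + 2 / (c / 10 ^ 6)) ^ n * K, fun S f y R hF => ?_⟩
  have hR := hF.pos
  rw [mul_assoc]
  refine hF.bd_half (by positivity) (by have := h.1; positivity) fun t ht => ?_
  have h1 : c / 10 ^ 6 * R ≤ R / 10 ^ 6 := by nlinarith
  refine (h.2 S f y R hF t ht.1 _ (by positivity) le_rfl (by linarith [ht.2])).mono
    (fun x _ hx => ⟨⟨hx, trivial⟩, le_rfl⟩) ?_
  exact mul_le_mul_of_nonneg_left (pow_le_pow_left₀ (by positivity) (by linarith) _) h.1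

lemma Ctx.Gm.anti {S : Ctx n k} {f : ℕ → Eu S.A → ℝ} {R : ℝ} {y : Eu S.A} {m : ℕ} {r r' : ℝ}
    (h : S.Gm f j c R y m r) (hr : r' ≤ r) : S.Gm f j c R y m r' := by
  cases m with
  | zero => trivial
  | succ m => obtain ⟨x, h1, h2, h3⟩ := h; exact ⟨x, h1, hr.trans h2, h3⟩

/-- a critical point at distance in `[r, 4 s]` raises the number of critical scales -/
lemma Ctx.Gm.succ {S : Ctx n k} {f : ℕ → Eu S.A → ℝ} {R : ℝ} {y : Eu S.A} {m : ℕ} {r s : ℝ}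
    (h : S.Gm f j c R y m (400 * s)) (hg : ¬S.Good f j c R y r (4 * s)) :
    S.Gm f j c R y (m + 1) r := by
  simp only [Ctx.Good, not_forall, not_not] at hg
  obtain ⟨x, h1, h2, h3⟩ := hg
  exact ⟨x, h3, h1, h.anti (by linarith)⟩

end Pool.Agent.AlEmb
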