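import Pool.Agent.Lib.MP_3fa020_gt.ELev

/-!
Transgression identities.
-/

namespace Pool.Agent.AlEmb

open Set Filter Topology
open scoped InnerProductSpace ContDiff

variable {A n : ℕ}

lemma add_pow_sq_zero' {R : Type*} [CommRing R] {a : R} (ha : a * a = 0) (S : R) (k : ℕ) :
    (S + a) ^ k = S ^ k + (k : R) * (a * S ^ (k - 1)) := by
  cases k with
  | zero => simp
  | succ k => simpa using add_pow_sq_zero ha S k

/-- the next level -/
noncomputable def Pst (P : Eu A → Eu A →L[ℝ] Eu A) (u : Eu A → Eu A) (y : Eu A) :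
    Eu A →L[ℝ] Eu A := P y - r1 (u y)

/-- unit tangent field -/
structure UnitF (X : Emb A n) (P : Eu A → Eu A →L[ℝ] Eu A) (u : Eu A → Eu A) (x : Eu A) :
    Prop extends TanF X P u x where
  unit : ∀ᶠ y in 𝓝[X.M] x, ‖u y‖ = 1

lemma cda_r1 {u : Eu A → Eu A} {x : Eu A} (hu : ContDiffAt ℝ ∞ u x) :
    ContDiffAt ℝ ∞ (fun y => r1 (u y)) x :=
  ((innerSL ℝ).contDiff.contDiffAt.comp x hu).smulRight hu

lemma fderiv_r1 {u : Eu A → Eu A} {x : Eu A} (hu : ContDiffAt ℝ ∞ u x) (v w : Eu A) :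
    fderiv ℝ (fun y => r1 (u y)) x v w =
      ⟪fderiv ℝ u x v, w⟫_ℝ • u x + ⟪u x, w⟫_ℝ • fderiv ℝ u x v := by
  rw [← fderiv_clm_const (cda_diff (cda_r1 hu))]
  have := (((cda_diff hu).hasFDerivAt.inner ℝ (hasFDerivAt_const w x)).fun_smul
    (cda_diff hu).hasFDerivAt).fderiv
  simp only [r1_apply]
  rw [this]
  simp [add_comm]

lemma fderiv_Pst {P : Eu A → Eu A →L[ℝ] Eu A} {u : Eu A → Eu A} {x : Eu A}
    (hP : ContDiffAt ℝ ∞ P x) (hu : ContDiffAt ℝ ∞ u x) (v w : Eu A) :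
    fderiv ℝ (Pst P u) x v w = fderiv ℝ P x v w -
      (⟪fderiv ℝ u x v, w⟫_ℝ • u x + ⟪u x, w⟫_ℝ • fderiv ℝ u x v) := by
  rw [← fderiv_r1 hu, show Pst P u = fun y => P y - r1 (u y) from rfl,
    fderiv_fun_sub (cda_diff hP) (cda_diff (cda_r1 hu))]
  rfl

namespace Lev

variable {X : Emb A n} {d : ℕ} {P : Eu A → Eu A →L[ℝ] Eu A} {x : Eu A} {u : Eu A → Eu A}
  (h : Lev X (d + 1) P x) (hu : UnitF X P u x)
include h hu

lemma norm_u : ‖u x‖ = 1 := hu.unit.self_of_nhdsWithin h.mem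

lemma isProj' : IsProj d (Pst P u x) := h.isProj.step (h.norm_u hu) (h.tan_self hu.toTanF)

lemma P_Pst (v : Eu A) : P x (Pst P u x v) = Pst P u x v := by
  simp [Pst, r1_apply, h.isProj.idem, h.tan_self hu.toTanF]

lemma inner_P (v : Eu A) : ⟪u x, P x v⟫_ℝ = ⟪u x, v⟫_ℝ := by
  rw [← h.isProj.symm, h.tan_self hu.toTanF]

lemma Pst_P (v : Eu A) : Pst P u x (P x v) = Pst P u x v := by
  simp [Pst, r1_apply, h.isProj.idem, h.inner_P hu]

lemma Pst_u : Pst P u x (u x) = 0 := by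
  simp [Pst, r1_apply, h.tan_self hu.toTanF, h.norm_u hu]

lemma inner_Pst (v : Eu A) : ⟪u x, Pst P u x v⟫_ℝ = 0 := by
  rw [← (h.isProj' hu).symm, h.Pst_u hu, inner_zero_left]

lemma Top_Pst (w : Eu A → Eu A) (v : Eu A) :
    Top (Pst P u) w x v = Pst P u x (Top P w x (Pst P u x v)) := by
  rw [Top_apply, Top_apply, h.Pst_P hu, h.P_Pst hu]

lemma Top_split (v : Eu A) :
    Top P u x v = Top (Pst P u) u x v + ⟪u x, v⟫_ℝ • Top P u x (u x) := by
  have e : ∀ z, Pst P u x (Top P u x z) = Top P u x z := fun z => by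
    simp [Pst, r1_apply, h.Top_left, h.unit_deriv hu.toTanF hu.unit]
  rw [h.Top_Pst hu, e]
  simp [Pst, r1_apply, h.Top_right]

lemma step (hs : ∀ v w, ⟪Top (Pst P u) u x v, w⟫_ℝ = ⟪v, Top (Pst P u) u x w⟫_ℝ) :
    Lev X d (Pst P u) x := by
  refine ⟨h.mem, h.smooth.sub (cda_r1 hu.smooth), ?_, fun v w => ?_⟩
  · filter_upwards [h.proj, hu.tan, hu.unit] with y h1 h2 h3
    refine ⟨h1.1.step h3 h2, fun v => ?_⟩
    have := h1.2 (u y)
    rw [h2] at this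
    simp [Pst, r1_apply, h1.2, this]
  · rw [fderiv_Pst h.smooth hu.smooth, fderiv_Pst h.smooth hu.smooth, h.inner_Pst hu,
      h.inner_Pst hu, ← (h.isProj' hu).symm, ← (h.isProj' hu).symm, ← Top_apply, ← Top_apply,
      hs, real_inner_comm, ← h.P_Pst hu v, ← h.P_Pst hu w, h.tors]
    simp

lemma Sop_Pst (c : Fin A) : Sop (Pst P u) x c =
    (Pst P u x).comp ((Sop P x c).comp (Pst P u x)) - ⟪u x, ee c⟫_ℝ • Top (Pst P u) u x := by
  ext1 v
  simp only [Sop_apply, fderiv_Pst h.smooth hu.smooth, map_sub, map_add, map_smul, h.Pst_u hu,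
    sub_apply, ContinuousLinearMap.comp_apply, smul_apply, Top_apply, h.Pst_P hu, h.P_Pst hu]
  simp

end Lev

namespace DFA

variable (D : DFA A)

/-- the vector field dual to the form `u F` -/
noncomputable def VF (d : ℕ) (P : Eu A → Eu A →L[ℝ] Eu A) (u : Eu A → Eu A) (F : Eu A → D.R)
    (y : Eu A) : Eu A :=
  ∑ a, D.BP d (P y) (D.t (P y (ee a)) (u y) * F y) • ee a

variable {X : Emb A n} {d : ℕ} {P : Eu A → Eu A →L[ℝ] Eu A} {x : Eu A}

lemma cda_nu (hP : ContDiffAt ℝ ∞ P x) (d : ℕ) : ContDiffAt ℝ ∞ (fun y => D.nu d (P y)) x :=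
  ((D.cda_Th (contDiffAt_const.sub hP)).pow _).const_smul _

lemma cda_BP (hP : ContDiffAt ℝ ∞ P x) (d : ℕ) {F : Eu A → D.R} (hF : ContDiffAt ℝ ∞ F x) :
    ContDiffAt ℝ ∞ (fun y => D.BP d (P y) (F y)) x :=
  D.B.contDiff.contDiffAt.comp x (hF.mul (D.cda_nu hP d))

lemma cda_t {a b : Eu A → Eu A} (ha : ContDiffAt ℝ ∞ a x) (hb : ContDiffAt ℝ ∞ b x) :
    ContDiffAt ℝ ∞ (fun y => D.t (a y) (b y)) x :=
  (D.t.contDiff.contDiffAt.comp x ha).clm_apply hb

lemma fderiv_BP (h : Lev X d P x) {F : Eu A → D.R} (hF : ContDiffAt ℝ ∞ F x)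
    (hT : F x ∈ D.Tan (P x)) (v : Eu A) :
    fderiv ℝ (fun y => D.BP d (P y) (F y)) x (P x v) = D.BP d (P x) (fderiv ℝ F x (P x v)) := by
  have h1 := (D.Th.hasFDerivAt.comp x ((hasFDerivAt_const (1 : Eu A →L[ℝ] Eu A) x).sub
    h.diff.hasFDerivAt)).pow (A - d)
  have h2 := D.B.hasFDerivAt.comp x ((cda_diff hF).hasFDerivAt.mul
    (h1.const_smul ((A - d).factorial : ℝ)⁻¹))
  have e : (fun y => D.BP d (P y) (F y)) = ⇑D.B ∘ (F * ((A - d).factorial : ℝ)⁻¹ •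
      fun y => (⇑D.Th ∘ ((fun _ => (1 : Eu A →L[ℝ] Eu A)) - P)) y ^ (A - d)) := rfl
  rw [e, h2.fderiv]
  have h3 : D.B (F x * (((A - d : ℕ) : D.R) * D.Th (1 - P x) ^ (A - d - 1) *
      D.Th (fderiv ℝ P x (P x v)))) = 0 := by
    rcases h.isProj.le_A.eq_or_lt with e | e
    · simp [e]
    · have := D.B_dnu h.isProj e hT (h.off v)
      rw [mul_assoc, mul_left_comm, ← nsmul_eq_mul, map_nsmul, this, smul_zero]
  rw [mul_comm _ (D.Th (fderiv ℝ P x (P x v))), map_sub] at h3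
  simp [BP_apply, nu, mul_comm, h3]

lemma inner_VF {u : Eu A → Eu A} {F : Eu A → D.R} {y : Eu A} (h : IsProj d (P y)) (v : Eu A) :
    ⟪D.VF d P u F y, v⟫_ℝ = D.BP d (P y) (D.t v (u y) * F y) := by
  have e : ∀ z, D.BP d (P y) (D.t (P y z) (u y) * F y) = D.BP d (P y) (D.t z (u y) * F y) :=
    fun z => (Eqv.mul (D.t_nu_left h _ _) (Eqv.refl _)).BP
  simp only [VF, e, sum_inner, inner_smul_left]
  conv_rhs => rw [← sum_ee v]
  simp [Finset.mul_sum, mul_comm]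

lemma P_VF {u : Eu A → Eu A} {F : Eu A → D.R} {y : Eu A} (h : IsProj d (P y)) :
    P y (D.VF d P u F y) = D.VF d P u F y := by
  refine ext_inner_right ℝ fun v => ?_
  rw [h.symm, D.inner_VF h, D.inner_VF h]
  exact (Eqv.mul (D.t_nu_left h _ _) (Eqv.refl _)).BP

lemma tanF_VF (h : Lev X d P x) {u : Eu A → Eu A} (hu : ContDiffAt ℝ ∞ u x) {F : Eu A → D.R}
    (hF : ContDiffAt ℝ ∞ F x) : TanF X P (D.VF d P u F) x :=
  ⟨ContDiffAt.sum fun _ _ => (D.cda_BP h.smooth d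
    ((D.cda_t (h.tanF_P _).smooth hu).mul hF)).smul contDiffAt_const,
    h.proj.mono fun _ hy => D.P_VF hy.1⟩

lemma divP_VF (h : Lev X d P x) {u : Eu A → Eu A} (hu : TanF X P u x) {F : Eu A → D.R} {G : D.R}
    (hF : D.HasD d P x (u x) F G) :
    divP P (D.VF d P u F) x = D.BP d (P x) (D.Th (Top P u x) * F x + G) := by
  have h0 : ∀ a, ContDiffAt ℝ ∞ (fun y => D.t (P y (ee a)) (u y) * F y) x := fun a =>
    (D.cda_t (h.tanF_P _).smooth hu.smooth).mul hF.smooth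
  have h1 : ∀ a v, ⟪fderiv ℝ (D.VF d P u F) x v, ee a⟫_ℝ =
      fderiv ℝ (fun y => D.BP d (P y) (D.t (P y (ee a)) (u y) * F y)) x v := by
    intro a v
    have := HasFDerivAt.fun_sum (u := Finset.univ) fun a _ =>
      (cda_diff (D.cda_BP h.smooth d (h0 a))).hasFDerivAt.smul_const (ee a)
    rw [show D.VF d P u F = fun y => ∑ a, D.BP d (P y) (D.t (P y (ee a)) (u y) * F y) • ee a
      from rfl, this.fderiv]
    simp [sum_inner, inner_smul_left, ee, EuclideanSpace.inner_single_left]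
  have h2 : ∀ a, fderiv ℝ (fun y => D.t (P y (ee a)) (u y) * F y) x (P x (ee a)) =
      (D.t (fderiv ℝ P x (P x (ee a)) (ee a)) (u x) +
        D.t (P x (ee a)) (fderiv ℝ u x (P x (ee a)))) * F x +
      D.t (P x (ee a)) (u x) * fderiv ℝ F x (P x (ee a)) := by
    intro a
    have hd := (D.t.hasFDerivAt.comp x (cda_diff (h.tanF_P (ee a)).smooth).hasFDerivAt).clm_apply
      (cda_diff hu.smooth).hasFDerivAt
    rw [fderiv_fun_mul (cda_diff (D.cda_t (h.tanF_P _).smooth hu.smooth)) (cda_diff hF.smooth),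
      show (fun y => D.t (P y (ee a)) (u y)) = fun y => (D.t ∘ fun y => P y (ee a)) y (u y)
        from rfl, hd.fderiv]
    simp [fderiv_clm_const h.diff]
    ring
  simp only [divP, h1]
  rw [Finset.sum_congr rfl fun a _ => D.fderiv_BP h (h0 a)
    (mul_mem (D.t_mem_Tan (h.isProj.idem _) (h.tan_self hu)) hF.tan) (ee a), ← map_sum]
  refine Eqv.BP ?_
  simp only [h2, Finset.sum_add_distrib, ← Finset.sum_mul]
  refine Eqv.add (Eqv.mul ?_ (Eqv.refl _)) hF.eqv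
  have e1 : D.Eqv d (P x) (∑ a, D.t (fderiv ℝ P x (P x (ee a)) (ee a)) (u x)) 0 := by
    refine (Eqv.sum _ fun a _ => Eqv.symm (D.t_nu_left h.isProj _ _)).trans (Eqv.of_eq ?_)
    let β : Eu A →ₗ[ℝ] Eu A →ₗ[ℝ] D.R := LinearMap.mk₂ ℝ
      (fun v z => D.t (P x (fderiv ℝ P x (P x v) z)) (u x))
      (by intros; simp) (by intros; simp) (by intros; simp) (by intros; simp)
    have := h.trace_zero β fun v z => by simp [β, h.PKP]
    simpa [β, h.isProj.idem] using this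
  have e2 : D.Eqv d (P x) (∑ a, D.t (P x (ee a)) (fderiv ℝ u x (P x (ee a))))
      (D.Th (Top P u x)) := by
    rw [D.Th_apply]
    exact Eqv.sum _ fun a _ => Eqv.trans (D.t_nu_left h.isProj _ _)
      (Eqv.symm (D.t_nu_right h.isProj _ _))
  simpa using e1.add e2

/-- contraction with a unit vector -/
lemma contract {Q : Eu A →L[ℝ] Eu A} (h : IsProj (d + 1) Q) {u : Eu A} (hu : ‖u‖ = 1)
    (hQ : Q u = u) {H Ψ N : D.R} (hH : H ∈ D.Perp u) (hΨ : Ψ - N ∈ D.Perp u) (h1 : N * N = 0)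
    (h2 : N * D.t u u = 0) (p r : ℕ) :
    D.BP (d + 1) Q (H * Ψ ^ p * D.Th Q ^ r) =
      p * D.BP (d + 1) Q (H * N * Ψ ^ (p - 1) * D.Th Q ^ r) +
      r * D.BP (d + 1) Q (D.t u u * (H * Ψ ^ p * D.Th Q ^ (r - 1))) := by
  have h3 : D.Th Q - D.t u u ∈ D.Perp u := by
    rw [← D.Th_r1, ← map_sub]
    refine D.Th_mem_Perp fun v => ?_
    simp [r1_apply, inner_sub_right, inner_smul_right, ← h.symm, hQ, hu]
  have := D.BP_perp h hu hQ (mul_mem (mul_mem hH (pow_mem hΨ p)) (pow_mem h3 r))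
  rw [sub_eq_add_neg, sub_eq_add_neg, add_pow_sq_zero' (by rw [neg_mul_neg, h1]),
    add_pow_sq_zero' (by rw [neg_mul_neg, D.same_left])] at this
  have e : H * (Ψ ^ p + (p : D.R) * (-N * Ψ ^ (p - 1))) *
      (D.Th Q ^ r + (r : D.R) * (-D.t u u * D.Th Q ^ (r - 1))) = H * Ψ ^ p * D.Th Q ^ r -
      (p : ℝ) • (H * N * Ψ ^ (p - 1) * D.Th Q ^ r) -
      (r : ℝ) • (D.t u u * (H * Ψ ^ p * D.Th Q ^ (r - 1))) := by
    simp only [Nat.cast_smul_eq_nsmul, nsmul_eq_mul]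
    linear_combination (H * p * r * Ψ ^ (p - 1) * D.Th Q ^ (r - 1)) * h2
  rw [e, map_sub, map_sub, map_smul, map_smul] at this
  simp only [smul_eq_mul] at this
  linarith

lemma sum_t_mul_t {ι : Type*} (s : Finset ι) (a : ι → Eu A) (u : Eu A) (F : ι → D.R) (b : Eu A) :
    (∑ c ∈ s, D.t (a c) u * F c) * D.t b u = 0 := by
  rw [Finset.sum_mul]
  exact Finset.sum_eq_zero fun c _ => by rw [mul_right_comm, D.same_right, zero_mul]

lemma Lam_mul_t (w u b : Eu A) : D.Lam P x w u * D.t b u = 0 := D.sum_t_mul_t _ _ _ _ _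

lemma Lam_mul_Lam (w w' u : Eu A) : D.Lam P x w u * D.Lam P x w' u = 0 := by
  rw [Lam, Finset.sum_mul]
  exact Finset.sum_eq_zero fun c _ => by
    rw [mul_comm, ← mul_assoc, D.Lam_mul_t, zero_mul]

lemma t_mul_Lam (u w : Eu A) : D.t u w * D.Lam P x u u = -(D.t u u * D.Lam P x u w) := by
  simp only [Lam, Finset.mul_sum, ← Finset.sum_neg_distrib]
  exact Finset.sum_congr rfl fun c _ => by rw [← mul_assoc, D.swap]; ring

variable {u : Eu A → Eu A}

lemma Om_perp (h : Lev X (d + 1) P x) (hu : UnitF X P u x) :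
    D.Om P x - 2 * D.Lam P x (u x) (u x) ∈ D.Perp (u x) := by
  have e : D.Om P x - 2 * D.Lam P x (u x) (u x) =
      ∑ c, (D.Th (Sop P x c) - D.t (Sop P x c (u x)) (u x)) ^ 2 := by
    simp only [Om, Lam, Finset.mul_sum, ← Finset.sum_sub_distrib]
    refine Finset.sum_congr rfl fun c _ => ?_
    linear_combination -D.same_left (Sop P x c (u x)) (u x) (u x)
  rw [e]
  refine Subalgebra.sum_mem _ fun c _ => pow_mem ?_ _
  rw [← D.Th_smulRight, ← map_sub]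
  refine D.Th_mem_Perp fun v => ?_
  simp [inner_sub_right, inner_smul_right, h.norm_u hu, (h.symTan_Sop c).symm]

lemma beta_perp (h : Lev X (d + 1) P x) (hu : UnitF X P u x) :
    D.Th (Top P u x) ∈ D.Perp (u x) :=
  D.Th_mem_Perp (h.unit_deriv hu.toTanF hu.unit)

lemma beta_split (h : Lev X (d + 1) P x) (hu : UnitF X P u x) :
    D.Th (Top P u x) = D.Th (Top (Pst P u) u x) + D.t (u x) (Top P u x (u x)) := by
  rw [← D.Th_smulRight, ← map_add]
  congr 1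
  ext1 v
  simpa using h.Top_split hu v

lemma eqv_beta (h : Lev X (d + 1) P x) (hu : UnitF X P u x) :
    D.Eqv d (Pst P u x) (D.Th (Top P u x)) (D.Th (Top (Pst P u) u x)) := by
  rw [D.beta_split h hu]
  have : D.Eqv d (Pst P u x) (D.t (u x) (Top P u x (u x))) 0 :=
    Eqv.trans (Eqv.symm (D.t_nu_left (h.isProj' hu) _ _)) (Eqv.of_eq (by simp [h.Pst_u hu]))
  simpa using (Eqv.refl _).add this

lemma eqv_theta (h : Lev X (d + 1) P x) (hu : UnitF X P u x) :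
    D.Eqv d (Pst P u x) (D.Th (P x)) (D.Th (Pst P u x)) := by
  refine (D.eqv_Th (h.isProj' hu) _).symm.trans (Eqv.of_eq ?_)
  congr 1
  ext1 v
  simp [h.P_Pst hu, (h.isProj' hu).idem]

lemma eqv_Top (h : Lev X (d + 1) P x) (hu : UnitF X P u x) (w : Eu A → Eu A) :
    D.Eqv d (Pst P u x) (D.Th (Top P w x)) (D.Th (Top (Pst P u) w x)) := by
  refine (D.eqv_Th (h.isProj' hu) _).symm.trans (Eqv.of_eq ?_)
  congr 1
  ext1 v
  simp [h.Top_Pst hu]

/-- Gauss equation -/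
lemma eqv_Om (h : Lev X (d + 1) P x) (hu : UnitF X P u x) :
    D.Eqv d (Pst P u x) (D.Om (Pst P u) x) (D.Om P x + D.Th (Top (Pst P u) u x) ^ 2) := by
  set S := D.Th (Top (Pst P u) u x)
  have e1 : D.Eqv d (Pst P u x) (D.Om (Pst P u) x)
      (∑ c, (D.Th (Sop P x c) - ⟪u x, ee c⟫_ℝ • S) ^ 2) := by
    refine Eqv.sum _ fun c _ => Eqv.pow ?_ 2
    rw [h.Sop_Pst hu, map_sub, map_smul]
    exact (D.eqv_Th (h.isProj' hu) _).sub (Eqv.refl _)
  refine e1.trans (Eqv.of_eq ?_)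
  have e2 : ∑ c, ⟪u x, ee c⟫_ℝ • D.Th (Sop P x c) = 0 := by
    simp only [← map_smul, ← map_sum]
    convert map_zero D.Th
    ext1 v
    have := h.PKP v (u x)
    rw [h.tan_self hu.toTanF] at this
    conv_lhs at this => rw [← sum_ee (u x)]
    simpa [Sop_apply, real_inner_comm] using this
  have e3 : ∑ c, ⟪u x, ee c⟫_ℝ * ⟪u x, ee c⟫_ℝ = 1 := by
    have := inner_eq_sum_ee (u x) (u x)
    rw [real_inner_self_eq_norm_sq, h.norm_u hu] at this
    simpa [real_inner_comm] using this.symm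
  have e4 : ∀ c, (D.Th (Sop P x c) - ⟪u x, ee c⟫_ℝ • S) ^ 2 = D.Th (Sop P x c) ^ 2 -
      2 * S * (⟪u x, ee c⟫_ℝ • D.Th (Sop P x c)) + (⟪u x, ee c⟫_ℝ * ⟪u x, ee c⟫_ℝ) • S ^ 2 := by
    intro c
    simp only [Algebra.smul_def, map_mul]
    ring
  simp only [e4, Finset.sum_add_distrib, Finset.sum_sub_distrib, ← Finset.mul_sum, e2,
    ← Finset.sum_smul, e3, Om]
  simp

end DFA

end Pool.Agent.AlEmb
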