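import Pool.Agent.Lib.MP_3fa020_gt.Core

/-!
Pointwise geometry of the curvature tensor in a chart (MP_3fa020_gt).
-/

namespace Pool.Agent.Alesker

open Finset Matrix MeasureTheory Filter Topology Metric
open scoped ContDiff

noncomputable section

section Alg
variable {ι κ : Type} [Fintype κ]

lemma q4_prod13 (α β : κ → κ → ℝ) (a b c d : κ → ℝ) :
    q4 (fun i j k l => α j l * β i k) a b c d = bil α b d * bil β a c := by
  rw [q4_swap23, mul_comm, ← q4_prod]
  simp only [mul_comm]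

lemma q4_prod14 (α β : κ → κ → ℝ) (a b c d : κ → ℝ) :
    q4 (fun i j k l => α j k * β i l) a b c d = bil α b c * bil β a d := by
  rw [q4_swap34, q4_prod13]

lemma bil_comp [Fintype ι] (β : κ → κ → ℝ) (V : Matrix κ ι ℝ) (u w : ι → ℝ) :
    bil (fun a b => bil β (cl V a) (cl V b)) u w = bil β (V *ᵥ u) (V *ᵥ w) := by
  unfold bil cl Matrix.mulVec dotProduct
  simp only [sum_mul, mul_sum]
  calc ∑ a, ∑ b, ∑ i, ∑ j, β i j * V i a * V j b * u a * w b
      = ∑ a, ∑ i, ∑ b, ∑ j, β i j * V i a * V j b * u a * w b :=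
        sum_congr rfl fun a _ => sum_comm
    _ = ∑ i, ∑ a, ∑ b, ∑ j, β i j * V i a * V j b * u a * w b := sum_comm
    _ = ∑ i, ∑ a, ∑ j, ∑ b, β i j * V i a * V j b * u a * w b :=
        sum_congr rfl fun i _ => sum_congr rfl fun a _ => sum_comm
    _ = ∑ i, ∑ j, ∑ a, ∑ b, β i j * V i a * V j b * u a * w b :=
        sum_congr rfl fun i _ => sum_comm
    _ = ∑ i, ∑ j, ∑ b, ∑ a, β i j * V i a * V j b * u a * w b :=
        sum_congr rfl fun i _ => sum_congr rfl fun j _ => sum_comm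
    _ = _ := sum_congr rfl fun i _ => sum_congr rfl fun j _ => sum_congr rfl fun b _ =>
        sum_congr rfl fun a _ => by ring

lemma q4_comp [Fintype ι] (Z : κ → κ → κ → κ → ℝ) (V : Matrix κ ι ℝ) (b1 b2 b3 b4 : ι → ℝ) :
    q4 (fun a b c d => q4 Z (cl V a) (cl V b) (cl V c) (cl V d)) b1 b2 b3 b4 =
      q4 Z (V *ᵥ b1) (V *ᵥ b2) (V *ᵥ b3) (V *ᵥ b4) := by
  rw [q4_left]
  have e : ∀ a b, bil (fun c d => q4 Z (cl V a) (cl V b) (cl V c) (cl V d)) b3 b4 =
      bil (fun i j => bil (Z i j) (V *ᵥ b3) (V *ᵥ b4)) (cl V a) (cl V b) := by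
    intro a b
    simp_rw [q4_right Z (cl V a) (cl V b)]
    rw [bil_comp, ← q4_right, q4_left]
  simp_rw [e]
  rw [bil_comp, ← q4_left]

lemma sq_sum_abs_le (v : κ → ℝ) : (∑ i, |v i|) ^ 2 ≤ Fintype.card κ * nsq v := by
  have := sq_sum_le_card_mul_sum_sq (s := univ) (f := fun i => |v i|)
  simp only [sq_abs, card_univ] at this
  simpa [nsq, sq] using this

lemma nsq_mulVec_le [Fintype ι] {V : Matrix κ ι ℝ} (hV : ∀ i a, |V i a| ≤ 1) (b : ι → ℝ) :
    nsq (V *ᵥ b) ≤ Fintype.card κ * Fintype.card ι * nsq b := by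
  have h1 : ∀ i, (V *ᵥ b) i * (V *ᵥ b) i ≤ Fintype.card ι * nsq b := by
    intro i
    have h2 : |V i ⬝ᵥ b| ≤ 1 * ∑ a, |b a| := abs_dot_le _ _ (hV i)
    refine le_trans ?_ (sq_sum_abs_le b)
    rw [← sq, ← sq_abs]
    exact pow_le_pow_left₀ (abs_nonneg _) (by rw [one_mul] at h2; exact h2) 2
  have := sum_le_card_nsmul univ _ _ fun i _ => h1 i
  rwa [card_univ, nsmul_eq_mul, ← mul_assoc] at this

lemma mixed_nonneg {a b c a' b' c' : ℝ} (ha : 0 ≤ a) (hc : 0 ≤ c) (ha' : 0 ≤ a') (hc' : 0 ≤ c')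
    (h : b ^ 2 ≤ a * c) (h' : b' ^ 2 ≤ a' * c') : 2 * (b * b') ≤ a * c' + a' * c := by
  have h1 : (b * b') ^ 2 ≤ (a * c') * (a' * c) := by
    rw [mul_pow]
    calc b ^ 2 * b' ^ 2 ≤ (a * c) * (a' * c') := mul_le_mul h h' (sq_nonneg _) (by positivity)
      _ = _ := by ring
  have h2 : (2 * (b * b')) ^ 2 ≤ (a * c' + a' * c) ^ 2 := by
    nlinarith [sq_nonneg (a * c' - a' * c)]
  exact (abs_le_of_sq_le_sq' h2 (by positivity)).2

variable [Fintype ι] [DecidableEq ι] [DecidableEq κ]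

lemma trace_inv {T : Matrix κ ι ℝ → Matrix κ ι ℝ → ℝ} (hT : ML2 T) (B : Matrix κ κ ℝ)
    (σ : Equiv.Perm ι) :
    ∑ a : ι → κ, T ((B * Bᵀ).submatrix id a) (((1 : Matrix κ κ ℝ).submatrix id a).submatrix id σ) =
      ∑ A : ι → κ, T (B.submatrix id A) ((B.submatrix id A).submatrix id σ) := by
  have e1 : ∀ a : ι → κ, (B * Bᵀ).submatrix id a = B * Bᵀ.submatrix id a := fun a => rfl
  have e2 : ∀ (a : ι → κ) W, T (B * Bᵀ.submatrix id a) W =
      ∑ A : ι → κ, (∏ s, B (a s) (A s)) * T (B.submatrix id A) W :=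
    fun a W => (hT.1 W).expand B _
  simp_rw [e1, e2]
  rw [sum_comm]
  refine sum_congr rfl fun A _ => ?_
  have := ((hT.2 (B.submatrix id A)).perm σ).expand (1 : Matrix κ κ ℝ) (B.submatrix id A)
  rw [Matrix.one_mul] at this
  exact this.symm

omit [DecidableEq κ] in
lemma sum_D2 (T : Matrix κ ι ℝ → Matrix κ ι ℝ → ℝ) (B : Matrix κ κ ℝ) :
    ∑ A : ι → κ, D2 T (B.submatrix id A) (B.submatrix id A) =
      (Fintype.card ι).factorial * ∑ σ : Equiv.Perm ι, sg σ *
        ∑ A : ι → κ, T (B.submatrix id A) ((B.submatrix id A).submatrix id σ) := by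
  unfold D2
  rw [sum_comm]
  have e : ∀ ρ : Equiv.Perm ι, ∑ A : ι → κ, ∑ τ : Equiv.Perm ι, sg ρ * sg τ *
      T ((B.submatrix id A).submatrix id ρ) ((B.submatrix id A).submatrix id τ) =
      ∑ σ : Equiv.Perm ι, sg σ *
        ∑ A : ι → κ, T (B.submatrix id A) ((B.submatrix id A).submatrix id σ) := by
    intro ρ
    rw [sum_comm, ← Equiv.sum_comp (Equiv.mulLeft ρ)]
    refine sum_congr rfl fun σ _ => ?_
    rw [Equiv.coe_mulLeft, sg_mul, ← mul_assoc, sg_sq, one_mul, ← mul_sum]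
    congr 1
    exact (Equiv.arrowCongr ρ.symm (Equiv.refl κ)).sum_comp
      fun A => T (B.submatrix id A) ((B.submatrix id A).submatrix id σ)
  simp_rw [e]
  rw [sum_const, card_univ, Fintype.card_perm, nsmul_eq_mul]

omit [Fintype κ] [DecidableEq κ] [Fintype ι] in
lemma exists_perm_pair {i0 i1 p q : ι} (h : i0 ≠ i1) (hpq : p ≠ q) :
    ∃ σ : Equiv.Perm ι, σ i0 = p ∧ σ i1 = q := by
  refine ⟨Equiv.swap i0 p * Equiv.swap i1 (Equiv.swap i0 p q), ?_, by simp⟩
  have : i0 ≠ Equiv.swap i0 p q := by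
    intro e
    apply hpq
    have := congrArg (Equiv.swap i0 p) e
    simpa using this
  simp [Equiv.swap_apply_of_ne_of_ne h this]

end Alg

variable {n : ℕ} {g : (Fin n → ℝ) → Matrix (Fin n) (Fin n) ℝ}

/-- second derivatives of the metric -/
def Zg (g : (Fin n → ℝ) → Matrix (Fin n) (Fin n) ℝ) (x : Fin n → ℝ) :
    Fin n → Fin n → Fin n → Fin n → ℝ := fun i j k l => pd i (pd k fun y => g y j l) x

/-- the quadratic part of the sectional curvature -/
def YY (g : (Fin n → ℝ) → Matrix (Fin n) (Fin n) ℝ) (x v w : Fin n → ℝ) : ℝ :=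
  ∑ p, ∑ q, g x p q * (bil (Gam g x p) w w * bil (Gam g x q) v v -
    bil (Gam g x p) w v * bil (Gam g x q) v w)

/-- smooth symmetric matrix function -/
structure SmSym (g : (Fin n → ℝ) → Matrix (Fin n) (Fin n) ℝ) : Prop where
  sm : ∀ i j, Sm fun y => g y i j
  sym : ∀ y i j, g y i j = g y j i

lemma SmSym.fsym (h : SmSym g) (i j : Fin n) : (fun y => g y i j) = fun y => g y j i :=
  funext fun y => h.sym y i j

lemma SmSym.gam_sym (h : SmSym g) (x : Fin n → ℝ) (p i j : Fin n) :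
    Gam g x p i j = Gam g x p j i := by
  unfold Gam
  congr 1
  refine sum_congr rfl fun q _ => ?_
  rw [h.fsym i j]
  ring

lemma SmSym.zg_pair (h : SmSym g) (x : Fin n → ℝ) (i j k l : Fin n) :
    Zg g x i j k l = Zg g x k l i j := by
  unfold Zg
  rw [pd_comm (h.sm j l), h.fsym j l]

lemma SmSym.sec_eq (h : SmSym g) (x v w : Fin n → ℝ) :
    q4 (Rm g x) v w v w = ql (Zg g x) v w - YY g x v w := by
  have e : Rm g x = fun i j k l =>
      1 / 2 * (Zg g x j i k l + Zg g x i j l k - Zg g x i j k l - Zg g x j i l k) +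
      ∑ p, ∑ q, g x p q * (Gam g x p j k * Gam g x q i l - Gam g x p j l * Gam g x q i k) := rfl
  rw [e, q4_add, q4_mul, q4_sub, q4_sub, q4_add, q4_sum]
  simp_rw [q4_sum, q4_mul, q4_sub, q4_prod13, q4_prod14]
  have e1 : q4 (fun i j k l => Zg g x j i k l) v w v w = q4 (Zg g x) v w w v := by
    rw [q4_swap12, q4_pair]
    congr 1
    funext k l i j
    exact h.zg_pair x i j k l
  have e2 : q4 (fun i j k l => Zg g x i j l k) v w v w = q4 (Zg g x) v w w v := by
    rw [q4_swap34]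
  have e3 : q4 (fun i j k l => Zg g x j i l k) v w v w = q4 (Zg g x) w v w v := by
    rw [q4_swap12, q4_swap34]
  rw [e1, e2, e3]
  unfold ql YY
  simp only [mul_sub, sum_sub_distrib]
  ring

/-- the tensor `g ∧ g` -/
def GG (A : Matrix (Fin n) (Fin n) ℝ) : Fin n → Fin n → Fin n → Fin n → ℝ :=
  fun i j k l => A j l * A i k - A j k * A i l

lemma q4_GG {A : Matrix (Fin n) (Fin n) ℝ} (h : ∀ i j, A i j = A j i) (v w : Fin n → ℝ) :
    q4 (GG A) v w v w = bil A v v * bil A w w - bil A v w ^ 2 := by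
  unfold GG
  rw [q4_sub, q4_prod13, q4_prod14, bil_symm h w v]
  ring

lemma curvPos_GG {A : Matrix (Fin n) (Fin n) ℝ} (h : ∀ i j, A i j = A j i)
    (hp : ∀ v, 0 ≤ bil A v v) {Λ : ℝ} (hΛ : 0 ≤ Λ) :
    CurvPos (q4 fun i j k l => Λ * GG A i j k l) := by
  have e : (fun i j k l => Λ * GG A i j k l) =
      fun i j k l => -(Λ * (A i l * A j k)) - -(Λ * (A i k * A j l)) := by
    funext i j k l; unfold GG; ring
  rw [e]
  refine curvPos_of_beta (fun i l j k => -(Λ * (A i l * A j k))) (fun i l j k => by rw [h i l])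
    (fun i l j k => by ring) fun a b => ?_
  rw [← e, q4_mul, q4_GG h]
  exact mul_nonneg hΛ (sub_nonneg.mpr (bil_cs h hp a b))

lemma SmSym.curvPos (h : SmSym g) (x : Fin n → ℝ) {Λ : ℝ}
    (hp : ∀ v w, 0 ≤ q4 (fun i j k l => Rm g x i j k l + Λ * GG (g x) i j k l) v w v w) :
    CurvPos (q4 fun i j k l => Rm g x i j k l + Λ * GG (g x) i j k l) := by
  set β : Fin n → Fin n → Fin n → Fin n → ℝ := fun i l j k =>
    1 / 2 * (Zg g x j i k l + Zg g x i j l k) + ∑ p, ∑ q, g x p q * (Gam g x p j k * Gam g x q i l)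
      - Λ * (g x i l * g x j k) with hβ
  have e : (fun i j k l => Rm g x i j k l + Λ * GG (g x) i j k l) =
      fun i j k l => β i l j k - β i k j l := by
    funext i j k l
    simp only [hβ, Rm, GG, Zg, mul_sub, sum_sub_distrib]
    ring
  rw [e] at hp ⊢
  refine curvPos_of_beta β (fun i l j k => ?_) (fun i l j k => ?_) hp
  · simp only [hβ, Zg]
    rw [h.sym x i l, h.fsym i l, pd_comm (h.sm j k) i l]
    simp_rw [h.gam_sym x _ i l]
  · simp only [hβ]
    have : ∑ p, ∑ q, g x p q * (Gam g x p j k * Gam g x q i l) =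
        ∑ p, ∑ q, g x p q * (Gam g x p i l * Gam g x q j k) := by
      rw [sum_comm]
      exact sum_congr rfl fun p _ => sum_congr rfl fun q _ => by rw [h.sym x q p]; ring
    rw [this]
    ring

/-- hypotheses at a point -/
structure Good (g : (Fin n → ℝ) → Matrix (Fin n) (Fin n) ℝ) (Λ : ℝ) (x : Fin n → ℝ) : Prop where
  low : ∀ v, Λ⁻¹ * nsq v ≤ bil (g x) v v
  up : ∀ v, bil (g x) v v ≤ Λ * nsq v
  sec : ∀ v w, -Λ * (bil (g x) v v * bil (g x) w w - bil (g x) v w ^ 2) ≤ q4 (Rm g x) v w v w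
  alt : (∀ i j l, |pd l (fun y => g y i j) x| ≤ Λ) ∨
    ((∀ p q, 0 ≤ g x p q) ∧ ∀ p v, 0 ≤ bil (Gam g x p) v v)

variable {Λ : ℝ} {x : Fin n → ℝ}

lemma Good.psd (h : Good g Λ x) (hΛ : 0 < Λ) (v : Fin n → ℝ) : 0 ≤ bil (g x) v v :=
  le_trans (mul_nonneg (inv_pos.mpr hΛ).le (nsq_nonneg v)) (h.low v)

lemma Good.frame (h : Good g Λ x) (hs : SmSym g) (hΛ : 0 < Λ) :
    ∃ B : Matrix (Fin n) (Fin n) ℝ, Bᵀ * g x * B = 1 ∧ ∀ i s, |B i s| ≤ Λ + 1 := by
  obtain ⟨B, hB⟩ := exists_frame (g x) (hs.sym x) fun v hv =>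
    lt_of_lt_of_le (mul_pos (inv_pos.mpr hΛ) (sum_sq_pos hv)) (h.low v)
  refine ⟨B, hB, fun i s => ?_⟩
  have h1 := h.low (cl B s)
  rw [frame_bil hB, if_pos rfl, ← div_eq_inv_mul, div_le_one hΛ] at h1
  exact (sum_abs_le_of_nsq (v := cl B s) (by positivity) (by nlinarith)).1 i

lemma Good.entry (h : Good g Λ x) (hs : SmSym g) (hΛ : 0 < Λ) (p q : Fin n) : |g x p q| ≤ Λ := by
  have h1 := bil_cs (hs.sym x) (h.psd hΛ) (Pi.single p 1) (Pi.single q 1)
  have h2 : ∀ p, g x p p ≤ Λ := fun p => by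
    have := h.up (Pi.single p 1)
    rw [bil_single] at this
    simpa [nsq, Pi.single_apply] using this
  have h3 : ∀ p, 0 ≤ g x p p := fun p => by
    have := h.psd hΛ (Pi.single p 1)
    rwa [bil_single] at this
  simp only [bil_single] at h1
  have h4 := mul_le_mul (h2 p) (h2 q) (h3 q) hΛ.le
  exact abs_le_of_sq_le_sq' (by nlinarith) hΛ.le |>.elim fun x y => _root_.abs_le.mpr ⟨x, y⟩

lemma Good.inv_entry (h : Good g Λ x) (hs : SmSym g) (hΛ : 0 < Λ) (p q : Fin n) :
    |(g x)⁻¹ p q| ≤ n * (Λ + 1) ^ 2 := by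
  obtain ⟨B, hB, h1⟩ := h.frame hs hΛ
  rw [frame_inv hB, Matrix.mul_apply]
  refine (abs_sum_le_sum_abs _ _).trans ?_
  have := sum_le_card_nsmul univ (fun s => |B p s * Bᵀ s q|) ((Λ + 1) ^ 2) fun s _ => by
    rw [abs_mul, sq]
    exact mul_le_mul (h1 p s) (h1 q s) (abs_nonneg _) (by positivity)
  rwa [card_univ, Fintype.card_fin, nsmul_eq_mul] at this

/-- constant for the lower bound of the quadratic part -/
def cY (n : ℕ) (Λ : ℝ) : ℝ := n * (n * (Λ * (2 * (n * (n * (Λ + 1) ^ 2 * (3 * Λ))) ^ 2 * n ^ 2)))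

lemma Good.YY_ge (h : Good g Λ x) (hs : SmSym g) (hΛ : 0 < Λ) (v w : Fin n → ℝ) :
    -(cY n Λ * (nsq v * nsq w)) ≤ YY g x v w := by
  have hv := nsq_nonneg v
  have hw := nsq_nonneg w
  rcases h.alt with h1 | ⟨h1, h2⟩
  · set M : ℝ := n * (n * (Λ + 1) ^ 2 * (3 * Λ)) with hM
    have hM0 : 0 ≤ M := by positivity
    have hG : ∀ p i j, |Gam g x p i j| ≤ M := by
      intro p i j
      unfold Gam
      rw [abs_mul]
      refine (mul_le_of_le_one_left (abs_nonneg _) (by norm_num)).trans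
        ((abs_sum_le_sum_abs _ _).trans ?_)
      have := sum_le_card_nsmul univ (fun q => |(g x)⁻¹ p q * (pd i (fun y => g y j q) x +
        pd j (fun y => g y i q) x - pd q (fun y => g y i j) x)|) (n * (Λ + 1) ^ 2 * (3 * Λ))
        fun q _ => by
          rw [abs_mul]
          refine mul_le_mul (h.inv_entry hs hΛ p q) ?_ (abs_nonneg _) (by positivity)
          have a1 := h1 j q i
          have a2 := h1 i q j
          have a3 := h1 i j q
          rw [_root_.abs_le] at *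
          constructor <;> linarith [a1.1, a1.2, a2.1, a2.2, a3.1, a3.2]
      rwa [card_univ, Fintype.card_fin, nsmul_eq_mul] at this
    set sv := ∑ i, |v i| with hsv
    set sw := ∑ i, |w i| with hsw
    have hsv0 : 0 ≤ sv := by positivity
    have hsw0 : 0 ≤ sw := by positivity
    have hvw : sv ^ 2 * sw ^ 2 ≤ n ^ 2 * (nsq v * nsq w) := by
      have a1 := sq_sum_abs_le v
      have a2 := sq_sum_abs_le w
      rw [Fintype.card_fin] at a1 a2
      calc _ ≤ (n * nsq v) * (n * nsq w) := mul_le_mul a1 a2 (sq_nonneg _) (by positivity)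
        _ = _ := by ring
    have hterm : ∀ p q, |g x p q * (bil (Gam g x p) w w * bil (Gam g x q) v v -
        bil (Gam g x p) w v * bil (Gam g x q) v w)| ≤
        Λ * (2 * M ^ 2 * n ^ 2) * (nsq v * nsq w) := by
      intro p q
      rw [abs_mul, mul_assoc]
      refine mul_le_mul (h.entry hs hΛ p q) ?_ (abs_nonneg _) hΛ.le
      have a1 : |bil (Gam g x p) w w * bil (Gam g x q) v v| ≤ (M * sw * sw) * (M * sv * sv) := by
        rw [abs_mul]
        exact mul_le_mul (abs_bil_le (hG p) w w) (abs_bil_le (hG q) v v) (abs_nonneg _)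
          (by positivity)
      have a2 : |bil (Gam g x p) w v * bil (Gam g x q) v w| ≤ (M * sw * sv) * (M * sv * sw) := by
        rw [abs_mul]
        exact mul_le_mul (abs_bil_le (hG p) w v) (abs_bil_le (hG q) v w) (abs_nonneg _)
          (by positivity)
      have a3 := mul_le_mul_of_nonneg_left hvw (show 0 ≤ 2 * M ^ 2 by positivity)
      refine (abs_sub _ _).trans ?_
      linarith
    have : |YY g x v w| ≤ cY n Λ * (nsq v * nsq w) := by
      unfold YY cY
      refine (abs_sum_le_sum_abs _ _).trans ?_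
      have := sum_le_card_nsmul univ _ _ fun p (_ : p ∈ univ) => (abs_sum_le_sum_abs _ _).trans
        (sum_le_card_nsmul univ _ _ fun q (_ : q ∈ univ) => hterm p q)
      simp only [card_univ, Fintype.card_fin, nsmul_eq_mul] at this
      rw [← hM]
      linarith
    linarith [neg_abs_le (YY g x v w)]
  · have hc : 0 ≤ cY n Λ * (nsq v * nsq w) := by unfold cY; positivity
    have hsym := hs.gam_sym x
    have e : YY g x v w = ∑ p, ∑ q, g x p q * (bil (Gam g x q) w w * bil (Gam g x p) v v -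
        bil (Gam g x p) v w * bil (Gam g x q) v w) := by
      unfold YY
      rw [sum_comm]
      exact sum_congr rfl fun p _ => sum_congr rfl fun q _ => by
        rw [hs.sym x q p, bil_symm (hsym q) w v]; ring
    have e2 : 0 ≤ YY g x v w + YY g x v w := by
      nth_rewrite 1 [e]
      unfold YY
      rw [← sum_add_distrib]
      refine sum_nonneg fun p _ => ?_
      rw [← sum_add_distrib]
      refine sum_nonneg fun q _ => ?_
      rw [← mul_add, bil_symm (hsym p) w v]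
      refine mul_nonneg (h1 p q) ?_
      have := mixed_nonneg (h2 p v) (h2 p w) (h2 q v) (h2 q w) (bil_cs (hsym p) (h2 p) v w)
        (bil_cs (hsym q) (h2 q) v w)
      linarith
    linarith

/-- the constant added to the linearized curvature -/
def c0 (n : ℕ) (Λ : ℝ) : ℝ := 2 * Λ ^ 3 + cY n Λ

lemma c0_nonneg (hΛ : 0 < Λ) : 0 ≤ c0 n Λ := by unfold c0 cY; positivity

lemma Good.key (h : Good g Λ x) (hs : SmSym g) (hΛ : 0 < Λ) :
    (∀ v w, 0 ≤ ql (Zg g x) v w + c0 n Λ * (nsq v * nsq w)) ∧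
    ∀ {J : Type} (u : J → Fin n → ℝ) (M : ℝ), 0 ≤ M →
      (∀ p q, p ≠ q → ql (Zg g x) (u p) (u q) + c0 n Λ * (nsq (u p) * nsq (u q)) ≤ M) →
      ∀ a b c d, |q4 (Rm g x) (u a) (u b) (u c) (u d)| ≤ 8 * M := by
  have hG := curvPos_GG (hs.sym x) (h.psd hΛ) hΛ.le
  have hS := hs.curvPos x (Λ := Λ) fun v w => by
    rw [q4_add, q4_mul, q4_GG (hs.sym x)]
    linarith [h.sec v w]
  have hk : ∀ v w, q4 (fun i j k l => Rm g x i j k l + Λ * GG (g x) i j k l) v w v w +
      q4 (fun i j k l => Λ * GG (g x) i j k l) v w v w ≤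
      ql (Zg g x) v w + c0 n Λ * (nsq v * nsq w) := by
    intro v w
    rw [q4_add, q4_mul, q4_GG (hs.sym x), hs.sec_eq]
    have a1 := h.YY_ge hs hΛ v w
    have a2 : bil (g x) v v * bil (g x) w w ≤ (Λ * nsq v) * (Λ * nsq w) :=
      mul_le_mul (h.up v) (h.up w) (h.psd hΛ w) (mul_nonneg hΛ.le (nsq_nonneg v))
    have a3 := mul_le_mul_of_nonneg_left a2 hΛ.le
    have a4 := mul_nonneg hΛ.le (sq_nonneg (bil (g x) v w))
    unfold c0
    nlinarith
  refine ⟨fun v w => le_trans (add_nonneg (hS.pos v w) (hG.pos v w)) (hk v w),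
    fun u M hM H a b c d => ?_⟩
  have b1 := hS.bound u (M := M) (fun p q => by
    by_cases hpq : p = q
    · rw [hpq, hS.diag]; exact hM
    · linarith [hk (u p) (u q), H p q hpq, hG.pos (u p) (u q)]) a b c d
  have b2 := hG.bound u (M := M) (fun p q => by
    by_cases hpq : p = q
    · rw [hpq, hG.diag]; exact hM
    · linarith [hk (u p) (u q), H p q hpq, hS.pos (u p) (u q)]) a b c d
  rw [q4_add] at b1
  rw [_root_.abs_le] at *
  constructor <;> linarith [b1.1, b1.2, b2.1, b2.2]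

lemma lk_eq (k : ℕ) {B : Matrix (Fin n) (Fin n) ℝ} (hB : Bᵀ * g x * B = 1) :
    (Fintype.card (Fin k × Fin 2)).factorial * lk k g x =
      ∑ A : Fin k × Fin 2 → Fin n,
        D2 (TR (Rm g x)) (B.submatrix id A) (B.submatrix id A) := by
  rw [sum_D2]
  congr 1
  unfold lk
  rw [sum_comm]
  refine sum_congr rfl fun σ _ => ?_
  rw [← trace_inv (TR_ML2 (Rm g x)) B σ, mul_sum]
  refine sum_congr rfl fun a _ => ?_
  congr 1
  unfold TR
  refine prod_congr rfl fun r _ => ?_
  have e : ∀ s, cl (((1 : Matrix (Fin n) (Fin n) ℝ).submatrix id a).submatrix id σ) s =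
      Pi.single (a (σ s)) 1 := by
    intro s
    funext i
    simp [cl, Matrix.one_apply, Pi.single_apply]
  have e2 : ∀ p q, (g x)⁻¹ p q = (B * Bᵀ) q p := by
    intro p q
    rw [frame_inv hB, Matrix.mul_apply, Matrix.mul_apply]
    exact sum_congr rfl fun s _ => mul_comm _ _
  rw [e, e, q4_left]
  simp_rw [bil_single, e2]
  unfold bil cl
  exact sum_congr rfl fun i _ => sum_congr rfl fun j _ => by
    simp only [Matrix.submatrix_apply, id]; ring

lemma Good.lk_le (h : Good g Λ x) (hs : SmSym g) (hΛ : 0 < Λ) (k : ℕ) {θ : ℝ} (hθ : 0 < θ) :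
    |lk k g x| ≤ (n : ℝ) ^ Fintype.card (Fin k × Fin 2) *
      (((n : ℝ) ^ 2 * (Λ + 1) ^ 2 / θ ^ 2) ^ Fintype.card (Fin k × Fin 2) *
        ∑ a : Fin k × Fin 2 → Fin n × Fin n, |D2 (TR (Rm g x)) (gridM θ a) (gridM θ a)|) := by
  obtain ⟨B, hB, h1⟩ := h.frame hs hΛ
  have h2 := lk_eq k hB
  have h3 : |lk k g x| ≤ |(Fintype.card (Fin k × Fin 2)).factorial * lk k g x| := by
    rw [abs_mul]
    refine le_mul_of_one_le_left (abs_nonneg _) ?_
    rw [Nat.abs_cast]
    exact_mod_cast Nat.factorial_pos _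
  rw [h2] at h3
  refine h3.trans ((abs_sum_le_sum_abs _ _).trans ?_)
  have := sum_le_card_nsmul univ _ _ fun (A : Fin k × Fin 2 → Fin n) (_ : A ∈ univ) =>
    (TR_ML2 (k := k) (Rm g x)).d2.pol θ _ (Λ + 1) hθ (by positivity)
      (fun a => single_le_sum (f := fun a : Fin k × Fin 2 → Fin n × Fin n =>
        |D2 (TR (Rm g x)) (gridM θ a) (gridM θ a)|) (fun _ _ => abs_nonneg _) (mem_univ a))
      (fun s => (A s, A s)) (B.submatrix id A) fun i s => h1 i (A s)
  rw [card_univ, Fintype.card_fun, Fintype.card_fin, nsmul_eq_mul] at this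
  push_cast at this
  exact this

lemma Good.det_ne (h : Good g Λ x) (hs : SmSym g) (hΛ : 0 < Λ) : (g x).det ≠ 0 := by
  obtain ⟨B, hB, -⟩ := h.frame hs hΛ
  intro h0
  have := frame_det hB
  rw [h0] at this
  simp at this

lemma Good.det_le (h : Good g Λ x) (hs : SmSym g) (hΛ : 0 < Λ) :
    (g x).det ≤ n.factorial * Λ ^ n := by
  have := Matrix.det_le (abv := AbsoluteValue.abs) (A := g x) (h.entry hs hΛ)
  rw [Fintype.card_fin, nsmul_eq_mul] at this
  exact (le_abs_self _).trans this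

lemma SmSym.continuousAt_Rm (hs : SmSym g) (hd : (g x).det ≠ 0) (i j k l : Fin n) :
    ContinuousAt (fun y => Rm g y i j k l) x := by
  have hg : Continuous g := continuous_matrix fun i j => (hs.sm i j).continuous
  have h1 : ContinuousAt (fun y => (g y)⁻¹) x := by
    refine (continuousAt_matrix_inv (g x) ?_).comp hg.continuousAt
    rw [Ring.inverse_eq_inv']
    exact continuousAt_inv₀ hd
  have h2 : ∀ p q, ContinuousAt (fun y => (g y)⁻¹ p q) x := fun p q =>
    ((continuous_apply_apply p q).continuousAt).comp h1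
  have h3 : ∀ p i j, ContinuousAt (fun y => Gam g y p i j) x := by
    intro p i j
    unfold Gam
    refine continuousAt_const.mul (tendsto_finsetSum _ fun q _ => (h2 p q).mul ?_)
    exact ((((hs.sm j q).pd i).continuous.add ((hs.sm i q).pd j).continuous).sub
      ((hs.sm i j).pd q).continuous).continuousAt
  unfold Rm
  refine ContinuousAt.add (continuousAt_const.mul ?_) (tendsto_finsetSum _ fun p _ =>
    tendsto_finsetSum _ fun q _ => (hs.sm p q).continuous.continuousAt.mul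
      (((h3 p j k).mul (h3 q i l)).sub ((h3 p j l).mul (h3 q i k))))
  exact ((((((hs.sm i l).pd k).pd j).continuous.add (((hs.sm j k).pd l).pd i).continuous).sub
    (((hs.sm j l).pd k).pd i).continuous).sub (((hs.sm i k).pd l).pd j).continuous).continuousAt

end

end Pool.Agent.Alesker
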