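import Pool.Agent.Lib.MP_3fa020_gt.OT

/-!
A smooth convex function with bounded gradient whose Hessian determinant dominates a given
density (MP_3fa020_gt).
-/

namespace Pool.Agent.Alesker

open Finset Matrix MeasureTheory Filter Topology Metric
open scoped ContDiff Convolution

noncomputable section

variable {ι : Type} [Fintype ι] [DecidableEq ι]

omit [DecidableEq ι] in
lemma mollify {u : (ι → ℝ) → ℝ} {K : ℝ} (hK : 0 ≤ K) (hu : ∀ x x', |u x - u x'| ≤ K * ‖x - x'‖)
    {δ : ℝ} (hδ : 0 < δ) :
    ∃ (U η : (ι → ℝ) → ℝ), Sm U ∧ Continuous η ∧ HasCompactSupport η ∧ (∀ z, 0 ≤ η z) ∧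
      (∫ z, η z = 1) ∧ (∀ z, δ ≤ ‖z‖ → η z = 0) ∧ Continuous u ∧
      ∀ x, U x = ∫ z, η z * u (x - z) := by
  set φ : ContDiffBump (0 : ι → ℝ) := ⟨δ / 2, δ, half_pos hδ, half_lt_self hδ⟩ with hφ
  have huc : Continuous u := by
    refine (LipschitzWith.of_dist_le_mul (K := ⟨K, hK⟩) fun x x' => ?_).continuous
    rw [Real.dist_eq, dist_eq_norm]
    exact hu x x'
  refine ⟨φ.normed volume ⋆[ContinuousLinearMap.lsmul ℝ ℝ, volume] u, φ.normed volume,
    φ.hasCompactSupport_normed.contDiff_convolution_left _ φ.contDiff_normed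
      huc.locallyIntegrable, φ.continuous_normed, φ.hasCompactSupport_normed, φ.nonneg_normed,
    φ.integral_normed, fun z hz => ?_, huc, fun x => rfl⟩
  by_contra h
  have : z ∈ Function.support (φ.normed volume) := h
  rw [φ.support_normed_eq] at this
  simp [hφ] at this
  linarith

theorem monge_ampere [Nonempty ι] {ρ : (ι → ℝ) → ℝ} (hρ : Continuous ρ)
    (hc : HasCompactSupport ρ) (h0 : ∀ x, 0 ≤ ρ x) (h1 : ∫ x, ρ x = 1) {γ : ℝ} (hγ : 0 < γ) :
    ∃ U : (ι → ℝ) → ℝ, Sm U ∧ (∀ x v, 0 ≤ bil (hess U x) v v) ∧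
      (∀ x i, |pd i U x| ≤ Fintype.card ι) ∧
      ∀ x (B : Matrix ι ι ℝ), ∑ s, bil (hess U x) (cl B s) (cl B s) ≤ Fintype.card ι →
        (ρ x - γ) * B.det ^ 2 ≤ 2 * (8 * (Fintype.card ι : ℝ) ^ 2) ^ Fintype.card ι := by
  have hm : (0 : ℝ) < Fintype.card ι := by exact_mod_cast Fintype.card_pos
  obtain ⟨u, hu1, hu2, hu3⟩ := sd_limit hρ hc h0 h1
  obtain ⟨δ2, hδ2, hδ⟩ := Metric.uniformContinuous_iff.mp
    (hc.uniformContinuous_of_continuous hρ) γ hγ
  obtain ⟨U, η, hU, hηc, hηs, hη0, hη1, hηz, huc, hUe⟩ := mollify hm.le hu1 (half_pos hδ2)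
  have hηi : Integrable η := hηc.integrable_of_hasCompactSupport hηs
  have hi : ∀ x, Integrable fun z => η z * u (x - z) :=
    fun x => integrable_of_cs hηc hηs (huc.comp (continuous_const.sub continuous_id))
  have hsd : ∀ x v, U (x + v) + U (x - v) - 2 * U x =
      ∫ z, η z * (u (x - z + v) + u (x - z - v) - 2 * u (x - z)) := by
    intro x v
    have i1 : Integrable fun z => η z * u (x + v - z) + η z * u (x - v - z) := (hi _).add (hi _)
    rw [hUe, hUe, hUe, ← integral_add (hi _) (hi _), ← integral_const_mul,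
      ← integral_sub i1 ((hi _).const_mul _)]
    refine integral_congr_ae (Eventually.of_forall fun z => ?_)
    simp only
    rw [show x + v - z = x - z + v by ring, show x - v - z = x - z - v by ring]
    ring
  refine ⟨U, hU, fun x v => ?_, fun x i => ?_, fun x B hB => ?_⟩
  · refine ge_of_tendsto' (second_diff hU x v) fun s => div_nonneg ?_ (sq_nonneg _)
    rw [hsd]
    exact integral_nonneg fun z => mul_nonneg (hη0 z) (hu2 _ _)
  · have hlip : ∀ x', ‖U x' - U x‖ ≤ Fintype.card ι * ‖x' - x‖ := by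
      intro x'
      rw [hUe, hUe, ← integral_sub (hi _) (hi _)]
      have : ‖∫ z, η z * u (x' - z) - η z * u (x - z)‖ ≤
          ∫ z, η z * (Fintype.card ι * ‖x' - x‖) := by
        refine norm_integral_le_of_norm_le (hηi.mul_const _) (Eventually.of_forall fun z => ?_)
        rw [← mul_sub, Real.norm_eq_abs, abs_mul, abs_of_nonneg (hη0 z)]
        refine mul_le_mul_of_nonneg_left ?_ (hη0 z)
        have := hu1 (x' - z) (x - z)
        rwa [sub_sub_sub_cancel_right] at this
      rwa [integral_mul_const, hη1, one_mul] at this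
    have e1 := norm_fderiv_le_of_lip' ℝ hm.le (Eventually.of_forall hlip)
    have e2 := (fderiv ℝ U x).le_opNorm (Pi.single i 1)
    rw [Pi.norm_single, norm_one, mul_one] at e2
    exact e2.trans e1
  · have t1 : Tendsto (fun ε : ℝ => ∑ s, (U (x + ε • cl B s) + U (x - ε • cl B s) - 2 * U x) / ε ^ 2)
        (𝓝[>] 0) (𝓝 (∑ s, bil (hess U x) (cl B s) (cl B s))) :=
      tendsto_finsetSum _ fun s _ => second_diff hU x _
    have t2 := t1.eventually (gt_mem_nhds (show _ < 2 * (Fintype.card ι : ℝ) by linarith))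
    set β : ℝ := ∑ a, ∑ s, |B a s| with hβ
    have hβ0 : 0 ≤ β := by positivity
    have t3 : ∀ᶠ ε : ℝ in 𝓝[>] 0, ε / (2 * Fintype.card ι) * β < δ2 / 2 := by
      have : Tendsto (fun ε : ℝ => ε / (2 * Fintype.card ι) * β) (𝓝 0)
          (𝓝 (0 / (2 * Fintype.card ι) * β)) := by
        apply Continuous.tendsto; fun_prop
      rw [zero_div, zero_mul] at this
      exact (this.eventually (gt_mem_nhds (half_pos hδ2))).filter_mono nhdsWithin_le_nhds
    obtain ⟨ε, ⟨e1, e2⟩, hε⟩ := ((t2.and t3).and self_mem_nhdsWithin).exists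
    have hε : 0 < ε := hε
    set D : ℝ := 2 * Fintype.card ι * ε ^ 2 with hD
    set G : (ι → ℝ) → ℝ := fun y => ∑ s, (u (y + ε • cl B s) + u (y - ε • cl B s) - 2 * u y)
      with hG
    have hGc : Continuous fun z => G (x - z) := by
      simp only [hG]
      fun_prop
    have e3 : ∫ z, η z * G (x - z) < D := by
      rw [← sum_div, div_lt_iff₀ (pow_pos hε 2)] at e1
      simp_rw [hsd] at e1
      rw [← integral_finsetSum _ fun s _ => integrable_of_cs hηc hηs (by fun_prop)] at e1
      simp_rw [← mul_sum] at e1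
      exact e1
    have e4 : ∃ z, ‖z‖ < δ2 / 2 ∧ G (x - z) < D := by
      by_contra hcon
      push Not at hcon
      have : ∫ z, η z * D ≤ ∫ z, η z * G (x - z) := by
        refine integral_mono (hηi.mul_const _) (integrable_of_cs hηc hηs hGc) fun z => ?_
        simp only
        by_cases hz : ‖z‖ < δ2 / 2
        · exact mul_le_mul_of_nonneg_left (hcon z hz) (hη0 z)
        · rw [hηz z (not_lt.mp hz)]; simp
      rw [integral_mul_const, hη1, one_mul] at this
      linarith
    obtain ⟨z, hz, hGz⟩ := e4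
    have e5 := hu3 (x - z) B ε D (ρ x - γ) hε (fun s => lt_of_le_of_lt
      (single_le_sum (f := fun s => u (x - z + ε • cl B s) + u (x - z - ε • cl B s) - 2 * u (x - z))
        (fun s _ => hu2 _ _) (mem_univ s)) hGz) (fun t ht => by
      have f1 : ‖B *ᵥ t‖ ≤ ε / (2 * Fintype.card ι) * β := by
        refine (pi_norm_le_iff_of_nonneg (by positivity)).mpr fun a => ?_
        have f2 : |t ⬝ᵥ B a| ≤ ε / (2 * Fintype.card ι) * ∑ s, |B a s| :=
          abs_dot_le _ _ fun i => (norm_le_pi_norm t i).trans (by simpa using ht)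
        rw [dotProduct_comm] at f2
        refine f2.trans (mul_le_mul_of_nonneg_left ?_ (by positivity))
        exact single_le_sum (f := fun a => ∑ s, |B a s|) (fun _ _ => by positivity) (mem_univ a)
      have f3 : dist (x - z + B *ᵥ t) x < δ2 := by
        rw [dist_eq_norm, show x - z + B *ᵥ t - x = B *ᵥ t - z by ring]
        linarith [norm_sub_le (B *ᵥ t) z]
      have f4 := hδ f3
      rw [Real.dist_eq, abs_lt] at f4
      linarith [f4.1])
    have e6 : 4 * D / ε = 8 * (Fintype.card ι : ℝ) ^ 2 * (ε / Fintype.card ι) := by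
      rw [hD]; field_simp; ring
    rw [e6, mul_pow, ← mul_assoc] at e5
    exact le_of_mul_le_mul_right e5 (by positivity)

lemma bil_one (a b : ι → ℝ) : bil (1 : Matrix ι ι ℝ) a b = ∑ i, a i * b i := by
  simp [bil, Matrix.one_apply]

omit [DecidableEq ι] in
lemma bil_madd (A B : Matrix ι ι ℝ) (a b : ι → ℝ) : bil (A + B) a b = bil A a b + bil B a b :=
  bil_add A B a b

omit [DecidableEq ι] in
lemma sum_sq_pos {v : ι → ℝ} (hv : v ≠ 0) : 0 < ∑ i, v i * v i := by
  obtain ⟨i, hi⟩ := Function.ne_iff.mp hv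
  exact sum_pos' (fun i _ => mul_self_nonneg _) ⟨i, mem_univ i, mul_self_pos.mpr hi⟩

lemma det_integral {U : (ι → ℝ) → ℝ} (hU : Sm U) (hpsd : ∀ x v, 0 ≤ bil (hess U x) v v)
    {K R : ℝ} (hK0 : 0 ≤ K) (hR : 0 ≤ R) (hK : ∀ x i, |pd i U x| ≤ K) :
    ∫ x in closedBall (0 : ι → ℝ) R, |(hess U x + 1).det| ≤ (2 * (K + R)) ^ Fintype.card ι := by
  set T : (ι → ℝ) → ι → ℝ := fun x j => pd j U x + x j with hT
  have hd : ∀ x, HasFDerivAt T
      (LinearMap.toContinuousLinearMap (Matrix.toLin' (hess U x + 1)ᵀ)) x := by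
    intro x
    rw [hasFDerivAt_pi']
    intro j
    have h1 := ((hU.pd j).diff x).hasFDerivAt.add
      (ContinuousLinearMap.proj (R := ℝ) (φ := fun _ : ι => ℝ) j).hasFDerivAt
    refine h1.congr_fderiv ?_
    ext v
    simp only [_root_.add_apply, ContinuousLinearMap.proj_apply,
      ContinuousLinearMap.comp_apply, LinearMap.coe_toContinuousLinearMap', Matrix.toLin'_apply,
      transpose_add, transpose_one, add_mulVec, one_mulVec, Pi.add_apply]
    rw [fderiv_eq_sum]
    congr 1
    exact sum_congr rfl fun i _ => mul_comm _ _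
  have hinj : Function.Injective T := by
    intro x x' hx
    by_contra hne
    have hv : x' - x ≠ 0 := sub_ne_zero.mpr (Ne.symm hne)
    set v := x' - x with hvd
    have hmono : StrictMono fun s : ℝ => ∑ j, v j * pd j U (x + s • v) + s * ∑ j, v j * v j := by
      refine strictMono_of_hasDerivAt_pos (f' := fun s => bil (hess U (x + s • v)) v v +
        1 * ∑ j, v j * v j) (fun s => ?_) fun s => ?_
      · exact (hasDerivAt_line2 hU x v v s).add ((hasDerivAt_id s).mul_const _)
      · have := sum_sq_pos hv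
        linarith [hpsd (x + s • v) v]
    have h1 := hmono zero_lt_one
    simp only [zero_smul, add_zero, one_smul, zero_mul, one_mul] at h1
    have h2 : x + v = x' := by rw [hvd]; ring
    rw [h2, ← sum_add_distrib] at h1
    have h3 : ∑ j, (v j * pd j U x' + v j * v j) = ∑ j, v j * pd j U x := by
      refine sum_congr rfl fun j _ => ?_
      have h4 : pd j U x + x j = pd j U x' + x' j := congrFun hx j
      have h5 : v j = x' j - x j := rfl
      rw [← mul_add]; congr 1; linarith
    linarith
  have himg : T '' closedBall 0 R ⊆ closedBall 0 (K + R) := by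
    rintro _ ⟨x, hx, rfl⟩
    rw [mem_closedBall, dist_zero_right] at hx ⊢
    refine (pi_norm_le_iff_of_nonneg (by positivity)).mpr fun j => ?_
    exact (abs_add_le _ _).trans (add_le_add (hK x j) ((norm_le_pi_norm x j).trans hx))
  have h1 := lintegral_abs_det_fderiv_le_addHaar_image volume measurableSet_closedBall
    (fun x (_ : x ∈ closedBall (0 : ι → ℝ) R) => (hd x).hasFDerivWithinAt) hinj.injOn
  have h2 := h1.trans (measure_mono himg)
  rw [Real.volume_pi_closedBall _ (by positivity)] at h2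
  have h3 : ∀ x, (LinearMap.toContinuousLinearMap (Matrix.toLin' (hess U x + 1)ᵀ)).det =
      (hess U x + 1).det := by
    intro x
    rw [ContinuousLinearMap.det, LinearMap.coe_toContinuousLinearMap, LinearMap.det_toLin',
      det_transpose]
  simp_rw [h3] at h2
  have hcont : Continuous fun x => |(hess U x + 1).det| := by
    refine (Continuous.matrix_det (continuous_matrix fun i j => ?_)).abs
    exact ((hU.pd j).pd i).continuous.add continuous_const
  rw [← ofReal_integral_eq_lintegral_ofReal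
    (hcont.continuousOn.integrableOn_compact (isCompact_closedBall _ _))
    (Eventually.of_forall fun x => abs_nonneg _),
    ENNReal.ofReal_le_ofReal_iff (by positivity)] at h2
  exact h2

end

end Pool.Agent.Alesker
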