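import Pool.Agent.Lib.MP_3fa020_gt.Geo

/-!
Slicing and the final estimate (MP_3fa020_gt).
-/

namespace Pool.Agent.Alesker

open Finset Matrix MeasureTheory Filter Topology Metric
open scoped ContDiff

noncomputable section

lemma slice_bound {ι κ : Type} [Fintype ι] [Fintype κ] {Φ : (κ → ℝ) → ℝ}
    (hΦ : ContinuousOn Φ (closedBall 0 2)) (h0 : ∀ x, 0 ≤ Φ x) (V : Matrix κ ι ℝ)
    (hV : ∀ t, ‖t‖ ≤ 1 → ‖V *ᵥ t‖ ≤ 1 / 2) {C : ℝ}
    (hC : ∀ y, ‖y‖ ≤ 3 / 2 → ∫ t in closedBall (0 : ι → ℝ) 1, Φ (y + V *ᵥ t) ≤ C) :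
    ∫⁻ x in closedBall (0 : κ → ℝ) 1, ENNReal.ofReal (Φ x) ≤
      ENNReal.ofReal C * ENNReal.ofReal (3 ^ Fintype.card κ) := by
  classical
  set f : (κ → ℝ) → ENNReal := fun x =>
    ENNReal.ofReal ((closedBall (0 : κ → ℝ) 2).piecewise Φ (fun _ => 0) x) with hf
  have hfm : Measurable f :=
    (hΦ.measurable_piecewise continuousOn_const measurableSet_closedBall).ennreal_ofReal
  have hfe : ∀ x, ‖x‖ ≤ 2 → f x = ENNReal.ofReal (Φ x) := fun x hx => by
    simp only [hf]
    rw [Set.piecewise_eq_of_mem _ _ _ (by simpa using hx)]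
  have hVc : Continuous fun t : ι → ℝ => V *ᵥ t := by
    refine continuous_pi fun i => ?_
    unfold Matrix.mulVec dotProduct
    fun_prop
  set I := ∫⁻ x in closedBall (0 : κ → ℝ) 1, ENNReal.ofReal (Φ x) with hI
  have h1 : ∀ t ∈ closedBall (0 : ι → ℝ) 1,
      I ≤ ∫⁻ y in closedBall (0 : κ → ℝ) (3 / 2), f (y + V *ᵥ t) := by
    intro t ht
    have ht' := hV t (by simpa using ht)
    rw [hI, ← lintegral_indicator measurableSet_closedBall,
      ← lintegral_indicator measurableSet_closedBall, ← lintegral_add_right_eq_self _ (V *ᵥ t)]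
    refine lintegral_mono fun y => ?_
    by_cases hy : y + V *ᵥ t ∈ closedBall (0 : κ → ℝ) 1
    · have hy' : ‖y + V *ᵥ t‖ ≤ 1 := by simpa using hy
      have hy2 : y ∈ closedBall (0 : κ → ℝ) (3 / 2) := by
        rw [mem_closedBall, dist_zero_right]
        have := norm_sub_le (y + V *ᵥ t) (V *ᵥ t)
        rw [add_sub_cancel_right] at this
        linarith
      rw [Set.indicator_of_mem hy, Set.indicator_of_mem hy2, hfe _ (by linarith)]
    · rw [Set.indicator_of_notMem hy]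
      exact zero_le
  have h2 : ∀ y ∈ closedBall (0 : κ → ℝ) (3 / 2),
      ∫⁻ t in closedBall (0 : ι → ℝ) 1, f (y + V *ᵥ t) ≤ ENNReal.ofReal C := by
    intro y hy
    have hy' : ‖y‖ ≤ 3 / 2 := by simpa using hy
    have hin : ∀ t ∈ closedBall (0 : ι → ℝ) 1, ‖y + V *ᵥ t‖ ≤ 2 := fun t ht => by
      linarith [norm_add_le y (V *ᵥ t), hV t (by simpa using ht)]
    rw [setLIntegral_congr_fun measurableSet_closedBall fun t ht => hfe _ (hin t ht),
      ← ofReal_integral_eq_lintegral_ofReal ?_ (Eventually.of_forall fun t => h0 _)]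
    · exact ENNReal.ofReal_le_ofReal (hC y hy')
    · refine ContinuousOn.integrableOn_compact (isCompact_closedBall _ _) ?_
      exact hΦ.comp (continuous_const.add hVc).continuousOn fun t ht => by simpa using hin t ht
  have h3 : (1 : ENNReal) ≤ volume (closedBall (0 : ι → ℝ) 1) := by
    rw [Real.volume_pi_closedBall _ zero_le_one, ENNReal.one_le_ofReal]
    exact one_le_pow₀ (by norm_num)
  calc I ≤ I * volume (closedBall (0 : ι → ℝ) 1) := le_mul_of_one_le_right' h3
    _ = ∫⁻ _t in closedBall (0 : ι → ℝ) 1, I := (setLIntegral_const _ _).symm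
    _ ≤ ∫⁻ t in closedBall (0 : ι → ℝ) 1, ∫⁻ y in closedBall (0 : κ → ℝ) (3 / 2),
        f (y + V *ᵥ t) := setLIntegral_mono' measurableSet_closedBall h1
    _ = ∫⁻ y in closedBall (0 : κ → ℝ) (3 / 2), ∫⁻ t in closedBall (0 : ι → ℝ) 1,
        f (y + V *ᵥ t) := by
      refine lintegral_lintegral_swap (Measurable.aemeasurable ?_)
      exact hfm.comp (continuous_snd.add (hVc.comp continuous_fst)).measurable
    _ ≤ ∫⁻ _y in closedBall (0 : κ → ℝ) (3 / 2), ENNReal.ofReal C :=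
      setLIntegral_mono' measurableSet_closedBall h2
    _ = _ := by
      rw [setLIntegral_const, Real.volume_pi_closedBall _ (by norm_num)]
      norm_num

variable {n : ℕ} {g : (Fin n → ℝ) → Matrix (Fin n) (Fin n) ℝ}

lemma pd_bil_affine {ι : Type} [Fintype ι] [DecidableEq ι] {G : Fin n → Fin n → (Fin n → ℝ) → ℝ}
    (hG : ∀ j l, Sm (G j l)) (y : Fin n → ℝ) (V : Matrix (Fin n) ι ℝ) (u w : Fin n → ℝ) (c : ι)
    (t : ι → ℝ) :
    pd c (fun t => bil (fun j l => G j l (y + V *ᵥ t)) u w) t =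
      ∑ k, V k c * bil (fun j l => pd k (G j l) (y + V *ᵥ t)) u w := by
  unfold bil
  have h1 : ∀ j l, Sm fun t : ι → ℝ => G j l (y + V *ᵥ t) * u j * w l := fun j l =>
    ((sm_affine (hG j l) y V).mul contDiff_const).mul contDiff_const
  rw [pd_sum _ fun j _ => ContDiff.sum fun l _ => h1 j l]
  have h2 : ∀ j l, pd c (fun t : ι → ℝ => G j l (y + V *ᵥ t) * u j * w l) t =
      ∑ k, V k c * (pd k (G j l) (y + V *ᵥ t) * u j * w l) := by
    intro j l
    have : (fun t : ι → ℝ => G j l (y + V *ᵥ t) * u j * w l) =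
        fun t => (u j * w l) * G j l (y + V *ᵥ t) := funext fun t => by ring
    rw [this, pd_const_mul (sm_affine (hG j l) y V), pd_affine (hG j l), mul_sum]
    exact sum_congr rfl fun k _ => by ring
  simp_rw [pd_sum _ fun l _ => h1 _ l, h2, mul_sum]
  calc ∑ j, ∑ l, ∑ k, V k c * (pd k (G j l) (y + V *ᵥ t) * u j * w l)
      = ∑ j, ∑ k, ∑ l, V k c * (pd k (G j l) (y + V *ᵥ t) * u j * w l) :=
        sum_congr rfl fun j _ => sum_comm
    _ = _ := sum_comm

lemma sm_bil_affine {ι : Type} [Fintype ι] {G : Fin n → Fin n → (Fin n → ℝ) → ℝ}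
    (hG : ∀ j l, Sm (G j l)) (y : Fin n → ℝ) (V : Matrix (Fin n) ι ℝ) (u w : Fin n → ℝ) :
    Sm fun t => bil (fun j l => G j l (y + V *ᵥ t)) u w :=
  ContDiff.sum fun j _ => ContDiff.sum fun l _ =>
    ((sm_affine (hG j l) y V).mul contDiff_const).mul contDiff_const

lemma Zl_slice {ι : Type} [Fintype ι] [DecidableEq ι] (hs : SmSym g) (y : Fin n → ℝ)
    (V : Matrix (Fin n) ι ℝ) (t : ι → ℝ) :
    Zl (fun a b t => bil (g (y + V *ᵥ t)) (cl V a) (cl V b)) t =
      fun a b c d => q4 (Zg g (y + V *ᵥ t)) (cl V a) (cl V b) (cl V c) (cl V d) := by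
  funext a b c d
  unfold Zl
  have e : pd c (fun t => bil (g (y + V *ᵥ t)) (cl V b) (cl V d)) = fun t =>
      ∑ k, V k c * bil (fun j l => pd k (fun y => g y j l) (y + V *ᵥ t)) (cl V b) (cl V d) :=
    funext fun t => pd_bil_affine (G := fun j l y => g y j l) hs.sm y V _ _ c t
  rw [e, pd_sum _ fun k _ => contDiff_const.mul
    (sm_bil_affine (G := fun j l => pd k fun y => g y j l) (fun j l => (hs.sm j l).pd k) y V _ _)]
  have e2 : ∀ k, pd a (fun t => V k c *
      bil (fun j l => pd k (fun y => g y j l) (y + V *ᵥ t)) (cl V b) (cl V d)) t =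
      V k c * ∑ i, V i a * bil (fun j l => Zg g (y + V *ᵥ t) i j k l) (cl V b) (cl V d) := by
    intro k
    rw [pd_const_mul (sm_bil_affine (G := fun j l => pd k fun y => g y j l)
      (fun j l => (hs.sm j l).pd k) y V _ _),
      pd_bil_affine (G := fun j l => pd k fun y => g y j l) (fun j l => (hs.sm j l).pd k)]
    rfl
  simp_rw [e2]
  rw [q4_swap23, q4_left]
  conv_rhs => unfold bil
  rw [sum_comm]
  refine sum_congr rfl fun k _ => ?_
  rw [mul_sum]
  refine sum_congr rfl fun i _ => ?_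
  unfold bil cl
  ring

lemma continuousOn_D2 {k : ℕ} (hs : SmSym g) {Λ : ℝ} (hΛ : 0 < Λ)
    (hg : ∀ x, ‖x‖ ≤ 2 → Good g Λ x) (V : Matrix (Fin n) (Fin k × Fin 2) ℝ) :
    ContinuousOn (fun x => |D2 (TR (Rm g x)) V V|) (closedBall 0 2) := by
  intro x hx
  refine ContinuousAt.continuousWithinAt (ContinuousAt.abs ?_)
  have h1 := hs.continuousAt_Rm ((hg x (by simpa using hx)).det_ne hs hΛ)
  unfold D2 TR q4
  refine tendsto_finsetSum _ fun σ _ => tendsto_finsetSum _ fun τ _ =>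
    Tendsto.const_mul _ (tendsto_finsetProd _ fun r _ => tendsto_finsetSum _ fun i _ =>
      tendsto_finsetSum _ fun j _ => tendsto_finsetSum _ fun l _ => tendsto_finsetSum _ fun p _ =>
        ((((h1 i j l p).mul_const _).mul_const _).mul_const _).mul_const _)

lemma grid_bound (n k : ℕ) (hk : 1 ≤ k) {Λ : ℝ} (hΛ : 0 < Λ) :
    ∃ θ C : ℝ, 0 < θ ∧ 0 ≤ C ∧ ∀ g : (Fin n → ℝ) → Matrix (Fin n) (Fin n) ℝ, SmSym g →
      (∀ x, ‖x‖ ≤ 2 → Good g Λ x) → ∀ a : Fin k × Fin 2 → Fin n × Fin n,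
      ∫⁻ x in closedBall (0 : Fin n → ℝ) 1,
        ENNReal.ofReal |D2 (TR (Rm g x)) (gridM θ a) (gridM θ a)| ≤ ENNReal.ofReal C := by
  set m : ℕ := Fintype.card (Fin k × Fin 2) with hm
  set i0 : Fin k × Fin 2 := (⟨0, hk⟩, 0) with hi0
  set i1 : Fin k × Fin 2 := (⟨0, hk⟩, 1) with hi1
  have h01 : i0 ≠ i1 := by simp [hi0, hi1]
  have hm0 : (1 : ℝ) ≤ m := by
    have : 0 < m := Fintype.card_pos_iff.mpr ⟨i0⟩
    exact_mod_cast this
  have hc0 := c0_nonneg (n := n) hΛ
  obtain ⟨C, hC⟩ := core h01 hk (Λ := Λ * n * n) (c := c0 n Λ * (n * m) ^ 2)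
    (C1 := (m.factorial : ℝ) ^ 2 * 8 ^ k) (by positivity) (by positivity) (by positivity)
  refine ⟨1 / (12 * m), |C| * 3 ^ n, by positivity, by positivity, fun g hs hg a => ?_⟩
  set V : Matrix (Fin n) (Fin k × Fin 2) ℝ := gridM (1 / (12 * m)) a with hV
  have hV1 : ∀ i s, |V i s| ≤ 1 / (6 * m) := by
    intro i s
    have e : ∀ p : Fin n, 0 ≤ (Pi.single p 1 : Fin n → ℝ) i ∧ (Pi.single p 1 : Fin n → ℝ) i ≤ 1 := by
      intro p
      rw [Pi.single_apply]
      split_ifs <;> norm_num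
    simp only [hV, gridM, Matrix.of_apply]
    have e1 := e (a s).1
    have e2 := e (a s).2
    rw [abs_of_nonneg (mul_nonneg (by positivity) (by linarith))]
    calc _ ≤ 1 / (12 * (m : ℝ)) * 2 := mul_le_mul_of_nonneg_left (by linarith) (by positivity)
      _ = _ := by field_simp; norm_num
  have hV2 : ∀ i s, |V i s| ≤ 1 := fun i s => (hV1 i s).trans (by
    rw [div_le_one (by positivity)]; linarith)
  have hV3 : ∀ t, ‖t‖ ≤ 3 → ‖V *ᵥ t‖ ≤ 1 / 2 := by
    intro t ht
    refine (pi_norm_le_iff_of_nonneg (by norm_num)).mpr fun i => ?_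
    have e1 : |t ⬝ᵥ V i| ≤ 3 * ∑ s, |V i s| :=
      abs_dot_le _ _ fun s => (norm_le_pi_norm t s).trans ht
    have e2 := sum_le_card_nsmul univ _ _ fun s _ => hV1 i s
    rw [card_univ, nsmul_eq_mul, ← hm] at e2
    have e3 : (m : ℝ) * (1 / (6 * m)) = 1 / 6 := by field_simp
    rw [dotProduct_comm] at e1
    exact e1.trans (by linarith)
  have hcont := continuousOn_D2 hs hΛ hg V
  have hVc : Continuous fun t : Fin k × Fin 2 → ℝ => V *ᵥ t := by
    refine continuous_pi fun i => ?_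
    unfold Matrix.mulVec dotProduct
    fun_prop
  have key := slice_bound hcont (fun _ => abs_nonneg _) V (fun t ht => hV3 t (by linarith))
    (C := |C|) fun y hy => by
    have hin : ∀ t, ‖t‖ ≤ 3 → ‖y + V *ᵥ t‖ ≤ 2 := fun t ht => by
      linarith [norm_add_le y (V *ᵥ t), hV3 t ht]
    refine le_trans (hC (fun a b t => bil (g (y + V *ᵥ t)) (cl V a) (cl V b))
      (fun t => |D2 (TR (Rm g (y + V *ᵥ t))) V V|)
      (fun a b => sm_bil_affine (G := fun j l y => g y j l) hs.sm y V _ _) (fun a b t ht => ?_)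
      (hcont.comp (continuous_const.add hVc).continuousOn fun t ht => by
        simpa using hin t (by simpa using ht))
      (fun _ => abs_nonneg _) fun t ht B => ?_) (le_abs_self C)
    · refine (abs_bil_le ((hg _ (hin t ht)).entry hs hΛ) _ _).trans ?_
      have e : ∀ s, ∑ i, |cl V s i| ≤ n := fun s => by
        have := sum_le_card_nsmul univ _ _ fun i _ => hV2 i s
        rwa [card_univ, Fintype.card_fin, nsmul_eq_mul, mul_one] at this
      have := e a; have := e b
      gcongr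
    · obtain ⟨k1, k2⟩ := (hg _ (hin t ht)).key hs hΛ
      rw [Zl_slice hs]
      set x := y + V *ᵥ t with hx
      have e1 : ∀ s, V *ᵥ cl B s = cl (V * B) s := fun s => rfl
      set T : Fin k × Fin 2 → Fin k × Fin 2 → ℝ := fun p q =>
        ql (fun a b c d => q4 (Zg g x) (cl V a) (cl V b) (cl V c) (cl V d)) (cl B p) (cl B q) +
          c0 n Λ * (n * m) ^ 2 * (nsq (cl B p) * nsq (cl B q)) with hT
      have e2 : ∀ p q, ql (Zg g x) (cl (V * B) p) (cl (V * B) q) +
          c0 n Λ * (nsq (cl (V * B) p) * nsq (cl (V * B) q)) ≤ T p q := by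
        intro p q
        simp only [hT, ql, q4_comp, e1]
        have a1 := nsq_mulVec_le hV2 (cl B p)
        have a2 := nsq_mulVec_le hV2 (cl B q)
        rw [e1, Fintype.card_fin, ← hm] at a1 a2
        have a3 := mul_le_mul_of_nonneg_left (mul_le_mul a1 a2 (nsq_nonneg _)
          (mul_nonneg (by positivity) (nsq_nonneg _))) hc0
        linarith
      have e3 : ∀ p q, 0 ≤ T p q := fun p q => (k1 _ _).trans (e2 p q)
      have e4 : 0 ≤ ∑ σ : Equiv.Perm (Fin k × Fin 2), T (σ i0) (σ i1) :=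
        sum_nonneg fun σ _ => e3 _ _
      refine ⟨e4, ?_⟩
      have e5 := k2 (cl (V * B)) _ e4 fun p q hpq => by
        obtain ⟨σ, rfl, rfl⟩ := exists_perm_pair h01 hpq
        exact (e2 _ _).trans (single_le_sum (f := fun σ : Equiv.Perm (Fin k × Fin 2) =>
          T (σ i0) (σ i1)) (fun σ _ => e3 _ _) (mem_univ σ))
      have e6 := abs_D2_TR_le (Rm g x) (V * B) e5
      rw [(TR_ML2 (Rm g x)).cov, abs_mul, abs_of_nonneg (sq_nonneg _), mul_pow, ← mul_assoc,
        mul_comm] at e6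
      exact e6
  rwa [← ENNReal.ofReal_mul (abs_nonneg _), Fintype.card_fin] at key

theorem main (n k : ℕ) (hk : 1 ≤ k) {Λ : ℝ} (hΛ : 0 < Λ) :
    ∃ C : ℝ, ∀ g : (Fin n → ℝ) → Matrix (Fin n) (Fin n) ℝ, SmSym g →
      (∀ x, ‖x‖ ≤ 2 → Good g Λ x) →
      ∫⁻ x in closedBall (0 : Fin n → ℝ) 1, ENNReal.ofReal (|lk k g x| * √(g x).det) ≤
        ENNReal.ofReal C := by
  obtain ⟨θ, C, hθ, hC0, hC⟩ := grid_bound n k hk hΛ
  set C6 : ℝ := (n : ℝ) ^ Fintype.card (Fin k × Fin 2) *
    ((n : ℝ) ^ 2 * (Λ + 1) ^ 2 / θ ^ 2) ^ Fintype.card (Fin k × Fin 2) *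
      √(n.factorial * Λ ^ n) with hC6
  have hC60 : 0 ≤ C6 := by positivity
  refine ⟨C6 * (Fintype.card (Fin k × Fin 2 → Fin n × Fin n) * C), fun g hs hg => ?_⟩
  calc _ ≤ ∫⁻ x in closedBall (0 : Fin n → ℝ) 1, ENNReal.ofReal C6 *
        ∑ a : Fin k × Fin 2 → Fin n × Fin n,
          ENNReal.ofReal |D2 (TR (Rm g x)) (gridM θ a) (gridM θ a)| := by
        refine setLIntegral_mono' measurableSet_closedBall fun x hx => ?_
        have hx' : ‖x‖ ≤ 2 := by
          have : ‖x‖ ≤ 1 := by simpa using hx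
          linarith
        rw [← ENNReal.ofReal_sum_of_nonneg fun _ _ => abs_nonneg _, ← ENNReal.ofReal_mul hC60]
        refine ENNReal.ofReal_le_ofReal ?_
        have e1 := (hg x hx').lk_le hs hΛ k hθ
        have e2 := Real.sqrt_le_sqrt ((hg x hx').det_le hs hΛ)
        refine (mul_le_mul e1 e2 (Real.sqrt_nonneg _) (by positivity)).trans (le_of_eq ?_)
        rw [hC6]
        ring
    _ ≤ ENNReal.ofReal C6 * ∑ _a : Fin k × Fin 2 → Fin n × Fin n, ENNReal.ofReal C := by
        rw [lintegral_const_mul' _ _ ENNReal.ofReal_ne_top, lintegral_finsetSum']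
        · exact mul_le_mul_right (sum_le_sum fun a _ => hC g hs hg a) _
        · intro a _
          exact (((continuousOn_D2 hs hΛ hg _).mono
            (closedBall_subset_closedBall (by norm_num))).aemeasurable
              measurableSet_closedBall).ennreal_ofReal
    _ = _ := by
        rw [sum_const, card_univ, nsmul_eq_mul, ← ENNReal.ofReal_natCast,
          ← ENNReal.ofReal_mul (Nat.cast_nonneg _), ← ENNReal.ofReal_mul hC60]

theorem main_all (n k : ℕ) {Λ : ℝ} (hΛ : 0 < Λ) :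
    ∃ C : ℝ, ∀ g : (Fin n → ℝ) → Matrix (Fin n) (Fin n) ℝ, SmSym g →
      (∀ x, ‖x‖ ≤ 2 → Good g Λ x) →
      ∫⁻ x in closedBall (0 : Fin n → ℝ) 1, ENNReal.ofReal (|lk k g x| * √(g x).det) ≤
        ENNReal.ofReal C := by
  rcases Nat.eq_zero_or_pos k with rfl | hk
  · refine ⟨√(n.factorial * Λ ^ n) * 2 ^ n, fun g hs hg => ?_⟩
    calc _ ≤ ∫⁻ _x in closedBall (0 : Fin n → ℝ) 1, ENNReal.ofReal √(n.factorial * Λ ^ n) := by
          refine setLIntegral_mono' measurableSet_closedBall fun x hx => ?_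
          have hx' : ‖x‖ ≤ 2 := by
            have : ‖x‖ ≤ 1 := by simpa using hx
            linarith
          have e : lk 0 g x = 1 := by simp [lk]
          rw [e, abs_one, one_mul]
          exact ENNReal.ofReal_le_ofReal (Real.sqrt_le_sqrt ((hg x hx').det_le hs hΛ))
      _ = _ := by
          rw [setLIntegral_const, Real.volume_pi_closedBall _ zero_le_one,
            ← ENNReal.ofReal_mul (Real.sqrt_nonneg _)]
          simp
  · exact main n k hk hΛ

end

end Pool.Agent.Alesker
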