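import Pool.Agent.Lib.MP_3fa020_gt.Calc

/-!
Semi-discrete optimal transport and the second difference inequality (MP_3fa020_gt).
-/

namespace Pool.Agent.Alesker

open Finset Matrix MeasureTheory Filter Topology Metric

noncomputable section

variable {ι : Type} [Fintype ι]

section Hall
variable {Γ : Type} [Fintype Γ] [Nonempty Γ] (p : Γ → ι → ℝ)

/-- maximum of affine functions -/
def umax (ψ : Γ → ℝ) (x : ι → ℝ) : ℝ := univ.sup' univ_nonempty fun j => p j ⬝ᵥ x - ψ j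

lemma le_umax (ψ : Γ → ℝ) (x : ι → ℝ) (j : Γ) : p j ⬝ᵥ x - ψ j ≤ umax p ψ x :=
  le_sup' (fun j => p j ⬝ᵥ x - ψ j) (mem_univ j)

lemma umax_le {ψ : Γ → ℝ} {x : ι → ℝ} {c : ℝ} (h : ∀ j, p j ⬝ᵥ x - ψ j ≤ c) : umax p ψ x ≤ c :=
  sup'_le _ _ fun j _ => h j

lemma exists_umax (ψ : Γ → ℝ) (x : ι → ℝ) : ∃ j, umax p ψ x = p j ⬝ᵥ x - ψ j := by
  obtain ⟨j, _, hj⟩ := exists_mem_eq_sup' univ_nonempty fun j => p j ⬝ᵥ x - ψ j
  exact ⟨j, hj⟩

lemma continuous_dot (q : ι → ℝ) : Continuous fun x : ι → ℝ => q ⬝ᵥ x := by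
  unfold dotProduct; fun_prop

lemma continuous_umax (ψ : Γ → ℝ) : Continuous (umax p ψ) :=
  Continuous.finset_sup'_apply univ_nonempty fun j _ => (continuous_dot (p j)).sub continuous_const

lemma umax_lip (ψ ψ' : Γ → ℝ) (x : ι → ℝ) : |umax p ψ x - umax p ψ' x| ≤ ‖ψ - ψ'‖ := by
  have key : ∀ ψ ψ' : Γ → ℝ, umax p ψ x ≤ umax p ψ' x + ‖ψ - ψ'‖ := by
    intro ψ ψ'
    refine umax_le p fun j => ?_
    have h1 := le_umax p ψ' x j
    have h2 : |ψ j - ψ' j| ≤ ‖ψ - ψ'‖ := norm_le_pi_norm (ψ - ψ') j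
    linarith [neg_abs_le (ψ j - ψ' j)]
  have h1 := key ψ ψ'
  have h2 := key ψ' ψ
  rw [norm_sub_rev] at h2
  rw [_root_.abs_le]; constructor <;> linarith

lemma hall {ρ : (ι → ℝ) → ℝ} (hρ : Continuous ρ) (hc : HasCompactSupport ρ) (h0 : ∀ x, 0 ≤ ρ x)
    (h1 : ∫ x, ρ x = 1) : ∃ ψ : Γ → ℝ, ∀ S : Set (ι → ℝ), IsCompact S → ∀ J : Finset Γ,
      (∀ x ∈ S, ∀ j, umax p ψ x = p j ⬝ᵥ x - ψ j → j ∈ J) →
      ∫ x in S, ρ x ≤ 2 * J.card / Fintype.card Γ := by
  classical
  set N : ℝ := (Fintype.card Γ : ℝ) with hN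
  have hN0 : 0 < N := by rw [hN]; exact_mod_cast Fintype.card_pos
  have hint : ∀ ψ, Integrable fun x => ρ x * umax p ψ x :=
    fun ψ => integrable_of_cs hρ hc (continuous_umax p ψ)
  have hρi : Integrable ρ := hρ.integrable_of_hasCompactSupport hc
  set Ψ : (Γ → ℝ) → ℝ := fun ψ => (∫ x, ρ x * umax p ψ x) + 2 / N * ∑ j, ψ j with hΨ
  have hΨc : Continuous Ψ := by
    refine Continuous.add ?_ (by fun_prop)
    refine (LipschitzWith.of_dist_le_mul (K := 1) fun ψ ψ' => ?_).continuous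
    rw [Real.dist_eq, ← integral_sub (hint ψ) (hint ψ'), dist_eq_norm]
    have : ‖∫ x, ρ x * umax p ψ x - ρ x * umax p ψ' x‖ ≤ ∫ x, ρ x * ‖ψ - ψ'‖ := by
      refine norm_integral_le_of_norm_le (hρi.mul_const _) (Eventually.of_forall fun x => ?_)
      rw [← mul_sub, Real.norm_eq_abs, abs_mul, abs_of_nonneg (h0 x)]
      exact mul_le_mul_of_nonneg_left (umax_lip p ψ ψ' x) (h0 x)
    rw [integral_mul_const, h1] at this
    simpa using this
  set C : ℝ := ∑ j, |∫ x, ρ x * (p j ⬝ᵥ x)| with hC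
  have hlow : ∀ ψ, -C + 1 / N * ∑ j, ψ j ≤ Ψ ψ := by
    intro ψ
    obtain ⟨j0, -, hj0⟩ := exists_min_image univ ψ univ_nonempty
    have e1 : N * ψ j0 ≤ ∑ j, ψ j := by
      have := card_nsmul_le_sum univ ψ (ψ j0) hj0
      simpa using this
    have e2 : ψ j0 ≤ 1 / N * ∑ j, ψ j := by
      rw [one_div, ← div_eq_inv_mul, le_div_iff₀ hN0]; linarith
    have i1 : Integrable fun x => ρ x * (p j0 ⬝ᵥ x) :=
      integrable_of_cs hρ hc (continuous_dot _)
    have e3 : ∫ x, (ρ x * (p j0 ⬝ᵥ x) - ρ x * ψ j0) ≤ ∫ x, ρ x * umax p ψ x := by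
      refine integral_mono (i1.sub (hρi.mul_const _)) (hint ψ) fun x => ?_
      simp only
      rw [← mul_sub]
      exact mul_le_mul_of_nonneg_left (le_umax p ψ x j0) (h0 x)
    rw [integral_sub i1 (hρi.mul_const _), integral_mul_const, h1] at e3
    have e4 : |∫ x, ρ x * (p j0 ⬝ᵥ x)| ≤ C :=
      single_le_sum (f := fun j => |∫ x, ρ x * (p j ⬝ᵥ x)|) (fun _ _ => abs_nonneg _) (mem_univ j0)
    have e5 : 2 / N * ∑ j, ψ j = 2 * (1 / N * ∑ j, ψ j) := by ring
    simp only [hΨ]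
    linarith [neg_abs_le (∫ x, ρ x * (p j0 ⬝ᵥ x))]
  set K : ℝ := N * (Ψ 0 + C) + 1 with hK
  have hK0 : 0 ≤ Ψ 0 + C := by
    have := hlow 0
    simp at this
    linarith
  have hmem0 : (0 : Γ → ℝ) ∈ Set.Icc (0 : Γ → ℝ) (fun _ => K) :=
    ⟨le_rfl, fun _ => by simp only [Pi.zero_apply, hK]; positivity⟩
  obtain ⟨ψ, hψ, hmin⟩ := (isCompact_Icc (a := (0 : Γ → ℝ)) (b := fun _ => K)).exists_isMinOn
    ⟨0, hmem0⟩ hΨc.continuousOn
  have hψK : ∀ j, ψ j + 1 ≤ K := by
    intro j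
    have e1 : Ψ ψ ≤ Ψ 0 := hmin hmem0
    have e2 := hlow ψ
    have e3 : ψ j ≤ ∑ j, ψ j := single_le_sum (f := ψ) (fun i _ => hψ.1 i) (mem_univ j)
    have e4 : 1 / N * ∑ j, ψ j ≤ Ψ 0 + C := by linarith
    rw [one_div, ← div_eq_inv_mul, div_le_iff₀ hN0] at e4
    rw [hK]; linarith
  refine ⟨ψ, fun S hS J hJ => ?_⟩
  have hgap : ∀ j, ∃ t : ℝ, 0 < t ∧ (j ∉ J → ∀ x ∈ S, t ≤ umax p ψ x - (p j ⬝ᵥ x - ψ j)) := by
    intro j
    by_cases hj : j ∈ J
    · exact ⟨1, one_pos, fun h => absurd hj h⟩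
    · have hcont : ContinuousOn (fun x => umax p ψ x - (p j ⬝ᵥ x - ψ j)) S :=
        ((continuous_umax p ψ).sub ((continuous_dot _).sub continuous_const)).continuousOn
      obtain ⟨t, ht, h⟩ := hS.exists_forall_le' hcont (a := 0) fun x hx => by
        have e1 := le_umax p ψ x j
        have e2 : umax p ψ x ≠ p j ⬝ᵥ x - ψ j := fun e => hj (hJ x hx j e)
        exact sub_pos.mpr (lt_of_le_of_ne e1 e2.symm)
      exact ⟨t, ht, fun _ => h⟩
  choose T hT0 hT using hgap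
  obtain ⟨j1, -, hj1⟩ := exists_min_image univ T univ_nonempty
  set t : ℝ := min 1 (T j1) with ht
  have ht0 : 0 < t := lt_min one_pos (hT0 j1)
  have ht1 : t ≤ 1 := min_le_left _ _
  have htT : ∀ j, t ≤ T j := fun j => (min_le_right _ _).trans (hj1 j (mem_univ j))
  set ψ' : Γ → ℝ := fun j => ψ j + if j ∈ J then t else 0 with hψ'
  have hmem : ψ' ∈ Set.Icc (0 : Γ → ℝ) (fun _ => K) := by
    constructor
    · intro j
      have := hψ.1 j
      simp only [Pi.zero_apply, hψ'] at this ⊢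
      split_ifs <;> linarith
    · intro j
      have := hψK j
      simp only [hψ']
      split_ifs <;> linarith
  have e1 : Ψ ψ ≤ Ψ ψ' := hmin hmem
  have e2 : ∑ j, ψ' j = ∑ j, ψ j + t * J.card := by
    simp only [hψ', sum_add_distrib]
    rw [← sum_filter]
    simp [mul_comm]
  have hSm : MeasurableSet S := hS.measurableSet
  have i2 : Integrable (S.indicator ρ) := hρi.indicator hSm
  have e3 : ∫ x, ρ x * umax p ψ' x ≤ ∫ x, (ρ x * umax p ψ x - t * S.indicator ρ x) := by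
    refine integral_mono (hint ψ') ((hint ψ).sub (i2.const_mul t)) fun x => ?_
    simp only
    by_cases hx : x ∈ S
    · rw [Set.indicator_of_mem hx, mul_comm t, ← mul_sub]
      refine mul_le_mul_of_nonneg_left (umax_le p fun j => ?_) (h0 x)
      simp only [hψ']
      split_ifs with hj
      · linarith [le_umax p ψ x j]
      · linarith [hT j hj x hx, htT j]
    · rw [Set.indicator_of_notMem hx, mul_zero, sub_zero]
      refine mul_le_mul_of_nonneg_left (umax_le p fun j => ?_) (h0 x)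
      simp only [hψ']
      split_ifs with hj <;> linarith [le_umax p ψ x j]
  rw [integral_sub (hint ψ) (i2.const_mul t), integral_const_mul, integral_indicator hSm] at e3
  simp only [hΨ] at e1
  rw [e2] at e1
  have e4 : t * ∫ x in S, ρ x ≤ t * (2 * J.card / N) := by
    have : 2 / N * (∑ j, ψ j + t * J.card) = 2 / N * ∑ j, ψ j + t * (2 * J.card / N) := by ring
    linarith
  exact le_of_mul_le_mul_left e4 ht0

end Hall

section Grid
variable [DecidableEq ι]

/-- grid points in the unit cube -/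
def pg (L : ℕ) (j : ι → Fin L) : ι → ℝ := fun i => ((j i : ℕ) : ℝ) / L

omit [DecidableEq ι] in
lemma abs_dot_le (z w : ι → ℝ) {δ : ℝ} (h : ∀ i, |z i| ≤ δ) : |z ⬝ᵥ w| ≤ δ * ∑ a, |w a| := by
  unfold dotProduct
  rw [mul_sum]
  refine (abs_sum_le_sum_abs _ _).trans (sum_le_sum fun i _ => ?_)
  rw [abs_mul]
  exact mul_le_mul_of_nonneg_right (h i) (abs_nonneg _)

lemma grid_count {L : ℕ} (hL : 0 < L) (q : ι → ℝ) (b : Matrix ι ι ℝ) {r β : ℝ} (hr : 0 ≤ r)
    (hβ0 : 0 ≤ β) (hβ : ∀ s, ∑ a, |b a s| ≤ β) (J : Finset (ι → Fin L))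
    (hJ : ∀ j ∈ J, ∀ s, |(pg L j - q) ⬝ᵥ cl b s| ≤ r) :
    (J.card : ℝ) / (L : ℝ) ^ Fintype.card ι * |b.det| ≤
      (2 * (r + β / L)) ^ Fintype.card ι := by
  have hL' : (0 : ℝ) < L := by exact_mod_cast hL
  have hr' : 0 ≤ r + β / L := by positivity
  by_cases hd : b.det = 0
  · rw [hd, abs_zero, mul_zero]; positivity
  set cell : (ι → Fin L) → Set (ι → ℝ) := fun j =>
    Set.pi Set.univ fun i => Set.Ico (((j i : ℕ) : ℝ) / L) ((((j i : ℕ) : ℝ) + 1) / L) with hcell
  have hdis : Set.PairwiseDisjoint (J : Set (ι → Fin L)) cell := by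
    intro j _ j' _ hne
    rw [Function.onFun, Set.disjoint_left]
    intro z hz hz'
    apply hne
    funext i
    have h1 := hz i (Set.mem_univ i)
    have h2 := hz' i (Set.mem_univ i)
    have h3 : ((j i : ℕ) : ℝ) / L < (((j' i : ℕ) : ℝ) + 1) / L := h1.1.trans_lt h2.2
    have h4 : ((j' i : ℕ) : ℝ) / L < (((j i : ℕ) : ℝ) + 1) / L := h2.1.trans_lt h1.2
    rw [div_lt_div_iff_of_pos_right hL'] at h3 h4
    have h5 : (j i : ℕ) < (j' i : ℕ) + 1 := by exact_mod_cast h3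
    have h6 : (j' i : ℕ) < (j i : ℕ) + 1 := by exact_mod_cast h4
    exact Fin.ext (by omega)
  have hmeas : ∀ j ∈ J, MeasurableSet (cell j) :=
    fun j _ => MeasurableSet.univ_pi fun i => measurableSet_Ico
  have hvol : ∀ j, volume (cell j) = ENNReal.ofReal (1 / (L : ℝ) ^ Fintype.card ι) := by
    intro j
    rw [hcell]
    simp only
    rw [Real.volume_pi_Ico]
    have : ∀ i, (((j i : ℕ) : ℝ) + 1) / L - ((j i : ℕ) : ℝ) / L = 1 / L := fun i => by ring
    simp_rw [this]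
    rw [prod_const, card_univ, ← ENNReal.ofReal_pow (by positivity), _root_.one_div_pow]
  have hsub : (⋃ j ∈ J, cell j) ⊆ Matrix.toLin' bᵀ ⁻¹' closedBall (bᵀ *ᵥ q) (r + β / L) := by
    intro z hz
    simp only [Set.mem_iUnion] at hz
    obtain ⟨j, hj, hz⟩ := hz
    rw [Set.mem_preimage, mem_closedBall, dist_pi_le_iff hr']
    intro s
    have e1 : (Matrix.toLin' bᵀ z) s - (bᵀ *ᵥ q) s =
        (pg L j - q) ⬝ᵥ cl b s + (z - pg L j) ⬝ᵥ cl b s := by
      rw [← add_dotProduct, Matrix.toLin'_apply, ← Pi.sub_apply, ← Matrix.mulVec_sub,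
        dotProduct_comm]
      have : pg L j - q + (z - pg L j) = z - q := by ring
      rw [this]; rfl
    have e2 : |(z - pg L j) ⬝ᵥ cl b s| ≤ 1 / L * ∑ a, |cl b s a| := by
      refine abs_dot_le _ _ fun i => ?_
      have h1 := hz i (Set.mem_univ i)
      simp only [Pi.sub_apply, pg]
      rw [abs_of_nonneg (sub_nonneg.mpr h1.1)]
      have := h1.2
      rw [add_div] at this
      linarith
    have e3 : 1 / (L : ℝ) * ∑ a, |cl b s a| ≤ β / L := by
      rw [one_div, ← div_eq_inv_mul]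
      exact div_le_div_of_nonneg_right (hβ s) hL'.le
    rw [Real.dist_eq, e1]
    exact (abs_add_le _ _).trans (add_le_add (hJ j hj s) (e2.trans e3))
  have hle := measure_mono (μ := volume) hsub
  have hdet : LinearMap.det (Matrix.toLin' bᵀ) = b.det := by
    rw [LinearMap.det_toLin', det_transpose]
  rw [measure_biUnion_finset hdis hmeas, Measure.addHaar_preimage_linearMap _ (by rwa [hdet]),
    hdet, Real.volume_pi_closedBall _ hr'] at hle
  simp_rw [hvol] at hle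
  rw [sum_const, nsmul_eq_mul, ← ENNReal.ofReal_natCast, ← ENNReal.ofReal_mul (by positivity),
    ← ENNReal.ofReal_mul (by positivity), ENNReal.ofReal_le_ofReal_iff (by positivity)] at hle
  have hd' : 0 < |b.det| := abs_pos.mpr hd
  rw [abs_inv, ← div_eq_inv_mul, le_div_iff₀ hd'] at hle
  rwa [mul_one_div] at hle

/-- the second difference property with error `η` -/
def SD (ρ u : (ι → ℝ) → ℝ) (η : ℝ) : Prop :=
  ∀ (y : ι → ℝ) (b : Matrix ι ι ℝ) (ε D c β : ℝ), 0 < ε → 0 ≤ β → (∀ s, ∑ a, |b a s| ≤ β) →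
    (∀ s, u (y + ε • cl b s) + u (y - ε • cl b s) - 2 * u y ≤ D) →
    (∀ t ∈ closedBall (0 : ι → ℝ) (ε / (2 * Fintype.card ι)), c ≤ ρ (y + b *ᵥ t)) →
    c * b.det ^ 2 * (ε / Fintype.card ι) ^ Fintype.card ι ≤
      2 * (2 * (2 * D / ε + β * η)) ^ Fintype.card ι

lemma sd_level [Nonempty ι] {ρ : (ι → ℝ) → ℝ} (hρ : Continuous ρ) (hc : HasCompactSupport ρ)
    (h0 : ∀ x, 0 ≤ ρ x) (h1 : ∫ x, ρ x = 1) {L : ℕ} (hL : 0 < L) :
    ∃ u : (ι → ℝ) → ℝ, (∀ x x', |u x - u x'| ≤ Fintype.card ι * ‖x - x'‖) ∧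
      (∀ y v, 0 ≤ u (y + v) + u (y - v) - 2 * u y) ∧ SD ρ u (1 / L) := by
  have : Nonempty (ι → Fin L) := ⟨fun _ => ⟨0, hL⟩⟩
  have hL' : (0 : ℝ) < L := by exact_mod_cast hL
  have hm : (0 : ℝ) < Fintype.card ι := by exact_mod_cast Fintype.card_pos
  obtain ⟨ψ, hψ⟩ := hall (pg (ι := ι) L) hρ hc h0 h1
  have hp : ∀ (j : ι → Fin L) i, |pg L j i| ≤ 1 := by
    intro j i
    unfold pg
    rw [abs_of_nonneg (by positivity), div_le_one hL']
    exact_mod_cast (j i).2.le
  have hconv : ∀ y v, 0 ≤ umax (pg L) ψ (y + v) + umax (pg L) ψ (y - v) - 2 * umax (pg L) ψ y := by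
    intro y v
    obtain ⟨j, hj⟩ := exists_umax (pg L) ψ y
    have e1 := le_umax (pg L) ψ (y + v) j
    have e2 := le_umax (pg L) ψ (y - v) j
    rw [dotProduct_add] at e1
    rw [dotProduct_sub] at e2
    linarith
  refine ⟨umax (pg L) ψ, ?_, hconv, ?_⟩
  · have key : ∀ x x', umax (pg L) ψ x ≤ umax (pg L) ψ x' + Fintype.card ι * ‖x - x'‖ := by
      intro x x'
      refine umax_le _ fun j => ?_
      have e1 := le_umax (pg L) ψ x' j
      have e2 : |(x - x') ⬝ᵥ pg L j| ≤ ‖x - x'‖ * ∑ a, |pg L j a| :=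
        abs_dot_le _ _ fun i => norm_le_pi_norm (x - x') i
      have e3 : ∑ a, |pg L j a| ≤ Fintype.card ι := by
        simpa using sum_le_card_nsmul univ _ 1 fun a _ => hp j a
      have e4 := mul_le_mul_of_nonneg_left e3 (norm_nonneg (x - x'))
      rw [dotProduct_comm, dotProduct_sub] at e2
      linarith [le_abs_self (pg L j ⬝ᵥ x - pg L j ⬝ᵥ x')]
    intro x x'
    have e1 := key x x'
    have e2 := key x' x
    rw [norm_sub_rev] at e2
    rw [_root_.abs_le]; constructor <;> linarith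
  · intro y b ε D c β hε hβ0 hβ hD hcρ
    classical
    obtain ⟨s0⟩ := ‹Nonempty ι›
    have hD0 : 0 ≤ D := (hconv y _).trans (hD s0)
    obtain ⟨j0, hj0⟩ := exists_umax (pg L) ψ y
    set q := pg L j0 with hq
    set r : ℝ := 2 * D / ε with hr
    have hr0 : 0 ≤ r := by positivity
    set J : Finset (ι → Fin L) := univ.filter fun j => ∀ s, |(pg L j - q) ⬝ᵥ cl b s| ≤ r with hJ
    set S : Set (ι → ℝ) := (fun z => y + z) ''
      (Matrix.toLin' b '' closedBall (0 : ι → ℝ) (ε / (2 * Fintype.card ι))) with hS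
    have hrad : 0 ≤ ε / (2 * Fintype.card ι) := by positivity
    have hSc : IsCompact S :=
      ((isCompact_closedBall _ _).image (Matrix.toLin' b).continuous_of_finiteDimensional).image
        (continuous_const.add continuous_id)
    have hSm : ∀ x ∈ S, ∃ t ∈ closedBall (0 : ι → ℝ) (ε / (2 * Fintype.card ι)),
        x = y + b *ᵥ t := by
      rintro x ⟨z, ⟨t, ht, rfl⟩, rfl⟩
      exact ⟨t, ht, rfl⟩
    have hmax : ∀ x ∈ S, ∀ j, umax (pg L) ψ x = pg L j ⬝ᵥ x - ψ j → j ∈ J := by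
      intro x hx j hj
      obtain ⟨t, ht, rfl⟩ := hSm x hx
      set a : ℝ := umax (pg L) ψ y - (pg L j ⬝ᵥ y - ψ j) with ha
      have ha0 : 0 ≤ a := sub_nonneg.mpr (le_umax _ _ _ _)
      set d : ι → ℝ := fun s => (pg L j - q) ⬝ᵥ cl b s with hd
      have e1 : ∀ s, ε * |d s| ≤ D + a := by
        intro s
        have f1 := le_umax (pg L) ψ (y + ε • cl b s) j
        have f2 := le_umax (pg L) ψ (y - ε • cl b s) j
        have f3 := le_umax (pg L) ψ (y + ε • cl b s) j0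
        have f4 := le_umax (pg L) ψ (y - ε • cl b s) j0
        have f5 := hD s
        rw [dotProduct_add, dotProduct_smul, smul_eq_mul] at f1 f3
        rw [dotProduct_sub, dotProduct_smul, smul_eq_mul] at f2 f4
        rw [← abs_of_pos hε, ← abs_mul, _root_.abs_le]
        simp only [hd, sub_dotProduct, mul_sub]
        constructor <;> linarith
      have e2 : a ≤ d ⬝ᵥ t := by
        have f1 := le_umax (pg L) ψ (y + b *ᵥ t) j0
        have f2 : d ⬝ᵥ t = pg L j ⬝ᵥ b *ᵥ t - q ⬝ᵥ b *ᵥ t := by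
          rw [← sub_dotProduct, dotProduct_mulVec]; rfl
        rw [hj, dotProduct_add, dotProduct_add] at f1
        linarith
      have e3 : |t ⬝ᵥ d| ≤ ε / (2 * Fintype.card ι) * ∑ s, |d s| :=
        abs_dot_le _ _ fun i => (norm_le_pi_norm t i).trans (by simpa using ht)
      have e4 : ε * ∑ s, |d s| ≤ Fintype.card ι * (D + a) := by
        rw [mul_sum]
        have := sum_le_card_nsmul univ _ _ fun s _ => e1 s
        rwa [card_univ, nsmul_eq_mul] at this
      have e5 : ε / (2 * Fintype.card ι) * ∑ s, |d s| ≤ (D + a) / 2 := by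
        rw [div_mul_eq_mul_div, div_le_div_iff₀ (by positivity) (by norm_num)]
        nlinarith
      have e6 : a ≤ D := by
        rw [dotProduct_comm] at e3
        linarith [le_abs_self (d ⬝ᵥ t)]
      rw [hJ, mem_filter]
      refine ⟨mem_univ _, fun s => ?_⟩
      rw [hr, le_div_iff₀ hε]
      have := e1 s
      simp only [hd] at this
      linarith
    have k1 := hψ S hSc J hmax
    have k2 := grid_count hL q b hr0 hβ0 hβ J fun j hj => (mem_filter.mp hj).2
    have k3 : c * volume.real S ≤ ∫ x in S, ρ x :=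
      setIntegral_ge_of_const_le_real hSc.measurableSet hSc.measure_lt_top.ne
        (fun x hx => by obtain ⟨t, ht, rfl⟩ := hSm x hx; exact hcρ t ht)
        (hρ.continuousOn.integrableOn_compact hSc)
    have k4 : volume.real S = |b.det| * (ε / Fintype.card ι) ^ Fintype.card ι := by
      rw [Measure.real, hS, Set.image_add_left, measure_preimage_add,
        Measure.addHaar_image_linearMap, LinearMap.det_toLin', Real.volume_pi_closedBall _ hrad,
        ← ENNReal.ofReal_mul (abs_nonneg _), ENNReal.toReal_ofReal (by positivity)]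
      congr 2
      field_simp
    rw [Fintype.card_fun, Fintype.card_fin] at k1
    push_cast at k1
    have k5 := mul_le_mul_of_nonneg_right (k3.trans k1) (abs_nonneg b.det)
    rw [k4] at k5
    have k6 : c * (|b.det| * (ε / Fintype.card ι) ^ Fintype.card ι) * |b.det| =
        c * b.det ^ 2 * (ε / Fintype.card ι) ^ Fintype.card ι := by
      rw [← sq_abs]; ring
    rw [k6, mul_div_assoc, mul_assoc 2] at k5
    rw [mul_one_div]
    linarith

lemma sd_limit [Nonempty ι] {ρ : (ι → ℝ) → ℝ} (hρ : Continuous ρ) (hc : HasCompactSupport ρ)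
    (h0 : ∀ x, 0 ≤ ρ x) (h1 : ∫ x, ρ x = 1) :
    ∃ u : (ι → ℝ) → ℝ, (∀ x x', |u x - u x'| ≤ Fintype.card ι * ‖x - x'‖) ∧
      (∀ y v, 0 ≤ u (y + v) + u (y - v) - 2 * u y) ∧
      ∀ (y : ι → ℝ) (b : Matrix ι ι ℝ) (ε D c : ℝ), 0 < ε →
        (∀ s, u (y + ε • cl b s) + u (y - ε • cl b s) - 2 * u y < D) →
        (∀ t ∈ closedBall (0 : ι → ℝ) (ε / (2 * Fintype.card ι)), c ≤ ρ (y + b *ᵥ t)) →
        c * b.det ^ 2 * (ε / Fintype.card ι) ^ Fintype.card ι ≤
          2 * (4 * D / ε) ^ Fintype.card ι := by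
  choose U hU1 hU2 hU3 using fun L : ℕ => sd_level hρ hc h0 h1 (Nat.succ_pos L)
  have hex : ∀ x, ∃ a, Tendsto (fun L => U L x - U L 0) (hyperfilter ℕ) (𝓝 a) := by
    intro x
    obtain ⟨a, -, ha⟩ := (isCompact_closedBall (0 : ℝ) (Fintype.card ι * ‖x - 0‖)).ultrafilter_le_nhds'
      ((hyperfilter ℕ).map fun L => U L x - U L 0) (by
        rw [Ultrafilter.mem_map]
        refine Filter.univ_mem' fun L => ?_
        simpa using hU1 L x 0)
    exact ⟨a, ha⟩
  choose u hu using hex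
  have hsd : ∀ y v, Tendsto (fun L => U L (y + v) + U L (y - v) - 2 * U L y) (hyperfilter ℕ)
      (𝓝 (u (y + v) + u (y - v) - 2 * u y)) := by
    intro y v
    refine (((hu (y + v)).add (hu (y - v))).sub ((hu y).const_mul 2)).congr fun L => by ring
  refine ⟨u, fun x x' => ?_, fun y v => ?_, fun y b ε D c hε hD hcρ => ?_⟩
  · have : Tendsto (fun L => |U L x - U L x'|) (hyperfilter ℕ) (𝓝 |u x - u x'|) :=
      (((hu x).sub (hu x')).congr fun L => by ring).abs
    exact le_of_tendsto' this fun L => hU1 L x x'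
  · exact ge_of_tendsto' (hsd y v) fun L => hU2 L y v
  · set β : ℝ := ∑ s, ∑ a, |b a s| with hβ
    have hβ0 : 0 ≤ β := by positivity
    have hβ1 : ∀ s, ∑ a, |b a s| ≤ β := fun s =>
      single_le_sum (f := fun s => ∑ a, |b a s|) (fun _ _ => by positivity) (mem_univ s)
    have e1 : ∀ᶠ L in (hyperfilter ℕ : Filter ℕ), ∀ s,
        U L (y + ε • cl b s) + U L (y - ε • cl b s) - 2 * U L y ≤ D :=
      eventually_all.mpr fun s => ((hsd y _).eventually (gt_mem_nhds (hD s))).mono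
        fun L h => h.le
    have e2 : Tendsto (fun L : ℕ => 2 * (2 * (2 * D / ε + β * (1 / ((L.succ : ℕ) : ℝ)))) ^
        Fintype.card ι) (hyperfilter ℕ) (𝓝 (2 * (2 * (2 * D / ε + β * 0)) ^ Fintype.card ι)) := by
      have : Tendsto (fun L : ℕ => 1 / ((L.succ : ℕ) : ℝ)) atTop (𝓝 0) := by
        simpa using tendsto_one_div_add_atTop_nhds_zero_nat (𝕜 := ℝ)
      exact (((((this.mono_left Nat.hyperfilter_le_atTop).const_mul β).const_add _).const_mul
        2).pow _).const_mul 2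
    have e3 := ge_of_tendsto e2 (e1.mono fun L h => hU3 L y b ε D c β hε hβ0 hβ1 h hcρ)
    have e4 : 2 * (2 * D / ε + β * 0) = 4 * D / ε := by ring
    rwa [e4] at e3

end Grid

end

end Pool.Agent.Alesker
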