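import Pool.Agent.Lib.MP_3fa020_gt.TPos

/-!
The local form of the bound: integrals over subsets of bounded intrinsic diameter.
-/

namespace Pool.Agent.AlEmb

open Set Filter Topology MeasureTheory
open scoped InnerProductSpace ContDiff

variable {A n : ℕ}

namespace TAux

open EFinalAux EDistAux

/-- `U` has diameter at most `D` in the intrinsic metric of `M` -/
def DIn (D : ℝ) (M U : Set (Eu A)) : Prop :=
  ∀ x ∈ U, ∀ y ∈ U, ∀ ε > 0, ∃ γ : ℝ → Eu A, ContinuousOn γ (Icc 0 1) ∧ γ 0 = x ∧ γ 1 = y ∧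
    MapsTo γ (Icc 0 1) M ∧ eVariationOn γ (Icc 0 1) ≤ ENNReal.ofReal (D + ε)

lemma DIn.subset {D : ℝ} {M U : Set (Eu A)} (h : DIn D M U) : U ⊆ M := fun x hx => by
  obtain ⟨γ, -, h2, -, h4, -⟩ := h x hx x hx 1 one_pos
  exact h2 ▸ h4 (left_mem_Icc.2 zero_le_one)

lemma ed_local (X : Emb A n) {x y : Eu A} (hx : x ∈ X.M) (hy : y ∈ X.M) (hxy : ‖y - x‖ < X.δ) :
    ed X.M x y ≠ ⊤ := by
  have hn : ∀ t ∈ Icc (0 : ℝ) 1, ‖x + t • (y - x) - x‖ < X.δ := by
    intro t ht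
    rw [add_sub_cancel_left, norm_smul, Real.norm_of_nonneg ht.1]
    exact lt_of_le_of_lt (mul_le_of_le_one_left (norm_nonneg _) ht.2) hxy
  have hd : ∀ t : ℝ, HasDerivAt (fun t : ℝ => X.pr (x + t • (y - x)))
      (X.P (x + t • (y - x)) (y - x)) t := by
    intro t
    have h1 : HasDerivAt (fun t : ℝ => x + t • (y - x)) (y - x) t := by
      simpa using ((hasDerivAt_id t).smul_const (y - x)).const_add x
    exact (X.pr_hasFDerivAt _).comp_hasDerivAt t h1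
  have hc : Continuous fun t : ℝ => X.P (x + t • (y - x)) (y - x) := by
    have := X.P_smooth.continuous
    fun_prop
  exact ne_top_of_le_ne_top ENNReal.ofReal_ne_top
    ((ed_le ⟨0, 1, fun t => X.pr (x + t • (y - x)), zero_le_one,
      fun t _ => (hd t).continuousAt.continuousWithinAt, by simp [X.fix x hx],
      by simp [X.fix y hy], fun t ht => X.maps x hx _ (hn t ht)⟩).trans
      (var_le (fun t _ => (hd t).hasDerivWithinAt) hc.continuousOn))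

lemma ed_fin (X : Emb A n) (h : IsPreconnected X.M) :
    ∀ x ∈ X.M, ∀ y ∈ X.M, ed X.M x y ≠ ⊤ := by
  intro x hx y hy
  refine h.induction₂' (fun x y => ed X.M x y ≠ ⊤) (fun x hx => ?_)
    (fun x y z _ _ _ h1 h2 => ?_) hx hy
  · have h1 : ∀ᶠ y in 𝓝[X.M] x, ‖y - x‖ < X.δ := by
      refine nhdsWithin_le_nhds ?_
      filter_upwards [Metric.ball_mem_nhds x X.δ_pos] with y hy
      rwa [Metric.mem_ball, dist_eq_norm] at hy
    filter_upwards [self_mem_nhdsWithin, h1] with y hy h2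
    exact ⟨ed_local X hx hy h2, ed_local X hy hx (by rwa [norm_sub_rev])⟩
  · exact ne_top_of_le_ne_top (ENNReal.add_ne_top.2 ⟨h1, h2⟩) (ed_tri X.M x y z)

lemma exists_geo_loc (X : Emb A n) (hc : IsPreconnected X.M) {D : ℝ} (hD : 0 ≤ D)
    {U : Set (Eu A)} (h : DIn D X.M U) : ∃ G : Geo X, ∀ x ∈ U, ∀ y ∈ U, G.d x y ≤ D := by
  have h1 : ∀ x ∈ U, ∀ y ∈ U, ∀ ε > 0, ed X.M x y ≤ ENNReal.ofReal (D + ε) := by
    intro x hx y hy ε hε
    obtain ⟨γ, c1, c2, c3, c4, c5⟩ := h x hx y hy ε hε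
    exact (ed_le ⟨0, 1, γ, zero_le_one, c1, c2, c3, c4⟩).trans c5
  have hf := ed_fin X hc
  refine ⟨⟨dd X.M, fun _ _ => ENNReal.toReal_nonneg, dd_comm X.M, fun _ => dd_self,
    fun _ hx _ hy _ hz => dd_tri hf hx hy hz, fun _ hx _ hy => norm_le_dd hf hx hy, dd_le_len,
    fun _ hx _ hy => exists_mid X hf hx hy⟩, fun x hx y hy => ?_⟩
  exact le_of_forall_pos_le_add fun ε hε =>
    ENNReal.toReal_le_of_le_ofReal (by linarith) (h1 x hx y hy ε hε)

lemma scale_din (X : Emb A n) {l D : ℝ} (hl : 0 < l) {U : Set (Eu A)} (h : DIn D X.M U) :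
    DIn (l * D) (scale X hl).M ((fun z => l⁻¹ • z) ⁻¹' U) := by
  intro x hx y hy ε hε
  obtain ⟨γ, h1, h2, h3, h4, h5⟩ := h _ hx _ hy (ε / l) (div_pos hε hl)
  refine ⟨(fun z => l • z) ∘ γ, (continuous_const_smul l).comp_continuousOn h1, ?_, ?_, ?_, ?_⟩
  · simp [h2, smul_smul, hl.ne']
  · simp [h3, smul_smul, hl.ne']
  · intro t ht
    have := h4 ht
    change l⁻¹ • l • γ t ∈ X.M
    rwa [smul_smul, inv_mul_cancel₀ hl.ne', one_smul]
  · refine (((lipschitzWith_smul (β := Eu A) l).lipschitzOnWith (s := univ)).comp_eVariationOn_le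
      (mapsTo_univ _ _)).trans ?_
    have e : ENNReal.ofReal (l * D + ε) = (‖l‖₊ : ENNReal) * ENNReal.ofReal (D + ε / l) := by
      rw [← enorm_eq_nnnorm, Real.enorm_eq_ofReal hl.le, ← ENNReal.ofReal_mul hl.le]
      congr 1
      field_simp
    rw [e]
    gcongr

lemma scale_conn (X : Emb A n) {l : ℝ} (hl : 0 < l) (h : IsPreconnected X.M) :
    IsPreconnected (scale X hl).M :=
  (Homeomorph.smulOfNeZero l⁻¹ (inv_ne_zero hl.ne')).isPreconnected_preimage.2 h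

lemma locBound (n k : ℕ) (D₀ : ℝ) : ∃ C : ℝ, ∀ (S : Ctx n k) (W : Set (Eu S.A)), W ⊆ S.X.M →
    (∀ x ∈ W, ∀ y ∈ W, S.G.d x y ≤ D₀) → ∀ p ≤ k, 2 * p ≤ n →
      S.X.Bd (fun x => S.D.BP n (S.X.P x)
        (S.D.Rh S.X x ^ p * S.D.Th (S.X.P x) ^ (n - 2 * p))) W C := by
  have h1 : ∀ p, ∃ K, 0 ≤ K ∧ (p ≤ k → 2 * p ≤ n → ∀ (S : Ctx n k), ∀ y ∈ S.X.M,
      S.X.Bd (fun x => S.D.BP n (S.X.P x) (S.D.Rh S.X x ^ p * S.D.Th (S.X.P x) ^ (n - 2 * p)))
        (S.G.ball y (1 / 2)) K) := by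
    intro p
    by_cases hp : p ≤ k ∧ 2 * p ≤ n
    · obtain ⟨K, hK⟩ := (cl_all n k p hp.1).1 0 1 one_pos le_rfl (by omega)
      refine ⟨|K|, abs_nonneg _, fun _ _ S y hy => ?_⟩
      have hF := S.frame_zero hy
      refine (hK S _ y 1 hF).mono (fun x _ hx => ⟨hx, ?_⟩) (by simpa using le_abs_self K)
      obtain ⟨C, hC⟩ := hF.est one_pos le_rfl (S.G.ball_mono y (by norm_num) hx)
      have d1 : S.D.Dom (S.D.Rh S.X x) 1 (S.D.Rh S.X x) (S.Ps (fun _ _ => 0) 0 1 1 x) :=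
        DFA.Dom.of_le DFA.Cone.rho (((hC.Zc.pow0 2).mono zero_le_one).cast (by
          simp only [Ctx.Ps]; ring))
      exact ((d1.pow1 p).mul0' (DFA.Dom.refl (hC.thc.pow0 (n - 0 - 2 * p)))).le hC.pos hp.1
    · exact ⟨0, le_rfl, fun h h' => absurd ⟨h, h'⟩ hp⟩
  choose K hK0 hK using h1
  set r := |D₀| + 1 with hr
  have hr0 : 0 ≤ r := by positivity
  refine ⟨(1 + 2 * (r * Real.cosh r) / (1 / 2)) ^ n * ∑ p ∈ Finset.range (k + 1), K p,
    fun S W hW hD p hp hn => ?_⟩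
  have hs : K p ≤ ∑ p ∈ Finset.range (k + 1), K p :=
    Finset.single_le_sum (fun i _ => hK0 i) (Finset.mem_range.2 (by omega))
  have hN : 0 ≤ (1 + 2 * (r * Real.cosh r) / (1 / 2)) ^ n := by
    have := Real.cosh_pos r; positivity
  rcases W.eq_empty_or_nonempty with rfl | ⟨y, hy⟩
  · exact Emb.Bd.empty (mul_nonneg hN ((hK0 p).trans hs))
  · obtain ⟨T, h2, h3, h4⟩ := Geo.cover S.geod S.hinge (hW hy) hr0 (ε := 1 / 2) (by norm_num)
      (W := W) fun x hx => ⟨hW hx, by linarith [hD y hy x hx, le_abs_self D₀]⟩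
    refine (Emb.Bd.biUnion T (K := fun _ => K p) (W := W)
      (fun t ht => hK p hp hn S t (hW (h2 ht)))
      fun x hx => let ⟨t, ht, hd⟩ := h4 x hx; ⟨t, ht, hW hx, hd⟩).up ?_
    rw [Finset.sum_const, nsmul_eq_mul]
    exact mul_le_mul h3 hs (hK0 p) hN

lemma lint_loc {k : ℕ} (S : Ctx n k) (hn : 2 * k ≤ n) {C : ℝ} {W : Set (Eu S.A)}
    (hW : W ⊆ S.X.M) (hm : MeasurableSet W)
    (h : ∀ p ≤ k, 2 * p ≤ n → S.X.Bd (fun x => S.D.BP n (S.X.P x)
      (S.D.Rh S.X x ^ p * S.D.Th (S.X.P x) ^ (n - 2 * p))) W C) :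
    ∫⁻ x in W, ENNReal.ofReal |weyl k (curvT (Sop S.X.P x))| ∂(μHE[n]) ≤
      ∑ p ∈ Finset.range (k + 1), ENNReal.ofReal (2 ^ k * (k.choose p : ℝ)) * ENNReal.ofReal C := by
  have h1 : ∀ p : ℕ, ∃ g : Eu S.A → ENNReal, p ≤ k → AEMeasurable g S.X.μ ∧
      (∀ x ∈ W, ENNReal.ofReal (S.D.BP n (S.X.P x)
        (S.D.Rh S.X x ^ p * S.D.Th (S.X.P x) ^ (n - 2 * p))) ≤ g x) ∧
      ∫⁻ x, g x ∂S.X.μ ≤ ENNReal.ofReal C := by
    intro p
    by_cases hp : p ≤ k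
    · obtain ⟨_, g, g1, g2, g3⟩ := h p hp (by omega)
      refine ⟨g, fun _ => ⟨g1, fun x hx => ?_, g3⟩⟩
      have := g2 x (hW hx)
      rwa [indicator_of_mem hx] at this
    · exact ⟨0, fun h' => absurd h' hp⟩
  choose g hg using h1
  have hle : ∀ p ∈ Finset.range (k + 1), p ≤ k := fun p hp =>
    Nat.lt_succ_iff.1 (Finset.mem_range.1 hp)
  calc ∫⁻ x in W, ENNReal.ofReal |weyl k (curvT (Sop S.X.P x))| ∂(μHE[n])
      ≤ ∫⁻ x in W, ∑ p ∈ Finset.range (k + 1),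
          ENNReal.ofReal (2 ^ k * (k.choose p : ℝ)) * g p x ∂(μHE[n]) := by
        refine setLIntegral_mono' hm fun x hx => ?_
        obtain ⟨h2, h3⟩ := pointwise S.D S.X S.pos le_rfl hn (hW hx)
        refine (ENNReal.ofReal_le_ofReal h3).trans ?_
        rw [ENNReal.ofReal_sum_of_nonneg fun p hp =>
          mul_nonneg (by positivity) (h2 p (hle p hp))]
        refine Finset.sum_le_sum fun p hp => ?_
        rw [ENNReal.ofReal_mul (by positivity)]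
        exact mul_le_mul_right ((hg p (hle p hp)).2.1 x hx) _
    _ ≤ ∫⁻ x, ∑ p ∈ Finset.range (k + 1),
          ENNReal.ofReal (2 ^ k * (k.choose p : ℝ)) * g p x ∂S.X.μ := lintegral_mono_set hW
    _ = ∑ p ∈ Finset.range (k + 1),
          ENNReal.ofReal (2 ^ k * (k.choose p : ℝ)) * ∫⁻ x, g p x ∂S.X.μ := by
        rw [lintegral_finsetSum' _ fun p hp => (hg p (hle p hp)).1.const_mul _]
        exact Finset.sum_congr rfl fun p hp => lintegral_const_mul'' _ (hg p (hle p hp)).1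
    _ ≤ _ := Finset.sum_le_sum fun p hp => mul_le_mul_right (hg p (hle p hp)).2.2 _

open scoped Pointwise in
lemma lint_scale_loc (X : Emb A n) {l : ℝ} (hl : 0 < l) (hl1 : 1 ≤ l) (k : ℕ) {U : Set (Eu A)}
    (hU : MeasurableSet U) :
    ∫⁻ x in U, ENNReal.ofReal |weyl k (curvT (Sop X.P x))| ∂(μHE[n]) ≤
      ENNReal.ofReal ((l ^ 2) ^ k) * ∫⁻ x in (fun z => l⁻¹ • z) ⁻¹' U,
        ENNReal.ofReal |weyl k (curvT (Sop (scale X hl).P x))| ∂(μHE[n]) := by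
  have hψ : Measurable fun z : Eu A => l⁻¹ • z := (continuous_const_smul l⁻¹).measurable
  have h1 : (μHE[n] : Measure (Eu A)) ≤ (μHE[n] : Measure (Eu A)).map fun z => l⁻¹ • z := by
    refine Measure.le_iff.2 fun s hs => ?_
    rw [Measure.map_apply hψ hs, Set.preimage_smul_inv₀ hl.ne',
      Measure.euclideanHausdorffMeasure_smul₀ n hl.ne', ENNReal.smul_def, smul_eq_mul]
    refine le_mul_of_one_le_left' ?_
    have : (1 : NNReal) ≤ ‖l‖₊ := by
      rw [← NNReal.coe_le_coe, coe_nnnorm, Real.norm_of_nonneg hl.le]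
      exact hl1
    exact_mod_cast one_le_pow₀ this
  have hF : Measurable fun x => ENNReal.ofReal |weyl k (curvT (Sop X.P x))| :=
    (weyl_cont X k).abs.measurable.ennreal_ofReal
  refine (lintegral_mono' (Measure.restrict_mono le_rfl h1) le_rfl).trans ?_
  rw [setLIntegral_map hU hF hψ, ← lintegral_const_mul' _ _ ENNReal.ofReal_ne_top]
  refine le_of_eq (lintegral_congr fun z => ?_)
  rw [weyl_smul k _ _ _ (scale_curv X hl z), ← ENNReal.ofReal_mul (by positivity), abs_mul,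
    abs_of_nonneg (a := (l⁻¹ ^ 2) ^ k) (by positivity), ← mul_assoc, ← mul_pow, ← mul_pow,
    mul_inv_cancel₀ hl.ne', one_pow, one_pow, one_mul]

lemma final_loc {k : ℕ} (hn : 2 * k ≤ n) {D l : ℝ} (hD : 0 < D) (hl : 0 < l) (hl1 : 1 ≤ l) :
    ∃ C : ℝ, ∀ (A : ℕ) (X : Emb A n) (U : Set (Eu A)), IsPreconnected X.M → MeasurableSet U →
      DIn D X.M U → (scale X hl).Sec → (∀ F : DFA A, F.PosK (scale X hl) k) →
      IntegrableOn (lk k X.M) U (μHE[n]) ∧ ∫ x in U, |lk k X.M x| ∂(μHE[n]) ≤ C := by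
  obtain ⟨C, hC⟩ := locBound n k (l * D)
  obtain ⟨K, hK⟩ : ∃ K : ENNReal, K = ENNReal.ofReal ((l ^ 2) ^ k) *
    ∑ p ∈ Finset.range (k + 1), ENNReal.ofReal (2 ^ k * (k.choose p : ℝ)) * ENNReal.ofReal C :=
    ⟨_, rfl⟩
  have hK' : K ≠ ⊤ := by
    rw [hK]
    exact ENNReal.mul_ne_top ENNReal.ofReal_ne_top (ENNReal.sum_ne_top.2 fun p _ =>
      ENNReal.mul_ne_top ENNReal.ofReal_ne_top ENNReal.ofReal_ne_top)
  refine ⟨K.toReal, fun A X U hc hU hd hs hp => ?_⟩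
  have hd' := scale_din X hl hd
  obtain ⟨G, hG⟩ := exists_geo_loc (scale X hl) (scale_conn X hl hc) (mul_pos hl hD).le hd'
  obtain ⟨F⟩ := exists_DFA A
  have h1 := lint_loc ⟨A, F, scale X hl, G, hs, hp F⟩ hn hd'.subset
    ((continuous_const_smul l⁻¹).measurable hU)
    (hC ⟨A, F, scale X hl, G, hs, hp F⟩ _ hd'.subset hG)
  have e : ∀ x ∈ U, lk k X.M x = weyl k (curvT (Sop X.P x)) := fun x hx => by
    rw [lk]
    congr 1
    funext a b c d
    exact riem_eq X (hd.subset hx) a b c d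
  have h2 : ∫⁻ x in U, ‖lk k X.M x‖ₑ ∂(μHE[n]) ≤ K := by
    have h3 : ∫⁻ x in U, ‖lk k X.M x‖ₑ ∂(μHE[n]) =
        ∫⁻ x in U, ENNReal.ofReal |weyl k (curvT (Sop X.P x))| ∂(μHE[n]) :=
      setLIntegral_congr_fun hU fun x hx => by
        simp only [e x hx, Real.enorm_eq_ofReal_abs]
    rw [h3, hK]
    exact (lint_scale_loc X hl hl1 k hU).trans (mul_le_mul_right h1 _)
  have hm : AEStronglyMeasurable (lk k X.M) ((μHE[n] : Measure (Eu A)).restrict U) :=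
    (((weyl_cont X k).continuousOn (s := U)).congr e).aestronglyMeasurable hU
  refine ⟨⟨hm, h2.trans_lt hK'.lt_top⟩, ?_⟩
  have h4 := integral_norm_eq_lintegral_enorm hm
  simp only [Real.norm_eq_abs] at h4
  rw [h4]
  exact ENNReal.toReal_mono hK' h2

end TAux

open TAux

theorem final_thorpe {n k : ℕ} (hn : 2 * k ≤ n) (D κ μ : ℝ) (hD : 0 < D) :
    ∃ C : ℝ, ∀ (A : ℕ) (M U : Set (Eu A)), IsCompact M → IsPreconnected M → IsSubmfd n M →
      SecGE κ M →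
      (∀ p, 3 ≤ p → p ≤ k → ∀ x ∈ M, ∀ W : Submodule ℝ (Eu A), Module.finrank ℝ W = 2 * p →
        (∀ v ∈ W, proj M x v = v) → κ ≤ weyl p fun a b c d =>
          riem M x (W.starProjection a) (W.starProjection b) (W.starProjection c)
            (W.starProjection d) - μ * gram M x (W.starProjection a) (W.starProjection b)
              (W.starProjection c) (W.starProjection d)) →
      MeasurableSet U → DIn D M U →
      IntegrableOn (lk k M) U (μHE[n]) ∧ ∫ x in U, |lk k M x| ∂(μHE[n]) ≤ C := by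
  obtain ⟨l, hl, hl1, h⟩ := posK_thorpe n k κ μ
  obtain ⟨C, hC⟩ := final_loc hn hD hl hl1
  refine ⟨C, fun A M U hc hc' hM hs hT hU hd => ?_⟩
  obtain ⟨X, rfl⟩ := exists_emb hc hM
  obtain ⟨h1, h2⟩ := h A X hs hT
  exact hC A X U hc' hU hd h1 h2

end Pool.Agent.AlEmb
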