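import Pool.Agent.Lib.MP_3fa020_gt.EStmt2

/-!
Relative intrinsic diameter and Thorpe's higher order sectional curvatures.
-/

namespace Pool.Agent.AlStmt

open Set

/-- `U` has diameter at most `D` in the intrinsic metric of `M`: any two points of `U` are joined
inside `M` by curves of length as close to `D` as we like -/
def DiamIn {E : Type} [PseudoEMetricSpace E] (D : ℝ) (M U : Set E) : Prop :=
  ∀ x ∈ U, ∀ y ∈ U, ∀ ε > 0, ∃ γ : ℝ → E, ContinuousOn γ (Icc 0 1) ∧ γ 0 = x ∧ γ 1 = y ∧
    MapsTo γ (Icc 0 1) M ∧ eVariationOn γ (Icc 0 1) ≤ ENNReal.ofReal (D + ε)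

variable {A : ℕ}

/-- the Weyl (Pfaffian) contraction of the 4-tensor `T` restricted to the subspace `W`; for
`dim W = 2 p` this is `2 ^ p (2 p)!` times Thorpe's sectional curvature of order `2 p` -/
noncomputable def thorpe (p : ℕ) (T : Eu A → Eu A → Eu A → Eu A → ℝ) (W : Submodule ℝ (Eu A)) :
    ℝ :=
  weyl p fun a b c d =>
    T (W.starProjection a) (W.starProjection b) (W.starProjection c) (W.starProjection d)

/-- on every tangent `2 p`-plane the Pfaffian of the shifted curvature tensor
`riem - μ gram` is at least `κ` -/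
def ThorpeGE (p : ℕ) (μ κ : ℝ) (M : Set (Eu A)) : Prop :=
  ∀ x ∈ M, ∀ W : Submodule ℝ (Eu A), Module.finrank ℝ W = 2 * p → (∀ v ∈ W, tang M x v = v) →
    κ ≤ thorpe p (fun a b c d => riem M x a b c d - μ * gram M x a b c d) W

end Pool.Agent.AlStmt
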