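import Pool.Agent.Lib.MP_3fa020_gt.TPos
import Pool.Agent.Lib.MP_3fa020_gt.TStmt

/-!
A lower bound for the curvature operator implies the lower bounds for the shifted Thorpe
curvatures.
-/

namespace Pool.Agent.AlEmb

open Set
open scoped InnerProductSpace

variable {A n : ℕ}

namespace TAux

open EWeylAux EFinalAux

lemma BP_tau (D : DFA A) {P₀ P : Eu A →L[ℝ] Eu A} (S : Fin A → Eu A →L[ℝ] Eu A)
    (hS : ∀ c, SymTan P₀ (S c)) (μ : ℝ) (j : ℕ) (hP : IsProj (2 * j) P)
    (hle : ∀ v, P₀ (P v) = P v) :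
    2 ^ j * D.BP (2 * j) P ((∑ c, D.Th (S c) ^ 2 - μ • D.Th P₀ ^ 2) ^ j) =
      weyl j fun a b c d => curvT S (P a) (P b) (P c) (P d) -
        μ * gramT P₀ (P a) (P b) (P c) (P d) := by
  have e0 : P.comp (P₀.comp P) = P := by
    ext1 v
    simp [hle, hP.idem]
  have q1 : D.Eqv (2 * j) P (D.Th P) (D.Th P₀) := by
    have := D.eqv_Th hP P₀
    rwa [e0] at this
  have q2 : D.Eqv (2 * j) P (∑ c, D.Th (P.comp ((S c).comp P)) ^ 2 - μ • D.Th P ^ 2)
      (∑ c, D.Th (S c) ^ 2 - μ • D.Th P₀ ^ 2) :=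
    (DFA.Eqv.sum _ fun c _ => (D.eqv_Th hP (S c)).pow 2).sub ((q1.pow 2).smul μ)
  rw [← (q2.pow j).BP]
  have hS' : ∀ c, SymTan P (P.comp ((S c).comp P)) := fun c =>
    ⟨fun v w => by simp [hP.symm, (hS c).symm], fun v => by simp [hP.idem],
      fun v => by simp [hP.idem]⟩
  have w1 := BP_weylT D (p := j) hP (∑ c, D.Th (P.comp ((S c).comp P)) ^ 2 - μ • D.Th P ^ 2)
    (fun a b c d => curvT (fun c => P.comp ((S c).comp P)) a b c d - μ * gramT P a b c d)
    (by
      rw [smul_sub, two_Om, smul_comm, two_gram D hP, Finset.smul_sum, ← Finset.sum_sub_distrib]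
      refine Finset.sum_congr rfl fun u _ => ?_
      rw [Finset.smul_sum, ← Finset.sum_sub_distrib]
      refine Finset.sum_congr rfl fun v _ => ?_
      rw [sub_smul, smul_smul])
    (fun a b x y => by
      rw [← contract hP hS' a b x y, ← contract_gram hP a b x y, Finset.mul_sum,
        ← Finset.sum_sub_distrib]
      exact Finset.sum_congr rfl fun v _ => by ring)
  rw [if_pos rfl] at w1
  rw [w1]
  congr 1
  funext a b c d
  simp [curvT, gramT, hle, hP.symm]

lemma ss_tau (D : DFA A) {P : Eu A →L[ℝ] Eu A} (hP : IsProj n P)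
    (S : Fin A → Eu A →L[ℝ] Eu A) (hS : ∀ c, SymTan P (S c)) (μ : ℝ)
    (h : ∀ ω : Fin A → Fin A → ℝ,
      μ * (∑ a, ∑ b, ∑ c, ∑ e, gramT P (ee a) (ee b) (ee c) (ee e) * ω a b * ω c e) ≤
        ∑ a, ∑ b, ∑ c, ∑ e, curvT S (ee a) (ee b) (ee c) (ee e) * ω a b * ω c e) :
    ∑ c, D.Th (S c) ^ 2 - μ • D.Th P ^ 2 ∈ SS D := by
  classical
  let M : Matrix (Fin 2 → Fin A) (Fin 2 → Fin A) ℝ := Matrix.of fun u v =>
    curvT S (ee (u 0)) (ee (u 1)) (ee (v 0)) (ee (v 1)) -
      μ * gramT P (ee (u 0)) (ee (u 1)) (ee (v 0)) (ee (v 1))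
  have hM : M.PosSemidef := by
    refine .of_dotProduct_mulVec_nonneg ?_ fun x => ?_
    · ext u v
      simp only [M, Matrix.conjTranspose_apply, Matrix.of_apply, star_trivial, curvT, gramT]
      congr 1
      · refine Finset.sum_congr rfl fun c _ => ?_
        simp only [(hS c).symm (ee (v _)), real_inner_comm (S c _)]
        ring
      · simp only [real_inner_comm (P (ee (u _))) (P (ee (v _)))]
        ring
    · have h1 := h fun a b => x ![a, b]
      have e : ∀ T : Eu A → Eu A → Eu A → Eu A → ℝ,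
          ∑ a, ∑ b, ∑ c, ∑ e, T (ee a) (ee b) (ee c) (ee e) * x ![a, b] * x ![c, e] =
            ∑ u : Fin 2 → Fin A, ∑ v : Fin 2 → Fin A,
              T (ee (u 0)) (ee (u 1)) (ee (v 0)) (ee (v 1)) * x u * x v := by
        intro T
        rw [← sum_two]
        refine Finset.sum_congr rfl fun u _ => ?_
        rw [← sum_two]
        refine Finset.sum_congr rfl fun v _ => ?_
        have e1 : ∀ w : Fin 2 → Fin A, ![w 0, w 1] = w := fun w => by
          ext j
          fin_cases j <;> rfl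
        rw [e1, e1]
      rw [e, e, ← sub_nonneg, Finset.mul_sum, ← Finset.sum_sub_distrib] at h1
      refine h1.trans (le_of_eq (Finset.sum_congr rfl fun u _ => ?_))
      simp only [M, Matrix.mulVec, dotProduct, Matrix.of_apply, star_trivial, Finset.mul_sum,
        ← Finset.sum_sub_distrib]
      exact Finset.sum_congr rfl fun v _ => by ring
  have h1 := ss_smul (ss_psd (D := D) hM) (show (0 : ℝ) ≤ 1 / 2 by norm_num)
  have e : ∑ u, ∑ v, M u v • mono D u v = (2 : ℝ) • (∑ c, D.Th (S c) ^ 2 - μ • D.Th P ^ 2) := by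
    rw [smul_sub, two_Om, smul_comm, two_gram D hP, Finset.smul_sum, ← Finset.sum_sub_distrib]
    refine Finset.sum_congr rfl fun u _ => ?_
    rw [Finset.smul_sum, ← Finset.sum_sub_distrib]
    refine Finset.sum_congr rfl fun v _ => ?_
    simp only [M, Matrix.of_apply, sub_smul, smul_smul]
  rw [e, smul_smul] at h1
  simpa using h1

lemma ss_pow {D : DFA A} {F : D.R} (h : F ∈ SS D) (p : ℕ) : F ^ p ∈ SS D := by
  induction p with
  | zero => simpa using (Sq.prod (D := D) (ι := Empty) Empty.elim).ss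
  | succ q ih => rw [pow_succ]; exact ss_mul ih h

end TAux

open TAux EWeylAux EFinalAux

/-- curvature operator at least `μ` gives nonnegative shifted Thorpe curvatures -/
theorem thorpe_of_op (X : Emb A n) {μ : ℝ} (h : CurvOpGE μ X.M) (p : ℕ) :
    AlStmt.ThorpeGE p μ 0 X.M := by
  intro x hx W hW hT
  obtain ⟨D⟩ := exists_DFA A
  have h0 := Emb.isProj hx
  have hS := (Lev.base hx).symTan_Sop
  have hP : IsProj (2 * p) W.starProjection :=
    ⟨fun v => Submodule.starProjection_eq_self_iff.2 (W.starProjection_apply_mem v),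
      fun v w => W.inner_starProjection_left_eq_right v w, by
        rw [W.range_starProjection, hW]⟩
  have hle : ∀ v, X.P x (W.starProjection v) = W.starProjection v := fun v => by
    rw [← X.proj_eq hx]
    exact hT _ (W.starProjection_apply_mem v)
  have h1 := BP_tau D _ hS μ p hP hle
  have h2 := ss_tau D h0 _ hS μ fun ω => by
    simpa only [riem_eq X hx, gram_eq X hx] using h x hx ω
  have h3 := ss_pow h2 p
  have h4 : 0 ≤ D.BP (2 * p) W.starProjection
      ((∑ c, D.Th (Sop X.P x c) ^ 2 - μ • D.Th (X.P x) ^ 2) ^ p) := by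
    obtain ⟨b, -, -, hb⟩ := hP.compl.frame
    rw [D.BP_apply, D.nu_frame hb]
    exact ss_nonneg (ss_mul h3 (Sq.prod b).ss)
  have h5 : 0 ≤ weyl p fun a b c d => riem X.M x (W.starProjection a) (W.starProjection b)
      (W.starProjection c) (W.starProjection d) - μ * gram X.M x (W.starProjection a)
        (W.starProjection b) (W.starProjection c) (W.starProjection d) := by
    simp only [riem_eq X hx, gram_eq X hx]
    rw [← h1]
    exact mul_nonneg (pow_nonneg zero_le_two p) h4
  exact h5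

end Pool.Agent.AlEmb
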