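import Pool.Agent.Lib.MP_3fa020_gt.EMain

/-!
Positivity of the powers of the shifted curvature form under lower bounds for the sectional
curvature and for Thorpe's higher order sectional curvatures.
-/

namespace Pool.Agent.AlEmb

open Set Filter Topology MeasureTheory
open scoped InnerProductSpace ContDiff

variable {A n : ℕ}

namespace TAux

open EWeylAux EPosAux EFinalAux

/-- nonnegative top coefficient on every subspace of the range of `P₀` -/
def Pos (D : DFA A) (P₀ : Eu A →L[ℝ] Eu A) (F : D.R) : Prop :=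
  ∀ d (P : Eu A →L[ℝ] Eu A), IsProj d P → (∀ v, P₀ (P v) = P v) → 0 ≤ D.BP d P F

variable {D : DFA A} {P₀ : Eu A →L[ℝ] Eu A} {F G : D.R}

lemma Pos.add (h : Pos D P₀ F) (h' : Pos D P₀ G) : Pos D P₀ (F + G) := fun d P h1 h2 => by
  rw [map_add]
  exact add_nonneg (h d P h1 h2) (h' d P h1 h2)

lemma Pos.smul (h : Pos D P₀ F) {c : ℝ} (hc : 0 ≤ c) : Pos D P₀ (c • F) := fun d P h1 h2 => by
  rw [map_smul]
  exact mul_nonneg hc (h d P h1 h2)

lemma Pos.sum {ι : Type} (s : Finset ι) {f : ι → D.R} (h : ∀ i ∈ s, Pos D P₀ (f i)) :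
    Pos D P₀ (∑ i ∈ s, f i) := fun d P h1 h2 => by
  rw [map_sum]
  exact Finset.sum_nonneg fun i hi => h i hi d P h1 h2

lemma Pos.one : Pos D P₀ 1 := fun d P h1 _ => by
  have := D.BP_prod h1 (ι := Fin 0) Fin.elim0 Fin.elim0
  simp only [Finset.univ_eq_empty, Finset.prod_empty, Matrix.det_isEmpty] at this
  rw [this]
  split_ifs <;> norm_num

lemma Pos.sq (hG : Pos D P₀ G) (v : Eu A) : Pos D P₀ (D.t v v * G) := by
  intro d P h h0
  rw [← ((D.eqv_t h v v).mul (DFA.Eqv.refl G)).BP]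
  by_cases hv : P v = 0
  · simp [hv]
  · have hn : ‖P v‖ ≠ 0 := norm_ne_zero_iff.2 hv
    obtain ⟨u, hu, hPu, e⟩ : ∃ u, ‖u‖ = 1 ∧ P u = u ∧ P v = ‖P v‖ • u :=
      ⟨‖P v‖⁻¹ • P v, by simp [norm_smul, hn], by simp [h.idem], by simp [smul_smul, hn]⟩
    cases d with
    | zero =>
      obtain ⟨b, -, -, hb⟩ := h.frame
      exact absurd (by simpa using hb v) hv
    | succ d =>
      rw [e]
      simp only [map_smul, smul_apply, smul_mul_assoc, smul_eq_mul]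
      rw [D.BP_step h]
      have h1 : P₀ u = u := by rw [← hPu, h0]
      have := hG d _ (h.step hu hPu) fun w => by simp [r1_apply, h0, h1]
      positivity

lemma Pos.list (hG : Pos D P₀ G) (l : List (Eu A)) :
    Pos D P₀ ((l.map fun v => D.t v v).prod * G) := by
  induction l with
  | nil => simpa using hG
  | cons v l ih =>
    rw [List.map_cons, List.prod_cons, mul_assoc]
    exact ih.sq v

lemma Pos.th (h0 : IsProj n P₀) (hG : Pos D P₀ G) : Pos D P₀ (D.Th P₀ * G) := by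
  obtain ⟨b, -, -, hb⟩ := h0.frame
  have h1 : D.Th P₀ = ∑ l, D.t (b l) (b l) := by
    simpa using D.Th_frame b hb (ContinuousLinearMap.id ℝ _)
  rw [h1, Finset.sum_mul]
  exact Pos.sum _ fun l _ => hG.sq _

lemma Pos.ypow (h0 : IsProj n P₀) (hG : Pos D P₀ G) (m : ℕ) :
    Pos D P₀ ((D.Th P₀ ^ 2) ^ m * G) := by
  induction m with
  | zero => simpa using hG
  | succ m ih =>
    have e : (D.Th P₀ ^ 2) ^ (m + 1) * G = D.Th P₀ * (D.Th P₀ * ((D.Th P₀ ^ 2) ^ m * G)) := by ring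
    rw [e]
    exact (ih.th h0).th h0

lemma Pos.cone {ρ : D.R} {k : ℕ} (h : ∀ q ≤ k, Pos D P₀ (ρ ^ q)) (hF : D.Cone ρ k F) :
    Pos D P₀ F := by
  have hN := nf_of_cone D hF
  clear hF
  induction hN with
  | add _ _ h1 h2 => exact h1.add h2
  | mono q l c h1 h2 => exact ((h q h1).list l).smul h2

lemma pos_pow (h0 : IsProj n P₀) (τ : D.R) (k : ℕ) {δ η c : ℝ} (hδ : 0 ≤ δ) (hη : 0 ≤ η)
    (hc1 : 1 ≤ c) (hc2 : 2 * δ * 2 ^ k ≤ c) (hc3 : (η + 2 * δ ^ 2) * 2 ^ k + δ * k ≤ c)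
    (h1 : Pos D P₀ (τ + δ • D.Th P₀ ^ 2)) (h2 : Pos D P₀ ((τ + δ • D.Th P₀ ^ 2) ^ 2))
    (h3 : ∀ j, 3 ≤ j → j ≤ k → Pos D P₀ (τ ^ j + η • (D.Th P₀ ^ 2) ^ j)) :
    ∀ q ≤ k, Pos D P₀ ((τ + c • D.Th P₀ ^ 2) ^ q) := by
  have hy : ∀ m, Pos D P₀ ((D.Th P₀ ^ 2) ^ m) := fun m => by
    simpa using (Pos.one (D := D) (P₀ := P₀)).ypow h0 m
  have hmul := fun (G : D.R) (hG : Pos D P₀ G) (m : ℕ) => hG.ypow h0 m
  generalize D.Th P₀ ^ 2 = y at *
  have hU : ∀ j, j + 2 ≤ k → Pos D P₀ (τ ^ (j + 2) + (2 * δ) • (y ^ (j + 1) * τ) +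
      (η + 2 * δ ^ 2) • y ^ (j + 2)) := by
    intro j hj
    rcases Nat.eq_zero_or_pos j with rfl | hj0
    · have e : τ ^ (0 + 2) + (2 * δ) • (y ^ (0 + 1) * τ) + (η + 2 * δ ^ 2) • y ^ (0 + 2) =
          (τ + δ • y) ^ 2 + (η + δ ^ 2) • y ^ 2 := by
        simp only [Algebra.smul_def, map_add, map_mul, map_pow, map_ofNat]
        ring
      rw [e]
      exact h2.add ((hy 2).smul (by positivity))
    · have e : τ ^ (j + 2) + (2 * δ) • (y ^ (j + 1) * τ) + (η + 2 * δ ^ 2) • y ^ (j + 2) =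
          (τ ^ (j + 2) + η • y ^ (j + 2)) + (2 * δ) • (y ^ (j + 1) * (τ + δ • y)) := by
        simp only [Algebra.smul_def, map_add, map_mul, map_pow, map_ofNat]
        ring
      rw [e]
      exact (h3 _ (by omega) hj).add ((hmul _ h1 _).smul (by positivity))
  intro q hq
  have hk2 : (1 : ℝ) ≤ 2 ^ k := one_le_pow₀ one_le_two
  rcases q with _ | _ | m
  · simpa using Pos.one
  · have e : (τ + c • y) ^ (0 + 1) = (τ + δ • y) + (c - δ) • y ^ 1 := by
      simp only [Algebra.smul_def, map_sub]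
      ring
    rw [e]
    exact h1.add ((hy 1).smul (by nlinarith))
  · obtain ⟨w, hw⟩ : ∃ w : ℕ → ℝ, ∀ j, w j = ((m + 2).choose (j + 2) : ℝ) * c ^ (m - j) :=
      ⟨_, fun _ => rfl⟩
    obtain ⟨W, hW⟩ : ∃ W : ℝ, W = ∑ j ∈ Finset.range (m + 1), w j := ⟨_, rfl⟩
    have hc0 : 0 ≤ c := zero_le_one.trans hc1
    have hw0 : ∀ j, 0 ≤ w j := fun j => by rw [hw]; positivity
    have hW0 : 0 ≤ W := hW ▸ Finset.sum_nonneg fun j _ => hw0 j
    have hW1 : W ≤ 2 ^ k * c ^ m := by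
      have s1 : ∑ j ∈ Finset.range (m + 1), ((m + 2).choose (j + 2) : ℝ) ≤ 2 ^ k := by
        have s2 := Nat.sum_range_choose (m + 2)
        rw [Finset.sum_range_succ', Finset.sum_range_succ'] at s2
        have s4 : ∑ j ∈ Finset.range (m + 1), (m + 2).choose (j + 2) ≤ 2 ^ (m + 2) := by
          rw [← s2]
          exact (Nat.le_add_right _ _).trans (Nat.le_add_right _ _)
        have s3 : ∑ j ∈ Finset.range (m + 1), (m + 2).choose (j + 2) ≤ 2 ^ k :=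
          s4.trans (Nat.pow_le_pow_right two_pos hq)
        exact_mod_cast s3
      calc W ≤ ∑ j ∈ Finset.range (m + 1), ((m + 2).choose (j + 2) : ℝ) * c ^ m := by
            rw [hW]
            refine Finset.sum_le_sum fun j _ => ?_
            rw [hw]
            exact mul_le_mul_of_nonneg_left (pow_le_pow_right₀ hc1 (Nat.sub_le _ _)) (by positivity)
        _ ≤ _ := by
            rw [← Finset.sum_mul]
            exact mul_le_mul_of_nonneg_right s1 (by positivity)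
    have e1 : (τ + c • y) ^ (m + 1 + 1) =
        ∑ j ∈ Finset.range (m + 1), w j • (y ^ (m - j) * τ ^ (j + 2)) +
          ((m + 2) * c ^ (m + 1)) • (y ^ (m + 1) * τ) + c ^ (m + 2) • y ^ (m + 2) := by
      rw [add_pow, Finset.sum_range_succ', Finset.sum_range_succ']
      congr 1
      · congr 1
        · refine Finset.sum_congr rfl fun j _ => ?_
          rw [hw, show m + 1 + 1 - (j + 1 + 1) = m - j by omega]
          simp only [Algebra.smul_def, map_mul, map_pow, map_natCast]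
          ring
        · simp only [Algebra.smul_def, map_add, map_mul, map_pow, map_natCast, map_ofNat, zero_add,
            Nat.choose_one_right, Nat.add_sub_cancel]
          push_cast
          ring
      · simp only [Algebra.smul_def, map_pow, Nat.choose_zero_right, Nat.sub_zero]
        push_cast
        ring
    have e2 : ∑ j ∈ Finset.range (m + 1), w j • (y ^ (m - j) * (τ ^ (j + 2) +
        (2 * δ) • (y ^ (j + 1) * τ) + (η + 2 * δ ^ 2) • y ^ (j + 2))) =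
        ∑ j ∈ Finset.range (m + 1), w j • (y ^ (m - j) * τ ^ (j + 2)) +
          W • ((2 * δ) • (y ^ (m + 1) * τ) + (η + 2 * δ ^ 2) • y ^ (m + 2)) := by
      rw [hW, Finset.sum_smul, ← Finset.sum_add_distrib]
      refine Finset.sum_congr rfl fun j hj => ?_
      obtain ⟨i, rfl⟩ : ∃ i, m = j + i := ⟨m - j, by have := Finset.mem_range.1 hj; omega⟩
      rw [Nat.add_sub_cancel_left]
      simp only [Algebra.smul_def]
      ring
    have e3 : (τ + c • y) ^ (m + 1 + 1) =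
        ∑ j ∈ Finset.range (m + 1), w j • (y ^ (m - j) * (τ ^ (j + 2) +
          (2 * δ) • (y ^ (j + 1) * τ) + (η + 2 * δ ^ 2) • y ^ (j + 2))) +
        ((m + 2) * c ^ (m + 1) - 2 * δ * W) • (y ^ (m + 1) * (τ + δ • y)) +
        (c ^ (m + 2) - (η + 2 * δ ^ 2) * W - δ * ((m + 2) * c ^ (m + 1) - 2 * δ * W)) •
          y ^ (m + 2) := by
      rw [e1, e2]
      simp only [Algebra.smul_def, map_add, map_sub, map_mul, map_pow, map_natCast, map_ofNat]
      ring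
    rw [e3]
    have hcm : 0 ≤ c ^ m := by positivity
    have hm : (0 : ℝ) ≤ m := by positivity
    have hmk : (m : ℝ) + 2 ≤ k := by exact_mod_cast hq
    have i1 : 2 * δ * W ≤ c ^ (m + 1) := by
      calc 2 * δ * W ≤ 2 * δ * (2 ^ k * c ^ m) := by gcongr
        _ = 2 * δ * 2 ^ k * c ^ m := by ring
        _ ≤ c * c ^ m := by gcongr
        _ = _ := by ring
    have hcm1 : 0 ≤ c ^ (m + 1) := by positivity
    have i2 : (η + 2 * δ ^ 2) * W + δ * ((m + 2) * c ^ (m + 1)) ≤ c ^ (m + 2) := by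
      calc (η + 2 * δ ^ 2) * W + δ * ((m + 2) * c ^ (m + 1))
          ≤ (η + 2 * δ ^ 2) * (2 ^ k * c ^ (m + 1)) + δ * (k * c ^ (m + 1)) := by
            gcongr
            exact hW1.trans (by gcongr; omega)
        _ = ((η + 2 * δ ^ 2) * 2 ^ k + δ * k) * c ^ (m + 1) := by ring
        _ ≤ c * c ^ (m + 1) := by gcongr
        _ = _ := by ring
    refine ((Pos.sum _ fun j hj => (hmul _ (hU j ?_) _).smul (hw0 j)).add
      ((hmul _ h1 _).smul ?_)).add ((hy _).smul ?_)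
    · have := Finset.mem_range.1 hj
      omega
    · nlinarith
    · nlinarith [mul_nonneg hδ (mul_nonneg hδ hW0)]

/-- the Weyl formula in top degree for a general 4-tensor -/
lemma BP_weylT (D : DFA A) {d p : ℕ} {P : Eu A →L[ℝ] Eu A} (hP : IsProj d P) (F : D.R)
    (T : Eu A → Eu A → Eu A → Eu A → ℝ)
    (hF : (2 : ℝ) • F = ∑ u : Fin 2 → Fin A, ∑ v : Fin 2 → Fin A,
      T (ee (u 0)) (ee (u 1)) (ee (v 0)) (ee (v 1)) • mono D u v)
    (hT : ∀ a b x y, ∑ v : Fin 2 → Fin A, T a b (ee (v 0)) (ee (v 1)) *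
      (⟪P x, P (ee (v 0))⟫_ℝ * ⟪P y, P (ee (v 1))⟫_ℝ) = T a b x y) :
    2 ^ p * D.BP d P (F ^ p) = if 2 * p = d then weyl p T else 0 := by
  classical
  have h1 : 2 ^ p * D.BP d P (F ^ p) = D.BP d P (((2 : ℝ) • F) ^ p) := by
    rw [smul_pow, map_smul, smul_eq_mul]
  rw [h1, hF, Fintype.sum_pow, map_sum, ← (Equiv.curry (Fin p) (Fin 2) (Fin A)).sum_comp]
  have h2 : ∀ (α : Fin p × Fin 2 → Fin A) (β : Fin p → Fin 2 → Fin A), D.BP d P (∏ i,
      T (ee (Equiv.curry (Fin p) (Fin 2) (Fin A) α i 0))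
        (ee (Equiv.curry (Fin p) (Fin 2) (Fin A) α i 1)) (ee (β i 0)) (ee (β i 1)) •
        mono D (Equiv.curry (Fin p) (Fin 2) (Fin A) α i) (β i)) =
      if 2 * p = d then ∑ σ : Equiv.Perm (Fin p × Fin 2),
        ((Equiv.Perm.sign σ : ℤ) : ℝ) * ∏ i, T (ee (α (i, 0))) (ee (α (i, 1)))
          (ee (β i 0)) (ee (β i 1)) * (⟪P (ee (α (σ (i, 0)))), P (ee (β i 0))⟫_ℝ *
            ⟪P (ee (α (σ (i, 1)))), P (ee (β i 1))⟫_ℝ) else 0 := by
    intro α β
    have e : ∏ i, mono D (Equiv.curry (Fin p) (Fin 2) (Fin A) α i) (β i) =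
        ∏ u : Fin p × Fin 2, D.t (ee (α u)) (ee (β u.1 u.2)) := by
      rw [Fintype.prod_prod_type]
      rfl
    have e' : Fintype.card (Fin p × Fin 2) = 2 * p := by simp [mul_comm]
    rw [Finset.prod_smul, map_smul, e, D.BP_prod hP, e']
    split_ifs with hd
    · rw [Matrix.det_apply', smul_eq_mul, Finset.mul_sum]
      refine Finset.sum_congr rfl fun σ _ => ?_
      rw [Finset.prod_mul_distrib, Fintype.prod_prod_type, mul_left_comm]
      simp only [Fin.prod_univ_two, Matrix.of_apply]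
      rfl
    · simp
  simp only [Finset.prod_univ_sum, Fintype.piFinset_univ, map_sum, h2]
  split_ifs with hd
  · rw [weyl]
    refine Finset.sum_congr rfl fun α _ => ?_
    rw [Finset.sum_comm]
    refine Finset.sum_congr rfl fun σ _ => ?_
    rw [← Finset.mul_sum]
    congr 1
    simp only [← hT (ee (α (_, 0))) (ee (α (_, 1))) (ee (α (σ (_, 0)))) (ee (α (σ (_, 1))))]
    rw [Finset.prod_univ_sum, Fintype.piFinset_univ]
  · simp

lemma contract_gram {d : ℕ} {P : Eu A →L[ℝ] Eu A} (hP : IsProj d P) (a b x y : Eu A) :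
    ∑ v : Fin 2 → Fin A, gramT P a b (ee (v 0)) (ee (v 1)) *
      (⟪P x, P (ee (v 0))⟫_ℝ * ⟪P y, P (ee (v 1))⟫_ℝ) = gramT P a b x y := by
  have h1 : ∀ z w, ∑ e, ⟪P z, P (ee e)⟫_ℝ * ⟪P w, P (ee e)⟫_ℝ = ⟪P z, P w⟫_ℝ := by
    intro z w
    have : ∀ w e, ⟪P w, P (ee e)⟫_ℝ = ⟪P w, ee e⟫_ℝ := fun w e => by
      rw [← hP.symm, hP.idem]
    simp only [this]
    rw [inner_eq_sum_ee (P z) (P w)]
    simp only [real_inner_comm]
  rw [sum_two fun e f => gramT P a b (ee e) (ee f) * (⟪P x, P (ee e)⟫_ℝ * ⟪P y, P (ee f)⟫_ℝ)]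
  simp only [gramT]
  rw [← h1 a x, ← h1 b y, ← h1 a y, ← h1 b x, mul_comm (∑ e, ⟪P a, P (ee e)⟫_ℝ * ⟪P y, _⟫_ℝ),
    Finset.sum_mul_sum, Finset.sum_mul_sum, ← Finset.sum_sub_distrib]
  refine Finset.sum_congr rfl fun e _ => ?_
  rw [← Finset.sum_sub_distrib]
  refine Finset.sum_congr rfl fun f _ => ?_
  ring

lemma two_gram (D : DFA A) {d : ℕ} {P : Eu A →L[ℝ] Eu A} (hP : IsProj d P) :
    (2 : ℝ) • D.Th P ^ 2 = ∑ u : Fin 2 → Fin A, ∑ v : Fin 2 → Fin A,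
      gramT P (ee (u 0)) (ee (u 1)) (ee (v 0)) (ee (v 1)) • mono D u v := by
  have e1 : ∀ a c, ⟪P a, P c⟫_ℝ = ⟪P a, c⟫_ℝ := fun a c => by rw [← hP.symm, hP.idem]
  rw [two_sq]
  simp only [gramT, e1]

lemma pos_thorpe (S : Fin A → Eu A →L[ℝ] Eu A) (hS : ∀ c, SymTan P₀ (S c))
    {μ κ : ℝ} (j : ℕ)
    (h : ∀ P : Eu A →L[ℝ] Eu A, IsProj (2 * j) P → (∀ v, P₀ (P v) = P v) →
      κ ≤ weyl j fun a b c d => curvT S (P a) (P b) (P c) (P d) -
        μ * gramT P₀ (P a) (P b) (P c) (P d)) :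
    Pos D P₀ ((∑ c, D.Th (S c) ^ 2 - μ • D.Th P₀ ^ 2) ^ j + |κ| • (D.Th P₀ ^ 2) ^ j) := by
  intro d P hP hle
  have e0 : P.comp (P₀.comp P) = P := by
    ext1 v
    simp [hle, hP.idem]
  have q1 : D.Eqv d P (D.Th P) (D.Th P₀) := by
    have := D.eqv_Th hP P₀
    rwa [e0] at this
  have q2 : D.Eqv d P (∑ c, D.Th (P.comp ((S c).comp P)) ^ 2 - μ • D.Th P ^ 2)
      (∑ c, D.Th (S c) ^ 2 - μ • D.Th P₀ ^ 2) :=
    (DFA.Eqv.sum _ fun c _ => (D.eqv_Th hP (S c)).pow 2).sub ((q1.pow 2).smul μ)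
  rw [← ((q2.pow j).add (((q1.pow 2).pow j).smul |κ|)).BP, map_add, map_smul, smul_eq_mul]
  have hS' : ∀ c, SymTan P (P.comp ((S c).comp P)) := fun c =>
    ⟨fun v w => by simp [hP.symm, (hS c).symm], fun v => by simp [hP.idem],
      fun v => by simp [hP.idem]⟩
  have w1 := BP_weylT D (p := j) hP (∑ c, D.Th (P.comp ((S c).comp P)) ^ 2 - μ • D.Th P ^ 2)
    (fun a b c d => curvT (fun c => P.comp ((S c).comp P)) a b c d - μ * gramT P a b c d)
    (by
      rw [smul_sub, two_Om, smul_comm, two_gram D hP, Finset.smul_sum, ← Finset.sum_sub_distrib]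
      refine Finset.sum_congr rfl fun u _ => ?_
      rw [Finset.smul_sum, ← Finset.sum_sub_distrib]
      refine Finset.sum_congr rfl fun v _ => ?_
      rw [sub_smul, smul_smul])
    (fun a b x y => by
      rw [← contract hP hS' a b x y, ← contract_gram hP a b x y, Finset.mul_sum,
        ← Finset.sum_sub_distrib]
      exact Finset.sum_congr rfl fun v _ => by ring)
  by_cases hd : 2 * j = d
  · subst hd
    rw [if_pos rfl] at w1
    have w2 : D.BP (2 * j) P ((D.Th P ^ 2) ^ j) = ((2 * j).factorial : ℝ) := by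
      have := EWeylAux.gram D (ι := Empty) Empty.elim Empty.elim (2 * j) hP (by simp)
      simpa [pow_mul] using this
    have w3 : (fun a b c d => curvT (fun c => P.comp ((S c).comp P)) a b c d -
        μ * gramT P a b c d) = fun a b c d => curvT S (P a) (P b) (P c) (P d) -
        μ * gramT P₀ (P a) (P b) (P c) (P d) := by
      funext a b c d
      simp [curvT, gramT, hle, hP.symm]
    rw [w3] at w1
    have w4 := (h P hP hle).trans_eq w1.symm
    rw [w2]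
    have w5 : (1 : ℝ) ≤ ((2 * j).factorial : ℝ) := by exact_mod_cast Nat.factorial_pos _
    have w6 : (1 : ℝ) ≤ 2 ^ j := one_le_pow₀ one_le_two
    have w7 := neg_abs_le κ
    have w8 := abs_nonneg κ
    generalize D.BP (2 * j) P _ = B at w4 ⊢
    rcases le_total 0 B with hB | hB
    · positivity
    · nlinarith
  · rw [if_neg hd] at w1
    have w2 := BP_weylT D (p := j) hP (D.Th P ^ 2) (gramT P) (two_gram D hP) (contract_gram hP)
    rw [if_neg hd] at w2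
    have w3 : (2 : ℝ) ^ j ≠ 0 := by positivity
    rw [(mul_eq_zero.1 w1).resolve_left w3, (mul_eq_zero.1 w2).resolve_left w3]
    simp

lemma pos_low (h0 : IsProj n P₀) (S : Fin A → Eu A →L[ℝ] Eu A) (hS : ∀ c, SymTan P₀ (S c))
    {s : ℝ} (hs : 0 ≤ s) (h : ∀ v w, -s * gramT P₀ v w v w ≤ curvT S v w v w) :
    Pos D P₀ (∑ c, D.Th (S c) ^ 2 + s • D.Th P₀ ^ 2) ∧
      Pos D P₀ ((∑ c, D.Th (S c) ^ 2 + s • D.Th P₀ ^ 2) ^ 2) := by
  let L : Option (Fin A) → Eu A →L[ℝ] Eu A := fun i => i.elim (√s • P₀) S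
  have hL : ∀ i v w, ⟪L i v, w⟫_ℝ = ⟪v, L i w⟫_ℝ := by
    rintro (_ | i) v w
    · simp [L, inner_smul_left, inner_smul_right, h0.symm]
    · exact (hS i).symm v w
  have hR : ∀ v w, 0 ≤ Rm L v w v w := by
    intro v w
    have h1 := h v w
    have e : ∀ a b, ⟪P₀ a, P₀ b⟫_ℝ = ⟪P₀ a, b⟫_ℝ := fun a b => by rw [← h0.symm, h0.idem]
    simp only [gramT, curvT, e] at h1
    simp only [Rm, Fintype.sum_option, L, Option.elim, smul_apply, real_inner_smul_left]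
    have h2 := Real.mul_self_sqrt hs
    have h3 : √s * ⟪P₀ v, v⟫_ℝ * (√s * ⟪P₀ w, w⟫_ℝ) - √s * ⟪P₀ v, w⟫_ℝ * (√s * ⟪P₀ w, v⟫_ℝ) =
        s * (⟪P₀ v, v⟫_ℝ * ⟪P₀ w, w⟫_ℝ - ⟪P₀ v, w⟫_ℝ * ⟪P₀ w, v⟫_ℝ) := by
      linear_combination (⟪P₀ v, v⟫_ℝ * ⟪P₀ w, w⟫_ℝ - ⟪P₀ v, w⟫_ℝ * ⟪P₀ w, v⟫_ℝ) * h2
    linarith
  have e : ∑ c, D.Th (S c) ^ 2 + s • D.Th P₀ ^ 2 = ∑ i, D.Th (L i) ^ 2 := by
    simp only [Fintype.sum_option, L, Option.elim, map_smul, smul_pow, Real.sq_sqrt hs, add_comm]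
  rw [e]
  exact ⟨fun d P hP _ => pos_one D hL hR hP, fun d P hP _ => pos_two D hL hR hP⟩

end TAux

open TAux EFinalAux

theorem posK_thorpe (n k : ℕ) (κ μ : ℝ) : ∃ (l : ℝ) (hl : 0 < l), 1 ≤ l ∧
    ∀ (A : ℕ) (X : Emb A n), SecGE κ X.M →
      (∀ p, 3 ≤ p → p ≤ k → ∀ x ∈ X.M, ∀ W : Submodule ℝ (Eu A), Module.finrank ℝ W = 2 * p →
        (∀ v ∈ W, proj X.M x v = v) → κ ≤ weyl p fun a b c d =>
          riem X.M x (W.starProjection a) (W.starProjection b) (W.starProjection c)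
            (W.starProjection d) - μ * gram X.M x (W.starProjection a) (W.starProjection b)
              (W.starProjection c) (W.starProjection d)) →
      (scale X hl).Sec ∧ ∀ F : DFA A, F.PosK (scale X hl) k := by
  obtain ⟨δ, hδ⟩ : ∃ δ : ℝ, δ = |μ| + |κ| := ⟨_, rfl⟩
  have hδ0 : 0 ≤ δ := by rw [hδ]; positivity
  obtain ⟨l, hl⟩ : ∃ l : ℝ,
    l = 1 + δ + 2 * δ * 2 ^ k + ((|κ| + 2 * δ ^ 2) * 2 ^ k + δ * k) := ⟨_, rfl⟩
  have a1 : 0 ≤ 2 * δ * 2 ^ k := by positivity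
  have a2 : 0 ≤ (|κ| + 2 * δ ^ 2) * 2 ^ k + δ * k := by positivity
  have hl1 : 1 ≤ l := by linarith
  have hl0 : 0 < l := by linarith
  have hll : l ≤ l ^ 2 := by nlinarith
  have b1 := neg_abs_le μ
  have b2 := le_abs_self μ
  have b3 := neg_abs_le κ
  have b4 := abs_nonneg κ
  have b5 := abs_nonneg μ
  refine ⟨l, hl0, hl1, fun A X hs hT =>
    ⟨sec_Sec _ (scale_sec X hl0 (by linarith) hs), fun F z hz G hG => ?_⟩⟩
  have hx : l⁻¹ • z ∈ X.M := hz
  have h0 := Emb.isProj hx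
  have hS := (Lev.base hx).symTan_Sop
  have e : F.Rh (scale X hl0) z = (l ^ 2)⁻¹ • ((∑ c, F.Th (Sop X.P (l⁻¹ • z) c) ^ 2 -
      μ • F.Th (X.P (l⁻¹ • z)) ^ 2) + (l ^ 2 + μ) • F.Th (X.P (l⁻¹ • z)) ^ 2) := by
    simp only [DFA.Rh, DFA.Om, scale_Sop, scale_P, map_smul, smul_pow, ← Finset.smul_sum, inv_pow]
    have e1 : ∀ u y : F.R, u - μ • y + (l ^ 2 + μ) • y = u + (l ^ 2) • y := fun u y => by module
    rw [e1, smul_add, smul_smul, inv_mul_cancel₀ (by positivity), one_smul]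
  obtain ⟨p1, p2⟩ := pos_low (D := F) h0 _ hS (s := δ - μ) (by linarith) fun v w => by
    have h1 := hs _ hx v w
    rw [riem_eq X hx, gram_eq X hx] at h1
    nlinarith [gramT_nonneg (X.P (l⁻¹ • z)) v w]
  have e2 : ∑ c, F.Th (Sop X.P (l⁻¹ • z) c) ^ 2 + (δ - μ) • F.Th (X.P (l⁻¹ • z)) ^ 2 =
      (∑ c, F.Th (Sop X.P (l⁻¹ • z) c) ^ 2 - μ • F.Th (X.P (l⁻¹ • z)) ^ 2) +
        δ • F.Th (X.P (l⁻¹ • z)) ^ 2 := by
    rw [sub_smul]
    abel
  rw [e2] at p1 p2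
  have p3 := pos_pow h0 _ k (c := l ^ 2 + μ) hδ0 b4 (by linarith) (by linarith) (by linarith) p1 p2
    fun j h3 hj => pos_thorpe _ hS j fun P hP hle => by
      have hW : ∀ v, (LinearMap.range (P : Eu A →ₗ[ℝ] Eu A)).starProjection v = P v := fun v => by
        refine Submodule.eq_starProjection_of_mem_of_inner_eq_zero (LinearMap.mem_range_self _ v) ?_
        rintro _ ⟨w, rfl⟩
        change ⟪v - P v, P w⟫_ℝ = 0
        rw [← hP.symm, map_sub, hP.idem, sub_self, inner_zero_left]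
      have h1 := hT j h3 hj _ hx (LinearMap.range (P : Eu A →ₗ[ℝ] Eu A)) hP.dim (by
        rintro _ ⟨w, rfl⟩
        rw [X.proj_eq hx]
        exact hle w)
      simpa only [hW, riem_eq X hx, gram_eq X hx] using h1
  rw [scale_P]
  refine Pos.cone (P₀ := X.P (l⁻¹ • z)) (fun q hq => ?_) hG n _ h0 h0.idem
  rw [e, smul_pow]
  exact (p3 q hq).smul (by positivity)

end Pool.Agent.AlEmb
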